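import Pool.Agent.Lib.MP_305fdd_al.CZ.A.Defs
import Pool.Agent.Lib.MP_305fdd_al.F2.BDefs

/-!
# MP_305fdd_al (`C_m * Z`), part A: the operator `Φ` on the function field. Definitions.

Version with two variables of `F2/GDefs.lean` (last part) and `F2/BDefs.lean`.
-/

set_option autoImplicit false

namespace Pool.Agent.CZA

open MvPolynomial Pool.Agent.CZ
open Pool.Agent.F2 (rt)

noncomputable section

/-- the polynomial ring in two variables -/
abbrev Ak (k : Type) [Field k] : Type := MvPolynomial (Fin 2) k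

section cartier

variable (p : ℕ) [hp : Fact p.Prime] (k : Type) [Field k] [CharP k p] [PerfectRing k p]

/-- the component of exponent `α`: `coeff w (compk α a) ^ p = coeff (p • w + α) a` -/
def compk (α : Fin 2 →₀ ℕ) : Ak k →+ Ak k where
  toFun a := AddMonoidAlgebra.ofCoeff
    (Finsupp.mapRange (rt p k) (map_zero _)
      (Finsupp.comapDomain (fun w : Fin 2 →₀ ℕ => p • w + α) (AddMonoidAlgebra.coeff a)
        (F2TF.shift_inj α).injOn))
  map_zero' := by
    ext m
    exact map_zero (rt p k)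
  map_add' a b := by
    ext m
    exact map_add (rt p k) _ _

theorem coeff_compk (α w : Fin 2 →₀ ℕ) (a : Ak k) :
    coeff w (compk p k α a) = rt p k (coeff (p • w + α) a) := rfl

/-- the Cartier operator of the polynomial ring -/
def psik : Ak k →+ Ak k := compk p k (F2TF.cst (p - 1))

/-- the Cartier operator on maps `D → k[t]`: `(cartk l)(d) = psik (l (d ^ p))` -/
def cartk {D : Type} [CommRing D] (l : D → Ak k) : D → Ak k :=
  fun b => psik p k (l (b ^ p))

/-- `D` is finite over `P = k[t_1, t_2]`, `t_i = x_i + g_i ^ p`, and the Cartier operator is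
locally nilpotent on `Hom_P(D, P)`. -/
structure NP (D : Type) [CommRing D] [Algebra k D] (x g : Fin 2 → D) : Prop where
  fin : (aeval (fun i => x i + g i ^ p) : Ak k →ₐ[k] D).Finite
  nil : ∀ l : D →+ Ak k,
    (∀ (a : Ak k) (c : D), l (aeval (fun i => x i + g i ^ p) a * c) = a * l c) →
    ∃ N : ℕ, ∀ c : D, ((cartk p k)^[N] (l : D → Ak k)) c = 0

end cartier

/-! ## p-bases with two elements -/

section pbas

variable {K : Type} [CommRing K]

/-- the combination `∑ e, c e ^ p * x ^ e` (`F2Ch.monY x e = ∏ i, x i ^ (e i : ℕ)`) -/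
def pcomb {p : ℕ} (x : Fin 2 → K) (c : (Fin 2 → Fin p) → K) : K := ∑ e, c e ^ p * F2Ch.monY x e

/-- `x` is `p`-independent -/
def PInd (p : ℕ) (x : Fin 2 → K) : Prop :=
  ∀ c : (Fin 2 → Fin p) → K, pcomb x c = 0 → ∀ e, c e = 0

/-- `x` is a `p`-basis -/
def PBas (p : ℕ) (x : Fin 2 → K) : Prop :=
  PInd p x ∧ ∀ f : K, ∃ c : (Fin 2 → Fin p) → K, f = pcomb x c

/-- the largest exponent -/
def top2 (p : ℕ) [hp : Fact p.Prime] : Fin 2 → Fin p :=
  fun _ => ⟨p - 1, Nat.sub_lt hp.out.pos one_pos⟩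

/-- the coefficients of `f` with respect to the `p`-basis `x` -/
def cof (p : ℕ) (x : Fin 2 → K) (f : K) : (Fin 2 → Fin p) → K :=
  Classical.epsilon fun c => f = pcomb x c

/-- the Cartier operator: the coefficient of the largest monomial -/
def Car (p : ℕ) [Fact p.Prime] (x : Fin 2 → K) (f : K) : K := cof p x f (top2 p)

/-- exponents as finitely supported functions -/
def toF {p : ℕ} (e : Fin 2 → Fin p) : Fin 2 →₀ ℕ :=
  Finsupp.equivFunOnFinite.symm fun i => (e i : ℕ)

end pbas

section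

variable (k : Type) [Field k]

/-- the field `k(s)` -/
abbrev Mf : Type := FractionRing (Ls k)

/-- `s - 1/s` -/
def dd : Ls k := AddMonoidAlgebra.single 1 1 - AddMonoidAlgebra.single (-1) 1

/-- restriction to the reducible locus: `X 0 ↦ 0`, `X 1 ↦ s + 1/s` -/
def resA : Ak k →ₐ[k] Ls k := aeval ![0, rr 1 1]

end

section

variable (p : ℕ) [hp : Fact p.Prime] (k : Type) [Field k] [CharP k p] [PerfectRing k p]

/-- what is needed of `D`: `φ : k[X 0, X 1] → D`, `X 0` = uniformiser, `res : D → k[s, 1/s]` -/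
structure BD (D : Type) [CommRing D] [Algebra k D] (φ : Ak k →ₐ[k] D) (res : D →ₐ[k] Ls k)
    (g : Fin 2 → D) : Prop where
  odd : p ≠ 2
  dom : IsDomain D
  ft : Algebra.FiniteType k D
  res_φ : ∀ a, res (φ a) = resA _ a
  surj : Function.Surjective res
  kne : φ (X 0) ≠ 0
  loc : ∃ q : D, res q ≠ 0 ∧ ∀ b, res b = 0 → ∃ c, q * b = φ (X 0) * c
  np : NP p k D (fun i => φ (X i)) g

end

section

variable {k : Type} [Field k] {D : Type} [CommRing D] [Algebra k D]

/-- the two coordinates in the field -/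
def xK (φ : Ak k →ₐ[k] D) (K : Type) [Field K] [Algebra D K] : Fin 2 → K :=
  fun i => algebraMap D K (φ (X i))

/-- the local ring `O` of the reducible locus in `K` and its residue map `ρ` -/
structure OR (φ : Ak k →ₐ[k] D) (res : D →ₐ[k] Ls k)
    (K : Type) [Field K] [Algebra D K] (O : ValuationSubring K) (ρ : O →+* Mf k) : Prop where
  mem : ∀ f : K, f ∈ O ↔ ∃ a b : D, res b ≠ 0 ∧ f * algebraMap D K b = algebraMap D K a
  dmem : ∀ d : D, algebraMap D K d ∈ O
  ρ_D : ∀ d : D, ρ ⟨algebraMap D K d, dmem d⟩ = algebraMap (Ls k) (Mf k) (res d)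
  ker : ∀ f : O, ρ f = 0 ↔ ∃ g ∈ O, (f : K) = algebraMap D K (φ (X 0)) * g
  /-- every nonzero element is a power of the uniformiser times a unit -/
  unif : ∀ f : K, f ≠ 0 → ∃ (n : ℤ) (u : O), ρ u ≠ 0 ∧
    f = algebraMap D K (φ (X 0)) ^ n * u

/-- `L` is the field of fractions of `P = k[t]`, embedded in `K` by `t_i = x_i + g_i ^ p` -/
structure LK (p : ℕ) (φ : Ak k →ₐ[k] D) (g : Fin 2 → D) (K : Type) [Field K] [Algebra D K]
    (L : Type) [Field L] [Algebra (Ak k) L] [Algebra L K] : Prop where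
  compat : ∀ a : Ak k, algebraMap L K (algebraMap (Ak k) L a) =
    algebraMap D K (aeval (fun i => φ (X i) + g i ^ p) a)

/-- `h ∈ Om` if `Tr (h D) ⊆ P` -/
def Om (k D K L : Type) [Field k] [CommRing D] [Field K] [Algebra D K]
    [Field L] [Algebra (Ak k) L] [Algebra L K] : Set K :=
  {h | ∀ d : D, ∃ a : Ak k,
    Algebra.trace L K (h * algebraMap D K d) = algebraMap (Ak k) L a}

end

section

variable (p : ℕ) [hp : Fact p.Prime] {k : Type} [Field k] [CharP k p] [PerfectRing k p]
  {D : Type} [CommRing D] [Algebra k D]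

/-- THE RESULT: the operator `Φ f = C (f h) / h`, `h` a `C`-fixed element with a simple pole along the
reducible locus, on the field `K` of fractions of `D`. -/
structure FB (φ : Ak k →ₐ[k] D) (res : D →ₐ[k] Ls k)
    (K : Type) [Field K] [Algebra D K] (O : ValuationSubring K) (ρ : O →+* Mf k) (h : K)
    (Φ : K → K) : Prop where
  or : OR φ res K O ρ
  /-- `xK` is a `p`-basis of `K` -/
  bas : PBas p (xK φ K)
  pb : F2Ch.IsPB p (F2Ch.monY (xK φ K)) fun (e : Fin 2 → Fin p) f => cof p (xK φ K) f e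
  h_ne : h ≠ 0
  h_fix : Car p (xK φ K) h = h
  h_res : ∃ w : O, ρ w * algebraMap (Ls k) (Mf k) (dd k) = 1 ∧
    (w : K) = algebraMap D K (φ (X 0)) * h
  def_Φ : ∀ f, Φ f = Car p (xK φ K) (f * h) / h
  pinv : F2Ch.IsPinv p Φ
  one : Φ 1 = 1
  /-- the residual map on `D` is the toric operator -/
  tor : ∀ d : D, ∃ w : O, (w : K) = Φ (algebraMap D K d) ∧
    ρ w = algebraMap (Ls k) (Mf k) (ths p k (res d))
  /-- `Φ ^ N f = cs (res f) ^ (1 / p ^ N)` for large `N` -/
  tau : ∀ d : D, ∃ N₀ : ℕ, ∀ N ≥ N₀, Φ^[N] (algebraMap D K d) =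
    algebraMap D K (algebraMap k D ((rt p k)^[N] (cs (res d))))

end

end

end Pool.Agent.CZA
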