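import Pool.Agent.Lib.MP_305fdd_al.CZ.A.BDefs

/-!
# MP_305fdd_al (`C_m * Z`), part A: the operator `Φ` on the function field. Statements and proofs.

Version with two variables of `F2/StmB.lean`; input `BD`, output `FB` (see `CZ/A/BDefs.lean`).
Every piece may use the statements named in its docstring as hypotheses.
-/

set_option autoImplicit false

namespace Pool.Agent.CZA

open MvPolynomial Pool.Agent.CZ
open Pool.Agent.F2 (rt)

/-! ## Part 1: p-bases -/

/-- [CF car] elementary properties of `pcomb`, `Car`.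

Proof. `c ↦ pcomb x c` is additive in characteristic `p` (`add_pow_char`), `pcomb x (a • c) = a ^ p * pcomb x c`,
injective by `PInd`; `Classical.epsilon_spec`. -/
def S_car : Prop := ∀ (p : ℕ) [Fact p.Prime] (K : Type) [Field K] [CharP K p] (x : Fin 2 → K),
    (PInd p x → (∀ c c' : (Fin 2 → Fin p) → K, pcomb x c = pcomb x c' → c = c') ∧
      (∀ c : (Fin 2 → Fin p) → K, cof p x (pcomb x c) = c ∧ Car p x (pcomb x c) = c (top2 p))) ∧
    (PBas p x → (∀ f, pcomb x (cof p x f) = f) ∧ (∀ f g, Car p x (f + g) = Car p x f + Car p x g) ∧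
      ∀ a f, Car p x (a ^ p * f) = a * Car p x f)

/-- [CF chg] the `p`-basis `t_i = x_i + g_i ^ p` has the same Cartier operator.

Proof. Expand `t ^ e = ∏ (x_i + g_i ^ p) ^ (e_i) = ∑ e' ≤ e, (b_(e,e')) ^ p x ^ e'` with
`b_(e,e') = ∏ binom(e_i, e'_i) g_i ^ (e_i - e'_i)` (`binom ^ p = binom` in characteristic `p`), `b_(e,e) = 1`. So
`pcomb t c = pcomb x c'`, `c'_(e') = ∑ e ≥ e', b_(e,e') c_e`; the map `c ↦ c'` is linear and unitriangular
(bijective), `c'_top = c_top`. -/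
def S_chg : Prop := ∀ (p : ℕ) [Fact p.Prime] (K : Type) [Field K] [CharP K p] (x g : Fin 2 → K),
    (PInd p x → PInd p fun i => x i + g i ^ p) ∧
    (PBas p (fun i => x i + g i ^ p) → PBas p x ∧ ∀ f, Car p (fun i => x i + g i ^ p) f = Car p x f)

/-- [CF pol] the decomposition of polynomials.

Proof. `coeff_compk`; for `c ∈ k[X]`: `c ^ p = ∑ w, (coeff w c) ^ p X ^ (p w)` (`map_sum` for the Frobenius, or
`MvPolynomial.map (frobenius) (expand p c) = c ^ p`, `MvPolynomial.expand_char`), every exponent is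
uniquely `p w + e` with `e_i < p`; `(rt x) ^ p = x`. -/
def S_pol : Prop := ∀ (p : ℕ) [Fact p.Prime] (k : Type) [Field k] [CharP k p] [PerfectRing k p],
    (∀ a : Ak k, a = pcomb X fun e : Fin 2 → Fin p => compk p k (toF e) a) ∧
    (∀ c c' : (Fin 2 → Fin p) → Ak k, pcomb X c = pcomb X c' → c = c') ∧
    ∀ c : (Fin 2 → Fin p) → Ak k, psik p k (pcomb X c) = c (top2 p)

/-- [CF fpl] the field of rational functions. (Uses `S_pol`, `S_car`.)

Proof. `PInd`: multiply by a common denominator `b ^ p`. Generation: `a / b = a b ^ (p - 1) / b ^ p`. -/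
def S_fpl : Prop := ∀ (p : ℕ) [Fact p.Prime] (k : Type) [Field k] [CharP k p] [PerfectRing k p]
    (L : Type) [Field L] [Algebra (Ak k) L] [IsFractionRing (Ak k) L],
    PBas p (fun i => algebraMap (Ak k) L (X i)) ∧
    ∀ a : Ak k, Car p (fun i => algebraMap (Ak k) L (X i)) (algebraMap _ L a) =
      algebraMap _ L (psik p k a)

/-- [CF fld] finite extensions in which the `p`-basis stays `p`-independent. (Uses `S_car`.)

Proof. Let `s = algebraMap ∘ t`. (0) If `w_1, .., w_n ∈ K` are linearly independent over `L` then so are the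
`w_i ^ p`: write `l_i = pcomb t (l_(i,e))`; `∑ i, l_i w_i ^ p = pcomb s (e ↦ ∑ i, l_(i,e) w_i) = 0`, so all
`∑ i, l_(i,e) w_i = 0` and `l_(i,e) = 0`. So for a basis `w` of `K` over `L` also `w ^ p` is a basis.
(1) `f = ∑ i, l_i w_i ^ p = pcomb s (e ↦ ∑ i, l_(i,e) w_i)`: `PBas p s`. (2) separable: if the minimal
polynomial of `c ∈ K` is inseparable, it is a polynomial in `X ^ p` (`Polynomial.separable_or`,
`expand`), of degree `p n`, `n ≥ 1`; `1, c, .., c ^ n` are linearly independent (`n < p n`), but their `p`-th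
powers are dependent, contradiction to (0). (3) `trace (c ^ p) = (trace c) ^ p`: if `c w_i = ∑ m_ij w_j`
then `c ^ p w_i ^ p = ∑ m_ij ^ p w_j ^ p`, the trace of `c ^ p` computed in the basis `w ^ p` is `∑ m_ii ^ p`.
(4) `h = pcomb s c`, `trace h = ∑ e, trace (c_e) ^ p t ^ e = pcomb t (trace ∘ c)`, compare the top coefficients. -/
def S_fld : Prop := ∀ (p : ℕ) [Fact p.Prime] (L K : Type) [Field L] [Field K] [CharP L p]
    [CharP K p] [Algebra L K] [FiniteDimensional L K] (t : Fin 2 → L), PBas p t →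
    PInd p (fun i => algebraMap L K (t i)) →
    PBas p (fun i => algebraMap L K (t i)) ∧ Algebra.IsSeparable L K ∧
    ∀ h : K, Algebra.trace L K (Car p (fun i => algebraMap L K (t i)) h) =
      Car p t (Algebra.trace L K h)

/-! ## Part 2: the residual computation -/

/-- [CF ths] properties of the toric operator.

Proof. `s ^ p = ∑ (s_c) ^ p χ^(p c)` (`c ∈ ℤ`), coefficients. Iterates: `ths^[n] a` has the coefficient
`rt^[n] (a_(p^n c))` at `c`; `a` has finite support. (Compare `F2.S_th`, proof in `F2/FB/th.lean`.) -/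
def S_ths : Prop := ∀ (p : ℕ) [Fact p.Prime] (k : Type) [Field k] [CharP k p] [PerfectRing k p],
    (∀ s a : Ls k, ths p k (s ^ p * a) = s * ths p k a) ∧
    ths p k 1 = 1 ∧ (∀ a, cs (ths p k a) = rt p k (cs a)) ∧
    ∀ a, ∃ N₀ : ℕ, ∀ N ≥ N₀, (ths p k)^[N] a = algebraMap k _ ((rt p k)^[N] (cs a))

/-- [CF ry] the Cartier operator of `k(s)` for the `p`-basis `y = s + 1/s`. (Uses `S_ths`.)

Proof. `dd = s - 1/s`. (1) `ths (y ^ j dd) = 0` for `j < p - 1` and `= dd` for `j = p - 1`: `y ^ j dd` is antisymmetric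
under `s ↦ 1/s`, with exponents in `[-j-1, j+1]`; the coefficient at `0` is `0` (`p ≠ 2`), the only other
exponents divisible by `p` occur for `j = p - 1`: `±p`, with coefficients `±1`. (2) Let `c_j ∈ Mf k`, `a ∈ Ls k` with
`∑ c_j ^ p y ^ j = a`; choose a common denominator `b ≠ 0` in `Ls k`, `c_j b = c_j' ∈ Ls k`. Then
`∑ c_j' ^ p y ^ j = b ^ p a`, so `∑ c_j' ths (y ^ j dd) = ths (b ^ p a dd) = b ths (a dd)`, i.e.
`c_(p-1)' dd = b ths (a dd)`; divide by `b`. (3) Independence: let `∑ c_j ^ p y ^ j = 0`. By (2) with `a = 0`,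
`c_(p-1) = 0` (`dd ≠ 0`). Multiply by `y` and repeat: `∑ j < p - 1, c_j ^ p y ^ (j+1) = 0`, so `c_(p-2) = 0`, and so
on (downward induction on the largest `j` with `c_j ≠ 0`). -/
def S_ry : Prop := ∀ (p : ℕ) [Fact p.Prime], p ≠ 2 → ∀ (k : Type) [Field k] [CharP k p]
    [PerfectRing k p],
    (∀ (c : Fin p → Mf k) (a : Ls k),
      ∑ j, c j ^ p * algebraMap (Ls k) (Mf k) (rr 1 1) ^ (j : ℕ) = algebraMap (Ls k) (Mf k) a →
      ∀ j : Fin p, (j : ℕ) = p - 1 → c j * algebraMap (Ls k) (Mf k) (dd k) =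
        algebraMap (Ls k) (Mf k) (ths p k (a * dd k))) ∧
    ∀ c : Fin p → Mf k,
      ∑ j, c j ^ p * algebraMap (Ls k) (Mf k) (rr 1 1) ^ (j : ℕ) = 0 → ∀ j, c j = 0

/-! ## Part 3: the local ring of the reducible locus -/

section

variable (p : ℕ) [Fact p.Prime] (k : Type) [Field k] [CharP k p] [PerfectRing k p]
  (D : Type) [CommRing D] [Algebra k D] (φ : Ak k →ₐ[k] D) (res : D →ₐ[k] Ls k) (g : Fin 2 → D)
  (K : Type) [Field K] [Algebra D K]

/-- [CF or] existence of `O`, `ρ`.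

Proof. `I = ker res`, prime (`Ls k` is a domain), `D` a Noetherian domain. `O` = the image of `D_I` in `K`
(`Localization.AtPrime`, or directly the set described in `mem`, a subring). The maximal ideal of `D_I`
is generated by `κ = φ (X 0)` (`loc`: `q` is a unit there), so `D_I` is a discrete valuation ring
(`IsDiscreteValuationRing.TFAE`, `κ ≠ 0` by `kne`), so a valuation ring, and `unif`. Directly: for
`0 ≠ d ∈ D` there are `n` and `d'` with `res d' ≠ 0`, `q ^ n d = κ ^ n d'`: otherwise `d ∈ κ ^ n D_I` for all `n` and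
Krull's intersection theorem gives `d = 0`. `ρ (a / b) = res a / res b` (`IsLocalization.lift`). `ker`:
`res a = 0 → q a = κ c`. (Adapt `F2/FB/or.lean`; `kap` is replaced by `X 0`, `e` with `res e = 1` by `q` with
`res q ≠ 0`.) -/
def S_or : Prop := BD p k D φ res g → IsFractionRing D K →
    ∃ (O : ValuationSubring K) (ρ : O →+* Mf k), OR φ res K O ρ

/-- [CF ind] `p`-independence of `x = (κ, y)` over `K`, uniformly along the reducible locus. (Uses
`S_ry`.)

Proof. `κ = φ (X 0)`, `y = φ (X 1)`, `res κ = 0`, `res y = s + 1/s` (`res_φ`), `pcomb x c = ∑ c_(i,j) ^ p κ ^ i y ^ j`.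
(1) Let `c_e ∈ O` for all `e` and `pcomb x c ∈ κ ^ p O`. Then all `c_e ∈ κ O`: by induction on `i < p` all `c_(i,j) ∈ κ O`:
the terms with smaller first index are in `κ ^ p O` (induction), so `∑ i' ≥ i, j, c_(i',j) ^ p κ ^ i' y ^ j ∈ κ ^ p O`; divide
by `κ ^ i`: `∑ j, c_(i,j) ^ p y ^ j ∈ κ O`, apply `ρ`: `∑ j, ρ(c_(i,j)) ^ p (s + 1/s) ^ j = 0` in `Mf k`, so
`ρ(c_(i,j)) = 0` (`S_ry`), i.e. `c_(i,j) ∈ κ O` (`OR.ker`). (2) If `pcomb x c ∈ O` then all `c_e ∈ O`: otherwise there is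
`n ≥ 1` with all `κ ^ n c_e ∈ O`, and not all in `κ O` (`unif`); but `pcomb x (κ ^ n c) = κ ^ (n p) pcomb x c ∈ κ ^ p O`,
contradiction to (1). (3) `PInd`: if `pcomb x c = 0`, not all `c_e = 0`, scale `c` by a power of `κ` such that all are
in `O` and not all in `κ O`: contradiction to (1). (Parts (2), (3) as in `F2/FB/ind.lean`.) -/
def S_ind : Prop := BD p k D φ res g → IsFractionRing D K → ∀ (O : ValuationSubring K)
    (ρ : O →+* Mf k), OR φ res K O ρ →
    PInd p (xK φ K) ∧ ∀ c : (Fin 2 → Fin p) → K, pcomb (xK φ K) c ∈ O → ∀ e, c e ∈ O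

/-! ## Part 4: the field `L` of fractions of `P` -/

/-- [CF lk] existence of `L` and the `p`-basis of `K`. (Uses `S_ind`, `S_or`, `S_chg`, `S_fpl`,
`S_fld`, `S_car`.)

Proof. `t_i = x_i + g_i ^ p ∈ D`, `ι = aeval t : P → D`. `t` is `p`-independent in `K` (`S_ind`, `S_chg`), so `ι` is
injective: if `ι a = 0` with `a ≠ 0` of minimal total degree, `a = ∑ a_e ^ p X ^ e` (`S_pol`), then
`0 = pcomb t (ι a_e)`, so `ι a_e = 0` for all `e`, and the nonzero `a_e` have smaller degree unless `a` is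
constant, which is impossible. `L = FractionRing P` maps to `K` (`IsFractionRing.lift`), `[K : L] < ∞`:
`D` is finite over `P` (`NP.fin`) and `K = D L` (every element of `K` is `d / ι a`: a nonzero `b ∈ D` divides
a nonzero element of `ι P`, the constant coefficient of its minimal integral equation). Now `S_fpl`,
`S_fld`, `S_chg`. (Adapt `F2/FB/lk.lean`.) -/
def S_lk : Prop := BD p k D φ res g → IsFractionRing D K →
    ∃ (L : Type) (_ : Field L) (_ : Algebra (Ak k) L) (_ : Algebra L K),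
      IsFractionRing (Ak k) L ∧ FiniteDimensional L K ∧ LK p φ g K L

/-- [CF pb] (Uses the same statements as `S_lk`.) The proof is contained in the docstring of `S_lk`;
`Car` for `t` and `x` agree by `S_chg`. (Adapt `F2/FB/pb.lean`.) -/
def S_pb : Prop := BD p k D φ res g → IsFractionRing D K → ∀ (L : Type) [Field L]
    [Algebra (Ak k) L] [Algebra L K] [IsFractionRing (Ak k) L] [FiniteDimensional L K],
    LK p φ g K L → PBas p (xK φ K) ∧ Algebra.IsSeparable L K ∧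
      (∀ h : K, Algebra.trace L K (Car p (xK φ K) h) =
        Car p (fun i => algebraMap (Ak k) L (X i)) (Algebra.trace L K h)) ∧
      ∀ f : K, ∃ (d : D) (a : Ak k), a ≠ 0 ∧
        f * algebraMap L K (algebraMap (Ak k) L a) = algebraMap D K d

/-- [CF om] the module `Om`. (Uses `S_pb`, `S_fpl`, `S_car`.)

Proof. (1) `D` is integral over `P`, `P` is integrally closed (a UFD), so traces of elements of `D` lie in
`P` (`Algebra.isIntegral_trace`, `IsIntegrallyClosed`). (2) additive, `D`-module: clear. (3) `h ∈ Om`, `d ∈ D`: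
`Tr (C(h) d) = Tr (C(h d ^ p)) = C_L (Tr (h d ^ p)) ∈ C_L P ⊆ P` (`S_pb`, `S_fpl`). (Adapt `F2/FB/om.lean`.) -/
def S_om : Prop := BD p k D φ res g → IsFractionRing D K → ∀ (L : Type) [Field L]
    [Algebra (Ak k) L] [Algebra L K] [IsFractionRing (Ak k) L] [FiniteDimensional L K],
    LK p φ g K L → (∀ d : D, algebraMap D K d ∈ Om k D K L) ∧
      (∀ h h' : K, h ∈ Om k D K L → h' ∈ Om k D K L → h + h' ∈ Om k D K L ∧ -h ∈ Om k D K L) ∧
      (∀ (d : D) (h : K), h ∈ Om k D K L → algebraMap D K d * h ∈ Om k D K L) ∧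
      ∀ h : K, h ∈ Om k D K L → Car p (xK φ K) h ∈ Om k D K L

/-- [CF nil] the Cartier operator is locally nilpotent on `Om`. (Uses `S_pb`, `S_fpl`, `S_om`, `S_car`.)

Proof. For `h ∈ Om` let `l : D → P` with `Tr (h d) = l d` (unique, `P → L` is injective); additive,
`l (ι a * d) = a * l d`. `cartk l (d) = psik (l (d ^ p)) = C_L (Tr (h d ^ p)) = Tr (C(h) d)`, so by induction
`Tr (C^[N] h * d) = cartk^[N] l (d)`. By `NP.nil` there is `N` with `Tr (C^[N] h * d) = 0` for all `d ∈ D`, so for all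
elements of `K = D L` (last part of `S_pb`), so `C^[N] h = 0` (nondegeneracy of the trace form of a
separable extension, `traceForm_nondegenerate`). `C 0 = 0` for larger exponents. (Adapt `F2/FB/nil.lean`.) -/
def S_nil : Prop := BD p k D φ res g → IsFractionRing D K → ∀ (L : Type) [Field L]
    [Algebra (Ak k) L] [Algebra L K] [IsFractionRing (Ak k) L] [FiniteDimensional L K],
    LK p φ g K L → ∀ h ∈ Om k D K L, ∃ N₀ : ℕ, ∀ N ≥ N₀, (Car p (xK φ K))^[N] h = 0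

/-- [CF mo] elements of `O` with `h (ker res) ⊆ Om` lie in `Om`. (Uses `S_om`.)

Proof. Let `d ∈ D`, `Tr (h d) = n / q` in lowest terms in the UFD `P` (`IsFractionRing`, `num`, `den`); we show
that `q` is a unit. Suppose that the prime `π` divides `q`. Let `𝔞 = {a ∈ P | ι a * h ∈ Om}`; for `a ∈ 𝔞`
`a n / q ∈ P`, so `q ∣ a n`, `π ∣ a`. So it is enough to find `a ∈ 𝔞` with `¬ π ∣ a`. Case 1: `res (ι π) ≠ 0`. The
element `κ = φ (X 0) ≠ 0` of `ker res` is integral over `P`; the constant coefficient `a_n` of an integral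
equation of minimal degree is nonzero and lies in `ker res`; some prime factor `π_1` of `a_n` has
`res (ι π_1) = 0` (`Ls k` is a domain), `ι π_1 * h ∈ Om`, and `π ∣ π_1` would give `π ~ π_1`, `res (ι π) = 0`.
Case 2: `res (ι π) = 0`. As `h ∈ O` there is `s ∈ D` with `res s ≠ 0`, `s h ∈ D`. Let `n` be minimal such that there
are `a_1, .., a_n ∈ P` with `i := s^n + ι a_1 s^(n-1) + .. + ι a_n ∈ ker res` (`s` is integral over `P`); `n ≥ 1`, and
`res (ι a_n) ≠ 0` (otherwise `res s * res (s^(n-1) + ..) = 0`, contradiction to the minimality). Then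
`ι a_n h = i h - (s^(n-1) + .. + ι a_(n-1)) (s h) ∈ Om` (`D ⊆ Om`), and `¬ π ∣ a_n` as `res (ι π) = 0`. (Adapt `F2/FB/mo.lean`.) -/
def S_mo : Prop := BD p k D φ res g → IsFractionRing D K → ∀ (O : ValuationSubring K)
    (ρ : O →+* Mf k), OR φ res K O ρ → ∀ (L : Type) [Field L]
    [Algebra (Ak k) L] [Algebra L K] [IsFractionRing (Ak k) L] [FiniteDimensional L K],
    LK p φ g K L → ∀ h ∈ O, (∀ i : D, res i = 0 → h * algebraMap D K i ∈ Om k D K L) →
      h ∈ Om k D K L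

/-- [CF rc] the residual map of `C`. (Uses `S_ind`, `S_ry`, `S_car`.)

Proof. `x = (κ, y)`, `κ = φ (X 0)`, `y = φ (X 1)`, `C = Car p x`. (1) `f ∈ O`: `f = pcomb x c`, `c_e ∈ O` by `S_ind`,
`C f = c_top ∈ O`. (2) `f = pcomb x c`, `c_e ∈ O`. `κ ^ (p-1) f = ∑ c_(i,j) ^ p κ ^ (p-1+i) y ^ j`; for `i ≥ 1`
`κ ^ (p-1+i) = κ ^ p κ ^ (i-1)`: so `κ ^ (p-1) f = pcomb x c'` with `c'_(p-1,j) = c_(0,j)`, `c'_(i-1,j) = κ c_(i,j)`, and
`w' := C (κ ^ (p-1) f) = c_(0,p-1)`. `ρ f = ∑ j, ρ(c_(0,j)) ^ p (s + 1/s) ^ j`. If `ρ f * b = a`, `b ≠ 0`, then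
`∑ j, (ρ(c_(0,j)) b) ^ p (s + 1/s) ^ j = a b ^ (p-1)`, and `S_ry` gives `ρ(w') b dd = ths (a b ^ (p-1) dd)`. -/
def S_rc : Prop := BD p k D φ res g → IsFractionRing D K → ∀ (O : ValuationSubring K)
    (ρ : O →+* Mf k), OR φ res K O ρ → PBas p (xK φ K) →
    (∀ f ∈ O, Car p (xK φ K) f ∈ O) ∧
    ∀ f : O, ∃ w' : O,
      (w' : K) = Car p (xK φ K) (algebraMap D K (φ (X 0)) ^ (p - 1) * f) ∧
      ∀ a b : Ls k, b ≠ 0 → ρ f * algebraMap (Ls k) (Mf k) b = algebraMap (Ls k) (Mf k) a →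
        ρ w' * algebraMap (Ls k) (Mf k) (b * dd k) =
          algebraMap (Ls k) (Mf k) (ths p k (a * b ^ (p - 1) * dd k))

/-- [CF h] the `C`-fixed element `h` with a simple pole along the reducible locus. (Uses
`S_om`, `S_nil`, `S_mo`, `S_rc`, `S_car`, `S_ths`, `S_pb`.)

Proof. `C = Car p x`, `κ = φ (X 0)`. `Mo = {h | h * ker res ⊆ Om}` is additive, contains `Om`, and is stable under
`C` (`C(h) i = C(h i ^ p)`) and under `D`. Let `q` be as in `loc`: `q f / κ ∈ Mo` for `f ∈ D` (`q i = κ c`, `(q f / κ) i = f c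
∈ D ⊆ Om`). Let `G = res q * dd ≠ 0`, `a` = the smallest exponent of `G`, `g_a` its coefficient, `f ∈ D` with
`res f = g_a⁻¹ s ^ (-a)` (`surj`): `G * res f = 1 + ∑ i > 0, c_i s ^ i`, so `ths^[N] (G * res f) = 1` for large `N`
(`S_ths`, last part: the constant term is `1`). Put `v_j = κ C^[j] (q f / κ)`. Claim: `v_j ∈ O` and
`ρ(v_j) dd = ths^[j] (G * res f)`: `j = 0`: `v_0 = q f`. Step: `v_(j+1) = κ C (v_j / κ) = C (κ ^ (p-1) v_j)`; `S_rc` (2) with
`b = dd`, `a = a_j := ths^[j] (G res f)`: `ρ(v_(j+1)) dd dd = ths (a_j dd ^ p) = dd ths (a_j)`. So for large `N` the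
element `h_1 = C^[N] (q f / κ) ∈ Mo` has `ρ(κ h_1) dd = 1` and also `ρ(κ C h_1) dd = ths 1 = 1`. So `κ (C h_1 - h_1)` has
residue `0`, `u := C h_1 - h_1 ∈ O` (`OR.ker`), `u ∈ Mo`, so `u ∈ Om` (`S_mo`). Let `C^[M] u = 0` (`S_nil`),
`h = h_1 + ∑ j < M, C^[j] u`. `C h = C h_1 + ∑ 1 ≤ j ≤ M, C^[j] u = h_1 + u + ∑ 1 ≤ j < M, C^[j] u = h`.
`κ h = κ h_1 + κ (∑ ..)` has the residue of `κ h_1`, since `C^[j] u ∈ O` (`S_rc` (1)). `h ∈ Mo`. -/
def S_h : Prop := BD p k D φ res g → IsFractionRing D K → ∀ (O : ValuationSubring K)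
    (ρ : O →+* Mf k), OR φ res K O ρ → ∀ (L : Type) [Field L]
    [Algebra (Ak k) L] [Algebra L K] [IsFractionRing (Ak k) L] [FiniteDimensional L K],
    LK p φ g K L → ∃ h : K, Car p (xK φ K) h = h ∧
      (∃ w : O, ρ w * algebraMap (Ls k) (Mf k) (dd k) = 1 ∧
        (w : K) = algebraMap D K (φ (X 0)) * h) ∧
      ∀ i : D, res i = 0 → h * algebraMap D K i ∈ Om k D K L

/-- [CF fb] THE RESULT. (Uses `S_or`, `S_lk`, `S_pb`, `S_h`, `S_rc`, `S_mo`, `S_nil`, `S_om`, `S_ths`,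
`S_car`.)

Proof. `Φ f = C (f h) / h`, `κ h = w`, `ρ(w) dd = 1`, so `h ≠ 0`. `bas`, `pb`: `S_pb`, `S_car`. `add`, `frob`, `one`: `S_car`,
`C h = h`. RESIDUAL MAP: for `f ∈ O`: `Φ f = κ C(f h) / (κ h) = C (κ ^ (p-1) (f w)) / w`. If `ρ f = a / b` then `ρ(f w) (b dd) =
a`, so by `S_rc` (2) (with `b dd`) `ρ(C (κ ^ (p-1) f w)) b dd dd = ths (a (b dd) ^ (p-1) dd) = dd ths (a b ^ (p-1))`, hence
`Φ f ∈ O` and `ρ(Φ f) b = ths (a b ^ (p-1))` (`w` is a unit of `O`). `tor`: `b = 1`. Also: `ρ f = 0` implies `ρ (Φ f) = 0`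
(`a = 0`). `tau`: let `d ∈ D`, `τ = cs (res d)`. The elements `Φ^[n] d ∈ O` have residue `ths^[n] (res d)`
(`b = 1`, induction). By `S_ths` `Φ^[n] d - τ_n ∈ κ O` for some `n`, `τ_n = rt^[n] τ ∈ k`.
`v := C^[n] (d h) - τ_n h = h (Φ^[n] d - τ_n) ∈ h κ O ⊆ O`, and `v ∈ Mo` (`d h ∈ Mo`, `Mo` is stable under `C`, see `S_h`), so
`v ∈ Om` (`S_mo`), `C^[m] v = 0` for `m ≥ m_0` (`S_nil`), so `C^[m + n] (d h) = C^[m] (τ_n h) = rt^[m] (τ_n) h`
(`c = (rt c) ^ p`), i.e. `Φ^[m + n] d = rt^[m + n] τ`. (Compare `F2/FB/fb.lean`.) -/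
def S_fb : Prop := BD p k D φ res g → IsFractionRing D K →
    ∃ (O : ValuationSubring K) (ρ : O →+* Mf k) (h : K) (Φ : K → K), FB p φ res K O ρ h Φ

end

/-! ## Part 5: the semilinear symmetry -/

/-- [CF iot] the symmetry commutes with `Φ`. (Uses `S_car`, `S_ths`.)

Proof. Let `C = Car p (xK φ K)`, `τ_N(d) = rt^[N] (cs (res d))`. Write `c^σ` for the automorphism
`∑ c_n s ^ n ↦ ∑ c_n ^ p s ^ (-n)` of `Ls k` (a ring automorphism as `k` is perfect), extended to `Mf k`. `hres` says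
`res (ι d) = (res d)^σ`. (1) `ι(C f) = C(ι f)`: `ι` fixes `xK φ K i`, so `ι (pcomb x c) = pcomb x (ι c)`. (2) `ι O = O` and
`ρ (ι f) = (ρ f)^σ` (`OR.mem`, `OR.ρ_D`, `ρ(a/b) = res a / res b`). (3) `h' := -ι⁻¹ h`: `C h' = h'`, and
`w = κ h` with `ρ(w) dd = 1`; `ι⁻¹(w) = κ ι⁻¹(h)`, `ρ(ι⁻¹ w) (dd)^(σ⁻¹) = 1`, `dd^σ = -dd`, so `ρ(κ h') dd = 1`. Put
`b = h'/h`; `κ h' = b κ h`, so `b ∈ O` and `ρ b = 1` (`ρ(κ h) ≠ 0`), and `Φ b = C (h') / h = b`.
`Φ'(f) := C(f h')/h' = Φ(b f)/b`, and `Φ'(f) = ι⁻¹(Φ(ι f))` (by (1): `ι⁻¹ (C(ι f h)/h) = C(f ι⁻¹ h)/ι⁻¹ h`).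
(4) `tau` for `Φ'`: for `d ∈ D` `Φ'^[N] d = ι⁻¹ (Φ^[N] (ι d)) = ι⁻¹ (rt^[N] (cs (res (ι d)))) = ι⁻¹ (rt^[N] ((cs (res d)) ^ p)) =
τ_N(d)` for large `N`. So `Φ^[N] (b d) = b τ_N(d)` for `d ∈ D`, `N` large (`Φ'^[N] f = Φ^[N] (b f) / b`). (5) Write
`b = a / c`, `a, c ∈ D`, `res c ≠ 0`; choose `d ∈ D` with `cs (res (c d)) ≠ 0` (`surj`: `res d = s ^ (-i)`, `i` in the
support of `res c`). `b c d = a d ∈ D`: `b τ_N(c d) = Φ^[N] (b c d) = τ_N(a d)`, so `b ∈ k`; `ρ b = 1` gives `b = 1`. So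
`Φ' = Φ`. -/
def S_iot : Prop := ∀ (p : ℕ) [Fact p.Prime] (k : Type) [Field k] [CharP k p] [PerfectRing k p]
    (D : Type) [CommRing D] [Algebra k D] (φ : Ak k →ₐ[k] D) (res : D →ₐ[k] Ls k)
    (g : Fin 2 → D) (K : Type) [Field K] [Algebra D K] [IsFractionRing D K]
    (O : ValuationSubring K) (ρ : O →+* Mf k) (h : K) (Φ : K → K),
    BD p k D φ res g → FB p φ res K O ρ h Φ → ∀ (ι : K ≃+* K) (j : D ≃+* D),
    (∀ d, ι (algebraMap D K d) = algebraMap D K (j d)) →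
    (∀ c : k, j (algebraMap k D c) = algebraMap k D (c ^ p)) →
    (∀ i, j (φ (X i)) = φ (X i)) →
    (∀ (d : D) (n : ℤ), (res (j d)).coeff n = ((res d).coeff (-n)) ^ p) →
    ∀ f, ι (Φ f) = Φ (ι f)

end Pool.Agent.CZA
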