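import Pool.Agent.Lib.MP_305fdd_al.CZ.A.StmL

/-!
# MP_305fdd_al (`C_m * Z`), part A: statements and proofs, file K (two facts for the core data)

Every piece may use the statements named in its docstring as hypotheses.
-/

set_option autoImplicit false

namespace Pool.Agent.CZA

open MvPolynomial Pool.Agent.Lib.MP_305fdd_al Pool.Agent.MP_305fdd_al Pool.Agent.CZ
open Pool.Agent.F2 (PC)

noncomputable section

/-- [CK irr] the pseudo-character is irreducible. (Uses `S_ex`, `S_rec`; see the latter in `Stm.lean`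
for the recursions `T (x ^ (j + 1) * h) = T x * T (x ^ j * h) - T (x ^ (j - 1) * h)`.)

Proof. Suppose `T (g h g⁻¹ h⁻¹) = 2` for all `g, h`. (1) `T (g h g⁻¹ h⁻¹) = x ^ 2 + y ^ 2 + z ^ 2 - x y z - 2` with
`x = T g`, `y = T h`, `z = T (g h)` (Fricke; from `PC`: `T (g h g⁻¹ h⁻¹) = T (g h g⁻¹) T h - T (g h g⁻¹ h)`,
`T (g h g⁻¹ h) = T (g h) T (g⁻¹ h) - T (g h h⁻¹ g) = z (x y - z) - (x ^ 2 - 2)`, as `T (g⁻¹ h) = T g T h - T (g h)`).
(2) Let `c = g h g⁻¹ h⁻¹` and `u` arbitrary: apply (1) to `u, c`, `T c = 2`: `(T u - T (u c)) ^ 2 = 0`, and `D` is a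
domain (`BD.dom`), so `T (u c) = T u`. The `c` with `T (u c) = T u` for all `u` form a subgroup, so this is true
for all `c` in the commutator subgroup. By `S_ex` (the elements with `e2 = 1`, `n = 1` are in the commutator
subgroup) `T g` depends only on `e2 g` and `n (e1 g)`. (3) Let `γ, σ` have the classes `e2 γ = ofAdd 1`, `n = 0` and
`e2 σ = 1`, `n = 1` (`S_ex`), `w = T γ`, `X = T σ`, `Y = T (γ σ)`. `γ ^ (2 m)` has trivial classes, so
`T (γ ^ (j + 2 m)) = T (γ ^ j)`, the `k`-span `N` of the `T (γ ^ j)`, `j < 2 m`, is finitely generated, contains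
`T 1 = 2 ≠ 0` and is stable under multiplication by `w` (`w T (γ ^ j) = T (γ ^ (j+1)) + T (γ ^ (j-1))`), so `w` is
integral over `k` (`isIntegral_of_smul_mem_submodule`; `D` is a domain), so `w` is in the image of `k`
(`k` is algebraically closed; e.g. `IsAlgClosed.algebraMap_surjective_of_isIntegral` for
`Algebra.adjoin k {w}`, or split the minimal polynomial). By `res_T`, `res w = rr ζ 0` is the constant
`ζ⁻¹ + ζ`, so `w = algebraMap (ζ⁻¹ + ζ)`. (4) All `T (γ ^ a σ ^ i)` (`a ∈ ℕ`, `i ∈ ℤ`), so all `T g`, are in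
`Algebra.adjoin k {X, Y}` (recursions in `a` and in `i`, in both directions; start: `T 1 = 2, T γ = w, T σ = X,
T (γ σ) = Y`). So `D = Algebra.adjoin k {X, Y}` (`Dat1.gen`) `= Algebra.adjoin k {U, V}` with `U = Y - ζ X`,
`V = Y - ζ⁻¹ X` (`ζ ≠ ζ⁻¹` since `orderOf ζ = 2 m ≥ 4`). By (1) for `γ, σ`: `w ^ 2 + X ^ 2 + Y ^ 2 - w X Y = 4`, i.e.
`U V = 4 - w ^ 2 = - (ζ - ζ⁻¹) ^ 2 =: κ ≠ 0` in `k`. (5) Let `ψ : Ls k → D` be the `k`-algebra homomorphism with
`ψ s = (ζ⁻¹ - ζ)⁻¹ U`, a unit with inverse `(ζ - ζ⁻¹)⁻¹ V` (`AddMonoidAlgebra.lift`, `zpowersHom`, or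
`LaurentPolynomial`); onto by (4). `res X = rr 1 1 = s + s⁻¹`, `res Y = rr ζ 1 = ζ⁻¹ s + ζ s⁻¹`,
`res U = (ζ⁻¹ - ζ) s`, so `res ∘ ψ` is the identity; as `ψ` is onto, `res` is injective. But
`res (φ (X 0)) = resA (X 0) = 0` and `φ (X 0) ≠ 0` (`BD.res_φ`, `BD.kne`). Contradiction. -/
def S_irr : Prop := ∀ (p m : ℕ) [Fact p.Prime] [NeZero m] (k : Type) [Field k] [CharP k p]
    [IsAlgClosed k] (ζ : kˣ) (Λ : Type) [Group Λ] (δ : Λ →* Multiplicative (ZMod m))
    (n : Λ →* Multiplicative ℤ) (D : Type) [CommRing D] [Algebra k D] (T : Ext m δ → D)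
    (φ : Ak k →ₐ[k] D) (res : D →ₐ[k] Ls k) (g : Fin 2 → D) (j : D ≃+* D),
    Dat1 p m k ζ Λ δ n D T φ res g j → ∃ g h, T (g * h * g⁻¹ * h⁻¹) ≠ 2

/-- [CK cnt] counting lifts. (Uses `S_ex`.)

Proof. If there is no such `f` the cardinality is `0`. Otherwise `θ (cc m δ) = 1`, and both `θ` and every
such `f` factor through `e1 m δ` (onto, with kernel `{1, cc m δ}`: `S_ex`): `θ = θ' ∘ e1`, and `f' ↦ f' ∘ e1` is a
bijection from the set of `f' : Λ →* Q` with `π ∘ f' = θ'` to the given set. Replace `Q'` by the finite group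
`π.range` (`θ'` has values in it because `π ∘ f' = θ'` for some `f'`). By naturality and bijectivity of `Φ`
(`NatBij`) the number of the `f' : Λ →* Q` with `π ∘ f' = θ'` is the number of the `ψ : Gam m →* Q` with
`π ∘ ψ = ψ'`, where `Φ ψ' = θ'`. `ψ` is determined by its values at `inl (ofAdd 1)` and `inr (ofAdd 1)`
(`Monoid.Coprod.hom_ext`), and these values lie in fixed cosets of `π.ker`: so there are at most
`|π.ker| ^ 2` such `ψ`. (The set of all `f` is finite: `Ext m δ`... use the bijections, everything is injected in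
`Q × Q`.) -/
def S_cnt : Prop := ∀ (m : ℕ) [NeZero m] (Λ : Type) [Group Λ], NatBij (Gam m) Λ →
    ∀ (δ : Λ →* Multiplicative (ZMod m)) (Q Q' : Type) [Group Q] [Finite Q] [Group Q']
    (π : Q →* Q') (θ : Ext m δ →* Q'),
    Nat.card {f : Ext m δ →* Q // π.comp f = θ ∧ f (cc m δ) = 1} ≤ Nat.card π.ker ^ 2

end

end Pool.Agent.CZA
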