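import Pool.Agent.Lib.MP_305fdd_al.CZ.A.CoreOrd
import Pool.Agent.Lib.MP_305fdd_al.CZ.A.StmF
import Pool.Agent.Lib.MP_305fdd_al.CZ.A.StmK
import Pool.Agent.Lib.MP_305fdd_al.F2.RF.W7
import Pool.Agent.Lib.MP_305fdd_al.F2.Ch.B1
import Pool.Agent.Lib.MP_305fdd_al.F2.Ch.B4

/-!
# MP_305fdd_al (`C_m * Z`), part A: existence of the core data
-/

set_option autoImplicit false

namespace Pool.Agent.CZA

open MvPolynomial Pool.Agent.F2Ch Pool.Agent.F2W Pool.Agent.F2RF Pool.Agent.CZ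
open Pool.Agent.Lib.MP_305fdd_al Pool.Agent.MP_305fdd_al
open Pool.Agent.F2 (PC rt)

noncomputable section

/-! ## The character `χ` -/

section chi

variable {m : ℕ} [NeZero m] {k : Type} [Field k] {ζ : kˣ} {Λ : Type} [Group Λ]
  (δ : Λ →* Multiplicative (ZMod m))

omit [NeZero m] in
theorem pow_md (hζ : orderOf ζ = 2 * m) (a : ℕ) : ζ ^ (a % (2 * m)) = ζ ^ a := by
  rw [← hζ, pow_mod_orderOf]

/-- `g ↦ ζ ^ (ev g)` -/
def chi (hζ : orderOf ζ = 2 * m) : Ext m δ →* kˣ :=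
  MonoidHom.mk' (fun g => ζ ^ ev m δ g) (by
    intro g h
    have : NeZero (2 * m) := ⟨mul_ne_zero two_ne_zero (NeZero.ne m)⟩
    rw [← pow_add]
    unfold ev
    rw [map_mul, toAdd_mul, ZMod.val_add, pow_md hζ])

set_option linter.unusedSectionVars false in
theorem chi_apply (hζ : orderOf ζ = 2 * m) (g : Ext m δ) : chi δ hζ g = ζ ^ ev m δ g := rfl

theorem chi_eq_one (hζ : orderOf ζ = 2 * m) (g : Ext m δ) (h : chi δ hζ g = 1) :
    e2 m δ g = 1 := by
  have : NeZero (2 * m) := ⟨mul_ne_zero two_ne_zero (NeZero.ne m)⟩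
  rw [chi_apply] at h
  have h1 := orderOf_dvd_of_pow_eq_one h
  rw [hζ] at h1
  have h2 : ev m δ g < 2 * m := ZMod.val_lt _
  have h3 : ev m δ g = 0 := Nat.eq_zero_of_dvd_of_lt h1 h2
  exact Multiplicative.toAdd.injective ((ZMod.val_eq_zero _).1 h3)

theorem chi_pow (hζ : orderOf ζ = 2 * m) (g : Ext m δ) : chi δ hζ g ^ (2 * m) = 1 := by
  rw [chi_apply, ← pow_mul, mul_comm, pow_mul, ← hζ, pow_orderOf_eq_one, one_pow]

theorem zeta_m (hζ : orderOf ζ = 2 * m) : ζ ^ m = -1 := by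
  have h1 : (ζ ^ m) * (ζ ^ m) = 1 := by
    rw [← pow_add, ← two_mul, ← hζ, pow_orderOf_eq_one]
  rcases (Units.inv_eq_self_iff _).1 (inv_eq_of_mul_eq_one_left h1) with h2 | h2
  · exfalso
    have h3 := orderOf_dvd_of_pow_eq_one h2
    rw [hζ] at h3
    have h4 := Nat.le_of_dvd (Nat.pos_of_ne_zero (NeZero.ne m)) h3
    have h5 := Nat.pos_of_ne_zero (NeZero.ne m)
    omega
  · exact h2

theorem exists_pow (hζ : orderOf ζ = 2 * m) (z : kˣ) (hz : z ^ (2 * m) = 1) :
    ∃ a : ℕ, ζ ^ a = z := by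
  have : NeZero (2 * m) := ⟨mul_ne_zero two_ne_zero (NeZero.ne m)⟩
  have h1 : IsPrimitiveRoot ζ (2 * m) := hζ ▸ IsPrimitiveRoot.orderOf ζ
  have h2 : IsPrimitiveRoot (ζ : k) (2 * m) := IsPrimitiveRoot.coe_units_iff.2 h1
  obtain ⟨i, -, hi⟩ := h2.eq_pow_of_pow_eq_one (ξ := (z : k)) (by
    rw [← Units.val_pow_eq_pow_val, hz, Units.val_one])
  exact ⟨i, Units.ext (by rw [Units.val_pow_eq_pow_val, hi])⟩

end chi

/-! ## The construction -/

section

variable {p : ℕ} [Fact p.Prime] {k : Type} [Field k] [CharP k p] [PerfectRing k p]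
  {D : Type} [CommRing D] [Algebra k D] {res : D →ₐ[k] Ls k} {g : Fin 2 → D} {φ : Ak k →ₐ[k] D}
  {K : Type} [Field K] [Algebra k K] [Algebra D K] [IsScalarTower k D K] [IsFractionRing D K]
  {O : ValuationSubring K} {ρ : O →+* Mf k} {h : K} {Φ : K → K}

omit [Algebra k K] [IsScalarTower k D K] [IsFractionRing D K] in
theorem OR.frac (hO : OR φ res K O ρ) (u : O) : ∃ a b : D, res b ≠ 0 ∧
    (u : K) * algebraMap D K b = algebraMap D K a ∧
    ρ u * algebraMap (Ls k) (Mf k) (res b) = algebraMap (Ls k) (Mf k) (res a) := by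
  obtain ⟨a, b, h1, h2⟩ := (hO.mem u).1 u.2
  refine ⟨a, b, h1, h2, ?_⟩
  rw [← hO.ρ_D, ← hO.ρ_D, ← map_mul]
  congr 1
  exact Subtype.ext h2

variable (k D K) in
/-- `D → K` -/
abbrev iDK : D →ₐ[k] K := IsScalarTower.toAlgHom k D K

variable (k D K) in
theorem iDK_inj : Function.Injective (iDK k D K) := IsFractionRing.injective D K

variable (K) in
/-- `res` on the range of `D → K` -/
def resB (res : D →ₐ[k] Ls k) : (iDK k D K).range →ₐ[k] Ls k :=
  res.comp (AlgEquiv.ofInjective (iDK k D K) (iDK_inj k D K)).symm.toAlgHom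

variable (k K) in
/-- an element of `D` as an element of the range -/
def toB (d : D) : (iDK k D K).range := AlgEquiv.ofInjective (iDK k D K) (iDK_inj k D K) d

theorem toB_coe (d : D) : ((toB k K d : (iDK k D K).range) : K) = algebraMap D K d := rfl

theorem toB_surj (b : (iDK k D K).range) : ∃ d : D, toB k K d = b :=
  (AlgEquiv.ofInjective (iDK k D K) (iDK_inj k D K)).surjective b

theorem resB_toB (d : D) : resB K res (toB k K d) = res d := by
  show res ((AlgEquiv.ofInjective (iDK k D K) (iDK_inj k D K)).symm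
    (AlgEquiv.ofInjective (iDK k D K) (iDK_inj k D K) d)) = res d
  rw [AlgEquiv.symm_apply_apply]

theorem od (hB : BD p k D φ res g) (hO : OR φ res K O ρ) :
    OD (iDK k D K).range (resB K res) (toB k K (φ (X 0))) := by
  refine ⟨?_, ?_, ?_, ?_⟩
  · rw [toB_coe]
    intro h
    exact hB.kne (IsFractionRing.injective D K (h.trans (map_zero _).symm))
  · rw [resB_toB, hB.res_φ]
    unfold resA
    rw [aeval_X]
    rfl
  · intro s
    obtain ⟨d, hd⟩ := hB.surj s
    exact ⟨toB k K d, by rw [resB_toB]; exact hd⟩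
  · intro x hx
    obtain ⟨n, u, h1, h2⟩ := hO.unif x hx
    obtain ⟨a, b, h3, h4, h5⟩ := hO.frac u
    refine ⟨n, toB k K a, toB k K b, ?_, ?_, ?_⟩
    · rw [resB_toB]
      intro h6
      rw [h6, map_zero] at h5
      have h7 : algebraMap (Ls k) (Mf k) (res b) ≠ 0 := fun h8 =>
        h3 (IsFractionRing.injective (Ls k) (Mf k) (h8.trans (map_zero _).symm))
      exact mul_ne_zero h1 h7 h5
    · rwa [resB_toB]
    · rw [toB_coe, toB_coe, toB_coe, h2, mul_assoc, h4]

theorem resTor (hF : FB p φ res K O ρ h Φ) :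
    ResTor p (iDK k D K).range (resB K res) Φ := by
  intro b
  obtain ⟨d, rfl⟩ := toB_surj b
  obtain ⟨w, h1, h2⟩ := hF.tor d
  obtain ⟨a, b, h3, h4, h5⟩ := hF.or.frac w
  refine ⟨toB k K a, toB k K b, by rwa [resB_toB], ?_, ?_⟩
  · rw [toB_coe, toB_coe, toB_coe, ← h1, h4]
  · rw [resB_toB, resB_toB, resB_toB]
    rw [h2, ← map_mul] at h5
    exact (IsFractionRing.injective (Ls k) (Mf k) h5).symm

theorem rr_one_ne (k : Type) [Field k] : (rr 1 1 : Ls k) ≠ 0 := by
  intro h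
  have h1 : (rr 1 1 : Ls k).coeff 1 = 0 := by rw [h]; rfl
  unfold rr at h1
  rw [AddMonoidAlgebra.coeff_add, AddMonoidAlgebra.coeff_single, AddMonoidAlgebra.coeff_single,
    Finsupp.add_apply, Finsupp.single_eq_same, Finsupp.single_apply, if_neg (by decide)] at h1
  simp at h1

omit [Algebra k K] [IsScalarTower k D K] in
theorem mb (hB : BD p k D φ res g) (hF : FB p φ res K O ρ h Φ) :
    MB p (xK φ K) (fun e f => cof p (xK φ K) f e) := by
  refine ⟨?_, hF.pb⟩
  intro i hi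
  have h1 : φ (X i) = 0 :=
    IsFractionRing.injective D K (hi.trans (map_zero _).symm)
  fin_cases i
  · exact hB.kne h1
  · have h2 := hB.res_φ (X 1)
    rw [show φ (X 1) = 0 from h1, map_zero] at h2
    unfold resA at h2
    rw [aeval_X] at h2
    exact rr_one_ne k h2.symm

omit [Algebra k K] [IsScalarTower k D K] in
theorem logTy [CharP K p] (hB : BD p k D φ res g) (hF : FB p φ res K O ρ h Φ) : LogTy p Φ := by
  refine (p_W7 p K 2 (xK φ K) _ (mb hB hF)).2.2 Φ h (top2 p) hF.h_ne (fun _ => rfl) ?_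
  intro x
  rw [hF.def_Φ, div_eq_inv_mul, mul_comm x h]
  rfl

theorem trdeg2 [CharP K p] (n : ℕ) (t : Fin n → K) (ht : FracGen k t)
    (b0 : Fin (p ^ 2) → K) (ρ0 : Fin (p ^ 2) → K → K) (h0 : IsPB p b0 ρ0) :
    Algebra.trdeg k K = 2 := by
  obtain ⟨d, b, ρ', h1, h2⟩ := p_B4 p k K n t ht
  have hp : 1 < p := (Fact.out : p.Prime).one_lt
  have key : ∀ (ι ι' : Type) [Fintype ι] [Fintype ι'] (b : ι → K) (r : ι → K → K) (b' : ι' → K)
      (r' : ι' → K → K), IsPB p b r → IsPB p b' r' → Fintype.card ι' ≤ Fintype.card ι := by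
    intro ι ι' _ _ b r b' r' hb hb'
    refine (p_B1 p K ι b r hb ι' b' ?_).1
    intro a ha
    funext i
    have h3 := hb'.uniq a i
    have h4 := hb'.uniq 0 i
    rw [ha] at h3
    have h5 : ∑ j, (0 : ι' → K) j ^ p * b' j = 0 := by
      apply Finset.sum_eq_zero
      intro j _
      rw [Pi.zero_apply, zero_pow (Fact.out : p.Prime).ne_zero, zero_mul]
    rw [h5] at h4
    rw [← h3, h4]
  have k1 := key _ _ b ρ' b0 ρ0 h2 h0
  have k2 := key _ _ b0 ρ0 b ρ' h0 h2
  rw [Fintype.card_fin, Fintype.card_fin] at k1 k2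
  have h3 : d = 2 := Nat.pow_right_injective hp (le_antisymm k2 k1)
  rw [h1, h3]
  rfl

omit [IsFractionRing D K] in
variable (k D K) in
/-- generators of `D` in `K`, the first one is a given element -/
theorem gens (hD : Algebra.FiniteType k D) (d0 : D) : ∃ (n : ℕ) (t : Fin n → K) (j0 : Fin n),
    t j0 = algebraMap D K d0 ∧ (∀ x : K, x ∈ (iDK k D K).range ↔
      ∃ q : MvPolynomial (Fin n) k, aeval t q = x) := by
  obtain ⟨s, hs⟩ := hD.out
  let t' : Fin (s.card + 1) → D := Fin.cons d0 fun j => (s.equivFin.symm j : D)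
  have ht' : Algebra.adjoin k (Set.range t') = ⊤ := by
    rw [← top_le_iff, ← hs]
    apply Algebra.adjoin_mono
    intro x hx
    refine ⟨Fin.succ (s.equivFin ⟨x, hx⟩), ?_⟩
    show Fin.cons (α := fun _ => D) d0 (fun j => (s.equivFin.symm j : D)) (Fin.succ _) = x
    rw [Fin.cons_succ, Equiv.symm_apply_apply]
  refine ⟨s.card + 1, fun i => algebraMap D K (t' i), 0, rfl, ?_⟩
  intro x
  have h1 : ∀ q : MvPolynomial (Fin (s.card + 1)) k,
      aeval (fun i => algebraMap D K (t' i)) q = algebraMap D K (aeval t' q) := by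
    intro q
    exact MvPolynomial.aeval_algebraMap_apply K t' q
  constructor
  · rintro ⟨d, rfl⟩
    have h2 : d ∈ Algebra.adjoin k (Set.range t') := by
      rw [ht']
      trivial
    rw [Algebra.adjoin_range_eq_range_aeval] at h2
    obtain ⟨q, hq⟩ := h2
    exact ⟨q, by rw [h1]; exact congrArg (algebraMap D K) hq⟩
  · rintro ⟨q, rfl⟩
    exact ⟨aeval t' q, by rw [h1]; rfl⟩

end

section

variable {p m : ℕ} [Fact p.Prime] [NeZero m] {k : Type} [Field k] [CharP k p] [IsAlgClosed k]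
  {ζ : kˣ} {Λ : Type} [Group Λ] {δ : Λ →* Multiplicative (ZMod m)} {n : Λ →* Multiplicative ℤ}
  {D : Type} [CommRing D] [Algebra k D] {T : Ext m δ → D} {φ : Ak k →ₐ[k] D}
  {res : D →ₐ[k] Ls k} {g : Fin 2 → D} {j : D ≃+* D}
  {K : Type} [Field K] [Algebra k K] [Algebra D K] [IsScalarTower k D K] [IsFractionRing D K]
  {O : ValuationSubring K} {ρ : O →+* Mf k} {h : K} {Φ : K → K}

theorem core_of (hex : S_ex) (hirr : S_irr) (hcnt : S_cnt) (hiot : S_iot)
    (halg : ∀ c : k, ∃ N : ℕ, 0 < N ∧ c ^ p ^ N = c) (hfg : Group.FG Λ)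
    (hΛ : NatBij (Gam m) Λ) (hD : Dat1 p m k ζ Λ δ n D T φ res g j)
    (hF : FB p φ res K O ρ h Φ) :
    ∃ C : Core p m k K (Ext m δ), C.c = cc m δ := by
  have hinj : Function.Injective (algebraMap D K) := IsFractionRing.injective D K
  have : CharP K p := charP_of_injective_algebraMap (algebraMap k K).injective p
  have hB := hD.bd
  have : IsDomain D := hB.dom
  obtain ⟨n', t, j0, ht1, ht2⟩ := gens k D K hB.ft (φ (X 0))
  have O' := od (K := K) hB hF.or
  have hres := resTor hF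
  obtain ⟨hx1, hx2, hx3, hx4, -, -, -, hx5, hx6⟩ := hex m Λ δ
  obtain ⟨hx6, hx7⟩ := hx6 n hD.cls
  have hgen : ∀ x : K, ∃ a b : (iDK k D K).range, (b : K) ≠ 0 ∧ x * b = a := by
    intro x
    obtain ⟨a, b, hb, rfl⟩ := IsFractionRing.div_surjective (A := D) x
    have hb0 : algebraMap D K b ≠ 0 := IsFractionRing.to_map_ne_zero_of_mem_nonZeroDivisors hb
    exact ⟨toB k K a, toB k K b, hb0, div_mul_cancel₀ _ hb0⟩
  have hfg' : FracGen k t := by
    intro x
    obtain ⟨a, b, h1, h2⟩ := hgen x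
    obtain ⟨qa, ha⟩ := (ht2 a).1 a.2
    obtain ⟨qb, hb⟩ := (ht2 b).1 b.2
    exact ⟨qa, qb, by rw [hb]; exact h1, by rw [hb, ha]; exact h2⟩
  have htau : ∀ b : (iDK k D K).range, ∃ N0 : ℕ, ∀ N, N0 ≤ N → Φ^[N] (b : K) =
      algebraMap k K ((rt p k)^[N] (cs (resB K res b))) := by
    intro b
    obtain ⟨d, rfl⟩ := toB_surj b
    obtain ⟨N0, hN⟩ := hF.tau d
    refine ⟨N0, fun N hN0 => ?_⟩
    rw [resB_toB, toB_coe, hN N hN0, ← IsScalarTower.algebraMap_apply]
  obtain ⟨b0, ρ0, hpb⟩ : ∃ (b0 : Fin (p ^ 2) → K) (ρ0 : Fin (p ^ 2) → K → K),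
      IsPB p b0 ρ0 := by
    let e : (Fin 2 → Fin p) ≃ Fin (p ^ 2) := finFunctionFinEquiv
    refine ⟨fun i => monY (xK φ K) (e.symm i), fun i x => cof p (xK φ K) x (e.symm i), ?_, ?_⟩
    · intro x
      rw [← Equiv.sum_comp e]
      simp only [Equiv.symm_apply_apply]
      exact hF.pb.repr x
    · intro a i
      have h1 := hF.pb.uniq (fun j => a (e j)) (e.symm i)
      rw [Equiv.apply_symm_apply] at h1
      rw [← h1, ← Equiv.sum_comp e]
      simp only [Equiv.symm_apply_apply]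
  obtain ⟨q, hq1, hq2⟩ := hB.loc
  let ι : K ≃+* K := IsFractionRing.ringEquivOfRingEquiv j
  have hι : ∀ d, ι (algebraMap D K d) = algebraMap D K (j d) := fun d =>
    IsFractionRing.ringEquivOfRingEquiv_algebraMap j d
  obtain ⟨g1, g2, hg12⟩ := hirr p m k ζ Λ δ n D T φ res g j hD
  exact ⟨{
    odd := hB.odd
    two_le := hD.hm
    hpm := hD.hpm
    alg := halg
    fg := hx5 hfg
    T := fun l => algebraMap D K (T l)
    χ := chi δ hD.hζ
    ν := n.comp (e1 m δ)
    c := cc m δ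
    pc := ⟨by rw [hD.pc.one, map_ofNat], fun g h => by rw [hD.pc.comm], fun g h => by
      rw [← map_add, hD.pc.rel, map_mul]⟩
    irr := ⟨g1, g2, fun h => hg12 (hinj (by rw [map_ofNat]; exact h))⟩
    c_comm := hx1
    c_sq := hx2
    T_c := by rw [hD.tc, map_neg, map_ofNat]
    χ_c := by rw [chi_apply, hx4]; exact zeta_m hD.hζ
    ν_c := by rw [MonoidHom.comp_apply, hx3, map_one]
    χ_pow := chi_pow δ hD.hζ
    surj := fun z hz i => by
      obtain ⟨a, ha⟩ := exists_pow hD.hζ z hz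
      obtain ⟨g, h1, h2⟩ := hx7 a i
      refine ⟨g, ?_, h2⟩
      rw [chi_apply, ← ha]
      unfold ev
      rw [h1, toAdd_ofAdd, ZMod.val_natCast, pow_md hD.hζ]
    ker := fun g h1 h2 => hx6 g (chi_eq_one δ hD.hζ g h1) h2
    cnt := fun Q Q' _ _ _ π θ => hcnt m Λ hΛ δ Q Q' π θ
    B := (iDK k D K).range
    n := n'
    t := t
    j0 := j0
    T_mem := fun l => ⟨T l, rfl⟩
    adj := by
      have h1 := congrArg (Subalgebra.map (iDK k D K)) hD.gen
      rw [AlgHom.map_adjoin, ← Set.range_comp, Algebra.map_top] at h1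
      exact h1
    mem_B := ht2
    fracgen := hfg'
    res := resB K res
    res_T := fun l => by
      have h1 := resB_toB (K := K) (res := res) (T l)
      rw [chi_apply, MonoidHom.comp_apply, ← hD.res_T, ← h1]
      rfl
    res_surj := O'.surj
    φ := Φ
    pinv := hF.pinv
    one := hF.one
    tau := htau
    log := logTy hB hF
    b0 := b0
    ρ0 := ρ0
    pb := hpb
    trdeg := trdeg2 n' t hfg' b0 ρ0 hpb
    κ0 := toB k K (φ (X 0))
    κ0_t := ht1
    κ0_ne := O'.ne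
    κ0_res := O'.rk
    q := toB k K q
    q_res := by rw [resB_toB]; exact hq1
    q_mul := fun b hb => by
      obtain ⟨d, rfl⟩ := toB_surj b
      rw [resB_toB] at hb
      obtain ⟨c, hc⟩ := hq2 d hb
      refine ⟨toB k K c, Subtype.ext ?_⟩
      show algebraMap D K q * algebraMap D K d = algebraMap D K (φ (X 0)) * algebraMap D K c
      rw [← map_mul, hc, map_mul]
    hord := O'.ord
    R := ordR O'
    R_inz := ⟨O'.isV, O'.triv, O'.compat hF.pinv hres⟩
    R_eq := fun x m a b h1 h2 h3 => (O'.ordR_eq ⟨h2, h3⟩ h1).2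
    R_κ0 := O'.ordR_κ0
    R_nn := O'.ordR_nn
    R_pos := O'.ordR_pos
    R_vb := O'.isVB
    tor := fun b => by
      obtain ⟨b', hb'⟩ := O'.surj (ths p k (resB K res b))
      exact ⟨b', hb', O'.tor hres _ _ hb'⟩
    ι := ι
    ι_k := fun c => by
      rw [IsScalarTower.algebraMap_apply k D K, hι, hD.j_k, ← IsScalarTower.algebraMap_apply]
    ι_T := fun l => by rw [hι, hD.j_T]
    ι_φ := hiot p k D φ res g K O ρ h Φ hB hF ι j hι hD.j_k hD.j_x hD.j_res }, rfl⟩

end

end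

end Pool.Agent.CZA
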