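import Pool.Agent.Lib.MP_305fdd_al.CZ.Defs

/-!
# MP_305fdd_al (`C_m * Z`), part A: the discrete valuation `ord_R`
-/

set_option autoImplicit false

namespace Pool.Agent.CZA

open MvPolynomial Pool.Agent.F2Ch Pool.Agent.F2W Pool.Agent.F2RF Pool.Agent.CZ

noncomputable section

/-- the data from which `ord_R` is constructed -/
structure OD {k K : Type} [Field k] [Field K] [Algebra k K] (B : Subalgebra k K)
    (res : B →ₐ[k] Ls k) (κ0 : B) : Prop where
  ne : (κ0 : K) ≠ 0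
  rk : res κ0 = 0
  surj : Function.Surjective res
  ord : ∀ f : K, f ≠ 0 → ∃ (n : ℤ) (a b : B), res a ≠ 0 ∧ res b ≠ 0 ∧ f * b = (κ0 : K) ^ n * a

/-- `f = κ0 ^ n * a / b`, `b` a unit along the reducible locus -/
def Rep {k K : Type} [Field k] [Field K] [Algebra k K] {B : Subalgebra k K}
    (res : B →ₐ[k] Ls k) (κ0 : B) (f : K) (n : ℤ) (a b : B) : Prop :=
  res b ≠ 0 ∧ f * b = (κ0 : K) ^ n * a

section

variable {k K : Type} [Field k] [Field K] [Algebra k K] {B : Subalgebra k K}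
  {res : B →ₐ[k] Ls k} {κ0 : B}

theorem B_ne {b : B} (h : res b ≠ 0) : (b : K) ≠ 0 := by
  intro h0
  apply h
  have : b = 0 := Subtype.ext h0
  rw [this, map_zero]

namespace OD

variable (D : OD B res κ0)

include D in
theorem cmp {f : K} {n m : ℤ} {a b a' b' : B} (h : Rep res κ0 f n a b) (h' : Rep res κ0 f m a' b')
    (hnm : m ≤ n) : (m < n → res a' = 0) ∧ (m = n → res a * res b' = res a' * res b) := by
  obtain ⟨hb, e⟩ := h
  obtain ⟨hb', e'⟩ := h'
  obtain ⟨j, hj⟩ := Int.eq_ofNat_of_zero_le (sub_nonneg.2 hnm)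
  obtain rfl : n = m + (j : ℤ) := by omega
  have hk : (κ0 : K) ^ m ≠ 0 := zpow_ne_zero _ D.ne
  have h1 : (κ0 : K) ^ m * ((κ0 : K) ^ j * (a * b')) = (κ0 : K) ^ m * (a' * b) := by
    rw [zpow_add₀ D.ne, zpow_natCast] at e
    linear_combination (-(b' : K)) * e + (b : K) * e'
  have h2 := mul_left_cancel₀ hk h1
  have h3 : κ0 ^ j * (a * b') = a' * b := Subtype.ext (by simpa using h2)
  have h4 := congrArg res h3
  simp only [map_mul, map_pow, D.rk] at h4
  constructor
  · intro hlt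
    have hj : j ≠ 0 := by rintro rfl; simp at hlt
    rw [zero_pow hj, zero_mul] at h4
    exact (mul_eq_zero.1 h4.symm).resolve_right hb
  · intro hme
    have hj : j = 0 := by omega
    rw [hj, pow_zero, one_mul] at h4
    exact h4

include D in
theorem uniq {f : K} {n m : ℤ} {a b a' b' : B} (h : Rep res κ0 f n a b)
    (h' : Rep res κ0 f m a' b') (ha : res a ≠ 0) (ha' : res a' ≠ 0) :
    n = m ∧ res a * res b' = res a' * res b := by
  have e : n = m := by
    rcases lt_trichotomy n m with hl | hl | hl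
    · exact absurd ((D.cmp h' h hl.le).1 hl) ha
    · exact hl
    · exact absurd ((D.cmp h h' hl.le).1 hl) ha'
  exact ⟨e, (D.cmp h h' e.ge).2 e.symm⟩

theorem rep_add {f g : K} {n : ℤ} {a b a' b' : B} (h : Rep res κ0 f n a b)
    (h' : Rep res κ0 g n a' b') : Rep res κ0 (f + g) n (a * b' + a' * b) (b * b') := by
  refine ⟨by rw [map_mul]; exact mul_ne_zero h.1 h'.1, ?_⟩
  push_cast
  linear_combination (b' : K) * h.2 + (b : K) * h'.2

include D in
theorem rep_mul {f g : K} {n m : ℤ} {a b a' b' : B} (h : Rep res κ0 f n a b)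
    (h' : Rep res κ0 g m a' b') : Rep res κ0 (f * g) (n + m) (a * a') (b * b') := by
  refine ⟨by rw [map_mul]; exact mul_ne_zero h.1 h'.1, ?_⟩
  push_cast
  rw [zpow_add₀ D.ne]
  linear_combination (g * b' : K) * h.2 + ((κ0 : K) ^ n * a) * h'.2

include D in
theorem rep_le {f : K} {n : ℤ} {a b : B} (h : Rep res κ0 f n a b) (m : ℤ) (j : ℕ)
    (hj : n = m + j) : Rep res κ0 f m (κ0 ^ j * a) b := by
  refine ⟨h.1, ?_⟩
  rw [h.2, hj, zpow_add₀ D.ne, zpow_natCast]
  push_cast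
  ring

include D in
theorem exists_rep (f : K) (hf : f ≠ 0) : ∃ (n : ℤ) (a b : B), res a ≠ 0 ∧
    Rep res κ0 f n a b := by
  obtain ⟨n, a, b, h1, h2, h3⟩ := D.ord f hf
  exact ⟨n, a, b, h1, h2, h3⟩

end OD

open Classical in
/-- the order along the reducible locus -/
def ordR (D : OD B res κ0) (f : K) : ℤ := if h : f = 0 then 0 else (D.exists_rep f h).choose

namespace OD

variable (D : OD B res κ0)

theorem ordR_eq {f : K} {n : ℤ} {a b : B} (h : Rep res κ0 f n a b) (ha : res a ≠ 0) :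
    f ≠ 0 ∧ ordR D f = n := by
  have hf : f ≠ 0 := by
    rintro rfl
    have h2 := h.2
    rw [zero_mul] at h2
    exact mul_ne_zero (zpow_ne_zero _ D.ne) (B_ne ha) h2.symm
  refine ⟨hf, ?_⟩
  unfold ordR
  rw [dif_neg hf]
  obtain ⟨h1, h2⟩ := (D.exists_rep f hf).choose_spec.choose_spec.choose_spec
  exact (D.uniq h2 h h1 ha).1

theorem ordR_zero : ordR D 0 = 0 := by
  unfold ordR
  rw [dif_pos rfl]

theorem gt_of_rep {f : K} {n : ℤ} {a b : B} (h : Rep res κ0 f n a b) (ha : res a = 0) :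
    Gt (ordR D) n f := by
  by_cases hf : f = 0
  · exact Or.inl hf
  · right
    obtain ⟨m, a', b', h1, h2⟩ := D.exists_rep f hf
    rw [(D.ordR_eq h2 h1).2]
    rcases lt_trichotomy n m with hl | hl | hl
    · exact hl
    · exfalso
      have h3 := (D.cmp h h2 hl.ge).2 hl.symm
      rw [ha, zero_mul] at h3
      exact mul_ne_zero h1 h.1 h3.symm
    · exact absurd ((D.cmp h h2 hl.le).1 hl) h1

theorem ge_of_rep {f : K} {n : ℤ} {a b : B} (h : Rep res κ0 f n a b) : Ge (ordR D) n f := by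
  by_cases ha : res a = 0
  · exact (D.gt_of_rep h ha).imp id le_of_lt
  · exact Or.inr (D.ordR_eq h ha).2.ge

theorem rep_of_ge {f : K} {n : ℤ} (h : Ge (ordR D) n f) : ∃ a b, Rep res κ0 f n a b := by
  by_cases hf : f = 0
  · refine ⟨0, 1, by rw [map_one]; exact one_ne_zero, ?_⟩
    rw [hf]
    simp
  · obtain ⟨m, a, b, h1, h2⟩ := D.exists_rep f hf
    have h3 := h.resolve_left hf
    rw [(D.ordR_eq h2 h1).2] at h3
    obtain ⟨j, hj⟩ := Int.eq_ofNat_of_zero_le (sub_nonneg.2 h3)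
    exact ⟨_, _, D.rep_le h2 n j (by omega)⟩

theorem isV : IsV (ordR D) := by
  refine ⟨D.ordR_zero, ?_, ?_⟩
  · intro x y hx hy
    obtain ⟨n, a, b, h1, h2⟩ := D.exists_rep x hx
    obtain ⟨m, a', b', h1', h2'⟩ := D.exists_rep y hy
    rw [(D.ordR_eq h2 h1).2, (D.ordR_eq h2' h1').2,
      (D.ordR_eq (D.rep_mul h2 h2') (by rw [map_mul]; exact mul_ne_zero h1 h1')).2]
  · intro x y hx hy hxy
    obtain ⟨a, b, h⟩ := D.rep_of_ge (Or.inr (min_le_left (ordR D x) (ordR D y)))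
    obtain ⟨a', b', h'⟩ := D.rep_of_ge (Or.inr (min_le_right (ordR D x) (ordR D y)))
    exact (D.ge_of_rep (rep_add h h')).resolve_left hxy

theorem triv : Triv k (ordR D) := by
  intro c
  by_cases hc : c = 0
  · rw [hc, map_zero]
    exact D.ordR_zero
  · have h : Rep res κ0 (algebraMap k K c) 0 (algebraMap k B c) 1 := by
      refine ⟨by rw [map_one]; exact one_ne_zero, ?_⟩
      rw [zpow_zero, one_mul]
      simp
    refine (D.ordR_eq h ?_).2
    rw [AlgHom.commutes]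
    intro h0
    exact hc ((algebraMap k (Ls k)).injective (h0.trans (map_zero _).symm))

theorem rep_κ0 : Rep res κ0 (κ0 : K) 1 1 1 := by
  refine ⟨by rw [map_one]; exact one_ne_zero, ?_⟩
  simp

theorem ordR_κ0 : ordR D κ0 = 1 :=
  (D.ordR_eq rep_κ0 (by rw [map_one]; exact one_ne_zero)).2

theorem rep_B (f : B) : Rep res κ0 (f : K) 0 f 1 := by
  refine ⟨by rw [map_one]; exact one_ne_zero, ?_⟩
  simp

theorem ordR_nn (f : B) : 0 ≤ ordR D f := by
  rcases D.ge_of_rep (rep_B f) with h | h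
  · rw [h, D.ordR_zero]
  · exact h

theorem ordR_pos (f : B) (hf : (f : K) ≠ 0) : 0 < ordR D f ↔ res f = 0 := by
  constructor
  · intro h
    by_contra h1
    rw [(D.ordR_eq (rep_B f) h1).2] at h
    exact lt_irrefl _ h
  · intro h
    exact (D.gt_of_rep (rep_B f) h).resolve_left hf

theorem isVB : IsVB (ordR D) ![(κ0 : K)] (fun f _ => ordR D f) := by
  have hw : ∀ m : Fin 1 → ℤ, wt (fun i => ordR D (![(κ0 : K)] i)) m = m 0 := by
    intro m
    unfold wt
    simp [D.ordR_κ0]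
  refine ⟨?_, ?_, ?_, ?_, ?_⟩
  · intro i
    fin_cases i
    exact D.ne
  · intro i
    fin_cases i
    show 0 < ordR D κ0
    rw [D.ordR_κ0]
    exact one_pos
  · intro m hm
    rw [hw] at hm
    funext i
    fin_cases i
    exact hm
  · intro f _
    rw [hw]
  · funext i
    exact D.ordR_zero

end OD

end


/-- the residual map of `φ` on `B` is the toric operator -/
def ResTor (p : ℕ) [Fact p.Prime] {k K : Type} [Field k] [CharP k p] [PerfectRing k p] [Field K]
    [Algebra k K] (B : Subalgebra k K) (res : B →ₐ[k] Ls k) (φ : K → K) : Prop :=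
  ∀ f : B, ∃ a b : B, res b ≠ 0 ∧ φ f * b = a ∧ res a = ths p k (res f) * res b

section

variable {p : ℕ} [Fact p.Prime] {k K : Type} [Field k] [CharP k p] [PerfectRing k p] [Field K]
  [Algebra k K] {B : Subalgebra k K} {res : B →ₐ[k] Ls k} {κ0 : B} (D : OD B res κ0)
  {φ : K → K}

namespace OD

omit [Fact p.Prime] in
theorem pinv_zero (hφ : IsPinv p φ) : φ 0 = 0 := by
  have h := hφ.add 0 0
  rw [add_zero] at h
  exact left_eq_add.1 h

include D in
theorem rep_φ (hφ : IsPinv p φ) (ht : ResTor p B res φ) {f : K} {n m : ℤ} {a b : B}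
    (h : Rep res κ0 f n a b) (r : ℕ) (hr : n = p * m + r) :
    ∃ a' b' : B, Rep res κ0 (φ f) m a' b' ∧
      res a' * res b ^ p = ths p k (res (κ0 ^ r * a * b ^ (p - 1))) * res b' * res b ^ (p - 1) := by
  obtain ⟨a1, b1, h1, h2, h3⟩ := ht (κ0 ^ r * a * b ^ (p - 1))
  have hb := B_ne h.1
  have hp : p - 1 + 1 = p := Nat.succ_pred_prime Fact.out
  have hk : (κ0 : K) ^ m ≠ 0 := zpow_ne_zero _ D.ne
  have e1 : ((b : K) / (κ0 : K) ^ m) ^ p * f =
      ((κ0 ^ r * a * b ^ (p - 1) : B) : K) := by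
    have h4 : ((κ0 : K) ^ m) ^ p ≠ 0 := pow_ne_zero _ hk
    have h5 : ((κ0 : K) ^ m) ^ p * (κ0 : K) ^ r = (κ0 : K) ^ n := by
      rw [hr, zpow_add₀ D.ne, zpow_natCast, ← zpow_natCast, ← zpow_mul, mul_comm m]
    rw [div_pow, div_mul_eq_mul_div, div_eq_iff h4]
    push_cast
    calc (b : K) ^ p * f = (b : K) ^ (p - 1) * (f * b) := by
          conv_lhs => rw [← hp, pow_succ]
          ring
      _ = (b : K) ^ (p - 1) * ((κ0 : K) ^ n * a) := by rw [h.2]
      _ = _ := by rw [← h5]; ring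
  have e2 := congrArg φ e1
  rw [hφ.pow_mul] at e2
  refine ⟨a1, b * b1, ⟨by rw [map_mul]; exact mul_ne_zero h.1 h1, ?_⟩, ?_⟩
  · push_cast
    rw [← h2, ← e2]
    field_simp
  · have e3 : res b ^ p = res b ^ (p - 1) * res b := by rw [← pow_succ, hp]
    rw [h3, e3, map_mul res b b1]
    ring

include D in
theorem ge_φ (hφ : IsPinv p φ) (ht : ResTor p B res φ) {f : K} {n m : ℤ}
    (h : Ge (ordR D) n f) (hm : p * m ≤ n) : Ge (ordR D) m (φ f) := by
  obtain ⟨a, b, h1⟩ := D.rep_of_ge h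
  obtain ⟨j, hj⟩ := Int.eq_ofNat_of_zero_le (sub_nonneg.2 hm)
  obtain ⟨a', b', h2, -⟩ := D.rep_φ (m := m) hφ ht h1 j (by rw [← hj]; ring)
  exact D.ge_of_rep h2

include D in
theorem gt_φ (hφ : IsPinv p φ) (ht : ResTor p B res φ) {f : K} {n m : ℤ}
    (h : Ge (ordR D) n f) (hm : p * m < n) : Gt (ordR D) m (φ f) := by
  obtain ⟨a, b, h1⟩ := D.rep_of_ge h
  obtain ⟨j, hj⟩ := Int.eq_ofNat_of_zero_le (sub_nonneg.2 hm.le)
  obtain ⟨a', b', h2, h3⟩ := D.rep_φ (m := m) hφ ht h1 j (by rw [← hj]; ring)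
  refine D.gt_of_rep h2 ?_
  have hj0 : j ≠ 0 := by rintro rfl; omega
  rw [map_mul res, map_mul res, map_pow, D.rk, zero_pow hj0, zero_mul, zero_mul, map_zero,
    zero_mul, zero_mul] at h3
  exact (mul_eq_zero.1 h3).resolve_right (pow_ne_zero _ h1.1)

theorem compat (hφ : IsPinv p φ) (ht : ResTor p B res φ) : Compat p φ (ordR D) := by
  intro f hf
  by_contra hlt
  rw [not_le, nsmul_eq_mul] at hlt
  have h := D.gt_φ hφ ht (m := ordR D (φ f)) (Or.inr le_rfl) hlt
  exact lt_irrefl _ (h.resolve_left hf)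

theorem tor (ht : ResTor p B res φ) (f f' : B) (hf : res f' = ths p k (res f)) :
    Gt (ordR D) 0 (φ f - f') := by
  obtain ⟨a, b, h1, h2, h3⟩ := ht f
  have hr : Rep res κ0 (φ f - f') 0 (a - f' * b) b := by
    refine ⟨h1, ?_⟩
    rw [zpow_zero, one_mul]
    push_cast
    rw [sub_mul, h2]
  refine D.gt_of_rep hr ?_
  rw [map_sub, map_mul, hf, h3, sub_self]

end OD

end

end

end Pool.Agent.CZA
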