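import Pool.Agent.Lib.MP_305fdd_al.CZ.Defs
import Pool.Agent.Lib.MP_305fdd_al.F2.StmG
import Mathlib.RingTheory.Polynomial.Chebyshev

/-!
# MP_305fdd_al (`C_m * Z`), part A: definitions

`Gam m = C_m * Z`; `Λ` is a finitely generated group with the same finite quotients, `Φ : NatBij (Gam m) Λ`,
`δ = Φ (dG m) : Λ → C_m`, `Ext m δ = {(l, a) ∈ Λ × Z/2m : δ l = a mod m}` with the central element
`cc m δ = (1, m)`.
-/

set_option autoImplicit false

namespace Pool.Agent.CZA

open MvPolynomial Pool.Agent.Lib.MP_305fdd_al Pool.Agent.MP_305fdd_al Pool.Agent.CZ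
open Pool.Agent.F2 (PC Corr Fr gx gy)
open Pool.Agent.F2TF (Pol fpow)

noncomputable section

/-! ## Groups -/

/-- the group `C_m * Z` -/
abbrev Gam (m : ℕ) : Type := Monoid.Coprod (Multiplicative (ZMod m)) (Multiplicative ℤ)

/-- `C_m * Z → C_m` -/
def dG (m : ℕ) : Gam m →* Multiplicative (ZMod m) :=
  Monoid.Coprod.lift (MonoidHom.id (Multiplicative (ZMod m))) 1

/-- `C_m * Z → Z` -/
def nG (m : ℕ) : Gam m →* Multiplicative ℤ :=
  Monoid.Coprod.lift 1 (MonoidHom.id (Multiplicative ℤ))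

/-- the fibre product of `d : G → M` and `s : M' → M` -/
abbrev Fib {G M M' : Type} [Group G] [Group M] [Group M'] (d : G →* M) (s : M' →* M) :
    Subgroup (G × M') :=
  (d.comp (MonoidHom.fst G M')).eqLocus (s.comp (MonoidHom.snd G M'))

/-- first projection -/
def f1 {G M M' : Type} [Group G] [Group M] [Group M'] (d : G →* M) (s : M' →* M) :
    Fib d s →* G := (MonoidHom.fst G M').comp (Fib d s).subtype

/-- second projection -/
def f2 {G M M' : Type} [Group G] [Group M] [Group M'] (d : G →* M) (s : M' →* M) :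
    Fib d s →* M' := (MonoidHom.snd G M').comp (Fib d s).subtype

theorem Fib.cond {G M M' : Type} [Group G] [Group M] [Group M'] {d : G →* M} {s : M' →* M}
    (x : Fib d s) : d (f1 d s x) = s (f2 d s x) := x.2

/-- elements of the fibre product -/
def Fib.mk {G M M' : Type} [Group G] [Group M] [Group M'] (d : G →* M) (s : M' →* M) (g : G)
    (z : M') (h : d g = s z) : Fib d s := ⟨(g, z), h⟩

/-- the reduction `Z/2m → Z/m` -/
def sq (m : ℕ) : Multiplicative (ZMod (2 * m)) →* Multiplicative (ZMod m) :=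
  AddMonoidHom.toMultiplicative
    (ZMod.castHom (Dvd.intro_left 2 rfl : m ∣ 2 * m) (ZMod m)).toAddMonoidHom

theorem sq_nat (m a : ℕ) :
    sq m (Multiplicative.ofAdd (a : ZMod (2 * m))) = Multiplicative.ofAdd (a : ZMod m) := by
  show Multiplicative.ofAdd ((ZMod.castHom (Dvd.intro_left 2 rfl : m ∣ 2 * m) (ZMod m))
    (a : ZMod (2 * m))) = _
  rw [map_natCast]

/-- the central extension of `Λ` by a group of order two -/
abbrev Ext (m : ℕ) {Λ : Type} [Group Λ] (δ : Λ →* Multiplicative (ZMod m)) :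
    Subgroup (Λ × Multiplicative (ZMod (2 * m))) := Fib δ (sq m)

/-- the projection to `Λ` -/
abbrev e1 (m : ℕ) {Λ : Type} [Group Λ] (δ : Λ →* Multiplicative (ZMod m)) :
    Ext m δ →* Λ := f1 δ (sq m)

/-- the projection to `Z/2m` -/
abbrev e2 (m : ℕ) {Λ : Type} [Group Λ] (δ : Λ →* Multiplicative (ZMod m)) :
    Ext m δ →* Multiplicative (ZMod (2 * m)) := f2 δ (sq m)

/-- the exponent in `0, .., 2 m - 1` -/
def ev (m : ℕ) {Λ : Type} [Group Λ] (δ : Λ →* Multiplicative (ZMod m)) (g : Ext m δ) : ℕ :=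
  (Multiplicative.toAdd (e2 m δ g)).val

/-- the central element `(1, m)` -/
def cc (m : ℕ) {Λ : Type} [Group Λ] (δ : Λ →* Multiplicative (ZMod m)) : Ext m δ :=
  Fib.mk δ (sq m) 1 (Multiplicative.ofAdd (m : ZMod (2 * m))) (by
    rw [map_one, sq_nat, ZMod.natCast_self]; rfl)

/-- the generator `u` of order `2 m` of the extension of `C_m * Z` -/
def ug (m : ℕ) : Ext m (dG m) :=
  Fib.mk (dG m) (sq m) (Monoid.Coprod.inl (Multiplicative.ofAdd 1))
    (Multiplicative.ofAdd ((1 : ℕ) : ZMod (2 * m))) (by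
      rw [sq_nat, dG, Monoid.Coprod.lift_apply_inl, MonoidHom.id_apply, Nat.cast_one])

/-- the generator `t` of the extension of `C_m * Z` -/
def tg (m : ℕ) : Ext m (dG m) :=
  Fib.mk (dG m) (sq m) (Monoid.Coprod.inr (Multiplicative.ofAdd 1)) 1 (by
      rw [dG, Monoid.Coprod.lift_apply_inr, MonoidHom.one_apply, map_one])

/-- `(δ, n)` is the abelianisation -/
structure ClsZ (m : ℕ) (Λ : Type) [Group Λ] (δ : Λ →* Multiplicative (ZMod m))
    (n : Λ →* Multiplicative ℤ) : Prop where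
  surj : Function.Surjective (δ.prod n)
  ker : (δ.prod n).ker = commutator Λ

/-- the homomorphisms to finite groups which factor through `n` correspond -/
def Cyc (m : ℕ) {Λ : Type} [Group Λ] (Φ : NatBij (Gam m) Λ) (n : Λ →* Multiplicative ℤ) : Prop :=
  ∀ (Q : Type) [Group Q] [Finite Q] (ψ : Gam m →* Q),
    (∃ q : Multiplicative ℤ →* Q, ψ = q.comp (nG m)) ↔
      ∃ q : Multiplicative ℤ →* Q, Φ.toFun Q ψ = q.comp n

/-! ## Universal rings -/

/-- `(A, T)` is universal for the pseudo-characters of `G` over `F` with `T c = -2` -/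
structure UP (F G : Type) [Field F] [Group G] (c : G) (A : Type) [CommRing A] [Algebra F A]
    (T : G → A) : Prop where
  pc : PC T
  tc : T c = -2
  adj : Algebra.adjoin F (Set.range T) = ⊤
  univ : ∀ (R : Type) [CommRing R] [Algebra F R] (T' : G → R), PC T' → T' c = -2 →
    ∃ φ : A →ₐ[F] R, ∀ g, φ (T g) = T' g

/-! ## The explicit ring of `C_m * Z` -/

/-- the types of non-scalar characters: odd numbers `j < m` (the eigenvalues of `u` are
`ζ ^ j, ζ ^ (-j)`) -/
abbrev JJ (m : ℕ) : Type := {j : Fin m // (j : ℕ) % 2 = 1}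

/-- the scalar type (if `m` is odd) -/
abbrev SS (m : ℕ) : Type := {_u : Unit // m % 2 = 1}

/-- the non-scalar part of the universal ring -/
abbrev A2 (p m : ℕ) : Type := JJ m → Pol p 2

/-- the scalar part of the universal ring -/
abbrev A1 (p m : ℕ) : Type := SS m → Polynomial (ZMod p)

/-- the universal ring of `C_m * Z` -/
abbrev AG (p m : ℕ) : Type := A2 p m × A1 p m

/-- the numbers `x j = ζ ^ j + ζ ^ (-j)`, `ζ` a primitive `2m`-th root of unity -/
structure WJ (p m : ℕ) (x : ℕ → ZMod p) : Prop where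
  zero : x 0 = 2
  recu : ∀ j, x (j + 2) = x 1 * x (j + 1) - x j
  top : x m = -2
  ne : ∀ i j, i ≤ m → j ≤ m → x i = x j → i = j
  per : ∀ j, x (j + 2 * m) = x j
  cheb : ∀ j : ℕ, x j = (Polynomial.Chebyshev.C (ZMod p) j).eval (x 1)
  cm : ∀ j : ℕ, (Polynomial.Chebyshev.C (ZMod p) m).eval (x j) = 2 * (-1) ^ j
  s1 : ∀ j, j < m → j % 2 = 1 → (Polynomial.Chebyshev.S (ZMod p) ((m : ℤ) - 1)).eval (x j) = 0 ∧
    (Polynomial.Chebyshev.S (ZMod p) ((m : ℤ) - 2)).eval (x j) = 1
  prod : Polynomial.Chebyshev.S (ZMod p) ((m : ℤ) - 1) * (Polynomial.X ^ 2 - 4) =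
    ∏ j ∈ Finset.range (m + 1), (Polynomial.X - Polynomial.C (x j))

/-- the values at the generators of the universal pseudo-character of `C_m * Z` -/
structure ValG (p m : ℕ) [NeZero m] (x : ℕ → ZMod p) (T : Ext m (dG m) → AG p m) : Prop where
  pc : PC T
  tc : T (cc m (dG m)) = -2
  u : ∀ j : JJ m, (T (ug m)).1 j = MvPolynomial.C (x j.1)
  t : ∀ j : JJ m, (T (tg m)).1 j = MvPolynomial.X 0
  ut : ∀ j : JJ m, (T (ug m * tg m)).1 j = MvPolynomial.X 1
  sc : ∀ (s : SS m) (g : Ext m (dG m)), (T g).2 s = (-1) ^ (ev m (dG m) g) *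
    Polynomial.Chebyshev.C (ZMod p) (Multiplicative.toAdd (nG m (e1 m (dG m) g)))

/-- the scalar pseudo-character `(l, a) ↦ (-1) ^ a (s ^ n + s ^ (-n))`, a polynomial in `s + 1/s` -/
def Tsc (p m : ℕ) {Λ : Type} [Group Λ] (δ : Λ →* Multiplicative (ZMod m))
    (n : Λ →* Multiplicative ℤ) (g : Ext m δ) : Polynomial (ZMod p) :=
  (-1) ^ (ev m δ g) * Polynomial.Chebyshev.C (ZMod p) (Multiplicative.toAdd (n (e1 m δ g)))

/-! ## Counting -/

/-- counting data: `B` behaves like an algebra which is smooth of dimension `d` and has `r q ^ d`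
points over the field with `q` elements -/
structure CD (p d r : ℕ) [Fact p.Prime] (B : Type) [CommRing B] [Algebra (ZMod p) B] : Prop where
  ft : Algebra.FiniteType (ZMod p) B
  cnt : ∀ I : Ideal B, Finite (B ⧸ I) → ∀ n : ℕ, Finite (B ⧸ fpow (p ^ n) I) ∧
    Nat.card (B ⧸ fpow (p ^ n) I) = Nat.card (B ⧸ I) ^ (p ^ (d * n))
  pts : ∀ (K : Type) [Field K] [IsAlgClosed K] [CharP K p] (n : ℕ), n ≠ 0 →
    Nat.card {x : B →+* K // ∀ b, x b ^ (p ^ n) = x b} = r * p ^ (d * n)

end

end Pool.Agent.CZA
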