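import Pool.Agent.Lib.MP_305fdd_al.CZ.A.StmF

/-!
# MP_305fdd_al (`F_2`), section B: piece `[FB car]`
-/

set_option autoImplicit false

namespace Pool.Agent.CZA

open Pool.Agent.CZ
open Pool.Agent.F2 (rt)

open MvPolynomial

theorem p_car : S_car := by
  intro p _ K _ _ x
  have hadd : ∀ c c' : (Fin 2 → Fin p) → K,
      pcomb x (fun e => c e + c' e) = pcomb x c + pcomb x c' := by
    intro c c'
    unfold pcomb
    rw [← Finset.sum_add_distrib]
    refine Finset.sum_congr rfl fun e _ => ?_
    rw [add_pow_char, add_mul]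
  have hsub : ∀ c c' : (Fin 2 → Fin p) → K,
      pcomb x (fun e => c e - c' e) = pcomb x c - pcomb x c' := by
    intro c c'
    unfold pcomb
    rw [← Finset.sum_sub_distrib]
    refine Finset.sum_congr rfl fun e _ => ?_
    rw [sub_pow_char, sub_mul]
  have hsmul : ∀ (a : K) (c : (Fin 2 → Fin p) → K),
      pcomb x (fun e => a * c e) = a ^ p * pcomb x c := by
    intro a c
    unfold pcomb
    rw [Finset.mul_sum]
    refine Finset.sum_congr rfl fun e _ => ?_
    rw [mul_pow, mul_assoc]
  have hinj : PInd p x → ∀ c c' : (Fin 2 → Fin p) → K, pcomb x c = pcomb x c' → c = c' := by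
    intro h c c' hcc
    funext e
    have := h (fun e => c e - c' e) (by rw [hsub, hcc, sub_self]) e
    exact sub_eq_zero.1 this
  have hcof : PInd p x → ∀ c : (Fin 2 → Fin p) → K, cof p x (pcomb x c) = c := by
    intro h c
    have hs : pcomb x c = pcomb x (cof p x (pcomb x c)) :=
      Classical.epsilon_spec (p := fun c' => pcomb x c = pcomb x c') ⟨c, rfl⟩
    exact (hinj h _ _ hs).symm
  refine ⟨fun h => ⟨hinj h, fun c => ⟨hcof h c, by rw [Car, hcof h]⟩⟩, fun h => ?_⟩
  have hsp : ∀ f, pcomb x (cof p x f) = f := fun f => by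
    obtain ⟨c, rfl⟩ := h.2 f
    rw [hcof h.1]
  refine ⟨hsp, fun f g => ?_, fun a f => ?_⟩
  · have h1 : cof p x (f + g) = fun e => cof p x f e + cof p x g e := by
      apply hinj h.1
      rw [hsp, hadd, hsp, hsp]
    rw [Car, h1]
    rfl
  · have h1 : cof p x (a ^ p * f) = fun e => a * cof p x f e := by
      apply hinj h.1
      rw [hsp, hsmul, hsp]
    rw [Car, h1]
    rfl

end Pool.Agent.CZA
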