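import Pool.Agent.Lib.MP_305fdd_al.CZ.A.StmF

/-!
# MP_305fdd_al (F_2), section B, piece chg: change of the p-basis by p-th powers
-/

set_option autoImplicit false

namespace Pool.Agent.CZA

open Pool.Agent.CZ
open Pool.Agent.F2 (rt)

open MvPolynomial

section

variable {p : ℕ} [hp : Fact p.Prime] {K : Type} [Field K] [CharP K p]

private noncomputable def p_chg_b (g : Fin 2 → K) (e e' : Fin 2 → Fin p) : K :=
  ∏ i, ((Nat.choose (e i : ℕ) (e' i : ℕ) : ℕ) : K) * g i ^ ((e i : ℕ) - (e' i : ℕ))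

private theorem p_chg_natpow (n : ℕ) : ((n : ℕ) : K) ^ p = n := by
  have h := map_natCast (frobenius K p) n
  rwa [frobenius_def] at h

private theorem p_chg_one (x g : K) (n : Fin p) :
    (x + g ^ p) ^ (n : ℕ) = ∑ m : Fin p,
      (((Nat.choose (n : ℕ) (m : ℕ) : ℕ) : K) * g ^ ((n : ℕ) - (m : ℕ))) ^ p * x ^ (m : ℕ) := by
  rw [add_pow, Fin.sum_univ_eq_sum_range (fun m : ℕ =>
      (((Nat.choose (n : ℕ) m : ℕ) : K) * g ^ ((n : ℕ) - m)) ^ p * x ^ m) p]
  have h1 : Finset.range ((n : ℕ) + 1) ⊆ Finset.range p := by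
    intro a ha
    rw [Finset.mem_range] at ha ⊢
    have := n.2
    omega
  rw [← Finset.sum_subset h1]
  · refine Finset.sum_congr rfl fun m _ => ?_
    rw [mul_pow, p_chg_natpow, ← pow_mul, ← pow_mul, mul_comm p]
    ring
  · intro m _ hm
    rw [Finset.mem_range, not_lt] at hm
    rw [Nat.choose_eq_zero_of_lt (by omega)]
    simp [hp.out.ne_zero]

private theorem p_chg_mon (x g : Fin 2 → K) (e : Fin 2 → Fin p) :
    F2Ch.monY (fun i => x i + g i ^ p) e = ∑ e' : Fin 2 → Fin p,
      p_chg_b g e e' ^ p * F2Ch.monY x e' := by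
  unfold F2Ch.monY p_chg_b
  simp only [p_chg_one]
  rw [Finset.prod_univ_sum, Fintype.piFinset_univ]
  refine Finset.sum_congr rfl fun e' _ => ?_
  rw [← Finset.prod_pow, ← Finset.prod_mul_distrib]

private theorem p_chg_sum {ι : Type} (s : Finset ι) (f : ι → K) :
    (∑ i ∈ s, f i) ^ p = ∑ i ∈ s, f i ^ p := by
  have h := map_sum (frobenius K p) f s
  simp only [frobenius_def] at h
  exact h

private theorem p_chg_comb (x g : Fin 2 → K) (c : (Fin 2 → Fin p) → K) :
    pcomb (fun i => x i + g i ^ p) c = pcomb x fun e' => ∑ e, p_chg_b g e e' * c e := by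
  unfold pcomb
  simp only [p_chg_mon, Finset.mul_sum, p_chg_sum, Finset.sum_mul]
  rw [Finset.sum_comm]
  refine Finset.sum_congr rfl fun e' _ => Finset.sum_congr rfl fun e _ => ?_
  rw [mul_pow]
  ring

private theorem p_chg_bself (g : Fin 2 → K) (e : Fin 2 → Fin p) : p_chg_b g e e = 1 := by
  unfold p_chg_b
  simp

private theorem p_chg_bzero (g : Fin 2 → K) (e e' : Fin 2 → Fin p)
    (h : ∃ i, (e i : ℕ) < (e' i : ℕ)) : p_chg_b g e e' = 0 := by
  obtain ⟨i, hi⟩ := h
  unfold p_chg_b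
  refine Finset.prod_eq_zero (Finset.mem_univ i) ?_
  rw [Nat.choose_eq_zero_of_lt hi]
  simp

private theorem p_chg_inj (g : Fin 2 → K) (c : (Fin 2 → Fin p) → K)
    (h : ∀ e', ∑ e, p_chg_b g e e' * c e = 0) : ∀ e, c e = 0 := by
  classical
  by_contra hne
  push Not at hne
  obtain ⟨e0, he0⟩ := hne
  obtain ⟨e, he, hmax⟩ := Finset.exists_max_image
    (Finset.univ.filter fun e : Fin 2 → Fin p => c e ≠ 0) (fun e => ∑ i, (e i : ℕ))
    ⟨e0, by simpa using he0⟩
  rw [Finset.mem_filter] at he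
  apply he.2
  have h1 := h e
  rw [Finset.sum_eq_single e] at h1
  · rwa [p_chg_bself, one_mul] at h1
  · intro e' _ hne
    by_cases hc : c e' = 0
    · rw [hc, mul_zero]
    · rw [p_chg_bzero, zero_mul]
      by_contra hno
      push Not at hno
      apply hne
      have h2 := hmax e' (by simpa using hc)
      have h3 : ∀ i ∈ Finset.univ, (e i : ℕ) ≤ (e' i : ℕ) := fun i _ => hno i
      have h4 : ∑ i, (e i : ℕ) ≤ ∑ i, (e' i : ℕ) := Finset.sum_le_sum h3
      have h5 := (Finset.sum_eq_sum_iff_of_le h3).1 (le_antisymm h4 h2)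
      funext i
      exact (Fin.ext (h5 i (Finset.mem_univ i))).symm
  · intro hn
    exact absurd (Finset.mem_univ _) hn

private theorem p_chg_ind (x g : Fin 2 → K) (h : PInd p x) : PInd p fun i => x i + g i ^ p := by
  intro c hc
  rw [p_chg_comb] at hc
  exact p_chg_inj g c (h _ hc)

private theorem p_chg_sub (x : Fin 2 → K) (c c' : (Fin 2 → Fin p) → K) :
    pcomb x (fun e => c e - c' e) = pcomb x c - pcomb x c' := by
  unfold pcomb
  rw [← Finset.sum_sub_distrib]
  refine Finset.sum_congr rfl fun e _ => ?_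
  rw [sub_pow_char]
  ring

private theorem p_chg_car (x : Fin 2 → K) (h : PInd p x) (c : (Fin 2 → Fin p) → K) :
    Car p x (pcomb x c) = c (top2 p) := by
  have h1 : pcomb x c = pcomb x (cof p x (pcomb x c)) :=
    Classical.epsilon_spec (p := fun c' => pcomb x c = pcomb x c') ⟨c, rfl⟩
  have h2 : pcomb x (fun e => c e - cof p x (pcomb x c) e) = 0 := by
    rw [p_chg_sub, ← h1, sub_self]
  have h3 := h _ h2 (top2 p)
  unfold Car
  exact (sub_eq_zero.1 h3).symm

private theorem p_chg_top (g : Fin 2 → K) (c : (Fin 2 → Fin p) → K) :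
    ∑ e, p_chg_b g e (top2 p) * c e = c (top2 p) := by
  rw [Finset.sum_eq_single (top2 p)]
  · rw [p_chg_bself, one_mul]
  · intro e _ hne
    rw [p_chg_bzero, zero_mul]
    by_contra hno
    push Not at hno
    apply hne
    funext i
    have h1 := hno i
    have h2 := (e i).2
    have h3 : ((top2 p) i : ℕ) = p - 1 := rfl
    apply Fin.ext
    omega
  · intro hn
    exact absurd (Finset.mem_univ _) hn

end

theorem p_chg : S_chg := by
  intro p _ K _ _ x g
  refine ⟨p_chg_ind x g, fun hB => ?_⟩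
  have hx : (fun i => (fun j => x j + g j ^ p) i + (fun j => - g j) i ^ p) = x := by
    funext i
    have h1 : (-g i) ^ p = -(g i ^ p) := by
      have h := sub_pow_char (p := p) (0 : K) (g i)
      rw [zero_sub, zero_pow (Fact.out : p.Prime).ne_zero, zero_sub] at h
      exact h
    simp only [h1]
    ring
  have hI : PInd p x := by
    have h := p_chg_ind (fun j => x j + g j ^ p) (fun j => - g j) hB.1
    rwa [hx] at h
  refine ⟨⟨hI, fun f => ?_⟩, fun f => ?_⟩
  · obtain ⟨c, hc⟩ := hB.2 f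
    exact ⟨_, hc.trans (p_chg_comb x g c)⟩
  · obtain ⟨c, hc⟩ := hB.2 f
    rw [hc, p_chg_car _ hB.1, p_chg_comb, p_chg_car _ hI, p_chg_top]

end Pool.Agent.CZA
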