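import Pool.Agent.Lib.MP_305fdd_al.CZ.A.StmF

set_option autoImplicit false

namespace Pool.Agent.CZA

open MvPolynomial Pool.Agent.CZ
open Pool.Agent.F2 (rt)

section

variable {k : Type} [Field k] {D : Type} [CommRing D] [Algebra k D] {φ : Ak k →ₐ[k] D}
  {res : D →ₐ[k] Ls k} {K : Type} [Field K] [Algebra D K] {O : ValuationSubring K}
  {ρ : O →+* Mf k}

/-- the residue is an injective function of the Laurent polynomial -/
private theorem fb_inj {a b : Ls k}
    (h : algebraMap (Ls k) (Mf k) a = algebraMap (Ls k) (Mf k) b) : a = b :=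
  IsFractionRing.injective (Ls k) (Mf k) h

/-- units of `O` -/
private theorem fb_inv (hor : OR φ res K O ρ) (f : O) (hf : ρ f ≠ 0) :
    ∃ f' : O, (f' : K) = (f : K)⁻¹ ∧ ρ f' = (ρ f)⁻¹ := by
  obtain ⟨a, b, hb, hab⟩ := (hor.mem f).1 f.2
  have h1 : f * ⟨algebraMap D K b, hor.dmem b⟩ = ⟨algebraMap D K a, hor.dmem a⟩ :=
    Subtype.ext hab
  have h2 := congrArg ρ h1
  rw [map_mul, hor.ρ_D, hor.ρ_D] at h2
  have hb' : algebraMap (Ls k) (Mf k) (res b) ≠ 0 := fun h =>
    hb (fb_inj (by rw [h, map_zero]))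
  have ha : res a ≠ 0 := by
    intro ha
    rw [ha, map_zero] at h2
    exact (mul_ne_zero hf hb') h2
  have hf0 : (f : K) ≠ 0 := by
    intro h
    have : f = 0 := Subtype.ext h
    rw [this, map_zero] at hf
    exact hf rfl
  have h3 : (f : K)⁻¹ ∈ O := (hor.mem _).2 ⟨b, a, ha, by
    rw [← hab, ← mul_assoc, inv_mul_cancel₀ hf0, one_mul]⟩
  refine ⟨⟨_, h3⟩, rfl, ?_⟩
  have h4 : f * ⟨(f : K)⁻¹, h3⟩ = 1 := Subtype.ext (mul_inv_cancel₀ hf0)
  have h5 := congrArg ρ h4
  rw [map_mul, map_one] at h5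
  exact eq_inv_of_mul_eq_one_right h5

end

theorem p_fb (p : ℕ) [Fact p.Prime] (k : Type) [Field k] [CharP k p] [PerfectRing k p]
    (D : Type) [CommRing D] [Algebra k D] (φ : Ak k →ₐ[k] D) (res : D →ₐ[k] Ls k)
    (g : Fin 2 → D) (K : Type) [Field K] [Algebra D K]
    (hor : S_or p k D φ res g K) (hlk : S_lk p k D φ res g K) (hpb : S_pb p k D φ res g K)
    (hh : S_h p k D φ res g K) (hrc : S_rc p k D φ res g K) (hmo : S_mo p k D φ res g K)
    (hnil : S_nil p k D φ res g K) (hom : S_om p k D φ res g K) (hths : S_ths) (hcar : S_car) :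
    S_fb p k D φ res g K := by
  intro hBD hK
  obtain ⟨O, ρ, hor⟩ := hor hBD hK
  obtain ⟨L, _, _, _, hL1, hL2, hLK⟩ := hlk hBD hK
  obtain ⟨hpb, -, -, -⟩ := hpb hBD hK L hLK
  obtain ⟨h, hfix, ⟨w, hw1, hwh⟩, hhOm⟩ := hh hBD hK O ρ hor L hLK
  obtain ⟨hrc1, hrc2⟩ := hrc hBD hK O ρ hor hpb
  obtain ⟨hom1, hom2, hom3, hom4⟩ := hom hBD hK L hLK
  have hmo := hmo hBD hK O ρ hor L hLK
  have hnil := hnil hBD hK L hLK
  have hp0 : 0 < p := (Fact.out : p.Prime).pos
  have hchar : CharP K p :=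
    charP_of_injective_ringHom (f := (algebraMap D K).comp (algebraMap k D))
      (RingHom.injective _) p
  obtain ⟨hcar1, hcar2⟩ := hcar p K (xK φ K)
  obtain ⟨hc1, hc2, hc3⟩ := hcar2 hpb
  have hc4 := (hcar1 hpb.1).2
  obtain ⟨ht1, ht2, ht3, ht4⟩ := hths p k
  set x := xK φ K with hx
  set κ : K := algebraMap D K (φ (X 0)) with hκ
  let C : K →+ K := AddMonoidHom.mk' (Car p x) hc2
  have hC : ∀ f, Car p x f = C f := fun f => rfl
  have hCpow : ∀ a f, C (a ^ p * f) = a * C f := hc3
  have hDK : Function.Injective (algebraMap D K) := IsFractionRing.injective D K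
  have hκ0 : κ ≠ 0 := by
    intro h
    exact hBD.kne (hDK (by rw [map_zero]; exact h))
  have hρw0 : ρ w ≠ 0 := by
    intro h0
    rw [h0, zero_mul] at hw1
    exact zero_ne_one hw1
  have hw0 : (w : K) ≠ 0 := by
    intro hw
    have : w = 0 := Subtype.ext hw
    rw [this, map_zero] at hρw0
    exact hρw0 rfl
  have hdd : algebraMap (Ls k) (Mf k) (dd k) ≠ 0 := by
    intro h0
    rw [h0, mul_zero] at hw1
    exact zero_ne_one hw1
  have hdd0 : dd k ≠ 0 := by
    intro h0
    rw [h0, map_zero] at hdd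
    exact hdd rfl
  have hh0 : h ≠ 0 := by
    rintro rfl
    rw [mul_zero] at hwh
    exact hw0 hwh
  let Φ : K → K := fun f => C (f * h) / h
  have hΦ : ∀ f, Φ f * h = C (f * h) := fun f => div_mul_cancel₀ _ hh0
  have hΦadd : ∀ a b, Φ (a + b) = Φ a + Φ b := by
    intro a b
    change C ((a + b) * h) / h = C (a * h) / h + C (b * h) / h
    rw [add_mul, map_add, add_div]
  have hΦpow : ∀ a b, Φ (a ^ p * b) = a * Φ b := by
    intro a b
    change C (a ^ p * b * h) / h = a * (C (b * h) / h)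
    rw [mul_assoc, hCpow, mul_div_assoc]
  obtain ⟨w', hw', hρw'⟩ := fb_inv hor w hρw0
  have hρw'' : ρ w' = algebraMap (Ls k) (Mf k) (dd k) := by
    rw [hρw']
    exact inv_eq_of_mul_eq_one_right hw1
  -- the residual map
  have hresid : ∀ f : O, ∃ f' : O, (f' : K) = Φ f ∧ ∀ a b : Ls k, b ≠ 0 →
      ρ f * algebraMap (Ls k) (Mf k) b = algebraMap (Ls k) (Mf k) a →
      ρ f' * algebraMap (Ls k) (Mf k) b =
        algebraMap (Ls k) (Mf k) (ths p k (a * b ^ (p - 1))) := by
    intro f
    obtain ⟨w₂, hw₂, hρw₂⟩ := hrc2 (f * w)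
    refine ⟨w₂ * w', ?_, ?_⟩
    · have e1 : κ ^ (p - 1) * ((f * w : O) : K) = κ ^ p * ((f : K) * h) := by
        change κ ^ (p - 1) * ((f : K) * (w : K)) = _
        rw [hwh]
        have : κ ^ p = κ * κ ^ (p - 1) := by
          rw [← pow_succ', Nat.sub_add_cancel hp0]
        rw [this]
        ring
      rw [e1, hC, hCpow] at hw₂
      change (w₂ : K) * (w' : K) = C ((f : K) * h) / h
      rw [hw₂, hw', hwh]
      field_simp
    · intro a b hb hab
      have e2 : ρ (f * w) * algebraMap (Ls k) (Mf k) (b * dd k) =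
          algebraMap (Ls k) (Mf k) a := by
        rw [map_mul, map_mul]
        calc ρ f * ρ w * (algebraMap (Ls k) (Mf k) b * algebraMap (Ls k) (Mf k) (dd k))
            = (ρ f * algebraMap (Ls k) (Mf k) b) *
              (ρ w * algebraMap (Ls k) (Mf k) (dd k)) := by ring
          _ = _ := by rw [hw1, hab, mul_one]
      have e3 := hρw₂ a (b * dd k) (mul_ne_zero hb hdd0) e2
      have e4 : a * (b * dd k) ^ (p - 1) * dd k = dd k ^ p * (a * b ^ (p - 1)) := by
        have : dd k ^ p = dd k * dd k ^ (p - 1) := by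
          rw [← pow_succ', Nat.sub_add_cancel hp0]
        rw [this, mul_pow]
        ring
      rw [e4, ht1, map_mul _ (dd k)] at e3
      have e5 : ρ (w₂ * w') * algebraMap (Ls k) (Mf k) b * algebraMap (Ls k) (Mf k) (dd k) =
          algebraMap (Ls k) (Mf k) (ths p k (a * b ^ (p - 1))) *
            algebraMap (Ls k) (Mf k) (dd k) := by
        rw [map_mul ρ, hρw'']
        rw [map_mul _ (b * dd k), map_mul _ b] at e3
        calc ρ w₂ * algebraMap (Ls k) (Mf k) (dd k) * algebraMap (Ls k) (Mf k) b *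
            algebraMap (Ls k) (Mf k) (dd k)
            = ρ w₂ * (algebraMap (Ls k) (Mf k) b * algebraMap (Ls k) (Mf k) (dd k) *
              algebraMap (Ls k) (Mf k) (dd k)) := by ring
          _ = _ := by rw [e3]; ring
      exact mul_right_cancel₀ hdd e5
  -- the toric operator
  have hone : ∀ (f : O) (a : Ls k), ρ f = algebraMap (Ls k) (Mf k) a →
      ∃ f' : O, (f' : K) = Φ f ∧ ρ f' = algebraMap (Ls k) (Mf k) (ths p k a) := by
    intro f a hf
    obtain ⟨f', hf', hρ⟩ := hresid f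
    refine ⟨f', hf', ?_⟩
    have h1 := hρ a 1 one_ne_zero (by rw [map_one, mul_one, hf])
    rwa [map_one, mul_one, one_pow, mul_one] at h1
  have htor : ∀ d : D, ∃ w₁ : O, (w₁ : K) = Φ (algebraMap D K d) ∧
      ρ w₁ = algebraMap (Ls k) (Mf k) (ths p k (res d)) := fun d =>
    hone ⟨algebraMap D K d, hor.dmem d⟩ (res d) (hor.ρ_D d)
  have hiter : ∀ (d : D) (n : ℕ), ∃ f : O, (f : K) = Φ^[n] (algebraMap D K d) ∧
      ρ f = algebraMap (Ls k) (Mf k) ((ths p k)^[n] (res d)) := by
    intro d n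
    induction n with
    | zero => exact ⟨⟨algebraMap D K d, hor.dmem d⟩, rfl, hor.ρ_D d⟩
    | succ n ih =>
      obtain ⟨f, hf, hρf⟩ := ih
      obtain ⟨f', hf', hρf'⟩ := hone f _ hρf
      refine ⟨f', ?_, ?_⟩
      · rw [hf', hf, Function.iterate_succ_apply']
      · rw [hρf', Function.iterate_succ_apply']
  -- `Mo` is stable
  have hMo : ∀ h' : K, (∀ i : D, res i = 0 → h' * algebraMap D K i ∈ Om k D K L) →
      ∀ i : D, res i = 0 → C h' * algebraMap D K i ∈ Om k D K L := by
    intro h' hh' i hi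
    have e1 : C h' * algebraMap D K i = C (algebraMap D K (i ^ (p - 1)) *
        (h' * algebraMap D K i)) := by
      have : algebraMap D K (i ^ (p - 1)) * (h' * algebraMap D K i) =
          algebraMap D K i ^ p * h' := by
        have h2 : algebraMap D K i ^ p = algebraMap D K i * algebraMap D K i ^ (p - 1) := by
          rw [← pow_succ', Nat.sub_add_cancel hp0]
        rw [h2, map_pow]
        ring
      rw [this, hCpow, mul_comm]
    rw [e1]
    exact hom4 _ (hom3 _ _ (hh' i hi))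
  have hMoit : ∀ (n : ℕ) (h' : K), (∀ i : D, res i = 0 → h' * algebraMap D K i ∈ Om k D K L) →
      ∀ i : D, res i = 0 → C^[n] h' * algebraMap D K i ∈ Om k D K L := by
    intro n
    induction n with
    | zero => exact fun h' hh' => hh'
    | succ n ih =>
      intro h' hh'
      rw [Function.iterate_succ_apply']
      exact hMo _ (ih h' hh')
  have hMod : ∀ (d i : D), res i = 0 → (algebraMap D K d * h) * algebraMap D K i ∈
      Om k D K L := by
    intro d i hi
    rw [mul_assoc]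
    exact hom3 _ _ (hhOm i hi)
  have hΦC : ∀ (n : ℕ) (f : K), Φ^[n] f * h = C^[n] (f * h) := by
    intro n
    induction n with
    | zero => exact fun f => rfl
    | succ n ih =>
      intro f
      rw [Function.iterate_succ_apply, Function.iterate_succ_apply, ih, hΦ]
  -- constants
  have hconst : ∀ (n : ℕ) (c : k), C^[n] (algebraMap D K (algebraMap k D c) * h) =
      algebraMap D K (algebraMap k D ((rt p k)^[n] c)) * h := by
    intro n
    induction n with
    | zero => exact fun c => rfl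
    | succ n ih =>
      intro c
      have e1 : algebraMap D K (algebraMap k D c) =
          algebraMap D K (algebraMap k D (rt p k c)) ^ p := by
        rw [← map_pow, ← map_pow]
        congr 2
        exact (frobeniusEquiv_symm_pow_p k p c).symm
      rw [Function.iterate_succ_apply, Function.iterate_succ_apply, e1, hCpow, ← hC h, hfix, ih]
  refine ⟨O, ρ, h, Φ, hor, hpb, ⟨fun f => hc1 f, fun a i => ?_⟩, hh0, hfix, ⟨w, hw1, hwh⟩,
    fun f => rfl, ⟨hΦadd, hΦpow⟩, ?_, htor, ?_⟩
  · exact congrFun (hc4 a).1 i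
  · change C (1 * h) / h = 1
    rw [one_mul, ← hC, hfix, div_self hh0]
  · intro d
    obtain ⟨n, hn⟩ := ht4 (res d)
    obtain ⟨f, hf, hρf⟩ := hiter d n
    rw [hn n le_rfl] at hρf
    set τ := (rt p k)^[n] (cs (res d)) with hτ
    -- `Φ ^ n d - τ` is in the maximal ideal
    obtain ⟨f₁, hf₁, hρf₁⟩ : ∃ f₁ : O, (f₁ : K) = Φ^[n] (algebraMap D K d) -
        algebraMap D K (algebraMap k D τ) ∧ ρ f₁ = 0 := by
      refine ⟨f - ⟨algebraMap D K (algebraMap k D τ), hor.dmem _⟩, ?_, ?_⟩
      · change (f : K) - algebraMap D K (algebraMap k D τ) = _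
        rw [hf]
      · rw [map_sub, hρf, hor.ρ_D, AlgHom.commutes, sub_self]
    obtain ⟨g', hg', hfg⟩ := (hor.ker f₁).1 hρf₁
    have hv : C^[n] (algebraMap D K d * h) - algebraMap D K (algebraMap k D τ) * h =
        (w : K) * g' := by
      rw [← hΦC, ← sub_mul, ← hf₁, hfg, hwh]
      ring
    have hvO : C^[n] (algebraMap D K d * h) - algebraMap D K (algebraMap k D τ) * h ∈ O := by
      rw [hv]
      exact O.mul_mem _ _ w.2 hg'
    have hvOm : C^[n] (algebraMap D K d * h) - algebraMap D K (algebraMap k D τ) * h ∈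
        Om k D K L := by
      refine hmo _ hvO fun i hi => ?_
      rw [sub_mul, sub_eq_add_neg]
      have e1 := hMoit n _ (hMod d) i hi
      have e2 := hMod (algebraMap k D τ) i hi
      exact (hom2 _ _ e1 ((hom2 _ _ e2 e2).2)).1
    obtain ⟨m₀, hm₀⟩ := hnil _ hvOm
    refine ⟨m₀ + n, fun N hN => ?_⟩
    obtain ⟨m, rfl⟩ : ∃ m, N = m + n := ⟨N - n, by omega⟩
    have e1 : C^[m] (C^[n] (algebraMap D K d * h) -
        algebraMap D K (algebraMap k D τ) * h) = 0 := hm₀ m (by omega)
    rw [iterate_map_sub, hconst, ← Function.iterate_add_apply, ← hΦC, sub_eq_zero] at e1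
    have e2 := mul_right_cancel₀ hh0 e1
    rw [e2, hτ, ← Function.iterate_add_apply]

end Pool.Agent.CZA
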