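import Pool.Agent.Lib.MP_305fdd_al.CZ.A.StmF

/-! [FB fld]: finite extensions in which the `p`-basis stays `p`-independent. -/

set_option autoImplicit false

namespace Pool.Agent.CZA

open Pool.Agent.CZ
open Pool.Agent.F2 (rt)

open MvPolynomial

private theorem fld_mon {L K : Type} [Field L] [Field K] [Algebra L K] {p : ℕ} (t : Fin 2 → L)
    (e : Fin 2 → Fin p) :
    F2Ch.monY (fun i => algebraMap L K (t i)) e = algebraMap L K (F2Ch.monY t e) := by
  simp [F2Ch.monY]

private theorem fld_comb {L K : Type} [Field L] [Field K] [Algebra L K] {p : ℕ} [Fact p.Prime]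
    [CharP L p] [CharP K p] {ι : Type} (S : Finset ι) (t : Fin 2 → L) (w : ι → K)
    (c : ι → (Fin 2 → Fin p) → L) :
    ∑ i ∈ S, pcomb t (c i) • w i ^ p =
      pcomb (fun i => algebraMap L K (t i)) (fun e => ∑ i ∈ S, c i e • w i) := by
  unfold pcomb
  simp_rw [sum_pow_char, Finset.sum_smul, Finset.sum_mul]
  rw [Finset.sum_comm]
  refine Finset.sum_congr rfl fun e _ => Finset.sum_congr rfl fun i _ => ?_
  rw [fld_mon, Algebra.smul_def, Algebra.smul_def, mul_pow, map_mul, map_pow]
  ring

private theorem fld_li {L K : Type} [Field L] [Field K] [Algebra L K] {p : ℕ} [Fact p.Prime]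
    [CharP L p] [CharP K p] {ι : Type} (t : Fin 2 → L) (ht : PBas p t)
    (hs : PInd p (fun i => algebraMap L K (t i))) (w : ι → K) (hw : LinearIndependent L w) :
    LinearIndependent L fun i => w i ^ p := by
  rw [linearIndependent_iff'] at hw ⊢
  intro S l hl i hi
  choose c hc using fun i => ht.2 (l i)
  have h1 : ∑ i ∈ S, pcomb t (c i) • w i ^ p = 0 := by
    rw [← hl]
    exact Finset.sum_congr rfl fun i _ => by rw [← hc i]
  rw [fld_comb] at h1
  have h2 := hs _ h1
  rw [hc i]
  unfold pcomb
  refine Finset.sum_eq_zero fun e _ => ?_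
  rw [hw S (fun i => c i e) (h2 e) i hi, zero_pow (Fact.out : p.Prime).ne_zero, zero_mul]

theorem p_fld (h1 : S_car) : S_fld := by
  intro p hp L K _ _ _ _ _ _ t ht hs
  have hc1 := h1 p L t
  have hc2 := h1 p K (fun i => algebraMap L K (t i))
  let w := Module.finBasis L K
  have hwp : LinearIndependent L fun i => w i ^ p := fld_li t ht hs w w.linearIndependent
  let v : Module.Basis (Fin (Module.finrank L K)) L K :=
    basisOfLinearIndependentOfCardEqFinrank' _ hwp (by simp)
  have hv : ∀ i, v i = w i ^ p := fun i => by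
    simp [v]
  have hbas : PBas p (fun i => algebraMap L K (t i)) := by
    refine ⟨hs, fun f => ?_⟩
    choose c hc using fun i => ht.2 (v.repr f i)
    refine ⟨fun e => ∑ i, c i e • w i, ?_⟩
    rw [← fld_comb]
    conv_lhs => rw [← v.sum_repr f]
    exact Finset.sum_congr rfl fun i _ => by rw [← hc i, hv i]
  have hsep : Algebra.IsSeparable L K := by
    refine ⟨fun c => ?_⟩
    have hirr : Irreducible (minpoly L c) := minpoly.irreducible (Algebra.IsIntegral.isIntegral c)
    rcases Polynomial.separable_or p hirr with h | ⟨_, g, hg, hgc⟩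
    · exact h
    · exfalso
      have hdeg : (minpoly L c).natDegree = g.natDegree * p := by
        rw [← hgc, Polynomial.natDegree_expand]
      have hg1 : 0 < g.natDegree := Polynomial.natDegree_pos_iff_degree_pos.mpr
        (Polynomial.degree_pos_of_irreducible hg)
      have hlt : g.natDegree < (minpoly L c).natDegree := by
        rw [hdeg]
        exact lt_mul_of_one_lt_right hg1 hp.out.one_lt
      have hli := fld_li t ht hs _ (linearIndependent_pow (K := L) c)
      rw [Fintype.linearIndependent_iff] at hli
      have hz : ∑ i : Fin (minpoly L c).natDegree, g.coeff i • (c ^ (i : ℕ)) ^ p = 0 := by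
        have h0 : Polynomial.aeval (c ^ p) g = 0 := by
          have := minpoly.aeval L c
          rw [← hgc, Polynomial.expand_aeval] at this
          exact this
        rw [← h0, Polynomial.aeval_eq_sum_range' hlt,
          ← Fin.sum_univ_eq_sum_range (fun i => g.coeff i • (c ^ p) ^ i)]
        exact Finset.sum_congr rfl fun i _ => by rw [← pow_mul, ← pow_mul, mul_comm]
      have h3 := hli (fun i => g.coeff i) hz
      apply hg.ne_zero
      ext n
      by_cases hn : n < (minpoly L c).natDegree
      · simpa using h3 ⟨n, hn⟩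
      · simpa using Polynomial.coeff_eq_zero_of_natDegree_lt (by omega)
  have htr : ∀ c : K, Algebra.trace L K (c ^ p) = Algebra.trace L K c ^ p := by
    intro c
    rw [Algebra.trace_eq_matrix_trace v, Algebra.trace_eq_matrix_trace w, Matrix.trace,
      Matrix.trace, sum_pow_char]
    refine Finset.sum_congr rfl fun i _ => ?_
    rw [Matrix.diag_apply, Matrix.diag_apply, Algebra.leftMulMatrix_eq_repr_mul,
      Algebra.leftMulMatrix_eq_repr_mul]
    have h4 : c ^ p * v i = ∑ j, (w.repr (c * w i) j) ^ p • v j := by
      rw [hv i, ← mul_pow]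
      conv_lhs => rw [← w.sum_repr (c * w i), sum_pow_char]
      exact Finset.sum_congr rfl fun j _ => by
        rw [Algebra.smul_def, Algebra.smul_def, mul_pow, map_pow, hv j]
    rw [h4, Module.Basis.repr_sum_self]
  refine ⟨hbas, hsep, fun h => ?_⟩
  obtain ⟨c, hc⟩ := hbas.2 h
  have h5 : Algebra.trace L K h = pcomb t fun e => Algebra.trace L K (c e) := by
    rw [hc]
    unfold pcomb
    rw [map_sum]
    refine Finset.sum_congr rfl fun e _ => ?_
    rw [fld_mon, mul_comm, ← Algebra.smul_def, map_smul, htr, smul_eq_mul, mul_comm]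
  rw [h5, ((hc1.1 ht.1).2 _).2]
  conv_lhs => rw [hc, ((hc2.1 hs).2 _).2]

end Pool.Agent.CZA
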