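import Pool.Agent.Lib.MP_305fdd_al.CZ.A.StmF

/-!
# MP_305fdd_al (`C_m * Z`), part A, piece [CF h]: the fixed element `h`
-/

set_option autoImplicit false

namespace Pool.Agent.CZA

open MvPolynomial Pool.Agent.CZ
open Pool.Agent.F2 (rt)

theorem h_charP (p : ℕ) [Fact p.Prime] (k : Type) [Field k] [CharP k p]
    (D : Type) [CommRing D] [Algebra k D] (K : Type) [Field K] [Algebra D K] : CharP K p :=
  charP_of_injective_ringHom ((algebraMap D K).comp (algebraMap k D)).injective p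

theorem h_dd_ne (k : Type) [Field k] : dd k ≠ 0 := by
  intro h
  have h1 := congrArg (fun a : Ls k => a.coeff 1) h
  unfold dd at h1
  simp only [AddMonoidAlgebra.coeff_sub, Finsupp.sub_apply, AddMonoidAlgebra.coeff_single,
    AddMonoidAlgebra.coeff_zero, Finsupp.zero_apply] at h1
  rw [Finsupp.single_eq_same, Finsupp.single_eq_of_ne (by norm_num), sub_zero] at h1
  exact one_ne_zero h1

theorem h_rt_one (p : ℕ) [Fact p.Prime] (k : Type) [Field k] [CharP k p] [PerfectRing k p]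
    (N : ℕ) : (rt p k)^[N] 1 = 1 := by
  induction N with
  | zero => rfl
  | succ N ih =>
    rw [Function.iterate_succ_apply', ih]
    change (frobeniusEquiv k p).symm 1 = 1
    exact map_one _

theorem h_cs {k : Type} [Field k] (G : Ls k) (hG : G ≠ 0) :
    ∃ (a : ℤ) (x : k), cs (AddMonoidAlgebra.single a x * G) = 1 := by
  have h1 : ∃ a : ℤ, G.coeff a ≠ 0 := by
    by_contra hcon
    push Not at hcon
    apply hG
    refine AddMonoidAlgebra.coeff_injective (Finsupp.ext fun m => ?_)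
    rw [hcon m, AddMonoidAlgebra.coeff_zero, Finsupp.zero_apply]
  obtain ⟨a, ha⟩ := h1
  refine ⟨-a, (G.coeff a)⁻¹, ?_⟩
  unfold cs
  rw [AddMonoidAlgebra.coeff_single_mul_apply, neg_neg, add_zero, inv_mul_cancel₀ ha]

theorem p_h (p : ℕ) [Fact p.Prime] (k : Type) [Field k] [CharP k p] [PerfectRing k p] (D : Type)
    [CommRing D] [Algebra k D] (φ : Ak k →ₐ[k] D) (res : D →ₐ[k] Ls k) (g : Fin 2 → D) (K : Type)
    [Field K] [Algebra D K] (hom : S_om p k D φ res g K) (hnil : S_nil p k D φ res g K)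
    (hmo : S_mo p k D φ res g K) (hrc : S_rc p k D φ res g K) (hpb : S_pb p k D φ res g K)
    (hcar : S_car) (hths : S_ths) : S_h p k D φ res g K := by
  intro hBD hfr O ρ hOR L _ _ _ _ _ hLK
  have : CharP K p := h_charP p k D K
  have hpb := (hpb hBD hfr L hLK).1
  obtain ⟨-, hadd, hmul⟩ := (hcar p K (xK φ K)).2 hpb
  obtain ⟨hD, hOadd, hOmod, hOC⟩ := hom hBD hfr L hLK
  obtain ⟨hCO, hrc⟩ := hrc hBD hfr O ρ hOR hpb
  obtain ⟨q, hq1, hq2⟩ := hBD.loc
  obtain ⟨t1, t2, t3, t4⟩ := hths p k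
  have hpp : 0 < p := (Fact.out : p.Prime).pos
  have hinj : Function.Injective (algebraMap D K) := IsFractionRing.injective D K
  have hinjM : Function.Injective (algebraMap (Ls k) (Mf k)) := IsFractionRing.injective _ _
  have hdd := h_dd_ne k
  have hddM : algebraMap (Ls k) (Mf k) (dd k) ≠ 0 := by
    intro h
    exact hdd ((map_eq_zero_iff _ hinjM).mp h)
  obtain ⟨C, hC⟩ : ∃ C : K →+ K, ∀ f, C f = Car p (xK φ K) f :=
    ⟨AddMonoidHom.mk' (Car p (xK φ K)) hadd, fun _ => rfl⟩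
  obtain ⟨κ, hκ⟩ : ∃ κ : K, κ = algebraMap D K (φ (X 0)) := ⟨_, rfl⟩
  have hκ0 : κ ≠ 0 := by
    rw [hκ]
    intro h0
    exact hBD.kne (hinj (by rw [h0, map_zero]))
  -- the element `f`
  have hG : res q * dd k ≠ 0 := mul_ne_zero hq1 hdd
  obtain ⟨a0, x0, hcs⟩ := h_cs _ hG
  obtain ⟨f, hf⟩ := hBD.surj (AddMonoidAlgebra.single a0 x0)
  obtain ⟨G, hGdef⟩ : ∃ G : Ls k, G = res (q * f) * dd k := ⟨_, rfl⟩
  have hcsG : cs G = 1 := by
    rw [← hcs, hGdef, map_mul, hf]
    congr 1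
    ring
  obtain ⟨N, hN⟩ := t4 G
  have hN1 : ∀ n, N ≤ n → (ths p k)^[n] G = 1 := by
    intro n hn
    rw [hN n hn, hcsG, h_rt_one, map_one]
  obtain ⟨E, hE⟩ : ∃ E : K, E = algebraMap D K (q * f) := ⟨_, rfl⟩
  obtain ⟨x, hx⟩ : ∃ x : K, x = E / κ := ⟨_, rfl⟩
  have hκx : κ * x = E := by rw [hx]; field_simp
  -- x lies in Mo
  have hxM : ∀ i : D, res i = 0 → x * algebraMap D K i ∈ Om k D K L := by
    intro i hi
    obtain ⟨c, hc⟩ := hq2 i hi
    have h8 : x * algebraMap D K i = algebraMap D K (f * c) := by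
      have h9 : κ * (x * algebraMap D K i) = κ * algebraMap D K (f * c) := by
        rw [← mul_assoc, hκx, hE, hκ, ← map_mul, ← map_mul]
        congr 1
        linear_combination f * hc
      exact mul_left_cancel₀ hκ0 h9
    rw [h8]
    exact hD _
  have hCM : ∀ f : K, (∀ i : D, res i = 0 → f * algebraMap D K i ∈ Om k D K L) →
      ∀ i : D, res i = 0 → C f * algebraMap D K i ∈ Om k D K L := by
    intro f hf i hi
    have h8 : C f * algebraMap D K i = Car p (xK φ K) (f * algebraMap D K (i ^ p)) := by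
      rw [hC, map_pow, mul_comm f, hmul, mul_comm]
    rw [h8]
    exact hOC _ (hf _ (by rw [map_pow, hi, zero_pow hpp.ne']))
  have hCjM : ∀ j : ℕ, ∀ i : D, res i = 0 → (⇑C)^[j] x * algebraMap D K i ∈ Om k D K L := by
    intro j
    induction j with
    | zero => exact hxM
    | succ j ih => rw [Function.iterate_succ_apply']; exact hCM _ ih
  -- the residues
  have hv : ∀ j : ℕ, ∃ v : O, (v : K) = κ * (⇑C)^[j] x ∧
      ρ v * algebraMap (Ls k) (Mf k) (dd k) = algebraMap (Ls k) (Mf k) ((ths p k)^[j] G) := by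
    intro j
    induction j with
    | zero =>
      refine ⟨⟨algebraMap D K (q * f), hOR.dmem _⟩, ?_, ?_⟩
      · change algebraMap D K (q * f) = κ * x
        rw [hκx, hE]
      · rw [hOR.ρ_D, ← map_mul, hGdef]
        rfl
    | succ j ih =>
      obtain ⟨v, hv1, hv2⟩ := ih
      obtain ⟨w', hw1, hw2⟩ := hrc v
      refine ⟨w', ?_, ?_⟩
      · rw [hw1, hv1, Function.iterate_succ_apply', hC, ← hmul, ← hκ]
        congr 1
        have h8 : κ ^ p = κ ^ (p - 1) * κ := by
          rw [← pow_succ, Nat.sub_add_cancel hpp]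
        rw [h8]
        ring
      · have h8 := hw2 _ _ hdd hv2
        have h9 : (ths p k)^[j] G * dd k ^ (p - 1) * dd k = dd k ^ p * (ths p k)^[j] G := by
          have h10 : dd k ^ p = dd k ^ (p - 1) * dd k := by
            rw [← pow_succ, Nat.sub_add_cancel hpp]
          rw [h10]
          ring
        rw [h9, t1, map_mul, map_mul, ← mul_assoc] at h8
        rw [Function.iterate_succ_apply']
        apply mul_right_cancel₀ hddM
        rw [h8]
        ring
  obtain ⟨h1, hh1⟩ : ∃ h1 : K, h1 = (⇑C)^[N] x := ⟨_, rfl⟩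
  have hh1M : ∀ i : D, res i = 0 → h1 * algebraMap D K i ∈ Om k D K L := by
    rw [hh1]
    exact hCjM N
  obtain ⟨v, hv1, hv2⟩ := hv N
  obtain ⟨v', hv1', hv2'⟩ := hv (N + 1)
  rw [hN1 N le_rfl, map_one] at hv2
  rw [hN1 (N + 1) (by omega), map_one] at hv2'
  rw [← hh1] at hv1
  rw [Function.iterate_succ_apply', ← hh1] at hv1'
  obtain ⟨u, hu⟩ : ∃ u : K, u = C h1 - h1 := ⟨_, rfl⟩
  have hEO : ρ (v' - v) = 0 := by
    rw [map_sub]
    have h8 : (ρ v' - ρ v) * algebraMap (Ls k) (Mf k) (dd k) = 0 := by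
      rw [sub_mul, hv2, hv2', sub_self]
    exact (mul_eq_zero.mp h8).resolve_right hddM
  obtain ⟨y, hyO, hy⟩ := (hOR.ker _).mp hEO
  have huy : u = y := by
    have h8 : κ * u = κ * y := by
      rw [hu, mul_sub, ← hv1', ← hv1, hκ]
      exact hy
    exact mul_left_cancel₀ hκ0 h8
  have huO : u ∈ O := huy ▸ hyO
  have huM : ∀ i : D, res i = 0 → u * algebraMap D K i ∈ Om k D K L := by
    intro i hi
    rw [hu, sub_mul, sub_eq_add_neg]
    exact (hOadd _ _ (hCM h1 hh1M i hi) ((hOadd _ _ (hh1M i hi) (hh1M i hi)).2)).1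
  have huOm : u ∈ Om k D K L := hmo hBD hfr O ρ hOR L hLK u huO huM
  obtain ⟨M, hM⟩ := hnil hBD hfr L hLK u huOm
  have hCM' : (⇑C)^[M] u = 0 := by
    have h8 : (⇑C : K → K) = Car p (xK φ K) := funext hC
    rw [h8]; exact hM M le_rfl
  have hjO : ∀ j : ℕ, (⇑C)^[j] u ∈ O := by
    intro j
    induction j with
    | zero => exact huO
    | succ j ih => rw [Function.iterate_succ_apply', hC]; exact hCO _ ih
  have hjOm : ∀ j : ℕ, (⇑C)^[j] u ∈ Om k D K L := by
    intro j
    induction j with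
    | zero => exact huOm
    | succ j ih => rw [Function.iterate_succ_apply', hC]; exact hOC _ ih
  obtain ⟨s, hs⟩ : ∃ s : K, s = ∑ j ∈ Finset.range M, (⇑C)^[j] u := ⟨_, rfl⟩
  have hsO : s ∈ O := by rw [hs]; exact sum_mem fun j _ => hjO j
  have hsOm : s ∈ Om k D K L := by
    rw [hs]
    have h8 : ∀ M : ℕ, ∑ j ∈ Finset.range M, (⇑C)^[j] u ∈ Om k D K L := by
      intro M
      induction M with
      | zero =>
        rw [Finset.sum_range_zero]
        have := hD 0
        rwa [map_zero] at this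
      | succ M ih => rw [Finset.sum_range_succ]; exact (hOadd _ _ ih (hjOm M)).1
    exact h8 M
  refine ⟨h1 + s, ?_, ?_, ?_⟩
  · rw [← hC, map_add]
    have h8 : C s = s - u := by
      rw [hs, map_sum]
      have h9 : ∀ j ∈ Finset.range M, C ((⇑C)^[j] u) = (⇑C)^[j + 1] u := fun j _ =>
        (Function.iterate_succ_apply' _ _ _).symm
      rw [Finset.sum_congr rfl h9]
      have h10 := Finset.sum_range_succ' (fun j => (⇑C)^[j] u) M
      have h11 := Finset.sum_range_succ (fun j => (⇑C)^[j] u) M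
      rw [hCM', add_zero] at h11
      rw [h11] at h10
      rw [h10]
      simp only [Function.iterate_zero, id_eq, add_sub_cancel_right]
    rw [h8, hu]
    ring
  · refine ⟨v + ⟨algebraMap D K (φ (X 0)), hOR.dmem _⟩ * ⟨s, hsO⟩, ?_, ?_⟩
    · rw [map_add, (hOR.ker (⟨algebraMap D K (φ (X 0)), hOR.dmem _⟩ * ⟨s, hsO⟩)).mpr
        ⟨s, hsO, rfl⟩, add_zero, hv2]
    · have h8 : algebraMap D K (φ (X 0)) * (h1 + s) =
          (v : K) + algebraMap D K (φ (X 0)) * s := by
        rw [← hκ, mul_add, hv1]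
      rw [h8]
      rfl
  · intro i hi
    rw [add_mul]
    refine (hOadd _ _ (hh1M i hi) ?_).1
    rw [mul_comm]
    exact hOmod i s hsOm

end Pool.Agent.CZA
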