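import Pool.Agent.Lib.MP_305fdd_al.CZ.A.StmF

/-!
# MP_305fdd_al (`C_m * Z`), part A, piece [CF ind]: `p`-independence along the reducible locus
-/

set_option autoImplicit false
set_option linter.unusedSectionVars false

namespace Pool.Agent.CZA

open MvPolynomial Pool.Agent.CZ
open Pool.Agent.F2 (rt)

section
variable {p : ℕ} [Fact p.Prime] {k : Type} [Field k] [CharP k p] [PerfectRing k p]
  {D : Type} [CommRing D] [Algebra k D] {φ : Ak k →ₐ[k] D} {res : D →ₐ[k] Ls k} {g : Fin 2 → D}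
  {K : Type} [Field K] [Algebra D K]

/-- `κ ≠ 0` in `K` -/
theorem ind_kap_ne (hB : BD p k D φ res g) [IsFractionRing D K] :
    algebraMap D K (φ (X 0)) ≠ 0 := by
  intro h
  have := hB.dom
  exact hB.kne ((map_eq_zero_iff _ (IsFractionRing.injective D K)).1 h)

theorem ind_pcomb_smul (x : Fin 2 → K) (a : K) (c : (Fin 2 → Fin p) → K) :
    pcomb x (fun e => a * c e) = a ^ p * pcomb x c := by
  unfold pcomb
  rw [Finset.mul_sum]
  refine Finset.sum_congr rfl fun e _ => ?_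
  rw [mul_pow]; ring

/-- the double sum -/
theorem ind_pcomb (x : Fin 2 → K) (c : (Fin 2 → Fin p) → K) :
    pcomb x c = ∑ i : Fin p, x 0 ^ (i : ℕ) * ∑ j : Fin p, c ![i, j] ^ p * x 1 ^ (j : ℕ) := by
  unfold pcomb
  rw [← (finTwoArrowEquiv (Fin p)).symm.sum_comp, Fintype.sum_prod_type]
  refine Finset.sum_congr rfl fun i _ => ?_
  rw [Finset.mul_sum]
  refine Finset.sum_congr rfl fun j _ => ?_
  have h1 : (finTwoArrowEquiv (Fin p)).symm (i, j) = ![i, j] := rfl
  rw [h1]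
  have h2 : F2Ch.monY x ![i, j] = x 0 ^ (i : ℕ) * x 1 ^ (j : ℕ) := by
    unfold F2Ch.monY
    rw [Fin.prod_univ_two]
    rfl
  rw [h2]
  ring

/-- elimination of the lowest term -/
theorem ind_low (O : ValuationSubring K) (κ : K) (hκ : κ ≠ 0) (hκO : κ ∈ O) (S : ℕ → K)
    (hS : ∀ i, S i ∈ O) (n i0 : ℕ) (hi0 : i0 < n) (hlow : ∀ i < i0, ∃ w ∈ O, S i = κ ^ n * w)
    (z : K) (hz : z ∈ O) (h : ∑ i ∈ Finset.range n, κ ^ i * S i = κ ^ n * z) :
    ∃ w ∈ O, S i0 = κ * w := by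
  obtain ⟨q, rfl⟩ : ∃ q, n = i0 + (q + 1) := ⟨n - i0 - 1, by omega⟩
  have hA : ∃ A ∈ O, ∑ i ∈ Finset.range i0, κ ^ i * S i = κ ^ (i0 + (q + 1)) * A := by
    have h1 : ∀ i : ℕ, ∃ w ∈ O, i < i0 → S i = κ ^ (i0 + (q + 1)) * w := by
      intro i
      by_cases hi : i < i0
      · obtain ⟨w, hw, hw'⟩ := hlow i hi
        exact ⟨w, hw, fun _ => hw'⟩
      · exact ⟨0, O.zero_mem, fun h => absurd h hi⟩
    choose w hw hw' using h1
    refine ⟨∑ i ∈ Finset.range i0, κ ^ i * w i, ?_, ?_⟩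
    · exact sum_mem fun i _ => mul_mem (pow_mem hκO _) (hw i)
    · rw [Finset.mul_sum]
      refine Finset.sum_congr rfl fun i hi => ?_
      rw [hw' i (Finset.mem_range.mp hi)]
      ring
  obtain ⟨A, hA1, hA2⟩ := hA
  have h2 : ∑ x ∈ Finset.range (q + 1), κ ^ (i0 + x) * S (i0 + x) =
      κ ^ i0 * (S i0 + κ * ∑ x ∈ Finset.range q, κ ^ x * S (i0 + (x + 1))) := by
    rw [Finset.sum_range_succ', mul_add, Finset.mul_sum, Finset.mul_sum, add_comm]
    congr 1
    refine Finset.sum_congr rfl fun x _ => ?_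
    rw [pow_add, pow_succ]
    ring
  rw [Finset.sum_range_add, hA2, h2] at h
  have h3 : κ ^ i0 * (S i0 + κ * ∑ x ∈ Finset.range q, κ ^ x * S (i0 + (x + 1))) =
      κ ^ i0 * (κ ^ (q + 1) * (z - A)) := by
    have h4 : κ ^ (i0 + (q + 1)) * z = κ ^ i0 * (κ ^ (q + 1) * z) := by rw [pow_add]; ring
    have h5 : κ ^ (i0 + (q + 1)) * A = κ ^ i0 * (κ ^ (q + 1) * A) := by rw [pow_add]; ring
    rw [h4, h5] at h
    linear_combination h
  have h4 := mul_left_cancel₀ (pow_ne_zero i0 hκ) h3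
  refine ⟨κ ^ q * (z - A) - ∑ x ∈ Finset.range q, κ ^ x * S (i0 + (x + 1)), ?_, ?_⟩
  · exact sub_mem (mul_mem (pow_mem hκO _) (sub_mem hz hA1))
      (sum_mem fun x _ => mul_mem (pow_mem hκO _) (hS _))
  · rw [pow_succ] at h4
    linear_combination h4

/-- step (1) -/
theorem ind_one (hB : BD p k D φ res g) [IsFractionRing D K] {O : ValuationSubring K}
    {ρ : O →+* Mf k} (hO : OR φ res K O ρ) (hry : S_ry)
    (c : (Fin 2 → Fin p) → K) (hc : ∀ e, c e ∈ O) (z : K) (hz : z ∈ O)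
    (h : pcomb (xK φ K) c = algebraMap D K (φ (X 0)) ^ p * z) :
    ∀ e, ∃ w ∈ O, c e = algebraMap D K (φ (X 0)) * w := by
  classical
  have hκ := ind_kap_ne (K := K) hB
  set κ := algebraMap D K (φ (X 0)) with hκdef
  have hκO : κ ∈ O := hO.dmem _
  set y := algebraMap D K (φ (X 1)) with hy
  have hyO : y ∈ O := hO.dmem _
  have hx0 : xK φ K 0 = κ := rfl
  have hx1 : xK φ K 1 = y := rfl
  have hpp : 0 < p := (Fact.out : p.Prime).pos
  set C : ℕ → Fin p → K := fun i j => if h : i < p then c ![⟨i, h⟩, j] else 0 with hC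
  have hCO : ∀ i j, C i j ∈ O := by
    intro i j
    rw [hC]
    simp only
    split_ifs
    · exact hc _
    · exact O.zero_mem
  have hCc : ∀ i j : Fin p, C i j = c ![i, j] := by
    intro i j
    rw [hC]
    simp only [i.2, dite_true]
  set S : ℕ → K := fun i => ∑ j : Fin p, C i j ^ p * y ^ (j : ℕ) with hS
  have hSO : ∀ i, S i ∈ O := fun i =>
    sum_mem fun j _ => mul_mem (pow_mem (hCO i j) _) (pow_mem hyO _)
  have hsum : ∑ i ∈ Finset.range p, κ ^ i * S i = κ ^ p * z := by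
    rw [← h, ind_pcomb, Finset.sum_range, hx0, hx1]
    refine Finset.sum_congr rfl fun i _ => ?_
    rw [hS]
    simp only [hCc]
  have key : ∀ i : ℕ, i < p → ∀ j, ∃ w ∈ O, C i j = κ * w := by
    intro i
    induction i using Nat.strong_induction_on with
    | _ i ih =>
      intro hi
      have hlow : ∀ i' < i, ∃ w ∈ O, S i' = κ ^ p * w := by
        intro i' hi'
        choose w hw hw' using ih i' hi' (by omega)
        refine ⟨∑ j, w j ^ p * y ^ (j : ℕ), ?_, ?_⟩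
        · exact sum_mem fun j _ => mul_mem (pow_mem (hw j) _) (pow_mem hyO _)
        · rw [hS]
          simp only
          rw [Finset.mul_sum]
          refine Finset.sum_congr rfl fun j _ => ?_
          rw [hw' j, mul_pow]
          ring
      obtain ⟨w, hw, hw'⟩ := ind_low O κ hκ hκO S hSO p i hi hlow z hz hsum
      have h1 : ρ ⟨S i, hSO i⟩ = 0 := (hO.ker _).mpr ⟨w, hw, hw'⟩
      have h2 : (⟨S i, hSO i⟩ : O) = ∑ j : Fin p, (⟨C i j, hCO i j⟩ : O) ^ p *
          (⟨y, hyO⟩ : O) ^ (j : ℕ) := by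
        apply Subtype.ext
        push_cast
        rfl
      have h3 : ρ ⟨y, hyO⟩ = algebraMap (Ls k) (Mf k) (rr 1 1) := by
        have h4 := hO.ρ_D (φ (X 1))
        rw [hB.res_φ] at h4
        have h5 : resA k (X 1) = rr 1 1 := by
          unfold resA
          rw [aeval_X]
          rfl
        rw [h5] at h4
        exact h4
      rw [h2, map_sum] at h1
      simp only [map_mul, map_pow] at h1
      rw [h3] at h1
      have h4 := (hry p hB.odd k).2 (fun j => ρ ⟨C i j, hCO i j⟩) h1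
      intro j
      obtain ⟨w', hw1, hw2⟩ := (hO.ker _).mp (h4 j)
      exact ⟨w', hw1, hw2⟩
  intro e
  have h1 := key (e 0) (e 0).2 (e 1)
  have h2 : C (e 0) (e 1) = c e := by
    rw [hCc]
    congr 1
    funext i
    fin_cases i <;> rfl
  rw [h2] at h1
  exact h1

/-- step (2) -/
theorem ind_two (hB : BD p k D φ res g) [IsFractionRing D K] {O : ValuationSubring K}
    {ρ : O →+* Mf k} (hO : OR φ res K O ρ) (hry : S_ry) (n : ℕ) :
    ∀ (c : (Fin 2 → Fin p) → K), (∀ e, algebraMap D K (φ (X 0)) ^ n * c e ∈ O) →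
    pcomb (xK φ K) c ∈ O → ∀ e, c e ∈ O := by
  have hκ := ind_kap_ne (K := K) hB
  induction n with
  | zero =>
    intro c h _ e
    have := h e
    rwa [pow_zero, one_mul] at this
  | succ n ih =>
    intro c h hc
    refine ih c (fun e => ?_) hc
    have h1 : pcomb (xK φ K) (fun e => algebraMap D K (φ (X 0)) ^ (n + 1) * c e) =
        algebraMap D K (φ (X 0)) ^ p *
          (algebraMap D K (φ (X 0)) ^ (n * p) * pcomb (xK φ K) c) := by
      rw [ind_pcomb_smul, ← pow_mul]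
      ring
    obtain ⟨z, hz, hz'⟩ := ind_one hB hO hry _ h _
      (mul_mem (pow_mem (hO.dmem _) _) hc) h1 e
    have h2 : algebraMap D K (φ (X 0)) ^ n * c e = z := by
      apply mul_left_cancel₀ hκ
      rw [← hz', pow_succ']
      ring
    rw [h2]
    exact hz

/-- every family becomes integral after multiplication by a power of `κ` -/
theorem ind_pow {O : ValuationSubring K} {ρ : O →+* Mf k} (hO : OR φ res K O ρ)
    (hκ : algebraMap D K (φ (X 0)) ≠ 0) (f : K) :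
    ∃ n : ℕ, ∀ m : ℕ, n ≤ m → algebraMap D K (φ (X 0)) ^ m * f ∈ O := by
  by_cases hf : f = 0
  · exact ⟨0, fun m _ => by rw [hf, mul_zero]; exact O.zero_mem⟩
  · obtain ⟨n, u, -, hu⟩ := hO.unif f hf
    refine ⟨(-n).toNat, fun m hm => ?_⟩
    have h1 : -n ≤ (m : ℤ) := by
      have := Int.self_le_toNat (-n)
      omega
    obtain ⟨j, hj⟩ : ∃ j : ℕ, (m : ℤ) + n = j := ⟨((m : ℤ) + n).toNat, by omega⟩
    have h2 : algebraMap D K (φ (X 0)) ^ m * f = algebraMap D K (φ (X 0)) ^ j * u := by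
      rw [hu, ← mul_assoc, ← zpow_natCast, ← zpow_add₀ hκ, hj, zpow_natCast]
    rw [h2]
    exact mul_mem (pow_mem (hO.dmem _) _) u.2

end

theorem p_ind (p : ℕ) [Fact p.Prime] (k : Type) [Field k] [CharP k p] [PerfectRing k p] (D : Type)
    [CommRing D] [Algebra k D] (φ : Ak k →ₐ[k] D) (res : D →ₐ[k] Ls k) (g : Fin 2 → D)
    (K : Type) [Field K] [Algebra D K] (hry : S_ry) : S_ind p k D φ res g K := by
  classical
  intro hB hFr O ρ hO
  have hκ := ind_kap_ne (K := K) hB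
  have hall : ∀ c : (Fin 2 → Fin p) → K, pcomb (xK φ K) c ∈ O → ∀ e, c e ∈ O := by
    intro c hc
    have h3 : ∀ e, ∃ n : ℕ, ∀ m : ℕ, n ≤ m → algebraMap D K (φ (X 0)) ^ m * c e ∈ O :=
      fun e => ind_pow hO hκ (c e)
    choose N hN using h3
    refine ind_two hB hO hry (∑ e, N e) c (fun e => hN e _ ?_) hc
    exact Finset.single_le_sum (fun _ _ => Nat.zero_le _) (Finset.mem_univ e)
  refine ⟨fun c hc e => ?_, hall⟩
  by_contra hce
  obtain ⟨n, u, hu, hu'⟩ := hO.unif (c e) hce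
  obtain ⟨m, hm⟩ : ∃ m : ℕ, n + 1 ≤ (m : ℤ) := ⟨(n + 1).toNat, Int.self_le_toNat _⟩
  have h4 : pcomb (xK φ K) (fun e => ((algebraMap D K (φ (X 0))) ^ m)⁻¹ * c e) ∈ O := by
    rw [ind_pcomb_smul, hc, mul_zero]
    exact O.zero_mem
  have h5 := hall _ h4 e
  rw [hu'] at h5
  obtain ⟨j, hj⟩ : ∃ j : ℕ, (m : ℤ) - n = j + 1 := ⟨((m : ℤ) - n - 1).toNat, by omega⟩
  apply hu
  rw [hO.ker]
  refine ⟨algebraMap D K (φ (X 0)) ^ j * (((algebraMap D K (φ (X 0))) ^ m)⁻¹ *
    (algebraMap D K (φ (X 0)) ^ n * u)), mul_mem (pow_mem (hO.dmem _) _) h5, ?_⟩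
  have h6 : algebraMap D K (φ (X 0)) * algebraMap D K (φ (X 0)) ^ j *
      (((algebraMap D K (φ (X 0))) ^ m)⁻¹ * algebraMap D K (φ (X 0)) ^ n) = 1 := by
    rw [← pow_succ', ← zpow_natCast, ← zpow_natCast _ m, ← zpow_neg, ← zpow_add₀ hκ,
      ← zpow_add₀ hκ]
    have : ((j + 1 : ℕ) : ℤ) + (-(m : ℤ) + n) = 0 := by
      push_cast
      omega
    rw [this, zpow_zero]
  calc (u : K) = 1 * u := (one_mul _).symm
    _ = _ := by rw [← h6]; ring

end Pool.Agent.CZA
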