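import Pool.Agent.Lib.MP_305fdd_al.CZ.A.StmF

/-!
# MP_305fdd_al (`C_m * Z`), part A: the symmetry commutes with `Φ` [CF iot]
-/

set_option autoImplicit false

namespace Pool.Agent.CZA

open MvPolynomial Pool.Agent.CZ
open Pool.Agent.F2 (rt)

private theorem iot_charP (p : ℕ) [Fact p.Prime] (k : Type) [Field k] [CharP k p]
    (D : Type) [CommRing D] [Algebra k D] (K : Type) [Field K] [Algebra D K] : CharP K p :=
  charP_of_injective_ringHom ((algebraMap D K).comp (algebraMap k D)).injective p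

section
variable (p : ℕ) [hp : Fact p.Prime] (k : Type) [Field k] [CharP k p] [PerfectRing k p]

private theorem iot_rt_pow (c : k) : rt p k (c ^ p) = (rt p k c) ^ p := by
  change (frobeniusEquiv k p).symm (c ^ p) = ((frobeniusEquiv k p).symm c) ^ p
  exact map_pow _ _ _

private theorem iot_rt_ne {c : k} (hc : c ≠ 0) : rt p k c ≠ 0 := by
  intro h
  have h' : (frobeniusEquiv k p).symm c = 0 := h
  exact hc ((map_eq_zero_iff _ (frobeniusEquiv k p).symm.injective).1 h')

private theorem iot_rts_pow (N : ℕ) (c : k) : (rt p k)^[N] (c ^ p) = ((rt p k)^[N] c) ^ p := by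
  induction N with
  | zero => rfl
  | succ N ih => rw [Function.iterate_succ_apply', Function.iterate_succ_apply', ih, iot_rt_pow]

private theorem iot_rts_ne (N : ℕ) {c : k} (hc : c ≠ 0) : (rt p k)^[N] c ≠ 0 := by
  induction N with
  | zero => exact hc
  | succ N ih =>
    rw [Function.iterate_succ_apply']
    exact iot_rt_ne p k ih

end

theorem p_iot (hcar : S_car) (_hths : S_ths) : S_iot := by
  intro p hp k _ _ _ D _ _ φ res g K _ _ _ O ρ h Φ hBD hFB ι j hιD hjk hjX hres
  have hK : CharP K p := iot_charP p k D K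
  have hp1 : p ≠ 0 := hp.out.ne_zero
  have hodd : Odd p := hp.out.odd_of_ne_two hBD.odd
  have hdom : IsDomain D := hBD.dom
  obtain ⟨hco, hadd, hmul⟩ := (hcar p K (xK φ K)).2 hFB.bas
  have hC := (hcar p K (xK φ K)).1 hFB.bas.1
  have hneg : ∀ f, Car p (xK φ K) (-f) = - Car p (xK φ K) f := fun f =>
    (AddMonoidHom.mk' (Car p (xK φ K)) hadd).map_neg f
  have hιx : ∀ i, ι (xK φ K i) = xK φ K i := fun i => by
    unfold xK
    rw [hιD, hjX]
  have hιC : ∀ f, ι (Car p (xK φ K) f) = Car p (xK φ K) (ι f) := by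
    intro f
    have e1 : ι f = pcomb (xK φ K) (fun e => ι (cof p (xK φ K) f e)) := by
      conv_lhs => rw [← hco f]
      unfold pcomb
      rw [map_sum]
      refine Finset.sum_congr rfl fun e _ => ?_
      rw [map_mul, map_pow]
      congr 1
      unfold F2Ch.monY
      rw [map_prod]
      refine Finset.prod_congr rfl fun i _ => ?_
      rw [map_pow, hιx]
    rw [e1, (hC.2 _).2]
    rfl
  have hDinj : Function.Injective (algebraMap D K) := IsFractionRing.injective D K
  have hκ : algebraMap D K (φ (X 0)) ≠ 0 := by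
    rw [Ne, map_eq_zero_iff _ hDinj]
    exact hBD.kne
  obtain ⟨w, hw1, hw2⟩ := hFB.h_res
  obtain ⟨a0, b0, hb0, hab⟩ := (hFB.or.mem w).1 w.2
  have hρ : ρ w * algebraMap (Ls k) (Mf k) (res b0) = algebraMap (Ls k) (Mf k) (res a0) := by
    rw [← hFB.or.ρ_D b0, ← hFB.or.ρ_D a0, ← map_mul]
    congr 1
    exact Subtype.ext hab
  have hdd : res a0 * dd k = res b0 := by
    apply IsFractionRing.injective (Ls k) (Mf k)
    rw [map_mul, ← hρ]
    calc ρ w * algebraMap (Ls k) (Mf k) (res b0) * algebraMap (Ls k) (Mf k) (dd k)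
        = (ρ w * algebraMap (Ls k) (Mf k) (dd k)) * algebraMap (Ls k) (Mf k) (res b0) := by ring
      _ = algebraMap (Ls k) (Mf k) (res b0) := by rw [hw1, one_mul]
  have ha0 : res a0 ≠ 0 := by
    intro h0
    rw [h0, zero_mul] at hdd
    exact hb0 hdd.symm
  obtain ⟨e, he⟩ := hBD.surj (dd k)
  have h1 : res (j (a0 * e)) = res (j b0) := by
    ext n
    rw [hres, hres, map_mul, he, hdd]
  have h2 : res (j e) = - dd k := by
    ext n
    rw [hres, he]
    unfold dd
    simp only [AddMonoidAlgebra.coeff_sub, AddMonoidAlgebra.coeff_neg,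
      AddMonoidAlgebra.coeff_single, Finsupp.sub_apply, Finsupp.neg_apply, Finsupp.single_apply]
    by_cases n1 : n = 1
    · subst n1
      norm_num
      exact hodd.neg_one_pow
    · by_cases n2 : n = -1
      · subst n2
        norm_num
      · rw [if_neg (by omega), if_neg (by omega), if_neg (by omega), if_neg (by omega)]
        simp [hp1]
  have h3 : res (j a0) * (- dd k) = res (j b0) := by
    rw [← h2, ← map_mul, ← map_mul, h1]
  have hjb0 : res (j b0) ≠ 0 := by
    intro h0
    apply hb0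
    ext n
    have h4 := hres b0 (-n)
    rw [h0, neg_neg] at h4
    have h5 : (res b0).coeff n ^ p = 0 := by
      rw [← h4]
      simp
    simpa using pow_eq_zero_iff hp1 |>.1 h5
  -- the quotient
  have hca : res (j b0 * a0) = res (- (j a0 * b0)) := by
    rw [map_mul, map_neg, map_mul, ← h3, ← hdd]
    ring
  have hc0 : res (j b0 * a0) ≠ 0 := by
    rw [map_mul]
    exact mul_ne_zero hjb0 ha0
  have hιw : ι (w : K) = algebraMap D K (φ (X 0)) * ι h := by
    rw [hw2, map_mul]
    congr 1
    exact hιx 0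
  have hιab : ι (w : K) * algebraMap D K (j b0) = algebraMap D K (j a0) := by
    rw [← hιD, ← hιD, ← map_mul, hab]
  -- `h' * c = h * a`
  have hh : (- ι h) * algebraMap D K (j b0 * a0) = h * algebraMap D K (- (j a0 * b0)) := by
    apply mul_left_cancel₀ hκ
    rw [map_mul, map_neg, map_mul, ← hιab, ← hab, hw2]
    have e1 : algebraMap D K (φ (X 0)) * (-ι h * (algebraMap D K (j b0) *
        (algebraMap D K (φ (X 0)) * h * algebraMap D K b0))) =
        - ((algebraMap D K (φ (X 0)) * ι h) * algebraMap D K (j b0) *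
        (algebraMap D K (φ (X 0)) * h * algebraMap D K b0)) := by ring
    rw [e1, ← hιw, hw2]
    ring
  -- set up `b`
  have hcK : algebraMap D K (j b0 * a0) ≠ 0 := by
    intro h0
    rw [map_eq_zero_iff _ hDinj] at h0
    rw [h0, map_zero] at hc0
    exact hc0 rfl
  obtain ⟨b, hb⟩ : ∃ b : K, - ι h = b * h := ⟨- ι h / h, by
    rw [div_mul_cancel₀]
    exact hFB.h_ne⟩
  have hbc : b * algebraMap D K (j b0 * a0) = algebraMap D K (- (j a0 * b0)) := by
    apply mul_left_cancel₀ hFB.h_ne
    rw [← hh, hb]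
    ring
  have hιh0 : ι h ≠ 0 := by
    rw [Ne, map_eq_zero_iff _ ι.injective]
    exact hFB.h_ne
  have hb0' : b ≠ 0 := by
    rintro rfl
    rw [zero_mul, neg_eq_zero] at hb
    exact hιh0 hb
  -- `Φ (b * f) = b * ι (Φ (ι⁻¹ f))`
  have hΦb : ∀ f, Φ (b * ι f) = b * ι (Φ f) := by
    intro f
    rw [hFB.def_Φ, hFB.def_Φ, map_div₀, hιC, map_mul]
    have e1 : b * ι f * h = - (ι f * ι h) := by
      have : b * ι f * h = ι f * (b * h) := by ring
      rw [this, ← hb]
      ring
    rw [e1, hneg]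
    rw [div_eq_iff hFB.h_ne]
    have e2 : b * (Car p (xK φ K) (ι f * ι h) / ι h) * h =
        Car p (xK φ K) (ι f * ι h) / ι h * (b * h) := by ring
    rw [e2, ← hb, mul_neg, div_mul_cancel₀ _ hιh0]
  have hΦbN : ∀ (N : ℕ) f, Φ^[N] (b * ι f) = b * ι (Φ^[N] f) := by
    intro N
    induction N with
    | zero => intro f; rfl
    | succ N ih =>
      intro f
      rw [Function.iterate_succ_apply, Function.iterate_succ_apply, hΦb, ih]
  -- choose `d`
  obtain ⟨n, hn⟩ : ∃ n, (res (j b0 * a0)).coeff n ≠ 0 := by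
    by_contra hcon
    push Not at hcon
    apply hc0
    ext n
    rw [hcon n]
    simp
  obtain ⟨d, hd⟩ := hBD.surj (AddMonoidAlgebra.single (-n) 1)
  have ht : cs (res (j b0 * a0 * d)) ≠ 0 := by
    rw [map_mul, hd]
    unfold cs
    rw [AddMonoidAlgebra.coeff_mul_single_apply]
    simpa using hn
  obtain ⟨N1, hN1⟩ := hFB.tau (- (j a0 * b0) * d)
  obtain ⟨N2, hN2⟩ := hFB.tau (j.symm (j b0 * a0 * d))
  obtain ⟨N, hNN⟩ : ∃ N, N = max N1 N2 := ⟨_, rfl⟩
  have e1 := hN1 N (by rw [hNN]; exact le_max_left _ _)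
  have e2 := hN2 N (by rw [hNN]; exact le_max_right _ _)
  have e3 := hΦbN N (algebraMap D K (j.symm (j b0 * a0 * d)))
  rw [e2, hιD, hιD, hjk, j.apply_symm_apply] at e3
  have e4 : b * algebraMap D K (j b0 * a0 * d) = algebraMap D K (- (j a0 * b0) * d) := by
    rw [map_mul, ← mul_assoc, hbc, map_mul]
  rw [e4, e1, ← iot_rts_pow] at e3
  have e5 : cs (res (j.symm (j b0 * a0 * d))) ^ p = cs (res (j b0 * a0 * d)) := by
    have := hres (j.symm (j b0 * a0 * d)) 0
    rw [j.apply_symm_apply, neg_zero] at this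
    exact this.symm
  have e6 : cs (res (- (j a0 * b0) * d)) = cs (res (j b0 * a0 * d)) := by
    rw [map_mul, map_mul, hca]
  rw [e5, e6] at e3
  have ht' := iot_rts_ne p k N ht
  have hbone : b = 1 := by
    have hne : algebraMap D K (algebraMap k D ((rt p k)^[N] (cs (res (j b0 * a0 * d))))) ≠ 0 := by
      rw [Ne, map_eq_zero_iff _ hDinj, map_eq_zero_iff _ (algebraMap k D).injective]
      exact ht'
    have := mul_right_cancel₀ hne (e3.symm.trans (one_mul _).symm)
    exact this
  intro f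
  have := hΦb f
  rw [hbone, one_mul, one_mul] at this
  exact this.symm

end Pool.Agent.CZA
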