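import Pool.Agent.Lib.MP_305fdd_al.CZ.A.StmF

/-!
# MP_305fdd_al (`C_m * Z`), part A, piece [CF or]
-/

set_option autoImplicit false

namespace Pool.Agent.CZA

open MvPolynomial Pool.Agent.CZ

private theorem or_kap (k : Type) [Field k] : resA k (X 0) = 0 := by
  simp [resA]

/-- the ideal of `x` with `e ^ m x ∈ (d)` -/
private def or_sat {D : Type} [CommRing D] (e d : D) : Ideal D where
  carrier := {x | ∃ (m : ℕ) (c : D), e ^ m * x = c * d}
  zero_mem' := ⟨0, 0, by ring⟩
  add_mem' := by
    rintro x y ⟨m, c, h⟩ ⟨m', c', h'⟩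
    refine ⟨m + m', e ^ m' * c + e ^ m * c', ?_⟩
    calc e ^ (m + m') * (x + y) = e ^ m' * (e ^ m * x) + e ^ m * (e ^ m' * y) := by ring
      _ = (e ^ m' * c + e ^ m * c') * d := by rw [h, h']; ring
  smul_mem' := by
    rintro a x ⟨m, c, h⟩
    exact ⟨m, a * c, by rw [smul_eq_mul, mul_left_comm, h]; ring⟩

private theorem or_key {D R : Type} [CommRing D] [IsDomain D] [IsNoetherianRing D] [CommRing R]
    [IsDomain R] (res : D →+* R) (κ e : D) (hκ : κ ≠ 0) (hres : res κ = 0) (he : res e ≠ 0)
    (h : ∀ b, res b = 0 → ∃ c, e * b = κ * c) (d : D) (hd : d ≠ 0) :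
    ∃ (n : ℕ) (d' : D), res d' ≠ 0 ∧ e ^ n * d = κ ^ n * d' := by
  have he0 : e ≠ 0 := by
    rintro rfl
    rw [map_zero] at he
    exact he rfl
  suffices H : ∀ J : Ideal D, ∀ d : D, d ≠ 0 → or_sat e d = J →
      ∃ (n : ℕ) (d' : D), res d' ≠ 0 ∧ e ^ n * d = κ ^ n * d' from H _ d hd rfl
  intro J
  induction J using WellFoundedGT.induction with
  | ind J ih =>
    rintro d hd rfl
    by_cases h0 : res d = 0
    · obtain ⟨d₁, h1⟩ := h d h0
      have hd1 : d₁ ≠ 0 := by
        rintro rfl
        rw [mul_zero] at h1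
        exact (mul_ne_zero he0 hd) h1
      have hlt : or_sat e d < or_sat e d₁ := by
        refine lt_of_le_not_ge ?_ ?_
        · rintro x ⟨m, c, hx⟩
          refine ⟨m + 1, c * κ, ?_⟩
          calc e ^ (m + 1) * x = e * (e ^ m * x) := by ring
            _ = c * (e * d) := by rw [hx]; ring
            _ = c * κ * d₁ := by rw [h1]; ring
        · intro hle
          obtain ⟨m, c, hx⟩ : d₁ ∈ or_sat e d := hle ⟨0, 1, by ring⟩
          have h2 : e ^ (m + 1) * d = κ * c * d := by
            calc e ^ (m + 1) * d = e ^ m * (e * d) := by ring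
              _ = κ * (e ^ m * d₁) := by rw [h1]; ring
              _ = κ * c * d := by rw [hx]; ring
          have h3 : e ^ (m + 1) = κ * c := mul_right_cancel₀ hd h2
          have h4 := congrArg res h3
          rw [map_pow, map_mul, hres, zero_mul] at h4
          exact pow_ne_zero _ he h4
      obtain ⟨n, d', h2, h3⟩ := ih _ hlt d₁ hd1 rfl
      refine ⟨n + 1, d', h2, ?_⟩
      calc e ^ (n + 1) * d = e ^ n * (e * d) := by ring
        _ = κ * (e ^ n * d₁) := by rw [h1]; ring
        _ = κ ^ (n + 1) * d' := by rw [h3]; ring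
    · exact ⟨0, d, h0, by ring⟩

theorem p_or (p : ℕ) [Fact p.Prime] (k : Type) [Field k] [CharP k p] [PerfectRing k p]
    (D : Type) [CommRing D] [Algebra k D] (φ : Ak k →ₐ[k] D) (res : D →ₐ[k] Ls k)
    (g : Fin 2 → D) (K : Type) [Field K] [Algebra D K] : S_or p k D φ res g K := by
  intro hB hK
  haveI := hB.dom
  haveI : IsNoetherianRing D := by
    haveI := hB.ft
    exact Algebra.FiniteType.isNoetherianRing k D
  obtain ⟨e, he, hloc⟩ := hB.loc
  set κ : D := φ (X 0) with hκdef
  have hκ : κ ≠ 0 := hB.kne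
  have hresκ : res κ = 0 := by rw [hκdef, hB.res_φ]; exact or_kap k
  have hinj : Function.Injective (algebraMap D K) := IsFractionRing.injective D K
  have hk : ∀ d : D, d ≠ 0 → ∃ (n : ℕ) (d' : D), res d' ≠ 0 ∧ e ^ n * d = κ ^ n * d' :=
    fun d hd => or_key (res : D →+* Ls k) κ e hκ hresκ he hloc d hd
  have hne : ∀ b : D, res b ≠ 0 → algebraMap D K b ≠ 0 := by
    intro b hb h
    rw [map_eq_zero_iff _ hinj] at h
    rw [h, map_zero] at hb
    exact hb rfl
  have hmul : ∀ a b : D, res a ≠ 0 → res b ≠ 0 → res (a * b) ≠ 0 := by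
    intro a b ha hb
    rw [map_mul]
    exact mul_ne_zero ha hb
  have hκK : algebraMap D K κ ≠ 0 := by
    rw [Ne, map_eq_zero_iff _ hinj]
    exact hκ
  have heK : algebraMap D K e ≠ 0 := hne e he
  -- the decomposition in the field
  have hun : ∀ f : K, f ≠ 0 → ∃ (n : ℤ) (a b : D), res a ≠ 0 ∧ res b ≠ 0 ∧
      f = algebraMap D K κ ^ n * (algebraMap D K a / algebraMap D K b) := by
    intro f hf
    obtain ⟨a, b, hb, rfl⟩ := IsFractionRing.div_surjective (A := D) f
    have hb0 : b ≠ 0 := nonZeroDivisors.ne_zero hb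
    have ha0 : a ≠ 0 := by
      rintro rfl
      rw [map_zero, zero_div] at hf
      exact hf rfl
    obtain ⟨n, a', ha', h1⟩ := hk a ha0
    obtain ⟨m, b', hb', h2⟩ := hk b hb0
    refine ⟨(n : ℤ) - m, a' * e ^ m, b' * e ^ n, ?_, ?_, ?_⟩
    · rw [map_mul, map_pow]; exact mul_ne_zero ha' (pow_ne_zero _ he)
    · rw [map_mul, map_pow]; exact mul_ne_zero hb' (pow_ne_zero _ he)
    · have h1' := congrArg (algebraMap D K) h1
      have h2' := congrArg (algebraMap D K) h2
      simp only [map_mul, map_pow] at h1' h2'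
      have hbK : algebraMap D K b ≠ 0 := by rw [Ne, map_eq_zero_iff _ hinj]; exact hb0
      have hb'K := hne b' hb'
      rw [zpow_sub₀ hκK, zpow_natCast, zpow_natCast, map_mul, map_mul, map_pow, map_pow]
      have hen : algebraMap D K e ^ n ≠ 0 := pow_ne_zero _ heK
      have hem : algebraMap D K e ^ m ≠ 0 := pow_ne_zero _ heK
      have hkm : algebraMap D K κ ^ m ≠ 0 := pow_ne_zero _ hκK
      rw [div_mul_div_comm, div_eq_div_iff hbK (mul_ne_zero hkm (mul_ne_zero hb'K hen))]
      calc algebraMap D K a * (algebraMap D K κ ^ m * (algebraMap D K b' * algebraMap D K e ^ n))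
          = (algebraMap D K e ^ n * algebraMap D K a) * (algebraMap D K κ ^ m * algebraMap D K b') := by
            ring
        _ = algebraMap D K κ ^ n * (algebraMap D K a' * algebraMap D K e ^ m) * algebraMap D K b := by
            rw [h1', ← h2']; ring
  -- the subring
  let S : Subring K :=
    { carrier := {f | ∃ a b : D, res b ≠ 0 ∧ f * algebraMap D K b = algebraMap D K a}
      one_mem' := ⟨1, 1, by rw [map_one]; exact one_ne_zero, by rw [one_mul]⟩
      zero_mem' := ⟨0, 1, by rw [map_one]; exact one_ne_zero, by rw [zero_mul, map_zero]⟩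
      mul_mem' := by
        rintro x y ⟨a, b, hb, h⟩ ⟨a', b', hb', h'⟩
        refine ⟨a * a', b * b', hmul b b' hb hb', ?_⟩
        rw [map_mul, map_mul, ← h, ← h']; ring
      add_mem' := by
        rintro x y ⟨a, b, hb, h⟩ ⟨a', b', hb', h'⟩
        refine ⟨a * b' + a' * b, b * b', hmul b b' hb hb', ?_⟩
        rw [map_add, map_mul, map_mul, map_mul, ← h, ← h']; ring
      neg_mem' := by
        rintro x ⟨a, b, hb, h⟩
        exact ⟨-a, b, hb, by rw [map_neg, ← h]; ring⟩ }
  have hκS : ∀ n : ℕ, algebraMap D K κ ^ n ∈ S := fun n =>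
    ⟨κ ^ n, 1, by rw [map_one]; exact one_ne_zero, by rw [map_one, mul_one, map_pow]⟩
  have hdS : ∀ a b : D, res b ≠ 0 → algebraMap D K a / algebraMap D K b ∈ S := fun a b hb =>
    ⟨a, b, hb, div_mul_cancel₀ _ (hne b hb)⟩
  let O : ValuationSubring K :=
    { S with
      mem_or_inv_mem' := by
        intro f
        by_cases hf : f = 0
        · left
          rw [hf]
          exact S.zero_mem
        · obtain ⟨n, a, b, ha, hb, h⟩ := hun f hf
          rcases Int.eq_nat_or_neg n with ⟨m, rfl | rfl⟩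
          · left
            show f ∈ S
            rw [h, zpow_natCast]
            exact S.mul_mem (hκS m) (hdS a b hb)
          · right
            show f⁻¹ ∈ S
            rw [h, mul_inv, zpow_neg, inv_inv, zpow_natCast, inv_div]
            exact S.mul_mem (hκS m) (hdS b a ha) }
  have hO : ∀ f : K, f ∈ O ↔ ∃ a b : D, res b ≠ 0 ∧ f * algebraMap D K b = algebraMap D K a :=
    fun f => Iff.rfl
  -- the residue map
  have hwd : ∀ (f : K) (a b a' b' : D), res b ≠ 0 → res b' ≠ 0 →
      f * algebraMap D K b = algebraMap D K a → f * algebraMap D K b' = algebraMap D K a' →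
      algebraMap (Ls k) (Mf k) (res a) / algebraMap (Ls k) (Mf k) (res b) =
        algebraMap (Ls k) (Mf k) (res a') / algebraMap (Ls k) (Mf k) (res b') := by
    intro f a b a' b' hb hb' h h'
    have hj : Function.Injective (algebraMap (Ls k) (Mf k)) := IsFractionRing.injective _ _
    rw [div_eq_div_iff (by rw [Ne, map_eq_zero_iff _ hj]; exact hb)
      (by rw [Ne, map_eq_zero_iff _ hj]; exact hb')]
    rw [← map_mul, ← map_mul, ← map_mul, ← map_mul]
    have : a * b' = a' * b := by
      apply hinj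
      rw [map_mul, map_mul, ← h, ← h']
      ring
    rw [this]
  let ρ₀ : O → Mf k := fun f =>
    algebraMap (Ls k) (Mf k) (res ((hO f).1 f.2).choose) /
      algebraMap (Ls k) (Mf k) (res ((hO f).1 f.2).choose_spec.choose)
  have hρ : ∀ (f : O) (a b : D), res b ≠ 0 → (f : K) * algebraMap D K b = algebraMap D K a →
      ρ₀ f = algebraMap (Ls k) (Mf k) (res a) / algebraMap (Ls k) (Mf k) (res b) := by
    intro f a b hb h
    have hs := ((hO f).1 f.2).choose_spec.choose_spec
    exact hwd f _ _ a b hs.1 hb hs.2 h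
  have hj : Function.Injective (algebraMap (Ls k) (Mf k)) := IsFractionRing.injective _ _
  have hj0 : ∀ x : Ls k, x ≠ 0 → algebraMap (Ls k) (Mf k) x ≠ 0 := by
    intro x hx
    rw [Ne, map_eq_zero_iff _ hj]
    exact hx
  let ρ : O →+* Mf k :=
    { toFun := ρ₀
      map_one' := by
        rw [hρ 1 1 1 (by rw [map_one]; exact one_ne_zero) (by rw [map_one, mul_one]; rfl)]
        rw [map_one, map_one, div_one]
      map_zero' := by
        rw [hρ 0 0 1 (by rw [map_one]; exact one_ne_zero)
          (by rw [map_one, mul_one, map_zero]; rfl)]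
        rw [map_zero, map_zero, zero_div]
      map_mul' := by
        intro x y
        obtain ⟨a, b, hb, h⟩ := (hO x).1 x.2
        obtain ⟨a', b', hb', h'⟩ := (hO y).1 y.2
        rw [hρ x a b hb h, hρ y a' b' hb' h', hρ (x * y) (a * a') (b * b') (hmul b b' hb hb')
          (by rw [map_mul, map_mul, ← h, ← h']; push_cast; ring)]
        rw [map_mul, map_mul, map_mul, map_mul, div_mul_div_comm]
      map_add' := by
        intro x y
        obtain ⟨a, b, hb, h⟩ := (hO x).1 x.2
        obtain ⟨a', b', hb', h'⟩ := (hO y).1 y.2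
        rw [hρ x a b hb h, hρ y a' b' hb' h', hρ (x + y) (a * b' + a' * b) (b * b')
          (hmul b b' hb hb')
          (by rw [map_add, map_mul, map_mul, map_mul, ← h, ← h']; push_cast; ring)]
        rw [div_add_div _ _ (hj0 _ hb) (hj0 _ hb')]
        simp only [map_add, map_mul]
        ring_nf }
  have hρ' : ∀ (f : O) (a b : D), res b ≠ 0 → (f : K) * algebraMap D K b = algebraMap D K a →
      ρ f = algebraMap (Ls k) (Mf k) (res a) / algebraMap (Ls k) (Mf k) (res b) := hρ
  have hdm : ∀ d : D, algebraMap D K d ∈ O := fun d =>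
    ⟨d, 1, by rw [map_one]; exact one_ne_zero, by rw [map_one, mul_one]⟩
  refine ⟨O, ρ, ?_⟩
  refine
    { mem := hO
      dmem := hdm
      ρ_D := ?_
      ker := ?_
      unif := ?_ }
  · intro d
    rw [hρ' ⟨algebraMap D K d, hdm d⟩ d 1 (by rw [map_one]; exact one_ne_zero)
      (by rw [map_one, mul_one])]
    rw [map_one, map_one, div_one]
  · intro f
    constructor
    · intro h0
      obtain ⟨a, b, hb, h⟩ := (hO f).1 f.2
      rw [hρ' f a b hb h, div_eq_zero_iff] at h0
      have ha : res a = 0 := by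
        rcases h0 with h0 | h0
        · exact (map_eq_zero_iff _ hj).1 h0
        · exact absurd h0 (hj0 _ hb)
      obtain ⟨c, hc⟩ := hloc a ha
      have heb : res (e * b) ≠ 0 := by rw [map_mul]; exact mul_ne_zero he hb
      refine ⟨algebraMap D K c / algebraMap D K (e * b), ⟨c, e * b, heb,
        div_mul_cancel₀ _ (hne _ heb)⟩, ?_⟩
      rw [← mul_div_assoc, eq_div_iff (hne _ heb)]
      have hc' := congrArg (algebraMap D K) hc
      rw [map_mul, map_mul] at hc'
      rw [← hc', map_mul, ← h]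
      ring
    · rintro ⟨y, hy, h⟩
      obtain ⟨a, b, hb, h'⟩ := (hO y).1 hy
      rw [hρ' f (κ * a) b hb (by rw [h, map_mul, ← h', mul_assoc])]
      rw [map_mul, hresκ, zero_mul, map_zero, zero_div]
  · intro f hf
    obtain ⟨n, a, b, ha, hb, h⟩ := hun f hf
    refine ⟨n, ⟨algebraMap D K a / algebraMap D K b, a, b, hb, div_mul_cancel₀ _ (hne b hb)⟩, ?_, h⟩
    rw [hρ' _ a b hb (div_mul_cancel₀ _ (hne b hb))]
    exact div_ne_zero (hj0 _ ha) (hj0 _ hb)

end Pool.Agent.CZA
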