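import Pool.Agent.Lib.MP_305fdd_al.CZ.A.StmF

/-!
# MP_305fdd_al (F_2), section B, piece pol: the decomposition of polynomials
-/

set_option autoImplicit false

namespace Pool.Agent.CZA

open Pool.Agent.CZ
open Pool.Agent.F2 (rt)

open MvPolynomial

section

variable {p : ℕ} [hp : Fact p.Prime] {k : Type} [Field k] [CharP k p] [PerfectRing k p]

private theorem p_pol_rt (a : k) : rt p k (a ^ p) = a := by
  change (frobeniusEquiv k p).symm (a ^ p) = a
  rw [← frobenius_def]
  exact frobeniusEquiv_symm_apply_frobenius k p a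

private theorem p_pol_rt' (a : k) : (rt p k a) ^ p = a := by
  change ((frobeniusEquiv k p).symm a) ^ p = a
  rw [← frobenius_def]
  exact frobenius_apply_frobeniusEquiv_symm k p a

omit [PerfectRing k p] in
private theorem p_pol_pow (c : Ak k) :
    c ^ p = MvPolynomial.map (frobenius k p) (MvPolynomial.expand p c) := by
  have h : (frobenius (Ak k) p) =
      (MvPolynomial.map (frobenius k p)).comp
        ((MvPolynomial.expand p : Ak k →ₐ[k] Ak k) : Ak k →+* Ak k) := by
    apply MvPolynomial.ringHom_ext
    · intro r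
      simp [frobenius_def]
    · intro i
      simp [frobenius_def]
  have h2 := RingHom.congr_fun h c
  rw [frobenius_def] at h2
  exact h2

omit [CharP k p] [PerfectRing k p] hp in
private theorem p_pol_monY (e : Fin 2 → Fin p) :
    F2Ch.monY (X : Fin 2 → Ak k) e = monomial (toF e) 1 := by
  unfold F2Ch.monY
  rw [MvPolynomial.monomial_eq, C_1, one_mul, Finsupp.prod_fintype _ _ (fun i => pow_zero _)]
  rfl

omit [PerfectRing k p] in
private theorem p_pol_main (c : (Fin 2 → Fin p) → Ak k) (w : Fin 2 →₀ ℕ) (e : Fin 2 → Fin p) :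
    coeff (p • w + toF e) (pcomb X c) = (coeff w (c e)) ^ p := by
  unfold pcomb
  rw [coeff_sum, Finset.sum_eq_single e]
  · rw [p_pol_monY, coeff_mul_monomial, mul_one, p_pol_pow, coeff_map,
      coeff_expand_smul p hp.out.ne_zero, frobenius_def]
  · intro e' _ hne
    rw [p_pol_monY, coeff_mul_monomial']
    split_ifs with hle
    · obtain ⟨i, hi⟩ : ∃ i, e' i ≠ e i := by
        by_contra hno
        push Not at hno
        exact hne (funext hno)
      rw [mul_one, p_pol_pow, coeff_map, coeff_expand_of_not_dvd (i := i), map_zero]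
      intro hd
      apply hi
      have h1 := hle i
      have h2 : (p • w + toF e - toF e') i = p * w i + (e i : ℕ) - (e' i : ℕ) := by
        simp [toF]
      have h3 : (p • w + toF e) i = p * w i + (e i : ℕ) := by
        simp [toF]
      have h4 : (toF e') i = (e' i : ℕ) := rfl
      rw [h3, h4] at h1
      rw [h2] at hd
      have h5 : (p * w i + (e i : ℕ)) ≡ (e' i : ℕ) [MOD p] :=
        ((Nat.modEq_iff_dvd' h1).2 hd).symm
      have h6 : (e i : ℕ) % p = (e' i : ℕ) % p := by
        have := h5
        unfold Nat.ModEq at this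
        rwa [Nat.mul_add_mod] at this
      rw [Nat.mod_eq_of_lt (e i).2, Nat.mod_eq_of_lt (e' i).2] at h6
      exact Fin.ext h6.symm
    · rfl
  · intro hn
    exact absurd (Finset.mem_univ _) hn

omit [CharP k p] [PerfectRing k p] in
private theorem p_pol_split (m : Fin 2 →₀ ℕ) : ∃ (w : Fin 2 →₀ ℕ) (e : Fin 2 → Fin p),
    m = p • w + toF e := by
  refine ⟨Finsupp.equivFunOnFinite.symm fun i => m i / p,
    fun i => ⟨m i % p, Nat.mod_lt _ hp.out.pos⟩, ?_⟩
  ext i
  simp only [Finsupp.add_apply, Finsupp.smul_apply, smul_eq_mul, toF,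
    Finsupp.coe_equivFunOnFinite_symm]
  exact (Nat.div_add_mod (m i) p).symm

end

theorem p_pol : S_pol := by
  intro p _ k _ _ _
  refine ⟨fun a => ?_, fun c c' h => ?_, fun c => ?_⟩
  · ext m
    obtain ⟨w, e, rfl⟩ := p_pol_split (p := p) m
    rw [p_pol_main, coeff_compk, p_pol_rt']
  · funext e
    ext w
    have h1 := congrArg (coeff (p • w + toF e)) h
    rw [p_pol_main, p_pol_main] at h1
    exact frobenius_inj k p h1
  · ext w
    have h1 : (F2TF.cst (p - 1) : Fin 2 →₀ ℕ) = toF (top2 p) := rfl
    unfold psik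
    rw [coeff_compk, h1, p_pol_main, p_pol_rt]

end Pool.Agent.CZA
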