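import Pool.Agent.Lib.MP_305fdd_al.CZ.A.StmF

/-!
# MP_305fdd_al (`C_m * Z`), part A, section F, piece `rc`: the residual map of the Cartier operator
-/

set_option autoImplicit false

namespace Pool.Agent.CZA

open MvPolynomial Pool.Agent.CZ

theorem rc_charP (p : ℕ) [Fact p.Prime] (k D K : Type) [Field k] [CharP k p] [CommRing D]
    [Algebra k D] [Field K] [Algebra D K] : CharP K p :=
  charP_of_injective_ringHom ((algebraMap D K).comp (algebraMap k D)).injective p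

theorem rc_aux {K : Type} [CommRing K] (κ : K) : ∀ (p : ℕ) (hp : 0 < p) (F : Fin p → K),
    ∑ i : Fin p, (if h : (i : ℕ) + 1 < p then κ ^ p * F ⟨(i : ℕ) + 1, h⟩ else F ⟨0, hp⟩) *
      κ ^ (i : ℕ) = κ ^ (p - 1) * ∑ i, F i * κ ^ (i : ℕ)
  | 0, hp, _ => absurd hp (lt_irrefl 0)
  | q + 1, _, F => by
    rw [Fin.sum_univ_castSucc, Fin.sum_univ_succ, Nat.add_sub_cancel]
    have h1 : ∀ i : Fin q,
        (if h : ((Fin.castSucc i : Fin (q + 1)) : ℕ) + 1 < q + 1 then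
          κ ^ (q + 1) * F ⟨((Fin.castSucc i : Fin (q + 1)) : ℕ) + 1, h⟩ else F ⟨0, Nat.succ_pos q⟩) *
          κ ^ ((Fin.castSucc i : Fin (q + 1)) : ℕ) =
        κ ^ q * (F (Fin.succ i) * κ ^ ((Fin.succ i : Fin (q + 1)) : ℕ)) := by
      intro i
      have hi : ((Fin.castSucc i : Fin (q + 1)) : ℕ) + 1 < q + 1 := by
        simp
      rw [dif_pos hi]
      have : (⟨((Fin.castSucc i : Fin (q + 1)) : ℕ) + 1, hi⟩ : Fin (q + 1)) = Fin.succ i := by
        ext; simp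
      rw [this, Fin.val_succ, Fin.val_castSucc]
      ring
    rw [Finset.sum_congr rfl fun i _ => h1 i, ← Finset.mul_sum]
    have h2 : ¬ (((Fin.last q : Fin (q + 1)) : ℕ) + 1 < q + 1) := by simp
    rw [dif_neg h2]
    have h3 : (⟨0, Nat.succ_pos q⟩ : Fin (q + 1)) = 0 := rfl
    rw [h3, Fin.val_last, Fin.val_zero, pow_zero, mul_one]
    ring

/-- sums over pairs of exponents -/
theorem rc_sum {K : Type} [CommRing K] {p : ℕ} (f : (Fin 2 → Fin p) → K) :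
    ∑ e, f e = ∑ j : Fin p, ∑ i : Fin p, f ![i, j] := by
  rw [← (finTwoArrowEquiv (Fin p)).symm.sum_comp, Fintype.sum_prod_type, Finset.sum_comm]
  rfl

theorem rc_monY {K : Type} [CommRing K] {p : ℕ} (x : Fin 2 → K) (e : Fin 2 → Fin p) :
    F2Ch.monY x e = x 0 ^ (e 0 : ℕ) * x 1 ^ (e 1 : ℕ) := by
  rw [F2Ch.monY, Fin.prod_univ_two]

/-- the shifted coefficients -/
noncomputable def rc_sh {K : Type} [CommRing K] {p : ℕ} [hp : Fact p.Prime] (x : Fin 2 → K)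
    (c : (Fin 2 → Fin p) → K) : (Fin 2 → Fin p) → K := fun e =>
  if h : (e 0 : ℕ) + 1 < p then x 0 * c ![⟨(e 0 : ℕ) + 1, h⟩, e 1] else
    c ![⟨0, hp.out.pos⟩, e 1]

theorem rc_shift {K : Type} [CommRing K] {p : ℕ} [hp : Fact p.Prime] (x : Fin 2 → K)
    (c : (Fin 2 → Fin p) → K) : pcomb x (rc_sh x c) = x 0 ^ (p - 1) * pcomb x c := by
  rw [pcomb, pcomb, rc_sum, rc_sum, Finset.mul_sum]
  refine Finset.sum_congr rfl fun j _ => ?_
  have h := rc_aux (x 0) p hp.out.pos fun i => c ![i, j] ^ p * x 1 ^ (j : ℕ)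
  have e1 : ∀ i : Fin p, rc_sh x c ![i, j] ^ p * F2Ch.monY x ![i, j] =
      (if h : (i : ℕ) + 1 < p then
        x 0 ^ p * (c ![⟨(i : ℕ) + 1, h⟩, j] ^ p * x 1 ^ (j : ℕ)) else
          c ![⟨0, hp.out.pos⟩, j] ^ p * x 1 ^ (j : ℕ)) * x 0 ^ (i : ℕ) := by
    intro i
    rw [rc_monY, rc_sh]
    simp only [Matrix.cons_val_zero, Matrix.cons_val_one]
    split_ifs with hh
    · rw [mul_pow]; ring
    · ring
  have e2 : ∀ i : Fin p, c ![i, j] ^ p * F2Ch.monY x ![i, j] =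
      c ![i, j] ^ p * x 1 ^ (j : ℕ) * x 0 ^ (i : ℕ) := by
    intro i
    rw [rc_monY]
    simp only [Matrix.cons_val_zero, Matrix.cons_val_one]
    ring
  rw [Finset.sum_congr rfl fun i _ => e1 i, Finset.sum_congr rfl fun i _ => e2 i]
  exact h

/-- a sum over the first index with `0 ^ i` -/
theorem rc_zero {K : Type} [CommRing K] {p : ℕ} (hp : 0 < p) (F : Fin p → K) :
    ∑ i : Fin p, F i * (0 : K) ^ (i : ℕ) = F ⟨0, hp⟩ := by
  rw [Finset.sum_eq_single ⟨0, hp⟩]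
  · simp
  · intro i _ hi
    have : (i : ℕ) ≠ 0 := fun h => hi (Fin.ext h)
    rw [zero_pow this, mul_zero]
  · intro h; exact absurd (Finset.mem_univ _) h

theorem p_rc (p : ℕ) [Fact p.Prime] (k : Type) [Field k] [CharP k p] [PerfectRing k p] (D : Type)
    [CommRing D] [Algebra k D] (φ : Ak k →ₐ[k] D) (res : D →ₐ[k] Ls k) (g : Fin 2 → D)
    (K : Type) [Field K] [Algebra D K] (hind : S_ind p k D φ res g K) (hry : S_ry)
    (hcar : S_car) : S_rc p k D φ res g K := by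
  intro hB hFr O ρ hO hPB
  have := rc_charP p k D K
  have hpp : 0 < p := (Fact.out : p.Prime).pos
  obtain ⟨hind1, hind2⟩ := hind hB hFr O ρ hO
  obtain ⟨hc1, hc2⟩ := hcar p K (xK φ K)
  obtain ⟨-, hca⟩ := hc1 hind1
  obtain ⟨hrep, hadd, hmul⟩ := hc2 hPB
  obtain ⟨hry1, hry2⟩ := hry p hB.odd k
  have hcO : ∀ f ∈ O, ∀ e, cof p (xK φ K) f e ∈ O := by
    intro f hf
    exact hind2 (cof p (xK φ K) f) (by rw [hrep]; exact hf)
  refine ⟨fun f hf => hcO f hf _, fun f => ?_⟩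
  -- the coefficients in `O`
  set cO : (Fin 2 → Fin p) → O := fun e => ⟨cof p (xK φ K) f e, hcO f f.2 e⟩ with hcOdef
  set κO : O := ⟨algebraMap D K (φ (X 0)), hO.dmem _⟩ with hκO
  set yO : O := ⟨algebraMap D K (φ (X 1)), hO.dmem _⟩ with hyO
  have hf : f = ∑ e, cO e ^ p * F2Ch.monY ![κO, yO] e := by
    apply Subtype.ext
    have h1 : (f : K) = pcomb (xK φ K) (cof p (xK φ K) f) := (hrep _).symm
    rw [h1, pcomb]
    push_cast
    refine Finset.sum_congr rfl fun e _ => ?_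
    rw [rc_monY, rc_monY]
    rfl
  have hρκ : ρ κO = 0 := by
    rw [hκO, hO.ρ_D, hB.res_φ]
    simp [resA]
  have hρy : ρ yO = algebraMap (Ls k) (Mf k) (rr 1 1) := by
    rw [hyO, hO.ρ_D, hB.res_φ]
    simp [resA]
  have hρf : ρ f = ∑ j : Fin p, ρ (cO ![⟨0, hpp⟩, j]) ^ p *
      algebraMap (Ls k) (Mf k) (rr 1 1) ^ (j : ℕ) := by
    conv_lhs => rw [hf]
    rw [rc_sum, map_sum]
    refine Finset.sum_congr rfl fun j _ => ?_
    rw [map_sum]
    have h1 : ∀ i : Fin p, ρ (cO ![i, j] ^ p * F2Ch.monY ![κO, yO] ![i, j]) =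
        (ρ (cO ![i, j]) ^ p * algebraMap (Ls k) (Mf k) (rr 1 1) ^ (j : ℕ)) * 0 ^ (i : ℕ) := by
      intro i
      rw [rc_monY]
      simp only [Matrix.cons_val_zero, Matrix.cons_val_one, map_mul, map_pow, hρκ, hρy]
      ring
    rw [Finset.sum_congr rfl fun i _ => h1 i, rc_zero hpp]
  refine ⟨cO ![⟨0, hpp⟩, ⟨p - 1, Nat.sub_lt hpp one_pos⟩], ?_, ?_⟩
  · have h1 : algebraMap D K (φ (X 0)) ^ (p - 1) * (f : K) =
        pcomb (xK φ K) (rc_sh (xK φ K) (cof p (xK φ K) f)) := by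
      rw [rc_shift, hrep]
      rfl
    rw [h1, (hca _).2, rc_sh]
    have h2 : ¬ ((top2 p 0 : ℕ) + 1 < p) := by
      simp only [top2]
      omega
    rw [dif_neg h2]
    rfl
  · intro a b hb hab
    have h1 := hry1 (fun j => ρ (cO ![⟨0, hpp⟩, j]) * algebraMap (Ls k) (Mf k) b)
      (a * b ^ (p - 1)) (by
        have h2 : ∀ j : Fin p, (ρ (cO ![⟨0, hpp⟩, j]) * algebraMap (Ls k) (Mf k) b) ^ p *
            algebraMap (Ls k) (Mf k) (rr 1 1) ^ (j : ℕ) =
            (ρ (cO ![⟨0, hpp⟩, j]) ^ p * algebraMap (Ls k) (Mf k) (rr 1 1) ^ (j : ℕ)) *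
              algebraMap (Ls k) (Mf k) b ^ p := by
          intro j
          rw [mul_pow]; ring
        rw [Finset.sum_congr rfl fun j _ => h2 j, ← Finset.sum_mul, ← hρf, map_mul, ← hab,
          map_pow, ← mul_pow_sub_one (Fact.out : p.Prime).ne_zero (algebraMap (Ls k) (Mf k) b)]
        ring) ⟨p - 1, Nat.sub_lt hpp one_pos⟩ rfl
    rw [map_mul, ← mul_assoc]
    exact h1

end Pool.Agent.CZA
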