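import Pool.Agent.Lib.MP_305fdd_al.CZ.A.StmF

/-!
# MP_305fdd_al (`C_m * Z`), part A, piece [CF ry]: the Cartier operator of `k(s)` for `y = s + 1/s`.
-/

set_option autoImplicit false

namespace Pool.Agent.CZA

open MvPolynomial Pool.Agent.CZ
open Pool.Agent.F2 (rt)

noncomputable section

section

variable {k : Type} [Field k]

theorem ry_mul_y (a : Ls k) (n : ℤ) :
    (rr 1 1 * a : Ls k).coeff n = a.coeff (n - 1) + a.coeff (n + 1) := by
  unfold rr
  rw [add_mul, AddMonoidAlgebra.coeff_add, Finsupp.add_apply,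
    AddMonoidAlgebra.coeff_single_mul_apply, AddMonoidAlgebra.coeff_single_mul_apply]
  simp only [inv_one, Units.val_one, one_mul, neg_neg]
  rw [show -1 + n = n - 1 by ring, show 1 + n = n + 1 by ring]

theorem ry_mul_dd (a : Ls k) (n : ℤ) :
    (dd k * a : Ls k).coeff n = a.coeff (n - 1) - a.coeff (n + 1) := by
  unfold dd
  rw [sub_mul, AddMonoidAlgebra.coeff_sub, Finsupp.sub_apply,
    AddMonoidAlgebra.coeff_single_mul_apply, AddMonoidAlgebra.coeff_single_mul_apply]
  simp only [one_mul, neg_neg]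
  rw [show -1 + n = n - 1 by ring, show 1 + n = n + 1 by ring]

theorem ry_pow (j : ℕ) : (∀ n : ℤ, (j : ℤ) < |n| → ((rr 1 1 : Ls k) ^ j).coeff n = 0) ∧
    (∀ n : ℤ, ((rr 1 1 : Ls k) ^ j).coeff (-n) = ((rr 1 1 : Ls k) ^ j).coeff n) ∧
    ((rr 1 1 : Ls k) ^ j).coeff (j : ℤ) = 1 := by
  induction j with
  | zero =>
    refine ⟨?_, ?_, ?_⟩
    · intro n hn
      rw [pow_zero, AddMonoidAlgebra.one_def, AddMonoidAlgebra.coeff_single,
        Finsupp.single_eq_of_ne]
      rintro rfl
      simp at hn
    · intro n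
      rw [pow_zero, AddMonoidAlgebra.one_def, AddMonoidAlgebra.coeff_single]
      by_cases hn : n = 0
      · subst hn
        rw [neg_zero]
      · rw [Finsupp.single_eq_of_ne hn, Finsupp.single_eq_of_ne (neg_ne_zero.mpr hn)]
    · rw [pow_zero, AddMonoidAlgebra.one_def, AddMonoidAlgebra.coeff_single, Nat.cast_zero,
        Finsupp.single_eq_same]
  | succ j ih =>
    obtain ⟨h1, h2, h3⟩ := ih
    refine ⟨?_, ?_, ?_⟩
    · intro n hn
      rw [pow_succ', ry_mul_y, h1, h1, add_zero]
      · rw [lt_abs] at hn ⊢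
        push_cast at hn
        rcases hn with hn | hn
        · left; omega
        · right; omega
      · rw [lt_abs] at hn ⊢
        push_cast at hn
        rcases hn with hn | hn
        · left; omega
        · right; omega
    · intro n
      rw [pow_succ', ry_mul_y, ry_mul_y, show -n - 1 = -(n + 1) by ring,
        show -n + 1 = -(n - 1) by ring, h2, h2, add_comm]
    · rw [pow_succ', ry_mul_y]
      push_cast
      rw [add_sub_cancel_right, h3, h1, add_zero]
      rw [lt_abs]
      left; omega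

theorem ry_dd_ne : dd k ≠ 0 := by
  intro h
  have h1 := ry_mul_dd (1 : Ls k) 1
  rw [h, zero_mul, sub_self, AddMonoidAlgebra.one_def, AddMonoidAlgebra.coeff_single,
    Finsupp.single_eq_same, Finsupp.single_eq_of_ne (by norm_num), sub_zero] at h1
  rw [AddMonoidAlgebra.coeff_zero] at h1
  exact zero_ne_one h1

variable (p : ℕ) [hp : Fact p.Prime] [CharP k p] [PerfectRing k p]

theorem ry_rt_one : rt p k 1 = 1 := by
  change (frobeniusEquiv k p).symm 1 = 1
  exact map_one _

/-- step (1), small exponents -/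
theorem ry_small (j : ℕ) (hj : j + 1 < p) : ths p k (dd k * (rr 1 1) ^ j) = 0 := by
  refine AddMonoidAlgebra.coeff_injective (Finsupp.ext fun m => ?_)
  obtain ⟨h1, h2, h3⟩ := ry_pow (k := k) j
  rw [coeff_ths, ry_mul_dd, AddMonoidAlgebra.coeff_zero, Finsupp.zero_apply]
  have hp0 : (0 : ℤ) < p := by exact_mod_cast hp.out.pos
  have hjp : (j : ℤ) + 1 < p := by exact_mod_cast hj
  have h4 : ((rr 1 1 : Ls k) ^ j).coeff ((p : ℤ) * m - 1) -
      ((rr 1 1 : Ls k) ^ j).coeff ((p : ℤ) * m + 1) = 0 := by
    rcases lt_trichotomy m 0 with hm | hm | hm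
    · have h5 : (p : ℤ) * m ≤ -p := by nlinarith
      rw [h1, h1, sub_zero]
      · rw [lt_abs]; right; omega
      · rw [lt_abs]; right; omega
    · subst hm
      rw [mul_zero, show (0 : ℤ) - 1 = -1 by ring, zero_add, h2, sub_self]
    · have h5 : (p : ℤ) ≤ (p : ℤ) * m := by nlinarith
      rw [h1, h1, sub_zero]
      · rw [lt_abs]; left; omega
      · rw [lt_abs]; left; omega
  rw [h4, map_zero]

/-- step (1), the top exponent -/
theorem ry_top : ths p k (dd k * (rr 1 1) ^ (p - 1)) = dd k := by
  refine AddMonoidAlgebra.coeff_injective (Finsupp.ext fun m => ?_)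
  obtain ⟨h1, h2, h3⟩ := ry_pow (k := k) (p - 1)
  have hp1 : 1 < p := hp.out.one_lt
  have hpc : ((p - 1 : ℕ) : ℤ) = (p : ℤ) - 1 := by
    rw [Nat.cast_sub hp1.le]; simp
  rw [hpc] at h1 h3
  have hp0 : (1 : ℤ) < p := by exact_mod_cast hp1
  have hdd : (dd k).coeff m = (1 : Ls k).coeff (m - 1) - (1 : Ls k).coeff (m + 1) := by
    rw [← ry_mul_dd, mul_one]
  have hone : ∀ n : ℤ, (1 : Ls k).coeff n = if n = 0 then 1 else 0 := by
    intro n
    rw [AddMonoidAlgebra.one_def, AddMonoidAlgebra.coeff_single]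
    split_ifs with h
    · rw [h, Finsupp.single_eq_same]
    · rw [Finsupp.single_eq_of_ne h]
  rw [coeff_ths, ry_mul_dd, hdd, hone, hone]
  rcases lt_trichotomy m 0 with hm | hm | hm
  · have h5 : (p : ℤ) * m ≤ -p := by nlinarith
    rw [h1 ((p : ℤ) * m - 1) (by rw [lt_abs]; right; omega), zero_sub]
    by_cases hm1 : m = -1
    · subst hm1
      rw [if_neg (by norm_num), if_pos (by norm_num), zero_sub,
        show (p : ℤ) * (-1) + 1 = -((p : ℤ) - 1) by ring, h2, h3, map_neg, ry_rt_one]
    · have h6 : (p : ℤ) * m ≤ -2 * p := by nlinarith [show m ≤ -2 by omega]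
      rw [h1 ((p : ℤ) * m + 1) (by rw [lt_abs]; right; omega), if_neg (by omega),
        if_neg (by omega), sub_zero, neg_zero, map_zero]
  · subst hm
    rw [mul_zero, show (0 : ℤ) - 1 = -1 by ring, zero_add, h2, sub_self, map_zero,
      if_neg (by norm_num), if_neg (by norm_num), sub_zero]
  · have h5 : (p : ℤ) ≤ (p : ℤ) * m := by nlinarith
    rw [h1 ((p : ℤ) * m + 1) (by rw [lt_abs]; left; omega), sub_zero]
    by_cases hm1 : m = 1
    · subst hm1
      rw [if_pos (by norm_num), if_neg (by norm_num), sub_zero, mul_one, h3, ry_rt_one]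
    · have h6 : 2 * (p : ℤ) ≤ (p : ℤ) * m := by nlinarith [show 2 ≤ m by omega]
      rw [h1 ((p : ℤ) * m - 1) (by rw [lt_abs]; left; omega), if_neg (by omega),
        if_neg (by omega), sub_zero, map_zero]

end

/-- step (2) -/
theorem ry_two (hths : S_ths) (p : ℕ) [Fact p.Prime] (k : Type) [Field k] [CharP k p]
    [PerfectRing k p] (c : Fin p → Mf k) (a : Ls k)
    (h : ∑ j, c j ^ p * algebraMap (Ls k) (Mf k) (rr 1 1) ^ (j : ℕ) = algebraMap (Ls k) (Mf k) a)
    (j : Fin p) (hj : (j : ℕ) = p - 1) : c j * algebraMap (Ls k) (Mf k) (dd k) =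
        algebraMap (Ls k) (Mf k) (ths p k (a * dd k)) := by
  classical
  have hinj : Function.Injective (algebraMap (Ls k) (Mf k)) := IsFractionRing.injective _ _
  obtain ⟨b, hb⟩ := IsLocalization.exist_integer_multiples_of_finite (nonZeroDivisors (Ls k)) c
  choose c' hc' using hb
  have hc'' : ∀ i, algebraMap (Ls k) (Mf k) (c' i) = algebraMap (Ls k) (Mf k) b * c i := by
    intro i
    rw [hc' i, Algebra.smul_def]
  have hb0 : algebraMap (Ls k) (Mf k) (b : Ls k) ≠ 0 :=
    IsLocalization.to_map_ne_zero_of_mem_nonZeroDivisors _ le_rfl b.2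
  obtain ⟨t1, t2, t3, t4⟩ := hths p k
  have h1 : ∑ i, c' i ^ p * (rr 1 1 : Ls k) ^ (i : ℕ) = (b : Ls k) ^ p * a := by
    apply hinj
    rw [map_sum, map_mul, map_pow, ← h, Finset.mul_sum]
    refine Finset.sum_congr rfl fun i _ => ?_
    rw [map_mul, map_pow, map_pow, hc'', mul_pow]
    ring
  have h2 : ths p k ((∑ i, c' i ^ p * (rr 1 1 : Ls k) ^ (i : ℕ)) * dd k)
      = ths p k ((b : Ls k) ^ p * a * dd k) := by rw [h1]
  rw [Finset.sum_mul, map_sum, mul_assoc, t1] at h2
  have h3 : ∀ i : Fin p, ths p k (c' i ^ p * (rr 1 1 : Ls k) ^ (i : ℕ) * dd k)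
      = if i = j then c' j * dd k else 0 := by
    intro i
    rw [mul_assoc, t1, mul_comm ((rr 1 1 : Ls k) ^ (i : ℕ))]
    split_ifs with hij
    · subst hij
      rw [hj, ry_top]
    · rw [ry_small, mul_zero]
      have := i.2
      have h4 : (i : ℕ) ≠ (j : ℕ) := fun h => hij (Fin.ext h)
      omega
  rw [Finset.sum_congr rfl fun i _ => h3 i, Finset.sum_ite_eq' Finset.univ j,
    if_pos (Finset.mem_univ j)] at h2
  have h4 := congrArg (algebraMap (Ls k) (Mf k)) h2
  rw [map_mul, map_mul, hc'', mul_assoc] at h4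
  exact mul_left_cancel₀ hb0 h4

theorem p_ry (hths : S_ths) : S_ry := by
  classical
  intro p _ _ k _ _ _
  refine ⟨fun c a h j hj => ry_two hths p k c a h j hj, ?_⟩
  intro c hc
  have hpp : 0 < p := (Fact.out : p.Prime).pos
  have hdd : algebraMap (Ls k) (Mf k) (dd k) ≠ 0 := by
    intro h
    exact ry_dd_ne ((map_eq_zero_iff _ (IsFractionRing.injective (Ls k) (Mf k))).mp h)
  set y := algebraMap (Ls k) (Mf k) (rr 1 1) with hy
  set C : ℕ → Mf k := fun n => if h : n < p then c ⟨n, h⟩ else 0 with hC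
  have hCc : ∀ j : Fin p, C j = c j := by
    intro j
    rw [hC]
    simp only [j.2, dite_true]
  have hsum : ∑ n ∈ Finset.range p, C n ^ p * y ^ n = 0 := by
    rw [Finset.sum_range, ← hc]
    refine Finset.sum_congr rfl fun j _ => ?_
    rw [hCc]
  have key : ∀ i : ℕ, i < p → C (p - 1 - i) = 0 := by
    intro i
    induction i using Nat.strong_induction_on with
    | _ i ih =>
      intro hi
      set c' : Fin p → Mf k := fun l => if i ≤ (l : ℕ) then C ((l : ℕ) - i) else 0 with hc'
      have h1 : ∑ l, c' l ^ p * y ^ (l : ℕ) = algebraMap (Ls k) (Mf k) 0 := by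
        rw [map_zero]
        have h2 : ∑ l, c' l ^ p * y ^ (l : ℕ) = ∑ l ∈ Finset.range p,
            (if i ≤ l then C (l - i) else 0) ^ p * y ^ l := by
          rw [Finset.sum_range]
        rw [h2]
        have h3 : Finset.range p = Finset.range (i + (p - i)) := by
          congr 1; omega
        rw [h3, Finset.sum_range_add]
        have h4 : ∑ x ∈ Finset.range i, (if i ≤ x then C (x - i) else 0) ^ p * y ^ x = 0 := by
          apply Finset.sum_eq_zero
          intro x hx
          rw [Finset.mem_range] at hx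
          rw [if_neg (by omega), zero_pow hpp.ne', zero_mul]
        have h5 : ∑ x ∈ Finset.range (p - i), (if i ≤ i + x then C (i + x - i) else 0) ^ p *
            y ^ (i + x) = y ^ i * ∑ x ∈ Finset.range (p - i), C x ^ p * y ^ x := by
          rw [Finset.mul_sum]
          refine Finset.sum_congr rfl fun x _ => ?_
          rw [if_pos (by omega), Nat.add_sub_cancel_left, pow_add]
          ring
        have h6 : ∑ x ∈ Finset.range (p - i), C x ^ p * y ^ x = 0 := by
          have h7 : Finset.range p = Finset.range ((p - i) + i) := by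
            congr 1; omega
          rw [h7, Finset.sum_range_add] at hsum
          have h8 : ∑ x ∈ Finset.range i, C (p - i + x) ^ p * y ^ (p - i + x) = 0 := by
            apply Finset.sum_eq_zero
            intro x hx
            rw [Finset.mem_range] at hx
            have h9 := ih (i - 1 - x) (by omega) (by omega)
            rw [show p - 1 - (i - 1 - x) = p - i + x by omega] at h9
            rw [h9, zero_pow hpp.ne', zero_mul]
          rw [h8, add_zero] at hsum
          exact hsum
        rw [h4, h5, h6, mul_zero, add_zero]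
      have h2 := ry_two hths p k c' 0 h1 ⟨p - 1, by omega⟩ rfl
      rw [zero_mul, map_zero, map_zero] at h2
      have h3 := (mul_eq_zero.mp h2).resolve_right hdd
      rw [hc'] at h3
      simp only at h3
      rw [if_pos (by omega)] at h3
      exact h3
  intro j
  rw [← hCc]
  have h1 := key (p - 1 - j) (by omega)
  rw [show p - 1 - (p - 1 - (j : ℕ)) = (j : ℕ) by omega] at h1
  exact h1

end

end Pool.Agent.CZA
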