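import Pool.Agent.Lib.MP_305fdd_al.CZ.A.StmF

/-!
# MP_305fdd_al (`C_m * Z`), part A, piece [CF ths]: properties of the toric operator.
-/

set_option autoImplicit false

namespace Pool.Agent.CZA

open MvPolynomial Pool.Agent.CZ
open Pool.Agent.F2 (rt)

noncomputable section

section

variable (p : ℕ) [hp : Fact p.Prime] (k : Type) [Field k] [CharP k p] [PerfectRing k p]

theorem ths_rt_mul (x y : k) : rt p k (x ^ p * y) = x * rt p k y := by
  change (frobeniusEquiv k p).symm (x ^ p * y) = x * (frobeniusEquiv k p).symm y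
  rw [map_mul]
  congr 1
  rw [RingEquiv.symm_apply_eq]
  rfl

theorem ths_rt_one : rt p k 1 = 1 := by
  change (frobeniusEquiv k p).symm 1 = 1
  exact map_one _

theorem ths_charP : CharP (Ls k) p :=
  charP_of_injective_algebraMap (FaithfulSMul.algebraMap_injective k (Ls k)) p

theorem ths_single (c : ℤ) (x : k) (a : Ls k) :
    ths p k ((AddMonoidAlgebra.single c x : Ls k) ^ p * a) =
      AddMonoidAlgebra.single c x * ths p k a := by
  refine AddMonoidAlgebra.coeff_injective (Finsupp.ext fun m => ?_)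
  rw [coeff_ths, AddMonoidAlgebra.single_pow, AddMonoidAlgebra.coeff_single_mul_apply,
    AddMonoidAlgebra.coeff_single_mul_apply, coeff_ths, ths_rt_mul]
  congr 4
  rw [mul_add, nsmul_eq_mul, mul_neg]

theorem ths_mul (s a : Ls k) : ths p k (s ^ p * a) = s * ths p k a := by
  have := ths_charP p k
  induction s using AddMonoidAlgebra.induction_linear with
  | zero => rw [zero_pow hp.out.ne_zero, zero_mul, zero_mul, map_zero]
  | add f g hf hg =>
    rw [add_pow_char, add_mul, map_add, hf, hg, add_mul]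
  | single c x => exact ths_single p k c x a

theorem ths_iter (a : Ls k) (n : ℕ) : ∀ c : ℤ, ((ths p k)^[n] a).coeff c =
    (rt p k)^[n] (a.coeff (((p : ℤ) ^ n) * c)) := by
  induction n with
  | zero => intro c; simp
  | succ n ih =>
    intro c
    rw [Function.iterate_succ_apply', Function.iterate_succ_apply', coeff_ths, ih, ← mul_assoc,
      ← pow_succ]

theorem ths_rt_zero (n : ℕ) : (rt p k)^[n] 0 = 0 := by
  induction n with
  | zero => rfl
  | succ n ih => rw [Function.iterate_succ_apply', ih, map_zero]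

theorem ths_fin (a : Ls k) : ∃ N₀ : ℕ, ∀ N ≥ N₀, ∀ c : ℤ, c ≠ 0 →
    a.coeff (((p : ℤ) ^ N) * c) = 0 := by
  refine ⟨a.coeff.support.sum (fun c => c.natAbs) , fun N hN c hc => ?_⟩
  by_contra h
  have hmem : ((p : ℤ) ^ N) * c ∈ a.coeff.support := by
    rw [Finsupp.mem_support_iff]; exact h
  have h1 := Finset.single_le_sum (f := fun c : ℤ => c.natAbs)
    (fun _ _ => Nat.zero_le _) hmem
  simp only [Int.natAbs_mul, Int.natAbs_pow, Int.natAbs_natCast] at h1
  have h2 : 1 ≤ c.natAbs := by omega
  have h3 : p ^ N ≤ p ^ N * c.natAbs := Nat.le_mul_of_pos_right _ h2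
  have h4 : N < p ^ N := Nat.lt_pow_self hp.out.one_lt
  omega

end

theorem p_ths : S_ths := by
  intro p _ k _ _ _
  refine ⟨fun s a => ths_mul p k s a, ?_, ?_, ?_⟩
  · refine AddMonoidAlgebra.coeff_injective (Finsupp.ext fun m => ?_)
    rw [coeff_ths, AddMonoidAlgebra.one_def, AddMonoidAlgebra.coeff_single]
    by_cases hm : m = 0
    · subst hm
      rw [mul_zero, Finsupp.single_eq_same, ths_rt_one]
    · have h1 : (p : ℤ) * m ≠ 0 := by
        apply mul_ne_zero _ hm
        exact_mod_cast (Fact.out : p.Prime).ne_zero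
      rw [Finsupp.single_eq_of_ne h1, Finsupp.single_eq_of_ne hm, map_zero]
  · intro a
    simp only [cs, coeff_ths, mul_zero]
  · intro a
    obtain ⟨N₀, hN₀⟩ := ths_fin p k a
    refine ⟨N₀, fun N hN => ?_⟩
    refine AddMonoidAlgebra.coeff_injective (Finsupp.ext fun c => ?_)
    rw [ths_iter, AddMonoidAlgebra.coe_algebraMap, Function.comp_apply,
      AddMonoidAlgebra.coeff_single]
    by_cases hc : c = 0
    · subst hc
      rw [mul_zero, Finsupp.single_eq_same]
      rfl
    · rw [hN₀ N hN c hc, Finsupp.single_eq_of_ne hc, ths_rt_zero]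

end

end Pool.Agent.CZA
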