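import Pool.Agent.Lib.MP_305fdd_al.CZ.A.Stm
import Pool.Agent.Lib.MP_305fdd_al.F2.TF.P.a1

/-!
# MP_305fdd_al: [CA ca]
-/

set_option autoImplicit false

namespace Pool.Agent.CZA

open MvPolynomial
open Pool.Agent.F2TF (Pol fpow fpts fset mem_fpts card_fset)

section
variable {ι A : Type} [Fintype ι] [CommRing A]

/-- the component of an ideal -/
def ca_c (J : Ideal (ι → A)) (i : ι) : Ideal A := J.map (Pi.evalRingHom (fun _ : ι => A) i)

omit [Fintype ι] in
theorem ca_surj (i : ι) : Function.Surjective (Pi.evalRingHom (fun _ : ι => A) i) :=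
  fun a => ⟨fun _ => a, rfl⟩

theorem ca_mem_c (J : Ideal (ι → A)) (i : ι) (a : A) : a ∈ ca_c J i ↔ ∃ b ∈ J, b i = a :=
  Ideal.mem_map_iff_of_surjective _ (ca_surj i)

theorem ca_mem (J : Ideal (ι → A)) (a : ι → A) : a ∈ J ↔ ∀ i, a i ∈ ca_c J i := by
  classical
  constructor
  · intro h i
    exact (ca_mem_c J i _).2 ⟨a, h, rfl⟩
  · intro h
    choose b hb hba using fun i => (ca_mem_c J i _).1 (h i)
    have e : a = ∑ i, Pi.single i 1 * b i := by
      funext j
      rw [Finset.sum_apply, Finset.sum_eq_single j]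
      · rw [Pi.mul_apply, Pi.single_eq_same, one_mul, hba]
      · intro i _ hij
        rw [Pi.mul_apply, Pi.single_eq_of_ne (Ne.symm hij), zero_mul]
      · intro h
        exact absurd (Finset.mem_univ j) h
    rw [e]
    exact Ideal.sum_mem _ fun i _ => J.mul_mem_left _ (hb i)

/-- the quotient is a product -/
noncomputable def ca_equiv (J : Ideal (ι → A)) : ((ι → A) ⧸ J) ≃ (∀ i, A ⧸ ca_c J i) := by
  let g : (ι → A) →+* (∀ i, A ⧸ ca_c J i) :=
    RingHom.pi fun i => (Ideal.Quotient.mk (ca_c J i)).comp (Pi.evalRingHom (fun _ : ι => A) i)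
  have hg : Function.Surjective g := by
    intro y
    choose a ha using fun i => Ideal.Quotient.mk_surjective (y i)
    exact ⟨a, funext ha⟩
  have hk : J = RingHom.ker g := by
    ext a
    rw [RingHom.mem_ker, ca_mem, funext_iff]
    exact forall_congr' fun i => Ideal.Quotient.eq_zero_iff_mem.symm
  exact ((Ideal.quotEquivOfEq hk).trans (RingHom.quotientKerEquivOfSurjective hg)).toEquiv

theorem ca_fin (J : Ideal (ι → A)) (h : Finite ((ι → A) ⧸ J)) (i : ι) : Finite (A ⧸ ca_c J i) := by
  have hs : Function.Surjective fun y : (ι → A) ⧸ J => ca_equiv J y i := by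
    intro z
    classical
    obtain ⟨y, hy⟩ := (ca_equiv J).surjective (Function.update (fun _ => 0) i z)
    refine ⟨y, ?_⟩
    show ca_equiv J y i = z
    rw [hy, Function.update_self]
  exact Finite.of_surjective _ hs

theorem ca_fin' (J : Ideal (ι → A)) (h : ∀ i, Finite (A ⧸ ca_c J i)) : Finite ((ι → A) ⧸ J) :=
  Finite.of_equiv _ (ca_equiv J).symm

theorem ca_card (J : Ideal (ι → A)) :
    Nat.card ((ι → A) ⧸ J) = ∏ i, Nat.card (A ⧸ ca_c J i) := by
  rw [Nat.card_congr (ca_equiv J), Nat.card_pi]

theorem ca_fpow (q : ℕ) (J : Ideal (ι → A)) (i : ι) : ca_c (fpow q J) i = fpow q (ca_c J i) := by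
  have h : ((ca_c J i : Ideal A) : Set A) = (Pi.evalRingHom (fun _ : ι => A) i) '' (J : Set (ι → A)) := by
    ext a
    exact (ca_mem_c J i a)
  unfold fpow
  rw [h]
  unfold ca_c
  rw [Ideal.map_span]
  congr 1
  rw [Set.image_image, Set.image_image]
  rfl

end

theorem ca_points (p m : ℕ) [Fact p.Prime] (K : Type) [Field K] [IsAlgClosed K]
    [CharP K p] (n : ℕ) (hn : n ≠ 0) :
    Nat.card {x : Pol p m →+* K // ∀ b, x b ^ (p ^ n) = x b} = p ^ (m * n) := by
  have hbij : Function.Bijective
      (fun x : {x : Pol p m →+* K // ∀ b, x b ^ (p ^ n) = x b} =>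
        (⟨fun i => x.1 (X i), (mem_fpts hn _).2 fun i => x.2 _⟩ :
          {y : Fin m → K // y ∈ fpts p n m K})) := by
    constructor
    · rintro ⟨x, hx⟩ ⟨x', hx'⟩ h
      have h' : (fun i => x (X i)) = fun i => x' (X i) := congrArg Subtype.val h
      refine Subtype.ext (MvPolynomial.ringHom_ext (fun c => ?_) (fun i => congrFun h' i))
      have : x.comp C = x'.comp C := Subsingleton.elim _ _
      exact congrArg (fun g => g c) this
    · rintro ⟨y, hy⟩
      have hy' := (mem_fpts hn y).1 hy
      set χ : Pol p m →+* K := eval₂Hom (ZMod.castHom (dvd_refl p) K) y with hχ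
      refine ⟨⟨χ, fun b => ?_⟩, Subtype.ext (funext fun i => ?_)⟩
      · have hcomp : (iterateFrobenius K p n).comp χ = χ := by
          refine MvPolynomial.ringHom_ext (fun c => ?_) (fun i => ?_)
          · have : ((iterateFrobenius K p n).comp χ).comp C = χ.comp C := Subsingleton.elim _ _
            exact congrArg (fun g => g c) this
          · show iterateFrobenius K p n (χ (X i)) = χ (X i)
            rw [iterateFrobenius_def, hχ, coe_eval₂Hom, eval₂_X]
            exact hy' i
        have h2 := congrArg (fun g => g b) hcomp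
        simp only [RingHom.comp_apply, iterateFrobenius_def] at h2
        exact h2
      · show χ (X i) = y i
        rw [hχ, coe_eval₂Hom, eval₂_X]
  rw [Nat.card_congr (Equiv.ofBijective _ hbij), Nat.card_eq_fintype_card, Fintype.card_coe]
  rw [fpts, Fintype.card_piFinset, Finset.prod_const, card_fset hn, Finset.card_univ,
    Fintype.card_fin, ← pow_mul, mul_comm n m]

/-- a homomorphism from a finite power to a field factors through one projection -/
theorem ca_factor {ι A K : Type} [Finite ι] [CommRing A] [Field K] (x : (ι → A) →+* K) :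
    ∃ (i : ι) (y : A →+* K), x = y.comp (Pi.evalRingHom (fun _ : ι => A) i) := by
  classical
  have := Fintype.ofFinite ι
  have h1 : ∑ i, x (Pi.single i 1) = 1 := by
    rw [← map_sum, Finset.univ_sum_single (fun _ : ι => (1 : A))]
    exact map_one x
  have h2 : ∃ i, x (Pi.single i 1) ≠ 0 := by
    by_contra h
    push Not at h
    rw [Finset.sum_eq_zero fun i _ => h i] at h1
    exact zero_ne_one h1
  obtain ⟨i, hi⟩ := h2
  have hi1 : x (Pi.single i 1) = 1 := by
    have h3 : x (Pi.single i 1) * x (Pi.single i 1) = x (Pi.single i 1) * 1 := by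
      rw [← map_mul, ← Pi.single_mul, one_mul, mul_one]
    exact mul_left_cancel₀ hi h3
  refine ⟨i, ⟨⟨⟨fun a => x (Pi.single i a), hi1⟩, fun a b => ?_⟩, ?_, fun a b => ?_⟩, ?_⟩
  · show x (Pi.single i (a * b)) = x (Pi.single i a) * x (Pi.single i b)
    rw [Pi.single_mul, map_mul]
  · show x (Pi.single i 0) = 0
    rw [Pi.single_zero, map_zero]
  · show x (Pi.single i (a + b)) = x (Pi.single i a) + x (Pi.single i b)
    rw [Pi.single_add, map_add]
  · refine RingHom.ext fun a => ?_
    show x a = x (Pi.single i (a i))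
    have h4 : (Pi.single i (a i) : ι → A) = Pi.single i 1 * a := by
      funext j
      by_cases hj : j = i
      · subst hj
        rw [Pi.single_eq_same, Pi.mul_apply, Pi.single_eq_same, one_mul]
      · rw [Pi.single_eq_of_ne hj, Pi.mul_apply, Pi.single_eq_of_ne hj, zero_mul]
    rw [h4, map_mul, hi1, one_mul]

/-- [CA ca] -/
theorem p_ca : S_ca := by
  intro p d _ ι _
  have := Fintype.ofFinite ι
  refine ⟨fun J hJ => ?_, fun K _ _ _ n hn => ?_⟩
  · have h1 : ∀ i, Finite (Pol p d ⧸ ca_c (fpow p J) i) := by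
      intro i
      have := ca_fin J hJ i
      rw [ca_fpow]
      exact (F2TF.p_compcard p d (ca_c J i) (ca_fin J hJ i)).1
    refine ⟨ca_fin' _ h1, ?_⟩
    rw [ca_card, ca_card, ← Finset.prod_pow]
    refine Finset.prod_congr rfl fun i _ => ?_
    rw [ca_fpow]
    exact (F2TF.p_compcard p d (ca_c J i) (ca_fin J hJ i)).2
  · rw [← ca_points p d K n hn, ← Nat.card_prod]
    symm
    refine Nat.card_congr (Equiv.ofBijective (fun z : ι × {x : Pol p d →+* K //
      ∀ b, x b ^ (p ^ n) = x b} => (⟨z.2.1.comp (Pi.evalRingHom (fun _ : ι => Pol p d) z.1),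
        fun b => z.2.2 _⟩ : {x : (ι → Pol p d) →+* K // ∀ b, x b ^ (p ^ n) = x b})) ⟨?_, ?_⟩)
    · classical
      rintro ⟨i, y, hy⟩ ⟨j, y', hy'⟩ h
      have h1 : ∀ a : ι → Pol p d, y (a i) = y' (a j) := fun a =>
        congrArg (fun f => f a) (congrArg Subtype.val h)
      have hij : i = j := by
        by_contra hne
        have h2 := h1 (Pi.single i 1)
        rw [Pi.single_eq_same, Pi.single_eq_of_ne (Ne.symm hne), map_one, map_zero] at h2
        exact one_ne_zero h2
      subst hij
      have h3 : y = y' := RingHom.ext fun a => h1 fun _ => a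
      subst h3
      rfl
    · rintro ⟨x, hx⟩
      obtain ⟨i, y, rfl⟩ := ca_factor x
      exact ⟨⟨i, y, fun b => hx fun _ => b⟩, rfl⟩

end Pool.Agent.CZA
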