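import Pool.Agent.Lib.MP_305fdd_al.CZ.A.Stm

set_option autoImplicit false

/-!
Piece wj: the numbers `x j = ζ ^ j + ζ ^ (-j)`.
-/

namespace Pool.Agent.CZA

/-- `C_n (z + 1/z) = z ^ n + z ^ (-n)`. -/
theorem wj_C {k : Type} [Field k] (z w : k) (h : z * w = 1) (n : ℕ) :
    (Polynomial.Chebyshev.C k (n : ℤ)).eval (z + w) = z ^ n + w ^ n ∧
    (Polynomial.Chebyshev.C k ((n : ℤ) + 1)).eval (z + w) = z ^ (n + 1) + w ^ (n + 1) := by
  induction n with
  | zero =>
    constructor
    · simp [Polynomial.Chebyshev.C_zero]; norm_num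
    · simp [Polynomial.Chebyshev.C_one]
  | succ n ih =>
    constructor
    · push_cast
      exact ih.2
    · have e : (((n + 1 : ℕ) : ℤ) + 1) = (n : ℤ) + 2 := by push_cast; ring
      rw [e, Polynomial.Chebyshev.C_add_two, Polynomial.eval_sub, Polynomial.eval_mul,
        Polynomial.eval_X, ih.1, ih.2]
      linear_combination (z ^ n + w ^ n) * h

/-- `(z - 1/z) S_n (z + 1/z) = z ^ (n+1) - z ^ (-n-1)`. -/
theorem wj_S {k : Type} [Field k] (z w : k) (h : z * w = 1) (n : ℕ) :
    (z - w) * (Polynomial.Chebyshev.S k (n : ℤ)).eval (z + w) = z ^ (n + 1) - w ^ (n + 1) ∧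
    (z - w) * (Polynomial.Chebyshev.S k ((n : ℤ) + 1)).eval (z + w)
      = z ^ (n + 2) - w ^ (n + 2) := by
  induction n with
  | zero =>
    constructor
    · simp [Polynomial.Chebyshev.S_zero]
    · simp [Polynomial.Chebyshev.S_one]; ring
  | succ n ih =>
    constructor
    · push_cast
      exact ih.2
    · have e : (((n + 1 : ℕ) : ℤ) + 1) = (n : ℤ) + 2 := by push_cast; ring
      rw [e, Polynomial.Chebyshev.S_add_two, Polynomial.eval_sub, Polynomial.eval_mul,
        Polynomial.eval_X, mul_sub, ih.1, ← mul_assoc, mul_comm (z - w), mul_assoc, ih.2]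
      linear_combination (z ^ (n + 1) - w ^ (n + 1)) * h

theorem wj_deg (R : Type) [Field R] (n : ℕ) :
    ((Polynomial.Chebyshev.S R (n : ℤ)).Monic ∧
      (Polynomial.Chebyshev.S R (n : ℤ)).natDegree = n) ∧
    ((Polynomial.Chebyshev.S R ((n : ℤ) + 1)).Monic ∧
      (Polynomial.Chebyshev.S R ((n : ℤ) + 1)).natDegree = n + 1) := by
  induction n with
  | zero =>
    refine ⟨?_, ?_⟩
    · simp [Polynomial.Chebyshev.S_zero]
    · simp [Polynomial.Chebyshev.S_one, Polynomial.monic_X]
  | succ n ih =>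
    refine ⟨?_, ?_⟩
    · push_cast
      exact ih.2
    · have e : (((n + 1 : ℕ) : ℤ) + 1) = (n : ℤ) + 2 := by push_cast; ring
      rw [e, Polynomial.Chebyshev.S_add_two]
      obtain ⟨⟨h1, h2⟩, h3, h4⟩ := ih
      have h5 : (Polynomial.X * Polynomial.Chebyshev.S R ((n : ℤ) + 1)).Monic :=
        Polynomial.monic_X.mul h3
      have h6 : (Polynomial.X * Polynomial.Chebyshev.S R ((n : ℤ) + 1)).natDegree = n + 2 := by
        rw [Polynomial.monic_X.natDegree_mul h3, Polynomial.natDegree_X, h4]
        ring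
      have h7 : (Polynomial.Chebyshev.S R (n : ℤ)).natDegree <
          (Polynomial.X * Polynomial.Chebyshev.S R ((n : ℤ) + 1)).natDegree := by
        rw [h6, h2]; omega
      refine ⟨h5.sub_of_left (Polynomial.degree_lt_degree h7), ?_⟩
      rw [Polynomial.natDegree_sub_eq_left_of_natDegree_lt h7, h6]

theorem p_wj : S_wj := by
  intro p m hpf hm hp2 hd k _ _ ζ hζ
  have hp := hpf.out
  have hinj : Function.Injective (ZMod.castHom (dvd_refl p) k) :=
    (ZMod.castHom (dvd_refl p) k).injective
  set z : k := (ζ : k) with hz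
  set w : k := ((ζ⁻¹ : kˣ) : k) with hw
  have hzw : z * w = 1 := by
    rw [hz, hw, ← Units.val_mul, mul_inv_cancel, Units.val_one]
  have hz0 : z ≠ 0 := ζ.ne_zero
  have hw0 : w ≠ 0 := (ζ⁻¹).ne_zero
  -- powers
  have hord : ∀ n : ℕ, z ^ n = 1 ↔ 2 * m ∣ n := by
    intro n
    rw [← hζ, orderOf_dvd_iff_pow_eq_one, hz, ← Units.val_pow_eq_pow_val]
    exact Units.val_eq_one
  have hzp : z ^ (p + 1) = 1 := (hord _).2 hd
  have hzpw : z ^ p = w := by
    have : z ^ p * z = w * z := by rw [← pow_succ, hzp, mul_comm w z, hzw]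
    exact mul_right_cancel₀ hz0 this
  have hwpz : w ^ p = z := by
    have h1 : w ^ p * w = z * w := by
      rw [← pow_succ, hzw]
      have : (z * w) ^ (p + 1) = 1 := by rw [hzw, one_pow]
      rw [mul_pow, hzp, one_mul] at this
      exact this
    exact mul_right_cancel₀ hw0 h1
  have hzwj : ∀ j : ℕ, z ^ j * w ^ j = 1 := fun j => by rw [← mul_pow, hzw, one_pow]
  -- the numbers
  have hex : ∀ j : ℕ, ∃ a : ZMod p, ZMod.castHom (dvd_refl p) k a = z ^ j + w ^ j := by
    intro j
    have h1 : (z ^ j + w ^ j) ^ p = z ^ j + w ^ j := by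
      rw [add_pow_char, ← pow_mul, ← pow_mul, mul_comm j p, pow_mul, pow_mul, hzpw, hwpz, add_comm]
    have h2 : z ^ j + w ^ j ∈ (⊥ : Subfield k) :=
      (Subfield.mem_bot_iff_pow_eq_self k p).2 h1
    have h3 : (⊥ : Subfield k) ≤ (ZMod.castHom (dvd_refl p) k).fieldRange := bot_le
    exact h3 h2
  choose x hx using hex
  have hzm : z ^ m = -1 := by
    have h1 : (z ^ m) ^ 2 = 1 := by rw [← pow_mul, hord]; rw [mul_comm]
    have h2 : z ^ m ≠ 1 := by
      rw [Ne, hord]
      intro h
      have := Nat.le_of_dvd (by omega) h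
      omega
    have h3 : (z ^ m - 1) * (z ^ m + 1) = 0 := by linear_combination h1
    rcases mul_eq_zero.1 h3 with h | h
    · exact absurd (sub_eq_zero.1 h) h2
    · exact eq_neg_of_add_eq_zero_left h
  have hwm : w ^ m = -1 := by
    have h1 := hzwj m
    rw [hzm] at h1
    linear_combination -h1
  have hne : ∀ i j, i ≤ m → j ≤ m → x i = x j → i = j := by
    intro i j hi hj hij
    have h1 : z ^ i + w ^ i = z ^ j + w ^ j := by rw [← hx, ← hx, hij]
    have hkey : (z ^ i - z ^ j) * (z ^ (i + j) - 1) = 0 := by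
      have e1 := hzwj i
      have e2 := hzwj j
      rw [pow_add]
      linear_combination (z ^ i * z ^ j) * h1 - (z ^ j) * e1 + (z ^ i) * e2
    rcases mul_eq_zero.1 hkey with h | h
    · have h2 : z ^ i = z ^ j := sub_eq_zero.1 h
      rcases le_total i j with hle | hle
      · have h3 : z ^ (j - i) = 1 := by
          have : z ^ (j - i) * z ^ i = 1 * z ^ i := by
            rw [← pow_add, Nat.sub_add_cancel hle, h2, one_mul]
          exact mul_right_cancel₀ (pow_ne_zero i hz0) this
        rw [hord] at h3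
        rcases Nat.eq_zero_or_pos (j - i) with h4 | h4
        · omega
        · have := Nat.le_of_dvd h4 h3
          omega
      · have h3 : z ^ (i - j) = 1 := by
          have : z ^ (i - j) * z ^ j = 1 * z ^ j := by
            rw [← pow_add, Nat.sub_add_cancel hle, h2, one_mul]
          exact mul_right_cancel₀ (pow_ne_zero j hz0) this
        rw [hord] at h3
        rcases Nat.eq_zero_or_pos (i - j) with h4 | h4
        · omega
        · have := Nat.le_of_dvd h4 h3
          omega
    · have h2 : z ^ (i + j) = 1 := sub_eq_zero.1 h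
      rw [hord] at h2
      rcases Nat.eq_zero_or_pos (i + j) with h4 | h4
      · omega
      · have := Nat.le_of_dvd h4 h2
        omega
  have hrecu : ∀ j, x (j + 2) = x 1 * x (j + 1) - x j := by
    intro j
    apply hinj
    rw [map_sub, map_mul, hx, hx, hx, hx]
    linear_combination (-(z ^ j + w ^ j)) * hzw
  have hzero : x 0 = 2 := by
    apply hinj
    rw [hx, map_ofNat]
    norm_num
  have hcheb2 : ∀ j : ℕ, x j = (Polynomial.Chebyshev.C (ZMod p) (j : ℤ)).eval (x 1) ∧
      x (j + 1) = (Polynomial.Chebyshev.C (ZMod p) ((j : ℤ) + 1)).eval (x 1) := by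
    intro j
    induction j with
    | zero =>
      constructor
      · simp [Polynomial.Chebyshev.C_zero, hzero]
      · simp [Polynomial.Chebyshev.C_one]
    | succ j ih =>
      constructor
      · push_cast
        exact ih.2
      · have e : (((j + 1 : ℕ) : ℤ) + 1) = (j : ℤ) + 2 := by push_cast; ring
        rw [e, Polynomial.Chebyshev.C_add_two, Polynomial.eval_sub, Polynomial.eval_mul,
          Polynomial.eval_X, ← ih.1, ← ih.2]
        exact hrecu j
  -- evaluation over `k`
  have hevC : ∀ (n : ℤ) (a : ZMod p), ZMod.castHom (dvd_refl p) k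
      ((Polynomial.Chebyshev.C (ZMod p) n).eval a)
      = (Polynomial.Chebyshev.C k n).eval (ZMod.castHom (dvd_refl p) k a) := by
    intro n a
    rw [← Polynomial.eval₂_at_apply, ← Polynomial.eval_map, Polynomial.Chebyshev.map_C]
  have hevS : ∀ (n : ℤ) (a : ZMod p), ZMod.castHom (dvd_refl p) k
      ((Polynomial.Chebyshev.S (ZMod p) n).eval a)
      = (Polynomial.Chebyshev.S k n).eval (ZMod.castHom (dvd_refl p) k a) := by
    intro n a
    rw [← Polynomial.eval₂_at_apply, ← Polynomial.eval_map, Polynomial.Chebyshev.map_S]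
  have hzjm : ∀ j : ℕ, (z ^ j) ^ m = (-1) ^ j := fun j => by
    rw [← pow_mul, mul_comm, pow_mul, hzm]
  have hwjm : ∀ j : ℕ, (w ^ j) ^ m = (-1) ^ j := fun j => by
    rw [← pow_mul, mul_comm, pow_mul, hwm]
  have em1 : ((m : ℤ) - 1) = ((m - 1 : ℕ) : ℤ) := by omega
  have em2 : ((m : ℤ) - 2) = ((m - 2 : ℕ) : ℤ) := by omega
  have hS1 : ∀ j : ℕ, (z ^ j - w ^ j) * (Polynomial.Chebyshev.S k ((m : ℤ) - 1)).eval (z ^ j + w ^ j)
      = 0 := by
    intro j
    rw [em1, (wj_S (z ^ j) (w ^ j) (hzwj j) (m - 1)).1, Nat.sub_add_cancel (by omega), hzjm, hwjm,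
      sub_self]
  refine ⟨x, ⟨hzero, hrecu, ?_, hne, ?_, fun j => (hcheb2 j).1, ?_, ?_, ?_⟩, hx⟩
  · apply hinj
    rw [hx, hzm, hwm, map_neg, map_ofNat]
    norm_num
  · intro j
    apply hinj
    have hw2 : w ^ (2 * m) = 1 := by rw [mul_comm, pow_mul, hwm]; norm_num
    have hz2 : z ^ (2 * m) = 1 := by rw [mul_comm, pow_mul, hzm]; norm_num
    rw [hx, hx, pow_add, pow_add, hw2, hz2, mul_one, mul_one]
  · intro j
    apply hinj
    rw [hevC, hx, (wj_C (z ^ j) (w ^ j) (hzwj j) m).1, hzjm, hwjm, map_mul, map_pow, map_neg,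
      map_ofNat, map_one]
    ring
  · intro j hj hodd
    have hne0 : z ^ j - w ^ j ≠ 0 := by
      intro h
      have h1 : z ^ j = w ^ j := sub_eq_zero.1 h
      have h2 : z ^ (2 * j) = 1 := by
        rw [two_mul, pow_add]
        nth_rewrite 2 [h1]
        exact hzwj j
      rw [hord] at h2
      have := Nat.le_of_dvd (by omega) h2
      omega
    have hneg : ((-1 : k)) ^ j = -1 := Odd.neg_one_pow (Nat.odd_iff.2 hodd)
    constructor
    · apply hinj
      rw [hevS, hx, map_zero]
      exact (mul_eq_zero.1 (hS1 j)).resolve_left hne0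
    · apply hinj
      rw [hevS, hx, map_one]
      apply mul_left_cancel₀ hne0
      rw [em2, (wj_S (z ^ j) (w ^ j) (hzwj j) (m - 2)).1]
      have e3 : m - 2 + 1 = m - 1 := by omega
      rw [e3, mul_one]
      have h1 : (z ^ j) ^ (m - 1) * z ^ j = -1 := by
        rw [← pow_succ, Nat.sub_add_cancel (by omega), hzjm, hneg]
      have h2 : (w ^ j) ^ (m - 1) * w ^ j = -1 := by
        rw [← pow_succ, Nat.sub_add_cancel (by omega), hwjm, hneg]
      have h3 := hzwj j
      linear_combination (w ^ j) * h1 - (z ^ j) * h2 +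
        ((w ^ j) ^ (m - 1) - (z ^ j) ^ (m - 1)) * h3
  · have hdeg := (wj_deg (ZMod p) (m - 1)).1
    rw [← em1] at hdeg
    have hq : (Polynomial.X ^ 2 - 4 : Polynomial (ZMod p)) = Polynomial.X ^ 2 - Polynomial.C 4 := by
      rw [map_ofNat]
    have hqm : (Polynomial.X ^ 2 - 4 : Polynomial (ZMod p)).Monic := by
      rw [hq]
      exact Polynomial.monic_X_pow_sub_C _ (by norm_num)
    have hqd : (Polynomial.X ^ 2 - 4 : Polynomial (ZMod p)).natDegree = 2 := by
      rw [hq]
      exact Polynomial.natDegree_X_pow_sub_C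
    apply Polynomial.eq_of_monic_of_dvd_of_natDegree_le
    · exact Polynomial.monic_prod_of_monic _ _ fun j _ => Polynomial.monic_X_sub_C _
    · exact hdeg.1.mul hqm
    · apply Finset.prod_dvd_of_coprime
      · intro i hi j hj hij
        apply Polynomial.isCoprime_X_sub_C_of_isUnit_sub
        rw [isUnit_iff_ne_zero]
        intro h
        apply hij
        simp only [Finset.coe_range, Set.mem_Iio] at hi hj
        exact hne i j (by omega) (by omega) (sub_eq_zero.1 h)
      · intro j hj
        rw [Polynomial.dvd_iff_isRoot, Polynomial.IsRoot.def, Polynomial.eval_mul]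
        apply hinj
        rw [map_mul, hevS, hx, map_zero]
        have e4 : ZMod.castHom (dvd_refl p) k (Polynomial.eval (x j) (Polynomial.X ^ 2 - 4))
            = (z ^ j - w ^ j) ^ 2 := by
          have : Polynomial.eval (x j) (Polynomial.X ^ 2 - 4 : Polynomial (ZMod p))
              = x j ^ 2 - 4 := by simp
          rw [this, map_sub, map_pow, hx, map_ofNat]
          linear_combination 4 * hzwj j
        rw [e4]
        linear_combination (z ^ j - w ^ j) * hS1 j
    · rw [hdeg.1.natDegree_mul hqm, hdeg.2, hqd,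
        Polynomial.natDegree_prod_of_monic _ _ fun j _ => Polynomial.monic_X_sub_C _]
      simp
      omega

end Pool.Agent.CZA
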