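import Pool.Agent.Lib.MP_305fdd_al.CZ.A.Main
import Pool.Agent.Lib.MP_305fdd_al.CZ.A.P_ca
import Pool.Agent.Lib.MP_305fdd_al.CZ.A.P_wj

/-!
# MP_305fdd_al (`C_m * Z`), part A: existence of the core data
-/

set_option autoImplicit false

namespace Pool.Agent.CZA

open Pool.Agent.Lib.MP_305fdd_al Pool.Agent.MP_305fdd_al Pool.Agent.CZ

/-- EXISTENCE OF THE CORE DATA -/
theorem exists_core (m : ℕ) (hm : 2 ≤ m) (Λ : Type) [Group Λ] [Group.FG Λ]
    (hΛ : SameFiniteQuotients Λ (Monoid.Coprod (Multiplicative (ZMod m)) (Multiplicative ℤ)))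
    (p : ℕ) [Fact p.Prime] (hp : p ≠ 2) (hpm : 2 * m ∣ p + 1) :
    ∃ (K G : Type) (_ : Field K) (_ : Algebra (AlgebraicClosure (ZMod p)) K) (_ : Group G)
      (C : Core p m (AlgebraicClosure (ZMod p)) K G) (π : G →* Λ), Function.Surjective π ∧
      ∀ g, π g = 1 → g = 1 ∨ g = C.c :=
  exists_core_of p_wj p_ca m hm Λ hΛ p hp hpm

end Pool.Agent.CZA
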