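import Pool.Agent.Lib.MP_305fdd_al.CZ.A.StmK

/-!
# MP_305fdd_al (`C_m * Z`), part A: piece [CK cnt] (counting lifts)
-/

set_option autoImplicit false

namespace Pool.Agent.CZA

open MvPolynomial Pool.Agent.Lib.MP_305fdd_al Pool.Agent.MP_305fdd_al Pool.Agent.CZ
open Pool.Agent.F2 (PC)

/-- a homomorphism from `C_m * Z` is determined by its values at the two generators -/
private theorem cnt_ext (m : ℕ) [NeZero m] {Q : Type} [Group Q] (a b : Gam m →* Q)
    (h1 : a (Monoid.Coprod.inl (Multiplicative.ofAdd 1)) =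
      b (Monoid.Coprod.inl (Multiplicative.ofAdd 1)))
    (h2 : a (Monoid.Coprod.inr (Multiplicative.ofAdd 1)) =
      b (Monoid.Coprod.inr (Multiplicative.ofAdd 1))) : a = b := by
  refine Monoid.Coprod.hom_ext ?_ ?_
  · refine MonoidHom.ext fun x => ?_
    have hx : x = (Multiplicative.ofAdd (1 : ZMod m)) ^ (Multiplicative.toAdd x).val := by
      rw [← ofAdd_nsmul, nsmul_one, ZMod.natCast_zmod_val]
      rfl
    rw [hx, map_pow, map_pow]
    exact congrArg (fun q : Q => q ^ (Multiplicative.toAdd x).val) h1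
  · exact MonoidHom.ext_mint h2

/-- a homomorphism which kills the central element factors through `Λ` -/
private theorem cnt_fac (hex : S_ex) (m : ℕ) [NeZero m] {Λ : Type} [Group Λ]
    (δ : Λ →* Multiplicative (ZMod m)) {Q : Type} [Group Q] (f : Ext m δ →* Q)
    (hf : f (cc m δ) = 1) : ∃ F : Λ →* Q, ∀ g, F (e1 m δ g) = f g := by
  obtain ⟨-, -, -, -, hker, hs, -⟩ := hex m Λ δ
  have hk : (e1 m δ).ker ≤ f.ker := by
    intro g hg
    rcases hker g hg with h | h
    · rw [h]
      exact one_mem _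
    · rw [h]
      exact hf
  refine ⟨(e1 m δ).liftOfRightInverse _ (Function.rightInverse_surjInv hs) ⟨f, hk⟩, fun g => ?_⟩
  exact MonoidHom.liftOfRightInverse_comp_apply _ _ _ ⟨f, hk⟩ g

theorem p_cnt (hex : S_ex) : S_cnt := by
  intro m _ Λ _ Φ δ Q Q' _ _ _ π θ
  obtain ⟨-, -, -, -, -, hs, -⟩ := hex m Λ δ
  rcases isEmpty_or_nonempty {f : Ext m δ →* Q // π.comp f = θ ∧ f (cc m δ) = 1} with he | hne
  · rw [Nat.card_of_isEmpty]
    exact Nat.zero_le _
  · obtain ⟨f0⟩ := hne
    have hfac : ∀ f : {f : Ext m δ →* Q // π.comp f = θ ∧ f (cc m δ) = 1},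
        ∃ F : Λ →* Q, ∀ g, F (e1 m δ g) = f.1 g := fun f => cnt_fac hex m δ f.1 f.2.2
    choose F hF using hfac
    have hcomp : ∀ f, π.rangeRestrict.comp (F f) = π.rangeRestrict.comp (F f0) := by
      intro f
      refine MonoidHom.ext fun l => ?_
      obtain ⟨g, rfl⟩ := hs l
      apply Subtype.ext
      show π (F f (e1 m δ g)) = π (F f0 (e1 m δ g))
      rw [hF, hF]
      exact (DFunLike.congr_fun f.2.1 g).trans (DFunLike.congr_fun f0.2.1 g).symm
    have : Finite π.range := Finite.of_surjective _ π.rangeRestrict_surjective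
    have hG : ∀ f, π.rangeRestrict.comp (Φ.invFun Q (F f)) =
        π.rangeRestrict.comp (Φ.invFun Q (F f0)) := by
      intro f
      rw [← Φ.left_inv π.range (π.rangeRestrict.comp (Φ.invFun Q (F f))),
        ← Φ.left_inv π.range (π.rangeRestrict.comp (Φ.invFun Q (F f0))), Φ.nat, Φ.nat,
        Φ.right_inv, Φ.right_inv, hcomp f]
    have hmem : ∀ f x, Φ.invFun Q (F f) x * (Φ.invFun Q (F f0) x)⁻¹ ∈ π.ker := by
      intro f x
      have h := congrArg Subtype.val (DFunLike.congr_fun (hG f) x)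
      rw [MonoidHom.mem_ker, map_mul, map_inv]
      have h' : π (Φ.invFun Q (F f) x) = π (Φ.invFun Q (F f0) x) := h
      rw [h', mul_inv_cancel]
    have hcard := Nat.card_le_card_of_injective
      (fun f : {f : Ext m δ →* Q // π.comp f = θ ∧ f (cc m δ) = 1} =>
        ((⟨_, hmem f (Monoid.Coprod.inl (Multiplicative.ofAdd 1))⟩,
          ⟨_, hmem f (Monoid.Coprod.inr (Multiplicative.ofAdd 1))⟩) : π.ker × π.ker)) ?_
    · rwa [Nat.card_prod, ← pow_two] at hcard
    · intro f f' hff
      have h1 := congrArg (fun z : π.ker × π.ker => (z.1 : Q)) hff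
      have h2 := congrArg (fun z : π.ker × π.ker => (z.2 : Q)) hff
      have h1' := mul_right_cancel h1
      have h2' := mul_right_cancel h2
      have hGG : Φ.invFun Q (F f) = Φ.invFun Q (F f') := cnt_ext m _ _ h1' h2'
      have hFF : F f = F f' := by
        rw [← Φ.right_inv Q (F f), ← Φ.right_inv Q (F f'), hGG]
      apply Subtype.ext
      refine MonoidHom.ext fun g => ?_
      rw [← hF f g, ← hF f' g, hFF]

end Pool.Agent.CZA
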