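import Pool.Agent.Lib.MP_305fdd_al.CZ.A.StmK

/-!
# MP_305fdd_al, `C_m * Z`, part A: [CK irr], the pseudo-character is irreducible
-/

set_option autoImplicit false

namespace Pool.Agent.CZA

open MvPolynomial Pool.Agent.Lib.MP_305fdd_al Pool.Agent.MP_305fdd_al Pool.Agent.CZ
open Pool.Agent.F2 (PC)
open scoped commutatorElement

noncomputable section

section pc

variable {G D : Type} [Group G] [CommRing D] {T : G → D}

private theorem irr_inv (hT : PC T) (g : G) : T g⁻¹ = T g := by
  have h := hT.rel 1 g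
  rw [one_mul, one_mul, hT.one] at h
  linear_combination h

private theorem irr_fricke (hT : PC T) (g h : G) : T (g * h * g⁻¹ * h⁻¹) =
    T g ^ 2 + T h ^ 2 + T (g * h) ^ 2 - T g * T h * T (g * h) - 2 := by
  have h1 := hT.rel (g * h * g⁻¹) h
  have h2 : T (g * h * g⁻¹) = T h := by
    rw [hT.comm, ← mul_assoc, inv_mul_cancel, one_mul]
  have h3 := hT.rel (g * h) (g⁻¹ * h)
  have h4 : T (g * h * (g⁻¹ * h)⁻¹) = T (g * g) := by
    congr 1
    group
  have h5 := hT.rel g g
  have h6 : T (g * g⁻¹) = 2 := by rw [mul_inv_cancel, hT.one]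
  have h7 := hT.rel h g
  have h8 : T (h * g⁻¹) = T (g⁻¹ * h) := hT.comm _ _
  have h9 : T (h * g) = T (g * h) := hT.comm _ _
  have h10 : T (g * h * (g⁻¹ * h)) = T (g * h * g⁻¹ * h) := by
    congr 1
    group
  rw [h2] at h1
  rw [h4, h10] at h3
  rw [h6] at h5
  rw [h8, h9] at h7
  -- `h1 : T (ghg⁻¹h) + T (ghg⁻¹h⁻¹) = T h * T h`
  linear_combination h1 - h3 - T (g * h) * h7 + h5

private theorem irr_comm (hT : PC T) (hD : IsDomain D)
    (h2 : ∀ g h, T (g * h * g⁻¹ * h⁻¹) = 2) (c : G) (hc : c ∈ commutator G) (u : G) :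
    T (u * c) = T u := by
  let H : Subgroup G :=
    { carrier := {c | ∀ u, T (u * c) = T u}
      one_mem' := by intro u; rw [mul_one]
      mul_mem' := by
        intro a b ha hb u
        rw [← mul_assoc, hb, ha]
      inv_mem' := by
        intro a ha u
        have h := ha (u * a⁻¹)
        rw [inv_mul_cancel_right] at h
        exact h.symm }
  have hH : commutator G ≤ H := by
    rw [commutator_def, Subgroup.commutator_le]
    intro g _ h _ u
    have h3 := irr_fricke hT u ⁅g, h⁆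
    rw [h2] at h3
    have h4 : T ⁅g, h⁆ = 2 := by
      rw [commutatorElement_def]
      exact h2 g h
    rw [h4] at h3
    have h5 : (T u - T (u * ⁅g, h⁆)) ^ 2 = 0 := by linear_combination -h3
    have h6 := pow_eq_zero_iff (two_ne_zero) |>.1 h5
    exact (sub_eq_zero.1 h6).symm
  exact hH hc u

end pc

/-- an integral element of a domain over an algebraically closed field is a scalar -/
private theorem irr_scal {k D : Type} [Field k] [IsAlgClosed k] [CommRing D] [IsDomain D]
    [Algebra k D] (w : D) (hw : IsIntegral k w) : ∃ r : k, w = algebraMap k D r := by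
  obtain ⟨P, hP, hPw⟩ := hw
  have h1 := (IsAlgClosed.splits P).eq_prod_roots_of_monic hP
  rw [h1, Polynomial.eval₂_multiset_prod, Multiset.map_map] at hPw
  rw [Multiset.prod_eq_zero_iff, Multiset.mem_map] at hPw
  obtain ⟨r, _, hr⟩ := hPw
  refine ⟨r, ?_⟩
  simp only [Function.comp_apply, Polynomial.eval₂_sub, Polynomial.eval₂_X,
    Polynomial.eval₂_C] at hr
  exact sub_eq_zero.1 hr

private theorem irr_int {k D : Type} [Field k] [CommRing D] [IsDomain D]
    [Algebra k D] (f : ℕ → D) (N : ℕ) (hN : 1 ≤ N) (hf : ∀ j, f (j + N) = f j) (h0 : f 0 ≠ 0)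
    (w : D) (hw : ∀ j, w * f (j + 1) = f (j + 2) + f j) : IsIntegral k w := by
  let M : Submodule k D := Submodule.span k (Set.range f)
  have hfm : ∀ j, f j = f (j % N) := by
    intro j
    have h : ∀ q r, f (r + N * q) = f r := by
      intro q
      induction q with
      | zero => intro r; simp
      | succ q ih => intro r; rw [Nat.mul_succ, ← add_assoc, hf, ih]
    conv_lhs => rw [← Nat.mod_add_div j N]
    exact h _ _
  have hfin : (Set.range f).Finite := by
    classical
    refine Set.Finite.subset ((Finset.range N).image f).finite_toSet ?_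
    rintro _ ⟨j, rfl⟩
    rw [Finset.coe_image]
    exact ⟨j % N, by simpa using Nat.mod_lt _ hN, (hfm j).symm⟩
  refine isIntegral_of_smul_mem_submodule M ?_ (Submodule.fg_span hfin) w ?_
  · intro h
    have h1 : f 0 ∈ M := Submodule.subset_span ⟨0, rfl⟩
    rw [h, Submodule.mem_bot] at h1
    exact h0 h1
  · intro x hx
    refine Submodule.span_induction (p := fun x _ => w • x ∈ M) ?_ ?_ ?_ ?_ hx
    · rintro _ ⟨j, rfl⟩
      have h1 : f j = f ((j + N - 1) + 1) := by
        rw [Nat.sub_add_cancel (by omega), hf]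
      rw [smul_eq_mul, h1, hw]
      exact M.add_mem (Submodule.subset_span ⟨_, rfl⟩) (Submodule.subset_span ⟨_, rfl⟩)
    · rw [smul_zero]; exact M.zero_mem
    · intro x y _ _ hx hy
      rw [smul_add]; exact M.add_mem hx hy
    · intro a x _ hx
      rw [smul_comm]; exact M.smul_mem a hx

private theorem irr_alg {G k D : Type} [Group G] [Field k] [CommRing D] [Algebra k D] {T : G → D}
    (hT : PC T) (S : Subalgebra k D) (γ σ : G) (hw : T γ ∈ S) (hX : T σ ∈ S)
    (hY : T (γ * σ) ∈ S) (a : ℕ) (i : ℤ) : T (γ ^ a * σ ^ i) ∈ S := by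
  have h2 : (2 : D) ∈ S := by
    have : (2 : D) = 1 + 1 := by norm_num
    rw [this]; exact S.add_mem S.one_mem S.one_mem
  have hA : ∀ (i : ℤ), T (σ ^ i) ∈ S → T (γ * σ ^ i) ∈ S → ∀ a : ℕ,
      T (γ ^ a * σ ^ i) ∈ S ∧ T (γ ^ (a + 1) * σ ^ i) ∈ S := by
    intro i h0 h1 a
    induction a with
    | zero => rw [pow_zero, one_mul, zero_add, pow_one]; exact ⟨h0, h1⟩
    | succ a ih =>
      refine ⟨ih.2, ?_⟩
      have h3 := hT.rel (γ ^ (a + 1) * σ ^ i) γ
      have h4 : T (γ ^ (a + 1) * σ ^ i * γ) = T (γ ^ (a + 1 + 1) * σ ^ i) := by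
        rw [hT.comm, ← mul_assoc, ← pow_succ']
      have h5 : T (γ ^ (a + 1) * σ ^ i * γ⁻¹) = T (γ ^ a * σ ^ i) := by
        rw [hT.comm, ← mul_assoc, pow_succ', ← mul_assoc, inv_mul_cancel, one_mul]
      rw [h4, h5] at h3
      rw [eq_sub_of_add_eq h3]
      exact S.sub_mem (S.mul_mem ih.2 hw) ih.1
  have h0 : T (γ ^ a * σ ^ (0 : ℤ)) ∈ S := by
    refine (hA 0 ?_ ?_ a).1
    · rw [zpow_zero, hT.one]; exact h2
    · rw [zpow_zero, mul_one]; exact hw
  have h1 : T (γ ^ a * σ ^ (1 : ℤ)) ∈ S := by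
    refine (hA 1 ?_ ?_ a).1
    · rw [zpow_one]; exact hX
    · rw [zpow_one]; exact hY
  have hrec : ∀ i : ℤ, T (γ ^ a * σ ^ (i + 1)) + T (γ ^ a * σ ^ (i - 1)) =
      T (γ ^ a * σ ^ i) * T σ := by
    intro i
    have h3 := hT.rel (γ ^ a * σ ^ i) σ
    rw [mul_assoc, mul_assoc, ← zpow_add_one, ← zpow_sub_one] at h3
    exact h3
  have hB : T (γ ^ a * σ ^ i) ∈ S ∧ T (γ ^ a * σ ^ (i + 1)) ∈ S := by
    induction i using Int.induction_on with
    | zero => exact ⟨h0, by rw [zero_add]; exact h1⟩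
    | succ i ih =>
      refine ⟨ih.2, ?_⟩
      have h3 := hrec ((i : ℤ) + 1)
      rw [add_sub_cancel_right] at h3
      rw [eq_sub_of_add_eq h3]
      exact S.sub_mem (S.mul_mem ih.2 hX) ih.1
    | pred i ih =>
      have h3 := hrec (-(i : ℤ))
      refine ⟨?_, by rw [sub_add_cancel]; exact ih.1⟩
      rw [eq_sub_of_add_eq' h3]
      exact S.sub_mem (S.mul_mem ih.1 hX) ih.2
  exact hB.1

/-- [CK irr] the pseudo-character is irreducible. -/
theorem p_irr (hex : S_ex) (_hrec : S_rec) : S_irr := by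
  intro p m _ _ k _ _ _ ζ Λ _ δ n D _ _ T φ res g j hd
  by_contra hcon
  push Not at hcon
  have hT := hd.pc
  have hD := hd.bd.dom
  obtain ⟨-, -, -, -, -, -, -, -, hcl⟩ := hex m Λ δ
  obtain ⟨hcomm, hex2⟩ := hcl n hd.cls
  have hm := hd.hm
  have hTc := irr_comm hT hD hcon
  -- equal classes give equal traces
  have hTe : ∀ x y : Ext m δ, e2 m δ x = e2 m δ y → n (e1 m δ x) = n (e1 m δ y) → T x = T y := by
    intro x y h1 h2
    have h3 : y⁻¹ * x ∈ commutator (Ext m δ) := by
      apply hcomm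
      · rw [map_mul, map_inv, h1, inv_mul_cancel]
      · rw [map_mul, map_inv, map_mul, map_inv, h2, inv_mul_cancel]
    have h4 := hTc _ h3 y
    rwa [mul_inv_cancel_left] at h4
  obtain ⟨γ, hγ2, hγn⟩ := hex2 1 0
  obtain ⟨σ, hσ2, hσn⟩ := hex2 0 1
  rw [Nat.cast_zero] at hσ2
  have hσ2' : e2 m δ σ = 1 := hσ2
  have hγn' : n (e1 m δ γ) = 1 := hγn
  -- the values of `ev`
  have : Fact (1 < 2 * m) := ⟨by omega⟩
  have hevγ : ev m δ γ = 1 := by
    unfold ev
    rw [hγ2, toAdd_ofAdd, Nat.cast_one, ZMod.val_one]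
  have hevσ : ev m δ σ = 0 := by
    unfold ev
    rw [hσ2', toAdd_one, ZMod.val_zero]
  have hevγσ : ev m δ (γ * σ) = 1 := by
    unfold ev
    rw [map_mul, hσ2', mul_one, hγ2, toAdd_ofAdd, Nat.cast_one, ZMod.val_one]
  -- restrictions
  have hresγ : res (T γ) = AddMonoidAlgebra.single 0 ((ζ⁻¹ : kˣ) + (ζ : kˣ) : k) := by
    rw [hd.res_T, hevγ, hγn', toAdd_one, pow_one]
    unfold rr
    rw [neg_zero, ← AddMonoidAlgebra.single_add]
  have hresσ : res (T σ) = AddMonoidAlgebra.single 1 1 + AddMonoidAlgebra.single (-1) 1 := by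
    rw [hd.res_T, hevσ, hσn, toAdd_ofAdd, pow_zero]
    unfold rr
    rw [inv_one, Units.val_one]
  have hresγσ : res (T (γ * σ)) = AddMonoidAlgebra.single 1 ((ζ⁻¹ : kˣ) : k) +
      AddMonoidAlgebra.single (-1) (ζ : k) := by
    rw [hd.res_T, hevγσ, map_mul, map_mul, hγn', one_mul, hσn, toAdd_ofAdd, pow_one]
    rfl
  have hp2 : (2 : k) ≠ 0 := by
    intro h
    have h1 : ((2 : ℕ) : k) = 0 := by exact_mod_cast h
    rw [CharP.cast_eq_zero_iff k p] at h1
    have hp := (Fact.out : p.Prime)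
    have h2 := (Nat.dvd_prime Nat.prime_two).1 h1
    rcases h2 with h2 | h2
    · exact hp.one_lt.ne' h2
    · exact hd.bd.odd h2
  have hD2 : (2 : D) ≠ 0 := by
    intro h
    have h1 : algebraMap k D 2 = 0 := by rw [map_ofNat]; exact h
    rw [map_eq_zero] at h1
    exact hp2 h1
  -- `w = T γ` is a scalar
  have hperiod : ∀ j, T (γ ^ (j + 2 * m)) = T (γ ^ j) := by
    intro j
    have hc : e2 m δ γ ^ (2 * m) = 1 := by
      rw [hγ2, ← ofAdd_nsmul]
      have : (2 * m) • ((1 : ℕ) : ZMod (2 * m)) = 0 := by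
        rw [nsmul_eq_mul, Nat.cast_one, mul_one, CharP.cast_eq_zero]
      rw [this]; rfl
    apply hTe
    · rw [map_pow, map_pow, pow_add, hc, mul_one]
    · rw [map_pow, map_pow, map_pow, map_pow, hγn', one_pow, one_pow]
  have hint : IsIntegral k (T γ) := by
    refine irr_int (fun j => T (γ ^ j)) (2 * m) (by omega) hperiod ?_ (T γ) ?_
    · show T (γ ^ 0) ≠ 0
      rw [pow_zero, hT.one]
      exact hD2
    · intro i
      have h := hT.rel (γ ^ (i + 1)) γ
      have h1 : γ ^ (i + 1) * γ⁻¹ = γ ^ i := by rw [pow_succ, mul_inv_cancel_right]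
      rw [← pow_succ, h1] at h
      show T γ * T (γ ^ (i + 1)) = T (γ ^ (i + 2)) + T (γ ^ i)
      rw [mul_comm, ← h]
  obtain ⟨r, hr⟩ := irr_scal (T γ) hint
  have hr' : r = ((ζ⁻¹ : kˣ) : k) + (ζ : k) := by
    have h1 : res (T γ) = AddMonoidAlgebra.single 0 r := by
      rw [hr, AlgHom.commutes]
      rfl
    rw [hresγ] at h1
    exact (AddMonoidAlgebra.single_right_inj.1 h1).symm
  have hzi : ((ζ⁻¹ : kˣ) : k) * (ζ : k) = 1 := ζ.inv_mul
  have hzz : (ζ : k) - ((ζ⁻¹ : kˣ) : k) ≠ 0 := by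
    intro h
    have h1 : (ζ : k) = ((ζ⁻¹ : kˣ) : k) := sub_eq_zero.1 h
    have h2 : ζ = ζ⁻¹ := Units.ext h1
    have h3 : ζ ^ 2 = 1 := by
      rw [pow_two]
      nth_rw 2 [h2]
      exact mul_inv_cancel ζ
    have h4 := orderOf_dvd_of_pow_eq_one h3
    rw [hd.hζ] at h4
    have := Nat.le_of_dvd (by norm_num) h4
    omega
  -- everything is in the algebra generated by `X`, `Y`
  let S : Subalgebra k D := Algebra.adjoin k {T σ, T (γ * σ)}
  have hXS : T σ ∈ S := Algebra.subset_adjoin (by simp)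
  have hYS : T (γ * σ) ∈ S := Algebra.subset_adjoin (by simp)
  have hwS : T γ ∈ S := by rw [hr]; exact S.algebraMap_mem r
  have hTS : ∀ x : Ext m δ, T x ∈ S := by
    intro x
    have h1 : T x = T (γ ^ (ev m δ x) * σ ^ (Multiplicative.toAdd (n (e1 m δ x)))) := by
      apply hTe
      · rw [map_mul, map_pow, map_zpow, hσ2', one_zpow, mul_one, hγ2, ← ofAdd_nsmul]
        have : (ev m δ x) • ((1 : ℕ) : ZMod (2 * m)) = Multiplicative.toAdd (e2 m δ x) := by
          rw [nsmul_eq_mul, Nat.cast_one, mul_one]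
          exact ZMod.natCast_zmod_val _
        rw [this]; rfl
      · rw [map_mul, map_mul, map_pow, map_pow, map_zpow, map_zpow, hγn', one_pow, one_mul, hσn,
          ← ofAdd_zsmul, smul_eq_mul, mul_one]
        rfl
    rw [h1]
    exact irr_alg hT S γ σ hwS hXS hYS _ _
  have hStop : S = ⊤ := by
    rw [eq_top_iff, ← hd.gen, Algebra.adjoin_le_iff]
    rintro _ ⟨x, rfl⟩
    exact hTS x
  -- the elements `U`, `V`
  set X := T σ with hXdef
  set Y := T (γ * σ) with hYdef
  let z : D := algebraMap k D (ζ : k)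
  let z' : D := algebraMap k D ((ζ⁻¹ : kˣ) : k)
  have hz1 : z' * z = 1 := by
    show algebraMap k D _ * algebraMap k D _ = 1
    rw [← map_mul, hzi, map_one]
  have hw : T γ = z' + z := by rw [hr, hr', map_add]
  let e : D := algebraMap k D ((ζ : k) - ((ζ⁻¹ : kˣ) : k))⁻¹
  have he : (z - z') * e = 1 := by
    show (algebraMap k D _ - algebraMap k D _) * algebraMap k D _ = 1
    rw [← map_sub, ← map_mul, mul_inv_cancel₀ hzz, map_one]
  have hUV : (Y - z * X) * (Y - z' * X) = -(z - z') ^ 2 := by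
    have h1 := irr_fricke hT γ σ
    rw [hcon] at h1
    have h2 : T (γ * σ) = Y := rfl
    have h3 : T σ = X := rfl
    rw [h2, h3, hw] at h1
    linear_combination -h1 + (X ^ 2 - 4) * hz1
  let u : Dˣ := ⟨-(e * (Y - z * X)), e * (Y - z' * X), by
      linear_combination -e ^ 2 * hUV + (1 + (z - z') * e) * he, by
      linear_combination -e ^ 2 * hUV + (1 + (z - z') * e) * he⟩
  let ψ : Ls k →ₐ[k] D :=
    AddMonoidAlgebra.lift k D ℤ ((Units.coeHom D).comp (zpowersHom Dˣ u))
  have hψ : ∀ (i : ℤ) (c : k), ψ (AddMonoidAlgebra.single i c) = c • ((u ^ i : Dˣ) : D) := by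
    intro i c
    show AddMonoidAlgebra.lift k D ℤ _ _ = _
    rw [AddMonoidAlgebra.lift_single]
    rfl
  have hu1 : ψ (AddMonoidAlgebra.single 1 1) = -(e * (Y - z * X)) := by
    rw [hψ, one_smul, zpow_one]
  have hu2 : ψ (AddMonoidAlgebra.single (-1) 1) = e * (Y - z' * X) := by
    rw [hψ, one_smul, zpow_neg_one]
    rfl
  -- `ψ` is onto
  have hψsurj : Function.Surjective ψ := by
    have h1 : S ≤ ψ.range := by
      have hU : -(e * (Y - z * X)) ∈ ψ.range := ⟨_, hu1⟩
      have hV : e * (Y - z' * X) ∈ ψ.range := ⟨_, hu2⟩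
      have hz : ∀ c : k, algebraMap k D c ∈ ψ.range := fun c => ψ.range.algebraMap_mem c
      have hX : X ∈ ψ.range := by
        have h3 : X = -(e * (Y - z * X)) + e * (Y - z' * X) := by
          linear_combination -X * he
        rw [h3]
        exact ψ.range.add_mem hU hV
      have hY : Y ∈ ψ.range := by
        have h3 : Y = -(z - z') * -(e * (Y - z * X)) + z * X := by
          linear_combination -(Y - z * X) * he
        rw [h3]
        exact ψ.range.add_mem (ψ.range.mul_mem (ψ.range.neg_mem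
          (ψ.range.sub_mem (hz _) (hz _))) hU) (ψ.range.mul_mem (hz _) hX)
      show Algebra.adjoin k {X, Y} ≤ ψ.range
      rw [Algebra.adjoin_le_iff]
      intro x hx
      rcases hx with rfl | hx
      · exact hX
      · rw [Set.mem_singleton_iff] at hx
        rw [hx]
        exact hY
    rw [hStop] at h1
    intro d
    exact h1 (Algebra.mem_top : d ∈ (⊤ : Subalgebra k D))
  -- `res ∘ ψ` is the identity
  have hid : res.comp ψ = AlgHom.id k (Ls k) := by
    apply (AddMonoidAlgebra.lift k (Ls k) ℤ).symm.injective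
    apply MonoidHom.ext_mint
    show res (ψ (AddMonoidAlgebra.single 1 1)) = AddMonoidAlgebra.single 1 1
    rw [hu1, map_neg, map_mul, map_sub, map_mul, hresσ, hresγσ]
    have e1 : res e = AddMonoidAlgebra.single 0 ((ζ : k) - ((ζ⁻¹ : kˣ) : k))⁻¹ := by
      show res (algebraMap k D _) = _
      rw [AlgHom.commutes]; rfl
    have e2 : res z = AddMonoidAlgebra.single 0 (ζ : k) := by
      show res (algebraMap k D _) = _
      rw [AlgHom.commutes]; rfl
    rw [e1, e2, mul_add, AddMonoidAlgebra.single_mul_single, AddMonoidAlgebra.single_mul_single,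
      zero_add, zero_add, mul_one]
    have e3 : (AddMonoidAlgebra.single 1 ((ζ⁻¹ : kˣ) : k) + AddMonoidAlgebra.single (-1) (ζ : k) -
        (AddMonoidAlgebra.single 1 (ζ : k) + AddMonoidAlgebra.single (-1) (ζ : k)) : Ls k) =
        -AddMonoidAlgebra.single 1 ((ζ : k) - ((ζ⁻¹ : kˣ) : k)) := by
      rw [AddMonoidAlgebra.single_sub]
      abel
    rw [e3, mul_neg, neg_neg, AddMonoidAlgebra.single_mul_single, zero_add,
      inv_mul_cancel₀ hzz]
  -- the contradiction
  have hinj : ∀ d : D, res d = 0 → d = 0 := by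
    intro d hd0
    obtain ⟨f, rfl⟩ := hψsurj d
    have h1 : res (ψ f) = f := DFunLike.congr_fun hid f
    rw [hd0] at h1
    rw [← h1, map_zero]
  apply hd.bd.kne
  apply hinj
  rw [hd.bd.res_φ]
  unfold resA
  rw [aeval_X]
  rfl

end

end Pool.Agent.CZA
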