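import Pool.Agent.Lib.MP_305fdd_al.CZ.A.StmL

/-!
# MP_305fdd_al, `C_m * Z`, part A: [CL cn], counting with nilpotent elements
-/

set_option autoImplicit false

namespace Pool.Agent.CZA

private theorem cn_fin {B : Type} [CommRing B] {I J : Ideal B} (h : I ≤ J) (hI : Finite (B ⧸ I)) :
    Finite (B ⧸ J) :=
  Finite.of_surjective (Ideal.Quotient.factor h) (Ideal.Quotient.factor_surjective h)

private theorem cn_le {B : Type} [CommRing B] {I J : Ideal B} (h : I ≤ J) (hI : Finite (B ⧸ I)) :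
    Nat.card (B ⧸ J) ≤ Nat.card (B ⧸ I) :=
  Nat.card_le_card_of_surjective (Ideal.Quotient.factor h) (Ideal.Quotient.factor_surjective h)

private theorem cn_two {B : Type} [CommRing B] (𝔞 : Ideal B) (h𝔞 : Finite (B ⧸ 𝔞)) (b : B)
    (𝔟 : Ideal B) (h𝔟 : Finite (B ⧸ 𝔟)) (hb : ∀ c ∈ 𝔟, b * c ∈ 𝔞) :
    Nat.card (B ⧸ 𝔞) ≤ Nat.card (B ⧸ (Ideal.span {b} ⊔ 𝔞)) * Nat.card (B ⧸ 𝔟) := by
  classical
  let φ : B →+ B ⧸ 𝔞 := (Ideal.Quotient.mk 𝔞).toAddMonoidHom.comp (AddMonoidHom.mulLeft b)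
  have hφ : ∀ c, φ c = Ideal.Quotient.mk 𝔞 (b * c) := fun c => rfl
  have hfI : Finite (B ⧸ (Ideal.span {b} ⊔ 𝔞)) := cn_fin le_sup_right h𝔞
  rw [AddSubgroup.card_eq_card_quotient_mul_card_addSubgroup φ.range]
  apply Nat.mul_le_mul
  · -- the quotient
    let o : B ⧸ (Ideal.span {b} ⊔ 𝔞) → B := Function.surjInv Ideal.Quotient.mk_surjective
    have ho : ∀ x, Ideal.Quotient.mk (Ideal.span {b} ⊔ 𝔞) (o x) = x :=
      Function.surjInv_eq Ideal.Quotient.mk_surjective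
    refine Nat.card_le_card_of_surjective
      (fun x => (QuotientAddGroup.mk (Ideal.Quotient.mk 𝔞 (o x)) : (B ⧸ 𝔞) ⧸ φ.range)) ?_
    intro y
    obtain ⟨a, rfl⟩ := QuotientAddGroup.mk_surjective y
    obtain ⟨c, rfl⟩ := Ideal.Quotient.mk_surjective a
    refine ⟨Ideal.Quotient.mk _ c, ?_⟩
    show (QuotientAddGroup.mk (Ideal.Quotient.mk 𝔞 (o (Ideal.Quotient.mk _ c))) :
      (B ⧸ 𝔞) ⧸ φ.range) = QuotientAddGroup.mk (Ideal.Quotient.mk 𝔞 c)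
    rw [QuotientAddGroup.eq]
    have h1 := ho (Ideal.Quotient.mk _ c)
    rw [Ideal.Quotient.eq, Submodule.mem_sup] at h1
    obtain ⟨s, hs, t, ht, hst⟩ := h1
    obtain ⟨r, rfl⟩ := Ideal.mem_span_singleton.1 hs
    refine ⟨-r, ?_⟩
    rw [hφ, ← map_neg, ← map_add, Ideal.Quotient.eq]
    have h2 : b * -r - (-o (Ideal.Quotient.mk _ c) + c) = t := by
      linear_combination (-1 : B) * hst
    rw [h2]
    exact ht
  · -- the subgroup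
    let o : B ⧸ 𝔟 → B := Function.surjInv Ideal.Quotient.mk_surjective
    have ho : ∀ x, Ideal.Quotient.mk 𝔟 (o x) = x :=
      Function.surjInv_eq Ideal.Quotient.mk_surjective
    refine Nat.card_le_card_of_surjective (fun x => (⟨φ (o x), o x, rfl⟩ : φ.range)) ?_
    rintro ⟨_, c, rfl⟩
    refine ⟨Ideal.Quotient.mk _ c, ?_⟩
    apply Subtype.ext
    show φ (o (Ideal.Quotient.mk 𝔟 c)) = φ c
    have h1 := ho (Ideal.Quotient.mk _ c)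
    rw [Ideal.Quotient.eq] at h1
    rw [hφ, hφ, Ideal.Quotient.eq, ← mul_sub]
    exact hb _ h1

private theorem cn_one {B : Type} [CommRing B] (z : B) (n : ℕ) : ∀ 𝔞 : Ideal B,
    Finite (B ⧸ 𝔞) → z ^ n ∈ 𝔞 →
    Nat.card (B ⧸ 𝔞) ≤ Nat.card (B ⧸ (Ideal.span {z} ⊔ 𝔞)) ^ n := by
  induction n with
  | zero =>
    intro 𝔞 h𝔞 hz
    rw [pow_zero] at hz
    have h : 𝔞 = ⊤ := (Ideal.eq_top_iff_one 𝔞).2 hz
    subst h
    rw [pow_zero]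
    have : Subsingleton (B ⧸ (⊤ : Ideal B)) := Ideal.Quotient.subsingleton_iff.2 rfl
    exact Finite.card_le_one_iff_subsingleton.2 this
  | succ n ih =>
    intro 𝔞 h𝔞 hz
    let 𝔟 : Ideal B := Submodule.comap (LinearMap.mulLeft B z) 𝔞
    have hb : ∀ c, c ∈ 𝔟 ↔ z * c ∈ 𝔞 := fun c => Iff.rfl
    have hab : 𝔞 ≤ 𝔟 := fun c hc => (hb c).2 (𝔞.mul_mem_left z hc)
    have hfb := cn_fin hab h𝔞
    have h1 := cn_two 𝔞 h𝔞 z 𝔟 hfb (fun c hc => (hb c).1 hc)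
    have h2 := ih 𝔟 hfb ((hb _).2 (by rw [← pow_succ']; exact hz))
    have h3 : Nat.card (B ⧸ (Ideal.span {z} ⊔ 𝔟)) ≤ Nat.card (B ⧸ (Ideal.span {z} ⊔ 𝔞)) :=
      cn_le (sup_le_sup_left hab _) (cn_fin le_sup_right h𝔞)
    calc Nat.card (B ⧸ 𝔞)
        ≤ Nat.card (B ⧸ (Ideal.span {z} ⊔ 𝔞)) * Nat.card (B ⧸ 𝔟) := h1
      _ ≤ Nat.card (B ⧸ (Ideal.span {z} ⊔ 𝔞)) * Nat.card (B ⧸ (Ideal.span {z} ⊔ 𝔞)) ^ n :=
          Nat.mul_le_mul_left _ (h2.trans (Nat.pow_le_pow_left h3 n))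
      _ = _ := by rw [pow_succ']

/-- [CL cn] counting with nilpotent elements. -/
theorem p_cn : S_cn := by
  intro B _ 𝔞 h𝔞
  exact ⟨fun z n hz => cn_one z n 𝔞 h𝔞 hz, fun b 𝔟 h𝔟 hb => cn_two 𝔞 h𝔞 b 𝔟 h𝔟 hb⟩

end Pool.Agent.CZA
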