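import Pool.Agent.Lib.MP_305fdd_al.CZ.A.StmL
import Pool.Agent.Lib.MP_305fdd_al.Genus
import Pool.Agent.Lib.MP_305fdd_al.NatBij

/-!
# MP_305fdd_al (`C_m * Z`): piece [CL cor], existence of the data `CorX`
-/

set_option autoImplicit false

namespace Pool.Agent.CZA

open MvPolynomial Pool.Agent.Lib.MP_305fdd_al Pool.Agent.MP_305fdd_al Pool.Agent.CZ
open Pool.Agent.F2 (PC Corr Fr gx gy rt)
open Pool.Agent.F2TF (Pol fpow)
open Pool.Agent.CC (IsTR)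

private theorem cor_fg (m : ℕ) [NeZero m] : Group.FG (Gam m) := by
  haveI : Finite (Multiplicative (ZMod m)) := inferInstance
  haveI : Group.FG (Multiplicative (ZMod m)) := inferInstance
  haveI : Group.FG (Multiplicative ℤ) := inferInstance
  exact fg_coprod

theorem p_cor (hcls : S_cls) (hnb : S_nb) (hex : S_ex) (hwj : S_wj) (hagt : S_agt) (haga : S_aga)
    (hagu : S_agu) (hum : S_um) (hevg : S_evg) (hze : S_ze) : S_cor := by
  intro p m _ _ hp hm hpm k _ _ ζ hζ Λ _ _ hs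
  have hm0 : 0 < m := by omega
  haveI hGfg : Group.FG (Gam m) := cor_fg m
  haveI : NeZero (2 * m) := ⟨by omega⟩
  obtain ⟨Φ⟩ := exists_natBij hs.symm
  obtain ⟨n, hcl, hcy⟩ := hcls m hm Λ Φ
  set δ := Φ.toFun (Multiplicative (ZMod m)) (dG m) with hδ
  obtain ⟨-, -, -, -, -, -, hsq, hG1, -⟩ := hex m (Gam m) (dG m)
  obtain ⟨-, -, -, -, -, -, -, hL1, -⟩ := hex m Λ δ
  haveI : Group.FG (Ext m (dG m)) := hG1 inferInstance
  haveI : Group.FG (Ext m δ) := hL1 inferInstance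
  obtain ⟨Ψ, hp1, hp2, hp3⟩ := hnb (Gam m) Λ (Multiplicative (ZMod m))
    (Multiplicative (ZMod (2 * m))) Φ (dG m) δ (sq m) rfl hsq
  obtain ⟨x, hx, hxk⟩ := hwj p m hm hp hpm k ζ hζ
  obtain ⟨TA, hTA⟩ := hagt p m x hp hm hx
  have hpm' : ¬ p ∣ m := (hze.2 m p hm0 hpm).1
  have upA : UP (ZMod p) (Ext m (dG m)) (cc m (dG m)) (AG p m) TA :=
    ⟨hTA.pc, hTA.tc, haga p m x hp hm hx TA hTA, hagu p m x hp hm hpm' hx TA hTA⟩
  have hsm : sq m (Multiplicative.ofAdd (m : ZMod (2 * m))) = 1 := by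
    rw [sq_nat, ZMod.natCast_self]
    rfl
  obtain ⟨B, iB, jB, TB, upB, hft⟩ := hum (ZMod p) (Ext m δ) (cc m δ)
  obtain ⟨evv, htr, hcorr⟩ := hevg p (Ext m (dG m)) (Ext m δ) Ψ (cc m (dG m)) (cc m δ)
    (fun Q _ _ θ => hp3 Q θ (Multiplicative.ofAdd (m : ZMod (2 * m))) hsm) (AG p m) B TA TB upA upB hft
  exact ⟨x, δ, n, B, iB, jB, TB, TA, evv, Φ, Ψ,
    ⟨hp, hm, hpm, hx, hcl, hcy, hTA, upA, upB, htr, hp1, hp2, hcorr⟩, hxk⟩

end Pool.Agent.CZA
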