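import Pool.Agent.Lib.MP_305fdd_al.CZ.A.Defs
import Pool.Agent.Lib.MP_305fdd_al.F2.TF.Main

/-!
# MP_305fdd_al (`C_m * Z`), part A: Theorem A of `F_2` from counting data (`CD`)

Adapted from `F2/TF/P/{a5,a7,a8,c5,c6,d4}.lean`.
-/

set_option autoImplicit false

namespace Pool.Agent.CZA

open MvPolynomial Matrix
open Pool.Agent.F2TF

theorem cd_dim (p m rr : ℕ) [hpp : Fact p.Prime] (B : Type) [CommRing B] [Algebra (ZMod p) B]
    (h : CD p m rr B) (d : ℕ) (g : Pol p d →ₐ[ZMod p] B) (hinj : Function.Injective g)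
    (hfin : g.Finite) : d = m := by
  have hp := hpp.out
  let : Algebra (Pol p d) B := g.toRingHom.toAlgebra
  have hfin' : Module.Finite (Pol p d) B := hfin
  have halg : algebraMap (Pol p d) B = g.toRingHom := rfl
  obtain ⟨l, hl⟩ := F2TF.dual (Pol p d) B hinj
  obtain ⟨k, f, hf⟩ := Module.Finite.exists_fin' (Pol p d) B
  -- a maximal ideal not containing `l 1`
  have hjac : (⊥ : Ideal (Pol p d)).jacobson = ⊥ := by
    rw [← Ideal.radical_eq_jacobson]
    exact Ideal.IsPrime.radical Ideal.isPrime_bot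
  obtain ⟨N, hN, hlN⟩ : ∃ N : Ideal (Pol p d), N.IsMaximal ∧ l 1 ∉ N := by
    by_contra hcon
    push Not at hcon
    apply hl
    have : l 1 ∈ (⊥ : Ideal (Pol p d)).jacobson := by
      unfold Ideal.jacobson
      rw [Ideal.mem_sInf]
      intro J hJ
      exact hcon J hJ.2
    rwa [hjac, Ideal.mem_bot] at this
  let : Field (Pol p d ⧸ N) := Ideal.Quotient.field N
  have hNfin' : Module.Finite (ZMod p) (Pol p d ⧸ N) :=
    finite_of_finite_type_of_isJacobsonRing (ZMod p) (Pol p d ⧸ N)
  have hNfin : Finite (Pol p d ⧸ N) := Module.finite_of_finite (ZMod p)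
  have hc : 2 ≤ Nat.card (Pol p d ⧸ N) := Finite.one_lt_card
  set c := Nat.card (Pol p d ⧸ N) with hcdef
  set I : Ideal B := N.map (algebraMap (Pol p d) B) with hI
  obtain ⟨hIfin, hIk⟩ := p_dim_le_right N f hf
  set e := Nat.card (B ⧸ I) with hedef
  have hsup : ∀ n, fpow (p ^ n) N ⊔ Ideal.span {l 1} = ⊤ := by
    intro n
    by_contra hcon
    obtain ⟨M, hM, hle⟩ := Ideal.exists_le_maximal _ hcon
    have h1 : N ≤ M := by
      intro a ha
      exact hM.isPrime.mem_of_pow_mem _ (hle (Ideal.mem_sup_left (p_count_fpow_mem ha)))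
    have h2 : N = M := hN.eq_of_le hM.ne_top h1
    apply hlN
    rw [h2]
    exact hle (Ideal.mem_sup_right (Ideal.mem_span_singleton_self _))
  have key : ∀ n, c ^ (p ^ (d * n)) ≤ e ^ (p ^ (m * n)) ∧
      e ^ (p ^ (m * n)) ≤ (c ^ (p ^ (d * n))) ^ k := by
    intro n
    obtain ⟨h1, h2⟩ := p_dim_iter F2TF.compcard p d N hNfin n
    obtain ⟨h3, h4⟩ := p_dim_le_right (fpow (p ^ n) N) f hf
    obtain ⟨h5, h6⟩ := h.cnt I hIfin n
    have h7 := p_dim_le_left l (fpow (p ^ n) N) (hsup n)
    rw [hI, p_dim_map] at h6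
    rw [h6, h2] at h7
    rw [h6, h2] at h4
    exact ⟨h7, h4⟩
  have hce : c ≤ e := by
    have := (key 0).1
    simpa using this
  have hek : e ≤ c ^ k := hIk
  apply le_antisymm
  · apply p_dim_arith p k d m hp.two_le
    intro n
    have h1 : c ^ (p ^ (d * n)) ≤ c ^ (k * p ^ (m * n)) := by
      refine (key n).1.trans ?_
      rw [pow_mul c]
      exact Nat.pow_le_pow_left hek _
    exact (Nat.pow_le_pow_iff_right (by omega)).1 h1
  · apply p_dim_arith p k m d hp.two_le
    intro n
    have h1 : c ^ (p ^ (m * n)) ≤ c ^ (k * p ^ (d * n)) := by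
      refine (Nat.pow_le_pow_left hce _).trans ((key n).2.trans ?_)
      rw [← pow_mul, mul_comm]
    exact (Nat.pow_le_pow_iff_right (by omega)).1 h1

section

variable {R : Type} [CommRing R]

private theorem p_indep_fpow_one (I : Ideal R) : fpow 1 I = I := by
  unfold fpow
  simp

private theorem p_indep_mem {p : ℕ} [hp : Fact p.Prime] [Algebra (ZMod p) R] {I J : Ideal R} {n : ℕ}
    (S : Set R) (hI : I = Ideal.span S) (h : ∀ x ∈ S, x ^ p ^ n ∈ J) (x : R) (hx : x ∈ I) :
    x ^ p ^ n ∈ J := by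
  rcases subsingleton_or_nontrivial R with hR | hR
  · rw [Subsingleton.elim (x ^ p ^ n) 0]
    exact J.zero_mem
  haveI : CharP R p := charP_of_injective_algebraMap (algebraMap (ZMod p) R).injective p
  subst hI
  induction hx using Submodule.span_induction with
  | mem x hx => exact h x hx
  | zero =>
    rw [zero_pow (pow_ne_zero _ hp.out.ne_zero)]
    exact J.zero_mem
  | add x y _ _ hx hy =>
    rw [add_pow_char_pow]
    exact J.add_mem hx hy
  | smul a x _ hx =>
    rw [smul_eq_mul, mul_pow]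
    exact J.mul_mem_left _ hx

private theorem p_indep_fpow_succ (p : ℕ) [hp : Fact p.Prime] [Algebra (ZMod p) R] (I : Ideal R)
    (n : ℕ) : fpow p (fpow (p ^ n) I) = fpow (p ^ (n + 1)) I := by
  apply le_antisymm
  · refine Ideal.span_le.mpr ?_
    rintro _ ⟨x, hx, rfl⟩
    have := p_indep_mem (p := p) (n := 1) (J := fpow (p ^ (n + 1)) I) _ rfl
      (I := fpow (p ^ n) I) ?_ x hx
    · simpa using this
    · rintro _ ⟨a, ha, rfl⟩
      simp only
      rw [← pow_mul, ← pow_add]
      exact Ideal.subset_span ⟨a, ha, rfl⟩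
  · refine Ideal.span_le.mpr ?_
    rintro _ ⟨x, hx, rfl⟩
    simp only [SetLike.mem_coe]
    rw [pow_succ, pow_mul]
    exact Ideal.subset_span ⟨x ^ p ^ n, Ideal.subset_span ⟨x, hx, rfl⟩, rfl⟩

private theorem p_indep_fpow_map (p : ℕ) [hp : Fact p.Prime] {B : Type} [CommRing B]
    [Algebra (ZMod p) B] (f : R →+* B) (I : Ideal R) (n : ℕ) :
    (fpow (p ^ n) I).map f = fpow (p ^ n) (I.map f) := by
  apply le_antisymm
  · rw [Ideal.map_le_iff_le_comap]
    refine Ideal.span_le.mpr ?_
    rintro _ ⟨x, hx, rfl⟩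
    simp only [Ideal.coe_comap, Set.mem_preimage, SetLike.mem_coe, map_pow]
    exact Ideal.subset_span ⟨f x, Ideal.mem_map_of_mem f hx, rfl⟩
  · refine Ideal.span_le.mpr ?_
    rintro _ ⟨x, hx, rfl⟩
    refine p_indep_mem (p := p) (I := I.map f) (f '' I) rfl ?_ x hx
    rintro _ ⟨a, ha, rfl⟩
    rw [← map_pow]
    exact Ideal.mem_map_of_mem f (Ideal.subset_span ⟨a, ha, rfl⟩)

end

section

variable {P B : Type} [CommRing P] [CommRing B] [Algebra P B] {δ : ℕ}

/-- `c ↦ ∑ i, c i • b i` -/
private noncomputable def p_indep_L (I : Ideal P) (b : Fin δ → B) :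
    (Fin δ → P ⧸ I) →ₗ[P] B ⧸ I.map (algebraMap P B) :=
  ∑ i, (Submodule.liftQ I (LinearMap.toSpanSingleton P (B ⧸ I.map (algebraMap P B))
    (Ideal.Quotient.mk _ (b i))) (by
      intro a ha
      rw [LinearMap.mem_ker, LinearMap.toSpanSingleton_apply]
      rw [← Ideal.Quotient.mkₐ_eq_mk P, ← map_smul, Algebra.smul_def, Ideal.Quotient.mkₐ_eq_mk,
        Ideal.Quotient.eq_zero_iff_mem]
      exact Ideal.mul_mem_right _ _ (Ideal.mem_map_of_mem _ ha))).comp (LinearMap.proj i)

private theorem p_indep_L_apply (I : Ideal P) (b : Fin δ → B) (c : Fin δ → P) :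
    p_indep_L I b (fun i => Ideal.Quotient.mk I (c i)) = Ideal.Quotient.mk _ (∑ i, c i • b i) := by
  unfold p_indep_L
  rw [LinearMap.sum_apply, map_sum]
  refine Finset.sum_congr rfl fun i _ => ?_
  rw [LinearMap.comp_apply, LinearMap.proj_apply]
  change LinearMap.toSpanSingleton P (B ⧸ I.map (algebraMap P B))
    (Ideal.Quotient.mk _ (b i)) (c i) = _
  rw [LinearMap.toSpanSingleton_apply]
  rw [← Ideal.Quotient.mkₐ_eq_mk P, ← map_smul]

private theorem p_indep_L_surj (I : Ideal P) (b : Fin δ → B)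
    (h : ∀ x : B, ∃ c : Fin δ → P, x - ∑ i, c i • b i ∈ I.map (algebraMap P B)) :
    Function.Surjective (p_indep_L I b) := by
  intro y
  obtain ⟨x, rfl⟩ := Ideal.Quotient.mk_surjective y
  obtain ⟨c, hc⟩ := h x
  refine ⟨fun i => Ideal.Quotient.mk I (c i), ?_⟩
  rw [p_indep_L_apply]
  exact (Ideal.Quotient.eq.mpr hc).symm

private theorem p_indep_iff (I : Ideal P) (b : Fin δ → B) :
    (∀ x : B, ∃ c : Fin δ → P, x - ∑ i, c i • b i ∈ I.map (algebraMap P B)) ↔
      Submodule.span P (Set.range b) ⊔ I • (⊤ : Submodule P B) = ⊤ := by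
  rw [Ideal.smul_top_eq_map]
  constructor
  · intro h
    rw [eq_top_iff]
    intro x _
    obtain ⟨c, hc⟩ := h x
    rw [Submodule.mem_sup]
    refine ⟨∑ i, c i • b i, ?_, x - ∑ i, c i • b i, hc, by ring⟩
    exact Submodule.sum_mem _ fun i _ => Submodule.smul_mem _ _ (Submodule.subset_span ⟨i, rfl⟩)
  · intro h x
    have hx : x ∈ Submodule.span P (Set.range b) ⊔
      (I.map (algebraMap P B)).restrictScalars P := by rw [h]; trivial
    rw [Submodule.mem_sup] at hx
    obtain ⟨y, hy, z, hz, rfl⟩ := hx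
    obtain ⟨c, rfl⟩ := (Submodule.mem_span_range_iff_exists_fun P).mp hy
    exact ⟨c, by simpa using hz⟩

private theorem p_indep_pow (I : Ideal P) (b : Fin δ → B)
    (h : Submodule.span P (Set.range b) ⊔ I • (⊤ : Submodule P B) = ⊤) (j : ℕ) :
    Submodule.span P (Set.range b) ⊔ I ^ j • (⊤ : Submodule P B) = ⊤ := by
  induction j with
  | zero =>
    rw [pow_zero, Submodule.one_smul, sup_top_eq]
  | succ j ih =>
    rw [eq_top_iff]
    calc (⊤ : Submodule P B) = Submodule.span P (Set.range b) ⊔ I ^ j • (⊤ : Submodule P B) :=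
          ih.symm
      _ = Submodule.span P (Set.range b) ⊔
          I ^ j • (Submodule.span P (Set.range b) ⊔ I • (⊤ : Submodule P B)) := by rw [h]
      _ ≤ _ := by
        rw [Submodule.smul_sup, ← mul_smul, ← pow_succ]
        exact sup_le le_sup_left (sup_le (Submodule.smul_le_right.trans le_sup_left) le_sup_right)

end

theorem cd_indep (p m rr : ℕ) [hp : Fact p.Prime] (B : Type) [CommRing B] [Algebra (ZMod p) B]
    (hCD : CD p m rr B) [Algebra (Pol p m) B] [Module.Finite (Pol p m) B]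
    (N : Ideal (Pol p m)) [hN : N.IsMaximal] (δ : ℕ) (b : Fin δ → B)
    (hgen : ∀ x : B, ∃ c : Fin δ → Pol p m,
      x - ∑ i, c i • b i ∈ N.map (algebraMap (Pol p m) B))
    (hind : ∀ c : Fin δ → Pol p m, ∑ i, c i • b i ∈ N.map (algebraMap (Pol p m) B) → ∀ i, c i ∈ N) :
    LinearIndependent (Pol p m) b := by
  have hfinN : Finite (Pol p m ⧸ N) := by
    letI : Field (Pol p m ⧸ N) := Ideal.Quotient.field N
    haveI : Module.Finite (ZMod p) (Pol p m ⧸ N) :=
      finite_of_finite_type_of_isJacobsonRing (ZMod p) (Pol p m ⧸ N)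
    exact Module.finite_of_finite (ZMod p)
  have hcardP : ∀ n : ℕ, Finite (Pol p m ⧸ fpow (p ^ n) N) ∧
      Nat.card (Pol p m ⧸ fpow (p ^ n) N) = Nat.card (Pol p m ⧸ N) ^ (p ^ (m * n)) := by
    intro n
    induction n with
    | zero =>
      rw [pow_zero, p_indep_fpow_one]
      exact ⟨hfinN, by simp⟩
    | succ n ih =>
      have := F2TF.compcard p m (fpow (p ^ n) N) ih.1
      rw [p_indep_fpow_succ, ih.2, ← pow_mul, ← pow_add] at this
      rw [mul_add, mul_one]
      exact this
  have hinjN : Function.Injective (p_indep_L N b) := by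
    rw [injective_iff_map_eq_zero]
    intro c hc
    choose c' hc' using fun i => Ideal.Quotient.mk_surjective (c i)
    have h1 : c = fun i => Ideal.Quotient.mk N (c' i) := funext fun i => (hc' i).symm
    rw [h1, p_indep_L_apply, Ideal.Quotient.eq_zero_iff_mem] at hc
    rw [h1]
    funext i
    exact Ideal.Quotient.eq_zero_iff_mem.mpr (hind c' hc i)
  have hbijN : Function.Bijective (p_indep_L N b) := ⟨hinjN, p_indep_L_surj N b hgen⟩
  have hfinB : Finite (B ⧸ N.map (algebraMap (Pol p m) B)) :=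
    Finite.of_surjective _ hbijN.2
  have hcardB : Nat.card (B ⧸ N.map (algebraMap (Pol p m) B)) = Nat.card (Pol p m ⧸ N) ^ δ := by
    rw [← Nat.card_congr (Equiv.ofBijective _ hbijN), Nat.card_fun, Nat.card_fin]
  rw [Fintype.linearIndependent_iff]
  intro c hc i
  have key : ∀ n : ℕ, c i ∈ fpow (p ^ n) N := by
    intro n
    obtain ⟨hf, hcard⟩ := hCD.cnt (N.map (algebraMap (Pol p m) B)) hfinB n
    rw [← p_indep_fpow_map p (algebraMap (Pol p m) B) N n] at hf hcard
    obtain ⟨hf2, hcard2⟩ := hcardP n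
    have hsurj : Function.Surjective (p_indep_L (fpow (p ^ n) N) b) := by
      apply p_indep_L_surj
      rw [p_indep_iff] at hgen ⊢
      obtain ⟨j, hj⟩ : ∃ j, N ^ j ≤ fpow (p ^ n) N := by
        refine Ideal.exists_pow_le_of_le_radical_of_fg ?_ (IsNoetherian.noetherian N)
        intro a ha
        exact ⟨p ^ n, Ideal.subset_span ⟨a, ha, rfl⟩⟩
      exact top_le_iff.mp ((p_indep_pow N b hgen j).ge.trans
        (sup_le_sup_left (Submodule.smul_mono_left hj) _))
    have hcardeq : Nat.card (Fin δ → Pol p m ⧸ fpow (p ^ n) N) ≤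
        Nat.card (B ⧸ (fpow (p ^ n) N).map (algebraMap (Pol p m) B)) := by
      rw [Nat.card_fun, hcard, hcardB, hcard2, Nat.card_fin, ← pow_mul, ← pow_mul, mul_comm]
    have hbij := hsurj.bijective_of_nat_card_le hcardeq
    have h0 : p_indep_L (fpow (p ^ n) N) b (fun i => Ideal.Quotient.mk _ (c i)) = 0 := by
      rw [p_indep_L_apply, hc, map_zero]
    have h1 := hbij.1 (h0.trans (map_zero _).symm)
    have h2 := congrFun h1 i
    exact Ideal.Quotient.eq_zero_iff_mem.mp h2
  have hbot : c i ∈ (⨅ k : ℕ, N ^ k : Ideal (Pol p m)) := by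
    rw [Submodule.mem_iInf]
    intro k
    have h1 : fpow (p ^ k) N ≤ N ^ k := by
      refine Ideal.span_le.mpr ?_
      rintro _ ⟨a, ha, rfl⟩
      exact Ideal.pow_le_pow_right (Nat.lt_pow_self hp.out.one_lt).le (Ideal.pow_mem_pow ha _)
    exact h1 (key k)
  rw [Ideal.iInf_pow_eq_bot_of_isDomain N hN.ne_top] at hbot
  simpa using hbot

private theorem cd_proj_basis (P B : Type) [CommRing P] [CommRing B] [Algebra P B]
    [Module.Finite P B] (N : Ideal P) [hN : N.IsMaximal] :
    ∃ (δ : ℕ) (b : Fin δ → B),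
      (∀ x : B, ∃ c : Fin δ → P, x - ∑ i, c i • b i ∈ N.map (algebraMap P B)) ∧
      (∀ c : Fin δ → P, ∑ i, c i • b i ∈ N.map (algebraMap P B) → ∀ i, c i ∈ N) := by
  let _ : Field (P ⧸ N) := Ideal.Quotient.field N
  have hmem : ∀ x : B, x ∈ N.map (algebraMap P B) ↔
      (Submodule.Quotient.mk x : B ⧸ (N • (⊤ : Submodule P B))) = 0 := by
    intro x
    rw [Submodule.Quotient.mk_eq_zero, Ideal.smul_top_eq_map]
    rfl
  have : Module.Finite (P ⧸ N) (B ⧸ (N • (⊤ : Submodule P B))) :=
    Module.Finite.of_restrictScalars_finite P _ _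
  let bs := Module.finBasis (P ⧸ N) (B ⧸ (N • (⊤ : Submodule P B)))
  choose b hb using fun i => Submodule.Quotient.mk_surjective (N • (⊤ : Submodule P B)) (bs i)
  have hsmul : ∀ (c : P) (x : B), (Submodule.Quotient.mk (c • x) : B ⧸ (N • (⊤ : Submodule P B))) =
      (Ideal.Quotient.mk N c) • (Submodule.Quotient.mk x : B ⧸ (N • (⊤ : Submodule P B))) := by
    intro c x
    rfl
  have hsum : ∀ c : Fin (Module.finrank (P ⧸ N) (B ⧸ (N • (⊤ : Submodule P B)))) → P,
      (Submodule.Quotient.mk (∑ i, c i • b i) : B ⧸ (N • (⊤ : Submodule P B))) =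
        ∑ i, (Ideal.Quotient.mk N (c i)) • bs i := by
    intro c
    change Submodule.mkQ _ (∑ i, c i • b i) = _
    rw [map_sum]
    refine Finset.sum_congr rfl fun i _ => ?_
    rw [Submodule.mkQ_apply, hsmul, hb]
  refine ⟨_, b, ?_, ?_⟩
  · intro x
    choose c hc using fun i => Ideal.Quotient.mk_surjective (bs.repr (Submodule.Quotient.mk x) i)
    refine ⟨c, ?_⟩
    rw [hmem, Submodule.Quotient.mk_sub, hsum]
    simp only [hc]
    rw [bs.sum_repr, sub_self]
  · intro c hc i
    rw [hmem, hsum] at hc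
    have := Fintype.linearIndependent_iff.1 bs.linearIndependent _ hc i
    exact Ideal.Quotient.eq_zero_iff_mem.1 this

theorem cd_proj (p m rr : ℕ) [Fact p.Prime] (B : Type) [CommRing B] [Algebra (ZMod p) B]
    (hCD : CD p m rr B) [Algebra (Pol p m) B] [Module.Finite (Pol p m) B] :
    Module.Projective (Pol p m) B := by
  have : Module.FinitePresentation (Pol p m) B := Module.finitePresentation_of_finite _ _
  apply Module.projective_of_localization_maximal
  intro N hN
  obtain ⟨δ, b, hb1, hb2⟩ := cd_proj_basis (Pol p m) B N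
  have hli := cd_indep p m rr B hCD N δ b hb1 hb2
  -- Nakayama
  obtain ⟨s, hsN, hs⟩ : ∃ s : Pol p m, s ∉ N ∧ ∀ x : B, s • x ∈ Submodule.span (Pol p m) (Set.range b) := by
    set Q := Submodule.span (Pol p m) (Set.range b) with hQ
    have hle : (⊤ : Submodule (Pol p m) (B ⧸ Q)) ≤ N • ⊤ := by
      rintro y -
      obtain ⟨x, rfl⟩ := Submodule.Quotient.mk_surjective Q y
      obtain ⟨c, hc⟩ := hb1 x
      have h1 : (x - ∑ i, c i • b i) ∈ (N • (⊤ : Submodule (Pol p m) B)) := by
        rw [Ideal.smul_top_eq_map]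
        exact hc
      have h2 := Submodule.mem_map_of_mem (f := Submodule.mkQ Q) h1
      rw [Submodule.map_smul''] at h2
      have h3 : Submodule.mkQ Q (x - ∑ i, c i • b i) = Submodule.Quotient.mk x := by
        rw [map_sub, Submodule.mkQ_apply, Submodule.mkQ_apply, sub_eq_self,
          Submodule.Quotient.mk_eq_zero]
        exact Submodule.sum_mem _ fun i _ => Submodule.smul_mem _ _ (Submodule.subset_span ⟨i, rfl⟩)
      rw [h3] at h2
      exact Submodule.smul_mono le_rfl le_top h2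
    obtain ⟨s, hs1, hs2⟩ := Submodule.exists_sub_one_mem_and_smul_eq_zero_of_fg_of_le_smul N
      (⊤ : Submodule (Pol p m) (B ⧸ Q)) Module.Finite.fg_top hle
    refine ⟨s, ?_, ?_⟩
    · intro hs
      apply hN.ne_top
      rw [Ideal.eq_top_iff_one]
      have := N.sub_mem hs hs1
      rwa [sub_sub_cancel] at this
    · intro x
      have := hs2 (Submodule.Quotient.mk x) trivial
      rwa [← Submodule.Quotient.mk_smul, Submodule.Quotient.mk_eq_zero] at this
  let f := LocalizedModule.mkLinearMap N.primeCompl B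
  have hli' : LinearIndependent (Localization.AtPrime N) (f ∘ b) :=
    hli.of_isLocalizedModule (Localization.AtPrime N) N.primeCompl f
  have hsp : ⊤ ≤ Submodule.span (Localization.AtPrime N) (Set.range (f ∘ b)) := by
    rintro y -
    obtain ⟨⟨x, t⟩, ht⟩ := IsLocalizedModule.surj N.primeCompl f y
    have h1 : ∀ z ∈ Submodule.span (Pol p m) (Set.range b),
        f z ∈ Submodule.span (Localization.AtPrime N) (Set.range (f ∘ b)) := by
      intro z hz
      have h2 : f z ∈ Submodule.span (Pol p m) (Set.range (f ∘ b)) := by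
        rw [Set.range_comp, ← LinearMap.map_span]
        exact Submodule.mem_map_of_mem hz
      exact Submodule.span_subset_span (Pol p m) (Localization.AtPrime N) _ h2
    have h3 := h1 _ (hs x)
    rw [map_smul] at h3
    have h4 : (s * (t : Pol p m)) • y ∈ Submodule.span (Localization.AtPrime N) (Set.range (f ∘ b)) := by
      rw [mul_smul]
      have : (t : Pol p m) • y = f x := ht
      rw [this]
      exact h3
    have hu : IsUnit (algebraMap (Pol p m) (Localization.AtPrime N) (s * (t : Pol p m))) :=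
      IsLocalization.map_units (Localization.AtPrime N)
        (⟨s * (t : Pol p m), N.primeCompl.mul_mem hsN t.2⟩ : N.primeCompl)
    rw [← algebraMap_smul (Localization.AtPrime N)] at h4
    exact (Submodule.smul_mem_iff_of_isUnit _ hu).1 h4
  exact Module.Projective.of_basis (Module.Basis.mk hli' hsp)


theorem ld_pow (f : PowerSeries ℤ) (s : ℕ → ℤ) (h : LD f s) (r : ℕ) :
    LD (f ^ r) (fun k => (r : ℤ) * s k) := by
  induction r with
  | zero =>
    refine ⟨by simp, fun k => ?_⟩
    simp [PowerSeries.coeff_one]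
  | succ r ih =>
    have h1 := F2TF.ld.1 ℤ (f ^ r) f _ _ ih h
    rw [← pow_succ] at h1
    have h2 : ((fun k => (r : ℤ) * s k) + s) = fun k => ((r + 1 : ℕ) : ℤ) * s k := by
      funext k
      simp only [Pi.add_apply]
      push_cast
      ring
    rwa [h2] at h1

theorem cd_permrev (Y : Type) [Fintype Y] [DecidableEq Y] (π : Y → Y) (N r : ℕ) (c : ℤ)
    (hc : ∀ k, 1 ≤ k → k ≤ N → (Nat.card {x : Y // π^[k] x = x} : ℤ) = r * c ^ k) :
    ∀ k ≤ N, (Matrix.charpolyRev (fun x x' : Y => if x' = π x then (1 : ℤ) else 0)).coeff k =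
      ((1 - Polynomial.C c * Polynomial.X) ^ r : Polynomial ℤ).coeff k := by
  set A : Matrix Y Y ℤ := Matrix.of fun x x' : Y => if x' = π x then (1 : ℤ) else 0 with hA
  have h1 := F2TF.ldchar ℤ Y A
  have h2 := F2TF.ldchar ℤ (Fin 1) (Matrix.of fun _ _ => c)
  have htr : ∀ k, ((Matrix.of fun _ _ => c : Matrix (Fin 1) (Fin 1) ℤ) ^ k).trace = c ^ k := by
    intro k
    rw [Matrix.trace_fin_one]
    induction k with
    | zero => rw [pow_zero, pow_zero, Matrix.one_apply_eq]
    | succ k ih =>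
      rw [pow_succ, Matrix.mul_apply, Fin.sum_univ_one, ih, Matrix.of_apply, pow_succ]
  have htr' : ∀ k, 1 ≤ k → k ≤ N → (A ^ k).trace = r * c ^ k := by
    intro k hk1 hk2
    rw [← hc k hk1 hk2, hA, p_permrev_pow, Matrix.trace]
    simp only [Matrix.diag_apply, Matrix.of_apply]
    rw [Finset.sum_boole, Nat.card_eq_fintype_card, Fintype.card_subtype]
    congr 2
    ext x
    simp only [Finset.mem_filter, Finset.mem_univ, true_and]
    exact eq_comm
  have h2' := ld_pow _ _ h2 r
  have h3 := F2TF.ld.2 ℤ _ _ _ _ N h1 h2' (fun k hk1 hk2 => by rw [htr' k hk1 hk2, htr k])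
  intro k hk
  have h4 := h3 k hk
  rw [← Polynomial.coe_pow, Polynomial.coeff_coe, Polynomial.coeff_coe] at h4
  have h5 : (Matrix.of fun _ _ => c : Matrix (Fin 1) (Fin 1) ℤ).charpolyRev =
      1 - Polynomial.C c * Polynomial.X := by
    rw [Matrix.charpolyRev, Matrix.det_fin_one]
    simp [Matrix.sub_apply, mul_comm]
  rw [h5] at h4
  exact h4

theorem cd_phione (p m rr : ℕ) [hp : Fact p.Prime] (B : Type) [CommRing B] [Algebra (ZMod p) B]
    (hCD : CD p m rr B) (hm : m ≠ 0) [Algebra (Pol p m) B] (r : ℕ) (b : Fin r → B)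
    (μ : Fin r → (B →ₗ[Pol p m] Pol p m)) (hb : DualBasis b μ)
    (H : Matrix (Fin r) (Fin r) (MvPolynomial (Fin m) ℤ)) (hH : IsLift H (frobMat b μ))
    (K : Type) [Field K] [IsAlgClosed K] [CharP K p] (M N : ℕ) (hM : M ≠ 0)
    (hdiv : ∀ n, 1 ≤ n → n ≤ N → n ∣ M) (k : ℕ) (hk : k ≤ N) :
    (phiMat p M (fun y : K => y) H).charpolyRev.coeff k = if k = 0 then 1 else 0 := by
  classical
  haveI : Module.Finite (Pol p m) B := by
    refine ⟨⟨Finset.univ.image b, ?_⟩⟩
    rw [eq_top_iff]
    rintro x -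
    rw [← hb x]
    refine Submodule.sum_mem _ fun j _ => Submodule.smul_mem _ _ (Submodule.subset_span ?_)
    simp
  letI : Algebra (ZMod p) K := ZMod.algebra K p
  haveI := F2TF.xfin p M m B K hM
  letI : Fintype (XPt p M m B K) := Fintype.ofFinite _
  let π : XPt p M m B K → XPt p M m B K := fun x =>
    ⟨(frobenius K p).comp x.1, fun i => by
      have := x.2 i
      simp only [RingHom.comp_apply, frobenius_def]
      rw [← pow_mul, mul_comm, pow_mul, this]⟩
  have hπ : ∀ (n : ℕ) (x : XPt p M m B K) (c : B), (π^[n] x).1 c = x.1 c ^ p ^ n := by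
    intro n
    induction n with
    | zero => intro x c; simp
    | succ n ih =>
      intro x c
      rw [Function.iterate_succ_apply, ih]
      have : (π x).1 c = x.1 c ^ p := rfl
      rw [this, ← pow_mul, pow_succ']
  rw [F2TF.phichar p M m r B K b μ hb H hH hM]
  have hperm : permMat p M m B K K =
      (Matrix.map (fun x x' : XPt p M m B K => if x' = π x then (1 : ℤ) else 0)
        (Int.castRingHom K) : Matrix (XPt p M m B K) (XPt p M m B K) K) := by
    ext x x'
    have h1 : (∀ c, x'.1 c = x.1 c ^ p) ↔ x' = π x := by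
      constructor
      · intro h
        exact Subtype.ext (RingHom.ext h)
      · rintro rfl c
        rfl
    simp only [permMat, Matrix.map_apply, h1]
    split_ifs <;> simp
  rw [hperm, charpolyRev_map, Polynomial.coeff_map,
    cd_permrev (XPt p M m B K) π N rr ((p : ℤ) ^ m) ?_ k hk]
  · have hpm : ((p : K) ^ m) = 0 := by
      rw [CharP.cast_eq_zero, zero_pow hm]
    rw [← Polynomial.coeff_map, Polynomial.map_pow, Polynomial.map_sub, Polynomial.map_mul,
      Polynomial.map_C, Polynomial.map_X, Polynomial.map_one, eq_intCast]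
    push_cast
    rw [hpm, Polynomial.C_0, zero_mul, sub_zero, one_pow, Polynomial.coeff_one]
  · intro n hn1 hnN
    have hn0 : n ≠ 0 := by omega
    have hcard := hCD.pts K n hn0
    have hfixM : ∀ z : K, z ^ p ^ n = z → z ^ p ^ M = z := by
      intro z hz
      obtain ⟨c, rfl⟩ := hdiv n hn1 hnN
      have : ∀ c : ℕ, z ^ p ^ (n * c) = z := by
        intro c
        induction c with
        | zero => simp
        | succ c ih => rw [Nat.mul_succ, pow_add, pow_mul, ih, hz]
      exact this c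
    have he : Nat.card {x : XPt p M m B K // π^[n] x = x} =
        Nat.card {x : B →+* K // ∀ b, x b ^ (p ^ n) = x b} := by
      refine Nat.card_congr
        { toFun := fun x => ⟨x.1.1, fun c => ?_⟩
          invFun := fun x => ⟨⟨x.1, fun i => hfixM _ (x.2 _)⟩, ?_⟩
          left_inv := fun x => rfl
          right_inv := fun x => rfl }
      · rw [← hπ, x.2]
      · apply Subtype.ext
        ext c
        rw [hπ]
        exact x.2 c
    rw [he, hcard]
    push_cast
    rw [← pow_mul]

/-- THEOREM A from counting data. -/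
theorem cd_thmA (p m rr : ℕ) [hp : Fact p.Prime] (B : Type) [CommRing B] [Nontrivial B]
    [Algebra (ZMod p) B] (hCD : CD p m rr B) (hm : m ≠ 0) (x : Fin m → B) : ∃ g : Fin m → B,
    (aeval (fun i => x i + g i ^ p) : Pol p m →ₐ[ZMod p] B).Finite ∧
    ∀ l : B →+ Pol p m,
      (∀ (a : Pol p m) (c : B), l (aeval (fun i => x i + g i ^ p) a * c) = a * l c) →
      ∃ N : ℕ, ∀ c : B, (cart^[N] (l : B → Pol p m)) c = 0 := by
  classical
  haveI hfg : Algebra.FiniteType (ZMod p) B := hCD.ft
  obtain ⟨d, g, hginj, hgfin⟩ := exists_finite_inj_algHom_of_fg (ZMod p) B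
  obtain rfl : d = m := cd_dim p m rr B hCD d g hginj hgfin
  let s : Fin d → B := fun i => g (X i)
  have hgs : g = aeval s := by
    apply MvPolynomial.algHom_ext
    intro i
    simp [s]
  rw [hgs] at hgfin
  obtain ⟨m₀, hm₀⟩ := F2TF.noether (ZMod p) B d s x hgfin
  refine ⟨fun i => s i ^ m₀, ?_⟩
  have hfun : (fun i => x i + (s i ^ m₀) ^ p) = fun i => x i + s i ^ (m₀ * p) := by
    funext i
    rw [pow_mul]
  rw [hfun]
  have hιfin := hm₀ (m₀ * p) (Nat.le_mul_of_pos_right _ hp.out.pos)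
  refine ⟨hιfin, ?_⟩
  intro l hl
  letI : Algebra (Pol p d) B :=
    (aeval (fun i => x i + s i ^ (m₀ * p)) : Pol p d →ₐ[ZMod p] B).toRingHom.toAlgebra
  haveI : Module.Finite (Pol p d) B := hιfin
  haveI : Module.Projective (Pol p d) B := cd_proj p d rr B hCD
  obtain ⟨r, b, μ, hb⟩ := exists_dualBasis p d B
  obtain ⟨H, hH⟩ := exists_lift p d r (frobMat b μ)
  obtain ⟨D₀, hD₀⟩ := exists_degLe d r H
  have hdeg : ∀ D ≥ D₀, DegLe ((p - 1) * D) H := by
    intro D hD i j k
    refine (hD₀ i j k).trans (hD.le.trans ?_)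
    exact Nat.le_mul_of_pos_left _ (by have := hp.out.two_le; omega)
  let K := AlgebraicClosure (ZMod p)
  haveI : CharP K p := charP_of_injective_algebraMap (algebraMap (ZMod p) K).injective p
  obtain ⟨O, _, hdom, hchar, ⟨T⟩⟩ := F2TF.witt p K
  have hnil : ∀ D ≥ D₀, IsNilpotent ((opMat p D ∅ H).map (Int.castRingHom K)) := by
    intro D hD
    apply F2TF.nilp
    set N := Fintype.card (Idx d D ∅ × Fin r) with hN
    have hdiv : ∀ n, 1 ≤ n → n ≤ N → n ∣ N.factorial := fun n h1 h2 =>
      Nat.dvd_factorial (by omega) h2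
    exact F2TF.modp p K O T d r D N.factorial N H (hdeg D hD) (Nat.factorial_ne_zero _) hdiv
      (cd_phione p d rr B hCD hm r b μ hb H hH K N.factorial N (Nat.factorial_ne_zero _) hdiv)
  let l' : B →ₗ[Pol p d] Pol p d :=
    { toFun := l
      map_add' := l.map_add
      map_smul' := fun a c => hl a c }
  exact F2TF.cartnil p d r B b μ hb H hH K D₀ (hdeg D₀ le_rfl) hnil l'

end Pool.Agent.CZA
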