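import Pool.Agent.Lib.MP_305fdd_al.CZ.A.StmL
import Pool.Agent.Lib.MP_305fdd_al.CZ.A.TF

/-!
# MP_305fdd_al (`C_m * Z`), part A: existence of the data over `F_p` (piece CL d0)
-/

set_option autoImplicit false

namespace Pool.Agent.CZA

open MvPolynomial Pool.Agent.Lib.MP_305fdd_al Pool.Agent.MP_305fdd_al Pool.Agent.CZ
open Pool.Agent.F2 (PC Corr Fr gx gy rt)
open Pool.Agent.F2TF (Pol fpow)
open Pool.Agent.CC (IsTR)

noncomputable section

theorem d0_rt (p : ℕ) [Fact p.Prime] (c : ZMod p) : rt p (ZMod p) c = c := by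
  have h : (frobeniusEquiv (ZMod p) p).symm c = c := by
    rw [RingEquiv.symm_apply_eq, frobeniusEquiv_def, ZMod.pow_card]
  exact h

theorem d0_psik (p : ℕ) [Fact p.Prime] (a : Ak (ZMod p)) :
    psik p (ZMod p) a = F2TF.psi a := by
  ext w
  rw [psik, coeff_compk, d0_rt, F2TF.coeff_psi]

theorem d0_iter (p : ℕ) [Fact p.Prime] {B : Type} [CommRing B] (N : ℕ) :
    ∀ (l : B → Ak (ZMod p)) (b : B),
    ((cartk p (ZMod p))^[N] l) b = (F2TF.cart^[N] (l : B → Pol p 2)) b := by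
  induction N with
  | zero => intro l b; rfl
  | succ N ih =>
    intro l b
    have h : (cartk p (ZMod p) l : B → Pol p 2) = F2TF.cart (l : B → Pol p 2) := by
      funext x
      rw [cartk, F2TF.cart, d0_psik]
    rw [Function.iterate_succ_apply, Function.iterate_succ_apply, ih, h]

theorem d0_np (p rr : ℕ) [Fact p.Prime] (B : Type) [CommRing B] [Nontrivial B]
    [Algebra (ZMod p) B] (hCD : CD p 2 rr B) (x : Fin 2 → B) :
    ∃ g : Fin 2 → B, NP p (ZMod p) B x g := by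
  obtain ⟨g, hfin, hnil⟩ := cd_thmA p 2 rr B hCD two_ne_zero x
  refine ⟨g, hfin, ?_⟩
  intro l hl
  obtain ⟨N, hN⟩ := hnil l hl
  refine ⟨N, fun c => ?_⟩
  have h4 := d0_iter p N l c
  exact h4.trans (hN c)

theorem d0_pcmap {G R S : Type} [Group G] [CommRing R] [CommRing S] (f : R →+* S) {T : G → R}
    (h : PC T) : PC (fun g => f (T g)) := by
  refine ⟨?_, fun g g' => ?_, fun g g' => ?_⟩
  · show f (T 1) = 2
    rw [h.one]
    exact map_ofNat f 2
  · show f (T (g * g')) = f (T (g' * g))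
    rw [h.comm]
  · show f (T (g * g')) + f (T (g * g'⁻¹)) = f (T g) * f (T g')
    rw [← map_add, h.rel, map_mul]

theorem d0_adj (p : ℕ) {G B : Type} [CommRing B] [Algebra (ZMod p) B] (I : Ideal B)
    (T : G → B) (h : Algebra.adjoin (ZMod p) (Set.range T) = ⊤) :
    Algebra.adjoin (ZMod p) (Set.range fun g => Ideal.Quotient.mk I (T g)) = ⊤ := by
  have h1 : (Set.range fun g => Ideal.Quotient.mk I (T g)) =
      (Ideal.Quotient.mkₐ (ZMod p) I) '' (Set.range T) := by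
    rw [← Set.range_comp]
    rfl
  rw [h1, ← AlgHom.map_adjoin, h, Algebra.map_top, AlgHom.range_eq_top]
  exact Ideal.Quotient.mkₐ_surjective (ZMod p) I

theorem d0_card (p : ℕ) [Fact p.Prime] {B : Type} [CommRing B] (φ : B →+* ZMod p) :
    Finite (B ⧸ RingHom.ker φ) ∧ Nat.card (B ⧸ RingHom.ker φ) = p := by
  have hs : Function.Surjective φ := by
    intro z
    refine ⟨((z.val : ℕ) : B), ?_⟩
    rw [map_natCast, ZMod.natCast_zmod_val]
  let E := RingHom.quotientKerEquivOfSurjective hs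
  refine ⟨Finite.of_equiv _ E.symm.toEquiv, ?_⟩
  rw [Nat.card_congr E.toEquiv, Nat.card_zmod]

theorem d0_dom (k : Type) [Field k] : IsDomain (Ls k) := inferInstance

theorem d0_ne (k : Type) [Field k] (v : Ls k) (hv : aug k v ≠ 0) :
    (AddMonoidAlgebra.single 1 1 - 1) * v ≠ 0 := by
  have hv0 : v ≠ 0 := by
    rintro rfl
    exact hv (map_zero _)
  refine mul_ne_zero ?_ hv0
  intro h
  have h1 : (AddMonoidAlgebra.single (1 : ℤ) (1 : k)) = AddMonoidAlgebra.single (0 : ℤ) (1 : k) := by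
    rw [sub_eq_zero] at h
    rw [h, AddMonoidAlgebra.one_def]
  have h2 : (AddMonoidAlgebra.single (1 : ℤ) (1 : k)).coeff 1 =
      (AddMonoidAlgebra.single (0 : ℤ) (1 : k)).coeff 1 := by rw [h1]
  rw [AddMonoidAlgebra.coeff_single, AddMonoidAlgebra.coeff_single, Finsupp.single_eq_same,
    Finsupp.single_eq_of_ne (by decide)] at h2
  exact one_ne_zero h2

theorem p_d0 (hcor : S_cor) (htwo2 : S_two2) (hcntg : S_cntg) (hptsg : S_ptsg) (hca : S_ca)
    (hpt : S_pt) (hrr : S_rr) (hx1 : S_x1) (hq : S_q) (hnn : S_nn) (he0 : S_e0) : S_d0 := by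
  intro p m _ _ hp hm hpm k _ _ ζ hζ Λ _ _ hs
  obtain ⟨x, δ, n, B₀, i1, i2, TB, TA, evv, Φ, Ψ, C, hx⟩ := hcor p m hp hm hpm k ζ hζ Λ hs
  obtain ⟨e, he, ev2, htr, hcomp⟩ := htwo2 p m x Λ δ n B₀ TB TA evv Φ Ψ C
  obtain ⟨φM, hφ, hcard⟩ := hpt p m x Λ δ n B₀ TB TA evv Φ Ψ C e ev2 htr hcomp
  obtain ⟨-, -, -, -, hun, -⟩ := hrr p m x hp hm C.wj k ζ hζ hx Λ δ n
  obtain ⟨r₀, hr₀⟩ := hun B₀ TB C.upB
  have hre : r₀ e = 0 := he0 p m x Λ δ n B₀ TB TA evv Φ Ψ C e he k ζ hζ hx r₀ hr₀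
  have hker0 : ∀ a ∈ Ideal.span {e}, r₀ a = 0 := by
    intro a ha
    obtain ⟨c, rfl⟩ := Ideal.mem_span_singleton'.1 ha
    rw [map_mul, hre, mul_zero]
  set r : B₀ ⧸ Ideal.span {e} →+* Ls k := Ideal.Quotient.lift _ r₀ hker0 with hr
  have hrT : ∀ g, r (Ideal.Quotient.mk (Ideal.span {e}) (TB g)) =
      rr (ζ ^ ev m δ g) (Multiplicative.toAdd (n (e1 m δ g))) := by
    intro g
    rw [hr, Ideal.Quotient.lift_mk]
    exact hr₀ g
  have hCD : CD p 2 (Nat.card (JJ m)) (B₀ ⧸ Ideal.span {e}) :=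
    ⟨htr.fg, hcntg p (A2 p m) _ ev2 htr 2 (hca p 2 (JJ m)).1, fun K _ _ _ n hn => by
      rw [hptsg p (A2 p m) _ ev2 htr K n hn]
      exact (hca p 2 (JJ m)).2 K n hn⟩
  have hft : Algebra.FiniteType (ZMod p) (B₀ ⧸ Ideal.span {e}) := htr.fg
  have hnoe : IsNoetherianRing (B₀ ⧸ Ideal.span {e}) :=
    Algebra.FiniteType.isNoetherianRing (ZMod p) _
  have hnt : Nontrivial (B₀ ⧸ Ideal.span {e}) := RingHom.domain_nontrivial φM
  have := d0_dom k
  have hpc : PC (fun g => Ideal.Quotient.mk (Ideal.span {e}) (TB g)) := d0_pcmap _ C.upB.pc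
  have htc : (fun g => Ideal.Quotient.mk (Ideal.span {e}) (TB g)) (cc m δ) = -2 := by
    show Ideal.Quotient.mk (Ideal.span {e}) (TB (cc m δ)) = -2
    rw [C.upB.tc, map_neg, map_ofNat]
  have hadj := d0_adj p (Ideal.span {e}) TB C.upB.adj
  obtain ⟨haug, x1, y, hx1r, hyM, ⟨v, hv, hv0⟩, hgen⟩ := hx1 p m x hp hm C.wj k ζ hζ hx Λ δ n
    C.cls (B₀ ⧸ Ideal.span {e}) (fun g => Ideal.Quotient.mk (Ideal.span {e}) (TB g)) hpc hadj r
    hrT φM hφ hcard
  have hker : RingHom.ker r ≤ RingHom.ker φM := by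
    intro b hb
    rw [RingHom.mem_ker] at hb ⊢
    have h1 := haug b
    rw [hb, map_zero] at h1
    exact (ZMod.castHom_injective k) (by rw [← h1, map_zero])
  have hyr : r y ≠ 0 := by
    rw [hv]
    exact d0_ne k v hv0
  obtain ⟨-, q, hq1, hqm⟩ := hq (B₀ ⧸ Ideal.span {e}) (Ls k) r (RingHom.ker φM) x1 y hker hx1r
    hyM hyr (fun f hf => hgen f hf)
  have hq0 : r q ≠ 0 := by
    intro h0
    have h1 : φM q = 1 := by
      rw [RingHom.mem_ker, map_sub, map_one, sub_eq_zero] at hq1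
      exact hq1
    have h2 := haug q
    rw [h0, h1, map_zero, map_one] at h2
    exact zero_ne_one h2
  have hnn' := hnn p k (B₀ ⧸ Ideal.span {e}) r φM x1 y haug hx1r hyM ⟨v, hv, hv0⟩ hgen
    (fun n => by
      obtain ⟨hf, hc⟩ := d0_card p φM
      have h1 := hCD.cnt (RingHom.ker φM) hf n
      rw [hc] at h1
      exact h1)
  exact ⟨δ, n, B₀ ⧸ Ideal.span {e}, inferInstance, inferInstance,
    fun g => Ideal.Quotient.mk (Ideal.span {e}) (TB g), r, x1, q,
    { hp := hp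
      hm := hm
      hpm := hpm
      hζ := hζ
      cls := C.cls
      pc := hpc
      tc := htc
      adj := hadj
      ft := htr.fg
      r_T := hrT
      x1_r := hx1r
      q_r := hq0
      q_mul := hqm
      nn := hnn'
      np := fun z => d0_np p (Nat.card (JJ m)) _ hCD z }⟩

end

end Pool.Agent.CZA
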