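import Pool.Agent.Lib.MP_305fdd_al.CZ.A.StmL

/-!
# MP_305fdd_al (`C_m * Z`), part A: existence of the domain over `k`
-/

set_option autoImplicit false

namespace Pool.Agent.CZA

open MvPolynomial Pool.Agent.Lib.MP_305fdd_al Pool.Agent.MP_305fdd_al Pool.Agent.CZ
open Pool.Agent.F2 (PC Corr Fr gx gy rt)
open scoped TensorProduct

noncomputable section

/-- the Frobenius of `k` over the prime field -/
def d1_frob (p : ℕ) [Fact p.Prime] (k : Type) [Field k] [CharP k p] [PerfectRing k p]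
    [Algebra (ZMod p) k] : k ≃ₐ[ZMod p] k :=
  AlgEquiv.ofRingEquiv (f := frobeniusEquiv k p) (fun c => by
    rw [frobeniusEquiv_apply, frobenius_def, ← map_pow, ZMod.pow_card])

theorem d1_frob_apply (p : ℕ) [Fact p.Prime] (k : Type) [Field k] [CharP k p] [PerfectRing k p]
    [Algebra (ZMod p) k] (c : k) : d1_frob p k c = c ^ p := by
  show frobeniusEquiv k p c = c ^ p
  rw [frobeniusEquiv_apply, frobenius_def]

/-- the semilinear automorphism of `k ⊗ B` -/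
def d1_J (p : ℕ) [Fact p.Prime] (k : Type) [Field k] [CharP k p] [PerfectRing k p]
    [Algebra (ZMod p) k] (B : Type) [CommRing B] [Algebra (ZMod p) B] :
    (k ⊗[ZMod p] B) ≃+* (k ⊗[ZMod p] B) :=
  (Algebra.TensorProduct.congr (d1_frob p k) (AlgEquiv.refl : B ≃ₐ[ZMod p] B)).toRingEquiv

theorem d1_J_tmul (p : ℕ) [Fact p.Prime] (k : Type) [Field k] [CharP k p] [PerfectRing k p]
    [Algebra (ZMod p) k] (B : Type) [CommRing B] [Algebra (ZMod p) B] (a : k) (b : B) :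
    d1_J p k B (a ⊗ₜ b) = (a ^ p) ⊗ₜ b := by
  show Algebra.TensorProduct.congr (d1_frob p k) (AlgEquiv.refl : B ≃ₐ[ZMod p] B) (a ⊗ₜ b) = _
  rw [Algebra.TensorProduct.congr_apply, Algebra.TensorProduct.map_tmul]
  show d1_frob p k a ⊗ₜ b = _
  rw [d1_frob_apply]

theorem d1_J_rk (p : ℕ) [Fact p.Prime] (k : Type) [Field k] [CharP k p] [PerfectRing k p]
    [Algebra (ZMod p) k] (B : Type) [CommRing B] [Algebra (ZMod p) B] (r : B →+* Ls k)
    (rk : (k ⊗[ZMod p] B) →ₐ[k] Ls k) (h1 : ∀ (a : k) (b : B), rk (a ⊗ₜ b) = a • r b)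
    (h2 : ∀ (b : B) (l : ℤ), (r b).coeff (-l) = ((r b).coeff l) ^ p) (f : k ⊗[ZMod p] B) :
    ∀ l : ℤ, (rk (d1_J p k B f)).coeff l = ((rk f).coeff (-l)) ^ p := by
  have hp := (Fact.out : p.Prime)
  induction f using TensorProduct.induction_on with
  | zero =>
    intro l
    rw [map_zero, map_zero]
    show (0 : k) = 0 ^ p
    rw [zero_pow hp.ne_zero]
  | tmul a b =>
    intro l
    rw [d1_J_tmul, h1, h1]
    show a ^ p * (r b).coeff l = (a * (r b).coeff (-l)) ^ p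
    rw [mul_pow, ← h2 b (-l), neg_neg]
  | add x y hx hy =>
    intro l
    rw [map_add, map_add, map_add]
    show (rk (d1_J p k B x)).coeff l + (rk (d1_J p k B y)).coeff l =
      ((rk x).coeff (-l) + (rk y).coeff (-l)) ^ p
    rw [hx l, hy l, add_pow_char]

theorem d1_J_zero (p : ℕ) [Fact p.Prime] (k : Type) [Field k] [CharP k p] [PerfectRing k p]
    [Algebra (ZMod p) k] (B : Type) [CommRing B] [Algebra (ZMod p) B] (r : B →+* Ls k)
    (rk : (k ⊗[ZMod p] B) →ₐ[k] Ls k) (h1 : ∀ (a : k) (b : B), rk (a ⊗ₜ b) = a • r b)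
    (h2 : ∀ (b : B) (l : ℤ), (r b).coeff (-l) = ((r b).coeff l) ^ p) (f : k ⊗[ZMod p] B) :
    rk (d1_J p k B f) = 0 ↔ rk f = 0 := by
  have hp := (Fact.out : p.Prime)
  have h := d1_J_rk p k B r rk h1 h2 f
  constructor
  · intro h0
    ext l
    have h3 := h (-l)
    rw [h0, neg_neg] at h3
    have h4 : ((rk f).coeff l) ^ p = 0 := h3.symm
    exact pow_eq_zero_iff hp.ne_zero |>.1 h4
  · intro h0
    ext l
    have h3 := h l
    rw [h0] at h3
    rw [h3]
    show (0 : k) ^ p = 0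
    rw [zero_pow hp.ne_zero]

theorem d1_span {p : ℕ} [Fact p.Prime] {k : Type} [Field k] [Algebra (ZMod p) k] {B : Type}
    [CommRing B] [Algebra (ZMod p) B] {D : Type} [CommRing D] [Algebra k D]
    (mk : (k ⊗[ZMod p] B) →ₐ[k] D) (hmk : Function.Surjective mk) (V : Submodule k D)
    (h : ∀ b : B, mk ((1 : k) ⊗ₜ b) ∈ V) (d : D) : d ∈ V := by
  obtain ⟨f, rfl⟩ := hmk d
  induction f using TensorProduct.induction_on with
  | zero =>
    rw [map_zero]
    exact V.zero_mem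
  | tmul a b =>
    have h1 : (a ⊗ₜ[ZMod p] b : k ⊗[ZMod p] B) = a • ((1 : k) ⊗ₜ[ZMod p] b) := by
      rw [TensorProduct.smul_tmul', smul_eq_mul, mul_one]
    rw [h1, map_smul]
    exact V.smul_mem _ (h b)
  | add x y hx hy =>
    rw [map_add]
    exact V.add_mem hx hy

theorem p_d1 (hrk : S_rk) (hdom : S_dom) (hbcn : S_bcn) (hex : S_ex) : S_d1 := by
  intro p m _ _ k _ _ _ _ ζ Λ _ δ n B _ _ T r x1 q hD
  obtain ⟨rk, rk1, rksurj, rkker, rknn, rkσ⟩ := hrk p m k ζ Λ δ n B T r x1 q hD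
  have hft : Algebra.FiniteType (ZMod p) B := hD.ft
  have hftR : Algebra.FiniteType k (k ⊗[ZMod p] B) := inferInstance
  have hnoeth : IsNoetherianRing (k ⊗[ZMod p] B) :=
    Algebra.FiniteType.isNoetherianRing k (k ⊗[ZMod p] B)
  have rk1' : ∀ b : B, rk ((1 : k) ⊗ₜ b) = r b := fun b => by rw [rk1, one_smul]
  have hloc : ∀ i, rk i = 0 → ∃ c, ((1 : k) ⊗ₜ[ZMod p] q) * i = ((1 : k) ⊗ₜ[ZMod p] x1) * c := by
    intro i hi
    have h1 := rkker i hi
    induction h1 using Submodule.span_induction with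
    | mem x hx =>
      obtain ⟨b, hb, rfl⟩ := hx
      obtain ⟨c, hc⟩ := hD.q_mul b hb
      refine ⟨(1 : k) ⊗ₜ[ZMod p] c, ?_⟩
      show ((1 : k) ⊗ₜ[ZMod p] q) * ((1 : k) ⊗ₜ[ZMod p] b) = _
      rw [Algebra.TensorProduct.tmul_mul_tmul, Algebra.TensorProduct.tmul_mul_tmul, hc]
    | zero => exact ⟨0, by rw [mul_zero, mul_zero]⟩
    | add x y hx hy h2 h3 =>
      have hx' : rk x = 0 := by
        clear h2 h3 hi
        induction hx using Submodule.span_induction with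
        | mem x hx =>
          obtain ⟨b, hb, rfl⟩ := hx
          show rk ((1 : k) ⊗ₜ b) = 0
          rw [rk1']; exact hb
        | zero => exact map_zero _
        | add x y _ _ h4 h5 => rw [map_add, h4, h5, add_zero]
        | smul a x _ h4 => rw [map_smul, h4, smul_zero]
      have hy' : rk y = 0 := by
        rw [map_add, hx', zero_add] at hi
        exact hi
      obtain ⟨c, hc⟩ := h2 hx'
      obtain ⟨c', hc'⟩ := h3 hy'
      exact ⟨c + c', by rw [mul_add, mul_add, hc, hc']⟩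
    | smul a x hx h2 =>
      have hx' : rk x = 0 := by
        clear h2 hi
        induction hx using Submodule.span_induction with
        | mem x hx =>
          obtain ⟨b, hb, rfl⟩ := hx
          show rk ((1 : k) ⊗ₜ b) = 0
          rw [rk1']; exact hb
        | zero => exact map_zero _
        | add x y _ _ h4 h5 => rw [map_add, h4, h5, add_zero]
        | smul a x _ h4 => rw [map_smul, h4, smul_zero]
      obtain ⟨c, hc⟩ := h2 hx'
      exact ⟨a • c, by rw [mul_smul_comm, hc, mul_smul_comm]⟩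
  obtain ⟨𝔮, hprime, h𝔮⟩ := hdom (k ⊗[ZMod p] B) (Ls k) (rk : (k ⊗[ZMod p] B) →+* Ls k)
    ((1 : k) ⊗ₜ x1) ((1 : k) ⊗ₜ q) (by
      show rk ((1 : k) ⊗ₜ x1) = 0
      rw [rk1', hD.x1_r]) (by
      show rk ((1 : k) ⊗ₜ q) ≠ 0
      rw [rk1']; exact hD.q_r) hloc rknn
  have h𝔮' : ∀ f, f ∈ 𝔮 ↔ ∃ c, rk c ≠ 0 ∧ c * f = 0 := h𝔮
  have h𝔮ker : ∀ f ∈ 𝔮, rk f = 0 := by
    intro f hf
    obtain ⟨c, hc, hcf⟩ := (h𝔮' f).1 hf
    have h1 : rk c * rk f = 0 := by rw [← map_mul, hcf, map_zero]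
    rcases mul_eq_zero.1 h1 with h2 | h2
    · exact absurd h2 hc
    · exact h2
  have hJ : 𝔮 = 𝔮.map ((d1_J p k B : (k ⊗[ZMod p] B) ≃+* (k ⊗[ZMod p] B)) :
      (k ⊗[ZMod p] B) →+* (k ⊗[ZMod p] B)) := by
    have hJ0 := d1_J_zero p k B r rk rk1 rkσ
    ext f
    have h0 : f ∈ 𝔮.map ((d1_J p k B : (k ⊗[ZMod p] B) ≃+* (k ⊗[ZMod p] B)) :
        (k ⊗[ZMod p] B) →+* (k ⊗[ZMod p] B)) ↔ ∃ x ∈ 𝔮, d1_J p k B x = f :=
      Ideal.mem_map_of_equiv (d1_J p k B) f
    rw [h0]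
    constructor
    · intro hf
      refine ⟨(d1_J p k B).symm f, ?_, RingEquiv.apply_symm_apply _ _⟩
      obtain ⟨c, hc, hcf⟩ := (h𝔮' f).1 hf
      refine (h𝔮' _).2 ⟨(d1_J p k B).symm c, ?_, ?_⟩
      · intro h1
        have h2 := (hJ0 ((d1_J p k B).symm c)).2 h1
        rw [RingEquiv.apply_symm_apply] at h2
        exact hc h2
      · rw [← map_mul, hcf, map_zero]
    · rintro ⟨g, hg, rfl⟩
      obtain ⟨c, hc, hcf⟩ := (h𝔮' g).1 hg
      refine (h𝔮' _).2 ⟨d1_J p k B c, ?_, ?_⟩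
      · intro h1
        exact hc ((hJ0 c).1 h1)
      · rw [← map_mul, hcf, map_zero]
  obtain ⟨g, hg1, hg2⟩ := ((hex m Λ δ).2.2.2.2.2.2.2.2 n hD.cls).2 0 1
  set mk : (k ⊗[ZMod p] B) →ₐ[k] ((k ⊗[ZMod p] B) ⧸ 𝔮) := Ideal.Quotient.mkₐ k 𝔮 with hmk
  have mksurj : Function.Surjective mk := Ideal.Quotient.mkₐ_surjective k 𝔮
  set ψ : B →+* ((k ⊗[ZMod p] B) ⧸ 𝔮) := (mk : (k ⊗[ZMod p] B) →+* ((k ⊗[ZMod p] B) ⧸ 𝔮)).comp
    ((Algebra.TensorProduct.includeRight : B →ₐ[ZMod p] (k ⊗[ZMod p] B)) :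
      B →+* (k ⊗[ZMod p] B)) with hψ
  have ψ1 : ∀ b, ψ b = mk ((1 : k) ⊗ₜ b) := fun b => rfl
  set res : ((k ⊗[ZMod p] B) ⧸ 𝔮) →ₐ[k] Ls k := Ideal.Quotient.liftₐ 𝔮 rk h𝔮ker with hres
  have res1 : ∀ f, res (mk f) = rk f := fun f => Ideal.Quotient.liftₐ_apply 𝔮 rk h𝔮ker _
  have resψ : ∀ b, res (ψ b) = r b := fun b => by rw [ψ1, res1, rk1']
  obtain ⟨g₀, hg₀⟩ := hD.np ![x1, T g]
  have hnp := hbcn p k B ((k ⊗[ZMod p] B) ⧸ 𝔮) ψ (by
    rw [eq_top_iff]
    intro d _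
    exact d1_span mk mksurj (Submodule.span k (Set.range ψ))
      (fun b => Submodule.subset_span ⟨b, rfl⟩) d) _ _ hg₀
  set φ : Ak k →ₐ[k] ((k ⊗[ZMod p] B) ⧸ 𝔮) := aeval (fun i => ψ ((![x1, T g] : Fin 2 → B) i)) with hφ
  have φX : ∀ i, φ (X i) = ψ ((![x1, T g] : Fin 2 → B) i) := fun i => by rw [hφ, aeval_X]
  set j : ((k ⊗[ZMod p] B) ⧸ 𝔮) ≃+* ((k ⊗[ZMod p] B) ⧸ 𝔮) := Ideal.quotientEquiv 𝔮 𝔮 (d1_J p k B) hJ
    with hj
  have j1 : ∀ f, j (mk f) = mk (d1_J p k B f) := fun f => Ideal.quotientEquiv_mk _ _ _ _ _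
  have jψ : ∀ b, j (ψ b) = ψ b := fun b => by rw [ψ1, j1, d1_J_tmul, one_pow]
  refine ⟨(k ⊗[ZMod p] B) ⧸ 𝔮, inferInstance, inferInstance, fun l => ψ (T l), φ, res, fun i => ψ (g₀ i),
    j, ?_⟩
  have hadj : ∀ b : B, ψ b ∈ Algebra.adjoin k (Set.range fun l => ψ (T l)) := by
    intro b
    have hb : b ∈ Algebra.adjoin (ZMod p) (Set.range T) := by rw [hD.adj]; trivial
    induction hb using Algebra.adjoin_induction with
    | mem x hx =>
      obtain ⟨l, rfl⟩ := hx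
      exact Algebra.subset_adjoin ⟨l, rfl⟩
    | algebraMap c =>
      have h1 : ψ (algebraMap (ZMod p) B c) = algebraMap k _ (algebraMap (ZMod p) k c) := by
        rw [ψ1, ← AlgHom.commutes mk]
        congr 1
        rw [Algebra.TensorProduct.algebraMap_apply, Algebra.algebraMap_self_apply,
          ← mul_one (algebraMap (ZMod p) B c), ← Algebra.smul_def, ← mul_one (algebraMap (ZMod p) k c),
          ← Algebra.smul_def, TensorProduct.smul_tmul]
      rw [h1]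
      exact Subalgebra.algebraMap_mem _ _
    | add x y _ _ hx hy => rw [map_add]; exact Subalgebra.add_mem _ hx hy
    | mul x y _ _ hx hy => rw [map_mul]; exact Subalgebra.mul_mem _ hx hy
  have hbd : BD p k ((k ⊗[ZMod p] B) ⧸ 𝔮) φ res (fun i => ψ (g₀ i)) := by
    refine ⟨hD.hp, ?_, ?_, ?_, ?_, ?_, ?_, ?_⟩
    · have := hprime
      exact Ideal.Quotient.isDomain 𝔮
    · exact Algebra.FiniteType.of_surjective mk mksurj
    · intro a
      have h1 : res.comp φ = resA k := by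
        refine MvPolynomial.algHom_ext fun i => ?_
        rw [AlgHom.comp_apply, φX, resψ, resA, aeval_X]
        fin_cases i
        · exact hD.x1_r
        · show r (T g) = rr 1 1
          have hev : ev m δ g = 0 := by
            rw [ev, hg1]
            show ((((0 : ℕ) : ZMod (2 * m)))).val = 0
            rw [Nat.cast_zero, ZMod.val_zero]
          rw [hD.r_T, hg2, hev, pow_zero]
          rfl
      exact DFunLike.congr_fun h1 a
    · intro f
      obtain ⟨f', hf'⟩ := rksurj f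
      exact ⟨mk f', by rw [res1, hf']⟩
    · rw [φX]
      show ψ x1 ≠ 0
      intro h1
      rw [ψ1] at h1
      have h2 : ((1 : k) ⊗ₜ[ZMod p] x1) ∈ 𝔮 := Ideal.Quotient.eq_zero_iff_mem.1 h1
      obtain ⟨c, hc, hcf⟩ := (h𝔮' _).1 h2
      exact hc (rknn c 1 (by rw [pow_one]; exact hcf))
    · refine ⟨ψ q, by rw [resψ]; exact hD.q_r, fun b hb => ?_⟩
      obtain ⟨i, rfl⟩ := mksurj b
      rw [res1] at hb
      obtain ⟨c, hc⟩ := hloc i hb
      refine ⟨mk c, ?_⟩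
      rw [φX]
      show ψ q * mk i = ψ x1 * mk c
      rw [ψ1, ψ1, ← map_mul, ← map_mul, hc]
    · have h1 : (fun i => φ (X i)) = fun i => ψ ((![x1, T g] : Fin 2 → B) i) := funext φX
      rw [h1]
      exact hnp
  refine ⟨hD.hm, hD.hpm, hD.hζ, hD.cls, ?_, ?_, ?_, hbd, ?_, ?_, ?_, ?_, ?_⟩
  · refine ⟨?_, fun a b => ?_, fun a b => ?_⟩
    · show ψ (T 1) = 2
      rw [hD.pc.one, map_ofNat]
    · show ψ (T (a * b)) = ψ (T (b * a))
      rw [hD.pc.comm]
    · show ψ (T (a * b)) + ψ (T (a * b⁻¹)) = ψ (T a) * ψ (T b)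
      rw [← map_add, hD.pc.rel, map_mul]
  · show ψ (T (cc m δ)) = -2
    rw [hD.tc, map_neg, map_ofNat]
  · rw [eq_top_iff]
    intro d _
    exact d1_span mk mksurj
      (Subalgebra.toSubmodule (Algebra.adjoin k (Set.range fun l => ψ (T l)))) hadj d
  · intro l
    show res (ψ (T l)) = _
    rw [resψ, hD.r_T]
  · intro c
    rw [← AlgHom.commutes mk, j1, ← AlgHom.commutes mk]
    exact congrArg mk (d1_J_tmul p k B c 1)
  · intro l
    exact jψ _
  · intro i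
    rw [φX, jψ]
  · intro d l
    obtain ⟨f, rfl⟩ := mksurj d
    rw [j1, res1, res1]
    exact d1_J_rk p k B r rk rk1 rkσ f l

end

end Pool.Agent.CZA
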