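import Pool.Agent.Lib.MP_305fdd_al.CZ.A.StmL

/-!
# MP_305fdd_al (`C_m * Z`), part A: piece [CL dom]
-/

set_option autoImplicit false

namespace Pool.Agent.CZA

private theorem dom_claim {R S : Type} [CommRing R] [IsNoetherianRing R] [CommRing S] [IsDomain S]
    (ρ : R →+* S) (x1 q : R) (hx : ρ x1 = 0) (hq : ρ q ≠ 0)
    (hI : ∀ i, ρ i = 0 → ∃ c, q * i = x1 * c) (f : R) (hf : ¬ ∃ c, ρ c ≠ 0 ∧ c * f = 0) :
    ∃ (n : ℕ) (c f' : R), ρ c ≠ 0 ∧ ρ f' ≠ 0 ∧ c * f = x1 ^ n * f' := by
  have hprime : (RingHom.ker ρ).IsPrime := RingHom.ker_isPrime ρ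
  have hmemI : ∀ a : R, a ∈ RingHom.ker ρ ↔ ρ a = 0 := fun a => RingHom.mem_ker
  have hcompl : ∀ a : R, a ∈ (RingHom.ker ρ).primeCompl ↔ ρ a ≠ 0 := fun a => by
    rw [Ideal.mem_primeCompl_iff, hmemI]
  let L := Localization.AtPrime (RingHom.ker ρ)
  have hJ : Ideal.span {algebraMap R L x1} ≠ ⊤ := by
    intro h
    have h1 : IsUnit (algebraMap R L x1) := Ideal.span_singleton_eq_top.1 h
    rw [IsLocalization.AtPrime.isUnit_to_map_iff L (RingHom.ker ρ), hcompl] at h1
    exact h1 hx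
  have hkr := Ideal.iInf_pow_eq_bot_of_isLocalRing (Ideal.span {algebraMap R L x1}) hJ
  have hfne : algebraMap R L f ≠ 0 := by
    intro h
    rw [IsLocalization.map_eq_zero_iff (RingHom.ker ρ).primeCompl L] at h
    obtain ⟨⟨c, hc⟩, h⟩ := h
    exact hf ⟨c, (hcompl c).1 hc, h⟩
  have hex : ∃ n, algebraMap R L f ∉ Ideal.span {algebraMap R L x1} ^ n := by
    by_contra hcon
    push Not at hcon
    apply hfne
    have : algebraMap R L f ∈ (⨅ i : ℕ, Ideal.span {algebraMap R L x1} ^ i : Ideal L) := by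
      rw [Ideal.mem_iInf]
      exact hcon
    rw [hkr] at this
    exact this
  classical
  obtain ⟨k, hk, hk'⟩ : ∃ k, algebraMap R L f ∈ Ideal.span {algebraMap R L x1} ^ k ∧
      algebraMap R L f ∉ Ideal.span {algebraMap R L x1} ^ (k + 1) := by
    have h0 : Nat.find hex ≠ 0 := by
      intro h
      have := Nat.find_spec hex
      rw [h, pow_zero, Ideal.one_eq_top] at this
      exact this trivial
    obtain ⟨k, hk⟩ := Nat.exists_eq_succ_of_ne_zero h0
    refine ⟨k, ?_, ?_⟩
    · have := Nat.find_min hex (m := k) (by omega)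
      exact not_not.1 this
    · have := Nat.find_spec hex
      rw [hk] at this
      exact this
  rw [Ideal.span_singleton_pow, Ideal.mem_span_singleton] at hk hk'
  obtain ⟨z, hz⟩ := hk
  obtain ⟨g, s, hgs⟩ := IsLocalization.exists_mk'_eq (RingHom.ker ρ).primeCompl z
  have hg : ρ g ≠ 0 := by
    intro hg
    obtain ⟨c, hc⟩ := hI g hg
    apply hk'
    have hqu : IsUnit (algebraMap R L q) := by
      rw [IsLocalization.AtPrime.isUnit_to_map_iff L (RingHom.ker ρ), hcompl]
      exact hq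
    have h1 : algebraMap R L x1 ∣ z := by
      have h2 : algebraMap R L x1 ∣ algebraMap R L q * z := by
        rw [← hgs, ← IsLocalization.mk'_one (M := (RingHom.ker ρ).primeCompl) L q,
          ← IsLocalization.mk'_mul, one_mul, hc, ← one_mul s, IsLocalization.mk'_mul,
          IsLocalization.mk'_one]
        exact dvd_mul_right _ _
      exact (hqu.dvd_mul_left).1 h2
    rw [hz, pow_succ]
    exact mul_dvd_mul_left _ h1
  have hz' : algebraMap R L (s * f) = algebraMap R L (x1 ^ k * g) := by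
    rw [map_mul, map_mul, hz, ← hgs, map_pow, mul_left_comm, IsLocalization.mk'_spec']
  rw [IsLocalization.eq_iff_exists (RingHom.ker ρ).primeCompl L] at hz'
  obtain ⟨⟨c, hc⟩, hcc⟩ := hz'
  refine ⟨k, c * s, c * g, ?_, ?_, ?_⟩
  · rw [map_mul]
    exact mul_ne_zero ((hcompl c).1 hc) ((hcompl s).1 s.2)
  · rw [map_mul]
    exact mul_ne_zero ((hcompl c).1 hc) hg
  · have : c * (s * f) = c * (x1 ^ k * g) := hcc
    rw [mul_assoc, this]
    ring

theorem p_dom : S_dom := by
  intro R S _ _ _ _ ρ x1 q hx hq hI hnil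
  refine ⟨{ carrier := {f | ∃ c, ρ c ≠ 0 ∧ c * f = 0}
            add_mem' := ?_
            zero_mem' := ⟨1, by simp, by simp⟩
            smul_mem' := ?_ }, ?_, fun f => Iff.rfl⟩
  · rintro a b ⟨c, hc, h⟩ ⟨d, hd, h'⟩
    refine ⟨c * d, by rw [map_mul]; exact mul_ne_zero hc hd, ?_⟩
    calc c * d * (a + b) = d * (c * a) + c * (d * b) := by ring
      _ = 0 := by rw [h, h']; ring
  · rintro a b ⟨c, hc, h⟩
    refine ⟨c, hc, ?_⟩
    calc c * (a • b) = a * (c * b) := by rw [smul_eq_mul]; ring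
      _ = 0 := by rw [h, mul_zero]
  · refine ⟨?_, ?_⟩
    · rw [Ne, Ideal.eq_top_iff_one]
      rintro ⟨c, hc, h⟩
      rw [mul_one] at h
      rw [h, map_zero] at hc
      exact hc rfl
    · rintro f g ⟨c, hc, h⟩
      by_contra hcon
      rw [not_or] at hcon
      obtain ⟨hf, hg⟩ := hcon
      obtain ⟨n, c1, f', hc1, hf', e1⟩ := dom_claim ρ x1 q hx hq hI f hf
      obtain ⟨n', c2, g', hc2, hg', e2⟩ := dom_claim ρ x1 q hx hq hI g hg
      have h3 : c * f' * g' * x1 ^ (n + n') = 0 := by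
        calc c * f' * g' * x1 ^ (n + n') = c * (x1 ^ n * f') * (x1 ^ n' * g') := by
              rw [pow_add]; ring
          _ = c1 * c2 * (c * (f * g)) := by rw [← e1, ← e2]; ring
          _ = 0 := by rw [h, mul_zero]
      have h4 := hnil _ _ h3
      rw [map_mul, map_mul] at h4
      exact mul_ne_zero (mul_ne_zero hc hf') hg' h4

end Pool.Agent.CZA
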