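import Pool.Agent.Lib.MP_305fdd_al.CZ.A.StmL

/-!
# MP_305fdd_al (`C_m * Z`): piece [CL e0], the idempotent vanishes on the reducible locus
-/

set_option autoImplicit false

namespace Pool.Agent.CZA

open MvPolynomial Pool.Agent.Lib.MP_305fdd_al Pool.Agent.MP_305fdd_al Pool.Agent.CZ
open Pool.Agent.F2 (PC Corr Fr gx gy rt)
open Pool.Agent.F2TF (Pol fpow)
open Pool.Agent.CC (IsTR)

private theorem e0_aug {k : Type} [Field k] (z : kˣ) (n : ℤ) :
    aug k (rr z n) = ((z⁻¹ : kˣ) : k) + (z : k) := by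
  have h : ∀ (n : ℤ) (c : k), aug k (AddMonoidAlgebra.single n c) = c := by
    intro n c
    show AddMonoidAlgebra.lift k k ℤ (1 : Multiplicative ℤ →* k) (AddMonoidAlgebra.single n c) = c
    rw [AddMonoidAlgebra.lift_single]
    simp
  rw [rr, map_add, h, h]

private theorem e0_mem {A A' : Type} [CommRing A] [CommRing A'] (J : Ideal (A × A')) (a : A × A')
    (h1 : a ∈ J ⊔ Ideal.span {((0 : A), (1 : A'))}) (h2 : a ∈ J ⊔ Ideal.span {((1 : A), (0 : A'))}) :
    a ∈ J := by
  obtain ⟨u, hu, v, hv, huv⟩ := Submodule.mem_sup.mp h1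
  obtain ⟨c, hc⟩ := Ideal.mem_span_singleton'.mp hv
  obtain ⟨u', hu', v', hv', huv'⟩ := Submodule.mem_sup.mp h2
  obtain ⟨c', hc'⟩ := Ideal.mem_span_singleton'.mp hv'
  have e1 : ((1 : A), (0 : A')) * a = ((1 : A), (0 : A')) * u := by
    rw [← huv, ← hc]
    ext <;> simp
  have e2 : ((0 : A), (1 : A')) * a = ((0 : A), (1 : A')) * u' := by
    rw [← huv', ← hc']
    ext <;> simp
  have e3 : a = ((1 : A), (0 : A')) * u + ((0 : A), (1 : A')) * u' := by
    rw [← e1, ← e2]
    ext <;> simp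
  rw [e3]
  exact J.add_mem (J.mul_mem_left _ hu) (J.mul_mem_left _ hu')

private theorem e0_fin {A : Type} [CommRing A] {I J : Ideal A} (h : I ≤ J) [Finite (A ⧸ I)] :
    Finite (A ⧸ J) :=
  Finite.of_surjective _ (Ideal.Quotient.factor_surjective h)

theorem p_e0 (hsc : S_sc) (hex : S_ex) (hneg : S_neg) : S_e0 := by
  intro p m _ _ x Λ _ δ n B _ _ TB TA evv Φ Ψ hC e he k _ _ ζ hζ hx r hr
  by_cases hm : m % 2 = 1
  · obtain ⟨hpc, htc⟩ := hneg.2 p m Λ δ n
    obtain ⟨κ, hκ⟩ := hC.upB.univ (Polynomial (ZMod p)) (Tsc p m δ n) hpc (htc hm)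
    obtain ⟨-, hJ⟩ := hsc p m x Λ δ n B TB TA evv Φ Ψ hC hm κ hκ
    obtain ⟨-, -, -, -, -, -, -, -, hcl⟩ := hex m Λ δ
    obtain ⟨g, hg2, hgn⟩ := (hcl n hC.cls).2 1 0
    have h2m := hC.hm
    have hev : ev m δ g = 1 := by
      unfold ev
      rw [hg2, toAdd_ofAdd]
      haveI : Fact (1 < 2 * m) := ⟨by omega⟩
      rw [Nat.cast_one, ZMod.val_one]
    have hκg : κ (TB g + 2) = 0 := by
      rw [map_add, hκ, map_ofNat, Tsc, hev, hgn, toAdd_ofAdd, Polynomial.Chebyshev.C_zero]
      ring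
    have hcl0 : e * (TB g + 2) = 0 := by
      apply hC.tr.sep
      intro J
      haveI := J.2
      obtain ⟨a, ha⟩ := Ideal.Quotient.mk_surjective (evv J (e * (TB g + 2)))
      let Ja : {J : Ideal (AG p m) // Finite (AG p m ⧸ J)} :=
        ⟨J.1 ⊔ Ideal.span {((0 : A2 p m), (1 : A1 p m))}, e0_fin le_sup_left⟩
      let Jb : {J : Ideal (AG p m) // Finite (AG p m ⧸ J)} :=
        ⟨J.1 ⊔ Ideal.span {((1 : A2 p m), (0 : A1 p m))}, e0_fin le_sup_left⟩
      have h1 : evv Ja (e * (TB g + 2)) = 0 := by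
        rw [map_mul, (he Ja).mpr (Ideal.mem_sup_right (Ideal.mem_span_singleton_self _)), zero_mul]
      have h2 : evv Jb (e * (TB g + 2)) = 0 := by
        have : (TB g + 2) ∈ RingHom.ker (evv Jb) :=
          (hJ Jb).mp (Ideal.mem_sup_right (Ideal.mem_span_singleton_self _))
            (by rw [RingHom.mem_ker]; exact hκg)
        rw [RingHom.mem_ker] at this
        rw [map_mul, this, mul_zero]
      rw [← hC.tr.compat J Ja le_sup_left, ← ha] at h1
      rw [← hC.tr.compat J Jb le_sup_left, ← ha] at h2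
      rw [Ideal.Quotient.factor_mk, Ideal.Quotient.eq_zero_iff_mem] at h1 h2
      rw [← ha, Ideal.Quotient.eq_zero_iff_mem]
      exact e0_mem J.1 a h1 h2
    have h3 : r e * (r (TB g) + 2) = 0 := by
      have := congrArg r hcl0
      rwa [map_mul, map_add, map_ofNat, map_zero] at this
    rcases mul_eq_zero.mp h3 with h | h
    · exact h
    · exfalso
      have h4 := congrArg (aug k) h
      rw [map_add, map_ofNat, map_zero, hr, hev, e0_aug, pow_one] at h4
      have h5 : x 1 = x m := by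
        apply (ZMod.castHom (dvd_refl p) k).injective
        rw [hx 1, hC.wj.top, map_neg, map_ofNat, pow_one, pow_one]
        linear_combination h4
      have := hC.wj.ne 1 m (by omega) le_rfl h5
      omega
  · have h0 : e = 0 := hC.tr.sep e fun J => by
      rw [he J]
      have : ((0 : A2 p m), (1 : A1 p m)) = 0 := Prod.ext rfl (funext fun s => (hm s.2).elim)
      rw [this]
      exact J.1.zero_mem
    rw [h0, map_zero]

end Pool.Agent.CZA
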