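import Pool.Agent.Lib.MP_305fdd_al.CZ.A.StmL

/-!
# MP_305fdd_al (`C_m * Z`): piece [CL fix], vectors fixed by a semilinear map
-/

set_option autoImplicit false

namespace Pool.Agent.CZA

open MvPolynomial Pool.Agent.Lib.MP_305fdd_al Pool.Agent.MP_305fdd_al Pool.Agent.CZ

private theorem fix_prime {p : ℕ} [hp : Fact p.Prime] {k : Type} [Field k] [CharP k p] (c : k)
    (hc : c ^ p = c) : ∃ a : ZMod p, ZMod.castHom (dvd_refl p) k a = c := by
  have h1 : c ∈ (⊥ : Subfield k) := (Subfield.mem_bot_iff_pow_eq_self k p).mpr hc
  obtain ⟨n, hn⟩ := (mem_bot_iff_intCast p k).mp h1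
  refine ⟨(n : ZMod p), ?_⟩
  rw [map_intCast]
  exact hn

theorem p_fix : S_fix := by
  intro p _ k _ _ V _ _ σ hσ ι f hf hind
  classical
  rw [linearIndependent_iff]
  have key : ∀ (N : ℕ) (s : ι →₀ k), s.support.card = N →
      (s.sum fun i a => a • f i) = 0 → s = 0 := by
    intro N
    induction N using Nat.strong_induction_on with
    | _ N ih =>
      intro s hs h0
      by_contra hne
      obtain ⟨j, hj⟩ := Finsupp.support_nonempty_iff.mpr hne
      have hsj : s j ≠ 0 := Finsupp.mem_support_iff.mp hj
      set t : ι →₀ k := (s j)⁻¹ • s with ht
      have htj : t j = 1 := by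
        rw [ht, Finsupp.smul_apply, smul_eq_mul, inv_mul_cancel₀ hsj]
      have htsup : t.support ⊆ s.support := Finsupp.support_smul
      have ht0 : ∑ i ∈ s.support, t i • f i = 0 := by
        have : ∑ i ∈ s.support, t i • f i = (s j)⁻¹ • ∑ i ∈ s.support, s i • f i := by
          rw [Finset.smul_sum]
          refine Finset.sum_congr rfl fun i _ => ?_
          rw [ht, Finsupp.smul_apply, smul_smul, smul_eq_mul]
        rw [this]
        have h0' : ∑ i ∈ s.support, s i • f i = 0 := h0
        rw [h0', smul_zero]
      have htp : ∑ i ∈ s.support, (t i) ^ p • f i = 0 := by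
        have := congrArg σ ht0
        rw [map_sum, map_zero] at this
        rw [← this]
        refine Finset.sum_congr rfl fun i _ => ?_
        rw [hσ, hf]
      have hp0 : (0 : k) ^ p = 0 := zero_pow (Fact.out : p.Prime).ne_zero
      set u : ι →₀ k := Finsupp.onFinset s.support (fun i => t i ^ p - t i) (by
        intro i hi
        by_contra hcon
        apply hi
        have : t i = 0 := by
          by_contra hti
          exact hcon (htsup (Finsupp.mem_support_iff.mpr hti))
        show t i ^ p - t i = 0
        rw [this, hp0, sub_zero]) with hu
      have hui : ∀ i, u i = t i ^ p - t i := fun i => rfl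
      have husup : u.support ⊆ s.support.erase j := by
        intro i hi
        rw [Finset.mem_erase]
        refine ⟨?_, Finsupp.support_onFinset_subset hi⟩
        rintro rfl
        apply Finsupp.mem_support_iff.mp hi
        rw [hui, htj, one_pow, sub_self]
      have hucard : u.support.card < N := by
        rw [← hs]
        exact lt_of_le_of_lt (Finset.card_le_card husup) (Finset.card_erase_lt_of_mem hj)
      have husum : (u.sum fun i a => a • f i) = 0 := by
        refine (Finsupp.sum_of_support_subset u (husup.trans (Finset.erase_subset _ _))
          (fun i a => a • f i) (fun i _ => zero_smul _ _)).trans ?_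
        have : ∑ i ∈ s.support, u i • f i =
            ∑ i ∈ s.support, (t i) ^ p • f i - ∑ i ∈ s.support, t i • f i := by
          rw [← Finset.sum_sub_distrib]
          refine Finset.sum_congr rfl fun i _ => ?_
          rw [hui, sub_smul]
        rw [this, htp, ht0, sub_zero]
      have hu0 : u = 0 := ih _ hucard u rfl husum
      have hfix : ∀ i, t i ^ p = t i := by
        intro i
        have := hui i
        rw [hu0, Finsupp.zero_apply] at this
        exact (sub_eq_zero.mp this.symm)
      choose g hg using fun i => fix_prime (t i) (hfix i)
      have hginj : Function.Injective (ZMod.castHom (dvd_refl p) k) :=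
        (ZMod.castHom (dvd_refl p) k).injective
      set s' : ι →₀ ZMod p := Finsupp.onFinset s.support g (by
        intro i hi
        by_contra hcon
        apply hi
        have : t i = 0 := by
          by_contra hti
          exact hcon (htsup (Finsupp.mem_support_iff.mpr hti))
        apply hginj
        rw [hg, this, map_zero]) with hs'
      have hs'0 : s' = 0 := by
        apply hind
        refine (Finsupp.sum_of_support_subset s' Finsupp.support_onFinset_subset
          (fun i a => ZMod.castHom (dvd_refl p) k a • f i)
          (fun i _ => by rw [map_zero, zero_smul])).trans ?_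
        rw [← ht0]
        refine Finset.sum_congr rfl fun i _ => ?_
        show ZMod.castHom (dvd_refl p) k (g i) • f i = _
        rw [hg]
      have : t j = 0 := by
        rw [← hg j]
        have : g j = s' j := rfl
        rw [this, hs'0, Finsupp.zero_apply, map_zero]
      rw [this] at htj
      exact zero_ne_one htj
  intro s hs
  exact key _ s rfl (by rw [← hs]; rfl)

end Pool.Agent.CZA
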