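import Pool.Agent.Lib.MP_305fdd_al.CZ.A.StmL

/-!
# MP_305fdd_al (`C_m * Z`), part A: piece [CL nn], the parameter `x1` is not nilpotent
-/

set_option autoImplicit false

namespace Pool.Agent.CZA

open MvPolynomial Pool.Agent.Lib.MP_305fdd_al Pool.Agent.MP_305fdd_al Pool.Agent.CZ
open Pool.Agent.F2TF (Pol fpow)

section Laurent

variable {k : Type} [Field k]

private theorem nn_aug_single (n : ℤ) (c : k) : aug k (AddMonoidAlgebra.single n c) = c := by
  unfold aug
  show AddMonoidAlgebra.lift k k ℤ (1 : Multiplicative ℤ →* k) (AddMonoidAlgebra.single n c) = c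
  rw [AddMonoidAlgebra.lift_single]
  simp

/-- `s - 1` -/
private noncomputable def nn_s (k : Type) [Field k] : Ls k := AddMonoidAlgebra.single 1 1 - 1

private theorem nn_dvd_nat (n : ℕ) :
    nn_s k ∣ (AddMonoidAlgebra.single (n : ℤ) 1 : Ls k) - 1 := by
  have h : (AddMonoidAlgebra.single (n : ℤ) 1 : Ls k) = (AddMonoidAlgebra.single 1 1 : Ls k) ^ n := by
    rw [AddMonoidAlgebra.single_pow]
    simp
  rw [h]
  have := sub_dvd_pow_sub_pow (AddMonoidAlgebra.single 1 1 : Ls k) 1 n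
  rwa [one_pow] at this

private theorem nn_dvd_int (n : ℤ) :
    nn_s k ∣ (AddMonoidAlgebra.single n 1 : Ls k) - 1 := by
  rcases Int.eq_nat_or_neg n with ⟨m, rfl | rfl⟩
  · exact nn_dvd_nat m
  · have h : (AddMonoidAlgebra.single (-(m : ℤ)) 1 : Ls k) - 1 =
        -(AddMonoidAlgebra.single (-(m : ℤ)) 1 : Ls k) *
          ((AddMonoidAlgebra.single (m : ℤ) 1 : Ls k) - 1) := by
      rw [mul_sub, neg_mul, AddMonoidAlgebra.single_mul_single, mul_one]
      simp only [neg_add_cancel, mul_one]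
      rw [← AddMonoidAlgebra.one_def]
      ring
    rw [h]
    exact (nn_dvd_nat m).mul_left _

private theorem nn_dvd_sub (f : Ls k) :
    nn_s k ∣ f - AddMonoidAlgebra.single 0 (aug k f) := by
  induction f using AddMonoidAlgebra.induction_linear with
  | zero => simp
  | add f g hf hg =>
    have h : f + g - AddMonoidAlgebra.single 0 (aug k (f + g)) =
        (f - AddMonoidAlgebra.single 0 (aug k f)) + (g - AddMonoidAlgebra.single 0 (aug k g)) := by
      rw [map_add, AddMonoidAlgebra.single_add]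
      ring
    rw [h]
    exact dvd_add hf hg
  | single n c =>
    have h : (AddMonoidAlgebra.single n c : Ls k) -
        AddMonoidAlgebra.single 0 (aug k (AddMonoidAlgebra.single n c)) =
        AddMonoidAlgebra.single 0 c * ((AddMonoidAlgebra.single n 1 : Ls k) - 1) := by
      rw [nn_aug_single, mul_sub, AddMonoidAlgebra.single_mul_single, mul_one, zero_add, mul_one]
    rw [h]
    exact (nn_dvd_int n).mul_left _

private theorem nn_aug_s : aug k (nn_s k) = 0 := by
  unfold nn_s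
  rw [map_sub, nn_aug_single, map_one, sub_self]

private theorem nn_dvd_iff (f : Ls k) : nn_s k ∣ f ↔ aug k f = 0 := by
  constructor
  · rintro ⟨g, rfl⟩
    rw [map_mul, nn_aug_s, zero_mul]
  · intro h
    have := nn_dvd_sub f
    rwa [h, AddMonoidAlgebra.single_zero, sub_zero] at this

private theorem nn_s_ne : nn_s k ≠ 0 := by
  intro h
  have h1 := congrArg (fun f : Ls k => AddMonoidAlgebra.coeff f 1) h
  unfold nn_s at h1
  simp only [AddMonoidAlgebra.coeff_sub, Finsupp.sub_apply, AddMonoidAlgebra.coeff_single,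
    AddMonoidAlgebra.one_def, Finsupp.single_apply, AddMonoidAlgebra.coeff_zero,
    Finsupp.coe_zero, Pi.zero_apply] at h1
  norm_num at h1

private theorem nn_prime : Prime (nn_s k) := by
  refine ⟨nn_s_ne, ?_, ?_⟩
  · intro h
    have := h.map (aug k)
    rw [nn_aug_s] at this
    exact not_isUnit_zero this
  · intro a b h
    rw [nn_dvd_iff, map_mul] at h
    rw [nn_dvd_iff, nn_dvd_iff]
    exact mul_eq_zero.1 h

private theorem nn_fin {f : Ls k} (hf : f ≠ 0) : ∃ n : ℕ, ¬ nn_s k ^ n ∣ f := by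
  have : IsNoetherianRing (Ls k) := Algebra.FiniteType.isNoetherianRing k (Ls k)
  obtain ⟨n, hn⟩ := FiniteMultiplicity.of_not_isUnit (nn_prime (k := k)).not_isUnit hf
  exact ⟨n + 1, hn⟩

end Laurent

private theorem nn_card {B : Type} [CommRing B] {I J : Ideal B} (h : I ≤ J)
    (hI : Finite (B ⧸ I)) : Finite (B ⧸ J) ∧ Nat.card (B ⧸ J) ≤ Nat.card (B ⧸ I) := by
  have hs : Function.Surjective (Ideal.Quotient.factor h) := Ideal.Quotient.factor_surjective h
  exact ⟨Finite.of_surjective _ hs, Nat.card_le_card_of_surjective _ hs⟩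

theorem p_nn (hcn : S_cn) (hq : S_q) : S_nn := by
  intro p _ k _ _ B _ _ _ r φM x1 y haug hx1 hy hv hM2 hcnt b j hbj
  obtain ⟨v, hv1, hv2⟩ := hv
  have hp : p.Prime := Fact.out
  have hcast : Function.Injective (ZMod.castHom (dvd_refl p) k) := RingHom.injective _
  -- the ideal `M`
  set M : Ideal B := RingHom.ker φM with hMdef
  have hMmem : ∀ f : B, f ∈ M ↔ φM f = 0 := fun f => RingHom.mem_ker
  have hMaug : ∀ f : B, f ∈ M ↔ aug k (r f) = 0 := by
    intro f
    rw [hMmem, haug, map_eq_zero_iff _ hcast]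
  have hsurj : Function.Surjective φM := ZMod.ringHom_surjective φM
  have hMmax : M.IsMaximal := RingHom.ker_isMaximal_of_surjective φM hsurj
  have hcardM : Nat.card (B ⧸ M) = p := by
    rw [Nat.card_congr (RingHom.quotientKerEquivOfSurjective hsurj).toEquiv, Nat.card_zmod]
  have hkr : RingHom.ker r ≤ M := by
    intro f hf
    rw [hMaug, RingHom.mem_ker.1 hf, map_zero]
  have hx1M : x1 ∈ M := hkr (RingHom.mem_ker.2 hx1)
  have hyM : y ∈ M := (hMmem y).2 hy
  have hv0 : v ≠ 0 := by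
    rintro rfl
    exact hv2 (map_zero _)
  have hry : r y ≠ 0 := by
    rw [hv1]
    exact mul_ne_zero (nn_s_ne (k := k)) hv0
  obtain ⟨⟨e, he1, he2⟩, -⟩ := hq B (Ls k) r M x1 y hkr hx1 hyM hry (fun f hf => hM2 f ((hMmem f).1 hf))
  have heM : e ∉ M := by
    intro h
    have h1 : (1 : B) ∈ M := by
      have := M.sub_mem h he1
      rwa [sub_sub_cancel] at this
    exact hMmax.ne_top (M.eq_top_iff_one.2 h1)
  -- step (A)
  have hA : ∀ t : ℕ, ∀ b' : B, ¬ nn_s k ^ t ∣ r b' →
      ∃ (t' : ℕ) (c : B), c ∉ M ∧ c * y ^ t' ∈ Ideal.span {b', x1} := by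
    intro t
    induction t with
    | zero =>
      intro b' h
      exact absurd (one_dvd _) (by rwa [pow_zero] at h)
    | succ t ih =>
      intro b' h
      by_cases hb' : b' ∈ M
      · obtain ⟨α, β, hαβ⟩ := Ideal.mem_span_pair.1 (he2 b' hb')
        have h1 : r e * r b' = r β * ((AddMonoidAlgebra.single 1 1 - 1) * v) := by
          rw [← map_mul, ← hαβ, map_add, map_mul, map_mul, hx1, mul_zero, zero_add, hv1]
        have h2 : ¬ nn_s k ^ t ∣ r β := by
          rintro ⟨w, hw⟩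
          apply h
          have hne : ¬ nn_s k ∣ r e := by
            rw [nn_dvd_iff, ← hMaug]; exact heM
          apply nn_prime.pow_dvd_of_dvd_mul_left (t + 1) hne
          rw [h1, hw]
          refine ⟨w * v, ?_⟩
          unfold nn_s
          ring
        obtain ⟨t', c, hc, hct⟩ := ih β h2
        refine ⟨t' + 1, c, hc, ?_⟩
        obtain ⟨α', β', h3⟩ := Ideal.mem_span_pair.1 hct
        rw [Ideal.mem_span_pair]
        -- c y^t' = α' β + β' x1, β y = e b' - α x1
        refine ⟨α' * e, β' * y - α' * α, ?_⟩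
        rw [pow_succ, ← mul_assoc, ← h3]
        linear_combination (-α') * hαβ
      · exact ⟨0, b', hb', by
          rw [pow_zero, mul_one]
          exact Ideal.subset_span (by simp)⟩
  -- step (B)
  by_contra hrb
  obtain ⟨t0, ht0⟩ := nn_fin hrb
  obtain ⟨t, c, hc, hct⟩ := hA t0 b ht0
  have hmain : ∀ n : ℕ, p ^ n ≤ t + j := by
    intro n
    obtain ⟨hfin, hcard⟩ := hcnt n
    set q : ℕ := p ^ n with hqdef
    have hq0 : 0 < q := pow_pos hp.pos n
    set 𝔣 : Ideal B := fpow q M with h𝔣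
    have hpowmem : ∀ f ∈ M, f ^ q ∈ 𝔣 := fun f hf => Ideal.subset_span ⟨f, hf, rfl⟩
    have h𝔣M : 𝔣 ≤ M := by
      rw [h𝔣]
      unfold fpow
      rw [Ideal.span_le]
      rintro _ ⟨f, hf, rfl⟩
      exact Ideal.pow_mem_of_mem _ hf _ hq0
    have hunit : ∀ d : B, d ∉ M → ∃ d', d' * d - 1 ∈ 𝔣 := by
      intro d hd
      have htop : Ideal.span {d} ⊔ 𝔣 = ⊤ := by
        by_contra hne
        obtain ⟨𝔪, hmax, hle⟩ := Ideal.exists_le_maximal _ hne
        have h1 : M ≤ 𝔪 := by
          intro f hf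
          have : f ^ q ∈ 𝔪 := hle (Ideal.mem_sup_right (hpowmem f hf))
          exact hmax.isPrime.mem_of_pow_mem _ this
        have h2 : M = 𝔪 := hMmax.eq_of_le hmax.ne_top h1
        apply hd
        rw [h2]
        exact hle (Ideal.mem_sup_left (Ideal.mem_span_singleton_self d))
      have h1 : (1 : B) ∈ Ideal.span {d} ⊔ 𝔣 := by rw [htop]; trivial
      obtain ⟨u, hu, w, hw, huw⟩ := Submodule.mem_sup.1 h1
      obtain ⟨d', rfl⟩ := Ideal.mem_span_singleton'.1 hu
      refine ⟨d', ?_⟩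
      have : d' * d - 1 = -w := by rw [← huw]; ring
      rw [this]
      exact 𝔣.neg_mem hw
    have hMle : M ≤ Ideal.span {x1, y} ⊔ 𝔣 := by
      intro f hf
      obtain ⟨e', he'⟩ := hunit e heM
      have h1 : f = e' * (e * f) + (-(e' * e - 1)) * f := by ring
      rw [h1]
      exact Ideal.add_mem _ (Ideal.mem_sup_left (Ideal.mul_mem_left _ _ (he2 f hf)))
        (Ideal.mem_sup_right (Ideal.mul_mem_right _ _ (𝔣.neg_mem he')))
    have hMfin : Finite (B ⧸ M) := (nn_card h𝔣M hfin).1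
    -- `|B / ((x1) + 𝔣)| ≤ p ^ q`
    have hfa : Finite (B ⧸ (Ideal.span {x1} ⊔ 𝔣)) := (nn_card le_sup_right hfin).1
    have hca : Nat.card (B ⧸ (Ideal.span {x1} ⊔ 𝔣)) ≤ p ^ q := by
      have h1 := (hcn B (Ideal.span {x1} ⊔ 𝔣) hfa).1 y q (Ideal.mem_sup_right (hpowmem y hyM))
      have h2 : M ≤ Ideal.span {y} ⊔ (Ideal.span {x1} ⊔ 𝔣) := by
        refine hMle.trans ?_
        rw [← sup_assoc, ← Ideal.span_union]
        apply sup_le_sup_right
        apply Ideal.span_mono
        rintro z (rfl | rfl)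
        · exact Or.inr rfl
        · exact Or.inl rfl
      have h3 := (nn_card h2 hMfin).2
      rw [hcardM] at h3
      exact h1.trans (Nat.pow_le_pow_left h3 q)
    -- `|B / ((b, x1) + 𝔣)| ≤ p ^ t`
    have hfb : Finite (B ⧸ (Ideal.span {b, x1} ⊔ 𝔣)) := (nn_card le_sup_right hfin).1
    have hcb : Nat.card (B ⧸ (Ideal.span {b, x1} ⊔ 𝔣)) ≤ p ^ t := by
      have hyt : y ^ t ∈ Ideal.span {b, x1} ⊔ 𝔣 := by
        obtain ⟨c', hc'⟩ := hunit c hc
        have h1 : y ^ t = c' * (c * y ^ t) + (-(c' * c - 1)) * y ^ t := by ring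
        rw [h1]
        exact Ideal.add_mem _ (Ideal.mem_sup_left (Ideal.mul_mem_left _ _ hct))
          (Ideal.mem_sup_right (Ideal.mul_mem_right _ _ (𝔣.neg_mem hc')))
      have h1 := (hcn B (Ideal.span {b, x1} ⊔ 𝔣) hfb).1 y t hyt
      have h2 : M ≤ Ideal.span {y} ⊔ (Ideal.span {b, x1} ⊔ 𝔣) := by
        refine hMle.trans ?_
        rw [← sup_assoc, ← Ideal.span_union]
        apply sup_le_sup_right
        apply Ideal.span_mono
        rintro z (rfl | rfl)
        · exact Or.inr (Or.inr rfl)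
        · exact Or.inl rfl
      have h3 := (nn_card h2 hMfin).2
      rw [hcardM] at h3
      exact h1.trans (Nat.pow_le_pow_left h3 t)
    -- `|B / ((b) + 𝔣)| ≤ p ^ (t q)`
    have hfc : Finite (B ⧸ (Ideal.span {b} ⊔ 𝔣)) := (nn_card le_sup_right hfin).1
    have hcc : Nat.card (B ⧸ (Ideal.span {b} ⊔ 𝔣)) ≤ (p ^ t) ^ q := by
      have h1 := (hcn B (Ideal.span {b} ⊔ 𝔣) hfc).1 x1 q (Ideal.mem_sup_right (hpowmem x1 hx1M))
      have h2 : Ideal.span {b, x1} ⊔ 𝔣 ≤ Ideal.span {x1} ⊔ (Ideal.span {b} ⊔ 𝔣) := by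
        rw [← sup_assoc, ← Ideal.span_union]
        apply sup_le_sup_right
        apply Ideal.span_mono
        rintro z (rfl | rfl)
        · exact Or.inr rfl
        · exact Or.inl rfl
      have h3 := (nn_card h2 hfb).2
      exact h1.trans (Nat.pow_le_pow_left (h3.trans hcb) q)
    -- `|B / ((x1 ^ j) + 𝔣)| ≤ p ^ (q j)`
    have hfd : Finite (B ⧸ (Ideal.span {x1 ^ j} ⊔ 𝔣)) := (nn_card le_sup_right hfin).1
    have hcd : Nat.card (B ⧸ (Ideal.span {x1 ^ j} ⊔ 𝔣)) ≤ (p ^ q) ^ j := by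
      have h1 := (hcn B (Ideal.span {x1 ^ j} ⊔ 𝔣) hfd).1 x1 j
        (Ideal.mem_sup_left (Ideal.mem_span_singleton_self _))
      have h2 : Ideal.span {x1} ⊔ 𝔣 ≤ Ideal.span {x1} ⊔ (Ideal.span {x1 ^ j} ⊔ 𝔣) :=
        sup_le_sup_left le_sup_right _
      have h3 := (nn_card h2 hfa).2
      exact h1.trans (Nat.pow_le_pow_left (h3.trans hca) j)
    -- the conclusion
    have hfinal := (hcn B 𝔣 hfin).2 b (Ideal.span {x1 ^ j} ⊔ 𝔣) hfd (by
      intro d hd
      obtain ⟨u, hu, w, hw, rfl⟩ := Submodule.mem_sup.1 hd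
      obtain ⟨d', rfl⟩ := Ideal.mem_span_singleton'.1 hu
      have h1 : b * (d' * x1 ^ j + w) = d' * (b * x1 ^ j) + b * w := by ring
      rw [h1, hbj, mul_zero, zero_add]
      exact Ideal.mul_mem_left _ _ hw)
    rw [hcard] at hfinal
    have h5 : p ^ (p ^ (2 * n)) ≤ p ^ (t * q + q * j) := by
      have e1 : p ^ (t * q + q * j) = (p ^ t) ^ q * (p ^ q) ^ j := by
        rw [pow_add, pow_mul, pow_mul]
      rw [e1]
      exact hfinal.trans (Nat.mul_le_mul hcc hcd)
    have h6 : p ^ (2 * n) ≤ t * q + q * j := (Nat.pow_le_pow_iff_right hp.one_lt).1 h5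
    have h7 : p ^ (2 * n) = q * q := by rw [hqdef, ← pow_add]; congr 1; ring
    rw [h7] at h6
    have h8 : q * q ≤ q * (t + j) := by
      calc q * q ≤ t * q + q * j := h6
        _ = q * (t + j) := by ring
    exact Nat.le_of_mul_le_mul_left h8 hq0
  have h9 := hmain (t + j)
  exact absurd h9 (not_le.2 (Nat.lt_pow_self hp.one_lt))

end Pool.Agent.CZA
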