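import Pool.Agent.Lib.MP_305fdd_al.CZ.A.StmL

/-!
# MP_305fdd_al, `C_m * Z`, part A: piece [CL q]
-/

set_option autoImplicit false

namespace Pool.Agent.CZA

open scoped Pointwise in
theorem p_q : S_q := by
  intro B S _ _ _ _ r M x1 y hker hx1 hy hry hM
  have hfgM : M.FG := IsNoetherian.noetherian M
  obtain ⟨e, he, heM⟩ := Submodule.exists_sub_one_mem_and_smul_le_of_fg_of_le_sup (I := M)
    (N := (Ideal.span {x1, y} : Ideal B)) (N' := M) (P := M) hfgM le_rfl
    (by rw [smul_eq_mul, ← pow_two]; exact hM)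
  have he' : ∀ f ∈ M, e * f ∈ Ideal.span {x1, y} := by
    intro f hf
    exact heM (Submodule.smul_mem_pointwise_smul f e M hf)
  refine ⟨⟨e, he, he'⟩, ?_⟩
  have hfgI : (RingHom.ker r).FG := IsNoetherian.noetherian _
  have hle : RingHom.ker r ≤ Ideal.span {x1} ⊔ M • RingHom.ker r := by
    intro i hi
    obtain ⟨a, b, hab⟩ := Ideal.mem_span_pair.1 (he' i (hker hi))
    have hb : b ∈ RingHom.ker r := by
      rw [RingHom.mem_ker] at hi ⊢
      have h := congrArg r hab
      rw [map_add, map_mul, map_mul, map_mul, hx1, hi, mul_zero, mul_zero, zero_add] at h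
      exact (mul_eq_zero.1 h).resolve_right hry
    have hi' : i = a * x1 + (y * b + (1 - e) * i) := by
      linear_combination -hab
    rw [hi']
    apply Submodule.add_mem_sup
    · exact Ideal.mul_mem_left _ _ (Ideal.subset_span rfl)
    · apply Ideal.add_mem
      · exact Submodule.smul_mem_smul hy hb
      · apply Submodule.smul_mem_smul _ hi
        rw [← neg_sub]
        exact M.neg_mem he
  obtain ⟨q, hq, hqI⟩ := Submodule.exists_sub_one_mem_and_smul_le_of_fg_of_le_sup (I := M)
    (N := (Ideal.span {x1} : Ideal B)) (N' := RingHom.ker r) (P := RingHom.ker r) hfgI le_rfl hle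
  refine ⟨q, hq, fun i hi => ?_⟩
  have h1 : q * i ∈ Ideal.span {x1} :=
    hqI (Submodule.smul_mem_pointwise_smul i q (RingHom.ker r) (by rw [RingHom.mem_ker]; exact hi))
  obtain ⟨c, hc⟩ := Ideal.mem_span_singleton'.1 h1
  exact ⟨c, by rw [← hc, mul_comm]⟩

end Pool.Agent.CZA
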