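import Pool.Agent.Lib.MP_305fdd_al.CZ.A.StmL

/-!
# MP_305fdd_al (`C_m * Z`), part A: piece rk (the restriction map over `k`)
-/

set_option autoImplicit false

namespace Pool.Agent.CZA

open MvPolynomial Pool.Agent.Lib.MP_305fdd_al Pool.Agent.MP_305fdd_al Pool.Agent.CZ
open Pool.Agent.F2 (PC Corr Fr gx gy rt)
open scoped TensorProduct

noncomputable section

/-- `∑ c_n s ^ n ↦ ∑ c_n ^ p s ^ (-n)` -/
def rk_sig (p : ℕ) [Fact p.Prime] (k : Type) [Field k] [CharP k p] : Ls k →+* Ls k :=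
  (AddMonoidAlgebra.mapRingHom ℤ (frobenius k p)).comp
    (AddMonoidAlgebra.mapDomainRingHom k (-AddMonoidHom.id ℤ))

theorem rk_sig_single (p : ℕ) [Fact p.Prime] (k : Type) [Field k] [CharP k p] (n : ℤ) (c : k) :
    rk_sig p k (AddMonoidAlgebra.single n c) = AddMonoidAlgebra.single (-n) (c ^ p) := by
  show AddMonoidAlgebra.mapRingHom ℤ (frobenius k p)
    (AddMonoidAlgebra.mapDomain (-AddMonoidHom.id ℤ : ℤ →+ ℤ) (AddMonoidAlgebra.single n c)) = _
  rw [AddMonoidAlgebra.mapDomain_single, AddMonoidAlgebra.mapRingHom_single, frobenius_def]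
  rfl

theorem rk_sig_coeff (p : ℕ) [Fact p.Prime] (k : Type) [Field k] [CharP k p] (f : Ls k) (l : ℤ) :
    (rk_sig p k f).coeff l = (f.coeff (-l)) ^ p := by
  have hp0 : p ≠ 0 := (Fact.out : p.Prime).ne_zero
  induction f using AddMonoidAlgebra.induction_linear with
  | zero => simp [hp0]
  | add a b ha hb =>
    rw [map_add, AddMonoidAlgebra.coeff_add, Finsupp.add_apply, ha, hb,
      AddMonoidAlgebra.coeff_add, Finsupp.add_apply, add_pow_char]
  | single n c =>
    rw [rk_sig_single]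
    by_cases h : -n = l
    · subst h
      rw [AddMonoidAlgebra.coeff_single, AddMonoidAlgebra.coeff_single, Finsupp.single_eq_same,
        neg_neg, Finsupp.single_eq_same]
    · have h2 : ¬ n = -l := fun h3 => h (by rw [h3, neg_neg])
      rw [AddMonoidAlgebra.coeff_single, AddMonoidAlgebra.coeff_single, Finsupp.single_apply,
        Finsupp.single_apply, if_neg h, if_neg h2, zero_pow hp0]

theorem rk_sig_smul (p : ℕ) [Fact p.Prime] (k : Type) [Field k] [CharP k p] (c : k) (f : Ls k) :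
    rk_sig p k (c • f) = c ^ p • rk_sig p k f := by
  refine AddMonoidAlgebra.coeff_injective (Finsupp.ext fun l => ?_)
  rw [rk_sig_coeff, AddMonoidAlgebra.coeff_smul_apply, AddMonoidAlgebra.coeff_smul_apply,
    rk_sig_coeff, smul_eq_mul, smul_eq_mul, mul_pow]

section

variable {p m : ℕ} [Fact p.Prime] [NeZero m] {k : Type} [Field k] [CharP k p]
  [Algebra (ZMod p) k] {ζ : kˣ} {Λ : Type} [Group Λ] {δ : Λ →* Multiplicative (ZMod m)}
  {n : Λ →* Multiplicative ℤ} {B : Type} [CommRing B] [Algebra (ZMod p) B] {T : Ext m δ → B}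
  {r : B →+* Ls k} {x1 q : B}

theorem rk_zp (h : Dat0 p m k ζ Λ δ n B T r x1 q) : (ζ : k) ^ p = ((ζ⁻¹ : kˣ) : k) := by
  have h1 : ζ ^ (p + 1) = 1 := by
    obtain ⟨c, hc⟩ := h.hpm
    rw [hc, pow_mul, ← h.hζ, pow_orderOf_eq_one, one_pow]
  have h2 : ζ ^ p = ζ⁻¹ := by
    rw [pow_succ] at h1
    exact eq_inv_of_mul_eq_one_left h1
  rw [← Units.val_pow_eq_pow_val, h2]

theorem rk_alg (h : Dat0 p m k ζ Λ δ n B T r x1 q) (c : ZMod p) :
    r (algebraMap (ZMod p) B c) = algebraMap (ZMod p) (Ls k) c :=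
  RingHom.congr_fun (Subsingleton.elim (r.comp (algebraMap (ZMod p) B))
    (algebraMap (ZMod p) (Ls k))) c

theorem rk_fix (h : Dat0 p m k ζ Λ δ n B T r x1 q) (b : B) : rk_sig p k (r b) = r b := by
  have hb : b ∈ Algebra.adjoin (ZMod p) (Set.range T) := by rw [h.adj]; trivial
  induction hb using Algebra.adjoin_induction with
  | mem x hx =>
    obtain ⟨g, rfl⟩ := hx
    rw [h.r_T]
    unfold rr
    have hz : (((ζ ^ ev m δ g : kˣ) : k)) ^ p = (((ζ ^ ev m δ g)⁻¹ : kˣ) : k) := by
      rw [Units.val_pow_eq_pow_val, ← pow_mul, mul_comm, pow_mul, rk_zp h, ← inv_pow,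
        Units.val_pow_eq_pow_val]
    have hz2 : ((((ζ ^ ev m δ g)⁻¹ : kˣ) : k)) ^ p = ((ζ ^ ev m δ g : kˣ) : k) := by
      rw [Units.val_inv_eq_inv_val, inv_pow, hz, Units.val_inv_eq_inv_val, inv_inv]
    rw [map_add, rk_sig_single, rk_sig_single, hz, hz2, neg_neg, add_comm]
  | algebraMap c =>
    rw [rk_alg h]
    exact RingHom.congr_fun (Subsingleton.elim ((rk_sig p k).comp (algebraMap (ZMod p) (Ls k)))
      (algebraMap (ZMod p) (Ls k))) c
  | add x y _ _ hx hy => rw [map_add, map_add, hx, hy]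
  | mul x y _ _ hx hy => rw [map_mul, map_mul, hx, hy]

/-- `r` as an algebra homomorphism -/
def rk_ra (h : Dat0 p m k ζ Λ δ n B T r x1 q) : B →ₐ[ZMod p] Ls k :=
  { r with commutes' := rk_alg h }

/-- the restriction map over `k` -/
def rk_rk (h : Dat0 p m k ζ Λ δ n B T r x1 q) : (k ⊗[ZMod p] B) →ₐ[k] Ls k :=
  Algebra.TensorProduct.lift (Algebra.ofId k (Ls k)) (rk_ra h) fun _ _ => Commute.all _ _

theorem rk_rk_tmul (h : Dat0 p m k ζ Λ δ n B T r x1 q) (a : k) (b : B) :
    rk_rk h (a ⊗ₜ b) = a • r b := by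
  rw [rk_rk, Algebra.TensorProduct.lift_tmul, Algebra.smul_def]
  rfl

theorem rk_surj (hex : S_ex) (h : Dat0 p m k ζ Λ δ n B T r x1 q) :
    Function.Surjective (rk_rk h) := by
  have hm : 2 ≤ m := h.hm
  obtain ⟨-, -, -, -, -, -, -, -, hE⟩ := hex m Λ δ
  obtain ⟨-, hE2⟩ := hE n h.cls
  obtain ⟨g0, h0, h0n⟩ := hE2 0 1
  obtain ⟨g1, h1, h1n⟩ := hE2 1 1
  haveI : NeZero (2 * m) := ⟨by omega⟩
  have e0 : ev m δ g0 = 0 := by
    unfold ev
    rw [h0]
    simp
  have e1' : ev m δ g1 = 1 := by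
    unfold ev
    rw [h1, toAdd_ofAdd, ZMod.val_natCast, Nat.mod_eq_of_lt (by omega)]
  have r0 : r (T g0) = AddMonoidAlgebra.single 1 1 + AddMonoidAlgebra.single (-1) 1 := by
    rw [h.r_T, e0, h0n]
    simp [rr]
  have r1 : r (T g1) = AddMonoidAlgebra.single 1 ((ζ⁻¹ : kˣ) : k) +
      AddMonoidAlgebra.single (-1) (ζ : k) := by
    rw [h.r_T, e1', h1n]
    simp [rr]
  have hne : (ζ : k) - ((ζ⁻¹ : kˣ) : k) ≠ 0 := by
    intro h2
    have h3 : ζ = ζ⁻¹ := Units.ext (sub_eq_zero.1 h2)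
    have h4 : ζ ^ 2 = 1 := by
      rw [pow_two]
      nth_rewrite 2 [h3]
      exact mul_inv_cancel ζ
    have h5 := orderOf_dvd_of_pow_eq_one h4
    rw [h.hζ] at h5
    have h6 := Nat.le_of_dvd two_pos h5
    omega
  let S : Subalgebra k (Ls k) := (rk_rk h).range
  have hr : ∀ b, r b ∈ S := fun b => ⟨1 ⊗ₜ b, by
    show rk_rk h (1 ⊗ₜ b) = r b
    rw [rk_rk_tmul, one_smul]⟩
  have hs1 : (AddMonoidAlgebra.single 1 1 : Ls k) ∈ S := by
    have h2 : (AddMonoidAlgebra.single 1 1 : Ls k) =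
        ((ζ : k) - ((ζ⁻¹ : kˣ) : k))⁻¹ • ((ζ : k) • r (T g0) - r (T g1)) := by
      rw [r0, r1, smul_add, AddMonoidAlgebra.smul_single, AddMonoidAlgebra.smul_single,
        smul_eq_mul, mul_one, add_sub_add_comm, sub_self, add_zero,
        ← AddMonoidAlgebra.single_sub, AddMonoidAlgebra.smul_single, smul_eq_mul,
        inv_mul_cancel₀ hne]
    rw [h2]
    exact S.smul_mem (S.sub_mem (S.smul_mem (hr _) _) (hr _)) _
  have hs2 : (AddMonoidAlgebra.single (-1) 1 : Ls k) ∈ S := by
    have h2 : (AddMonoidAlgebra.single (-1) 1 : Ls k) = r (T g0) -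
        AddMonoidAlgebra.single 1 1 := by
      rw [r0, add_sub_cancel_left]
    rw [h2]
    exact S.sub_mem (hr _) hs1
  have hs : ∀ l : ℤ, (AddMonoidAlgebra.single l 1 : Ls k) ∈ S := by
    intro l
    induction l using Int.induction_on with
    | zero => exact S.one_mem
    | succ i hi =>
      have h2 : (AddMonoidAlgebra.single ((i : ℤ) + 1) 1 : Ls k) =
          AddMonoidAlgebra.single (i : ℤ) 1 * AddMonoidAlgebra.single 1 1 := by
        rw [AddMonoidAlgebra.single_mul_single, mul_one]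
      rw [h2]
      exact S.mul_mem hi hs1
    | pred i hi =>
      have h2 : (AddMonoidAlgebra.single (-(i : ℤ) - 1) 1 : Ls k) =
          AddMonoidAlgebra.single (-(i : ℤ)) 1 * AddMonoidAlgebra.single (-1) 1 := by
        rw [AddMonoidAlgebra.single_mul_single, mul_one, sub_eq_add_neg]
      rw [h2]
      exact S.mul_mem hi hs2
  intro f
  have hf : f ∈ S := by
    induction f using AddMonoidAlgebra.induction_linear with
    | zero => exact S.zero_mem
    | add a b ha hb => exact S.add_mem ha hb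
    | single l c =>
      have h2 : (AddMonoidAlgebra.single l c : Ls k) = c • AddMonoidAlgebra.single l 1 := by
        rw [AddMonoidAlgebra.smul_single, smul_eq_mul, mul_one]
      rw [h2]
      exact S.smul_mem (hs l) c
  exact hf

theorem rk_ker (hfix : S_fix) (h : Dat0 p m k ζ Λ δ n B T r x1 q) (f : k ⊗[ZMod p] B)
    (hf : rk_rk h f = 0) :
    f ∈ Submodule.span k ((fun b : B => (1 : k) ⊗ₜ[ZMod p] b) '' {b : B | r b = 0}) := by
  set W : Submodule k (k ⊗[ZMod p] B) :=
    Submodule.span k ((fun b : B => (1 : k) ⊗ₜ[ZMod p] b) '' {b : B | r b = 0}) with hW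
  let N : Submodule (ZMod p) B := LinearMap.ker (rk_ra h).toLinearMap
  have hN : ∀ b, b ∈ N ↔ r b = 0 := fun b => Iff.rfl
  obtain ⟨C, hC⟩ := Submodule.exists_isCompl N
  let bs := Module.Free.chooseBasis (ZMod p) C
  let ι := Module.Free.ChooseBasisIndex (ZMod p) C
  let v : ι → B := fun i => (bs i : B)
  have hsup : (⊤ : Submodule k (k ⊗[ZMod p] B)) ≤
      Submodule.span k (Set.range fun i => (1 : k) ⊗ₜ[ZMod p] v i) ⊔ W := by
    intro x _
    induction x using TensorProduct.induction_on with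
    | zero => exact Submodule.zero_mem _
    | add x y hx hy => exact Submodule.add_mem _ (hx trivial) (hy trivial)
    | tmul a b =>
      have hb : b ∈ N ⊔ C := by rw [hC.sup_eq_top]; trivial
      obtain ⟨y, hy, z, hz, rfl⟩ := Submodule.mem_sup.1 hb
      rw [TensorProduct.tmul_add]
      refine Submodule.add_mem _ (Submodule.mem_sup_right ?_) (Submodule.mem_sup_left ?_)
      · have h2 : a ⊗ₜ[ZMod p] y = a • ((1 : k) ⊗ₜ[ZMod p] y) := by
          rw [TensorProduct.smul_tmul', smul_eq_mul, mul_one]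
        rw [h2]
        exact W.smul_mem a (Submodule.subset_span ⟨y, (hN y).1 hy, rfl⟩)
      · have h2 : a ⊗ₜ[ZMod p] z = a • ((1 : k) ⊗ₜ[ZMod p] z) := by
          rw [TensorProduct.smul_tmul', smul_eq_mul, mul_one]
        rw [h2]
        refine Submodule.smul_mem _ a ?_
        have h3 : z = (bs.repr ⟨z, hz⟩).sum fun i c => c • v i := by
          have h4 := congrArg (Subtype.val) (bs.linearCombination_repr ⟨z, hz⟩)
          rw [Finsupp.linearCombination_apply] at h4
          refine h4.symm.trans ?_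
          simp [Finsupp.sum, v]
        rw [h3, Finsupp.sum, TensorProduct.tmul_sum]
        refine Submodule.sum_mem _ fun i _ => ?_
        have h5 : (1 : k) ⊗ₜ[ZMod p] ((bs.repr ⟨z, hz⟩) i • v i) =
            (algebraMap (ZMod p) k ((bs.repr ⟨z, hz⟩) i)) • ((1 : k) ⊗ₜ[ZMod p] v i) := by
          rw [TensorProduct.smul_tmul', smul_eq_mul, mul_one, ← TensorProduct.smul_tmul,
            Algebra.smul_def, mul_one]
        rw [h5]
        exact Submodule.smul_mem _ _ (Submodule.subset_span ⟨i, rfl⟩)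
  obtain ⟨y, hy, z, hz, hyz⟩ := Submodule.mem_sup.1 (hsup (Submodule.mem_top (x := f)))
  obtain ⟨s, hs⟩ := (Finsupp.mem_span_range_iff_exists_finsupp).1 hy
  have hWk : ∀ w ∈ W, rk_rk h w = 0 := by
    intro w hw
    induction hw using Submodule.span_induction with
    | mem x hx =>
      obtain ⟨b, hb, rfl⟩ := hx
      show rk_rk h ((1 : k) ⊗ₜ[ZMod p] b) = 0
      rw [rk_rk_tmul, one_smul]
      exact hb
    | zero => exact map_zero _
    | add x y _ _ hx hy => rw [map_add, hx, hy, add_zero]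
    | smul a x _ hx => rw [map_smul, hx, smul_zero]
  have hli : LinearIndependent k fun i => r (v i) := by
    refine hfix p k (Ls k) (rk_sig p k).toAddMonoidHom (fun c v => rk_sig_smul p k c v) ι
      (fun i => r (v i)) (fun i => rk_fix h _) ?_
    intro s hs
    have h2 : r (s.sum fun i a => a • v i) = 0 := by
      rw [← hs, Finsupp.sum, map_sum, Finsupp.sum]
      refine Finset.sum_congr rfl fun i _ => ?_
      rw [Algebra.smul_def, map_mul, rk_alg h, Algebra.smul_def]
      congr 1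
      exact RingHom.congr_fun (Subsingleton.elim (algebraMap (ZMod p) (Ls k))
        ((algebraMap k (Ls k)).comp (ZMod.castHom (dvd_refl p) k))) (s i)
    have h3 : (s.sum fun i a => a • v i) ∈ C := by
      rw [Finsupp.sum]
      exact C.sum_mem fun i _ => C.smul_mem _ (bs i).2
    have h4 : (s.sum fun i a => a • v i) = 0 := by
      have := hC.disjoint.le_bot (⟨(hN _).2 h2, h3⟩ : _ ∈ N ⊓ C)
      exact (Submodule.mem_bot _).1 this
    have h5 : (s.sum fun i a => a • bs i) = 0 := by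
      refine Subtype.ext ?_
      refine Eq.trans ?_ h4
      simp [Finsupp.sum, v]
    have h6 := bs.linearIndependent
    rw [linearIndependent_iff] at h6
    exact h6 s (by rw [Finsupp.linearCombination_apply]; exact h5)
  have h7 : (s.sum fun i a => a • r (v i)) = 0 := by
    have h8 : rk_rk h y = 0 := by
      have h9 := hf
      rw [← hyz, map_add, hWk z hz, add_zero] at h9
      exact h9
    rw [← hs, Finsupp.sum, map_sum] at h8
    rw [← h8, Finsupp.sum]
    refine Finset.sum_congr rfl fun i _ => ?_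
    rw [map_smul, rk_rk_tmul, one_smul]
  have h8 : s = 0 := by
    rw [linearIndependent_iff] at hli
    exact hli s (by rw [Finsupp.linearCombination_apply]; exact h7)
  rw [← hyz, ← hs, h8, Finsupp.sum_zero_index, zero_add]
  exact hz

theorem rk_nil (h : Dat0 p m k ζ Λ δ n B T r x1 q) (f : k ⊗[ZMod p] B) (j : ℕ)
    (hf : f * ((1 : k) ⊗ₜ[ZMod p] x1) ^ j = 0) : rk_rk h f = 0 := by
  let ℬ := Module.Free.chooseBasis (ZMod p) k
  obtain ⟨c, rfl⟩ := TensorProduct.eq_repr_basis_left ℬ f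
  have h1 : (c.mapRange (fun b => b * x1 ^ j) (zero_mul _)).sum
      (fun i b => ℬ i ⊗ₜ[ZMod p] b) = 0 := by
    rw [Finsupp.sum_mapRange_index (fun i => TensorProduct.tmul_zero _ _), ← hf, Finsupp.sum,
      Finsupp.sum, Finset.sum_mul]
    refine Finset.sum_congr rfl fun i _ => ?_
    rw [Algebra.TensorProduct.tmul_pow, one_pow, Algebra.TensorProduct.tmul_mul_tmul, mul_one]
  have h2 := TensorProduct.sum_tmul_basis_left_eq_zero ℬ _ h1
  rw [Finsupp.sum, map_sum]
  refine Finset.sum_eq_zero fun i _ => ?_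
  have h3 : c i * x1 ^ j = 0 := by
    have := DFunLike.congr_fun h2 i
    simpa using this
  rw [rk_rk_tmul, h.nn _ _ h3, smul_zero]

end

theorem p_rk (hfix : S_fix) (hex : S_ex) : S_rk := by
  intro p m _ _ k _ _ _ ζ Λ _ δ n B _ _ T r x1 q h
  refine ⟨rk_rk h, rk_rk_tmul h, rk_surj hex h, rk_ker hfix h, rk_nil h, fun b l => ?_⟩
  conv_lhs => rw [← rk_fix h b]
  rw [rk_sig_coeff, neg_neg]

end

end Pool.Agent.CZA
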