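import Pool.Agent.Lib.MP_305fdd_al.CZ.A.StmL

/-!
# MP_305fdd_al, `C_m * Z`, part A: piece [CL rr]
-/

set_option autoImplicit false

namespace Pool.Agent.CZA

open MvPolynomial Pool.Agent.Lib.MP_305fdd_al Pool.Agent.MP_305fdd_al Pool.Agent.CZ
open Pool.Agent.F2 (PC Corr Fr gx gy rt)
open Pool.Agent.F2TF (Pol fpow)

theorem rr_ev_mul (m : ℕ) [NeZero m] {Λ : Type} [Group Λ] (δ : Λ →* Multiplicative (ZMod m))
    {K : Type} [Group K] (ζ : K) (hζ : orderOf ζ = 2 * m) (g h : Ext m δ) :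
    ζ ^ ev m δ (g * h) = ζ ^ ev m δ g * ζ ^ ev m δ h := by
  have : NeZero (2 * m) := ⟨by have := NeZero.ne m; omega⟩
  have h1 : ev m δ (g * h) = (ev m δ g + ev m δ h) % (2 * m) := by
    unfold ev
    rw [map_mul, toAdd_mul, ZMod.val_add]
  rw [h1, ← hζ, pow_mod_orderOf, pow_add]

theorem rr_ev_one (m : ℕ) {Λ : Type} [Group Λ] (δ : Λ →* Multiplicative (ZMod m)) :
    ev m δ 1 = 0 := by
  unfold ev
  rw [map_one, toAdd_one, ZMod.val_zero]

/-- `g ↦ ζ ^ ev g` -/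
def rr_hom (m : ℕ) [NeZero m] {Λ : Type} [Group Λ] (δ : Λ →* Multiplicative (ZMod m))
    {K : Type} [Group K] (ζ : K) (hζ : orderOf ζ = 2 * m) : Ext m δ →* K :=
  MonoidHom.mk' (fun g => ζ ^ ev m δ g) (rr_ev_mul m δ ζ hζ)

theorem rr_hom_apply (m : ℕ) [NeZero m] {Λ : Type} [Group Λ] (δ : Λ →* Multiplicative (ZMod m))
    {K : Type} [Group K] (ζ : K) (hζ : orderOf ζ = 2 * m) (g : Ext m δ) :
    rr_hom m δ ζ hζ g = ζ ^ ev m δ g := rfl

theorem rr_one_zero (k : Type) [Field k] : rr (1 : kˣ) 0 = (2 : Ls k) := by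
  unfold rr
  rw [inv_one, neg_zero, Units.val_one, ← AddMonoidAlgebra.one_def]
  exact one_add_one_eq_two

theorem rr_neg_one (k : Type) [Field k] : rr (-1 : kˣ) 0 = (-2 : Ls k) := by
  unfold rr
  have h1 : ((-1 : kˣ)⁻¹ : kˣ) = -1 := by
    rw [inv_eq_iff_mul_eq_one, neg_mul_neg, one_mul]
  rw [h1, neg_zero, Units.val_neg, Units.val_one, AddMonoidAlgebra.single_neg,
    ← AddMonoidAlgebra.one_def, ← neg_add, one_add_one_eq_two]

theorem rr_mul {k : Type} [Field k] (z w : kˣ) (a b : ℤ) :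
    rr (z * w) (a + b) + rr (z * w⁻¹) (a + -b) = rr z a * rr w b := by
  unfold rr
  rw [add_mul, mul_add, mul_add, AddMonoidAlgebra.single_mul_single,
    AddMonoidAlgebra.single_mul_single, AddMonoidAlgebra.single_mul_single,
    AddMonoidAlgebra.single_mul_single]
  simp only [mul_inv, inv_inv, Units.val_mul, neg_add, neg_neg]
  abel

theorem rr_aug {k : Type} [Field k] (z : kˣ) (a : ℤ) :
    aug k (rr z a) = (z : k) + ((z⁻¹ : kˣ) : k) := by
  unfold rr aug
  show (AddMonoidAlgebra.lift k k ℤ (1 : Multiplicative ℤ →* k)) _ = _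
  rw [map_add, AddMonoidAlgebra.lift_single, AddMonoidAlgebra.lift_single]
  simp [add_comm]

theorem p_rr : S_rr := by
  intro p m _ _ x hp hm hx k _ _ ζ hζ hxζ Λ _ δ n
  have : NeZero (2 * m) := ⟨by omega⟩
  have hpc : PC (fun g : Ext m δ => rr (ζ ^ ev m δ g) (Multiplicative.toAdd (n (e1 m δ g)))) := by
    refine ⟨?_, ?_, ?_⟩
    · show rr (ζ ^ ev m δ 1) (Multiplicative.toAdd (n (e1 m δ 1))) = 2
      rw [rr_ev_one, pow_zero, map_one, map_one, toAdd_one]
      exact rr_one_zero k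
    · intro g h
      show rr (ζ ^ ev m δ (g * h)) (Multiplicative.toAdd (n (e1 m δ (g * h)))) =
        rr (ζ ^ ev m δ (h * g)) (Multiplicative.toAdd (n (e1 m δ (h * g))))
      rw [rr_ev_mul m δ ζ hζ, rr_ev_mul m δ ζ hζ, map_mul (e1 m δ), map_mul n, map_mul (e1 m δ),
        map_mul n, mul_comm (ζ ^ ev m δ g), mul_comm (n (e1 m δ g))]
    · intro g h
      show rr (ζ ^ ev m δ (g * h)) (Multiplicative.toAdd (n (e1 m δ (g * h)))) +
        rr (ζ ^ ev m δ (g * h⁻¹)) (Multiplicative.toAdd (n (e1 m δ (g * h⁻¹)))) =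
        rr (ζ ^ ev m δ g) (Multiplicative.toAdd (n (e1 m δ g))) *
          rr (ζ ^ ev m δ h) (Multiplicative.toAdd (n (e1 m δ h)))
      have hinv : ζ ^ ev m δ h⁻¹ = (ζ ^ ev m δ h)⁻¹ := by
        rw [← rr_hom_apply m δ ζ hζ, ← rr_hom_apply m δ ζ hζ, map_inv]
      rw [rr_ev_mul m δ ζ hζ, rr_ev_mul m δ ζ hζ, hinv, map_mul (e1 m δ), map_mul n,
        map_mul (e1 m δ), map_mul n, map_inv, map_inv, toAdd_mul, toAdd_mul, toAdd_inv]
      exact rr_mul _ _ _ _
  have htc : rr (ζ ^ ev m δ (cc m δ)) (Multiplicative.toAdd (n (e1 m δ (cc m δ)))) =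
      (-2 : Ls k) := by
    have h1 : ev m δ (cc m δ) = m := by
      show (((m : ℕ) : ZMod (2 * m))).val = m
      rw [ZMod.val_natCast, Nat.mod_eq_of_lt (by omega)]
    have h2 : e1 m δ (cc m δ) = 1 := rfl
    have h3 : ζ ^ m = -1 := by
      have h4 : (ζ ^ m) ^ 2 = 1 := by
        rw [← pow_mul, mul_comm, ← hζ, pow_orderOf_eq_one]
      have h5 : ζ ^ m ≠ 1 := by
        intro h
        have := orderOf_dvd_of_pow_eq_one h
        rw [hζ] at this
        have := Nat.le_of_dvd (by omega) this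
        omega
      have h6 : ((ζ ^ m : kˣ) : k) ^ 2 = 1 := by
        rw [← Units.val_pow_eq_pow_val, h4, Units.val_one]
      rcases sq_eq_one_iff.1 h6 with h7 | h7
      · exact absurd (Units.ext (by rw [h7, Units.val_one])) h5
      · exact Units.ext (by rw [h7]; simp)
    rw [h1, h2, h3, map_one, toAdd_one]
    exact rr_neg_one k
  refine ⟨rr_ev_mul m δ ζ hζ, ?_, hpc, htc, ?_, ?_⟩
  · intro g
    rw [← orderOf_dvd_iff_pow_eq_one, hζ]
    have hlt : ev m δ g < 2 * m := ZMod.val_lt _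
    constructor
    · intro h
      have h0 : ev m δ g = 0 := Nat.eq_zero_of_dvd_of_lt h hlt
      have h1 : Multiplicative.toAdd (e2 m δ g) = 0 := (ZMod.val_eq_zero _).1 h0
      exact h1
    · intro h
      have : ev m δ g = 0 := by
        unfold ev
        rw [h, toAdd_one, ZMod.val_zero]
      rw [this]
      exact dvd_zero _
  · intro B _ _ T hUP
    let _ : Algebra (ZMod p) k := ZMod.algebra k p
    obtain ⟨φ, hφ⟩ := hUP.univ (Ls k) _ hpc htc
    exact ⟨φ.toRingHom, hφ⟩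
  · intro g
    rw [rr_aug, hxζ, ← inv_pow, Units.val_pow_eq_pow_val, Units.val_pow_eq_pow_val]

end Pool.Agent.CZA
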