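import Pool.Agent.Lib.MP_305fdd_al.CZ.A.StmL

/-!
# MP_305fdd_al, `C_m * Z`, part A: piece [CL x1]
-/

set_option autoImplicit false

namespace Pool.Agent.CZA

open MvPolynomial Pool.Agent.Lib.MP_305fdd_al Pool.Agent.MP_305fdd_al Pool.Agent.CZ
open Pool.Agent.F2 (PC Corr Fr gx gy rt)
open Pool.Agent.F2TF (Pol fpow)

/-! ### Laurent polynomials near `s = 1` -/

theorem x1_aug_single {k : Type} [Field k] (n : ℤ) (a : k) :
    aug k (AddMonoidAlgebra.single n a) = a := by
  unfold aug
  show (AddMonoidAlgebra.lift k k ℤ (1 : Multiplicative ℤ →* k)) _ = _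
  rw [AddMonoidAlgebra.lift_single]
  simp

/-- `s - 1` -/
private noncomputable def x1_s (k : Type) [Field k] : Ls k := AddMonoidAlgebra.single 1 1 - 1

private theorem x1_aug_s (k : Type) [Field k] : aug k (x1_s k) = 0 := by
  unfold x1_s
  rw [map_sub, x1_aug_single, map_one, sub_self]

private theorem x1_s_ne (k : Type) [Field k] : x1_s k ≠ 0 := by
  intro h
  unfold x1_s at h
  rw [sub_eq_zero, AddMonoidAlgebra.one_def] at h
  have h1 : (AddMonoidAlgebra.single (1 : ℤ) (1 : k)).coeff 1 =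
    (AddMonoidAlgebra.single (0 : ℤ) (1 : k)).coeff 1 := by rw [h]
  rw [AddMonoidAlgebra.coeff_single, AddMonoidAlgebra.coeff_single, Finsupp.single_eq_same,
    Finsupp.single_eq_of_ne (by decide)] at h1
  exact one_ne_zero h1

private theorem x1_pow (k : Type) [Field k] (n : ℕ) :
    ∃ h : Ls k, AddMonoidAlgebra.single (n : ℤ) (1 : k) - 1 = x1_s k * h := by
  obtain ⟨h, hh⟩ := sub_dvd_pow_sub_pow (AddMonoidAlgebra.single (1 : ℤ) (1 : k)) 1 n
  refine ⟨h, ?_⟩
  unfold x1_s
  rw [← hh, one_pow, AddMonoidAlgebra.single_pow, one_pow]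
  congr 2
  simp

/-- Taylor expansion of order one -/
theorem x1_taylor {k : Type} [Field k] (f : Ls k) :
    ∃ h : Ls k, f = AddMonoidAlgebra.single 0 (aug k f) + (AddMonoidAlgebra.single 1 1 - 1) * h := by
  show ∃ h : Ls k, f = AddMonoidAlgebra.single 0 (aug k f) + x1_s k * h
  induction f using AddMonoidAlgebra.induction_linear with
  | zero => exact ⟨0, by simp⟩
  | add f g hf hg =>
    obtain ⟨h, hh⟩ := hf
    obtain ⟨h', hh'⟩ := hg
    refine ⟨h + h', ?_⟩
    rw [map_add, AddMonoidAlgebra.single_add]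
    nth_rewrite 1 [hh]
    nth_rewrite 1 [hh']
    ring
  | single n a =>
    rw [x1_aug_single]
    have key : ∃ h : Ls k, AddMonoidAlgebra.single n (1 : k) - 1 = x1_s k * h := by
      obtain ⟨m, rfl | rfl⟩ := n.eq_nat_or_neg
      · exact x1_pow k m
      · obtain ⟨h, hh⟩ := x1_pow k m
        refine ⟨-(AddMonoidAlgebra.single (-(m : ℤ)) (1 : k)) * h, ?_⟩
        have e : AddMonoidAlgebra.single (-(m : ℤ)) (1 : k) *
            AddMonoidAlgebra.single (m : ℤ) (1 : k) = 1 := by
          rw [AddMonoidAlgebra.single_mul_single, neg_add_cancel, one_mul,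
            AddMonoidAlgebra.one_def]
        linear_combination (-(AddMonoidAlgebra.single (-(m : ℤ)) (1 : k))) * hh + e
    obtain ⟨h, hh⟩ := key
    refine ⟨AddMonoidAlgebra.single 0 a * h, ?_⟩
    have e1 : (AddMonoidAlgebra.single n a : Ls k) =
        AddMonoidAlgebra.single 0 a * AddMonoidAlgebra.single n (1 : k) := by
      rw [AddMonoidAlgebra.single_mul_single, zero_add, mul_one]
    rw [e1]
    linear_combination (AddMonoidAlgebra.single (0 : ℤ) a) * hh

/-! ### The span of the differences modulo `M ^ 2 + ker r` -/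

private theorem x1_Tinv {G B : Type} [Group G] [CommRing B] {T : G → B} (h : PC T) (g : G) :
    T g⁻¹ = T g := by
  have h1 := h.rel 1 g
  rw [h.one, one_mul, one_mul] at h1
  linear_combination h1

private theorem x1_const {p : ℕ} [Fact p.Prime] {k : Type} [Field k] [CharP k p] {B : Type}
    [CommRing B] [Algebra (ZMod p) B] (r : B →+* Ls k) (c : ZMod p) :
    r (algebraMap (ZMod p) B c) = AddMonoidAlgebra.single 0 (ZMod.castHom (dvd_refl p) k c) := by
  have h : r.comp (algebraMap (ZMod p) B) =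
      (AddMonoidAlgebra.singleZeroRingHom : k →+* Ls k).comp (ZMod.castHom (dvd_refl p) k) :=
    Subsingleton.elim _ _
  exact RingHom.congr_fun h c

private theorem x1_phi {p : ℕ} [Fact p.Prime] {B : Type}
    [CommRing B] [Algebra (ZMod p) B] (φ : B →+* ZMod p) (c : ZMod p) :
    φ (algebraMap (ZMod p) B c) = c := by
  have h : φ.comp (algebraMap (ZMod p) B) = RingHom.id (ZMod p) := Subsingleton.elim _ _
  exact RingHom.congr_fun h c

/-- the two-parameter recursion -/
private theorem x1_rec {p : ℕ} [Fact p.Prime] {m : ℕ} (hm : 2 ≤ m) {x : ℕ → ZMod p}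
    (hWJ : WJ p m x) {Q : Type} [CommRing Q] [Algebra (ZMod p) Q] (E : ℕ → ℤ → Q)
    (hE0 : ∀ a, E a 0 = 0)
    (hR : ∀ (a b : ℕ) (i j : ℤ), E (a + 2 * b) (i + 2 * j) + E a i =
      algebraMap (ZMod p) Q (x (a + b)) * E b j + algebraMap (ZMod p) Q (x b) * E (a + b) (i + j)) :
    ∀ (i a : ℕ), ∃ c : ZMod p, E a i = algebraMap (ZMod p) Q c * E 1 1 := by
  have hx0 : algebraMap (ZMod p) Q (x 0) = 2 := by rw [hWJ.zero]; exact map_ofNat _ 2
  have hα : E 0 1 = 0 := by
    have r1 := hR 0 1 0 1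
    have r2 := hR 2 0 0 1
    have r3 := hR 0 1 1 0
    simp only [zero_add, mul_one, mul_zero, add_zero, hE0, hx0] at r1 r2 r3
    have hne : x 2 - 2 ≠ 0 := by
      rw [sub_ne_zero, ← hWJ.zero]
      intro h
      have := hWJ.ne 2 0 hm (Nat.zero_le m) h
      omega
    have h1 : algebraMap (ZMod p) Q (x 2 - 2) * E 0 1 = 0 := by
      rw [map_sub, map_ofNat]
      linear_combination (-1) * r2 + r1 - 2 * r3
    have h2 : algebraMap (ZMod p) Q ((x 2 - 2)⁻¹ * (x 2 - 2)) * E 0 1 = 0 := by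
      rw [map_mul, mul_assoc, h1, mul_zero]
    rw [inv_mul_cancel₀ hne, map_one, one_mul] at h2
    exact h2
  have h1 : ∀ a : ℕ, (∃ c : ZMod p, E a 1 = algebraMap (ZMod p) Q c * E 1 1) ∧
      ∃ c : ZMod p, E (a + 1) 1 = algebraMap (ZMod p) Q c * E 1 1 := by
    intro a
    induction a with
    | zero => exact ⟨⟨0, by rw [hα, map_zero, zero_mul]⟩, ⟨1, by rw [map_one, one_mul]⟩⟩
    | succ a ih =>
      obtain ⟨⟨c, hc⟩, ⟨c', hc'⟩⟩ := ih
      refine ⟨⟨c', hc'⟩, ⟨x 1 * c' - c, ?_⟩⟩
      have h := hR a 1 1 0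
      simp only [mul_zero, add_zero, mul_one, hE0, zero_add, hc, hc'] at h
      rw [map_sub, map_mul]
      show E (a + 2) 1 = _
      linear_combination h
  have h2 : ∀ (i a : ℕ), (∃ c : ZMod p, E a i = algebraMap (ZMod p) Q c * E 1 1) ∧
      ∃ c : ZMod p, E a ((i + 1 : ℕ) : ℤ) = algebraMap (ZMod p) Q c * E 1 1 := by
    intro i a
    induction i with
    | zero =>
      refine ⟨⟨0, ?_⟩, ?_⟩
      · rw [Nat.cast_zero, hE0, map_zero, zero_mul]
      · simpa using (h1 a).1
    | succ i ih =>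
      obtain ⟨⟨c, hc⟩, ⟨c', hc'⟩⟩ := ih
      refine ⟨⟨c', hc'⟩, ⟨2 * c' - c, ?_⟩⟩
      have h := hR a 0 i 1
      simp only [mul_zero, add_zero, mul_one, hα, zero_add, hc, hx0] at h
      have e1 : ((i + 1 + 1 : ℕ) : ℤ) = (i : ℤ) + 2 := by push_cast; ring
      rw [Nat.cast_succ] at hc'
      rw [hc'] at h
      rw [e1, map_sub, map_mul, map_ofNat]
      linear_combination h
  exact fun i a => (h2 i a).1

theorem p_x1 (hex : S_ex) (hrr : S_rr) : S_x1 := by
  intro p m _ _ x hp2 hm hWJ k _ _ ζ hζ hxζ Λ _ δ n hcls B _ _ T hPC hadj r hrT φM hφT hcard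
  have hNZ : NeZero (2 * m) := ⟨by omega⟩
  have hcast : Function.Injective (ZMod.castHom (dvd_refl p) k) := RingHom.injective _
  have haugrr := (hrr p m x hp2 hm hWJ k ζ hζ hxζ Λ δ n).2.2.2.2.2
  -- the first claim
  have hA : ∀ b, aug k (r b) = ZMod.castHom (dvd_refl p) k (φM b) := by
    intro b
    have hb : b ∈ Algebra.adjoin (ZMod p) (Set.range T) := by rw [hadj]; trivial
    induction hb using Algebra.adjoin_induction with
    | mem z hz =>
      obtain ⟨g, rfl⟩ := hz
      rw [hrT, hφT, haugrr]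
    | algebraMap c => rw [x1_const, x1_phi, x1_aug_single]
    | add a b _ _ ha hb => simp only [map_add, ha, hb]
    | mul a b _ _ ha hb => simp only [map_mul, ha, hb]
  refine ⟨hA, ?_⟩
  set M := RingHom.ker φM with hMdef
  have hrM : RingHom.ker r ≤ M := by
    intro b hb
    rw [RingHom.mem_ker] at hb ⊢
    apply hcast
    rw [← hA, hb, map_zero, map_zero]
  set N : Ideal B := M ^ 2 ⊔ RingHom.ker r with hNdef
  have hM2N : M ^ 2 ≤ N := le_sup_left
  have hrN : RingHom.ker r ≤ N := le_sup_right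
  have hNM : N ≤ M := sup_le (Ideal.pow_le_self two_ne_zero) hrM
  -- the differences
  let τ : Ext m δ → B := fun g => T g - algebraMap (ZMod p) B (x (ev m δ g))
  have hτM : ∀ g, τ g ∈ M := by
    intro g
    rw [hMdef, RingHom.mem_ker]
    show φM (T g - algebraMap (ZMod p) B (x (ev m δ g))) = 0
    rw [map_sub, hφT, x1_phi, sub_self]
  let q := Ideal.Quotient.mk N
  have hqc : ∀ c : ZMod p, q (algebraMap (ZMod p) B c) = algebraMap (ZMod p) (B ⧸ N) c :=
    fun c => rfl
  let D : Ext m δ → B ⧸ N := fun g => q (τ g)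
  have hDD : ∀ g h, D g * D h = 0 := by
    intro g h
    show q (τ g) * q (τ h) = 0
    rw [← map_mul]
    apply Ideal.Quotient.eq_zero_iff_mem.2
    apply hM2N
    rw [pow_two]
    exact Ideal.mul_mem_mul (hτM g) (hτM h)
  have hrel : ∀ g h, D (g * h) + D (g * h⁻¹) =
      algebraMap (ZMod p) (B ⧸ N) (x (ev m δ g)) * D h +
        algebraMap (ZMod p) (B ⧸ N) (x (ev m δ h)) * D g := by
    intro g h
    have h1 : x (ev m δ (g * h)) + x (ev m δ (g * h⁻¹)) = x (ev m δ g) * x (ev m δ h) := by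
      rw [← hφT, ← hφT, ← hφT, ← hφT, ← map_add, ← map_mul, hPC.rel]
    have h2 : τ (g * h) + τ (g * h⁻¹) = τ g * τ h +
        (algebraMap (ZMod p) B (x (ev m δ g)) * τ h +
          algebraMap (ZMod p) B (x (ev m δ h)) * τ g) := by
      have h3 := congrArg (algebraMap (ZMod p) B) h1
      rw [map_add, map_mul] at h3
      have h4 := hPC.rel g h
      show T (g * h) - algebraMap (ZMod p) B (x (ev m δ (g * h))) +
        (T (g * h⁻¹) - algebraMap (ZMod p) B (x (ev m δ (g * h⁻¹)))) =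
        (T g - algebraMap (ZMod p) B (x (ev m δ g))) *
          (T h - algebraMap (ZMod p) B (x (ev m δ h))) +
        (algebraMap (ZMod p) B (x (ev m δ g)) * (T h - algebraMap (ZMod p) B (x (ev m δ h))) +
          algebraMap (ZMod p) B (x (ev m δ h)) * (T g - algebraMap (ZMod p) B (x (ev m δ g))))
      linear_combination h4 - h3
    have h5 := congrArg q h2
    rw [map_add, map_add, map_add, map_mul, map_mul, map_mul] at h5
    have h6 := hDD g h
    show q (τ (g * h)) + q (τ (g * h⁻¹)) = _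
    rw [h5]
    show D g * D h + _ = _
    rw [h6, zero_add]
    rfl
  have hDinv : ∀ g, D g⁻¹ = D g := by
    intro g
    have h1 : x (ev m δ g⁻¹) = x (ev m δ g) := by
      rw [← hφT, ← hφT, x1_Tinv hPC]
    show q (T g⁻¹ - algebraMap (ZMod p) B (x (ev m δ g⁻¹))) =
      q (T g - algebraMap (ZMod p) B (x (ev m δ g)))
    rw [h1, x1_Tinv hPC]
  -- representatives of the classes
  have hexg := ((hex m Λ δ).2.2.2.2.2.2.2.2 n hcls).2
  choose gg hgg1 hgg2 using hexg
  have hcl : ∀ (g : Ext m δ) (a : ℕ) (i : ℤ), e2 m δ g = Multiplicative.ofAdd (a : ZMod (2 * m)) →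
      n (e1 m δ g) = Multiplicative.ofAdd i → D g = D (gg a i) := by
    intro g a i h1 h2
    have h3 : ev m δ g = ev m δ (gg a i) := by
      unfold ev
      rw [h1, hgg1]
    apply (Ideal.Quotient.eq).2
    apply hrN
    rw [RingHom.mem_ker]
    show r ((T g - algebraMap (ZMod p) B (x (ev m δ g))) -
      (T (gg a i) - algebraMap (ZMod p) B (x (ev m δ (gg a i))))) = 0
    rw [map_sub, map_sub, map_sub, hrT, hrT, h3, h2, hgg2, sub_self]
  have hxa : ∀ (g : Ext m δ) (a : ℕ), e2 m δ g = Multiplicative.ofAdd (a : ZMod (2 * m)) →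
      x (ev m δ g) = x a := by
    intro g a h
    have h1 : ev m δ g = a % (2 * m) := by
      unfold ev
      rw [h, toAdd_ofAdd, ZMod.val_natCast]
    apply hcast
    rw [hxζ, hxζ, h1]
    have e1 : (ζ : k) ^ (a % (2 * m)) = (ζ : k) ^ a := by
      rw [← Units.val_pow_eq_pow_val, ← hζ, pow_mod_orderOf, Units.val_pow_eq_pow_val]
    have e2 : ((ζ⁻¹ : kˣ) : k) ^ (a % (2 * m)) = ((ζ⁻¹ : kˣ) : k) ^ a := by
      rw [← Units.val_pow_eq_pow_val, ← hζ, ← orderOf_inv, pow_mod_orderOf,
        Units.val_pow_eq_pow_val]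
    rw [e1, e2]
  let E : ℕ → ℤ → B ⧸ N := fun a i => D (gg a i)
  have hE0 : ∀ a, E a 0 = 0 := by
    intro a
    apply Ideal.Quotient.eq_zero_iff_mem.2
    apply hrN
    rw [RingHom.mem_ker]
    show r (T (gg a 0) - algebraMap (ZMod p) B (x (ev m δ (gg a 0)))) = 0
    rw [map_sub, hrT, x1_const, hgg2, hxζ]
    unfold rr
    rw [toAdd_ofAdd, neg_zero, ← AddMonoidAlgebra.single_add, ← inv_pow,
      Units.val_pow_eq_pow_val, Units.val_pow_eq_pow_val, add_comm, sub_self]
  have hR : ∀ (a b : ℕ) (i j : ℤ), E (a + 2 * b) (i + 2 * j) + E a i =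
      algebraMap (ZMod p) (B ⧸ N) (x (a + b)) * E b j +
        algebraMap (ZMod p) (B ⧸ N) (x b) * E (a + b) (i + j) := by
    intro a b i j
    have h := hrel (gg (a + b) (i + j)) (gg b j)
    rw [hxa _ _ (hgg1 (a + b) (i + j)), hxa _ _ (hgg1 b j)] at h
    rw [hcl (gg (a + b) (i + j) * gg b j) (a + 2 * b) (i + 2 * j) (by
        rw [map_mul, hgg1, hgg1, ← ofAdd_add]
        congr 1
        push_cast
        ring) (by
        rw [map_mul, map_mul, hgg2, hgg2, ← ofAdd_add]
        congr 1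
        ring),
      hcl (gg (a + b) (i + j) * (gg b j)⁻¹) a i (by
        rw [map_mul, map_inv, hgg1, hgg1, ← ofAdd_neg, ← ofAdd_add]
        congr 1
        push_cast
        ring) (by
        rw [map_mul, map_inv, map_mul, map_inv, hgg2, hgg2, ← ofAdd_neg, ← ofAdd_add]
        congr 1
        ring)] at h
    exact h
  have hspan := x1_rec hm hWJ E hE0 hR
  have hDg : ∀ g, ∃ c : ZMod p, D g = algebraMap (ZMod p) (B ⧸ N) c * E 1 1 := by
    have hpos : ∀ (g : Ext m δ) (i : ℕ), n (e1 m δ g) = Multiplicative.ofAdd (i : ℤ) →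
        ∃ c : ZMod p, D g = algebraMap (ZMod p) (B ⧸ N) c * E 1 1 := by
      intro g i hi
      obtain ⟨c, hc⟩ := hspan i (ev m δ g)
      refine ⟨c, ?_⟩
      rw [← hc]
      apply hcl
      · show e2 m δ g = Multiplicative.ofAdd (((Multiplicative.toAdd (e2 m δ g)).val : ℕ) :
          ZMod (2 * m))
        rw [ZMod.natCast_zmod_val]
        rfl
      · exact hi
    intro g
    obtain ⟨i, hi | hi⟩ := (Multiplicative.toAdd (n (e1 m δ g))).eq_nat_or_neg
    · exact hpos g i (by rw [← hi]; rfl)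
    · obtain ⟨c, hc⟩ := hpos g⁻¹ i (by
        rw [map_inv, map_inv]
        have : n (e1 m δ g) = Multiplicative.ofAdd (-(i : ℤ)) := by rw [← hi]; rfl
        rw [this, ← ofAdd_neg, neg_neg])
      exact ⟨c, by rw [← hDinv, hc]⟩
  -- every element modulo `N`
  have hall : ∀ b : B, ∃ c e : ZMod p, q b = algebraMap (ZMod p) (B ⧸ N) c +
      algebraMap (ZMod p) (B ⧸ N) e * E 1 1 := by
    intro b
    have hb : b ∈ Algebra.adjoin (ZMod p) (Set.range T) := by rw [hadj]; trivial
    induction hb using Algebra.adjoin_induction with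
    | mem z hz =>
      obtain ⟨g, rfl⟩ := hz
      obtain ⟨c, hc⟩ := hDg g
      refine ⟨x (ev m δ g), c, ?_⟩
      rw [← hc]
      show q (T g) = q (algebraMap (ZMod p) B (x (ev m δ g))) +
        q (T g - algebraMap (ZMod p) B (x (ev m δ g)))
      rw [← map_add]
      congr 1
      ring
    | algebraMap c => exact ⟨c, 0, by rw [map_zero, zero_mul, add_zero, hqc]⟩
    | add a b _ _ ha hb =>
      obtain ⟨c, e, h⟩ := ha
      obtain ⟨c', e', h'⟩ := hb
      refine ⟨c + c', e + e', ?_⟩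
      rw [map_add, h, h', map_add, map_add]
      ring
    | mul a b _ _ ha hb =>
      obtain ⟨c, e, h⟩ := ha
      obtain ⟨c', e', h'⟩ := hb
      refine ⟨c * c', c * e' + c' * e, ?_⟩
      rw [map_mul, h, h', map_mul, map_add, map_mul, map_mul]
      have h0 : E 1 1 * E 1 1 = 0 := hDD _ _
      linear_combination (algebraMap (ZMod p) (B ⧸ N) e * algebraMap (ZMod p) (B ⧸ N) e') * h0
  set y : B := τ (gg 1 1) with hydef
  have hyM : φM y = 0 := hτM _
  have hK1 : ∀ b : B, ∃ e : ZMod p, b - algebraMap (ZMod p) B (φM b) -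
      algebraMap (ZMod p) B e * y ∈ N := by
    intro b
    obtain ⟨c, e, h⟩ := hall b
    have h1 : b - algebraMap (ZMod p) B c - algebraMap (ZMod p) B e * y ∈ N := by
      apply Ideal.Quotient.eq_zero_iff_mem.1
      show q (b - algebraMap (ZMod p) B c - algebraMap (ZMod p) B e * y) = 0
      rw [map_sub, map_sub, map_mul, h]
      show algebraMap (ZMod p) (B ⧸ N) c + algebraMap (ZMod p) (B ⧸ N) e * E 1 1 -
        algebraMap (ZMod p) (B ⧸ N) c - algebraMap (ZMod p) (B ⧸ N) e * E 1 1 = 0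
      ring
    have h2 : φM (b - algebraMap (ZMod p) B c - algebraMap (ZMod p) B e * y) = 0 := hNM h1
    rw [map_sub, map_sub, map_mul, hyM, mul_zero, sub_zero, x1_phi, sub_eq_zero] at h2
    exact ⟨e, by rw [h2]; exact h1⟩
  -- the order of `r y`
  obtain ⟨v, hv, hvaug⟩ : ∃ v : Ls k, r y = (AddMonoidAlgebra.single 1 1 - 1) * v ∧
      aug k v ≠ 0 := by
    refine ⟨AddMonoidAlgebra.single 0 ((ζ⁻¹ : kˣ) : k) - AddMonoidAlgebra.single (-1) (ζ : k),
      ?_, ?_⟩
    · show r (T (gg 1 1) - algebraMap (ZMod p) B (x (ev m δ (gg 1 1)))) = _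
      have h1 : ev m δ (gg 1 1) = 1 := by
        unfold ev
        rw [hgg1, toAdd_ofAdd, ZMod.val_natCast]
        exact Nat.mod_eq_of_lt (by omega)
      rw [map_sub, hrT, x1_const, hgg2, hxζ, h1, pow_one, pow_one, pow_one, toAdd_ofAdd]
      unfold rr
      rw [sub_mul, one_mul, mul_sub, AddMonoidAlgebra.single_mul_single,
        AddMonoidAlgebra.single_mul_single, AddMonoidAlgebra.single_add, one_mul, one_mul,
        add_zero, add_neg_cancel]
      abel
    · rw [map_sub, x1_aug_single, x1_aug_single, sub_ne_zero]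
      intro h
      have h1 : ζ⁻¹ = ζ := Units.ext h
      have h2 : ζ ^ 2 = 1 := by
        rw [pow_two]
        nth_rewrite 1 [← h1]
        exact inv_mul_cancel ζ
      have h3 := orderOf_dvd_of_pow_eq_one h2
      rw [hζ] at h3
      have := Nat.le_of_dvd two_pos h3
      omega
  have hK2 : y ∉ N := by
    intro hy
    obtain ⟨m2, hm2, i, hi, hmi⟩ := Submodule.mem_sup.1 hy
    have h1 : M ≤ (Ideal.span {x1_s k}).comap r := by
      intro b hb
      rw [Ideal.mem_comap, Ideal.mem_span_singleton]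
      obtain ⟨h, hh⟩ := x1_taylor (r b)
      rw [hA, (RingHom.mem_ker.1 hb), map_zero, AddMonoidAlgebra.single_zero, zero_add] at hh
      exact ⟨h, hh⟩
    have h2 : m2 ∈ ((Ideal.span {x1_s k}) ^ 2).comap r :=
      Ideal.le_comap_pow r 2 (Ideal.pow_right_mono h1 2 hm2)
    rw [Ideal.mem_comap, Ideal.span_singleton_pow, Ideal.mem_span_singleton] at h2
    obtain ⟨w, hw⟩ := h2
    rw [RingHom.mem_ker] at hi
    have h3 : r y = x1_s k ^ 2 * w := by rw [← hmi, map_add, hi, add_zero, hw]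
    have h4 : x1_s k * v = x1_s k * (x1_s k * w) := by
      rw [← mul_assoc, ← pow_two, ← h3, hv]
      rfl
    have h5 : v = x1_s k * w := mul_left_cancel₀ (x1_s_ne k) h4
    apply hvaug
    rw [h5, map_mul, x1_aug_s, zero_mul]
  have hfin : Finite (B ⧸ M ^ 2) := Nat.finite_of_card_ne_zero (by
    rw [hcard]
    exact pow_ne_zero _ (Fact.out : p.Prime).ne_zero)
  let q2 := Ideal.Quotient.mk (M ^ 2)
  have hp1 : 1 < p := (Fact.out : p.Prime).one_lt
  -- the element `x1`
  obtain ⟨x1, hx1, hx1M⟩ : ∃ x1, r x1 = 0 ∧ x1 ∉ M ^ 2 := by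
    by_contra hcon
    push Not at hcon
    have hNle : N ≤ M ^ 2 := sup_le le_rfl fun b hb => hcon b hb
    have hsur : Function.Surjective (fun c : ZMod p × ZMod p =>
        q2 (algebraMap (ZMod p) B c.1 + algebraMap (ZMod p) B c.2 * y)) := by
      intro b
      obtain ⟨b, rfl⟩ := Ideal.Quotient.mk_surjective b
      obtain ⟨e, he⟩ := hK1 b
      refine ⟨(φM b, e), ?_⟩
      apply (Ideal.Quotient.eq).2
      rw [← neg_mem_iff]
      have h1 := hNle he
      convert h1 using 1
      ring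
    have h1 := Nat.card_le_card_of_surjective _ hsur
    rw [hcard, Nat.card_prod, Nat.card_zmod, ← pow_two] at h1
    have := (Nat.pow_le_pow_iff_right hp1).1 h1
    omega
  refine ⟨x1, y, hx1, hyM, ⟨v, hv, hvaug⟩, ?_⟩
  have hx1φ : φM x1 = 0 := hrM hx1
  let f : ZMod p × ZMod p × ZMod p →+ B ⧸ M ^ 2 := AddMonoidHom.mk' (fun c =>
    q2 (algebraMap (ZMod p) B c.1 + algebraMap (ZMod p) B c.2.1 * x1 +
      algebraMap (ZMod p) B c.2.2 * y)) (by
    intro a b
    rw [← map_add]
    congr 1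
    simp only [Prod.fst_add, Prod.snd_add, map_add]
    ring)
  have hf : Function.Injective f := by
    rw [injective_iff_map_eq_zero]
    rintro ⟨c, a, e⟩ h
    have h1 : algebraMap (ZMod p) B c + algebraMap (ZMod p) B a * x1 +
      algebraMap (ZMod p) B e * y ∈ M ^ 2 := Ideal.Quotient.eq_zero_iff_mem.1 h
    have h2 : φM (algebraMap (ZMod p) B c + algebraMap (ZMod p) B a * x1 +
      algebraMap (ZMod p) B e * y) = 0 := Ideal.pow_le_self two_ne_zero h1
    rw [map_add, map_add, map_mul, map_mul, hyM, hx1φ, mul_zero, mul_zero, add_zero, add_zero,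
      x1_phi] at h2
    subst h2
    rw [map_zero, zero_add] at h1
    have he : e = 0 := by
      by_contra hne
      apply hK2
      have h3 : y = algebraMap (ZMod p) B e⁻¹ * (algebraMap (ZMod p) B a * x1 +
          algebraMap (ZMod p) B e * y) + (-(algebraMap (ZMod p) B (e⁻¹ * a))) * x1 := by
        have h4 : algebraMap (ZMod p) B e⁻¹ * algebraMap (ZMod p) B e = 1 := by
          rw [← map_mul, inv_mul_cancel₀ hne, map_one]
        rw [map_mul]
        linear_combination (-y) * h4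
      rw [h3]
      apply N.add_mem
      · exact N.mul_mem_left _ (hM2N h1)
      · exact N.mul_mem_left _ (hrN hx1)
    subst he
    rw [map_zero, zero_mul, add_zero] at h1
    have ha : a = 0 := by
      by_contra hne
      apply hx1M
      have h3 : x1 = algebraMap (ZMod p) B a⁻¹ * (algebraMap (ZMod p) B a * x1) := by
        rw [← mul_assoc, ← map_mul, inv_mul_cancel₀ hne, map_one, one_mul]
      rw [h3]
      exact Ideal.mul_mem_left _ _ h1
    subst ha
    rfl
  have hbij : Function.Bijective f := hf.bijective_of_nat_card_le (by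
    rw [hcard, Nat.card_prod, Nat.card_prod, Nat.card_zmod]
    exact le_of_eq (by ring))
  intro b hb
  obtain ⟨⟨c, a, e⟩, h⟩ := hbij.2 (q2 b)
  have h1 : (algebraMap (ZMod p) B c + algebraMap (ZMod p) B a * x1 +
      algebraMap (ZMod p) B e * y) - b ∈ M ^ 2 := (Ideal.Quotient.eq).1 h
  have h2 : φM ((algebraMap (ZMod p) B c + algebraMap (ZMod p) B a * x1 +
      algebraMap (ZMod p) B e * y) - b) = 0 := Ideal.pow_le_self two_ne_zero h1
  rw [map_sub, map_add, map_add, map_mul, map_mul, hyM, hx1φ, mul_zero, mul_zero, add_zero,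
    add_zero, x1_phi, hb, sub_zero] at h2
  subst h2
  have h3 : b = (algebraMap (ZMod p) B a * x1 + algebraMap (ZMod p) B e * y) +
      (-((algebraMap (ZMod p) B 0 + algebraMap (ZMod p) B a * x1 +
      algebraMap (ZMod p) B e * y) - b)) := by rw [map_zero]; ring
  rw [h3]
  apply Submodule.add_mem_sup
  · exact Ideal.mem_span_pair.2 ⟨_, _, rfl⟩
  · exact neg_mem h1

end Pool.Agent.CZA
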