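import Pool.Agent.Lib.MP_305fdd_al.CZ.A.Stm

/-!
# [CA aga] the values generate the explicit ring
-/

set_option autoImplicit false

namespace Pool.Agent.CZA

open MvPolynomial Pool.Agent.Lib.MP_305fdd_al Pool.Agent.MP_305fdd_al Pool.Agent.CZ
open Pool.Agent.F2 (PC Corr Fr gx gy)
open Pool.Agent.F2TF (Pol fpow)

theorem aga_idem {p m : ℕ} [Fact p.Prime] {x : ℕ → ZMod p} (hx : WJ p m x) {A : Type}
    [CommRing A] [Algebra (ZMod p) A] (S : Subalgebra (ZMod p) A) (ξ : A) (hξ : ξ ∈ S)
    (i0 : ℕ) (hi0 : i0 ≤ m) :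
    ∃ E ∈ S, ∀ (B : Type) [CommRing B] [Algebra (ZMod p) B] (ψ : A →ₐ[ZMod p] B) (i : ℕ), i ≤ m →
      ψ ξ = algebraMap (ZMod p) B (x i) → ψ E = if i = i0 then 1 else 0 := by
  refine ⟨∏ i' ∈ (Finset.range (m + 1)).erase i0,
    (algebraMap (ZMod p) A ((x i0 - x i')⁻¹) * (ξ - algebraMap (ZMod p) A (x i'))), ?_, ?_⟩
  · apply Subalgebra.prod_mem
    intro i' _
    exact S.mul_mem (S.algebraMap_mem _) (S.sub_mem hξ (S.algebraMap_mem _))
  · intro B _ _ ψ i hi hψ
    rw [map_prod]
    have h1 : ∀ i' ∈ (Finset.range (m + 1)).erase i0,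
        ψ (algebraMap (ZMod p) A ((x i0 - x i')⁻¹) * (ξ - algebraMap (ZMod p) A (x i')))
          = algebraMap (ZMod p) B ((x i0 - x i')⁻¹ * (x i - x i')) := by
      intro i' _
      rw [map_mul, map_sub, hψ, AlgHom.commutes, AlgHom.commutes, map_mul, map_sub]
    rw [Finset.prod_congr rfl h1]
    split_ifs with hii
    · apply Finset.prod_eq_one
      intro i' hi'
      rw [Finset.mem_erase, Finset.mem_range] at hi'
      have hne : x i0 - x i' ≠ 0 := by
        intro h
        exact hi'.1 (hx.ne i0 i' hi0 (by omega) (sub_eq_zero.mp h)).symm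
      rw [hii, inv_mul_cancel₀ hne, map_one]
    · apply Finset.prod_eq_zero (i := i)
      · rw [Finset.mem_erase, Finset.mem_range]
        exact ⟨hii, by omega⟩
      · rw [sub_self, mul_zero, map_zero]

theorem aga_ev_ug (m : ℕ) (hm : 2 ≤ m) : ev m (dG m) (ug m) = 1 := by
  have h1 : e2 m (dG m) (ug m) = Multiplicative.ofAdd ((1 : ℕ) : ZMod (2 * m)) := rfl
  unfold ev
  rw [h1, toAdd_ofAdd, ZMod.val_natCast]
  exact Nat.mod_eq_of_lt (by omega)

theorem aga_ev_tg (m : ℕ) : ev m (dG m) (tg m) = 0 := by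
  have h1 : e2 m (dG m) (tg m) = 1 := rfl
  unfold ev
  rw [h1, toAdd_one, ZMod.val_zero]

theorem aga_n_ug (m : ℕ) : nG m (e1 m (dG m) (ug m)) = 1 := by
  have h1 : e1 m (dG m) (ug m) = Monoid.Coprod.inl (Multiplicative.ofAdd 1) := rfl
  rw [h1, nG, Monoid.Coprod.lift_apply_inl, MonoidHom.one_apply]

theorem aga_n_tg (m : ℕ) : nG m (e1 m (dG m) (tg m)) = Multiplicative.ofAdd 1 := by
  have h1 : e1 m (dG m) (tg m) = Monoid.Coprod.inr (Multiplicative.ofAdd 1) := rfl
  rw [h1, nG, Monoid.Coprod.lift_apply_inr, MonoidHom.id_apply]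

/-- the coordinates -/
noncomputable def aga_c1 {p m : ℕ} (j : JJ m) : AG p m →ₐ[ZMod p] Pol p 2 :=
  (Pi.evalAlgHom (ZMod p) (fun _ : JJ m => Pol p 2) j).comp
    (AlgHom.fst (ZMod p) (A2 p m) (A1 p m))

noncomputable def aga_c2 {p m : ℕ} (s : SS m) : AG p m →ₐ[ZMod p] Polynomial (ZMod p) :=
  (Pi.evalAlgHom (ZMod p) (fun _ : SS m => Polynomial (ZMod p)) s).comp
    (AlgHom.snd (ZMod p) (A2 p m) (A1 p m))

theorem aga_c1_apply {p m : ℕ} (j : JJ m) (a : AG p m) : aga_c1 j a = a.1 j := rfl

theorem aga_c2_apply {p m : ℕ} (s : SS m) (a : AG p m) : aga_c2 s a = a.2 s := rfl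

theorem p_aga : S_aga := by
  classical
  intro p m _ _ x hp hm hx T hT
  set S := Algebra.adjoin (ZMod p) (Set.range T) with hS
  have hmem : ∀ g, T g ∈ S := fun g => Algebra.subset_adjoin ⟨g, rfl⟩
  have hc1 : ∀ j : JJ m, aga_c1 j (T (ug m)) = algebraMap (ZMod p) (Pol p 2) (x j.1) := by
    intro j
    rw [aga_c1_apply, hT.u j]
    rfl
  have hc2 : ∀ s : SS m, aga_c2 s (T (ug m)) = algebraMap (ZMod p) (Polynomial (ZMod p)) (x m) := by
    intro s
    rw [aga_c2_apply, hT.sc s, aga_ev_ug m hm, aga_n_ug, toAdd_one, Polynomial.Chebyshev.C_zero,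
      hx.top, map_neg, map_ofNat]
    ring
  have htgs : ∀ s : SS m, (T (tg m)).2 s = Polynomial.X := by
    intro s
    rw [hT.sc s, aga_ev_tg, aga_n_tg, toAdd_ofAdd, Polynomial.Chebyshev.C_one, pow_zero, one_mul]
  -- the elements supported at one coordinate `j`
  have h1 : ∀ (j : JJ m) (q : Pol p 2), ((Pi.single j q, 0) : AG p m) ∈ S := by
    intro j q
    obtain ⟨E, hE, hEψ⟩ := aga_idem hx S (T (ug m)) (hmem _) j.1 (by have := j.1.2; omega)
    have hE1 : ∀ j' : JJ m, E.1 j' = if j' = j then 1 else 0 := by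
      intro j'
      have h2 := hEψ (Pol p 2) (aga_c1 j') j'.1 (by have := j'.1.2; omega) (hc1 j')
      rw [aga_c1_apply] at h2
      rw [h2]
      by_cases h3 : j' = j
      · rw [if_pos h3, if_pos (by rw [h3])]
      · rw [if_neg h3, if_neg]
        intro h4
        exact h3 (Subtype.ext (Fin.ext h4))
    have hE2 : ∀ s : SS m, E.2 s = 0 := by
      intro s
      have h2 := hEψ (Polynomial (ZMod p)) (aga_c2 s) m le_rfl (hc2 s)
      rw [aga_c2_apply] at h2
      rw [h2, if_neg]
      have := j.1.2
      omega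
    induction q using MvPolynomial.induction_on with
    | C a =>
      have h2 : ((Pi.single j (MvPolynomial.C a), 0) : AG p m) = a • E := by
        apply Prod.ext
        · funext j'
          change (Pi.single j (MvPolynomial.C a) : JJ m → Pol p 2) j' = a • E.1 j'
          rw [hE1]
          by_cases h3 : j' = j
          · subst h3
            rw [if_pos rfl, Pi.single_eq_same, MvPolynomial.smul_eq_C_mul, mul_one]
          · rw [if_neg h3, Pi.single_eq_of_ne h3, smul_zero]
        · funext s
          change (0 : Polynomial (ZMod p)) = a • E.2 s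
          rw [hE2, smul_zero]
      rw [h2]
      exact S.smul_mem hE a
    | add q1 q2 ih1 ih2 =>
      have h2 : ((Pi.single j (q1 + q2), 0) : AG p m) = (Pi.single j q1, 0) + (Pi.single j q2, 0) := by
        rw [Prod.mk_add_mk, ← Pi.single_add, add_zero]
      rw [h2]
      exact S.add_mem ih1 ih2
    | mul_X q i ih =>
      have h3 : ∀ a : AG p m, a ∈ S → a.1 j = MvPolynomial.X i →
          ((Pi.single j (q * MvPolynomial.X i), 0) : AG p m) ∈ S := by
        intro a ha haj
        have h2 : ((Pi.single j (q * MvPolynomial.X i), 0) : AG p m) = (Pi.single j q, 0) * a := by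
          apply Prod.ext
          · funext j'
            change (Pi.single j (q * MvPolynomial.X i) : JJ m → Pol p 2) j' =
              (Pi.single j q : JJ m → Pol p 2) j' * a.1 j'
            by_cases h3 : j' = j
            · subst h3
              rw [Pi.single_eq_same, Pi.single_eq_same, haj]
            · rw [Pi.single_eq_of_ne h3, Pi.single_eq_of_ne h3, zero_mul]
          · funext s
            change (0 : Polynomial (ZMod p)) = 0 * a.2 s
            rw [zero_mul]
        rw [h2]
        exact S.mul_mem ih ha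
      fin_cases i
      · exact h3 _ (hmem (tg m)) (hT.t j)
      · exact h3 _ (hmem (ug m * tg m)) (hT.ut j)
  -- the scalar coordinate
  have h2 : ∀ q : Polynomial (ZMod p), ((0, fun _ => q) : AG p m) ∈ S := by
    intro q
    obtain ⟨E, hE, hEψ⟩ := aga_idem hx S (T (ug m)) (hmem _) m le_rfl
    have hE1 : ∀ j' : JJ m, E.1 j' = 0 := by
      intro j'
      have h2 := hEψ (Pol p 2) (aga_c1 j') j'.1 (by have := j'.1.2; omega) (hc1 j')
      rw [aga_c1_apply] at h2
      rw [h2, if_neg]
      have := j'.1.2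
      omega
    have hE2 : ∀ s : SS m, E.2 s = 1 := by
      intro s
      have h2 := hEψ (Polynomial (ZMod p)) (aga_c2 s) m le_rfl (hc2 s)
      rw [aga_c2_apply] at h2
      rw [h2, if_pos rfl]
    induction q using Polynomial.induction_on with
    | C a =>
      have h3 : ((0, fun _ => Polynomial.C a) : AG p m) = a • E := by
        apply Prod.ext
        · funext j'
          change (0 : Pol p 2) = a • E.1 j'
          rw [hE1, smul_zero]
        · funext s
          change Polynomial.C a = a • E.2 s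
          rw [hE2, Polynomial.smul_eq_C_mul, mul_one]
      rw [h3]
      exact S.smul_mem hE a
    | add q1 q2 ih1 ih2 =>
      have h3 : ((0, fun _ => q1 + q2) : AG p m) = (0, fun _ => q1) + (0, fun _ => q2) := by
        apply Prod.ext
        · change (0 : A2 p m) = 0 + 0
          rw [add_zero]
        · rfl
      rw [h3]
      exact S.add_mem ih1 ih2
    | monomial n a ih =>
      have h3 : ((0, fun _ => Polynomial.C a * Polynomial.X ^ (n + 1)) : AG p m)
          = (0, fun _ => Polynomial.C a * Polynomial.X ^ n) * T (tg m) := by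
        apply Prod.ext
        · funext j'
          change (0 : Pol p 2) = 0 * (T (tg m)).1 j'
          rw [zero_mul]
        · funext s
          change Polynomial.C a * Polynomial.X ^ (n + 1)
            = Polynomial.C a * Polynomial.X ^ n * (T (tg m)).2 s
          rw [htgs, pow_succ, mul_assoc]
      rw [h3]
      exact S.mul_mem ih (hmem _)
  rw [eq_top_iff]
  rintro ⟨f, h⟩ -
  have h3 : ((f, h) : AG p m) = (∑ j, ((Pi.single j (f j), 0) : AG p m)) + (0, h) := by
    apply Prod.ext
    · rw [Prod.fst_add, Prod.fst_sum, add_zero]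
      exact (Finset.univ_sum_single f).symm
    · rw [Prod.snd_add, Prod.snd_sum]
      simp
  rw [h3]
  apply S.add_mem
  · exact S.sum_mem fun j _ => h1 j _
  · by_cases hne : Nonempty (SS m)
    · obtain ⟨s0⟩ := hne
      have h4 : h = fun _ => h s0 := by
        funext s
        have : s = s0 := Subtype.ext rfl
        rw [this]
      rw [h4]
      exact h2 _
    · have h4 : h = 0 := by
        funext s
        exact absurd ⟨s⟩ hne
      rw [h4]
      exact S.zero_mem

end Pool.Agent.CZA
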