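import Pool.Agent.Lib.MP_305fdd_al.CZ.A.Stm
import Pool.Agent.Lib.MP_305fdd_al.F2.Setup

/-!
# [CA agt] the pseudo-character with values in the explicit ring
-/

set_option autoImplicit false

namespace Pool.Agent.CZA

open MvPolynomial Pool.Agent.Lib.MP_305fdd_al Pool.Agent.MP_305fdd_al Pool.Agent.CZ
open Pool.Agent.F2 (PC Corr Fr gx gy)
open Pool.Agent.F2TF (Pol fpow)

theorem agt_map {G R S : Type} [Group G] [CommRing R] [CommRing S] (f : R →+* S) {T : G → R}
    (hT : PC T) : PC (fun g => f (T g)) := by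
  refine ⟨?_, ?_, ?_⟩
  · rw [hT.one, map_ofNat]
  · intro g h
    rw [hT.comm]
  · intro g h
    rw [← map_add, ← map_mul, hT.rel]

/-- the evaluation at `C (x j), X 0, X 1` -/
noncomputable def agt_phi (p : ℕ) (a : ZMod p) : MvPolynomial (Fin 3) (ZMod p) →ₐ[ZMod p] Pol p 2 :=
  aeval ![C a, X 0, X 1]

theorem agt_one {p m : ℕ} [Fact p.Prime] {x : ℕ → ZMod p} (hrec : S_rec) (hx : WJ p m x)
    (j : JJ m) (h : Fr) :
    agt_phi p (x j.1) (F2.TA (ZMod p) (gx ^ m * h)) = -agt_phi p (x j.1) (F2.TA (ZMod p) h) := by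
  obtain ⟨hpc, h0, h1, h2⟩ := F2.t_tapc (ZMod p)
  have hT : PC (fun g => (agt_phi p (x j.1)).toRingHom (F2.TA (ZMod p) g)) := agt_map _ hpc
  have h3 := (hrec Fr (Pol p 2) _ hT gx m).1 h
  have h4 : (agt_phi p (x j.1)).toRingHom (F2.TA (ZMod p) gx) = C (x j.1) := by
    rw [h0]
    change agt_phi p (x j.1) (X 0) = _
    unfold agt_phi
    rw [aeval_X]
    rfl
  have hS : ∀ n : ℤ, (Polynomial.Chebyshev.S (Pol p 2) n).eval (C (x j.1))
      = C ((Polynomial.Chebyshev.S (ZMod p) n).eval (x j.1)) := by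
    intro n
    rw [← Polynomial.Chebyshev.map_S (C : ZMod p →+* Pol p 2), Polynomial.eval_map,
      Polynomial.eval₂_at_apply]
  obtain ⟨s1, s2⟩ := hx.s1 j.1 j.1.2 j.2
  rw [h4, hS, hS, s1, s2, map_zero, map_one, zero_mul, one_mul, zero_sub] at h3
  exact h3

theorem p_agt (hgam : S_gam) (hrec : S_rec) (hneg : S_neg) : S_agt := by
  intro p m _ _ x hp hm hx
  obtain ⟨π, hπs, hπx, hπy, hπc, hπT⟩ := hgam m
  obtain ⟨hpc, h0, h1, h2⟩ := F2.t_tapc (ZMod p)
  have hex : ∀ j : JJ m, ∃ T' : Ext m (dG m) → Pol p 2, PC T' ∧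
      ∀ w, T' (π w) = agt_phi p (x j.1) (F2.TA (ZMod p) w) := by
    intro j
    have hT : PC (fun g => (agt_phi p (x j.1)).toRingHom (F2.TA (ZMod p) g)) := agt_map _ hpc
    exact hπT (Pol p 2) _ hT (fun g => agt_one hrec hx j g)
  choose T' hT'pc hT' using hex
  have hsc := (hneg.2 p m (Gam m) (dG m) (nG m))
  refine ⟨fun g => (fun j => T' j g, fun _ => Tsc p m (dG m) (nG m) g), ?_⟩
  refine ⟨⟨?_, ?_, ?_⟩, ?_, ?_, ?_, ?_, ?_⟩
  · apply Prod.ext
    · funext j
      exact (hT'pc j).one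
    · funext s
      exact hsc.1.one
  · intro g h
    apply Prod.ext
    · funext j
      exact (hT'pc j).comm g h
    · funext s
      exact hsc.1.comm g h
  · intro g h
    apply Prod.ext
    · funext j
      exact (hT'pc j).rel g h
    · funext s
      exact hsc.1.rel g h
  · apply Prod.ext
    · funext j
      change T' j (cc m (dG m)) = -2
      rw [← hπc, hT' j]
      have h3 := agt_one hrec hx j 1
      rw [mul_one, hpc.one, map_ofNat] at h3
      exact h3
    · funext s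
      exact hsc.2 s.2
  · intro j
    change T' j (ug m) = _
    rw [← hπx, hT' j, h0]
    unfold agt_phi
    rw [aeval_X]
    rfl
  · intro j
    change T' j (tg m) = _
    rw [← hπy, hT' j, h1]
    unfold agt_phi
    rw [aeval_X]
    rfl
  · intro j
    change T' j (ug m * tg m) = _
    rw [← hπx, ← hπy, ← map_mul, hT' j, h2]
    unfold agt_phi
    rw [aeval_X]
    rfl
  · intro s g
    rfl

end Pool.Agent.CZA
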