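import Pool.Agent.Lib.MP_305fdd_al.CZ.A.Stm
import Pool.Agent.Lib.MP_305fdd_al.PSL.PChar

/-!
# MP_305fdd_al (`C_m * Z`), part A: proof of `S_agu`
-/

set_option autoImplicit false

namespace Pool.Agent.CZA

open MvPolynomial Pool.Agent.Lib.MP_305fdd_al Pool.Agent.MP_305fdd_al Pool.Agent.CZ
open Pool.Agent.F2 (PC Corr Fr gx gy)
open Pool.Agent.F2TF (Pol fpow)
open Pool.Agent.CC (IsTR)

private theorem agu_pchar {G R : Type} [Group G] [CommRing R] {T : G → R} (h : PC T) :
    Pool.Agent.PSL2Z.PChar (1 : G →* ℤˣ) T where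
  one := h.one
  comm := h.comm
  rel g k := by
    rw [MonoidHom.one_apply, Units.val_one, Int.cast_one, one_mul]
    exact h.rel g k

private theorem agu_map {G R S : Type} [Group G] [CommRing R] [CommRing S] {T : G → R}
    (hT : PC T) (f : R →+* S) : PC (fun g => f (T g)) where
  one := by rw [hT.one, map_ofNat]
  comm g h := by rw [hT.comm]
  rel g h := by rw [← map_add, hT.rel, map_mul]

/-- pseudo-characters which agree on generators after multiplication with an idempotent -/
private theorem agu_loc {G R : Type} [Group G] [CommRing R] {x y : G}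
    (hgen : Subgroup.closure ({x, y} : Set G) = ⊤) {T₁ T₂ : G → R} (h₁ : PC T₁) (h₂ : PC T₂)
    (e : R) (he : e * e = e) (hx : e * T₁ x = e * T₂ x) (hy : e * T₁ y = e * T₂ y)
    (hxy : e * T₁ (x * y) = e * T₂ (x * y)) (g : G) : e * T₁ g = e * T₂ g := by
  have hmk : ∀ a b : R, e * a = e * b → Ideal.Quotient.mk (Ideal.span {1 - e}) a =
      Ideal.Quotient.mk (Ideal.span {1 - e}) b := by
    intro a b hab
    rw [Ideal.Quotient.eq, Ideal.mem_span_singleton]
    exact ⟨a - b, by linear_combination hab⟩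
  have h := Pool.Agent.PSL2Z.PChar.unique hgen
    (agu_pchar (agu_map h₁ (Ideal.Quotient.mk (Ideal.span {1 - e}))))
    (agu_pchar (agu_map h₂ (Ideal.Quotient.mk (Ideal.span {1 - e}))))
    (hmk _ _ hx) (hmk _ _ hy) (hmk _ _ hxy)
  have hg := congrFun h g
  rw [Ideal.Quotient.eq, Ideal.mem_span_singleton] at hg
  obtain ⟨r, hr⟩ := hg
  linear_combination e * hr - r * he

/-- the homomorphism given by orthogonal idempotents -/
private def agu_hom {k A R ι : Type} [CommRing k] [CommRing A] [CommRing R] [Algebra k A]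
    [Algebra k R] [Fintype ι] (ε : ι → R) (ψ : ι → A →ₐ[k] R) (h1 : ∀ i, ε i * ε i = ε i)
    (h2 : ∀ i j, i ≠ j → ε i * ε j = 0) (h3 : ∑ i, ε i = 1) : A →ₐ[k] R where
  toFun a := ∑ i, ε i * ψ i a
  map_one' := by simp [h3]
  map_mul' a b := by
    rw [Finset.sum_mul_sum]
    refine Finset.sum_congr rfl fun i _ => ?_
    rw [Finset.sum_eq_single i]
    · rw [map_mul]
      linear_combination (-(ψ i a * ψ i b)) * h1 i
    · intro j _ hj
      linear_combination (ψ i a * ψ j b) * h2 i j (Ne.symm hj)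
    · intro h
      exact absurd (Finset.mem_univ i) h
  map_zero' := by simp
  map_add' a b := by simp [mul_add, Finset.sum_add_distrib]
  commutes' r := by simp [← Finset.sum_mul, h3]

private theorem agu_frgen : Subgroup.closure ({gx, gy} : Set Fr) = ⊤ := by
  have h : ({gx, gy} : Set Fr) = Set.range (FreeGroup.of : Fin 2 → Fr) := by
    ext g
    simp only [Set.mem_insert_iff, Set.mem_singleton_iff, Set.mem_range, gx, gy]
    constructor
    · rintro (rfl | rfl)
      · exact ⟨0, rfl⟩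
      · exact ⟨1, rfl⟩
    · rintro ⟨i, rfl⟩
      fin_cases i
      · exact Or.inl rfl
      · exact Or.inr rfl
  rw [h]
  exact FreeGroup.closure_range_of _

private theorem agu_gen {G : Type} [Group G] (π : Fr →* G) (hπ : Function.Surjective π) {x y : G}
    (h1 : π gx = x) (h2 : π gy = y) : Subgroup.closure ({x, y} : Set G) = ⊤ := by
  rw [← h1, ← h2, ← Set.image_pair, ← MonoidHom.map_closure, agu_frgen, ← MonoidHom.range_eq_map,
    MonoidHom.range_eq_top]
  exact hπ

private theorem agu_ev_ug (m : ℕ) (hm : 2 ≤ m) : ev m (dG m) (ug m) = 1 := by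
  show (((1 : ℕ) : ZMod (2 * m))).val = 1
  rw [ZMod.val_natCast]
  exact Nat.mod_eq_of_lt (by omega)

private theorem agu_ev_tg (m : ℕ) : ev m (dG m) (tg m) = 0 := by
  show ((0 : ZMod (2 * m))).val = 0
  exact ZMod.val_zero

private theorem agu_ev_mul (m : ℕ) (hm : 2 ≤ m) : ev m (dG m) (ug m * tg m) = 1 := by
  have h : ev m (dG m) (ug m * tg m) = (((1 : ℕ) : ZMod (2 * m)) + 0).val := rfl
  rw [h, add_zero, ZMod.val_natCast]
  exact Nat.mod_eq_of_lt (by omega)

private theorem agu_n_ug (m : ℕ) : nG m (e1 m (dG m) (ug m)) = 1 := by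
  show nG m (Monoid.Coprod.inl (Multiplicative.ofAdd 1)) = 1
  rw [nG, Monoid.Coprod.lift_apply_inl, MonoidHom.one_apply]

private theorem agu_n_tg (m : ℕ) : nG m (e1 m (dG m) (tg m)) = Multiplicative.ofAdd 1 := by
  show nG m (Monoid.Coprod.inr (Multiplicative.ofAdd 1)) = Multiplicative.ofAdd 1
  rw [nG, Monoid.Coprod.lift_apply_inr, MonoidHom.id_apply]

private theorem agu_n_mul (m : ℕ) :
    nG m (e1 m (dG m) (ug m * tg m)) = Multiplicative.ofAdd 1 := by
  rw [map_mul, map_mul, agu_n_ug, agu_n_tg, one_mul]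

theorem p_agu (hgam : S_gam) (hcut : S_cut) (hneg : S_neg) (hex : S_ex) : S_agu := by
  classical
  intro p m _ _ x hp hm hpm hW T hV R _ _ T' hT' hc
  obtain ⟨π, hπ, hπx, hπy, hπc, -⟩ := hgam m
  have hgen := agu_gen π hπ hπx hπy
  obtain ⟨hcen, hcc, -⟩ := hex m (Gam m) (dG m)
  have h2 : IsUnit (2 : R) := by
    have h3 : IsUnit (2 : ZMod p) := by
      rw [isUnit_iff_ne_zero]
      intro h
      have h4 : ((2 : ℕ) : ZMod p) = 0 := by exact_mod_cast h
      rw [ZMod.natCast_eq_zero_iff] at h4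
      exact hp ((Nat.prime_dvd_prime_iff_eq (Fact.out : p.Prime) Nat.prime_two).1 h4)
    have h5 := h3.map (algebraMap (ZMod p) R)
    rwa [map_ofNat] at h5
  have hneg' := hneg.1 (Ext m (dG m)) R T' (cc m (dG m)) h2 hT' hcen hcc hc
  have hum : ug m ^ m = cc m (dG m) := by rw [← hπx, ← map_pow, hπc]
  obtain ⟨e, he1, he2, he3, heX, he0, hem⟩ := hcut p m x hp hm hpm hW (Ext m (dG m)) R T' (ug m)
    hT' (fun h => by rw [hum]; exact hneg' h)
  -- the components
  let ψ : JJ m ⊕ SS m → (AG p m →ₐ[ZMod p] R) := Sum.elim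
    (fun j => (MvPolynomial.aeval ![T' (tg m), T' (ug m * tg m)]).comp
      ((Pi.evalAlgHom (ZMod p) (fun _ : JJ m => Pol p 2) j).comp
        (AlgHom.fst (ZMod p) (A2 p m) (A1 p m))))
    (fun t => (Polynomial.aeval (T' (tg m))).comp
      ((Pi.evalAlgHom (ZMod p) (fun _ : SS m => Polynomial (ZMod p)) t).comp
        (AlgHom.snd (ZMod p) (A2 p m) (A1 p m))))
  let ε : JJ m ⊕ SS m → R := Sum.elim (fun j => e j.1.castSucc) (fun _ => e (Fin.last m))
  have k1 : ∀ i, ε i * ε i = ε i := by
    rintro (j | t)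
    · exact he1 _
    · exact he1 _
  have k2 : ∀ i j, i ≠ j → ε i * ε j = 0 := by
    rintro (j | t) (j' | t') hne
    · refine he2 _ _ fun h => hne ?_
      have : j = j' := Subtype.ext (Fin.castSucc_injective m h)
      rw [this]
    · exact he2 _ _ (Fin.castSucc_lt_last _).ne
    · exact he2 _ _ (Fin.castSucc_lt_last _).ne'
    · exfalso
      apply hne
      have : t = t' := Subtype.ext rfl
      rw [this]
  have k3 : ∑ i, ε i = 1 := by
    rw [Fintype.sum_sum_type, ← he3, Fin.sum_univ_castSucc]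
    congr 1
    · have h4 : ∑ j : JJ m, e j.1.castSucc =
          ∑ j ∈ Finset.univ.filter (fun j : Fin m => (j : ℕ) % 2 = 1), e j.castSucc :=
        (Finset.sum_subtype _ (fun j => by simp) (fun j : Fin m => e j.castSucc)).symm
      have h5 : ∑ j : JJ m, ε (Sum.inl j) = ∑ j : JJ m, e j.1.castSucc := rfl
      rw [h5, h4]
      refine Finset.sum_subset (Finset.subset_univ _) fun j _ hj => ?_
      refine he0 _ ?_
      have h6 : ¬ (j : ℕ) % 2 = 1 := fun h => hj (Finset.mem_filter.2 ⟨Finset.mem_univ _, h⟩)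
      rw [Fin.val_castSucc]
      omega
    · show ∑ _t : SS m, e (Fin.last m) = e (Fin.last m)
      by_cases hodd : m % 2 = 1
      · have : Unique (SS m) := ⟨⟨⟨(), hodd⟩⟩, fun t => Subtype.ext rfl⟩
        rw [Fintype.sum_unique]
      · have h7 : e (Fin.last m) = 0 := he0 _ (by rw [Fin.val_last]; omega)
        rw [h7, Finset.sum_const_zero]
  have key : ∀ i g, ε i * ψ i (T g) = ε i * T' g := by
    rintro (j | t)
    · refine agu_loc hgen (agu_map hV.pc (ψ (Sum.inl j)).toRingHom) hT' _ (k1 (Sum.inl j)) ?_ ?_ ?_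
      · show e j.1.castSucc * MvPolynomial.aeval ![T' (tg m), T' (ug m * tg m)]
          ((T (ug m)).1 j) = e j.1.castSucc * T' (ug m)
        rw [hV.u, MvPolynomial.aeval_C, heX]
        rfl
      · show e j.1.castSucc * MvPolynomial.aeval ![T' (tg m), T' (ug m * tg m)]
          ((T (tg m)).1 j) = e j.1.castSucc * T' (tg m)
        rw [hV.t, MvPolynomial.aeval_X]
        rfl
      · show e j.1.castSucc * MvPolynomial.aeval ![T' (tg m), T' (ug m * tg m)]
          ((T (ug m * tg m)).1 j) = e j.1.castSucc * T' (ug m * tg m)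
        rw [hV.ut, MvPolynomial.aeval_X]
        rfl
    · refine agu_loc hgen (agu_map hV.pc (ψ (Sum.inr t)).toRingHom) hT' _ (k1 (Sum.inr t)) ?_ ?_ ?_
      · show e (Fin.last m) * Polynomial.aeval (T' (tg m)) ((T (ug m)).2 t) =
          e (Fin.last m) * T' (ug m)
        rw [hV.sc, agu_ev_ug m hm, agu_n_ug, heX, Fin.val_last, hW.top]
        simp
        rw [map_ofNat, map_ofNat]
      · show e (Fin.last m) * Polynomial.aeval (T' (tg m)) ((T (tg m)).2 t) =
          e (Fin.last m) * T' (tg m)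
        rw [hV.sc, agu_ev_tg m, agu_n_tg]
        simp
      · show e (Fin.last m) * Polynomial.aeval (T' (tg m)) ((T (ug m * tg m)).2 t) =
          e (Fin.last m) * T' (ug m * tg m)
        rw [hV.sc, agu_ev_mul m hm, agu_n_mul]
        have h8 := hem (tg m)
        simp
        linear_combination -h8
  refine ⟨agu_hom ε ψ k1 k2 k3, fun g => ?_⟩
  show ∑ i, ε i * ψ i (T g) = T' g
  rw [Finset.sum_congr rfl fun i _ => key i g, ← Finset.sum_mul, k3, one_mul]

end Pool.Agent.CZA
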