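import Pool.Agent.Lib.MP_305fdd_al.CZ.A.Stm
import Pool.Agent.Lib.MP_305fdd_al.Solv.Abel

/-!
# [CA cls]: the abelianisation of a group in the genus of `C_m * Z`
-/

set_option autoImplicit false

namespace Pool.Agent.CZA

open Pool.Agent.Lib.MP_305fdd_al Pool.Agent.MP_305fdd_al Pool.Agent.CZ
open Pool.Agent.Lib.MP_305fdd_al.Solv

theorem cls_dn_surj (m : ℕ) : Function.Surjective ((dG m).prod (nG m)) := by
  rintro ⟨x, y⟩
  refine ⟨Monoid.Coprod.inl x * Monoid.Coprod.inr y, ?_⟩
  simp [dG, nG]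

theorem cls_same (m : ℕ) {Λ : Type} [Group Λ] (Φ : NatBij (Gam m) Λ) :
    SameFiniteQuotients (Abelianization Λ)
      (Multiplicative (ZMod m) × Multiplicative ℤ) := by
  intro Q _ _
  constructor
  · rintro ⟨φ, hφ⟩
    let _ : CommGroup Q :=
      { (inferInstance : Group Q) with
        mul_comm := by
          intro a b
          obtain ⟨a, rfl⟩ := hφ a
          obtain ⟨b, rfl⟩ := hφ b
          rw [← map_mul, mul_comm, map_mul] }
    have hs : Function.Surjective (φ.comp Abelianization.of) := hφ.comp of_surj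
    have h1 : (Φ.invFun Q (φ.comp Abelianization.of)).range = ⊤ := by
      rw [← Φ.range_eq, Φ.right_inv]
      exact MonoidHom.range_eq_top.mpr hs
    have h2 := MonoidHom.range_eq_top.mp h1
    set ψ := Φ.invFun Q (φ.comp Abelianization.of)
    refine ⟨(ψ.comp Monoid.Coprod.inl).coprod (ψ.comp Monoid.Coprod.inr), ?_⟩
    have h3 : ((ψ.comp Monoid.Coprod.inl).coprod (ψ.comp Monoid.Coprod.inr)).comp
        ((dG m).prod (nG m)) = ψ := by
      apply Monoid.Coprod.hom_ext
      · ext x
        simp [dG, nG]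
      · ext
        simp [dG, nG]
    intro q
    obtain ⟨x, hx⟩ := h2 q
    refine ⟨((dG m).prod (nG m)) x, ?_⟩
    rw [← hx]
    exact DFunLike.congr_fun h3 x
  · rintro ⟨φ, hφ⟩
    let _ : CommGroup Q :=
      { (inferInstance : Group Q) with
        mul_comm := by
          intro a b
          obtain ⟨a, rfl⟩ := hφ a
          obtain ⟨b, rfl⟩ := hφ b
          rw [← map_mul, mul_comm, map_mul] }
    have hs : Function.Surjective (φ.comp ((dG m).prod (nG m))) := hφ.comp (cls_dn_surj m)
    have h1 : (Φ.toFun Q (φ.comp ((dG m).prod (nG m)))).range = ⊤ := by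
      rw [Φ.range_eq]
      exact MonoidHom.range_eq_top.mpr hs
    have h2 := MonoidHom.range_eq_top.mp h1
    refine ⟨Abelianization.lift (Φ.toFun Q (φ.comp ((dG m).prod (nG m)))), ?_⟩
    intro q
    obtain ⟨x, rfl⟩ := h2 q
    exact ⟨Abelianization.of x, Abelianization.lift_apply_of _ x⟩

theorem cls_ixZ (n : ℕ) (hn : 0 < n) : ix (Multiplicative ℤ) n = n := by
  have e : Multiplicative ℤ ≃* Multiplicative (Fin 1 → ℤ) :=
    { toFun := fun x => Multiplicative.ofAdd fun _ => Multiplicative.toAdd x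
      invFun := fun v => Multiplicative.ofAdd (Multiplicative.toAdd v 0)
      left_inv := by intro x; rfl
      right_inv := by
        intro v
        apply Multiplicative.toAdd.injective
        funext i
        fin_cases i
        rfl
      map_mul' := by
        intro x y
        rfl }
  rw [ix_congr e, ix_free 1 n hn, pow_one]

theorem cls_ab (m : ℕ) [NeZero m] {B : Type} [CommGroup B] [Group.FG B]
    (h : SameFiniteQuotients B (Multiplicative (ZMod m) × Multiplicative ℤ)) :
    Nonempty (B ≃* Multiplicative (ZMod m) × Multiplicative ℤ) := by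
  obtain ⟨r, T, _, _, ⟨e⟩⟩ := exists_free_prod B
  have hfg : Group.FG (Multiplicative (ZMod m) × Multiplicative ℤ) := inferInstance
  have hm : 0 < m := NeZero.pos m
  have key : ∀ n : ℕ, 0 < n → n ^ r * ix T n = m.gcd n * n := by
    intro n hn
    rw [← ix_free r n hn, ← ix_prod, ← ix_congr e, ix_eq h hn, ix_prod, cls_ixZ n hn]
    congr 1
    unfold ix
    rw [IsCyclic.index_powMonoidHom_range]
    congr 1
    rw [Nat.card_eq_of_bijective Multiplicative.toAdd Multiplicative.toAdd.bijective, Nat.card_zmod]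
  have hT1 : ∀ n : ℕ, (∀ t : T, t ^ n = 1) → ix T n = Nat.card T := by
    intro n hn
    have : (powMonoidHom n : T →* T).range = ⊥ := by
      rw [eq_bot_iff]
      rintro _ ⟨t, rfl⟩
      rw [Subgroup.mem_bot, powMonoidHom_apply, hn]
    unfold ix
    rw [this, Subgroup.index_bot]
  have htpos : 0 < Nat.card T := Nat.card_pos
  have h1 := key (Nat.card T * m) (by positivity)
  rw [hT1 _ (fun x => by rw [pow_mul, pow_card_eq_one', one_pow]),
    Nat.gcd_eq_left (Dvd.intro_left _ rfl)] at h1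
  have h2 := key (2 * (Nat.card T * m)) (by positivity)
  rw [hT1 _ (fun x => by rw [mul_comm, mul_assoc, pow_mul, pow_card_eq_one', one_pow]),
    Nat.gcd_eq_left (Dvd.dvd.mul_left (Dvd.intro_left _ rfl) _), mul_pow, mul_assoc, h1] at h2
  have h3 : 2 ^ r * (m * (Nat.card T * m)) = 2 ^ 1 * (m * (Nat.card T * m)) := by
    rw [h2]
    ring
  have h4 : 2 ^ r = 2 ^ 1 := Nat.eq_of_mul_eq_mul_right (by positivity) h3
  have hr : r = 1 := Nat.pow_right_injective (le_refl 2) h4
  subst hr
  have h5 : Nat.card T = m := by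
    have : (Nat.card T * m) * Nat.card T = (Nat.card T * m) * m := by
      rw [pow_one] at h1
      rw [h1]
      ring
    exact Nat.eq_of_mul_eq_mul_left (by positivity) this
  have hc : IsCyclic T := by
    have := Fintype.ofFinite T
    classical
    apply isCyclic_of_card_pow_eq_one_le
    intro n hn
    have h6 := key n hn
    have h7 : ix T n = m.gcd n := by
      have : n * ix T n = n * m.gcd n := by
        rw [pow_one] at h6
        rw [h6, mul_comm]
      exact Nat.eq_of_mul_eq_mul_left hn this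
    have h8 : Nat.card (powMonoidHom n : T →* T).ker = m.gcd n := by
      rw [← Subgroup.index_range]
      exact h7
    have h9 : Nat.card (powMonoidHom n : T →* T).ker = (Finset.univ.filter fun a : T => a ^ n = 1).card := by
      rw [Nat.card_eq_fintype_card]
      exact Fintype.card_of_subtype _ (fun x => by
        rw [Finset.mem_filter, MonoidHom.mem_ker, powMonoidHom_apply]
        exact ⟨fun h => h.2, fun h => ⟨Finset.mem_univ _, h⟩⟩)
    rw [← h9, h8]
    exact Nat.gcd_le_right _ hn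
  obtain ⟨e2⟩ : Nonempty (T ≃* Multiplicative (ZMod m)) := h5 ▸ ⟨(zmodCyclicMulEquiv hc).symm⟩
  have e1 : Multiplicative (Fin 1 → ℤ) ≃* Multiplicative ℤ :=
    { invFun := fun x => Multiplicative.ofAdd fun _ => Multiplicative.toAdd x
      toFun := fun v => Multiplicative.ofAdd (Multiplicative.toAdd v 0)
      right_inv := by intro x; rfl
      left_inv := by
        intro v
        apply Multiplicative.toAdd.injective
        funext i
        fin_cases i
        rfl
      map_mul' := by
        intro x y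
        rfl }
  exact ⟨e.trans ((MulEquiv.prodCongr e1 e2).trans MulEquiv.prodComm)⟩

theorem cls_ex (m : ℕ) [NeZero m] {Λ : Type} [Group Λ] [Group.FG Λ] (Φ : NatBij (Gam m) Λ) :
    ∃ (d : Λ →* Multiplicative (ZMod m)) (n : Λ →* Multiplicative ℤ),
      Function.Surjective (d.prod n) ∧ (d.prod n).ker = commutator Λ := by
  have : Group.FG (Abelianization Λ) := Group.fg_of_surjective (f := Abelianization.of) of_surj
  obtain ⟨e⟩ := cls_ab m (cls_same m Φ)
  refine ⟨(MonoidHom.fst _ _).comp (e.toMonoidHom.comp Abelianization.of),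
    (MonoidHom.snd _ _).comp (e.toMonoidHom.comp Abelianization.of), ?_, ?_⟩
  · intro x
    obtain ⟨b, hb⟩ := e.surjective x
    obtain ⟨g, hg⟩ := of_surj b
    refine ⟨g, ?_⟩
    rw [← hb, ← hg]
    rfl
  · ext g
    rw [MonoidHom.mem_ker, ← Abelianization.ker_of, MonoidHom.mem_ker, ← e.map_eq_one_iff]
    exact Iff.rfl

/-- the property of `n` used for the criterion -/
def cls_H (m : ℕ) {G : Type} [Group G] (n : G →* Multiplicative ℤ) : Prop :=
  Function.Surjective n ∧ ∀ (A : Type) [CommGroup A] (ψ : G →* A) (g : G), n g = 1 → ψ g ^ m = 1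

theorem cls_pow (m : ℕ) (x : Multiplicative (ZMod m)) : x ^ m = 1 := by
  apply Multiplicative.toAdd.injective
  rw [toAdd_pow, toAdd_one, nsmul_eq_mul, ZMod.natCast_self, zero_mul]

theorem cls_HL (m : ℕ) {Λ : Type} [Group Λ] {d : Λ →* Multiplicative (ZMod m)}
    {n : Λ →* Multiplicative ℤ} (hs : Function.Surjective (d.prod n))
    (hk : (d.prod n).ker = commutator Λ) : cls_H m n := by
  constructor
  · intro y
    obtain ⟨g, hg⟩ := hs (1, y)
    exact ⟨g, congrArg Prod.snd hg⟩
  · intro A _ ψ g hg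
    have h1 : g ^ m ∈ commutator Λ := by
      rw [← hk, MonoidHom.mem_ker]
      apply Prod.ext
      · show d (g ^ m) = 1
        rw [map_pow, cls_pow]
      · show n (g ^ m) = 1
        rw [map_pow, hg, one_pow]
    have h2 := Abelianization.commutator_subset_ker ψ h1
    rwa [MonoidHom.mem_ker, map_pow] at h2

theorem cls_HG (m : ℕ) : cls_H m (nG m) := by
  constructor
  · intro y
    exact ⟨Monoid.Coprod.inr y, by simp [nG]⟩
  · intro A _ ψ g hg
    have h : (powMonoidHom m).comp ψ =
        ((powMonoidHom m).comp (ψ.comp Monoid.Coprod.inr)).comp (nG m) := by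
      apply Monoid.Coprod.hom_ext
      · refine MonoidHom.ext fun x => ?_
        show ψ (Monoid.Coprod.inl x) ^ m = ψ (Monoid.Coprod.inr (nG m (Monoid.Coprod.inl x))) ^ m
        rw [← map_pow, ← map_pow, cls_pow, map_one, map_one]
        simp [nG]
      · refine MonoidHom.ext fun x => ?_
        show ψ (Monoid.Coprod.inr x) ^ m = ψ (Monoid.Coprod.inr (nG m (Monoid.Coprod.inr x))) ^ m
        simp [nG]
    have h1 := DFunLike.congr_fun h g
    change ψ g ^ m = ψ (Monoid.Coprod.inr (nG m g)) ^ m at h1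
    rw [h1, hg, map_one, map_one, one_pow]

/-- reduction -/
def cls_red (m M : ℕ) : Multiplicative (ZMod (m * M)) →* Multiplicative (ZMod M) :=
  AddMonoidHom.toMultiplicative
    (ZMod.castHom (Dvd.intro_left m rfl : M ∣ m * M) (ZMod M)).toAddMonoidHom

theorem cls_red_surj (m M : ℕ) : Function.Surjective (cls_red m M) := by
  intro y
  obtain ⟨x, hx⟩ := ZMod.ringHom_surjective
    (ZMod.castHom (Dvd.intro_left m rfl : M ∣ m * M) (ZMod M)) (Multiplicative.toAdd y)
  exact ⟨Multiplicative.ofAdd x, congrArg Multiplicative.ofAdd hx⟩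

theorem cls_red_one (m M : ℕ) (hm : 0 < m) (hM : 0 < M) (x : Multiplicative (ZMod (m * M)))
    (hx : x ^ m = 1) : cls_red m M x = 1 := by
  have : NeZero (m * M) := ⟨(Nat.mul_pos hm hM).ne'⟩
  have h1 : m • Multiplicative.toAdd x = 0 := congrArg Multiplicative.toAdd hx
  have h2 : ((Multiplicative.toAdd x).val : ZMod (m * M)) = Multiplicative.toAdd x :=
    ZMod.natCast_zmod_val _
  rw [← h2, nsmul_eq_mul, ← Nat.cast_mul, ZMod.natCast_eq_zero_iff] at h1
  have h3 : M ∣ (Multiplicative.toAdd x).val := Nat.dvd_of_mul_dvd_mul_left hm h1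
  apply Multiplicative.toAdd.injective
  show (ZMod.castHom (Dvd.intro_left m rfl : M ∣ m * M) (ZMod M)) (Multiplicative.toAdd x) = 0
  rw [← h2, map_natCast, ZMod.natCast_eq_zero_iff]
  exact h3

theorem cls_factor {G A : Type} [Group G] [Group A] {n : G →* Multiplicative ℤ}
    (hs : Function.Surjective n) (ψ : G →* A) (h : n.ker ≤ ψ.ker) :
    ∃ q : Multiplicative ℤ →* A, ψ = q.comp n :=
  ⟨n.liftOfSurjective hs ⟨ψ, h⟩, (n.liftOfRightInverse_comp _ _ ⟨ψ, h⟩).symm⟩

theorem cls_crit (m M : ℕ) (hm : 0 < m) (hM : 0 < M) {G : Type} [Group G]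
    {n : G →* Multiplicative ℤ} (h : cls_H m n) (ψ : G →* Multiplicative (ZMod M)) :
    (∃ q : Multiplicative ℤ →* Multiplicative (ZMod M), ψ = q.comp n) ↔
      ∃ ψ' : G →* Multiplicative (ZMod (m * M)), ψ = (cls_red m M).comp ψ' := by
  constructor
  · rintro ⟨q, rfl⟩
    obtain ⟨a, ha⟩ := cls_red_surj m M (q (Multiplicative.ofAdd 1))
    refine ⟨(zpowersHom _ a).comp n, ?_⟩
    rw [← MonoidHom.comp_assoc]
    congr 1
    apply MonoidHom.ext_mint
    show q (Multiplicative.ofAdd 1) = cls_red m M (a ^ (1 : ℤ))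
    rw [zpow_one, ha]
  · rintro ⟨ψ', rfl⟩
    apply cls_factor h.1
    intro g hg
    rw [MonoidHom.mem_ker] at hg ⊢
    exact cls_red_one m M hm hM _ (h.2 _ ψ' g hg)

theorem cls_trans (m : ℕ) (hm : 0 < m) {G H : Type} [Group G] [Group H] (Ψ : NatBij G H)
    {nG' : G →* Multiplicative ℤ} {nH : H →* Multiplicative ℤ} (h : cls_H m nG')
    (h' : cls_H m nH) (Q : Type) [Group Q] [Finite Q] (ψ : G →* Q)
    (hq : ∃ q : Multiplicative ℤ →* Q, ψ = q.comp nG') :
    ∃ q : Multiplicative ℤ →* Q, Ψ.toFun Q ψ = q.comp nH := by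
  obtain ⟨q, rfl⟩ := hq
  set x := q (Multiplicative.ofAdd 1) with hx
  have hc : IsCyclic (Subgroup.zpowers x) := inferInstance
  have hM : 0 < Nat.card (Subgroup.zpowers x) := Nat.card_pos
  have : NeZero (Nat.card (Subgroup.zpowers x)) := ⟨hM.ne'⟩
  have : NeZero (m * Nat.card (Subgroup.zpowers x)) := ⟨(Nat.mul_pos hm hM).ne'⟩
  let e := zmodCyclicMulEquiv hc
  let ι : Multiplicative (ZMod (Nat.card (Subgroup.zpowers x))) →* Q :=
    (Subgroup.zpowers x).subtype.comp e.toMonoidHom
  let q0 : Multiplicative ℤ →* Multiplicative (ZMod (Nat.card (Subgroup.zpowers x))) :=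
    zpowersHom _ (e.symm ⟨x, Subgroup.mem_zpowers x⟩)
  have hι : ι.comp q0 = q := by
    apply MonoidHom.ext_mint
    show ((e ((e.symm ⟨x, Subgroup.mem_zpowers x⟩) ^ (1 : ℤ))) : Q) = x
    rw [zpow_one, MulEquiv.apply_symm_apply]
  obtain ⟨ψ', hψ'⟩ := (cls_crit m _ hm hM h (q0.comp nG')).1 ⟨q0, rfl⟩
  obtain ⟨q1, hq1⟩ := (cls_crit m _ hm hM h' (Ψ.toFun _ (q0.comp nG'))).2
    ⟨Ψ.toFun _ ψ', by rw [hψ', Ψ.nat]⟩
  refine ⟨ι.comp q1, ?_⟩
  rw [← hι, MonoidHom.comp_assoc, Ψ.nat, hq1]
  rfl

theorem p_cls : S_cls := by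
  intro m _ hm2 Λ _ _ Φ
  have hm : 0 < m := by omega
  obtain ⟨d, n, hs, hk⟩ := cls_ex m Φ
  have hH := cls_HL m hs hk
  have hcyc : Cyc m Φ n := by
    intro Q _ _ ψ
    constructor
    · exact cls_trans m hm Φ (cls_HG m) hH Q ψ
    · intro h
      have h1 := cls_trans m hm Φ.symm hH (cls_HG m) Q (Φ.toFun Q ψ) h
      rw [show Φ.symm.toFun Q (Φ.toFun Q ψ) = ψ from Φ.left_inv Q ψ] at h1
      exact h1
  refine ⟨n, ?_, hcyc⟩
  set δ := Φ.toFun (Multiplicative (ZMod m)) (dG m) with hδ
  obtain ⟨y, hy⟩ := hs (Multiplicative.ofAdd 1, 1)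
  have hyd : d y = Multiplicative.ofAdd 1 := congrArg Prod.fst hy
  have hyn : n y = 1 := congrArg Prod.snd hy
  -- elements of the kernel of `n`
  have hker : ∀ g, n g = 1 → ∃ j : ℕ, d g = Multiplicative.ofAdd (j : ZMod m) ∧
      g * (y ^ j)⁻¹ ∈ commutator Λ := by
    intro g hg
    refine ⟨(Multiplicative.toAdd (d g)).val, ?_, ?_⟩
    · rw [ZMod.natCast_zmod_val, ofAdd_toAdd]
    · rw [← hk, MonoidHom.mem_ker, map_mul, map_inv, map_pow, mul_inv_eq_one]
      apply Prod.ext
      · show d g = d y ^ _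
        rw [hyd]
        apply Multiplicative.toAdd.injective
        rw [toAdd_pow, toAdd_ofAdd, nsmul_eq_mul, mul_one, ZMod.natCast_zmod_val]
      · show n g = n y ^ _
        rw [hg, hyn, one_pow]
  -- `δ y` is a generator
  have hcop : Nat.Coprime (Multiplicative.toAdd (δ y)).val m := by
    rw [Nat.coprime_iff_gcd_eq_one]
    by_contra hne
    obtain ⟨l, hl, hdvd⟩ := Nat.exists_prime_and_dvd hne
    have hl1 : l ∣ (Multiplicative.toAdd (δ y)).val := hdvd.trans (Nat.gcd_dvd_left _ _)
    have hl2 : l ∣ m := hdvd.trans (Nat.gcd_dvd_right _ _)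
    have : NeZero l := ⟨hl.ne_zero⟩
    have : Fact (1 < l) := ⟨hl.one_lt⟩
    let π : Multiplicative (ZMod m) →* Multiplicative (ZMod l) :=
      AddMonoidHom.toMultiplicative (ZMod.castHom hl2 (ZMod l)).toAddMonoidHom
    have hπy : π (δ y) = 1 := by
      apply Multiplicative.toAdd.injective
      show ZMod.castHom hl2 (ZMod l) (Multiplicative.toAdd (δ y)) = 0
      rw [← ZMod.natCast_zmod_val (Multiplicative.toAdd (δ y)), map_natCast,
        ZMod.natCast_eq_zero_iff]
      exact hl1
    have h1 : ∃ q : Multiplicative ℤ →* Multiplicative (ZMod l),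
        Φ.toFun _ (π.comp (dG m)) = q.comp n := by
      apply cls_factor hH.1
      intro g hg
      rw [MonoidHom.mem_ker] at hg ⊢
      obtain ⟨j, -, hj⟩ := hker g hg
      have h2 := Abelianization.commutator_subset_ker (Φ.toFun _ (π.comp (dG m))) hj
      rw [MonoidHom.mem_ker, map_mul, map_inv, map_pow, mul_inv_eq_one] at h2
      rw [h2, Φ.nat]
      show π (δ y) ^ j = 1
      rw [hπy, one_pow]
    obtain ⟨q, hq⟩ := (hcyc _ (π.comp (dG m))).2 h1
    have h3 := DFunLike.congr_fun hq (Monoid.Coprod.inl (Multiplicative.ofAdd 1))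
    have h4 : nG m (Monoid.Coprod.inl (Multiplicative.ofAdd 1)) = 1 := by simp [nG]
    have h5 : dG m (Monoid.Coprod.inl (Multiplicative.ofAdd 1)) = Multiplicative.ofAdd 1 := by
      simp [dG]
    rw [MonoidHom.comp_apply, MonoidHom.comp_apply, h4, h5, map_one q] at h3
    have h6 : (ZMod.castHom hl2 (ZMod l)) 1 = 0 := congrArg Multiplicative.toAdd h3
    rw [map_one] at h6
    exact one_ne_zero h6
  obtain ⟨b, hb⟩ : ∃ b : ZMod m, b * Multiplicative.toAdd (δ y) = 1 := by
    have h1 : IsUnit (((Multiplicative.toAdd (δ y)).val : ℕ) : ZMod m) :=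
      (ZMod.isUnit_iff_coprime _ _).2 hcop
    rw [ZMod.natCast_zmod_val] at h1
    obtain ⟨b, hb⟩ := h1.exists_left_inv
    exact ⟨b, hb⟩
  constructor
  · rintro ⟨u, k⟩
    obtain ⟨g, hg⟩ := hH.1 k
    refine ⟨g * y ^ (((Multiplicative.toAdd u - Multiplicative.toAdd (δ g)) * b).val), ?_⟩
    apply Prod.ext
    · show δ (g * y ^ _) = u
      rw [map_mul, map_pow]
      apply Multiplicative.toAdd.injective
      rw [toAdd_mul, toAdd_pow, nsmul_eq_mul, ZMod.natCast_zmod_val, mul_assoc, hb]
      ring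
    · show n (g * y ^ _) = k
      rw [map_mul, map_pow, hyn, one_pow, mul_one, hg]
  · apply le_antisymm
    · intro g hg
      have hg1 : δ g = 1 := congrArg Prod.fst (MonoidHom.mem_ker.1 hg)
      have hg2 : n g = 1 := congrArg Prod.snd (MonoidHom.mem_ker.1 hg)
      obtain ⟨j, hj1, hj2⟩ := hker g hg2
      have h2 := Abelianization.commutator_subset_ker δ hj2
      rw [MonoidHom.mem_ker, map_mul, map_inv, map_pow, hg1, one_mul, inv_eq_one] at h2
      have h3 : (j : ZMod m) * Multiplicative.toAdd (δ y) = 0 := by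
        have := congrArg Multiplicative.toAdd h2
        rwa [toAdd_pow, nsmul_eq_mul, toAdd_one] at this
      have h4 : (j : ZMod m) = 0 := by
        calc (j : ZMod m) = j * (b * Multiplicative.toAdd (δ y)) := by rw [hb, mul_one]
          _ = b * (j * Multiplicative.toAdd (δ y)) := by ring
          _ = 0 := by rw [h3, mul_zero]
      rw [← hk, MonoidHom.mem_ker]
      apply Prod.ext
      · show d g = 1
        rw [hj1, h4, ofAdd_zero]
      · exact hg2
    · exact Abelianization.commutator_subset_ker _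

end Pool.Agent.CZA
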