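import Pool.Agent.Lib.MP_305fdd_al.CZ.A.Stm
import Pool.Agent.Lib.MP_305fdd_al.F2.TF.P.a2

/-!
# MP_305fdd_al (`C_m * Z`), part A, piece [CA cntg]: the count
-/

set_option autoImplicit false

namespace Pool.Agent.CZA

open MvPolynomial Pool.Agent.Lib.MP_305fdd_al Pool.Agent.MP_305fdd_al Pool.Agent.CZ
open Pool.Agent.F2 (PC Corr Fr gx gy)
open Pool.Agent.F2TF (Pol fpow)
open Pool.Agent.CC (IsTR)

theorem p_cntg (hpow : S_pow) : S_cntg := by
  intro p _ A B _ _ _ _ ev h d hA I hI n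
  obtain ⟨-, hcard, -, hfp, -⟩ := hpow p A B ev h
  have hstep : ∀ I : Ideal B, Finite (B ⧸ I) → Finite (B ⧸ fpow p I) ∧
      Nat.card (B ⧸ fpow p I) = Nat.card (B ⧸ I) ^ (p ^ d) := by
    intro I hI
    obtain ⟨J, hJ⟩ := h.fin I hI
    obtain ⟨hF, hc⟩ := hA J.1 J.2
    have e := hfp J hF
    rw [hJ, ← e]
    refine ⟨?_, ?_⟩
    · have e1 := RingHom.quotientKerEquivOfSurjective
        (f := (ev ⟨fpow p J.1, hF⟩).toRingHom) (h.surj ⟨fpow p J.1, hF⟩)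
      exact Finite.of_equiv _ e1.symm.toEquiv
    · rw [hcard, hcard]
      exact hc
  induction n with
  | zero =>
    rw [pow_zero, Nat.mul_zero, pow_zero, pow_one, F2TF.p_count_fpow_one]
    exact ⟨hI, rfl⟩
  | succ n ih =>
    obtain ⟨h1, h2⟩ := ih
    obtain ⟨h3, h4⟩ := hstep (fpow (p ^ n) I) h1
    rw [← F2TF.p_count_fpow_succ]
    refine ⟨h3, ?_⟩
    rw [h4, h2, ← pow_mul, ← pow_add]
    congr 1

end Pool.Agent.CZA
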