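import Pool.Agent.Lib.MP_305fdd_al.CZ.A.Stm

/-!
# MP_305fdd_al (`C_m * Z`), part A: piece [CA cut]
-/

set_option autoImplicit false

namespace Pool.Agent.CZA

open MvPolynomial Pool.Agent.Lib.MP_305fdd_al Pool.Agent.MP_305fdd_al Pool.Agent.CZ
open Pool.Agent.F2 (PC Corr Fr gx gy)

theorem cut_vanish {p m : ℕ} [Fact p.Prime] {x : ℕ → ZMod p} (hx : WJ p m x) {R : Type}
    [CommRing R] [Algebra (ZMod p) R] (X0 : R)
    (h0 : (Polynomial.Chebyshev.S R ((m : ℤ) - 1)).eval X0 * (X0 ^ 2 - 4) = 0)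
    (f : Polynomial (ZMod p)) (hf : ∀ i : Fin (m + 1), f.eval (x i) = 0) :
    Polynomial.aeval X0 f = 0 := by
  have hd : (∏ j ∈ Finset.range (m + 1), (Polynomial.X - Polynomial.C (x j))) ∣ f := by
    apply Finset.prod_dvd_of_coprime
    · intro a ha b hb hab
      have ha' : a < m + 1 := Finset.mem_range.1 ha
      have hb' : b < m + 1 := Finset.mem_range.1 hb
      have hne : x a ≠ x b := fun h => hab (hx.ne a b (by omega) (by omega) h)
      exact Polynomial.isCoprime_X_sub_C_of_isUnit_sub (sub_ne_zero.2 hne).isUnit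
    · intro a ha
      have ha' : a < m + 1 := Finset.mem_range.1 ha
      exact Polynomial.dvd_iff_isRoot.2 (hf ⟨a, ha'⟩)
  obtain ⟨q, rfl⟩ := hd
  rw [map_mul, ← hx.prod, map_mul, Polynomial.Chebyshev.aeval_S]
  have h1 : Polynomial.aeval X0 ((Polynomial.X ^ 2 - 4 : Polynomial (ZMod p))) = X0 ^ 2 - 4 := by
    rw [map_sub, map_pow, Polynomial.aeval_X, map_ofNat]
  rw [h1, h0, zero_mul]

theorem p_cut (hrec : S_rec) : S_cut := by
  intro p m _ x hp2 hm hpm hx G R _ _ _ T g hPC hg
  classical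
  obtain ⟨X0, hX0⟩ : ∃ X0, X0 = T g := ⟨_, rfl⟩
  obtain ⟨s, hs⟩ : ∃ s, s = (Polynomial.Chebyshev.S R ((m : ℤ) - 1)).eval X0 := ⟨_, rfl⟩
  obtain ⟨s', hs'⟩ : ∃ s', s' = (Polynomial.Chebyshev.S R ((m : ℤ) - 2)).eval X0 := ⟨_, rfl⟩
  have hrel : ∀ h, s * T (g * h) - s' * T h = -T h := by
    intro h
    have h1 := (hrec G R T hPC g m).1 h
    rw [hg h, ← hX0, ← hs, ← hs'] at h1
    exact h1.symm
  have hC : (Polynomial.Chebyshev.C R (m : ℤ)).eval X0 = -2 := by
    have h1 := (hrec G R T hPC g m).2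
    have h2 := hg 1
    rw [mul_one, hPC.one] at h2
    rw [h2, ← hX0] at h1
    exact h1.symm
  have hgg : T (g * g) = X0 ^ 2 - 2 := by
    have h1 := hPC.rel g g
    rw [mul_inv_cancel, hPC.one, ← hX0] at h1
    linear_combination h1
  have h0 : s * (X0 ^ 2 - 4) = 0 := by
    have h1 := hrel 1
    have h2 := hrel g
    rw [mul_one, hPC.one, ← hX0] at h1
    rw [hgg, ← hX0] at h2
    linear_combination 2 * h2 - X0 * h1
  have key := cut_vanish hx X0 (by rw [← hs]; exact h0)
  obtain ⟨v, hv⟩ : ∃ v : Fin (m + 1) → ZMod p, v = fun i : Fin (m + 1) => x (i : ℕ) :=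
    ⟨_, rfl⟩
  have hinj : Set.InjOn v ((Finset.univ : Finset (Fin (m + 1))) : Set (Fin (m + 1))) := by
    intro a _ b _ hab
    rw [hv] at hab
    exact Fin.ext (hx.ne a b (by omega) (by omega) hab)
  obtain ⟨b, hb⟩ : ∃ b : Fin (m + 1) → Polynomial (ZMod p),
      b = fun i => Lagrange.basis Finset.univ v i := ⟨_, rfl⟩
  have hb1 : ∀ i, (b i).eval (x i) = 1 := by
    intro i
    have := Lagrange.eval_basis_self hinj (Finset.mem_univ i)
    rw [hb]
    rw [hv] at this ⊢
    exact this
  have hb2 : ∀ i j, i ≠ j → (b i).eval (x j) = 0 := by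
    intro i j hij
    have := Lagrange.eval_basis_of_ne (v := v) hij (Finset.mem_univ j)
    rw [hb]
    rw [hv] at this ⊢
    exact this
  have hbe : ∀ (f : Polynomial (ZMod p)) (i : Fin (m + 1)),
      Polynomial.aeval X0 (b i) * Polynomial.aeval X0 f =
        Polynomial.aeval X0 (b i) * algebraMap (ZMod p) R (f.eval (x i)) := by
    intro f i
    have h1 := key (b i * (f - Polynomial.C (f.eval (x i)))) (by
      intro j
      rw [Polynomial.eval_mul]
      by_cases hij : i = j
      · subst hij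
        rw [Polynomial.eval_sub, Polynomial.eval_C, sub_self, mul_zero]
      · rw [hb2 i j hij, zero_mul])
    rw [map_mul, map_sub, Polynomial.aeval_C] at h1
    linear_combination h1
  have h4 : ∀ r : R, 4 * r = 0 → r = 0 := by
    intro r hr
    have hu : (4 : ZMod p) ≠ 0 := by
      have h2 : (2 : ZMod p) ≠ 0 := by
        intro h
        have h3 : ((2 : ℕ) : ZMod p) = 0 := by exact_mod_cast h
        rw [ZMod.natCast_eq_zero_iff] at h3
        exact hp2 ((Nat.prime_dvd_prime_iff_eq (Fact.out) Nat.prime_two).1 h3)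
      have : (4 : ZMod p) = 2 * 2 := by norm_num
      rw [this]
      exact mul_ne_zero h2 h2
    have h5 : algebraMap (ZMod p) R (4⁻¹) * 4 = 1 := by
      have : (4 : R) = algebraMap (ZMod p) R 4 := by rw [map_ofNat]
      rw [this, ← map_mul, inv_mul_cancel₀ hu, map_one]
    calc r = (algebraMap (ZMod p) R (4⁻¹) * 4) * r := by rw [h5, one_mul]
      _ = algebraMap (ZMod p) R (4⁻¹) * (4 * r) := by ring
      _ = 0 := by rw [hr, mul_zero]
  have heven : ∀ i : Fin (m + 1), (i : ℕ) % 2 = 0 → Polynomial.aeval X0 (b i) = 0 := by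
    intro i hi
    apply h4
    have h1 := hbe (Polynomial.Chebyshev.C (ZMod p) m) i
    rw [Polynomial.Chebyshev.aeval_C, hC, hx.cm i] at h1
    have h2 : ((-1 : ZMod p)) ^ (i : ℕ) = 1 := (Nat.even_iff.2 hi).neg_one_pow
    rw [h2, mul_one, map_ofNat] at h1
    linear_combination -h1
  refine ⟨fun i => Polynomial.aeval X0 (b i), ?_, ?_, ?_, ?_, heven, ?_⟩
  · intro i
    have h1 := hbe (b i) i
    rw [hb1, map_one, mul_one] at h1
    exact h1
  · intro i j hij
    have h1 := hbe (b j) i
    rw [hb2 j i (Ne.symm hij), map_zero, mul_zero] at h1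
    exact h1
  · beta_reduce
    rw [← map_sum]
    have h1 : ∑ i, b i = 1 := by
      rw [hb]
      exact Lagrange.sum_basis hinj ⟨0, Finset.mem_univ _⟩
    rw [h1, map_one]
  · intro i
    have h1 := hbe Polynomial.X i
    rw [Polynomial.aeval_X, Polynomial.eval_X, hX0] at h1
    rw [hX0]
    exact h1
  · intro h
    beta_reduce
    by_cases hodd : m % 2 = 0
    · rw [heven (Fin.last m) (by rw [Fin.val_last]; exact hodd), zero_mul]
    · have hlast : ((Fin.last m : Fin (m + 1)) : ℕ) = m := Fin.val_last m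
      have h1 := hbe (Polynomial.Chebyshev.S (ZMod p) ((m : ℤ) - 1)) (Fin.last m)
      have h2 := hbe (Polynomial.Chebyshev.S (ZMod p) ((m : ℤ) - 2)) (Fin.last m)
      rw [Polynomial.Chebyshev.aeval_S, hlast, hx.top, Polynomial.Chebyshev.S_eval_neg_two, ← hs]
        at h1
      rw [Polynomial.Chebyshev.aeval_S, hlast, hx.top, Polynomial.Chebyshev.S_eval_neg_two, ← hs']
        at h2
      have e1 : ((m : ℤ) - 1).negOnePow = 1 := by
        apply Int.negOnePow_even
        rw [Int.even_sub_one, Int.not_even_iff_odd]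
        exact_mod_cast Nat.odd_iff.2 (by omega)
      have e2 : ((m : ℤ) - 2).negOnePow = -1 := by
        apply Int.negOnePow_odd
        have : Odd (m : ℤ) := by exact_mod_cast Nat.odd_iff.2 (by omega)
        exact this.sub_even (by decide)
      rw [e1] at h1
      rw [e2] at h2
      have h3 := hrel h
      have hmu : (m : ZMod p) ≠ 0 := by
        rw [Ne, ZMod.natCast_eq_zero_iff]
        exact hpm
      have hmu' : algebraMap (ZMod p) R ((m : ZMod p)⁻¹) * (m : R) = 1 := by
        have : (m : R) = algebraMap (ZMod p) R (m : ZMod p) := by rw [map_natCast]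
        rw [this, ← map_mul, inv_mul_cancel₀ hmu, map_one]
      push_cast at h1 h2
      simp only [map_ofNat] at h1 h2
      have h6 : (m : R) * (Polynomial.aeval X0 (b (Fin.last m)) * (T (g * h) + T h)) = 0 := by
        linear_combination Polynomial.aeval X0 (b (Fin.last m)) * h3 - T (g * h) * h1 + T h * h2
      calc Polynomial.aeval X0 (b (Fin.last m)) * (T (g * h) + T h)
          = (algebraMap (ZMod p) R ((m : ZMod p)⁻¹) * (m : R)) *
            (Polynomial.aeval X0 (b (Fin.last m)) * (T (g * h) + T h)) := by rw [hmu', one_mul]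
        _ = algebraMap (ZMod p) R ((m : ZMod p)⁻¹) * ((m : R) *
            (Polynomial.aeval X0 (b (Fin.last m)) * (T (g * h) + T h))) := by ring
        _ = 0 := by rw [h6, mul_zero]

end Pool.Agent.CZA
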