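import Pool.Agent.Lib.MP_305fdd_al.CZ.A.Stm

/-!
# [CA ecnd] the idempotent kills exactly the right ideals
-/

set_option autoImplicit false

namespace Pool.Agent.CZA

open MvPolynomial Pool.Agent.Lib.MP_305fdd_al Pool.Agent.MP_305fdd_al Pool.Agent.CZ
open Pool.Agent.F2 (PC Corr Fr gx gy)
open Pool.Agent.F2TF (Pol fpow)
open Pool.Agent.CC (IsTR)

/-- a nonzero idempotent lies outside some maximal ideal -/
private lemma ecnd_max {R : Type} [CommRing R] {f : R} (hf : f * f = f) (h0 : f ≠ 0) :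
    ∃ n : Ideal R, n.IsMaximal ∧ f ∉ n := by
  have h1 : 1 - f ∈ nonunits R := by
    intro hu
    apply h0
    have h2 : (1 - f) * f = 0 := by rw [sub_mul, one_mul, hf, sub_self]
    exact (IsUnit.mul_right_eq_zero hu).mp h2
  obtain ⟨n, hn, h2⟩ := exists_max_ideal_of_mem_nonunits h1
  refine ⟨n, hn, fun h3 => hn.ne_top ?_⟩
  rw [Ideal.eq_top_iff_one]
  have h4 := n.add_mem h2 h3
  rwa [sub_add_cancel] at h4

/-- the same, for a maximal ideal of finite index above `J` -/
private lemma ecnd_lift {R : Type} [CommRing R] (J : {J : Ideal R // Finite (R ⧸ J)}) {f : R ⧸ J.1}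
    (hf : f * f = f) (h0 : f ≠ 0) : ∃ N : {J : Ideal R // Finite (R ⧸ J)}, ∃ hle : J.1 ≤ N.1,
      N.1.IsMaximal ∧ Ideal.Quotient.factor hle f ≠ 0 := by
  obtain ⟨n, hn, hfn⟩ := ecnd_max hf h0
  have hle : J.1 ≤ n.comap (Ideal.Quotient.mk J.1) := by
    intro a ha
    rw [Ideal.mem_comap, Ideal.Quotient.eq_zero_iff_mem.mpr ha]
    exact n.zero_mem
  have hfin : Finite (R ⧸ n.comap (Ideal.Quotient.mk J.1)) := by
    have := J.2
    exact Finite.of_surjective _ (Ideal.Quotient.factor_surjective hle)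
  refine ⟨⟨_, hfin⟩, hle, Ideal.comap_isMaximal_of_surjective _ Ideal.Quotient.mk_surjective, ?_⟩
  intro h1
  obtain ⟨a, rfl⟩ := Ideal.Quotient.mk_surjective f
  rw [Ideal.Quotient.factor_mk, Ideal.Quotient.eq_zero_iff_mem, Ideal.mem_comap] at h1
  exact hfn h1

theorem p_ecnd (_hpow : S_pow) : S_ecnd := by
  intro p _ A A' B _ _ _ _ _ _ ev hev I e he1 heI hcond J
  have hee : e * e = e := by
    have h1 := heI _ he1
    rw [mul_sub, mul_one, sub_eq_zero] at h1
    exact h1
  constructor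
  · intro hJe
    by_contra hJ
    have hidem : (Ideal.Quotient.mk J.1 ((0 : A), (1 : A'))) * (Ideal.Quotient.mk J.1 ((0 : A), (1 : A')))
        = Ideal.Quotient.mk J.1 ((0 : A), (1 : A')) := by
      rw [← map_mul]
      congr 1
      ext <;> simp
    have hne : Ideal.Quotient.mk J.1 ((0 : A), (1 : A')) ≠ 0 := by
      rwa [ne_eq, Ideal.Quotient.eq_zero_iff_mem]
    obtain ⟨N, hle, hmax, hN⟩ := ecnd_lift J hidem hne
    rw [Ideal.Quotient.factor_mk, ne_eq, Ideal.Quotient.eq_zero_iff_mem] at hN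
    have hprod : ((1 : A), (0 : A')) * ((0 : A), (1 : A')) ∈ N.1 := by
      have : ((1 : A), (0 : A')) * ((0 : A), (1 : A')) = 0 := by
        ext <;> simp
      rw [this]
      exact N.1.zero_mem
    have h10 : ((1 : A), (0 : A')) ∈ N.1 := (hmax.isPrime.mem_or_mem hprod).resolve_right hN
    have hI := (hcond N).mp h10
    have h2 : ev N e = 0 := by
      rw [← hev.compat J N hle e, hJe, map_zero]
    have h3 : ev N (e - 1) = 0 := hI he1
    rw [map_sub, h2, map_one, zero_sub, neg_eq_zero] at h3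
    have h4 : (1 : A × A') ∈ N.1 := by
      rw [← Ideal.Quotient.eq_zero_iff_mem, map_one]
      exact h3
    exact hmax.ne_top ((Ideal.eq_top_iff_one _).mpr h4)
  · intro hJ
    by_contra hJe
    have hidem : ev J e * ev J e = ev J e := by
      rw [← map_mul, hee]
    obtain ⟨N, hle, hmax, hN⟩ := ecnd_lift J hidem hJe
    rw [hev.compat J N hle e] at hN
    have hdom : IsDomain ((A × A') ⧸ N.1) := Ideal.Quotient.isDomain_iff_prime _ |>.mpr hmax.isPrime
    have hI : I ≤ RingHom.ker (ev N) := by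
      intro i hi
      have h1 : ev N e * ev N i = 0 := by
        rw [← map_mul, heI i hi, map_zero]
      exact (mul_eq_zero.mp h1).resolve_left hN
    have h10 := (hcond N).mpr hI
    have h01 : ((0 : A), (1 : A')) ∈ N.1 := hle hJ
    have h11 : (1 : A × A') ∈ N.1 := by
      have h2 := N.1.add_mem h10 h01
      have h3 : ((1 : A), (0 : A')) + ((0 : A), (1 : A')) = 1 := by
        ext <;> simp
      rwa [h3] at h2
    exact hmax.ne_top ((Ideal.eq_top_iff_one _).mpr h11)

end Pool.Agent.CZA
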