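import Pool.Agent.Lib.MP_305fdd_al.CZ.A.Stm
import Pool.Agent.Lib.MP_305fdd_al.F2.GB.corr
import Pool.Agent.Lib.MP_305fdd_al.F2.GB.corrpc
import Pool.Agent.Lib.MP_305fdd_al.F2.GB.rf
import Pool.Agent.Lib.MP_305fdd_al.F2.GB.br

/-!
# MP_305fdd_al (`C_m * Z`), part A, piece evg: transfer of the universal ring
-/

set_option autoImplicit false

namespace Pool.Agent.CZA

open MvPolynomial Pool.Agent.Lib.MP_305fdd_al Pool.Agent.MP_305fdd_al Pool.Agent.CZ
open Pool.Agent.F2 (PC Corr Fr gx gy)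
open Pool.Agent.F2TF (Pol fpow)
open Pool.Agent.CC (IsTR)

private theorem evg_corr : F2.S_corr := F2.p_corr
private theorem evg_corrpc : F2.S_corrpc := F2.p_corrpc F2.p_corr F2.p_br
private theorem evg_rf : F2.S_rf := F2.p_rf

private theorem evg_map {G R S : Type} [Group G] [CommRing R] [CommRing S] (f : R →+* S)
    {T : G → R} (h : PC T) : PC (fun g => f (T g)) where
  one := by rw [h.one, map_ofNat]
  comm g k := by rw [h.comm]
  rel g k := by rw [← map_add, h.rel, map_mul]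

/-- joint values and functionality for functions with different codomains -/
private theorem evg_joint {G H : Type} [Group G] [Group H] (Φ : NatBij G H)
    {R S : Type} {T₁ : G → R} {T₁' : H → R} {T₂ : G → S} {T₂' : H → S} (c₁ : Corr Φ T₁ T₁')
    (c₂ : Corr Φ T₂ T₂') :
    (∀ h, ∃ g, T₁ g = T₁' h ∧ T₂ g = T₂' h) ∧ ∀ g, ∃ h, T₁' h = T₁ g ∧ T₂' h = T₂ g := by
  have d₁ := (evg_corr G H Φ R).2 (R ⊕ S) Sum.inl T₁ T₁' c₁
  have d₂ := (evg_corr G H Φ S).2 (R ⊕ S) Sum.inr T₂ T₂' c₂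
  obtain ⟨e₁, e₂, -⟩ := (evg_corr G H Φ (R ⊕ S)).1 _ _ _ _ d₁ d₂
  refine ⟨fun h => ?_, fun g => ?_⟩
  · obtain ⟨g, hg, hg'⟩ := e₁ h
    exact ⟨g, Sum.inl_injective hg, Sum.inr_injective hg'⟩
  · obtain ⟨h, hh, hh'⟩ := e₂ g
    exact ⟨h, Sum.inl_injective hh, Sum.inr_injective hh'⟩

private theorem evg_c {G H : Type} [Group G] [Group H] (Φ : NatBij G H) {c : G} {c' : H}
    (hc : ∀ (Q : Type) [Group Q] [Finite Q] (θ : G →* Q), Φ.toFun Q θ c' = θ c) {R : Type}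
    {T : G → R} {T' : H → R} (h : Corr Φ T T') : T' c' = T c := by
  obtain ⟨Q, i, j, π, τ, h1, h2⟩ := h
  rw [h1, h2, hc]

private theorem evg_alg {p : ℕ} [Fact p.Prime] {G H : Type} [Group G] [Group H]
    (Φ : NatBij G H) {A B : Type} [CommRing A] [CommRing B] [Algebra (ZMod p) A]
    [Algebra (ZMod p) B] {TA : G → A} {TB : H → B}
    (hA : Algebra.adjoin (ZMod p) (Set.range TA) = ⊤)
    {I J : Ideal A} {e : B →ₐ[ZMod p] A ⧸ I}
    {e' : B →ₐ[ZMod p] A ⧸ J} {T : H → A ⧸ I} {T' : H → A ⧸ J}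
    (c : Corr Φ (fun g => Ideal.Quotient.mk I (TA g)) T)
    (c' : Corr Φ (fun g => Ideal.Quotient.mk J (TA g)) T')
    (he : ∀ l, e (TB l) = T l) (he' : ∀ l, e' (TB l) = T' l)
    (a : A) : ∃ b, e b = Ideal.Quotient.mk I a ∧ e' b = Ideal.Quotient.mk J a := by
  let f : B →ₐ[ZMod p] (A ⧸ I) × (A ⧸ J) := e.prod e'
  let g : A →ₐ[ZMod p] (A ⧸ I) × (A ⧸ J) :=
    (Ideal.Quotient.mkₐ (ZMod p) I).prod (Ideal.Quotient.mkₐ (ZMod p) J)
  have key : (⊤ : Subalgebra (ZMod p) A) ≤ f.range.comap g := by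
    rw [← hA, Algebra.adjoin_le_iff]
    rintro _ ⟨γ, rfl⟩
    obtain ⟨l, hl, hl'⟩ := (evg_joint Φ c c').2 γ
    show g (TA γ) ∈ f.range
    refine ⟨TB l, ?_⟩
    apply Prod.ext
    · show e (TB l) = Ideal.Quotient.mk I (TA γ)
      rw [he, hl]
    · show e' (TB l) = Ideal.Quotient.mk J (TA γ)
      rw [he', hl']
  obtain ⟨b, hb⟩ := key (Algebra.mem_top (x := a))
  exact ⟨b, congrArg Prod.fst hb, congrArg Prod.snd hb⟩

theorem p_evg : S_evg := by
  intro p _ G H _ _ _ _ Φ c c' hc A B _ _ _ _ TA TB hA hB hft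
  have hT : ∀ J : Ideal A, PC (fun g => Ideal.Quotient.mk J (TA g)) :=
    fun J => evg_map (Ideal.Quotient.mk J) hA.pc
  have hex : ∀ J : {J : Ideal A // Finite (A ⧸ J)},
      ∃ (T' : H → A ⧸ J.1) (e : B →ₐ[ZMod p] A ⧸ J.1),
        Corr Φ (fun g => Ideal.Quotient.mk J.1 (TA g)) T' ∧
          ∀ l, e (TB l) = T' l := by
    intro J
    obtain ⟨q1, q2, -⟩ := evg_corrpc (ZMod p) G H Φ (A ⧸ J.1)
    have hJ : Finite (A ⧸ J.1) := J.2
    obtain ⟨T', hcT⟩ := q2 _ (hT J.1)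
    have h2 : T' c' = -2 := by
      rw [evg_c Φ hc hcT]
      show Ideal.Quotient.mk J.1 (TA c) = -2
      rw [hA.tc, map_neg, map_ofNat]
    obtain ⟨e, he⟩ := hB.univ (A ⧸ J.1) T' ((q1 _ _ hcT).mp (hT J.1)) h2
    exact ⟨T', e, hcT, he⟩
  choose T' ev hcorr hev using hex
  have hfin : ∀ I : Ideal B, Finite (B ⧸ I) → ∃ J, I = RingHom.ker (ev J) := by
    intro I hI
    have hTI : PC (fun l : H => Ideal.Quotient.mk I (TB l)) :=
      evg_map (Ideal.Quotient.mk I) hB.pc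
    obtain ⟨q1, -, q3⟩ := evg_corrpc (ZMod p) G H Φ (B ⧸ I)
    obtain ⟨T, hcT⟩ := q3 _ hTI
    have h2 : T c = -2 := by
      rw [← evg_c Φ hc hcT]
      show Ideal.Quotient.mk I (TB c') = -2
      rw [hB.tc, map_neg, map_ofNat]
    obtain ⟨ψ₀, hψ₀⟩ := hA.univ (B ⧸ I) T ((q1 _ _ hcT).mpr hTI) h2
    let ψ : A ⧸ RingHom.ker ψ₀ →ₐ[ZMod p] B ⧸ I := Ideal.kerLiftAlg ψ₀
    have hψ : Function.Injective ψ := Ideal.kerLiftAlg_injective ψ₀
    have hfinJ : Finite (A ⧸ RingHom.ker ψ₀) := Finite.of_injective ψ hψ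
    let J : {J : Ideal A // Finite (A ⧸ J)} := ⟨RingHom.ker ψ₀, hfinJ⟩
    refine ⟨J, ?_⟩
    have hd := (evg_corr G H Φ (A ⧸ J.1)).2 (B ⧸ I) ψ _ _ (hcorr J)
    have heq : (fun g => ψ (Ideal.Quotient.mk J.1 (TA g))) = T := by
      funext g
      exact hψ₀ g
    have heq' : (fun l => ψ (T' J l)) = fun l : H => Ideal.Quotient.mk I (TB l) :=
      ((evg_corr G H Φ (B ⧸ I)).1 _ _ _ _ hd hcT).2.2.mp heq
    have hcomp : Ideal.Quotient.mkₐ (ZMod p) I = ψ.comp (ev J) := by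
      apply AlgHom.ext_of_adjoin_eq_top hB.adj
      rintro _ ⟨l, rfl⟩
      rw [AlgHom.comp_apply, hev]
      exact (congrFun heq' l).symm
    ext b
    have hb : b ∈ I ↔ Ideal.Quotient.mkₐ (ZMod p) I b = 0 := Ideal.Quotient.eq_zero_iff_mem.symm
    rw [hb, RingHom.mem_ker, hcomp, AlgHom.comp_apply]
    constructor
    · intro hb
      exact hψ (by rw [hb, map_zero])
    · intro hb
      rw [hb, map_zero]
  refine ⟨ev, ⟨hft, ?_, ?_, ?_, hfin, ?_⟩, ?_⟩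
  · intro J a
    obtain ⟨a, rfl⟩ := Ideal.Quotient.mk_surjective a
    obtain ⟨b, hb, -⟩ := evg_alg Φ hA.adj (hcorr J) (hcorr J) (hev J) (hev J) a
    exact ⟨b, hb⟩
  · intro J J' hJ b
    have hd := (evg_corr G H Φ (A ⧸ J.1)).2 (A ⧸ J'.1)
      (Ideal.Quotient.factor hJ) _ _ (hcorr J)
    have heq : (fun g => Ideal.Quotient.factor hJ (Ideal.Quotient.mk J.1 (TA g))) =
        fun g => Ideal.Quotient.mk J'.1 (TA g) := by
      funext g
      exact Ideal.Quotient.factor_mk hJ _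
    have heq' := ((evg_corr G H Φ (A ⧸ J'.1)).1 _ _ _ _ hd (hcorr J')).2.2.mp heq
    have hcomp : (Ideal.Quotient.factorₐ (ZMod p) hJ).comp (ev J) = ev J' := by
      apply AlgHom.ext_of_adjoin_eq_top hB.adj
      rintro _ ⟨l, rfl⟩
      rw [AlgHom.comp_apply, hev, hev]
      exact congrFun heq' l
    exact DFunLike.congr_fun hcomp b
  · have key : ∀ J J' : {J : Ideal A // Finite (A ⧸ J)},
        RingHom.ker (ev J) = RingHom.ker (ev J') → J.1 ≤ J'.1 := by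
      intro J J' hJJ' a ha
      obtain ⟨b, hb, hb'⟩ := evg_alg Φ hA.adj (hcorr J) (hcorr J') (hev J) (hev J') a
      have hk : b ∈ RingHom.ker (ev J) := by
        rw [RingHom.mem_ker, hb]
        exact Ideal.Quotient.eq_zero_iff_mem.mpr ha
      rw [hJJ', RingHom.mem_ker, hb'] at hk
      exact Ideal.Quotient.eq_zero_iff_mem.mp hk
    intro J J' hJJ'
    exact Subtype.ext (le_antisymm (key J J' hJJ') (key J' J hJJ'.symm))
  · intro b hb
    by_contra hne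
    obtain ⟨I, hI, hbI⟩ := (evg_rf p B hft).2 b hne
    obtain ⟨J, hJ⟩ := hfin I hI
    apply hbI
    rw [hJ, RingHom.mem_ker]
    exact hb J
  · intro J
    have : (fun h => ev J (TB h)) = T' J := funext fun l => hev J l
    rw [this]
    exact hcorr J

end Pool.Agent.CZA
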