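import Pool.Agent.Lib.MP_305fdd_al.CZ.A.Stm

/-!
# [CA gam] pseudo-characters of the extension of `C_m * Z` and of the free group
-/

set_option autoImplicit false

namespace Pool.Agent.CZA

open MvPolynomial Pool.Agent.Lib.MP_305fdd_al Pool.Agent.MP_305fdd_al Pool.Agent.CZ
open Pool.Agent.F2 (PC Corr Fr gx gy)
open Pool.Agent.F2TF (Pol fpow)
open Pool.Agent.CC (IsTR)

/-- the homomorphism of the cyclic group with a given value of the generator -/
private theorem gam_cyc (m : ℕ) [NeZero m] {Q : Type} [Group Q] (x : Q) (hx : x ^ m = 1) :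
    ∃ f : Multiplicative (ZMod m) →* Q, f (Multiplicative.ofAdd 1) = x := by
  have h0 : (zmultiplesHom (Additive Q) (Additive.ofMul x)) (m : ℤ) = 0 := by
    rw [zmultiplesHom_apply, natCast_zsmul]
    exact congrArg Additive.ofMul hx
  refine ⟨AddMonoidHom.toMultiplicativeLeft
    (ZMod.lift m ⟨zmultiplesHom (Additive Q) (Additive.ofMul x), h0⟩), ?_⟩
  have h1 : (ZMod.lift m ⟨zmultiplesHom (Additive Q) (Additive.ofMul x), h0⟩) (1 : ZMod m) =
      Additive.ofMul x := by
    have h2 := ZMod.lift_coe m ⟨zmultiplesHom (Additive Q) (Additive.ofMul x), h0⟩ 1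
    rw [Int.cast_one] at h2
    rw [h2, zmultiplesHom_apply, one_zsmul]
  exact congrArg Additive.toMul h1

private theorem gam_powZ (m : ℕ) [NeZero m] (a : Multiplicative (ZMod m)) :
    a = (Multiplicative.ofAdd (1 : ZMod m)) ^ (Multiplicative.toAdd a).val := by
  apply Multiplicative.toAdd.injective
  rw [toAdd_pow, toAdd_ofAdd, nsmul_eq_mul, mul_one, ZMod.natCast_val, ZMod.cast_id', id]

/-- the homomorphism `π` -/
private noncomputable def gam_pi (m : ℕ) : Fr →* Ext m (dG m) :=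
  FreeGroup.lift ![ug m, tg m]

private theorem gam_pi_gx (m : ℕ) : gam_pi m gx = ug m := by
  unfold gam_pi gx
  rw [FreeGroup.lift_apply_of]; rfl

private theorem gam_pi_gy (m : ℕ) : gam_pi m gy = tg m := by
  unfold gam_pi gy
  rw [FreeGroup.lift_apply_of]; rfl

private theorem gam_ext_ext (m : ℕ) {x y : Ext m (dG m)} (h1 : e1 m (dG m) x = e1 m (dG m) y)
    (h2 : e2 m (dG m) x = e2 m (dG m) y) : x = y :=
  Subtype.ext (Prod.ext h1 h2)

private theorem gam_e1_ug (m : ℕ) : e1 m (dG m) (ug m) =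
    Monoid.Coprod.inl (Multiplicative.ofAdd 1) := rfl
private theorem gam_e1_tg (m : ℕ) : e1 m (dG m) (tg m) =
    Monoid.Coprod.inr (Multiplicative.ofAdd 1) := rfl
private theorem gam_e2_ug (m : ℕ) : e2 m (dG m) (ug m) =
    Multiplicative.ofAdd ((1 : ℕ) : ZMod (2 * m)) := rfl
private theorem gam_e1_cc (m : ℕ) : e1 m (dG m) (cc m (dG m)) = 1 := rfl
private theorem gam_e2_cc (m : ℕ) : e2 m (dG m) (cc m (dG m)) =
    Multiplicative.ofAdd (m : ZMod (2 * m)) := rfl

private theorem gam_pow (m : ℕ) [NeZero m] : gam_pi m (gx ^ m) = cc m (dG m) := by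
  rw [map_pow, gam_pi_gx]
  apply gam_ext_ext
  · rw [map_pow, gam_e1_ug, gam_e1_cc, ← map_pow, ← ofAdd_nsmul, nsmul_eq_mul, mul_one,
      ZMod.natCast_self, ofAdd_zero, map_one]
  · rw [map_pow, gam_e2_ug, gam_e2_cc, ← ofAdd_nsmul, nsmul_eq_mul, Nat.cast_one, mul_one]

/-- `f1 ∘ π` is onto -/
private theorem gam_onto1 (m : ℕ) [NeZero m] :
    Function.Surjective ((e1 m (dG m)).comp (gam_pi m)) := by
  rw [← MonoidHom.range_eq_top, eq_top_iff, ← Monoid.Coprod.range_inl_sup_range_inr]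
  apply sup_le
  · rintro _ ⟨a, rfl⟩
    refine ⟨gx ^ (Multiplicative.toAdd a).val, ?_⟩
    rw [map_pow, MonoidHom.comp_apply, gam_pi_gx, gam_e1_ug, ← map_pow, ← gam_powZ]
  · rintro _ ⟨a, rfl⟩
    refine ⟨gy ^ (Multiplicative.toAdd a), ?_⟩
    rw [map_zpow, MonoidHom.comp_apply, gam_pi_gy, gam_e1_tg, ← map_zpow]
    congr 1
    apply Multiplicative.toAdd.injective
    rw [toAdd_zpow, toAdd_ofAdd, smul_eq_mul, mul_one]

private theorem gam_e1_one (m : ℕ) [NeZero m] (x : Ext m (dG m)) (h : e1 m (dG m) x = 1) :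
    x = 1 ∨ x = cc m (dG m) := by
  have h1 : sq m (e2 m (dG m) x) = 1 := by
    rw [← Fib.cond x]
    show dG m (e1 m (dG m) x) = 1
    rw [h, map_one]
  have hm : 0 < m := NeZero.pos m
  have h2 : (((Multiplicative.toAdd (e2 m (dG m) x)).val : ℕ) : ZMod m) = 0 := by
    have h3 : e2 m (dG m) x = Multiplicative.ofAdd
        (((Multiplicative.toAdd (e2 m (dG m) x)).val : ℕ) : ZMod (2 * m)) := by
      rw [ZMod.natCast_val, ZMod.cast_id', id]; rfl
    rw [h3, sq_nat] at h1
    exact congrArg Multiplicative.toAdd h1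
  rw [ZMod.natCast_eq_zero_iff] at h2
  have h4 : (Multiplicative.toAdd (e2 m (dG m) x)).val < 2 * m := ZMod.val_lt _
  obtain ⟨c, hc⟩ := h2
  have hc2 : c < 2 := by
    rw [hc] at h4
    by_contra hcon
    have : m * 2 ≤ m * c := Nat.mul_le_mul_left m (by omega)
    omega
  have h5 : Multiplicative.toAdd (e2 m (dG m) x) = ((m * c : ℕ) : ZMod (2 * m)) := by
    rw [← hc, ZMod.natCast_val, ZMod.cast_id', id]
  interval_cases c
  · left
    apply gam_ext_ext
    · rw [h, map_one]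
    · apply Multiplicative.toAdd.injective
      rw [h5, map_one, toAdd_one, mul_zero, Nat.cast_zero]
  · right
    apply gam_ext_ext
    · rw [h, gam_e1_cc]
    · apply Multiplicative.toAdd.injective
      rw [h5, gam_e2_cc, toAdd_ofAdd, mul_one]

private theorem gam_onto (m : ℕ) [NeZero m] : Function.Surjective (gam_pi m) := by
  intro x
  obtain ⟨w, hw⟩ := gam_onto1 m (e1 m (dG m) x)
  rw [MonoidHom.comp_apply] at hw
  have h1 : e1 m (dG m) (x * (gam_pi m w)⁻¹) = 1 := by
    rw [map_mul, map_inv, hw, mul_inv_cancel]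
  rcases gam_e1_one m _ h1 with h | h
  · exact ⟨w, (mul_inv_eq_one.1 h).symm⟩
  · refine ⟨gx ^ m * w, ?_⟩
    rw [map_mul, gam_pow, ← h, inv_mul_cancel_right]

/-- the kernel of `f1 ∘ π` -/
private theorem gam_ker (m : ℕ) [NeZero m] (w : Fr) (h : e1 m (dG m) (gam_pi m w) = 1) :
    w ∈ Subgroup.normalClosure ({gx ^ m} : Set Fr) := by
  have hx : (QuotientGroup.mk' (Subgroup.normalClosure ({gx ^ m} : Set Fr)) gx) ^ m = 1 := by
    rw [← map_pow, QuotientGroup.mk'_apply, QuotientGroup.eq_one_iff]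
    exact Subgroup.subset_normalClosure (Set.mem_singleton _)
  obtain ⟨f, hf⟩ := gam_cyc m _ hx
  let ψ : Gam m →* Fr ⧸ Subgroup.normalClosure ({gx ^ m} : Set Fr) :=
    Monoid.Coprod.lift f (zpowersHom _ (QuotientGroup.mk' _ gy))
  have hψ : ψ.comp ((e1 m (dG m)).comp (gam_pi m)) = QuotientGroup.mk' _ := by
    apply FreeGroup.ext_hom
    intro i
    fin_cases i
    · show ψ (e1 m (dG m) (gam_pi m gx)) = QuotientGroup.mk' _ gx
      rw [gam_pi_gx, gam_e1_ug, Monoid.Coprod.lift_apply_inl, hf]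
    · show ψ (e1 m (dG m) (gam_pi m gy)) = QuotientGroup.mk' _ gy
      rw [gam_pi_gy, gam_e1_tg, Monoid.Coprod.lift_apply_inr, zpowersHom_apply, toAdd_ofAdd,
        zpow_one]
  have h1 := DFunLike.congr_fun hψ w
  rw [MonoidHom.comp_apply, MonoidHom.comp_apply, h, map_one] at h1
  exact (QuotientGroup.eq_one_iff w).1 h1.symm

private theorem gam_sq {R : Type} [CommRing R] (j : ℕ) : (-1 : R) ^ j * (-1) ^ j = 1 := by
  rw [← mul_pow]; simp

private theorem gam_desc (m : ℕ) [NeZero m] {R : Type} [CommRing R] (T : Fr → R) (hT : PC T)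
    (h : ∀ g, T (gx ^ m * g) = -T g) (w : Fr) (hw : gam_pi m w = 1) (v : Fr) :
    T (v * w) = T v := by
  let K : Subgroup Fr :=
    { carrier := {w | ∃ j : ℕ, e2 m (dG m) (gam_pi m w) =
        Multiplicative.ofAdd ((j * m : ℕ) : ZMod (2 * m)) ∧ ∀ v, T (v * w) = (-1) ^ j * T v}
      one_mem' := ⟨0, by rw [map_one, map_one, zero_mul, Nat.cast_zero, ofAdd_zero],
        fun v => by rw [mul_one, pow_zero, one_mul]⟩
      mul_mem' := by
        rintro a b ⟨i, hi, ha⟩ ⟨j, hj, hb⟩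
        refine ⟨i + j, ?_, fun v => ?_⟩
        · rw [map_mul, map_mul, hi, hj, ← ofAdd_add, ← Nat.cast_add, ← add_mul]
        · rw [← mul_assoc, hb, ha, pow_add]; ring
      inv_mem' := by
        rintro a ⟨i, hi, ha⟩
        refine ⟨i, ?_, fun v => ?_⟩
        · rw [map_inv, map_inv, hi]
          apply Multiplicative.toAdd.injective
          rw [toAdd_inv, toAdd_ofAdd, neg_eq_iff_add_eq_zero, ← Nat.cast_add,
            ZMod.natCast_eq_zero_iff]
          exact ⟨i, by ring⟩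
        · have h1 := ha (v * a⁻¹)
          rw [inv_mul_cancel_right] at h1
          rw [h1, ← mul_assoc, gam_sq, one_mul] }
  have hK : K.Normal := by
    refine ⟨?_⟩
    rintro a ⟨i, hi, ha⟩ g
    refine ⟨i, ?_, fun v => ?_⟩
    · rw [map_mul, map_mul, map_mul, map_mul, map_inv, map_inv, hi, mul_inv_cancel_comm]
    · have e1 : v * (g * a * g⁻¹) = (v * g * a) * g⁻¹ := by group
      have e2 : g⁻¹ * (v * g * a) = (g⁻¹ * v * g) * a := by group
      have e3 : g⁻¹ * v * g = g⁻¹ * (v * g) := by group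
      rw [e1, hT.comm, e2, ha, e3, hT.comm, mul_inv_cancel_right]
  have hle : Subgroup.normalClosure ({gx ^ m} : Set Fr) ≤ K := by
    apply Subgroup.normalClosure_le_normal
    rintro _ rfl
    refine ⟨1, ?_, fun v => ?_⟩
    · rw [gam_pow, gam_e2_cc, one_mul]
    · rw [hT.comm, h, pow_one, neg_one_mul]
  obtain ⟨j, hj, hv⟩ := hle (gam_ker m w (by rw [hw, map_one]))
  rw [hw, map_one] at hj
  have h0 : ((j * m : ℕ) : ZMod (2 * m)) = 0 := (congrArg Multiplicative.toAdd hj).symm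
  rw [ZMod.natCast_eq_zero_iff] at h0
  have h2 : 2 ∣ j := Nat.dvd_of_mul_dvd_mul_right (NeZero.pos m) h0
  obtain ⟨i, rfl⟩ := h2
  rw [hv, pow_mul]
  simp

theorem p_gam : S_gam := by
  intro m _
  refine ⟨gam_pi m, gam_onto m, gam_pi_gx m, gam_pi_gy m, gam_pow m, ?_⟩
  intro R _ T hT h
  have hsurj := gam_onto m
  have key : ∀ w : Fr, T (Function.surjInv hsurj (gam_pi m w)) = T w := by
    intro w
    have h1 : gam_pi m (w⁻¹ * Function.surjInv hsurj (gam_pi m w)) = 1 := by
      rw [map_mul, Function.surjInv_eq hsurj, map_inv, inv_mul_cancel]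
    have h2 := gam_desc m T hT h _ h1 w
    rwa [mul_inv_cancel_left] at h2
  refine ⟨fun x => T (Function.surjInv hsurj x), ⟨?_, ?_, ?_⟩, key⟩
  · have h1 := key 1
    rw [map_one, hT.one] at h1
    exact h1
  · intro a b
    obtain ⟨a, rfl⟩ := hsurj a
    obtain ⟨b, rfl⟩ := hsurj b
    show T (Function.surjInv hsurj (gam_pi m a * gam_pi m b)) =
      T (Function.surjInv hsurj (gam_pi m b * gam_pi m a))
    rw [← map_mul, ← map_mul, key, key, hT.comm]
  · intro a b
    obtain ⟨a, rfl⟩ := hsurj a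
    obtain ⟨b, rfl⟩ := hsurj b
    show T (Function.surjInv hsurj (gam_pi m a * gam_pi m b)) +
      T (Function.surjInv hsurj (gam_pi m a * (gam_pi m b)⁻¹)) =
      T (Function.surjInv hsurj (gam_pi m a)) * T (Function.surjInv hsurj (gam_pi m b))
    rw [← map_inv, ← map_mul, ← map_mul, key, key, key, key, hT.rel]

end Pool.Agent.CZA
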