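import Pool.Agent.Lib.MP_305fdd_al.CZ.A.Stm
import Pool.Agent.Lib.MP_305fdd_al.F2.GB.rf

/-!
# MP_305fdd_al (`C_m * Z`), part A, piece idem: removal of a component of dimension one
-/

set_option autoImplicit false

namespace Pool.Agent.CZA

open MvPolynomial Pool.Agent.Lib.MP_305fdd_al Pool.Agent.MP_305fdd_al Pool.Agent.CZ
open Pool.Agent.F2 (PC Corr Fr gx gy)
open Pool.Agent.F2TF (Pol fpow)
open Pool.Agent.CC (IsTR)

/-- quotients by ideals above the kernel of a surjection -/
private theorem idem_card {R S : Type} [CommRing R] [CommRing S] (f : R →+* S)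
    (hf : Function.Surjective f) (J : Ideal R) (h : RingHom.ker f ≤ J) :
    Nat.card (R ⧸ J) = Nat.card (S ⧸ J.map f) := by
  have e : (J.map f).comap f = J := by
    rw [Ideal.comap_map_of_surjective f hf, sup_eq_left]
    exact h
  refine Nat.card_congr (Equiv.ofBijective (Ideal.quotientMap (J.map f) f (le_of_eq e.symm))
    ⟨Ideal.quotientMap_injective' (le_of_eq e), Ideal.quotientMap_surjective hf⟩)

/-- powers of maximal ideals of `F_p[X]` -/
private theorem idem_pow (p : ℕ) [Fact p.Prime] (P : Ideal (Polynomial (ZMod p)))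
    (hP : P.IsMaximal) (j : ℕ) :
    Nat.card (Polynomial (ZMod p) ⧸ P ^ j) = Nat.card (Polynomial (ZMod p) ⧸ P) ^ j := by
  have hb : P ≠ ⊥ := Ring.ne_bot_of_isMaximal_of_not_isField hP (Polynomial.not_isField (ZMod p))
  haveI : P.IsPrime := hP.isPrime
  exact cardQuot_pow_of_prime hb

/-- Krull: the part of a finitely generated ideal inside all powers of `M` is killed outside of `M` -/
private theorem idem_krull {B : Type} [CommRing B] [IsNoetherianRing B] (I M : Ideal B)
    (hM : M.IsPrime) (h : ∀ j : ℕ, I ≤ M ^ j) : ∃ s : B, s ∉ M ∧ ∀ i ∈ I, s * i = 0 := by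
  classical
  obtain ⟨S, hS⟩ := (IsNoetherian.noetherian I : I.FG)
  have h1 : ∀ x ∈ I, ∃ r : B, r ∈ M ∧ r * x = x := by
    intro x hx
    have hmem : x ∈ (⨅ i : ℕ, M ^ i • ⊤ : Submodule B B) := by
      rw [Submodule.mem_iInf]
      intro j
      rw [Ideal.smul_eq_mul, Ideal.mul_top]
      exact h j hx
    obtain ⟨r, hr⟩ := (Ideal.mem_iInf_smul_pow_eq_bot_iff M x).1 hmem
    exact ⟨r, r.2, hr⟩
  have h2 : ∀ x ∈ S, x ∈ I := fun x hx => hS ▸ Ideal.subset_span hx
  choose! r hr using h1
  refine ⟨∏ x ∈ S, (1 - r x), ?_, ?_⟩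
  · intro hm
    rw [hM.prod_mem_iff] at hm
    obtain ⟨x, hx, hxm⟩ := hm
    have : (1 : B) ∈ M := by
      have h3 := M.add_mem hxm (hr x (h2 x hx)).1
      rwa [sub_add_cancel] at h3
    exact hM.ne_top ((Ideal.eq_top_iff_one M).2 this)
  · intro i hi
    rw [← hS] at hi
    refine Submodule.span_induction ?_ ?_ ?_ ?_ hi
    · intro x hx
      rw [← Finset.mul_prod_erase S _ hx, mul_right_comm, sub_mul, one_mul, (hr x (h2 x hx)).2,
        sub_self, zero_mul]
    · rw [mul_zero]
    · intro x y _ _ hx hy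
      rw [mul_add, hx, hy, add_zero]
    · intro a x _ hx
      rw [smul_eq_mul, mul_left_comm, hx, mul_zero]

theorem p_idem (hpow : S_pow) : S_idem := by
  intro p _ A B _ _ _ _ _ ev hTR κ hκ hcond
  classical
  obtain ⟨hord, hcard, hmul, -, hmax⟩ := hpow p (A × Polynomial (ZMod p)) B ev hTR
  haveI := hTR.fg
  haveI hN : IsNoetherianRing B := Algebra.FiniteType.isNoetherianRing (ZMod p) B
  let I : Ideal B := RingHom.ker κ
  let Ann : Ideal B := I.annihilator
  have hAnn : ∀ s : B, (∀ i ∈ I, s * i = 0) → s ∈ Ann := by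
    intro s hs
    rw [Submodule.mem_annihilator]
    exact fun i hi => hs i hi
  by_cases htop : Ann ⊔ I = ⊤
  · have h1 : (1 : B) ∈ Ann ⊔ I := htop ▸ Submodule.mem_top
    obtain ⟨e, he, i, hi, hei⟩ := Submodule.mem_sup.1 h1
    refine ⟨e, fun j hj => ?_, ?_⟩
    · have := (Submodule.mem_annihilator.1 he) j hj
      exact this
    · have h2 : κ (e + i) = 1 := by rw [hei, map_one]
      rw [map_add] at h2
      have h3 : κ i = 0 := hi
      rwa [h3, add_zero] at h2
  · exfalso
    obtain ⟨M, hM, hle⟩ := Ideal.exists_le_maximal _ htop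
    have hAM : Ann ≤ M := le_trans le_sup_left hle
    have hIM : I ≤ M := le_trans le_sup_right hle
    haveI hfM : Finite (B ⧸ M) := (F2.p_rf p B hTR.fg).1 M hM
    obtain ⟨N, hN'⟩ := hTR.fin M hfM
    have hNmax : N.1.IsMaximal := (hmax N).2 (hN' ▸ hM)
    have h10 : ((1 : A), (0 : Polynomial (ZMod p))) ∈ N.1 := (hcond N).2 (hN' ▸ hIM)
    -- the projection
    let sn : A × Polynomial (ZMod p) →+* Polynomial (ZMod p) := RingHom.snd A _
    have hsn : Function.Surjective sn := Prod.snd_surjective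
    have hker : ∀ J : Ideal (A × Polynomial (ZMod p)),
        ((1 : A), (0 : Polynomial (ZMod p))) ∈ J → RingHom.ker sn ≤ J := by
      intro J hJ x hx
      have hx2 : x.2 = 0 := hx
      have : x = x * ((1 : A), (0 : Polynomial (ZMod p))) := by
        refine Prod.ext ?_ ?_
        · simp
        · simp [hx2]
      rw [this]
      exact J.mul_mem_left _ hJ
    have h10j : ∀ j : ℕ, ((1 : A), (0 : Polynomial (ZMod p))) ∈ N.1 ^ (j + 1) := by
      intro j
      have := Ideal.pow_mem_pow h10 (j + 1)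
      have e : ((1 : A), (0 : Polynomial (ZMod p))) ^ (j + 1) = (1, 0) := by
        refine Prod.ext ?_ ?_
        · simp
        · simp
      rwa [e] at this
    let N1 := N.1.map sn
    let M1 : Ideal (Polynomial (ZMod p)) := M.map (κ : B →+* Polynomial (ZMod p))
    have hκ' : Function.Surjective (κ : B →+* Polynomial (ZMod p)) := hκ
    have hN1 : N1.IsMaximal := Ideal.IsMaximal.map_of_surjective_of_ker_le hsn (hker _ h10)
    have hM1 : M1.IsMaximal := Ideal.IsMaximal.map_of_surjective_of_ker_le hκ' hIM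
    have hq : Nat.card (Polynomial (ZMod p) ⧸ M1) = Nat.card (Polynomial (ZMod p) ⧸ N1) := by
      rw [← idem_card (κ : B →+* Polynomial (ZMod p)) hκ' M hIM, ← idem_card sn hsn N.1 (hker _ h10),
        ← hcard N, ← hN']
    have hq0 : Nat.card (Polynomial (ZMod p) ⧸ N1) ≠ 0 := by
      rw [← idem_card sn hsn N.1 (hker _ h10)]
      haveI := N.2
      exact Nat.card_pos.ne'
    have hcj : ∀ j : ℕ, Nat.card ((A × Polynomial (ZMod p)) ⧸ N.1 ^ (j + 1)) =
        Nat.card (Polynomial (ZMod p) ⧸ N1) ^ (j + 1) := by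
      intro j
      rw [idem_card sn hsn _ (hker _ (h10j j)), Ideal.map_pow, idem_pow p _ hN1]
    have hfj : ∀ j : ℕ, Finite ((A × Polynomial (ZMod p)) ⧸ N.1 ^ (j + 1)) := by
      intro j
      refine Nat.finite_of_card_ne_zero ?_
      rw [hcj]
      exact pow_ne_zero _ hq0
    have hevj : ∀ j : ℕ, RingHom.ker (ev ⟨N.1 ^ (j + 1), hfj j⟩) = M ^ (j + 1) := by
      intro j
      induction j with
      | zero =>
        have e : (⟨N.1 ^ (0 + 1), hfj 0⟩ : {J : Ideal (A × Polynomial (ZMod p)) //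
            Finite ((A × Polynomial (ZMod p)) ⧸ J)}) = N := Subtype.ext (pow_one _)
        rw [e, zero_add, pow_one, ← hN']
      | succ j ih =>
        have hf2 : Finite ((A × Polynomial (ZMod p)) ⧸ N.1 ^ (j + 1) * N.1) := by
          rw [← pow_succ]
          exact hfj (j + 1)
        have h3 := hmul ⟨N.1 ^ (j + 1), hfj j⟩ N hf2
        have e : (⟨N.1 ^ (j + 1 + 1), hfj (j + 1)⟩ : {J : Ideal (A × Polynomial (ZMod p)) //
            Finite ((A × Polynomial (ZMod p)) ⧸ J)}) = ⟨N.1 ^ (j + 1) * N.1, hf2⟩ :=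
          Subtype.ext (pow_succ _ _)
        rw [e, h3, ih, ← hN', ← pow_succ]
    have hBj : ∀ j : ℕ, Nat.card (B ⧸ M ^ (j + 1)) =
        Nat.card (Polynomial (ZMod p) ⧸ N1) ^ (j + 1) := by
      intro j
      rw [← hevj j, hcard, hcj]
    have hBI : ∀ j : ℕ, Nat.card (B ⧸ (M ^ (j + 1) ⊔ I)) =
        Nat.card (Polynomial (ZMod p) ⧸ N1) ^ (j + 1) := by
      intro j
      have hkle : RingHom.ker (κ : B →+* Polynomial (ZMod p)) ≤ M ^ (j + 1) ⊔ I :=
        (le_sup_right : I ≤ M ^ (j + 1) ⊔ I)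
      rw [idem_card (κ : B →+* Polynomial (ZMod p)) hκ' _ hkle, Ideal.map_sup,
        Ideal.map_pow]
      have e : I.map (κ : B →+* Polynomial (ZMod p)) = ⊥ := by
        rw [Ideal.map_eq_bot_iff_le_ker]
        exact le_refl I
      rw [e, sup_bot_eq, idem_pow p _ hM1, hq]
    have hall : ∀ j : ℕ, I ≤ M ^ j := by
      intro j
      rcases j with _ | j
      · rw [pow_zero, Ideal.one_eq_top]
        exact le_top
      · have hfin : Finite (B ⧸ M ^ (j + 1)) := by
          refine Nat.finite_of_card_ne_zero ?_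
          rw [hBj]
          exact pow_ne_zero _ hq0
        have hsurj : Function.Surjective (Ideal.Quotient.factor
            (le_sup_left : M ^ (j + 1) ≤ M ^ (j + 1) ⊔ I)) := Ideal.Quotient.factor_surjective _
        have hbij : Function.Bijective (Ideal.Quotient.factor
            (le_sup_left : M ^ (j + 1) ≤ M ^ (j + 1) ⊔ I)) := by
          rw [Nat.bijective_iff_surjective_and_card]
          exact ⟨hsurj, by rw [hBj, hBI]⟩
        intro x hx
        rw [← Ideal.Quotient.eq_zero_iff_mem]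
        apply hbij.1
        rw [Ideal.Quotient.factor_mk, map_zero, Ideal.Quotient.eq_zero_iff_mem]
        exact Ideal.mem_sup_right hx
    obtain ⟨s, hs, hs0⟩ := idem_krull I M hM.isPrime hall
    exact hs (hAM (hAnn s hs0))

end Pool.Agent.CZA
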