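import Pool.Agent.Lib.MP_305fdd_al.CZ.A.Stm

/-!
# MP_305fdd_al, C_m * Z, part A: natural bijections for fibre products
-/

set_option autoImplicit false

namespace Pool.Agent.CZA

open MvPolynomial Pool.Agent.Lib.MP_305fdd_al Pool.Agent.MP_305fdd_al Pool.Agent.CZ

/-- `(P, π, e, ρ)` represents `θ` -/
private structure nb_Rep {G M M' Q : Type} [Group G] [Group M] [Group M'] [Group Q]
    (d : G →* M) (s : M' →* M) (θ : Fib d s →* Q) (P : Type) [Group P] (π : G →* P)
    (e : P →* M) (ρ : Fib e s →* Q) : Prop where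
  comp : e.comp π = d
  eq : ∀ (g : G) (z : M') (h : d g = s z) (h' : e (π g) = s z),
    θ (Fib.mk d s g z h) = ρ (Fib.mk e s (π g) z h')

private theorem nb_fib_ext {G M M' : Type} [Group G] [Group M] [Group M'] {d : G →* M}
    {s : M' →* M} {x y : Fib d s} (h1 : f1 d s x = f1 d s y) (h2 : f2 d s x = f2 d s y) :
    x = y :=
  Subtype.ext (Prod.ext h1 h2)

/-- the homomorphism of fibre products given by `π : G → P`, `e ∘ π = d` -/
private def nb_map {G P M M' : Type} [Group G] [Group P] [Group M] [Group M'] (d : G →* M)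
    (s : M' →* M) (π : G →* P) (e : P →* M) (h : e.comp π = d) : Fib d s →* Fib e s where
  toFun x := Fib.mk e s (π (f1 d s x)) (f2 d s x) (by
    rw [← Fib.cond x]
    exact DFunLike.congr_fun h (f1 d s x))
  map_one' := by
    apply nb_fib_ext
    · show π (f1 d s 1) = 1
      rw [map_one, map_one]
    · show f2 d s 1 = 1
      rw [map_one]
  map_mul' x y := by
    apply nb_fib_ext
    · show π (f1 d s (x * y)) = π (f1 d s x) * π (f1 d s y)
      rw [map_mul, map_mul]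
    · show f2 d s (x * y) = f2 d s x * f2 d s y
      rw [map_mul]

private theorem nb_exists {G M M' Q : Type} [Group G] [Group M] [Group M'] [Finite M']
    [Group Q] [Finite Q] (d : G →* M) (s : M' →* M) (hs : Function.Surjective s)
    (θ : Fib d s →* Q) : ∃ (P : Type) (_ : Group P) (_ : Finite P) (π : G →* P) (e : P →* M)
      (ρ : Fib e s →* Q), nb_Rep d s θ P π e ρ := by
  have hf1 : Function.Surjective (f1 d s) := by
    intro g
    obtain ⟨z, hz⟩ := hs (d g)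
    exact ⟨Fib.mk d s g z hz.symm, rfl⟩
  obtain ⟨K, hK⟩ : ∃ K : Subgroup G, K = (θ.ker ⊓ (f2 d s).ker).map (f1 d s) := ⟨_, rfl⟩
  have hKn : K.Normal := by
    rw [hK]
    exact Subgroup.Normal.map inferInstance _ hf1
  have hfin : Finite (G ⧸ K) := by
    have h1 : (θ.ker ⊓ (f2 d s).ker).FiniteIndex := by
      have h2 : θ.ker.FiniteIndex := Subgroup.finiteIndex_ker _
      have h3 : (f2 d s).ker.FiniteIndex := Subgroup.finiteIndex_ker _
      infer_instance
    have h4 : K.index ≠ 0 := by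
      rw [hK]
      intro h0
      have h5 := Subgroup.index_map_dvd (θ.ker ⊓ (f2 d s).ker) hf1
      rw [h0] at h5
      exact h1.index_ne_zero (Nat.eq_zero_of_zero_dvd h5)
    have : K.FiniteIndex := ⟨h4⟩
    infer_instance
  have hKd : K ≤ d.ker := by
    rw [hK]
    rintro _ ⟨x, hx, rfl⟩
    rw [MonoidHom.mem_ker, Fib.cond x]
    have h2 : f2 d s x = 1 := hx.2
    rw [h2, map_one]
  obtain ⟨e, he⟩ : ∃ e : G ⧸ K →* M, e = QuotientGroup.lift K d hKd := ⟨_, rfl⟩
  have hcomp : e.comp (QuotientGroup.mk' K) = d := by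
    rw [he]
    ext x
    rfl
  obtain ⟨r, hr⟩ : ∃ r : Fib d s →* Fib e s, r = nb_map d s (QuotientGroup.mk' K) e hcomp :=
    ⟨_, rfl⟩
  have hrs : Function.Surjective r := by
    intro y
    obtain ⟨g, hg⟩ := QuotientGroup.mk'_surjective K (f1 e s y)
    have h1 : d g = s (f2 e s y) := by
      rw [← Fib.cond y, ← hg, ← hcomp]
      rfl
    refine ⟨Fib.mk d s g (f2 e s y) h1, ?_⟩
    apply nb_fib_ext
    · rw [hr]
      exact hg
    · rw [hr]
      rfl
  have hrk : r.ker ≤ θ.ker := by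
    intro x hx
    rw [MonoidHom.mem_ker] at hx
    have h1 : QuotientGroup.mk' K (f1 d s x) = 1 := by
      have h2 := congrArg (f1 e s) hx
      rw [hr, map_one] at h2
      exact h2
    have h3 : f2 d s x = 1 := by
      have h2 := congrArg (f2 e s) hx
      rw [hr, map_one] at h2
      exact h2
    have h4 : f1 d s x ∈ K := (QuotientGroup.eq_one_iff _).1 h1
    rw [hK] at h4
    obtain ⟨x', hx', h5⟩ := h4
    have h6 : x' = x := nb_fib_ext h5 (by
      rw [h3]
      exact hx'.2)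
    rw [← h6]
    exact hx'.1
  refine ⟨G ⧸ K, inferInstance, hfin, QuotientGroup.mk' K, e,
    MonoidHom.liftOfSurjective r hrs ⟨θ, hrk⟩, hcomp, ?_⟩
  intro g z h h'
  have h7 : Fib.mk e s (QuotientGroup.mk' K g) z h' = r (Fib.mk d s g z h) := by
    rw [hr]
    rfl
  rw [h7]
  exact (MonoidHom.liftOfRightInverse_comp_apply r (Function.surjInv hrs)
    (Function.rightInverse_surjInv hrs) ⟨θ, hrk⟩ _).symm

private theorem nb_unique {G M M' Q : Type} [Group G] [Group M] [Group M'] [Group Q]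
    {d : G →* M} {s : M' →* M} {θ θ' : Fib d s →* Q} {P : Type} [Group P] {π : G →* P}
    {e : P →* M} {ρ : Fib e s →* Q} (h : nb_Rep d s θ P π e ρ) (h' : nb_Rep d s θ' P π e ρ) :
    θ = θ' := by
  ext x
  have h1 : e (π (f1 d s x)) = s (f2 d s x) := by
    rw [← Fib.cond x]
    exact DFunLike.congr_fun h.comp (f1 d s x)
  exact (h.eq (f1 d s x) (f2 d s x) (Fib.cond x) h1).trans
    (h'.eq (f1 d s x) (f2 d s x) (Fib.cond x) h1).symm

private theorem nb_comp {G M M' Q R : Type} [Group G] [Group M] [Group M'] [Group Q] [Group R]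
    {d : G →* M} {s : M' →* M} {θ : Fib d s →* Q} {P : Type} [Group P] {π : G →* P}
    {e : P →* M} {ρ : Fib e s →* Q} (h : nb_Rep d s θ P π e ρ) (f : Q →* R) :
    nb_Rep d s (f.comp θ) P π e (f.comp ρ) :=
  ⟨h.comp, fun g z h1 h2 => congrArg f (h.eq g z h1 h2)⟩

private theorem nb_trans {G H M M' Q : Type} [Group G] [Group H] [Group M] [Finite M]
    [Group M'] [Finite M'] [Group Q] [Finite Q] (Φ : NatBij G H) (d : G →* M) (d' : H →* M)
    (s : M' →* M) (hd : Φ.toFun M d = d') (hs : Function.Surjective s) (θ : Fib d s →* Q) :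
    ∃ ψ : Fib d' s →* Q, ∀ (P : Type) [Group P] [Finite P] (π : G →* P) (e : P →* M)
      (ρ : Fib e s →* Q), nb_Rep d s θ P π e ρ → nb_Rep d' s ψ P (Φ.toFun P π) e ρ := by
  obtain ⟨P, _, _, π, e, ρ, hrep⟩ := nb_exists d s hs θ
  have hcomp : ∀ (P : Type) [Group P] [Finite P] (π : G →* P) (e : P →* M),
      e.comp π = d → e.comp (Φ.toFun P π) = d' := by
    intro P _ _ π e h
    rw [← Φ.nat, h, hd]
  refine ⟨ρ.comp (nb_map d' s (Φ.toFun P π) e (hcomp P π e hrep.comp)), ?_⟩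
  intro P2 _ _ π2 e2 ρ2 hrep2
  refine ⟨hcomp P2 π2 e2 hrep2.comp, ?_⟩
  intro h z h1 h2
  obtain ⟨g, hg⟩ : ∃ g, (π.prod π2) g = Φ.toFun (P × P2) (π.prod π2) h := by
    have h3 : Φ.toFun (P × P2) (π.prod π2) h ∈ (Φ.toFun (P × P2) (π.prod π2)).range :=
      ⟨h, rfl⟩
    rw [Φ.range_eq] at h3
    exact h3
  have hg1 : π g = Φ.toFun P π h := by
    have h3 := Φ.nat (MonoidHom.fst P P2) (π.prod π2)
    rw [MonoidHom.fst_comp_prod] at h3
    rw [h3, MonoidHom.comp_apply, ← hg]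
    rfl
  have hg2 : π2 g = Φ.toFun P2 π2 h := by
    have h3 := Φ.nat (MonoidHom.snd P P2) (π.prod π2)
    rw [MonoidHom.snd_comp_prod] at h3
    rw [h3, MonoidHom.comp_apply, ← hg]
    rfl
  have hdg : d g = s z := by
    rw [← h1, ← hcomp P π e hrep.comp, MonoidHom.comp_apply, ← hg1, ← hrep.comp]
    rfl
  have k1 : e (π g) = s z := by
    rw [← hdg, ← hrep.comp]
    rfl
  have k2 : e2 (π2 g) = s z := by
    rw [← hdg, ← hrep2.comp]
    rfl
  have h4 := hrep.eq g z hdg k1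
  have h5 := hrep2.eq g z hdg k2
  have h6 : Fib.mk e2 s (Φ.toFun P2 π2 h) z h2 = Fib.mk e2 s (π2 g) z k2 :=
    nb_fib_ext hg2.symm rfl
  rw [h6, ← h5, h4]
  show ρ _ = ρ _
  congr 1
  exact nb_fib_ext hg1.symm rfl

theorem p_nb : S_nb := by
  intro G H M M' _ _ _ _ _ _ Φ d d' s hd hs
  have hd2 : Φ.symm.toFun M d' = d := by
    rw [← hd]
    exact Φ.left_inv M d
  have hF : ∀ (Q : Type) [Group Q] [Finite Q] (θ : Fib d s →* Q), ∃ ψ : Fib d' s →* Q,
      ∀ (P : Type) [Group P] [Finite P] (π : G →* P) (e : P →* M)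
      (ρ : Fib e s →* Q), nb_Rep d s θ P π e ρ → nb_Rep d' s ψ P (Φ.toFun P π) e ρ :=
    fun Q _ _ θ => nb_trans Φ d d' s hd hs θ
  have hF' : ∀ (Q : Type) [Group Q] [Finite Q] (θ : Fib d' s →* Q), ∃ ψ : Fib d s →* Q,
      ∀ (P : Type) [Group P] [Finite P] (π : H →* P) (e : P →* M)
      (ρ : Fib e s →* Q), nb_Rep d' s θ P π e ρ → nb_Rep d s ψ P (Φ.symm.toFun P π) e ρ :=
    fun Q _ _ θ => nb_trans Φ.symm d' d s hd2 hs θ
  choose F hFs using hF
  choose F' hFs' using hF'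
  refine ⟨⟨F, F', ?_, ?_, ?_⟩, ?_, ?_, ?_⟩
  · intro Q _ _ θ
    obtain ⟨P, _, _, π, e, ρ, hrep⟩ := nb_exists d s hs θ
    have h1 := hFs' Q (F Q θ) P _ e ρ (hFs Q θ P π e ρ hrep)
    rw [show Φ.symm.toFun P (Φ.toFun P π) = π from Φ.left_inv P π] at h1
    exact nb_unique h1 hrep
  · intro Q _ _ θ
    obtain ⟨P, _, _, π, e, ρ, hrep⟩ := nb_exists d' s hs θ
    have h1 := hFs Q (F' Q θ) P _ e ρ (hFs' Q θ P π e ρ hrep)
    rw [show Φ.toFun P (Φ.symm.toFun P π) = π from Φ.right_inv P π] at h1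
    exact nb_unique h1 hrep
  · intro Q R _ _ _ _ f θ
    obtain ⟨P, _, _, π, e, ρ, hrep⟩ := nb_exists d s hs θ
    exact nb_unique (hFs R (f.comp θ) P π e (f.comp ρ) (nb_comp hrep f))
      (nb_comp (hFs Q θ P π e ρ hrep) f)
  · intro Q _ _ θ
    show F Q (θ.comp (f1 d s)) = (Φ.toFun Q θ).comp (f1 d' s)
    have hrep : nb_Rep d s (θ.comp (f1 d s)) (Q × M) (θ.prod d) (MonoidHom.snd Q M)
        ((MonoidHom.fst Q M).comp (f1 (MonoidHom.snd Q M) s)) := ⟨rfl, fun _ _ _ _ => rfl⟩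
    have h1 := hFs Q _ (Q × M) (θ.prod d) (MonoidHom.snd Q M) _ hrep
    ext x
    have h2 : MonoidHom.snd Q M (Φ.toFun (Q × M) (θ.prod d) (f1 d' s x)) = s (f2 d' s x) := by
      rw [← Fib.cond x]
      exact congrArg (fun q => q (f1 d' s x)) h1.comp
    have h3 := h1.eq (f1 d' s x) (f2 d' s x) (Fib.cond x) h2
    refine h3.trans ?_
    have h4 := Φ.nat (MonoidHom.fst Q M) (θ.prod d)
    rw [MonoidHom.fst_comp_prod] at h4
    rw [h4]
    rfl
  · show F M' (f2 d s) = f2 d' s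
    have hrep : nb_Rep d s (f2 d s) M d (MonoidHom.id M) (f2 (MonoidHom.id M) s) :=
      ⟨rfl, fun _ _ _ _ => rfl⟩
    have h1 := hFs M' _ M d (MonoidHom.id M) _ hrep
    ext x
    have h2 : MonoidHom.id M (Φ.toFun M d (f1 d' s x)) = s (f2 d' s x) := by
      rw [← Fib.cond x, hd]
      rfl
    exact h1.eq (f1 d' s x) (f2 d' s x) (Fib.cond x) h2
  · intro Q _ _ θ z h
    show F Q θ (Fib.mk d' s 1 z _) = θ (Fib.mk d s 1 z _)
    obtain ⟨P, _, _, π, e, ρ, hrep⟩ := nb_exists d s hs θ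
    have h1 := hFs Q θ P π e ρ hrep
    have k1 : e (π 1) = s z := by rw [map_one, map_one, h]
    have k2 : e (Φ.toFun P π 1) = s z := by rw [map_one, map_one, h]
    have h3 := h1.eq 1 z (by rw [map_one, h]) k2
    have h4 := hrep.eq 1 z (by rw [map_one, h]) k1
    rw [h3, h4]
    congr 1
    apply nb_fib_ext
    · show Φ.toFun P π 1 = π 1
      rw [map_one, map_one]
    · rfl

end Pool.Agent.CZA
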