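import Pool.Agent.Lib.MP_305fdd_al.CZ.A.Stm

/-!
# [CA neg] central elements with `T c = -2`, and scalar pseudo-characters
-/

set_option autoImplicit false

namespace Pool.Agent.CZA

open MvPolynomial Pool.Agent.Lib.MP_305fdd_al Pool.Agent.MP_305fdd_al Pool.Agent.CZ
open Pool.Agent.F2 (PC Corr Fr gx gy)
open Pool.Agent.F2TF (Pol fpow)

theorem neg_inv {G R : Type} [Group G] [CommRing R] {T : G → R} (hT : PC T) (x : G) :
    T x⁻¹ = T x := by
  have h1 := hT.rel 1 x
  rw [one_mul, one_mul, hT.one] at h1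
  linear_combination h1

theorem neg_sgn_add {R : Type} [CommRing R] {m : ℕ} [NeZero m] (a b : ZMod (2 * m)) :
    (-1 : R) ^ (a + b).val = (-1) ^ a.val * (-1) ^ b.val := by
  have hne : NeZero (2 * m) := ⟨by have := NeZero.ne m; omega⟩
  rw [ZMod.val_add, ← pow_add, neg_one_pow_eq_pow_mod_two, neg_one_pow_eq_pow_mod_two (a.val + b.val),
    Nat.mod_mod_of_dvd _ (dvd_mul_right 2 m)]

theorem neg_sgn_sq {R : Type} [CommRing R] (n : ℕ) : ((-1 : R) ^ n) * (-1) ^ n = 1 := by
  rw [← pow_add, ← two_mul, pow_mul]; simp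

theorem neg_sgn_neg {R : Type} [CommRing R] {m : ℕ} [NeZero m] (a : ZMod (2 * m)) :
    (-1 : R) ^ (-a).val = (-1) ^ a.val := by
  have h1 := neg_sgn_add (R := R) a (-a)
  rw [add_neg_cancel, ZMod.val_zero, pow_zero] at h1
  have h2 := neg_sgn_sq (R := R) a.val
  calc (-1 : R) ^ (-a).val = ((-1) ^ a.val * (-1) ^ a.val) * (-1) ^ (-a).val := by rw [h2, one_mul]
    _ = (-1) ^ a.val * ((-1) ^ a.val * (-1) ^ (-a).val) := by ring
    _ = (-1) ^ a.val := by rw [← h1, mul_one]

section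
variable {m : ℕ} [NeZero m] {Λ : Type} [Group Λ] (δ : Λ →* Multiplicative (ZMod m))

theorem neg_ev_mul {R : Type} [CommRing R] (g h : Ext m δ) :
    (-1 : R) ^ (ev m δ (g * h)) = (-1) ^ (ev m δ g) * (-1) ^ (ev m δ h) := by
  unfold ev
  rw [map_mul, toAdd_mul]
  exact neg_sgn_add _ _

theorem neg_ev_inv {R : Type} [CommRing R] (g : Ext m δ) :
    (-1 : R) ^ (ev m δ g⁻¹) = (-1) ^ (ev m δ g) := by
  unfold ev
  rw [map_inv, toAdd_inv]
  exact neg_sgn_neg _

end

theorem neg_nn_mul {m : ℕ} {Λ : Type} [Group Λ] (δ : Λ →* Multiplicative (ZMod m))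
    (n : Λ →* Multiplicative ℤ) (g h : Ext m δ) :
    Multiplicative.toAdd (n (e1 m δ (g * h))) =
      Multiplicative.toAdd (n (e1 m δ g)) + Multiplicative.toAdd (n (e1 m δ h)) := by
  rw [map_mul (e1 m δ), map_mul n, toAdd_mul]

theorem neg_nn_inv {m : ℕ} {Λ : Type} [Group Λ] (δ : Λ →* Multiplicative (ZMod m))
    (n : Λ →* Multiplicative ℤ) (g : Ext m δ) :
    Multiplicative.toAdd (n (e1 m δ g⁻¹)) = -Multiplicative.toAdd (n (e1 m δ g)) := by
  rw [map_inv (e1 m δ), map_inv n, toAdd_inv]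

theorem p_neg : S_neg := by
  refine ⟨?_, ?_⟩
  · intro G R _ _ T c h2 hT hc hcc hTc g
    have h1 := hT.rel c g
    have h3 : T (c * g⁻¹) = T (c * g) := by
      have hci : c⁻¹ = c := inv_eq_of_mul_eq_one_left hcc
      rw [← neg_inv hT (c * g⁻¹), mul_inv_rev, inv_inv, hci, hc]
    rw [h3, hTc] at h1
    have h4 : (2 : R) * (T (c * g) + T g) = 0 := by linear_combination h1
    have h5 := (h2.mul_right_eq_zero).mp h4
    linear_combination h5
  · intro p m _ _ Λ _ δ n
    refine ⟨⟨?_, ?_, ?_⟩, ?_⟩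
    · have h1 : ev m δ (1 : Ext m δ) = 0 := by
        unfold ev
        rw [map_one (e2 m δ), toAdd_one, ZMod.val_zero]
      have h2 : Multiplicative.toAdd (n (e1 m δ (1 : Ext m δ))) = 0 := by
        rw [map_one (e1 m δ), map_one n, toAdd_one]
      unfold Tsc
      rw [h1, h2, pow_zero, one_mul, Polynomial.Chebyshev.C_zero]
    · intro g h
      unfold Tsc
      rw [neg_ev_mul, neg_ev_mul, neg_nn_mul, neg_nn_mul,
        add_comm (Multiplicative.toAdd (n (e1 m δ h)))]
      ring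
    · intro g h
      unfold Tsc
      rw [neg_ev_mul, neg_ev_mul, neg_ev_inv, neg_nn_mul, neg_nn_mul, neg_nn_inv,
        ← sub_eq_add_neg]
      have h1 := Polynomial.Chebyshev.C_mul_C (ZMod p) (Multiplicative.toAdd (n (e1 m δ g)))
        (Multiplicative.toAdd (n (e1 m δ h)))
      linear_combination (-1 : Polynomial (ZMod p)) ^ (ev m δ g) * (-1) ^ (ev m δ h) * (-h1)
    · intro hm
      have hev : ev m δ (cc m δ) = m := by
        unfold ev
        have h1 : e2 m δ (cc m δ) = Multiplicative.ofAdd (m : ZMod (2 * m)) := rfl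
        rw [h1, toAdd_ofAdd, ZMod.val_natCast]
        apply Nat.mod_eq_of_lt
        have := NeZero.pos m
        omega
      have he1 : e1 m δ (cc m δ) = 1 := rfl
      unfold Tsc
      rw [hev, he1, map_one, toAdd_one, Polynomial.Chebyshev.C_zero, neg_one_pow_eq_pow_mod_two, hm]
      ring

end Pool.Agent.CZA
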