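import Pool.Agent.Lib.MP_305fdd_al.CZ.A.Stm

/-!
# MP_305fdd_al (`C_m * Z`), part A, piece [CA pow]
-/

set_option autoImplicit false

namespace Pool.Agent.CZA

open MvPolynomial
open Pool.Agent.F2TF (Pol fpow)
open Pool.Agent.CC (IsTR)

private theorem pow_fpow_mem {R : Type} [CommRing R] {q : ℕ} {I : Ideal R} {a : R} (ha : a ∈ I) :
    a ^ q ∈ fpow q I := Ideal.subset_span ⟨a, ha, rfl⟩

private theorem pow_fpow_le {R : Type} [CommRing R] {q : ℕ} {I K : Ideal R}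
    (h : ∀ a ∈ I, a ^ q ∈ K) : fpow q I ≤ K := by
  unfold fpow
  rw [Ideal.span_le]
  rintro _ ⟨a, ha, rfl⟩
  exact h a ha

private theorem pow_fin_fpow {p : ℕ} {R : Type} [CommRing R]
    [IsNoetherianRing R] (I : Ideal R) (hI : Finite (R ⧸ I)) : Finite (R ⧸ fpow p I) := by
  have h1 : I ≤ (fpow p I).radical := fun a ha => ⟨p, pow_fpow_mem ha⟩
  obtain ⟨n, hn⟩ := Ideal.exists_pow_le_of_le_radical_of_fg h1 (IsNoetherian.noetherian I)
  have h2 : Finite (R ⧸ I ^ n) := Ideal.finite_quotient_pow (IsNoetherian.noetherian I) n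
  exact Finite.of_surjective (Ideal.Quotient.factor hn) (Ideal.Quotient.factor_surjective hn)

private theorem pow_fin_inf {R : Type} [CommRing R] (I K : Ideal R) (hI : Finite (R ⧸ I))
    (hK : Finite (R ⧸ K)) : Finite (R ⧸ (I ⊓ K)) := by
  have hinj : Function.Injective (fun x : R ⧸ (I ⊓ K) =>
      (Ideal.Quotient.factor (inf_le_left : I ⊓ K ≤ I) x,
        Ideal.Quotient.factor (inf_le_right : I ⊓ K ≤ K) x)) := by
    intro x y hxy
    obtain ⟨a, rfl⟩ := Ideal.Quotient.mk_surjective x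
    obtain ⟨b, rfl⟩ := Ideal.Quotient.mk_surjective y
    simp only [Ideal.Quotient.factor_mk, Prod.mk.injEq, Ideal.Quotient.eq] at hxy
    rw [Ideal.Quotient.eq]
    exact hxy
  exact Finite.of_injective _ hinj

private theorem pow_fin_mul {R : Type} [CommRing R] [IsNoetherianRing R] (I K : Ideal R)
    (hI : Finite (R ⧸ I)) (hK : Finite (R ⧸ K)) : Finite (R ⧸ (I * K)) := by
  have h0 := pow_fin_inf I K hI hK
  have h2 : Finite (R ⧸ (I ⊓ K) ^ 2) :=
    Ideal.finite_quotient_pow (IsNoetherian.noetherian (I ⊓ K)) 2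
  have hle : (I ⊓ K) ^ 2 ≤ I * K := by
    rw [pow_two]
    exact Ideal.mul_mono inf_le_left inf_le_right
  exact Finite.of_surjective (Ideal.Quotient.factor hle) (Ideal.Quotient.factor_surjective hle)

section

variable {p : ℕ} [hp : Fact p.Prime] {A B : Type} [CommRing A] [CommRing B]
  [Algebra (ZMod p) A] [Algebra (ZMod p) B]
  {ev : ∀ J : {J : Ideal A // Finite (A ⧸ J)}, B →ₐ[ZMod p] A ⧸ J.1}

private theorem pow_ker_le (h : IsTR p A B ev)
    (J₁ J₂ : {J : Ideal A // Finite (A ⧸ J)}) (hle : J₁.1 ≤ J₂.1) :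
    RingHom.ker (ev J₁) ≤ RingHom.ker (ev J₂) := by
  intro b hb
  rw [RingHom.mem_ker] at hb ⊢
  rw [← h.compat J₁ J₂ hle b, hb, map_zero]

private theorem pow_le_of_ker_le (h : IsTR p A B ev)
    (J₁ J₂ : {J : Ideal A // Finite (A ⧸ J)})
    (hle : RingHom.ker (ev J₁) ≤ RingHom.ker (ev J₂)) : J₁.1 ≤ J₂.1 := by
  have hfin : Finite (A ⧸ (J₁.1 ⊓ J₂.1)) := pow_fin_inf _ _ J₁.2 J₂.2
  set J₃ : {J : Ideal A // Finite (A ⧸ J)} := ⟨J₁.1 ⊓ J₂.1, hfin⟩ with hJ₃
  have h3 : RingHom.ker (ev J₃) = RingHom.ker (ev J₁) := by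
    apply le_antisymm
    · exact pow_ker_le h J₃ J₁ inf_le_left
    · intro b hb
      have hb2 := hle hb
      rw [RingHom.mem_ker] at hb hb2 ⊢
      obtain ⟨a, ha⟩ := Ideal.Quotient.mk_surjective (ev J₃ b)
      have e1 := h.compat J₃ J₁ inf_le_left b
      have e2 := h.compat J₃ J₂ inf_le_right b
      rw [← ha, hb, Ideal.Quotient.factor_mk, Ideal.Quotient.eq_zero_iff_mem] at e1
      rw [← ha, hb2, Ideal.Quotient.factor_mk, Ideal.Quotient.eq_zero_iff_mem] at e2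
      rw [← ha, Ideal.Quotient.eq_zero_iff_mem]
      exact ⟨e1, e2⟩
  have h4 := h.inj _ _ h3
  have h5 : J₁.1 ⊓ J₂.1 = J₁.1 := congrArg Subtype.val h4
  exact inf_eq_left.1 h5

/-- `B / ker (ev J) ≃ A / J` -/
private noncomputable def pow_equiv (h : IsTR p A B ev)
    (J : {J : Ideal A // Finite (A ⧸ J)}) : B ⧸ RingHom.ker (ev J) ≃+* A ⧸ J.1 :=
  RingHom.quotientKerEquivOfSurjective (f := (ev J).toRingHom) (h.surj J)

private theorem pow_mem_of_le (h : IsTR p A B ev) (J J' : {J : Ideal A // Finite (A ⧸ J)})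
    (hle : J'.1 ≤ J.1) {a : A} {b : B} (hab : ev J' b = Ideal.Quotient.mk _ a) :
    a ∈ J.1 ↔ b ∈ RingHom.ker (ev J) := by
  rw [RingHom.mem_ker, ← h.compat J' J hle b, hab, Ideal.Quotient.factor_mk,
    Ideal.Quotient.eq_zero_iff_mem]

end

theorem p_pow : S_pow := by
  intro p _ A B _ _ _ _ ev h
  have hft := h.fg
  have hno : IsNoetherianRing B := Algebra.FiniteType.isNoetherianRing (ZMod p) B
  have hp : p.Prime := Fact.out
  have hfB : ∀ J : {J : Ideal A // Finite (A ⧸ J)}, Finite (B ⧸ RingHom.ker (ev J)) := by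
    intro J
    have := J.2
    exact Finite.of_equiv _ (pow_equiv h J).toEquiv.symm
  have hcong : ∀ J J' : {J : Ideal A // Finite (A ⧸ J)}, J = J' →
      RingHom.ker (ev J) = RingHom.ker (ev J') := by
    rintro J _ rfl
    rfl
  refine ⟨fun J J' => ⟨pow_le_of_ker_le h J J', pow_ker_le h J J'⟩,
    fun J => Nat.card_congr (pow_equiv h J).toEquiv, ?_, ?_, ?_⟩
  · intro J₁ J₂ hF
    have hfin := pow_fin_mul _ _ (hfB J₁) (hfB J₂)
    obtain ⟨J', hJ'⟩ := h.fin _ hfin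
    have hle1 : J'.1 ≤ J₁.1 := pow_le_of_ker_le h _ _ (hJ' ▸ Ideal.mul_le_inf.trans inf_le_left)
    have hle2 : J'.1 ≤ J₂.1 := pow_le_of_ker_le h _ _ (hJ' ▸ Ideal.mul_le_inf.trans inf_le_right)
    have ha : J₁.1 * J₂.1 ≤ J'.1 := by
      rw [Ideal.mul_le]
      intro a₁ ha₁ a₂ ha₂
      obtain ⟨b₁, hb₁⟩ := h.surj J' (Ideal.Quotient.mk _ a₁)
      obtain ⟨b₂, hb₂⟩ := h.surj J' (Ideal.Quotient.mk _ a₂)
      have h1 := (pow_mem_of_le h J₁ J' hle1 hb₁).1 ha₁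
      have h2 := (pow_mem_of_le h J₂ J' hle2 hb₂).1 ha₂
      have h3 : b₁ * b₂ ∈ RingHom.ker (ev J') := by
        rw [← hJ']
        exact Ideal.mul_mem_mul h1 h2
      rw [RingHom.mem_ker, map_mul, hb₁, hb₂, ← map_mul, Ideal.Quotient.eq_zero_iff_mem] at h3
      exact h3
    have hb : J'.1 ≤ J₁.1 * J₂.1 := by
      refine pow_le_of_ker_le h J' ⟨J₁.1 * J₂.1, hF⟩ ?_
      rw [← hJ', Ideal.mul_le]
      intro b₁ hb₁ b₂ hb₂
      obtain ⟨a₁, ha₁⟩ := Ideal.Quotient.mk_surjective (ev ⟨J₁.1 * J₂.1, hF⟩ b₁)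
      obtain ⟨a₂, ha₂⟩ := Ideal.Quotient.mk_surjective (ev ⟨J₁.1 * J₂.1, hF⟩ b₂)
      have h1 := (pow_mem_of_le h J₁ ⟨J₁.1 * J₂.1, hF⟩ (Ideal.mul_le_inf.trans inf_le_left) ha₁.symm).2 hb₁
      have h2 := (pow_mem_of_le h J₂ ⟨J₁.1 * J₂.1, hF⟩ (Ideal.mul_le_inf.trans inf_le_right) ha₂.symm).2 hb₂
      rw [RingHom.mem_ker, map_mul, ← ha₁, ← ha₂, ← map_mul, Ideal.Quotient.eq_zero_iff_mem]
      exact Ideal.mul_mem_mul h1 h2
    have heq : (⟨J₁.1 * J₂.1, hF⟩ : {J : Ideal A // Finite (A ⧸ J)}) = J' :=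
      Subtype.ext (le_antisymm ha hb)
    exact (hcong _ _ heq).trans hJ'.symm
  · intro J hF
    have hfin := pow_fin_fpow (p := p) _ (hfB J)
    obtain ⟨J', hJ'⟩ := h.fin _ hfin
    have hle : J'.1 ≤ J.1 := by
      apply pow_le_of_ker_le h
      rw [← hJ']
      exact pow_fpow_le fun a ha => Ideal.pow_mem_of_mem _ ha _ hp.pos
    have hle'' : fpow p J.1 ≤ J.1 := pow_fpow_le fun a ha => Ideal.pow_mem_of_mem _ ha _ hp.pos
    have ha : fpow p J.1 ≤ J'.1 := by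
      apply pow_fpow_le
      intro a ha
      obtain ⟨b, hb⟩ := h.surj J' (Ideal.Quotient.mk _ a)
      have h1 := (pow_mem_of_le h J J' hle hb).1 ha
      have h2 : b ^ p ∈ RingHom.ker (ev J') := by
        rw [← hJ']
        exact pow_fpow_mem h1
      rw [RingHom.mem_ker, map_pow, hb, ← map_pow, Ideal.Quotient.eq_zero_iff_mem] at h2
      exact h2
    have hb : J'.1 ≤ fpow p J.1 := by
      refine pow_le_of_ker_le h J' ⟨fpow p J.1, hF⟩ ?_
      rw [← hJ']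
      apply pow_fpow_le
      intro b hb
      obtain ⟨a, ha⟩ := Ideal.Quotient.mk_surjective (ev ⟨fpow p J.1, hF⟩ b)
      have h1 := (pow_mem_of_le h J ⟨fpow p J.1, hF⟩ hle'' ha.symm).2 hb
      rw [RingHom.mem_ker, map_pow, ← ha, ← map_pow, Ideal.Quotient.eq_zero_iff_mem]
      exact pow_fpow_mem h1
    have heq : (⟨fpow p J.1, hF⟩ : {J : Ideal A // Finite (A ⧸ J)}) = J' :=
      Subtype.ext (le_antisymm ha hb)
    exact (hcong _ _ heq).trans hJ'.symm
  · intro J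
    rw [Ideal.Quotient.maximal_ideal_iff_isField_quotient,
      Ideal.Quotient.maximal_ideal_iff_isField_quotient]
    exact ⟨fun hf => (pow_equiv h J).toMulEquiv.isField hf,
      fun hf => (pow_equiv h J).symm.toMulEquiv.isField hf⟩

end Pool.Agent.CZA
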