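import Pool.Agent.Lib.MP_305fdd_al.CZ.A.Stm
import Pool.Agent.Lib.MP_305fdd_al.F2.Setup

/-!
# MP_305fdd_al (`C_m * Z`), part A: the point `s = 1` of the reducible locus
-/

set_option autoImplicit false

namespace Pool.Agent.CZA

open MvPolynomial Pool.Agent.Lib.MP_305fdd_al Pool.Agent.MP_305fdd_al Pool.Agent.CZ
open Pool.Agent.F2 (PC Corr Fr gx gy)
open Pool.Agent.F2TF (Pol fpow)
open Pool.Agent.CC (IsTR)

/-! ### The pseudo-character `x (ev g)` -/

private noncomputable def pt_X {p : ℕ} (y : ZMod p) (i : ℤ) : ZMod p :=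
  (Polynomial.Chebyshev.C (ZMod p) i).eval y

private theorem pt_X_mul {p : ℕ} (y : ZMod p) (i j : ℤ) :
    pt_X y i * pt_X y j = pt_X y (i + j) + pt_X y (i - j) := by
  unfold pt_X
  rw [← Polynomial.eval_mul, Polynomial.Chebyshev.C_mul_C, Polynomial.eval_add]

private theorem pt_X_neg {p : ℕ} (y : ZMod p) (i : ℤ) : pt_X y (-i) = pt_X y i := by
  unfold pt_X
  rw [Polynomial.Chebyshev.C_neg]

section
variable {p m : ℕ} {x : ℕ → ZMod p} (w : WJ p m x)
include w

private theorem pt_nat (j : ℕ) : pt_X (x 1) (j : ℤ) = x j := (w.cheb j).symm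

private theorem pt_per0 (i : ℤ) : pt_X (x 1) (i + 2 * m) = pt_X (x 1) i := by
  have h2 : pt_X (x 1) (2 * m : ℤ) = 2 := by
    have := pt_nat w (2 * m)
    push_cast at this
    rw [this]
    have h := w.per 0
    rw [zero_add] at h
    rw [h, w.zero]
  have hn : ∀ j : ℕ, pt_X (x 1) ((j : ℤ) + 2 * m) = pt_X (x 1) j := by
    intro j
    rw [pt_nat w j, ← w.per j, ← pt_nat w (j + 2 * m)]
    push_cast; rfl
  obtain ⟨j, rfl | rfl⟩ := i.eq_nat_or_neg
  · exact hn j
  · rw [pt_X_neg]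
    have h3 := pt_X_mul (x 1) (2 * m : ℤ) j
    rw [h2] at h3
    have h4 : (2 * m : ℤ) + j = j + 2 * m := by ring
    have h5 : (2 * m : ℤ) - j = -(j : ℤ) + 2 * m := by ring
    rw [h4, h5, hn] at h3
    linear_combination -h3

private theorem pt_per (i k : ℤ) : pt_X (x 1) (i + (2 * m) * k) = pt_X (x 1) i := by
  induction k using Int.induction_on with
  | zero => rw [mul_zero, add_zero]
  | succ k ih =>
    rw [show i + (2 * m : ℤ) * (k + 1) = (i + (2 * m) * k) + 2 * m by ring, pt_per0 w, ih]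
  | pred k ih =>
    have := pt_per0 w (i + (2 * m : ℤ) * (-k - 1))
    rw [← this, show i + (2 * m : ℤ) * (-k - 1) + 2 * m = i + (2 * m) * (-k) by ring, ih]

private theorem pt_val [NeZero m] (i : ℤ) : x ((i : ZMod (2 * m)).val) = pt_X (x 1) i := by
  have : NeZero (2 * m) := ⟨by have := NeZero.ne m; omega⟩
  rw [← pt_nat w, ZMod.val_intCast]
  have h := Int.emod_add_mul_ediv i ((2 * m : ℕ) : ℤ)
  conv_rhs => rw [← h]
  rw [show (((2 * m : ℕ) : ℤ)) = 2 * (m : ℤ) by push_cast; ring]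
  rw [pt_per w]

private theorem pt_add [NeZero m] (s t : ZMod (2 * m)) :
    x (s + t).val + x (s - t).val = x s.val * x t.val := by
  obtain ⟨a, rfl⟩ := ZMod.intCast_surjective s
  obtain ⟨b, rfl⟩ := ZMod.intCast_surjective t
  rw [← Int.cast_add, ← Int.cast_sub, pt_val w, pt_val w, pt_val w, pt_val w, pt_X_mul]

end

private theorem pt_pc {p m : ℕ} [NeZero m] {x : ℕ → ZMod p} (w : WJ p m x) {Λ : Type} [Group Λ]
    (δ : Λ →* Multiplicative (ZMod m)) : PC (fun g : Ext m δ => x (ev m δ g)) where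
  one := by
    show x (Multiplicative.toAdd (e2 m δ 1)).val = 2
    rw [map_one, toAdd_one, ZMod.val_zero, w.zero]
  comm g h := by
    show x (Multiplicative.toAdd (e2 m δ (g * h))).val =
      x (Multiplicative.toAdd (e2 m δ (h * g))).val
    rw [map_mul (e2 m δ), map_mul (e2 m δ), mul_comm (e2 m δ g)]
  rel g h := by
    show x (Multiplicative.toAdd (e2 m δ (g * h))).val +
      x (Multiplicative.toAdd (e2 m δ (g * h⁻¹))).val = x (Multiplicative.toAdd (e2 m δ g)).val *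
        x (Multiplicative.toAdd (e2 m δ h)).val
    rw [map_mul (e2 m δ), map_mul (e2 m δ), map_inv (e2 m δ), toAdd_mul, toAdd_mul, toAdd_inv,
      ← sub_eq_add_neg]
    exact pt_add w _ _

private theorem pt_ev_cc {m : ℕ} [NeZero m] {Λ : Type} [Group Λ]
    (δ : Λ →* Multiplicative (ZMod m)) : ev m δ (cc m δ) = m := by
  show ((m : ZMod (2 * m))).val = m
  apply ZMod.val_natCast_of_lt
  have := NeZero.pos m
  omega

private theorem pt_ev_ug {m : ℕ} (hm : 2 ≤ m) : ev m (dG m) (ug m) = 1 := by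
  show (((1 : ℕ) : ZMod (2 * m))).val = 1
  apply ZMod.val_natCast_of_lt
  omega

private theorem pt_ev_tg (m : ℕ) : ev m (dG m) (tg m) = 0 := by
  show ((0 : ZMod (2 * m))).val = 0
  exact ZMod.val_zero

private theorem pt_ev_ut {m : ℕ} (hm : 2 ≤ m) : ev m (dG m) (ug m * tg m) = 1 := by
  unfold ev
  rw [map_mul (e2 m (dG m))]
  show ((((1 : ℕ) : ZMod (2 * m))) + 0).val = 1
  rw [add_zero]
  exact pt_ev_ug hm

/-! ### The homomorphism `AG p m → ZMod p` -/

/-- the index `1` -/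
private def pt_j {m : ℕ} (hm : 2 ≤ m) : JJ m := ⟨⟨1, hm⟩, rfl⟩

/-- the point -/
private noncomputable def pt_N {p m : ℕ} (hm : 2 ≤ m) (x : ℕ → ZMod p) : A2 p m →+* ZMod p :=
  (MvPolynomial.eval ![2, x 1]).comp (Pi.evalRingHom (fun _ : JJ m => Pol p 2) (pt_j hm))

private theorem pt_N_apply {p m : ℕ} (hm : 2 ≤ m) (x : ℕ → ZMod p) (f : A2 p m) :
    pt_N hm x f = MvPolynomial.eval ![2, x 1] (f (pt_j hm)) := rfl

private theorem pt_claim {p m : ℕ} [Fact p.Prime] [NeZero m] {x : ℕ → ZMod p} (hm : 2 ≤ m)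
    (w : WJ p m x) (TA : Ext m (dG m) → AG p m) (val : ValG p m x TA)
    (up : UP (ZMod p) (Ext m (dG m)) (cc m (dG m)) (AG p m) TA) (g : Ext m (dG m)) :
    pt_N hm x (TA g).1 = x (ev m (dG m) g) := by
  obtain ⟨φ, hφ⟩ := up.univ (ZMod p) (fun g => x (ev m (dG m) g)) (pt_pc w (dG m)) (by
    show x (ev m (dG m) (cc m (dG m))) = -2
    rw [pt_ev_cc, w.top])
  rw [← hφ g]
  -- the idempotent
  obtain ⟨E, hE⟩ : ∃ E : AG p m, E = (Pi.single (pt_j hm) 1, 0) := ⟨_, rfl⟩
  obtain ⟨u, hu⟩ : ∃ u : AG p m, u = TA (ug m) - algebraMap (ZMod p) (AG p m) (x 1) := ⟨_, rfl⟩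
  obtain ⟨v, hv⟩ : ∃ v : AG p m, v = (fun j => MvPolynomial.C ((x j.1 - x 1)⁻¹),
    fun _ => Polynomial.C ((x m - x 1)⁻¹)) := ⟨_, rfl⟩
  have hug : φ (TA (ug m)) = x 1 := by
    rw [hφ]
    show x (ev m (dG m) (ug m)) = x 1
    rw [pt_ev_ug hm]
  have hφu : φ u = 0 := by
    rw [hu, map_sub, hug, AlgHom.commutes]
    exact sub_self _
  have hxm : x m - x 1 ≠ 0 := by
    intro h
    have := w.ne m 1 le_rfl (by omega) (sub_eq_zero.1 h)
    omega
  have huv : u * v = 1 - E := by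
    apply Prod.ext
    · funext j
      show u.1 j * v.1 j = 1 - E.1 j
      rw [hu, hv, hE]
      show ((TA (ug m)).1 j - MvPolynomial.C (x 1)) * MvPolynomial.C ((x j.1 - x 1)⁻¹) =
        1 - (Pi.single (pt_j hm) (1 : Pol p 2) : JJ m → Pol p 2) j
      rw [val.u j, ← MvPolynomial.C_sub, ← MvPolynomial.C_mul]
      by_cases h : j = pt_j hm
      · rw [h, Pi.single_eq_same]
        show MvPolynomial.C ((x 1 - x 1) * (x 1 - x 1)⁻¹) = (1 : Pol p 2) - 1
        rw [sub_self, sub_self, zero_mul, MvPolynomial.C_0]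
      · rw [Pi.single_eq_of_ne h, sub_zero, mul_inv_cancel₀, MvPolynomial.C_1]
        intro h0
        have h1 := w.ne j.1 1 (le_of_lt j.1.2) (by omega) (sub_eq_zero.1 h0)
        exact h (Subtype.ext (Fin.ext h1))
    · funext s
      show u.2 s * v.2 s = 1 - E.2 s
      rw [hu, hv, hE]
      show ((TA (ug m)).2 s - Polynomial.C (x 1)) * Polynomial.C ((x m - x 1)⁻¹) =
        1 - (0 : Polynomial (ZMod p))
      have h1 : (TA (ug m)).2 s = Polynomial.C (x m) := by
        rw [val.sc, pt_ev_ug hm, w.top]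
        have h2 : nG m (e1 m (dG m) (ug m)) = 1 := by
          show nG m (Monoid.Coprod.inl (Multiplicative.ofAdd 1)) = 1
          rw [nG, Monoid.Coprod.lift_apply_inl, MonoidHom.one_apply]
        rw [h2, toAdd_one, Polynomial.Chebyshev.C_zero, pow_one, neg_one_mul, map_neg]
        rfl
      rw [h1, ← Polynomial.C_sub, ← Polynomial.C_mul, mul_inv_cancel₀ hxm, Polynomial.C_1,
        sub_zero]
  have hφE : φ E = 1 := by
    have h1 : φ (1 - E) = 0 := by rw [← huv, map_mul, hφu, zero_mul]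
    rw [map_sub, map_one, sub_eq_zero] at h1
    exact h1.symm
  -- the coordinate
  obtain ⟨f, hf⟩ : ∃ f : Pol p 2, f = (TA g).1 (pt_j hm) := ⟨_, rfl⟩
  obtain ⟨q, hq⟩ : ∃ q : AG p m, q = MvPolynomial.aeval ![TA (tg m), TA (ug m * tg m)] f :=
    ⟨_, rfl⟩
  have hq1 : q.1 (pt_j hm) = f := by
    have e1 : ((Pi.evalRingHom (fun _ : JJ m => Pol p 2) (pt_j hm)).comp
        (RingHom.fst (A2 p m) (A1 p m))).comp (MvPolynomial.aeval
          ![TA (tg m), TA (ug m * tg m)] : Pol p 2 →ₐ[ZMod p] AG p m).toRingHom =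
        RingHom.id (Pol p 2) := by
      apply MvPolynomial.ringHom_ext
      · intro r
        show ((MvPolynomial.aeval ![TA (tg m), TA (ug m * tg m)] (MvPolynomial.C r) :
          AG p m)).1 (pt_j hm) = MvPolynomial.C r
        rw [MvPolynomial.aeval_C]
        rfl
      · intro i
        show ((MvPolynomial.aeval ![TA (tg m), TA (ug m * tg m)] (MvPolynomial.X i) :
          AG p m)).1 (pt_j hm) = MvPolynomial.X i
        rw [MvPolynomial.aeval_X]
        fin_cases i
        · exact val.t (pt_j hm)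
        · exact val.ut (pt_j hm)
    rw [hq]
    exact DFunLike.congr_fun e1 f
  have hEq : E * TA g = E * q := by
    apply Prod.ext
    · funext j
      show E.1 j * (TA g).1 j = E.1 j * q.1 j
      rw [hE]
      by_cases h : j = pt_j hm
      · rw [h, hq1, hf]
      · show (Pi.single (pt_j hm) (1 : Pol p 2) : JJ m → Pol p 2) j * _ =
          (Pi.single (pt_j hm) (1 : Pol p 2) : JJ m → Pol p 2) j * _
        rw [Pi.single_eq_of_ne h, zero_mul, zero_mul]
    · show E.2 * (TA g).2 = E.2 * q.2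
      rw [hE]
      show (0 : A1 p m) * _ = 0 * _
      rw [zero_mul, zero_mul]
  have h1 : φ (TA g) = φ q := by
    have := congrArg φ hEq
    rwa [map_mul, map_mul, hφE, one_mul, one_mul] at this
  rw [h1, pt_N_apply, ← hf, hq]
  have e2 : (φ.toRingHom).comp (MvPolynomial.aeval
      ![TA (tg m), TA (ug m * tg m)] : Pol p 2 →ₐ[ZMod p] AG p m).toRingHom =
      MvPolynomial.eval ![2, x 1] := by
    apply MvPolynomial.ringHom_ext
    · intro r
      show φ (MvPolynomial.aeval ![TA (tg m), TA (ug m * tg m)] (MvPolynomial.C r)) =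
        MvPolynomial.eval ![2, x 1] (MvPolynomial.C r)
      rw [MvPolynomial.aeval_C, AlgHom.commutes, MvPolynomial.eval_C]
      rfl
    · intro i
      show φ (MvPolynomial.aeval ![TA (tg m), TA (ug m * tg m)] (MvPolynomial.X i)) =
        MvPolynomial.eval ![2, x 1] (MvPolynomial.X i)
      rw [MvPolynomial.aeval_X, MvPolynomial.eval_X]
      fin_cases i
      · show φ (TA (tg m)) = 2
        rw [hφ]
        show x (ev m (dG m) (tg m)) = 2
        rw [pt_ev_tg, w.zero]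
      · show φ (TA (ug m * tg m)) = x 1
        rw [hφ]
        show x (ev m (dG m) (ug m * tg m)) = x 1
        rw [pt_ev_ut hm]
  exact (DFunLike.congr_fun e2 f).symm

/-! ### The square of the ideal of the point -/

/-- the ring `ZMod p [ε₁, ε₂]` -/
private abbrev pt_R (p : ℕ) : Type := TrivSqZeroExt (ZMod p) (ZMod p × ZMod p)

/-- the first order expansion -/
private noncomputable def pt_D0 (p : ℕ) (a b : ZMod p) : Pol p 2 →+* pt_R p :=
  (MvPolynomial.aeval ![TrivSqZeroExt.inl a + TrivSqZeroExt.inr (1, 0),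
    TrivSqZeroExt.inl b + TrivSqZeroExt.inr (0, 1)] : Pol p 2 →ₐ[ZMod p] pt_R p).toRingHom

private theorem pt_D0_C (p : ℕ) (a b r : ZMod p) :
    pt_D0 p a b (MvPolynomial.C r) = TrivSqZeroExt.inl r := by
  show MvPolynomial.aeval _ (MvPolynomial.C r) = _
  rw [MvPolynomial.aeval_C]; rfl

private theorem pt_D0_X0 (p : ℕ) (a b : ZMod p) :
    pt_D0 p a b (MvPolynomial.X 0) = TrivSqZeroExt.inl a + TrivSqZeroExt.inr (1, 0) := by
  show MvPolynomial.aeval _ (MvPolynomial.X 0) = _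
  rw [MvPolynomial.aeval_X]; rfl

private theorem pt_D0_X1 (p : ℕ) (a b : ZMod p) :
    pt_D0 p a b (MvPolynomial.X 1) = TrivSqZeroExt.inl b + TrivSqZeroExt.inr (0, 1) := by
  show MvPolynomial.aeval _ (MvPolynomial.X 1) = _
  rw [MvPolynomial.aeval_X]; rfl

private theorem pt_fst (p : ℕ) (a b : ZMod p) (h : Pol p 2) :
    (pt_D0 p a b h).fst = MvPolynomial.eval ![a, b] h := by
  have e : (TrivSqZeroExt.fstHom (ZMod p) (ZMod p) (ZMod p × ZMod p)).toRingHom.comp
      (pt_D0 p a b) = MvPolynomial.eval ![a, b] := by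
    apply MvPolynomial.ringHom_ext
    · intro r
      show (pt_D0 p a b (MvPolynomial.C r)).fst = _
      rw [pt_D0_C, MvPolynomial.eval_C]; rfl
    · intro i
      fin_cases i
      · show (pt_D0 p a b (MvPolynomial.X 0)).fst = MvPolynomial.eval ![a, b] (MvPolynomial.X 0)
        rw [pt_D0_X0, MvPolynomial.eval_X]; simp
      · show (pt_D0 p a b (MvPolynomial.X 1)).fst = MvPolynomial.eval ![a, b] (MvPolynomial.X 1)
        rw [pt_D0_X1, MvPolynomial.eval_X]; simp
  exact DFunLike.congr_fun e h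

/-- Taylor expansion -/
private theorem pt_taylor (p : ℕ) (a b : ZMod p) (K : Ideal (Pol p 2))
    (h00 : (X 0 - C a) * (X 0 - C a) ∈ K) (h01 : (X 0 - C a) * (X 1 - C b) ∈ K)
    (h11 : (X 1 - C b) * (X 1 - C b) ∈ K) (h : Pol p 2) :
    h - (C (pt_D0 p a b h).fst + C (pt_D0 p a b h).snd.1 * (X 0 - C a) +
      C (pt_D0 p a b h).snd.2 * (X 1 - C b)) ∈ K := by
  induction h using MvPolynomial.induction_on with
  | C r =>
    rw [pt_D0_C]
    simp
  | add f g hf hg =>
    rw [map_add]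
    have e : f + g - (C (pt_D0 p a b f + pt_D0 p a b g).fst +
        C (pt_D0 p a b f + pt_D0 p a b g).snd.1 * (X 0 - C a) +
        C (pt_D0 p a b f + pt_D0 p a b g).snd.2 * (X 1 - C b)) =
        (f - (C (pt_D0 p a b f).fst + C (pt_D0 p a b f).snd.1 * (X 0 - C a) +
          C (pt_D0 p a b f).snd.2 * (X 1 - C b))) +
        (g - (C (pt_D0 p a b g).fst + C (pt_D0 p a b g).snd.1 * (X 0 - C a) +
          C (pt_D0 p a b g).snd.2 * (X 1 - C b))) := by
      rw [TrivSqZeroExt.fst_add, TrivSqZeroExt.snd_add, Prod.fst_add, Prod.snd_add, C_add, C_add,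
        C_add]
      ring
    rw [e]
    exact K.add_mem hf hg
  | mul_X f i hf =>
    rw [map_mul]
    obtain ⟨d, hd⟩ : ∃ d, d = pt_D0 p a b f := ⟨_, rfl⟩
    rw [← hd] at hf ⊢
    have hi : i = 0 ∨ i = 1 := by
      fin_cases i
      · left; rfl
      · right; rfl
    rcases hi with rfl | rfl
    · rw [pt_D0_X0]
      have e1 : (d * (TrivSqZeroExt.inl a + TrivSqZeroExt.inr (1, 0)) : pt_R p).fst =
          d.fst * a := by simp
      have e2 : (d * (TrivSqZeroExt.inl a + TrivSqZeroExt.inr (1, 0)) : pt_R p).snd.1 =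
          d.fst + a * d.snd.1 := by simp
      have e3 : (d * (TrivSqZeroExt.inl a + TrivSqZeroExt.inr (1, 0)) : pt_R p).snd.2 =
          a * d.snd.2 := by simp
      rw [e1, e2, e3]
      have e : f * X 0 - (C (d.fst * a) + C (d.fst + a * d.snd.1) * (X 0 - C a) +
          C (a * d.snd.2) * (X 1 - C b)) =
          X 0 * (f - (C d.fst + C d.snd.1 * (X 0 - C a) + C d.snd.2 * (X 1 - C b))) +
          (C d.snd.1 * ((X 0 - C a) * (X 0 - C a)) +
            C d.snd.2 * ((X 0 - C a) * (X 1 - C b))) := by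
        rw [C_mul, C_add, C_mul, C_mul]; ring
      rw [e]
      exact K.add_mem (K.mul_mem_left _ hf)
        (K.add_mem (K.mul_mem_left _ h00) (K.mul_mem_left _ h01))
    · rw [pt_D0_X1]
      have e1 : (d * (TrivSqZeroExt.inl b + TrivSqZeroExt.inr (0, 1)) : pt_R p).fst =
          d.fst * b := by simp
      have e2 : (d * (TrivSqZeroExt.inl b + TrivSqZeroExt.inr (0, 1)) : pt_R p).snd.1 =
          b * d.snd.1 := by simp
      have e3 : (d * (TrivSqZeroExt.inl b + TrivSqZeroExt.inr (0, 1)) : pt_R p).snd.2 =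
          d.fst + b * d.snd.2 := by simp
      rw [e1, e2, e3]
      have e : f * X 1 - (C (d.fst * b) + C (b * d.snd.1) * (X 0 - C a) +
          C (d.fst + b * d.snd.2) * (X 1 - C b)) =
          X 1 * (f - (C d.fst + C d.snd.1 * (X 0 - C a) + C d.snd.2 * (X 1 - C b))) +
          (C d.snd.1 * ((X 0 - C a) * (X 1 - C b)) +
            C d.snd.2 * ((X 1 - C b) * (X 1 - C b))) := by
        rw [C_mul, C_add, C_mul, C_mul]; ring
      rw [e]
      exact K.add_mem (K.mul_mem_left _ hf)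
        (K.add_mem (K.mul_mem_left _ h01) (K.mul_mem_left _ h11))

/-- the kernel of the first order expansion -/
private theorem pt_sq {p m : ℕ} (hm : 2 ≤ m) (x : ℕ → ZMod p) :
    RingHom.ker (pt_N hm x) * RingHom.ker (pt_N hm x) =
      RingHom.ker ((pt_D0 p 2 (x 1)).comp
        (Pi.evalRingHom (fun _ : JJ m => Pol p 2) (pt_j hm))) := by
  apply le_antisymm
  · rw [Ideal.mul_le]
    intro f hf g hg
    rw [RingHom.mem_ker] at hf hg ⊢
    rw [pt_N_apply] at hf hg
    rw [map_mul]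
    show pt_D0 p 2 (x 1) (f (pt_j hm)) * pt_D0 p 2 (x 1) (g (pt_j hm)) = 0
    have h1 := pt_fst p 2 (x 1) (f (pt_j hm))
    have h2 := pt_fst p 2 (x 1) (g (pt_j hm))
    rw [hf] at h1
    rw [hg] at h2
    apply TrivSqZeroExt.ext
    · rw [TrivSqZeroExt.fst_mul, h1, zero_mul]; rfl
    · rw [TrivSqZeroExt.snd_mul, h1, h2]; simp
  · intro f hf
    rw [RingHom.mem_ker] at hf
    have hf' : pt_D0 p 2 (x 1) (f (pt_j hm)) = 0 := hf
    -- constant functions
    obtain ⟨K, hK⟩ : ∃ K : Ideal (Pol p 2), K = Ideal.comap (Pi.constRingHom (JJ m) (Pol p 2))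
      (RingHom.ker (pt_N hm x) * RingHom.ker (pt_N hm x)) := ⟨_, rfl⟩
    have hc : ∀ u v : Pol p 2, eval ![2, x 1] u = 0 → eval ![2, x 1] v = 0 → u * v ∈ K := by
      intro u v hu hv
      rw [hK, Ideal.mem_comap, map_mul]
      exact Ideal.mul_mem_mul hu hv
    have h0 : eval ![2, x 1] (X 0 - C 2 : Pol p 2) = 0 := by simp
    have h1 : eval ![2, x 1] (X 1 - C (x 1) : Pol p 2) = 0 := by simp
    have ht := pt_taylor p 2 (x 1) K (hc _ _ h0 h0) (hc _ _ h0 h1) (hc _ _ h1 h1) (f (pt_j hm))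
    rw [hf'] at ht
    have ht' : f (pt_j hm) ∈ K := by simpa using ht
    rw [hK, Ideal.mem_comap] at ht'
    obtain ⟨E, hE⟩ : ∃ E : A2 p m, E = Pi.single (pt_j hm) 1 := ⟨_, rfl⟩
    have hEE : (1 - E) * (1 - E) = 1 - E := by
      have : E * E = E := by rw [hE, ← Pi.single_mul, one_mul]
      linear_combination this
    have hEN : (1 - E) ∈ RingHom.ker (pt_N hm x) := by
      rw [RingHom.mem_ker, pt_N_apply]
      show eval ![2, x 1] (1 - E (pt_j hm)) = 0
      rw [hE, Pi.single_eq_same, sub_self, map_zero]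
    have e : f = E * Pi.constRingHom (JJ m) (Pol p 2) (f (pt_j hm)) +
        (1 - E) * (1 - E) * f := by
      rw [hEE]
      funext j
      show f j = E j * f (pt_j hm) + (1 - E j) * f j
      rw [hE]
      by_cases h : j = pt_j hm
      · rw [h, Pi.single_eq_same]; ring
      · rw [Pi.single_eq_of_ne h]; ring
    rw [e]
    exact Ideal.add_mem _ (Ideal.mul_mem_left _ _ ht')
      (Ideal.mul_mem_right _ _ (Ideal.mul_mem_mul hEN hEN))

private theorem pt_card {p m : ℕ} [Fact p.Prime] (hm : 2 ≤ m) (x : ℕ → ZMod p) :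
    Finite (A2 p m ⧸ RingHom.ker (pt_N hm x) * RingHom.ker (pt_N hm x)) ∧
    Nat.card (A2 p m ⧸ RingHom.ker (pt_N hm x) * RingHom.ker (pt_N hm x)) = p ^ 3 := by
  rw [pt_sq]
  have hs : Function.Surjective ((pt_D0 p 2 (x 1)).comp
      (Pi.evalRingHom (fun _ : JJ m => Pol p 2) (pt_j hm))) := by
    intro d
    refine ⟨Pi.constRingHom (JJ m) (Pol p 2) (C d.fst + C d.snd.1 * (X 0 - C 2) +
      C d.snd.2 * (X 1 - C (x 1))), ?_⟩
    show pt_D0 p 2 (x 1) (C d.fst + C d.snd.1 * (X 0 - C 2) + C d.snd.2 * (X 1 - C (x 1))) = d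
    rw [map_add, map_add, map_mul, map_mul, map_sub, map_sub, pt_D0_C, pt_D0_C, pt_D0_C, pt_D0_C,
      pt_D0_C, pt_D0_X0, pt_D0_X1]
    apply TrivSqZeroExt.ext
    · simp
    · apply Prod.ext <;> simp
  have e := RingHom.quotientKerEquivOfSurjective hs
  have hfin : Finite (pt_R p) := inferInstanceAs (Finite (ZMod p × (ZMod p × ZMod p)))
  refine ⟨Finite.of_equiv _ e.symm.toEquiv, ?_⟩
  rw [Nat.card_congr e.toEquiv]
  show Nat.card (ZMod p × (ZMod p × ZMod p)) = p ^ 3
  rw [Nat.card_prod, Nat.card_prod, Nat.card_zmod]; ring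

theorem p_pt (hpow : S_pow) : S_pt := by
  intro p m _ _ x Λ _ δ n B _ _ TB TA evv Φ Ψ cx e ev2 tr2 h2
  have hm := cx.hm
  have : NeZero (2 * m) := ⟨by omega⟩
  obtain ⟨hN2f, hN2⟩ := pt_card hm x
  have hNf : Finite (A2 p m ⧸ RingHom.ker (pt_N hm x)) :=
    Finite.of_injective _ (RingHom.kerLift_injective (pt_N hm x))
  obtain ⟨φA, hφA⟩ : ∃ φA : AG p m →+* ZMod p,
    φA = (pt_N hm x).comp (RingHom.fst (A2 p m) (A1 p m)) := ⟨_, rfl⟩
  have hJf : Finite (AG p m ⧸ RingHom.ker φA) :=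
    Finite.of_injective _ (RingHom.kerLift_injective φA)
  have hJ' : RingHom.ker φA = (RingHom.ker (pt_N hm x)).comap (RingHom.fst (A2 p m) (A1 p m)) := by
    rw [hφA]; rfl
  -- the values of `evv`
  have hval : ∀ l : Ext m δ, evv ⟨RingHom.ker φA, hJf⟩ (TB l) =
      Ideal.Quotient.mk (RingHom.ker φA) (algebraMap (ZMod p) (AG p m) (x (ev m δ l))) := by
    have hc := cx.corr ⟨RingHom.ker φA, hJf⟩
    have hc2 : Corr Ψ (fun g => Ideal.Quotient.mk (RingHom.ker φA)
        (algebraMap (ZMod p) (AG p m) (x (ev m (dG m) g))))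
        (fun l => Ideal.Quotient.mk (RingHom.ker φA)
        (algebraMap (ZMod p) (AG p m) (x (ev m δ l)))) := by
      refine ⟨Multiplicative (ZMod (2 * m)), inferInstance, inferInstance, e2 m (dG m),
        fun s => Ideal.Quotient.mk (RingHom.ker φA)
          (algebraMap (ZMod p) (AG p m) (x (Multiplicative.toAdd s).val)), fun g => rfl,
        fun l => ?_⟩
      rw [cx.p2]; rfl
    have h1 := (((Pool.Agent.F2.t_corr _ _ Ψ _).1 _ _ _ _ hc hc2).2.2).1 (by
      funext g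
      apply Ideal.Quotient.eq.2
      rw [RingHom.mem_ker, map_sub, hφA]
      show pt_N hm x (TA g).1 - pt_N hm x (algebraMap (ZMod p) (AG p m) (x (ev m (dG m) g))).1 = 0
      rw [pt_claim hm cx.wj TA cx.val cx.upA]
      show x (ev m (dG m) g) - eval ![2, x 1] (C (x (ev m (dG m) g)) : Pol p 2) = 0
      rw [eval_C, sub_self])
    intro l
    exact congrFun h1 l
  -- the homomorphism
  refine ⟨(RingHom.kerLift (pt_N hm x)).comp (ev2 ⟨RingHom.ker (pt_N hm x), hNf⟩).toRingHom,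
    ?_, ?_⟩
  · intro g
    show RingHom.kerLift (pt_N hm x) (ev2 ⟨RingHom.ker (pt_N hm x), hNf⟩
      (Ideal.Quotient.mk (Ideal.span {e}) (TB g))) = x (ev m δ g)
    rw [h2 ⟨RingHom.ker (pt_N hm x), hNf⟩ ⟨RingHom.ker φA, hJf⟩ hJ' (TB g) _ (hval g)]
    show pt_N hm x (algebraMap (ZMod p) (AG p m) (x (ev m δ g))).1 = x (ev m δ g)
    show eval ![2, x 1] (C (x (ev m δ g)) : Pol p 2) = x (ev m δ g)
    rw [eval_C]
  · have hk : RingHom.ker ((RingHom.kerLift (pt_N hm x)).comp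
        (ev2 ⟨RingHom.ker (pt_N hm x), hNf⟩).toRingHom) =
        RingHom.ker (ev2 ⟨RingHom.ker (pt_N hm x), hNf⟩) := by
      ext b
      rw [RingHom.mem_ker, RingHom.mem_ker]
      show RingHom.kerLift (pt_N hm x) (ev2 ⟨RingHom.ker (pt_N hm x), hNf⟩ b) = 0 ↔ _
      constructor
      · intro h
        apply RingHom.kerLift_injective (pt_N hm x)
        rw [h, map_zero]
      · intro h
        rw [h, map_zero]
    obtain ⟨_, q2, q3, _, _⟩ := hpow p (A2 p m) (B ⧸ Ideal.span {e}) ev2 tr2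
    rw [hk, pow_two, ← q3 ⟨RingHom.ker (pt_N hm x), hNf⟩ ⟨RingHom.ker (pt_N hm x), hNf⟩ hN2f, q2]
    exact hN2

end Pool.Agent.CZA
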