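import Pool.Agent.Lib.MP_305fdd_al.CZ.A.Stm

/-!
# MP_305fdd_al (`C_m * Z`), part A, piece [CA ptsg]: points correspond
-/

set_option autoImplicit false

namespace Pool.Agent.CZA

open MvPolynomial
open Pool.Agent.CC (IsTR)
open Pool.Agent.F2TF (fset mem_fset)

private theorem ptsg_finite {p n : ℕ} [Fact p.Prime] (hn : n ≠ 0) {R K : Type} [CommRing R]
    [Field K] (x : R →+* K) (hx : ∀ b, x b ^ (p ^ n) = x b) : Finite (R ⧸ RingHom.ker x) := by
  refine Finite.of_injective (fun y : R ⧸ RingHom.ker x =>
    (⟨RingHom.kerLift x y, ?_⟩ : {z : K // z ∈ fset p n K})) ?_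
  · rw [mem_fset hn]
    obtain ⟨b, rfl⟩ := Ideal.Quotient.mk_surjective y
    exact hx b
  · intro y y' h
    exact RingHom.kerLift_injective x (congrArg Subtype.val h)

theorem p_ptsg : S_ptsg := by
  intro p _ A B _ _ _ _ ev h K _ _ n hn
  -- the ideal of `A` belonging to a point
  let J : {x : A →+* K // ∀ b, x b ^ (p ^ n) = x b} →
      {J : Ideal (A) // Finite (A ⧸ J)} :=
    fun χ => ⟨RingHom.ker χ.1, ptsg_finite hn χ.1 χ.2⟩
  let Φ : {x : A →+* K // ∀ b, x b ^ (p ^ n) = x b} →
      {x : B →+* K // ∀ b, x b ^ (p ^ n) = x b} :=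
    fun χ => ⟨(RingHom.kerLift χ.1).comp (ev (J χ)).toRingHom, fun b => by
      obtain ⟨a, ha⟩ := Ideal.Quotient.mk_surjective (ev (J χ) b)
      have : (RingHom.kerLift χ.1).comp (ev (J χ)).toRingHom b = χ.1 a := by
        show RingHom.kerLift χ.1 (ev (J χ) b) = χ.1 a
        rw [← ha]
        rfl
      rw [this]
      exact χ.2 a⟩
  have hΦ : ∀ χ b a, Ideal.Quotient.mk (J χ).1 a = ev (J χ) b → (Φ χ).1 b = χ.1 a := by
    intro χ b a ha
    show RingHom.kerLift χ.1 (ev (J χ) b) = χ.1 a
    rw [← ha]
    rfl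
  have hker : ∀ χ, RingHom.ker (Φ χ).1 = RingHom.ker (ev (J χ)) := by
    intro χ
    ext b
    rw [RingHom.mem_ker, RingHom.mem_ker]
    constructor
    · intro hb
      have hb' : RingHom.kerLift χ.1 (ev (J χ) b) = 0 := hb
      exact (RingHom.kerLift_injective χ.1) (hb'.trans (map_zero _).symm)
    · intro hb
      show RingHom.kerLift χ.1 (ev (J χ) b) = 0
      rw [hb]
      exact map_zero _
  have hbij : Function.Bijective Φ := by
    constructor
    · intro χ χ' hχ
      have hJ : J χ = J χ' := h.inj _ _ (by rw [← hker, ← hker, hχ])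
      have hJle : (J χ).1 ≤ (J χ').1 := by rw [hJ]
      refine Subtype.ext (RingHom.ext fun a => ?_)
      obtain ⟨b, hb⟩ := h.surj (J χ) (Ideal.Quotient.mk _ a)
      have hb' : Ideal.Quotient.mk (J χ').1 a = ev (J χ') b := by
        rw [← h.compat (J χ) (J χ') hJle b, hb]
        rfl
      rw [← hΦ χ b a hb.symm, ← hΦ χ' b a hb', hχ]
    · rintro ⟨x, hx⟩
      obtain ⟨I, hI⟩ := h.fin (RingHom.ker x) (ptsg_finite hn x hx)
      have hI' : ∀ b b', ev I b = ev I b' → x b = x b' := by
        intro b b' hbb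
        have h1 : b - b' ∈ RingHom.ker (ev I) := by
          rw [RingHom.mem_ker, map_sub, hbb, sub_self]
        rw [← hI, RingHom.mem_ker, map_sub, sub_eq_zero] at h1
        exact h1
      have hIker : ∀ b, x b = 0 → ev I b = 0 := by
        intro b hb
        have h1 : b ∈ RingHom.ker x := hb
        rw [hI] at h1
        exact h1
      let s : A → B := fun a => (h.surj I (Ideal.Quotient.mk _ a)).choose
      have hs : ∀ a, ev I (s a) = Ideal.Quotient.mk _ a := fun a =>
        (h.surj I (Ideal.Quotient.mk _ a)).choose_spec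
      let χ : A →+* K :=
        { toFun := fun a => x (s a)
          map_one' := by
            rw [hI' (s 1) 1 (by rw [hs, map_one, map_one]), map_one]
          map_zero' := by
            rw [hI' (s 0) 0 (by rw [hs, map_zero, map_zero]), map_zero]
          map_add' := fun a a' => by
            rw [hI' (s (a + a')) (s a + s a') (by rw [hs, map_add, map_add, hs, hs]), map_add]
          map_mul' := fun a a' => by
            rw [hI' (s (a * a')) (s a * s a') (by rw [hs, map_mul, map_mul, hs, hs]), map_mul] }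
      let χ' : {x : A →+* K // ∀ b, x b ^ (p ^ n) = x b} := ⟨χ, fun a => hx (s a)⟩
      have hle : I.1 ≤ (J χ').1 := by
        intro a ha
        show x (s a) = 0
        rw [hI' (s a) 0 (by rw [hs, map_zero]; exact Ideal.Quotient.eq_zero_iff_mem.2 ha),
          map_zero]
      refine ⟨χ', Subtype.ext (RingHom.ext fun b => ?_)⟩
      obtain ⟨a, ha⟩ := Ideal.Quotient.mk_surjective (ev I b)
      have h1 : Ideal.Quotient.mk (J χ').1 a = ev (J χ') b := by
        rw [← h.compat I (J χ') hle b, ← ha]
        rfl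
      rw [hΦ χ' b a h1]
      show x (s a) = x b
      exact hI' _ _ (by rw [hs, ha])
  exact (Nat.card_congr (Equiv.ofBijective Φ hbij)).symm

end Pool.Agent.CZA
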