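import Pool.Agent.Lib.MP_305fdd_al.CZ.A.Stm

/-!
# [CA rec] powers in the argument of a pseudo-character
-/

set_option autoImplicit false

namespace Pool.Agent.CZA

open MvPolynomial Pool.Agent.Lib.MP_305fdd_al Pool.Agent.MP_305fdd_al Pool.Agent.CZ
open Pool.Agent.F2 (PC Corr Fr gx gy)
open Pool.Agent.F2TF (Pol fpow)

theorem rec_step {G R : Type} [Group G] [CommRing R] {T : G → R} (hT : PC T) (x h : G) (j : ℕ) :
    T (x ^ (j + 2) * h) = T x * T (x ^ (j + 1) * h) - T (x ^ j * h) := by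
  have h1 := hT.rel (x ^ (j + 1) * h) x
  have h2 : T (x ^ (j + 1) * h * x) = T (x ^ (j + 2) * h) := by
    rw [hT.comm, ← mul_assoc, ← pow_succ']
  have h3 : T (x ^ (j + 1) * h * x⁻¹) = T (x ^ j * h) := by
    rw [hT.comm, ← mul_assoc, pow_succ', ← mul_assoc, inv_mul_cancel, one_mul]
  rw [h2, h3] at h1
  linear_combination h1

theorem rec_one {G R : Type} [Group G] [CommRing R] {T : G → R} (hT : PC T) (x h : G) (j : ℕ) :
    T (x ^ j * h) = (Polynomial.Chebyshev.S R ((j : ℤ) - 1)).eval (T x) * T (x * h) -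
        (Polynomial.Chebyshev.S R ((j : ℤ) - 2)).eval (T x) * T h ∧
    T (x ^ (j + 1) * h) = (Polynomial.Chebyshev.S R (((j + 1 : ℕ) : ℤ) - 1)).eval (T x) * T (x * h) -
        (Polynomial.Chebyshev.S R (((j + 1 : ℕ) : ℤ) - 2)).eval (T x) * T h := by
  induction j with
  | zero =>
    constructor
    · simp
    · simp
  | succ j ih =>
    refine ⟨ih.2, ?_⟩
    rw [rec_step hT, ih.1, ih.2]
    have e1 : (((j + 1 + 1 : ℕ) : ℤ) - 1) = ((j : ℤ) - 1) + 2 := by push_cast; ring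
    have e2 : (((j + 1 + 1 : ℕ) : ℤ) - 2) = ((j : ℤ) - 2) + 2 := by push_cast; ring
    have e3 : (((j + 1 : ℕ) : ℤ) - 1) = ((j : ℤ) - 1) + 1 := by push_cast; ring
    have e4 : (((j + 1 : ℕ) : ℤ) - 2) = ((j : ℤ) - 2) + 1 := by push_cast; ring
    rw [e1, e2, e3, e4, Polynomial.Chebyshev.S_add_two, Polynomial.Chebyshev.S_add_two]
    simp only [Polynomial.eval_sub, Polynomial.eval_mul, Polynomial.eval_X]
    ring

theorem rec_two {G R : Type} [Group G] [CommRing R] {T : G → R} (hT : PC T) (x : G) (j : ℕ) :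
    T (x ^ j) = (Polynomial.Chebyshev.C R (j : ℤ)).eval (T x) ∧
    T (x ^ (j + 1)) = (Polynomial.Chebyshev.C R ((j + 1 : ℕ) : ℤ)).eval (T x) := by
  induction j with
  | zero =>
    constructor
    · simp [hT.one]
    · simp
  | succ j ih =>
    refine ⟨ih.2, ?_⟩
    have h1 := rec_step hT x 1 j
    rw [mul_one, mul_one, mul_one] at h1
    rw [show j + 1 + 1 = j + 2 from rfl, h1, ih.1, ih.2]
    have e1 : ((j + 2 : ℕ) : ℤ) = (j : ℤ) + 2 := by push_cast; ring
    have e2 : ((j + 1 : ℕ) : ℤ) = (j : ℤ) + 1 := by push_cast; ring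
    rw [e1, e2, Polynomial.Chebyshev.C_add_two]
    simp only [Polynomial.eval_sub, Polynomial.eval_mul, Polynomial.eval_X]

theorem p_rec : S_rec := by
  intro G R _ _ T hT x j
  exact ⟨fun h => (rec_one hT x h j).1, (rec_two hT x j).1⟩

end Pool.Agent.CZA
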