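import Pool.Agent.Lib.MP_305fdd_al.CZ.A.Stm
import Pool.Agent.Lib.MP_305fdd_al.F2.Setup

/-!
# MP_305fdd_al (`C_m * Z`), part A: scalar ideals correspond
-/

set_option autoImplicit false

namespace Pool.Agent.CZA

open MvPolynomial Pool.Agent.Lib.MP_305fdd_al Pool.Agent.MP_305fdd_al Pool.Agent.CZ
open Pool.Agent.F2 (PC Corr Fr gx gy)
open Pool.Agent.F2TF (Pol fpow)
open Pool.Agent.CC (IsTR)

/-! ### Chebyshev polynomials -/

private theorem sc_cheb {S : Type} [CommRing S] (u : Sˣ) (i : ℤ) :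
    (Polynomial.Chebyshev.C S i).eval ((u : S) + ((u⁻¹ : Sˣ) : S)) =
      ((u ^ i : Sˣ) : S) + (((u ^ i)⁻¹ : Sˣ) : S) := by
  have hn : ∀ n : ℕ, ((Polynomial.Chebyshev.C S (n : ℤ)).eval ((u : S) + ((u⁻¹ : Sˣ) : S)) =
      ((u ^ n : Sˣ) : S) + (((u ^ n)⁻¹ : Sˣ) : S)) ∧
      ((Polynomial.Chebyshev.C S ((n : ℤ) + 1)).eval ((u : S) + ((u⁻¹ : Sˣ) : S)) =
      ((u ^ (n + 1) : Sˣ) : S) + (((u ^ (n + 1))⁻¹ : Sˣ) : S)) := by
    intro n
    induction n with
    | zero =>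
      refine ⟨?_, ?_⟩
      · rw [Nat.cast_zero, Polynomial.Chebyshev.C_zero, pow_zero, inv_one, Units.val_one]
        simp
        norm_num
      · rw [Nat.cast_zero, zero_add, zero_add, Polynomial.Chebyshev.C_one, Polynomial.eval_X,
          pow_one]
    | succ n ih =>
      refine ⟨?_, ?_⟩
      · have := ih.2
        push_cast
        exact this
      · have e : ((n + 1 : ℕ) : ℤ) + 1 = (n : ℤ) + 2 := by push_cast; ring
        rw [e, Polynomial.Chebyshev.C_add_two, Polynomial.eval_sub, Polynomial.eval_mul,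
          Polynomial.eval_X, ih.1, ih.2]
        have hu : (u : S) * ((u⁻¹ : Sˣ) : S) = 1 := Units.mul_inv u
        simp only [← inv_pow, Units.val_pow_eq_pow_val]
        have e3 : ∀ a b : S, a * b = 1 → (a + b) * (a ^ (n + 1) + b ^ (n + 1)) - (a ^ n + b ^ n) =
            a ^ (n + 1 + 1) + b ^ (n + 1 + 1) := by
          intro a b hab
          linear_combination (a ^ n + b ^ n) * hab
        exact e3 _ _ hu
  obtain ⟨n, rfl | rfl⟩ := i.eq_nat_or_neg
  · rw [zpow_natCast]; exact (hn n).1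
  · rw [Polynomial.Chebyshev.C_neg, zpow_neg, zpow_natCast, inv_inv, (hn n).1, add_comm]

/-- the function `(u, a) ↦ (-1) ^ a (u + u⁻¹)` -/
private noncomputable def sc_F (m : ℕ) {S : Type} [CommRing S]
    (v : Sˣ × Multiplicative (ZMod (2 * m))) : S :=
  (-1) ^ (Multiplicative.toAdd v.2).val * ((v.1 : S) + ((v.1⁻¹ : Sˣ) : S))

private theorem sc_iota {p m : ℕ} {Λ : Type} [Group Λ] (δ : Λ →* Multiplicative (ZMod m))
    (n : Λ →* Multiplicative ℤ) {R S : Type} [CommRing R] [CommRing S] [Algebra (ZMod p) R]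
    (ι : R →+* S) (y : R) (g : Ext m δ) :
    ι (Polynomial.aeval y (Tsc p m δ n g)) = (-1) ^ (ev m δ g) *
      (Polynomial.Chebyshev.C S (Multiplicative.toAdd (n (e1 m δ g)))).eval (ι y) := by
  rw [Polynomial.aeval_def, Polynomial.hom_eval₂, Polynomial.eval₂_eq_eval_map]
  unfold Tsc
  rw [Polynomial.map_mul, Polynomial.map_pow, Polynomial.map_neg, Polynomial.map_one,
    Polynomial.Chebyshev.map_C, Polynomial.eval_mul, Polynomial.eval_pow, Polynomial.eval_neg,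
    Polynomial.eval_one]

/-! ### The quadratic extension -/

private def sc_i {R : Type} [CommRing R] (y : R) : R →+* QuadraticAlgebra R (-1) y where
  toFun a := ⟨a, 0⟩
  map_one' := rfl
  map_zero' := rfl
  map_add' a b := by ext <;> simp
  map_mul' a b := by ext <;> simp

private theorem sc_i_inj {R : Type} [CommRing R] (y : R) : Function.Injective (sc_i y) := by
  intro a b h
  exact congrArg QuadraticAlgebra.re h

private def sc_s {R : Type} [CommRing R] (y : R) : (QuadraticAlgebra R (-1) y)ˣ where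
  val := ⟨0, 1⟩
  inv := ⟨y, -1⟩
  val_inv := by ext <;> simp <;> rfl
  inv_val := by ext <;> simp <;> rfl

private theorem sc_s_add {R : Type} [CommRing R] (y : R) :
    ((sc_s y : (QuadraticAlgebra R (-1) y)ˣ) : QuadraticAlgebra R (-1) y) +
      (((sc_s y)⁻¹ : (QuadraticAlgebra R (-1) y)ˣ) : QuadraticAlgebra R (-1) y) =
      sc_i y y := by
  show (⟨0, 1⟩ : QuadraticAlgebra R (-1) y) + ⟨y, -1⟩ = ⟨y, 0⟩
  ext <;> simp

/-- forward -/
private theorem sc_L1 {p m : ℕ} {Λ : Type} [Group Λ] (δ : Λ →* Multiplicative (ZMod m))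
    (n : Λ →* Multiplicative ℤ) {R : Type} [CommRing R] [Algebra (ZMod p) R] (y : R)
    (g : Ext m δ) : sc_i y (Polynomial.aeval y (Tsc p m δ n g)) =
      sc_F m (zpowersHom _ (sc_s y) (n (e1 m δ g)), e2 m δ g) := by
  rw [sc_iota, ← sc_s_add, sc_cheb]
  rfl

/-- backward -/
private theorem sc_L2 {p m : ℕ} {Λ : Type} [Group Λ] (δ : Λ →* Multiplicative (ZMod m))
    (n : Λ →* Multiplicative ℤ) {R S : Type} [CommRing R] [CommRing S] [Algebra (ZMod p) R]
    (ι : R →+* S) (hι : Function.Injective ι) (q : Multiplicative ℤ →* Sˣ) (T : Ext m δ → R)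
    (g0 : Ext m δ) (h0 : e2 m δ g0 = 1) (h1 : n (e1 m δ g0) = Multiplicative.ofAdd 1)
    (hT : ∀ g, ι (T g) = sc_F m (q (n (e1 m δ g)), e2 m δ g)) :
    ∃ y : R, ∀ g, T g = Polynomial.aeval y (Tsc p m δ n g) := by
  refine ⟨T g0, fun g => hι ?_⟩
  rw [sc_iota, hT g, hT g0, h0, h1]
  have e1 : (sc_F m (q (Multiplicative.ofAdd 1), (1 : Multiplicative (ZMod (2 * m)))) : S) =
      (q (Multiplicative.ofAdd 1) : S) + (((q (Multiplicative.ofAdd 1))⁻¹ : Sˣ) : S) := by
    unfold sc_F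
    show (-1 : S) ^ ((0 : ZMod (2 * m))).val * _ = _
    rw [ZMod.val_zero, pow_zero, one_mul]
  rw [e1, sc_cheb]
  have e2 : ∀ t : Multiplicative ℤ, q t = q (Multiplicative.ofAdd 1) ^ (Multiplicative.toAdd t) := by
    intro t
    rw [← map_zpow]
    congr 1
    rw [← ofAdd_zsmul, smul_eq_mul, mul_one]; rfl
  rw [← e2]
  rfl

theorem p_sc (_hneg : S_neg) (hex : S_ex) : S_sc := by
  intro p m _ _ x Λ _ δ n B _ _ TB TA evv Φ Ψ cx hodd κ hκ
  have hm := cx.hm
  have : NeZero (2 * m) := ⟨by omega⟩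
  -- an element of `Ext m δ` with `e2 = 1`, `n = 1`
  obtain ⟨gΛ, gΛ0, gΛ1⟩ : ∃ g : Ext m δ, e2 m δ g = 1 ∧ n (e1 m δ g) = Multiplicative.ofAdd 1 := by
    obtain ⟨_, _, _, _, _, _, _, _, h⟩ := hex m Λ δ
    obtain ⟨g, h1, h2⟩ := (h n cx.cls).2 0 1
    refine ⟨g, ?_, h2⟩
    rw [h1, Nat.cast_zero]; rfl
  have hb0 : κ (TB gΛ) = Polynomial.X := by
    rw [hκ]
    unfold Tsc
    have : ev m δ gΛ = 0 := by
      unfold ev
      rw [gΛ0]; exact ZMod.val_zero
    rw [this, gΛ1, pow_zero, one_mul]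
    exact Polynomial.Chebyshev.C_one (ZMod p)
  have hκs : ∀ f : Polynomial (ZMod p), κ (Polynomial.aeval (TB gΛ) f) = f := by
    intro f
    rw [← Polynomial.aeval_algHom_apply, hb0, Polynomial.aeval_X_left_apply]
  refine ⟨fun f => ⟨_, hκs f⟩, fun J => ?_⟩
  -- (a)
  have ha : ((1 : A2 p m), (0 : A1 p m)) ∈ J.1 ↔
      ∃ y : AG p m ⧸ J.1, ∀ g, Ideal.Quotient.mk J.1 (TA g) =
        Polynomial.aeval y (Tsc p m (dG m) (nG m) g) := by
    constructor
    · intro h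
      obtain ⟨Z, hZ⟩ : ∃ Z : AG p m, Z = (0, fun _ => Polynomial.X) := ⟨_, rfl⟩
      refine ⟨Ideal.Quotient.mk J.1 Z, fun g => ?_⟩
      have e1 : Polynomial.aeval (Ideal.Quotient.mk J.1 Z) (Tsc p m (dG m) (nG m) g) =
          Ideal.Quotient.mk J.1 (Polynomial.aeval Z (Tsc p m (dG m) (nG m) g)) := by
        rw [show Ideal.Quotient.mk J.1 Z = Ideal.Quotient.mkₐ (ZMod p) J.1 Z from rfl,
          Polynomial.aeval_algHom_apply]
        rfl
      rw [e1]
      apply Ideal.Quotient.eq.2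
      obtain ⟨d, hd⟩ : ∃ d : AG p m, d = TA g - Polynomial.aeval Z (Tsc p m (dG m) (nG m) g) :=
        ⟨_, rfl⟩
      rw [← hd]
      have e2 : d = ((1 : A2 p m), (0 : A1 p m)) * d := by
        apply Prod.ext
        · show d.1 = 1 * d.1
          rw [one_mul]
        · show d.2 = 0 * d.2
          rw [zero_mul, hd]
          funext s
          show (TA g).2 s - (Polynomial.aeval Z (Tsc p m (dG m) (nG m) g)).2 s = 0
          have e3 : (Polynomial.aeval Z (Tsc p m (dG m) (nG m) g)).2 s =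
              Tsc p m (dG m) (nG m) g := by
            have e4 := Polynomial.aeval_algHom_apply ((Pi.evalAlgHom (ZMod p)
              (fun _ : SS m => Polynomial (ZMod p)) s).comp
              (AlgHom.snd (ZMod p) (A2 p m) (A1 p m))) Z (Tsc p m (dG m) (nG m) g)
            have e5 : ((Pi.evalAlgHom (ZMod p)
              (fun _ : SS m => Polynomial (ZMod p)) s).comp
              (AlgHom.snd (ZMod p) (A2 p m) (A1 p m))) Z = Polynomial.X := by rw [hZ]; rfl
            rw [e5, Polynomial.aeval_X_left_apply] at e4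
            exact e4.symm
          rw [e3, cx.val.sc]
          exact sub_self _
      rw [e2]
      exact J.1.mul_mem_right _ h
    · rintro ⟨y, hy⟩
      obtain ⟨G2, hG2⟩ : ∃ G2 : AG p m →ₐ[ZMod p] Polynomial (ZMod p), G2 = (Pi.evalAlgHom (ZMod p)
        (fun _ : SS m => Polynomial (ZMod p)) ⟨(), hodd⟩).comp
        (AlgHom.snd (ZMod p) (A2 p m) (A1 p m)) := ⟨_, rfl⟩
      have e1 : (Ideal.Quotient.mkₐ (ZMod p) J.1 : AG p m →ₐ[ZMod p] AG p m ⧸ J.1) =
          (Polynomial.aeval y).comp G2 := by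
        apply AlgHom.ext_of_adjoin_eq_top cx.upA.adj
        rintro _ ⟨g, rfl⟩
        show Ideal.Quotient.mk J.1 (TA g) = Polynomial.aeval y (G2 (TA g))
        rw [hy, hG2]
        congr 1
        exact (cx.val.sc _ g).symm
      have e2 := DFunLike.congr_fun e1 ((1 : A2 p m), (0 : A1 p m))
      rw [AlgHom.comp_apply, show G2 ((1 : A2 p m), (0 : A1 p m)) = 0 by rw [hG2]; rfl,
        map_zero] at e2
      exact Ideal.Quotient.eq_zero_iff_mem.1 e2
  -- (b)
  have hb : RingHom.ker κ ≤ RingHom.ker (evv J) ↔ ∃ y : AG p m ⧸ J.1, ∀ g, evv J (TB g) =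
      Polynomial.aeval y (Tsc p m δ n g) := by
    constructor
    · intro h
      refine ⟨evv J (TB gΛ), fun g => ?_⟩
      rw [Polynomial.aeval_algHom_apply, ← sub_eq_zero, ← map_sub]
      apply h
      rw [RingHom.mem_ker, map_sub, hκs, hκ, sub_self]
    · rintro ⟨y, hy⟩
      have e1 : evv J = (Polynomial.aeval y).comp κ := by
        apply AlgHom.ext_of_adjoin_eq_top cx.upB.adj
        rintro _ ⟨g, rfl⟩
        show evv J (TB g) = Polynomial.aeval y (κ (TB g))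
        rw [hy, hκ]
      intro b hb
      rw [RingHom.mem_ker] at hb ⊢
      rw [e1, AlgHom.comp_apply, hb, map_zero]
  rw [ha, hb]
  have : Finite (AG p m ⧸ J.1) := J.2
  -- transfer
  have hfinQ : ∀ y : AG p m ⧸ J.1, Finite (QuadraticAlgebra (AG p m ⧸ J.1) (-1) y) := fun y =>
    Finite.of_equiv _ (QuadraticAlgebra.equivProd (-1) y).symm
  have htr : ∀ (S : Type) [CommRing S] [Finite S] (ι : AG p m ⧸ J.1 →+* S)
      (ψ : Gam m →* Sˣ), (∀ g, ι (Ideal.Quotient.mk J.1 (TA g)) =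
        sc_F m (ψ (e1 m (dG m) g), e2 m (dG m) g)) ↔
      ∀ l, ι (evv J (TB l)) = sc_F m (Φ.toFun Sˣ ψ (e1 m δ l), e2 m δ l) := by
    intro S _ _ ι ψ
    have hc := (Pool.Agent.F2.t_corr _ _ Ψ _).2 S ι _ _ (cx.corr J)
    have hc2 : Corr Ψ (fun g => (sc_F m (ψ (e1 m (dG m) g), e2 m (dG m) g) : S))
        (fun l => (sc_F m (Φ.toFun Sˣ ψ (e1 m δ l), e2 m δ l) : S)) := by
      refine ⟨Sˣ × Multiplicative (ZMod (2 * m)), inferInstance, inferInstance,
        (ψ.comp (e1 m (dG m))).prod (e2 m (dG m)), sc_F m, fun g => rfl, fun l => ?_⟩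
      rw [Pool.Agent.PSL2Z.toFun_prod, cx.p1, cx.p2]
      rfl
    have h3 := ((Pool.Agent.F2.t_corr _ _ Ψ _).1 _ _ _ _ hc hc2).2.2
    constructor
    · intro h l
      exact congrFun (h3.1 (funext h)) l
    · intro h g
      exact congrFun (h3.2 (funext h)) g
  constructor
  · rintro ⟨y, hy⟩
    have := hfinQ y
    have h1 := (htr _ (sc_i y) ((zpowersHom _ (sc_s y)).comp (nG m))).1 (fun g => by
      rw [hy, sc_L1]; rfl)
    obtain ⟨q, hq⟩ := (cx.cyc (QuadraticAlgebra (AG p m ⧸ J.1) (-1) y)ˣ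
      ((zpowersHom _ (sc_s y)).comp (nG m))).1 ⟨_, rfl⟩
    refine sc_L2 δ n (sc_i y) (sc_i_inj y) q (fun l => evv J (TB l)) gΛ gΛ0 gΛ1 (fun l => ?_)
    show sc_i y (evv J (TB l)) = _
    rw [h1 l, hq]
    rfl
  · rintro ⟨y, hy⟩
    have := hfinQ y
    obtain ⟨ψ, hψ⟩ : ∃ ψ : Gam m →* (QuadraticAlgebra (AG p m ⧸ J.1) (-1) y)ˣ,
        Φ.toFun _ ψ = (zpowersHom _ (sc_s y)).comp n := ⟨Φ.invFun _ _, Φ.right_inv _ _⟩
    obtain ⟨q, hq⟩ := (cx.cyc (QuadraticAlgebra (AG p m ⧸ J.1) (-1) y)ˣ ψ).2 ⟨_, hψ⟩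
    have h1 := (htr _ (sc_i y) ψ).2 (fun l => by
      rw [hy, sc_L1, hψ]; rfl)
    refine sc_L2 (dG m) (nG m) (sc_i y) (sc_i_inj y) q (fun g => Ideal.Quotient.mk J.1 (TA g))
      (tg m) rfl ?_ (fun g => ?_)
    · show nG m (Monoid.Coprod.inr (Multiplicative.ofAdd 1)) = Multiplicative.ofAdd 1
      rw [nG, Monoid.Coprod.lift_apply_inr]; rfl
    · show sc_i y (Ideal.Quotient.mk J.1 (TA g)) = _
      rw [h1 g, hq]
      rfl

end Pool.Agent.CZA
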