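import Pool.Agent.Lib.MP_305fdd_al.CZ.A.Stm

/-!
# MP_305fdd_al (`C_m * Z`), part A: [CA two2] the non-scalar part
-/

set_option autoImplicit false

namespace Pool.Agent.CZA

open MvPolynomial Pool.Agent.Lib.MP_305fdd_al Pool.Agent.MP_305fdd_al Pool.Agent.CZ
open Pool.Agent.F2 (PC Corr Fr gx gy)
open Pool.Agent.F2TF (Pol fpow)
open Pool.Agent.CC (IsTR)

noncomputable section

section tra

variable {p : ℕ} {A A' B : Type} [CommRing A] [CommRing A'] [CommRing B]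
  [Algebra (ZMod p) A] [Algebra (ZMod p) A'] [Algebra (ZMod p) B]

private theorem two2_map (Θ : A ≃ₐ[ZMod p] A') (J : Ideal A') :
    J = (J.comap (Θ : A →+* A')).map (Θ : A →+* A') :=
  (Ideal.map_comap_of_surjective (Θ : A →+* A') Θ.surjective J).symm

/-- The isomorphism of the quotients. -/
private def two2_E (Θ : A ≃ₐ[ZMod p] A') (J : Ideal A') :
    (A ⧸ J.comap (Θ : A →+* A')) ≃ₐ[ZMod p] A' ⧸ J :=
  Ideal.quotientEquivAlg _ _ Θ (two2_map Θ J)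

private theorem two2_E_mk (Θ : A ≃ₐ[ZMod p] A') (J : Ideal A') (a : A) :
    two2_E Θ J (Ideal.Quotient.mk _ a) = Ideal.Quotient.mk J (Θ a) := rfl

/-- The ideal of `A`. -/
private def two2_I (Θ : A ≃ₐ[ZMod p] A') (J : {J : Ideal A' // Finite (A' ⧸ J)}) :
    {J : Ideal A // Finite (A ⧸ J)} :=
  ⟨J.1.comap (Θ : A →+* A'), by
    have := J.2
    exact Finite.of_equiv _ (two2_E Θ J.1).symm.toEquiv⟩

/-- The transported evaluations. -/
private def two2_ev (Θ : A ≃ₐ[ZMod p] A')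
    (ev : ∀ J : {J : Ideal A // Finite (A ⧸ J)}, B →ₐ[ZMod p] A ⧸ J.1)
    (J : {J : Ideal A' // Finite (A' ⧸ J)}) : B →ₐ[ZMod p] A' ⧸ J.1 :=
  (two2_E Θ J.1 : (A ⧸ J.1.comap (Θ : A →+* A')) →ₐ[ZMod p] A' ⧸ J.1).comp (ev (two2_I Θ J))

private theorem two2_ev_apply (Θ : A ≃ₐ[ZMod p] A')
    (ev : ∀ J : {J : Ideal A // Finite (A ⧸ J)}, B →ₐ[ZMod p] A ⧸ J.1)
    (J : {J : Ideal A' // Finite (A' ⧸ J)}) (b : B) :
    two2_ev Θ ev J b = two2_E Θ J.1 (ev (two2_I Θ J) b) := rfl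

private theorem two2_ker (Θ : A ≃ₐ[ZMod p] A')
    (ev : ∀ J : {J : Ideal A // Finite (A ⧸ J)}, B →ₐ[ZMod p] A ⧸ J.1)
    (J : {J : Ideal A' // Finite (A' ⧸ J)}) :
    RingHom.ker (two2_ev Θ ev J) = RingHom.ker (ev (two2_I Θ J)) := by
  ext b
  rw [RingHom.mem_ker, RingHom.mem_ker, two2_ev_apply]
  exact map_eq_zero_iff (two2_E Θ J.1) (two2_E Θ J.1).injective

/-- The inverse of `two2_I`. -/
private theorem two2_surj (Θ : A ≃ₐ[ZMod p] A') (I : {J : Ideal A // Finite (A ⧸ J)}) :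
    ∃ J : {J : Ideal A' // Finite (A' ⧸ J)}, two2_I Θ J = I := by
  have h : (I.1.comap (Θ.symm : A' →+* A)).comap (Θ : A →+* A') = I.1 := by
    ext a
    rw [Ideal.mem_comap, Ideal.mem_comap]
    show Θ.symm (Θ a) ∈ I.1 ↔ a ∈ I.1
    rw [Θ.symm_apply_apply]
  have hf : Finite (A' ⧸ I.1.comap (Θ.symm : A' →+* A)) := by
    have h1 : Finite (A ⧸ (I.1.comap (Θ.symm : A' →+* A)).comap (Θ : A →+* A')) := by
      rw [h]
      exact I.2
    exact Finite.of_equiv _ (two2_E Θ (I.1.comap (Θ.symm : A' →+* A))).toEquiv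
  exact ⟨⟨_, hf⟩, Subtype.ext h⟩

private theorem two2_tr (Θ : A ≃ₐ[ZMod p] A')
    (ev : ∀ J : {J : Ideal A // Finite (A ⧸ J)}, B →ₐ[ZMod p] A ⧸ J.1) (h : IsTR p A B ev) :
    IsTR p A' B (two2_ev Θ ev) where
  fg := h.fg
  surj J := (two2_E Θ J.1).surjective.comp (h.surj (two2_I Θ J))
  compat J J' hJ b := by
    have hI : (two2_I Θ J).1 ≤ (two2_I Θ J').1 := Ideal.comap_mono hJ
    obtain ⟨a, ha⟩ := Ideal.Quotient.mk_surjective (ev (two2_I Θ J) b)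
    have h1 := h.compat _ _ hI b
    rw [← ha, Ideal.Quotient.factor_mk] at h1
    rw [two2_ev_apply, two2_ev_apply, ← ha, ← h1]
    rfl
  inj J J' hJ := by
    rw [two2_ker, two2_ker] at hJ
    have h1 := congrArg Subtype.val (h.inj _ _ hJ)
    apply Subtype.ext
    rw [two2_map Θ J.1, two2_map Θ J'.1]
    exact congrArg (Ideal.map (Θ : A →+* A')) h1
  fin I hI := by
    obtain ⟨I', hI'⟩ := h.fin I hI
    obtain ⟨J, hJ⟩ := two2_surj Θ I'
    refine ⟨J, ?_⟩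
    rw [two2_ker, hJ]
    exact hI'
  sep b hb := by
    apply h.sep
    intro I
    obtain ⟨J, hJ⟩ := two2_surj Θ I
    have h1 : b ∈ RingHom.ker (two2_ev Θ ev J) := hb J
    rw [two2_ker, hJ] at h1
    exact h1

end tra

/-- `A1` is a polynomial ring for odd `m`. -/
private def two2_Θ1 (p m : ℕ) (hm : m % 2 = 1) : A1 p m ≃ₐ[ZMod p] Polynomial (ZMod p) where
  toFun f := f ⟨(), hm⟩
  invFun g := fun _ => g
  left_inv f := by
    funext s
    rfl
  right_inv g := rfl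
  map_mul' _ _ := rfl
  map_add' _ _ := rfl
  commutes' _ := rfl

theorem p_two2 (hsc : S_sc) (hidem : S_idem) (hecnd : S_ecnd) (htr2 : S_tr2) (hneg : S_neg) :
    S_two2 := by
  intro p m _ _ x Λ _ δ n B _ _ TB TA evv Φ Ψ h
  have key : ∃ e : B, ∀ J, evv J e = 0 ↔ ((0 : A2 p m), (1 : A1 p m)) ∈ J.1 := by
    by_cases hm : m % 2 = 1
    · obtain ⟨κ, hκ⟩ := h.upB.univ (Polynomial (ZMod p)) (Tsc p m δ n) (hneg.2 p m Λ δ n).1
        ((hneg.2 p m Λ δ n).2 hm)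
      obtain ⟨hs, hc⟩ := hsc p m x Λ δ n B TB TA evv Φ Ψ h hm κ hκ
      let Θ : AG p m ≃ₐ[ZMod p] A2 p m × Polynomial (ZMod p) :=
        AlgEquiv.prodCongr AlgEquiv.refl (two2_Θ1 p m hm)
      obtain ⟨e, he1, he2⟩ := hidem p (A2 p m) B (two2_ev Θ evv) (two2_tr Θ evv h.tr) κ hs (by
        intro J
        rw [two2_ker, ← hc (two2_I Θ J)]
        exact Iff.rfl)
      refine ⟨e, hecnd p (A2 p m) (A1 p m) B evv h.tr (RingHom.ker κ) e ?_ ?_ hc⟩
      · rw [RingHom.mem_ker, map_sub, he2, map_one, sub_self]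
      · intro i hi
        exact he1 i hi
    · refine ⟨0, fun J => ?_⟩
      rw [map_zero]
      have h0 : ((0 : A2 p m), (1 : A1 p m)) = 0 := by
        apply Prod.ext
        · rfl
        · funext s
          exact absurd s.2 hm
      rw [h0]
      exact ⟨fun _ => J.1.zero_mem, fun _ => rfl⟩
  obtain ⟨e, he⟩ := key
  exact ⟨e, he, htr2 p (A2 p m) (A1 p m) B evv h.tr e he⟩

end

end Pool.Agent.CZA
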