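import Pool.Agent.Lib.MP_305fdd_al.CZ.A.Stm
import Pool.Agent.Lib.MP_305fdd_al.F2.Setup

/-!
# MP_305fdd_al (`C_m * Z`), part A: [CA um] existence of universal rings
-/

set_option autoImplicit false

namespace Pool.Agent.CZA

open Pool.Agent.F2 (PC Uni tu)

theorem p_um : S_um := by
  intro F _ G _ _ c
  obtain ⟨h1, h2, h3⟩ := F2.t_uni.1 F G
  have hft : Algebra.FiniteType F (Uni F G) := F2.t_uni.2 F G
  let I : Ideal (Uni F G) := Ideal.span {tu F c + 2}
  let π : Uni F G →ₐ[F] Uni F G ⧸ I := Ideal.Quotient.mkₐ F I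
  have hπ : Function.Surjective π := Ideal.Quotient.mkₐ_surjective F I
  refine ⟨Uni F G ⧸ I, inferInstance, inferInstance, fun g => π (tu F g), ⟨⟨?_, ?_, ?_⟩, ?_, ?_, ?_⟩,
    Algebra.FiniteType.of_surjective π hπ⟩
  · rw [h1.one, map_ofNat]
  · intro g h
    rw [h1.comm]
  · intro g h
    rw [← map_add, h1.rel, map_mul]
  · have h4 : π (tu F c + 2) = 0 :=
      Ideal.Quotient.eq_zero_iff_mem.2 (Ideal.subset_span rfl)
    rw [map_add, map_ofNat] at h4
    exact eq_neg_of_add_eq_zero_left h4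
  · have h4 : (Set.range fun g => π (tu F g)) = π '' Set.range (tu F : G → Uni F G) := by
      rw [← Set.range_comp]
      rfl
    rw [h4, ← AlgHom.map_adjoin, h2, Algebra.map_top, AlgHom.range_eq_top]
    exact hπ
  · intro R _ _ T' hT' hc
    obtain ⟨φ, hφ⟩ := h3 R T' hT'
    have hle : I ≤ RingHom.ker φ := by
      rw [Ideal.span_le, Set.singleton_subset_iff, SetLike.mem_coe, RingHom.mem_ker, map_add,
        hφ, hc, map_ofNat, neg_add_cancel]
    refine ⟨Ideal.Quotient.liftₐ I φ fun a ha => hle ha, fun g => ?_⟩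
    rw [← hφ]
    exact Ideal.Quotient.liftₐ_apply I φ _ _

end Pool.Agent.CZA
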