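import Pool.Agent.Lib.MP_305fdd_al.CZ.A.Stm

set_option autoImplicit false

namespace Pool.Agent.CZA

theorem p_ze : S_ze := by
  refine ⟨?_, ?_⟩
  · intro m hm
    haveI : NeZero (2 * m) := ⟨by omega⟩
    obtain ⟨p, hp2, hp, hpm⟩ := Nat.forall_exists_prime_gt_and_eq_mod
      (q := 2 * m) (a := -1) (isUnit_one.neg) 2
    refine ⟨p, hp, by omega, ?_⟩
    rw [← ZMod.natCast_eq_zero_iff, Nat.cast_add, hpm, Nat.cast_one]
    ring
  · intro m p hpf hm hd
    have hp := hpf.out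
    have hnd : ¬ p ∣ 2 * m := by
      intro h
      have h1 : p ∣ p + 1 := h.trans hd
      have h2 : p ∣ 1 := (Nat.dvd_add_right (dvd_refl p)).1 h1
      exact hp.one_lt.ne' (Nat.dvd_one.1 h2)
    refine ⟨fun h => hnd (h.mul_left 2), ?_⟩
    intro k _ _ _
    haveI : NeZero ((2 * m : ℕ) : k) := ⟨fun h => hnd ((CharP.cast_eq_zero_iff k p (2 * m)).1 h)⟩
    haveI : NeZero (2 * m) := ⟨by omega⟩
    obtain ⟨ζ, hζ⟩ := HasEnoughRootsOfUnity.exists_primitiveRoot k (2 * m)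
    refine ⟨(hζ.isUnit (by omega)).unit, ?_⟩
    rw [← orderOf_units, IsUnit.unit_spec, ← hζ.eq_orderOf]

end Pool.Agent.CZA
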