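import Pool.Agent.Lib.MP_305fdd_al.CZ.A.CoreEx
import Pool.Agent.Lib.MP_305fdd_al.CZ.A.P_aga
import Pool.Agent.Lib.MP_305fdd_al.CZ.A.P_agt
import Pool.Agent.Lib.MP_305fdd_al.CZ.A.P_agu
import Pool.Agent.Lib.MP_305fdd_al.CZ.A.P_cls
import Pool.Agent.Lib.MP_305fdd_al.CZ.A.P_cntg
import Pool.Agent.Lib.MP_305fdd_al.CZ.A.P_cut
import Pool.Agent.Lib.MP_305fdd_al.CZ.A.P_ecnd
import Pool.Agent.Lib.MP_305fdd_al.CZ.A.P_evg
import Pool.Agent.Lib.MP_305fdd_al.CZ.A.P_ex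
import Pool.Agent.Lib.MP_305fdd_al.CZ.A.P_gam
import Pool.Agent.Lib.MP_305fdd_al.CZ.A.P_idem
import Pool.Agent.Lib.MP_305fdd_al.CZ.A.P_nb
import Pool.Agent.Lib.MP_305fdd_al.CZ.A.P_neg
import Pool.Agent.Lib.MP_305fdd_al.CZ.A.P_pow
import Pool.Agent.Lib.MP_305fdd_al.CZ.A.P_pt
import Pool.Agent.Lib.MP_305fdd_al.CZ.A.P_ptsg
import Pool.Agent.Lib.MP_305fdd_al.CZ.A.P_rec
import Pool.Agent.Lib.MP_305fdd_al.CZ.A.P_sc
import Pool.Agent.Lib.MP_305fdd_al.CZ.A.P_tr2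
import Pool.Agent.Lib.MP_305fdd_al.CZ.A.P_two2
import Pool.Agent.Lib.MP_305fdd_al.CZ.A.P_ze
import Pool.Agent.Lib.MP_305fdd_al.CZ.A.F_car
import Pool.Agent.Lib.MP_305fdd_al.CZ.A.F_chg
import Pool.Agent.Lib.MP_305fdd_al.CZ.A.F_fb
import Pool.Agent.Lib.MP_305fdd_al.CZ.A.F_fld
import Pool.Agent.Lib.MP_305fdd_al.CZ.A.F_fpl
import Pool.Agent.Lib.MP_305fdd_al.CZ.A.F_h
import Pool.Agent.Lib.MP_305fdd_al.CZ.A.F_ind
import Pool.Agent.Lib.MP_305fdd_al.CZ.A.F_iot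
import Pool.Agent.Lib.MP_305fdd_al.CZ.A.F_lk
import Pool.Agent.Lib.MP_305fdd_al.CZ.A.F_mo
import Pool.Agent.Lib.MP_305fdd_al.CZ.A.F_nil
import Pool.Agent.Lib.MP_305fdd_al.CZ.A.F_om
import Pool.Agent.Lib.MP_305fdd_al.CZ.A.F_or
import Pool.Agent.Lib.MP_305fdd_al.CZ.A.F_pb
import Pool.Agent.Lib.MP_305fdd_al.CZ.A.F_pol
import Pool.Agent.Lib.MP_305fdd_al.CZ.A.F_rc
import Pool.Agent.Lib.MP_305fdd_al.CZ.A.F_ry
import Pool.Agent.Lib.MP_305fdd_al.CZ.A.F_ths
import Pool.Agent.Lib.MP_305fdd_al.CZ.A.K_cnt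
import Pool.Agent.Lib.MP_305fdd_al.CZ.A.L_bcn
import Pool.Agent.Lib.MP_305fdd_al.CZ.A.L_cn
import Pool.Agent.Lib.MP_305fdd_al.CZ.A.L_cor
import Pool.Agent.Lib.MP_305fdd_al.CZ.A.L_d0
import Pool.Agent.Lib.MP_305fdd_al.CZ.A.L_d1
import Pool.Agent.Lib.MP_305fdd_al.CZ.A.L_dom
import Pool.Agent.Lib.MP_305fdd_al.CZ.A.L_e0
import Pool.Agent.Lib.MP_305fdd_al.CZ.A.L_fix
import Pool.Agent.Lib.MP_305fdd_al.CZ.A.L_nn
import Pool.Agent.Lib.MP_305fdd_al.CZ.A.L_q
import Pool.Agent.Lib.MP_305fdd_al.CZ.A.L_rk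
import Pool.Agent.Lib.MP_305fdd_al.CZ.A.L_rr
import Pool.Agent.Lib.MP_305fdd_al.CZ.A.L_x1
import Pool.Agent.Lib.MP_305fdd_al.CZ.A.K_irr
import Pool.Agent.Lib.MP_305fdd_al.CZ.A.P_um

/-!
# MP_305fdd_al (`C_m * Z`), part A: assembly
-/

set_option autoImplicit false

namespace Pool.Agent.CZA

open Pool.Agent.Lib.MP_305fdd_al Pool.Agent.MP_305fdd_al Pool.Agent.CZ

noncomputable section

/-! ## Section F -/

theorem t_ry : S_ry := p_ry p_ths

theorem t_fpl : S_fpl := p_fpl p_pol p_car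

theorem t_fld : S_fld := p_fld p_car

section

variable (p : ℕ) [Fact p.Prime] (k : Type) [Field k] [CharP k p] [PerfectRing k p]
  (D : Type) [CommRing D] [Algebra k D] (φ : Ak k →ₐ[k] D) (res : D →ₐ[k] Ls k) (g : Fin 2 → D)
  (K : Type) [Field K] [Algebra D K]

theorem t_ind : S_ind p k D φ res g K := p_ind p k D φ res g K t_ry

theorem t_lk : S_lk p k D φ res g K :=
  p_lk p k D φ res g K (p_or p k D φ res g K) (t_ind p k D φ res g K) p_chg p_pol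

theorem t_pb : S_pb p k D φ res g K :=
  p_pb p k D φ res g K (p_or p k D φ res g K) (t_ind p k D φ res g K) p_chg t_fpl t_fld p_car

theorem t_om : S_om p k D φ res g K :=
  p_om p k D φ res g K (t_pb p k D φ res g K) t_fpl p_car

theorem t_nil : S_nil p k D φ res g K :=
  p_nil p k D φ res g K (t_pb p k D φ res g K) t_fpl (t_om p k D φ res g K) p_car

theorem t_mo : S_mo p k D φ res g K := p_mo p k D φ res g K (t_om p k D φ res g K)

theorem t_rc : S_rc p k D φ res g K :=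
  p_rc p k D φ res g K (t_ind p k D φ res g K) t_ry p_car

theorem t_h : S_h p k D φ res g K :=
  p_h p k D φ res g K (t_om p k D φ res g K) (t_nil p k D φ res g K) (t_mo p k D φ res g K)
    (t_rc p k D φ res g K) (t_pb p k D φ res g K) p_car p_ths

theorem t_fb : S_fb p k D φ res g K :=
  p_fb p k D φ res g K (p_or p k D φ res g K) (t_lk p k D φ res g K) (t_pb p k D φ res g K)
    (t_h p k D φ res g K) (t_rc p k D φ res g K) (t_mo p k D φ res g K)
    (t_nil p k D φ res g K) (t_om p k D φ res g K) p_ths p_car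

end

theorem t_iot : S_iot := p_iot p_car p_ths

/-! ## Sections A, L -/

theorem t_cut : S_cut := p_cut p_rec

theorem t_agt : S_agt := p_agt p_gam p_rec p_neg

theorem t_agu : S_agu := p_agu p_gam t_cut p_neg p_ex

theorem t_sc : S_sc := p_sc p_neg p_ex

theorem t_idem : S_idem := p_idem p_pow

theorem t_ecnd : S_ecnd := p_ecnd p_pow

theorem t_two2 : S_two2 := p_two2 t_sc t_idem t_ecnd p_tr2 p_neg

theorem t_cntg : S_cntg := p_cntg p_pow

theorem t_pt : S_pt := p_pt p_pow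

theorem t_nn : S_nn := p_nn p_cn p_q

theorem t_e0 : S_e0 := p_e0 t_sc p_ex p_neg

theorem t_rk : S_rk := p_rk p_fix p_ex

theorem t_d1 : S_d1 := p_d1 t_rk p_dom p_bcn p_ex

theorem t_cnt : S_cnt := p_cnt p_ex

theorem t_irr : S_irr := p_irr p_ex p_rec

/-- every element of the algebraic closure of `F_p` lies in a finite field -/
theorem pow_closure (p : ℕ) [Fact p.Prime] (c : AlgebraicClosure (ZMod p)) :
    ∃ N : ℕ, 0 < N ∧ c ^ p ^ N = c := by
  have hc : IsIntegral (ZMod p) c := Algebra.IsIntegral.isIntegral c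
  let F := IntermediateField.adjoin (ZMod p) {c}
  have : FiniteDimensional (ZMod p) F := IntermediateField.adjoin.finiteDimensional hc
  have : Finite F := Module.finite_of_finite (ZMod p)
  have := Fintype.ofFinite F
  obtain ⟨n, hn1, hn2⟩ := FiniteField.card F p
  refine ⟨n, n.2, ?_⟩
  have h := FiniteField.pow_card (⟨c, IntermediateField.mem_adjoin_simple_self _ c⟩ : F)
  rw [hn2] at h
  exact congrArg Subtype.val h

/-- EXISTENCE OF THE CORE DATA (the last two pieces as hypotheses) -/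
theorem exists_core_of (hwj : S_wj) (hca : S_ca) (m : ℕ) (hm : 2 ≤ m) (Λ : Type) [Group Λ]
    [Group.FG Λ]
    (hΛ : SameFiniteQuotients Λ (Monoid.Coprod (Multiplicative (ZMod m)) (Multiplicative ℤ)))
    (p : ℕ) [Fact p.Prime] (hp : p ≠ 2) (hpm : 2 * m ∣ p + 1) :
    ∃ (K G : Type) (_ : Field K) (_ : Algebra (AlgebraicClosure (ZMod p)) K) (_ : Group G)
      (C : Core p m (AlgebraicClosure (ZMod p)) K G) (π : G →* Λ), Function.Surjective π ∧
      ∀ g, π g = 1 → g = 1 ∨ g = C.c := by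
  have : NeZero m := ⟨by omega⟩
  have hcor : S_cor := p_cor p_cls p_nb p_ex hwj t_agt p_aga t_agu p_um p_evg p_ze
  have hd0 : S_d0 := p_d0 hcor t_two2 t_cntg p_ptsg hca t_pt p_rr (p_x1 p_ex p_rr) p_q t_nn t_e0
  obtain ⟨ζ, hζ⟩ := (p_ze.2 m p (by omega) hpm).2 (AlgebraicClosure (ZMod p))
  obtain ⟨δ, n, B, i1, i2, T, r, x1, q, h0⟩ := hd0 p m hp hm hpm (AlgebraicClosure (ZMod p)) ζ hζ
    Λ hΛ
  obtain ⟨D, i3, i4, T', φ, res, g, j, h1⟩ := t_d1 p m (AlgebraicClosure (ZMod p)) ζ Λ δ n B T r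
    x1 q h0
  have := h1.bd.dom
  obtain ⟨O, ρ, h, Φ, hF⟩ := t_fb p (AlgebraicClosure (ZMod p)) D φ res g (FractionRing D) h1.bd
    inferInstance
  have : Finite (Multiplicative (ZMod m)) := inferInstanceAs (Finite (ZMod m))
  have : Group.FG (Multiplicative (ZMod m)) := inferInstance
  have : Group.FG (Multiplicative ℤ) := inferInstance
  have : Group.FG (Monoid.Coprod (Multiplicative (ZMod m)) (Multiplicative ℤ)) := inferInstance
  obtain ⟨N⟩ := exists_natBij hΛ.symm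
  obtain ⟨C, hC⟩ := core_of p_ex t_irr t_cnt t_iot (pow_closure p) inferInstance N h1 hF
  obtain ⟨-, -, -, -, hx5, hx6, -⟩ := p_ex m Λ δ
  exact ⟨FractionRing D, Ext m δ, inferInstance, inferInstance, inferInstance, C, e1 m δ, hx6,
    fun g hg => by rw [hC]; exact hx5 g hg⟩

end

end Pool.Agent.CZA
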