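import Pool.Agent.Lib.MP_305fdd_al.CZ.A.Stm

/-!
# MP_305fdd_al (`C_m * Z`), part A: piece ex (elementary facts on the central extension)
-/

set_option autoImplicit false

namespace Pool.Agent.CZA

open MvPolynomial Pool.Agent.Lib.MP_305fdd_al Pool.Agent.MP_305fdd_al Pool.Agent.CZ
open Pool.Agent.F2 (PC Corr Fr gx gy)
open Pool.Agent.F2TF (Pol fpow)

theorem ex_two_mul_ne (m : ℕ) [NeZero m] : NeZero (2 * m) := ⟨by
  have := NeZero.ne m
  omega⟩

theorem ex_sq_surj (m : ℕ) [NeZero m] : Function.Surjective (sq m) := by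
  intro y
  refine ⟨Multiplicative.ofAdd (((Multiplicative.toAdd y).val : ℕ) : ZMod (2 * m)), ?_⟩
  rw [sq_nat, ZMod.natCast_zmod_val]
  rfl

/-- every element of `Z/2m` is the class of a natural number less than `2 m` -/
theorem ex_repr (m : ℕ) [NeZero m] (a : Multiplicative (ZMod (2 * m))) :
    ∃ v : ℕ, v < 2 * m ∧ a = Multiplicative.ofAdd (v : ZMod (2 * m)) := by
  have := ex_two_mul_ne m
  refine ⟨(Multiplicative.toAdd a).val, ZMod.val_lt _, ?_⟩
  rw [ZMod.natCast_zmod_val]
  rfl

theorem ex_e1_surj (m : ℕ) [NeZero m] {Λ : Type} [Group Λ] (δ : Λ →* Multiplicative (ZMod m)) :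
    Function.Surjective (e1 m δ) := by
  intro l
  obtain ⟨a, ha⟩ := ex_sq_surj m (δ l)
  exact ⟨Fib.mk δ (sq m) l a ha.symm, rfl⟩

theorem ex_ext (m : ℕ) {Λ : Type} [Group Λ] (δ : Λ →* Multiplicative (ZMod m)) (g h : Ext m δ)
    (h1 : e1 m δ g = e1 m δ h) (h2 : e2 m δ g = e2 m δ h) : g = h :=
  Subtype.ext (Prod.ext h1 h2)

theorem p_ex : S_ex := by
  intro m _ Λ _ δ
  have := ex_two_mul_ne m
  have hm0 : m ≠ 0 := NeZero.ne m
  refine ⟨?_, ?_, ?_, ?_, ?_, ex_e1_surj m δ, ex_sq_surj m, ?_, ?_⟩
  · intro g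
    apply ex_ext
    · rw [map_mul, map_mul]
      show 1 * _ = _ * 1
      rw [one_mul, mul_one]
    · rw [map_mul, map_mul]
      exact mul_comm (e2 m δ (cc m δ)) (e2 m δ g)
  · apply ex_ext
    · rw [map_mul, map_one]
      show (1 : Λ) * 1 = 1
      rw [mul_one]
    · rw [map_mul, map_one]
      show Multiplicative.ofAdd (m : ZMod (2 * m)) * Multiplicative.ofAdd (m : ZMod (2 * m)) = 1
      rw [← ofAdd_add, ← Nat.cast_add, ← two_mul, ZMod.natCast_self]
      rfl
  · rfl
  · show (m : ZMod (2 * m)).val = m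
    rw [ZMod.val_natCast, Nat.mod_eq_of_lt (by omega)]
  · intro g hg
    obtain ⟨v, hv, hv2⟩ := ex_repr m (e2 m δ g)
    have hc := Fib.cond g
    rw [show f1 δ (sq m) g = 1 from hg, map_one, show f2 δ (sq m) g = _ from hv2, sq_nat] at hc
    have hz : ((v : ℕ) : ZMod m) = 0 := congrArg Multiplicative.toAdd hc.symm
    rw [ZMod.natCast_eq_zero_iff] at hz
    obtain ⟨c, hc⟩ := hz
    have hc2 : c < 2 := by
      by_contra hcon
      push Not at hcon
      have : m * 2 ≤ m * c := Nat.mul_le_mul_left m hcon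
      omega
    interval_cases c
    · left
      apply ex_ext
      · rw [hg, map_one]
      · rw [hv2, map_one, hc, mul_zero, Nat.cast_zero]
        rfl
    · right
      apply ex_ext
      · rw [hg]; rfl
      · rw [hv2, hc, mul_one]
        rfl
  · intro hfg
    have hK : (Ext m δ : Subgroup (Λ × Multiplicative (ZMod (2 * m)))) =
        MonoidHom.ker ((δ.comp (MonoidHom.fst Λ (Multiplicative (ZMod (2 * m))))) *
          ((sq m).comp (MonoidHom.snd Λ (Multiplicative (ZMod (2 * m)))))⁻¹) := by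
      ext x
      rw [MonoidHom.mem_ker, MonoidHom.mul_apply, MonoidHom.inv_apply, mul_inv_eq_one]
      rfl
    have : Group.FG (Λ × Multiplicative (ZMod (2 * m))) := inferInstance
    have hfi : (Ext m δ : Subgroup (Λ × Multiplicative (ZMod (2 * m)))).FiniteIndex := by
      rw [hK]
      exact Subgroup.finiteIndex_ker _
    exact Subgroup.fg_of_index_ne_zero _
  · intro n hcls
    constructor
    · intro g hg2 hng
      have hd : δ (e1 m δ g) = 1 := by
        have hc := Fib.cond g
        rw [show f2 δ (sq m) g = 1 from hg2, map_one] at hc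
        exact hc
      have hmem : e1 m δ g ∈ commutator Λ := by
        rw [← hcls.ker, MonoidHom.mem_ker, MonoidHom.prod_apply, hd, hng]
        rfl
      have hmap : (commutator (Ext m δ)).map (e1 m δ) = commutator Λ := by
        rw [commutator_def, commutator_def, Subgroup.map_commutator,
          ← MonoidHom.range_eq_map, MonoidHom.range_eq_top.2 (ex_e1_surj m δ)]
      rw [← hmap] at hmem
      obtain ⟨x, hx, hxg⟩ := hmem
      have hx2 : e2 m δ x = 1 := by
        have := Abelianization.commutator_subset_ker (e2 m δ) hx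
        exact this
      have : g = x := ex_ext m δ g x hxg.symm (by rw [hg2, hx2])
      rw [this]
      exact hx
    · intro a i
      obtain ⟨l, hl⟩ := hcls.surj (Multiplicative.ofAdd (a : ZMod m), Multiplicative.ofAdd i)
      rw [MonoidHom.prod_apply] at hl
      have h1 : δ l = Multiplicative.ofAdd (a : ZMod m) := congrArg Prod.fst hl
      have h2 : n l = Multiplicative.ofAdd i := congrArg Prod.snd hl
      exact ⟨Fib.mk δ (sq m) l (Multiplicative.ofAdd (a : ZMod (2 * m))) (by rw [h1, sq_nat]),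
        rfl, h2⟩

end Pool.Agent.CZA
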