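import Pool.Agent.Lib.MP_305fdd_al.CZ.A.Stm
import Pool.Agent.Lib.MP_305fdd_al.F2.GB.rf

/-!
# MP_305fdd_al (`C_m * Z`), part A: piece tr2 (restriction to a component)
-/

set_option autoImplicit false

namespace Pool.Agent.CZA

open Pool.Agent.CC (IsTR)

section tr2
variable {p : ℕ} [Fact p.Prime] {A A' : Type} [CommRing A] [CommRing A'] [Algebra (ZMod p) A]
  [Algebra (ZMod p) A']

/-- the map `(A × A') / J' → A / J` -/
private def tr2_phi (p : ℕ) [Fact p.Prime] (A' : Type) [CommRing A'] [Algebra (ZMod p) A']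
    [Algebra (ZMod p) A] (J : Ideal A) :
    ((A × A') ⧸ J.comap (RingHom.fst A A')) →ₐ[ZMod p] A ⧸ J :=
  Ideal.quotientMapₐ J (AlgHom.fst (ZMod p) A A') (fun _ h => h)

private theorem tr2_phi_mk (J : Ideal A) (a : A × A') :
    tr2_phi p A' J (Ideal.Quotient.mk _ a) = Ideal.Quotient.mk J a.1 := rfl

private theorem tr2_phi_inj (J : Ideal A) : Function.Injective (tr2_phi p A' J) := by
  rw [injective_iff_map_eq_zero]
  intro x hx
  obtain ⟨a, rfl⟩ := Ideal.Quotient.mk_surjective x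
  rw [tr2_phi_mk, Ideal.Quotient.eq_zero_iff_mem] at hx
  rw [Ideal.Quotient.eq_zero_iff_mem]
  exact hx

private theorem tr2_fin (J : {J : Ideal A // Finite (A ⧸ J)}) :
    Finite ((A × A') ⧸ J.1.comap (RingHom.fst A A')) := by
  have := J.2
  exact Finite.of_injective (Ideal.quotientMap J.1 (RingHom.fst A A') le_rfl)
    Ideal.quotientMap_injective

end tr2

theorem p_tr2 : S_tr2 := by
  intro p _ A A' B _ _ _ _ _ _ ev h e he
  have h0 : ∀ J : {J : Ideal A // Finite (A ⧸ J)},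
      ev ⟨J.1.comap (RingHom.fst A A'), tr2_fin J⟩ e = 0 := by
    intro J
    rw [he]
    show ((0 : A), (1 : A')).1 ∈ J.1
    exact J.1.zero_mem
  have hl : ∀ (J : {J : Ideal A // Finite (A ⧸ J)}), ∀ b ∈ Ideal.span {e},
      ((tr2_phi p A' J.1).comp (ev ⟨J.1.comap (RingHom.fst A A'), tr2_fin J⟩)) b = 0 := by
    intro J b hb
    obtain ⟨c, rfl⟩ := Ideal.mem_span_singleton'.1 hb
    rw [AlgHom.comp_apply, map_mul, h0, mul_zero, map_zero]
  let ev2 : ∀ J : {J : Ideal A // Finite (A ⧸ J)}, (B ⧸ Ideal.span {e}) →ₐ[ZMod p] A ⧸ J.1 :=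
    fun J => Ideal.Quotient.liftₐ (Ideal.span {e}) _ (hl J)
  have hev2 : ∀ (J : {J : Ideal A // Finite (A ⧸ J)}) (b : B),
      ev2 J (Ideal.Quotient.mk _ b) =
        tr2_phi p A' J.1 (ev ⟨J.1.comap (RingHom.fst A A'), tr2_fin J⟩ b) :=
    fun J b => rfl
  have hval : ∀ (J : {J : Ideal A // Finite (A ⧸ J)})
      (J' : {J : Ideal (A × A') // Finite ((A × A') ⧸ J)}),
      J'.1 = J.1.comap (RingHom.fst A A') → ∀ (b : B) (a : A × A'),
      ev J' b = Ideal.Quotient.mk J'.1 a →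
      ev2 J (Ideal.Quotient.mk (Ideal.span {e}) b) = Ideal.Quotient.mk J.1 a.1 := by
    intro J J' hJ b a hb
    obtain rfl : J' = ⟨J.1.comap (RingHom.fst A A'), tr2_fin J⟩ := Subtype.ext hJ
    rw [hev2, hb]
    rfl
  have hker : ∀ (J : {J : Ideal A // Finite (A ⧸ J)}) (b : B),
      ev2 J (Ideal.Quotient.mk _ b) = 0 ↔
        ev ⟨J.1.comap (RingHom.fst A A'), tr2_fin J⟩ b = 0 := by
    intro J b
    rw [hev2]
    constructor
    · intro hb
      exact tr2_phi_inj J.1 (by rw [hb, map_zero])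
    · intro hb
      rw [hb, map_zero]
  have hft : Algebra.FiniteType (ZMod p) (B ⧸ Ideal.span {e}) := by
    have := h.fg
    exact Algebra.FiniteType.of_surjective (Ideal.Quotient.mkₐ (ZMod p) (Ideal.span {e}))
      (Ideal.Quotient.mkₐ_surjective _ _)
  have hfin : ∀ I : Ideal (B ⧸ Ideal.span {e}), Finite ((B ⧸ Ideal.span {e}) ⧸ I) →
      ∃ J, I = RingHom.ker (ev2 J) := by
    intro I hI
    have hI0 : Finite (B ⧸ I.comap (Ideal.Quotient.mk (Ideal.span {e}))) :=
      Finite.of_injective (Ideal.quotientMap I (Ideal.Quotient.mk (Ideal.span {e})) le_rfl)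
        Ideal.quotientMap_injective
    obtain ⟨J'', hJ''⟩ := h.fin _ hI0
    have he0 : ev J'' e = 0 := by
      have : e ∈ I.comap (Ideal.Quotient.mk (Ideal.span {e})) := by
        rw [Ideal.mem_comap]
        have h2 : Ideal.Quotient.mk (Ideal.span {e}) e = 0 :=
          Ideal.Quotient.eq_zero_iff_mem.2 (Ideal.mem_span_singleton_self e)
        rw [h2]
        exact I.zero_mem
      rw [hJ''] at this
      exact this
    rw [he] at he0
    have hc : J''.1 = (J''.1.map (RingHom.fst A A')).comap (RingHom.fst A A') := by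
      rw [Ideal.comap_map_of_surjective _ (fun a => ⟨(a, 0), rfl⟩)]
      refine (sup_eq_left.2 ?_).symm
      rintro ⟨a, a'⟩ ha
      have ha0 : a = 0 := ha
      subst ha0
      have h3 : ((0 : A), a') = ((0 : A), a') * ((0 : A), (1 : A')) := by
        simp
      rw [h3]
      exact J''.1.mul_mem_left _ he0
    have hf : Finite (A ⧸ J''.1.map (RingHom.fst A A')) := by
      have := J''.2
      have hle : J''.1 ≤ (J''.1.map (RingHom.fst A A')).comap (RingHom.fst A A') :=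
        Ideal.le_comap_map
      refine Finite.of_surjective (Ideal.quotientMap _ (RingHom.fst A A') hle) ?_
      exact Ideal.quotientMap_surjective (fun a => ⟨(a, 0), rfl⟩)
    refine ⟨⟨J''.1.map (RingHom.fst A A'), hf⟩, ?_⟩
    have heq : ∀ (J K : {J : Ideal (A × A') // Finite ((A × A') ⧸ J)}), J = K → ∀ b : B,
        (ev J b = 0 ↔ ev K b = 0) := by
      rintro J _ rfl b
      rfl
    ext x
    obtain ⟨b, rfl⟩ := Ideal.Quotient.mk_surjective x
    rw [← Ideal.mem_comap, hJ'', RingHom.mem_ker, RingHom.mem_ker]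
    refine (heq J'' ⟨(J''.1.map (RingHom.fst A A')).comap (RingHom.fst A A'),
      tr2_fin ⟨J''.1.map (RingHom.fst A A'), hf⟩⟩ (Subtype.ext hc) b).trans ?_
    exact (hker ⟨J''.1.map (RingHom.fst A A'), hf⟩ b).symm
  refine ⟨ev2, ⟨hft, ?_, ?_, ?_, hfin, ?_⟩, hval⟩
  · intro J z
    obtain ⟨a, rfl⟩ := Ideal.Quotient.mk_surjective z
    obtain ⟨b, hb⟩ := h.surj ⟨J.1.comap (RingHom.fst A A'), tr2_fin J⟩
      (Ideal.Quotient.mk _ (a, 0))
    exact ⟨Ideal.Quotient.mk _ b, hval J _ rfl b (a, 0) hb⟩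
  · intro J K hJ x
    obtain ⟨b, rfl⟩ := Ideal.Quotient.mk_surjective x
    obtain ⟨a, ha⟩ := Ideal.Quotient.mk_surjective
      (ev ⟨J.1.comap (RingHom.fst A A'), tr2_fin J⟩ b)
    rw [hval J _ rfl b a ha.symm]
    have hle : J.1.comap (RingHom.fst A A') ≤ K.1.comap (RingHom.fst A A') :=
      Ideal.comap_mono hJ
    have h2 := h.compat ⟨J.1.comap (RingHom.fst A A'), tr2_fin J⟩
      ⟨K.1.comap (RingHom.fst A A'), tr2_fin K⟩ hle b
    rw [← ha] at h2
    rw [hval K _ rfl b a h2.symm]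
    rfl
  · intro J K hJK
    have h2 : RingHom.ker (ev ⟨J.1.comap (RingHom.fst A A'), tr2_fin J⟩) =
        RingHom.ker (ev ⟨K.1.comap (RingHom.fst A A'), tr2_fin K⟩) := by
      ext b
      rw [RingHom.mem_ker, RingHom.mem_ker, ← hker, ← hker]
      have h3 : Ideal.Quotient.mk (Ideal.span {e}) b ∈ RingHom.ker (ev2 J) ↔
        Ideal.Quotient.mk (Ideal.span {e}) b ∈ RingHom.ker (ev2 K) := by rw [hJK]
      exact h3
    have h4 := congrArg Subtype.val (h.inj _ _ h2)
    exact Subtype.ext (Ideal.comap_injective_of_surjective (RingHom.fst A A')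
      (fun a => ⟨(a, 0), rfl⟩) h4)
  · intro x hx
    by_contra hx0
    obtain ⟨I, hI, hxI⟩ := (F2.p_rf p (B ⧸ Ideal.span {e}) hft).2 x hx0
    obtain ⟨J, rfl⟩ := hfin I hI
    exact hxI (hx J)

end Pool.Agent.CZA
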