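import Pool.Agent.Lib.MP_305fdd_al.CZ.A.Defs

/-!
# MP_305fdd_al (`C_m * Z`), part A: statements and proofs, file 1 (groups, universal rings, transfer)

Every piece may use the statements named in its docstring as hypotheses.
-/

set_option autoImplicit false

namespace Pool.Agent.CZA

open MvPolynomial Pool.Agent.Lib.MP_305fdd_al Pool.Agent.MP_305fdd_al Pool.Agent.CZ
open Pool.Agent.F2 (PC Corr Fr gx gy)
open Pool.Agent.F2TF (Pol fpow)
open Pool.Agent.CC (IsTR)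

/-! ## Part 1: groups -/

/-- [CA cls] the abelianisation.

Proof. (1) There are `d : Λ → Z/m` and `n : Λ → Z` with `(d, n)` onto and kernel `Λ'`: `Λ^ab` is a finitely
generated abelian group with the same finite quotients as `(C_m * Z)^ab = Z/m × Z` (`Solv/Abel.lean`:
`same_ab` or `ab_equiv`, `exists_free_prod`; or count homomorphisms to `Z/N`, which correspond under `Φ`:
`Λ^ab = Z^r × T`, `N^r |Hom(T, Z/N)| = N gcd(m, N)` for all `N`, so `r = 1` and `T` is cyclic of order `m`).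
(2) CRITERION: a homomorphism `ψ : Λ → Multiplicative (ZMod M)`, `M > 0`, factors through `n` iff it lifts along
the reduction `Z/(m M) → Z/M`. (`→`: homomorphisms `Z → Z/M` lift. `←`: `ψ = red ψ'`; if `n g = 1` then
`(d, n) (g ^ m) = 1`, `g ^ m ∈ Λ'`, so `m ψ'(g) = 0` in `Z/(m M)`, `ψ'(g) ∈ M Z/(m M)`, `ψ g = 0`; `n` is onto.) The same holds
for `C_m * Z` and `nG` (`g ↦ (dG g, nG g)` is the abelianisation; or directly: `ψ` factors through `nG` iff
`ψ (inl (ofAdd 1)) = 1`, because homomorphisms from the coproduct are determined on `inl`, `inr`).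
(3) `Cyc` for `Q = Multiplicative (ZMod M)`: both sides are liftability, which is preserved by `Φ` (`nat`,
bijectivity). For general `Q`: if `ψ = q ∘ nG` then the image of `q` is a finite cyclic group, `q = ι ∘ q₀` with
`q₀ : Z → Multiplicative (ZMod M)` and `ι : Multiplicative (ZMod M) → Q`; `Φ ψ = ι ∘ Φ (q₀ ∘ nG)`. Converse: if
`Φ ψ = q ∘ n = ι ∘ (q₀ ∘ n)`, `q₀ ∘ n = Φ ψ₀` (surjectivity), `ψ = ι ∘ ψ₀`, `ψ₀` factors.
(4) Put `δ = Φ dG` and choose `y ∈ Λ` with `n y = 1`, `d y = ofAdd 1`. For a prime `l ∣ m` let `π_l : Z/m → Z/l` be the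
reduction: `π_l ∘ dG` does not factor through `nG`, so `π_l ∘ δ` does not factor through `n`: there is `y'`,
`n y' = 1`, `π_l (δ y') ≠ 1`; `y' ∈ y ^ j Λ'`, so `π_l (δ y) ≠ 1`. Hence `δ y` is a generator of `Z/m`. So `(δ, n)` is onto;
if `δ g = 1`, `n g = 1`: `g ∈ y ^ j Λ'`, `δ (y) ^ j = 1`, `m ∣ j`, `g ∈ Λ'`. -/
def S_cls : Prop := ∀ (m : ℕ) [NeZero m], 2 ≤ m → ∀ (Λ : Type) [Group Λ] [Group.FG Λ]
    (Φ : NatBij (Gam m) Λ), ∃ n : Λ →* Multiplicative ℤ,
      ClsZ m Λ (Φ.toFun (Multiplicative (ZMod m)) (dG m)) n ∧ Cyc m Φ n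

/-- [CA nb] natural bijections for fibre products.

Proof. For `θ : Fib d s → Q` we say that `(P, π, e, ρ)` represents `θ` if `P` is a finite group, `π : G → P`,
`e : P → M`, `e ∘ π = d`, `ρ : Fib e s → Q` and `θ (g, z) = ρ (π g, z)` for all `(g, z)`. (a) Every `θ` is represented:
`K = {g | d g = 1 ∧ θ (g, 1) = 1}` is normal (for `h ∈ G` choose `z` with `s z = d h`; `(h g h⁻¹, 1) =
(h, z) (g, 1) (h, z)⁻¹`) and of finite index (it is the kernel of a homomorphism from the subgroup `ker d`, of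
finite index, to the finite group `Q`); `P = G / K`, `ρ ([g], z) = θ (g, z)` is well defined and a homomorphism.
(b) Put `Ψ θ (h, z) = ρ (Φ π h, z)` (`e (Φ π h) = (Φ (e π)) h = d' h = s z`). Independence of the choice: let
`(P_i, π_i, e_i, ρ_i)`, `i = 1, 2`, represent `θ`; for `h ∈ H` there is `g ∈ G` with `π_i g = Φ π_i h` for both `i`
(`range_eq` for `(π_1, π_2) : G → P_1 × P_2` and `nat` for the two projections). If `(h, z) ∈ Fib d' s` then
`d g = e_1 π_1 g = e_1 (Φ π_1 h) = d' h = s z`, and `ρ_i (Φ π_i h, z) = θ (g, z)`. So `Ψ θ` is characterised by: it has the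
value `ρ (Φ π h, z)` for every representation. It is a homomorphism; `f ∘ θ` is represented by `(P, π, e, f ∘ ρ)`:
`nat`. (c) The inverse is the same construction for `Φ.symm` (`Φ.symm d' = d` by `left_inv`; to avoid
trouble with the types prove the construction as a lemma for arbitrary `d, d'` with a hypothesis
`Φ.toFun M d = d'`): if `(P, π, e, ρ)` represents `θ` then `(P, Φ π, e, ρ)` represents `Ψ θ`.
(d) The three properties: `θ ∘ f1` is represented by `(Q × M, (θ, d), snd, fst ∘ f1)`, `f2` by `(M, d, id, f2)`, and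
`Ψ θ (1, z) = ρ (1, z) = θ (1, z)`. -/
def S_nb : Prop := ∀ (G H M M' : Type) [Group G] [Group H] [Group M] [Finite M] [Group M']
    [Finite M'] (Φ : NatBij G H) (d : G →* M) (d' : H →* M) (s : M' →* M), Φ.toFun M d = d' →
    Function.Surjective s → ∃ Ψ : NatBij (Fib d s) (Fib d' s),
      (∀ (Q : Type) [Group Q] [Finite Q] (θ : G →* Q),
        Ψ.toFun Q (θ.comp (f1 d s)) = (Φ.toFun Q θ).comp (f1 d' s)) ∧
      Ψ.toFun M' (f2 d s) = f2 d' s ∧
      ∀ (Q : Type) [Group Q] [Finite Q] (θ : Fib d s →* Q) (z : M') (h : s z = 1),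
        Ψ.toFun Q θ (Fib.mk d' s 1 z (by rw [map_one, h])) =
          θ (Fib.mk d s 1 z (by rw [map_one, h]))

/-- [CA ex] elementary facts on the central extension.

Proof. `cc` is central (`(1, m)`, and `Multiplicative (ZMod (2 m))` is commutative), `2 m = 0` in `ZMod (2 m)`.
`FG`: `Ext m δ` has finite index in the finitely generated group `Λ × Z/2m` (it is the kernel of
`(l, a) ↦ δ l * (sq a)⁻¹` with values in the commutative finite group `Z/m`), Schreier's lemma. Kernel of `e1`: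
`sq a = 1` means `a ∈ {0, m}`. `e1` is onto because `sq` is onto. Commutators: if `e2 g = 1`, `n (e1 g) = 1`
then `δ (e1 g) = sq (e2 g) = 1`, so `e1 g ∈ Λ'`; `{x ∈ commutator (Ext m δ) | e2 x = 1}` maps onto `Λ'` (commutators of
elements of `Λ` lift to commutators, whose `e2` is `1`), so there is `x` in the commutator subgroup with
`e1 x = e1 g`, `e2 x = 1 = e2 g`, `x = g`. Last: for given `a ∈ ℕ`, `i ∈ ℤ` choose `l` with `(δ, n) l = (a mod m, i)`. -/
def S_ex : Prop := ∀ (m : ℕ) [NeZero m] (Λ : Type) [Group Λ]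
    (δ : Λ →* Multiplicative (ZMod m)),
    (∀ g, cc m δ * g = g * cc m δ) ∧ cc m δ * cc m δ = 1 ∧ e1 m δ (cc m δ) = 1 ∧
    ev m δ (cc m δ) = m ∧ (∀ g, e1 m δ g = 1 → g = 1 ∨ g = cc m δ) ∧
    Function.Surjective (e1 m δ) ∧ Function.Surjective (sq m) ∧
    (Group.FG Λ → Group.FG (Ext m δ)) ∧
    ∀ n : Λ →* Multiplicative ℤ, ClsZ m Λ δ n →
      (∀ g, e2 m δ g = 1 → n (e1 m δ g) = 1 → g ∈ commutator (Ext m δ)) ∧
      ∀ (a : ℕ) (i : ℤ), ∃ g : Ext m δ, e2 m δ g = Multiplicative.ofAdd (a : ZMod (2 * m)) ∧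
        n (e1 m δ g) = Multiplicative.ofAdd i

/-- [CA gam] pseudo-characters of the extension of `C_m * Z` and of the free group.

Proof. `π` is the homomorphism with `gx ↦ ug m`, `gy ↦ tg m`. `ug m ^ m = cc m` (first component `inl (ofAdd 1) ^ m =
inl (ofAdd m) = 1`). Onto: `f1 ∘ π : Fr → Gam m` is onto (`inl (ofAdd 1)`, `inr (ofAdd 1)` generate; e.g.
`Monoid.Coprod` induction, `Multiplicative (ZMod m)` is generated by `ofAdd 1`); for `(g, a)` choose `w` with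
`f1 (π w) = g`; `(g, a) (π w)⁻¹ = (1, a')`, `sq a' = 1`, `a' ∈ {0, m}`, and `(1, m) = π (gx ^ m)`.
Kernel of `f1 ∘ π` = normal closure `N` of `gx ^ m`: `Gam m` maps to `Fr / N` (`Monoid.Coprod.lift`,
`ofAdd 1 ↦ [gx]`, which has `[gx] ^ m = 1`, and `ofAdd 1 ↦ [gy]`), inverse to `Fr / N → Gam m`.
Descent: let `K` be the set of the `w ∈ Fr` for which there is `j : ℤ` with `f2 (π w) = ofAdd (j m)` and
`T (v * w) = (-1) ^ j T v` for all `v` (say `(-1) ^ j` as a unit of `ℤ` acting on `R`). `K` is a normal subgroup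
(`T (v * g w g⁻¹) = T (g⁻¹ v g * w)`, `T` is a class function: `PC.comm`) and contains `gx ^ m` (`j = 1`:
`T (v * gx ^ m) = T (gx ^ m * v) = -T v`), so it contains `N`. If `π w = 1` then `w ∈ N`, `j m = 0` in `ZMod (2 m)`, so
`j` is even and `T (v * w) = T v`. So `T' (π v) = T v` is well defined, and a pseudo-character. -/
def S_gam : Prop := ∀ (m : ℕ) [NeZero m], ∃ π : Fr →* Ext m (dG m), Function.Surjective π ∧
    π gx = ug m ∧ π gy = tg m ∧ π (gx ^ m) = cc m (dG m) ∧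
    ∀ (R : Type) [CommRing R] (T : Fr → R), PC T → (∀ g, T (gx ^ m * g) = -T g) →
      ∃ T' : Ext m (dG m) → R, PC T' ∧ ∀ w, T' (π w) = T w

/-! ## Part 2: roots of unity -/

/-- [CA ze] a prime number and a root of unity.

Proof. Dirichlet (`Nat.forall_exists_prime_gt_and_eq_mod` in
`Mathlib/NumberTheory/LSeries/PrimesInAP.lean`) for the class `-1` modulo `2 m`, `p > 2 m`. For `k` algebraically
closed of characteristic `p` not dividing `2 m` there is a primitive `2m`-th root of unity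
(`HasEnoughRootsOfUnity` or `IsAlgClosed` and the separable polynomial `X ^ (2 m) - 1`). -/
def S_ze : Prop := (∀ m : ℕ, 0 < m → ∃ p : ℕ, p.Prime ∧ p ≠ 2 ∧ 2 * m ∣ p + 1) ∧
    ∀ (m p : ℕ) [Fact p.Prime], 0 < m → 2 * m ∣ p + 1 → ¬ p ∣ m ∧
      ∀ (k : Type) [Field k] [CharP k p] [IsAlgClosed k], ∃ ζ : kˣ, orderOf ζ = 2 * m

/-- [CA wj] the numbers `x j = ζ ^ j + ζ ^ (-j)`.

Proof. `ζ ^ p = ζ⁻¹` as `2 m ∣ p + 1`, so `ζ ^ j + ζ ^ (-j)` is fixed by the Frobenius, hence in the image of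
`ZMod p` (`y ^ p = y` has exactly the `p` solutions in the prime field). `x j = x i`: then
`(ζ ^ i - ζ ^ j) (1 - ζ ^ (-i - j)) = 0` (over `k`), so `2 m ∣ i - j` or `2 m ∣ i + j`; for `0 ≤ i, j ≤ m` this
gives `i = j`. `x m = -2` as `ζ ^ m = -1` (`ζ ^ m` has order two). `cheb`: `C_(n+2) = X C_(n+1) - C_n`. `cm`:
`C_m (ζ ^ j + ζ ^ (-j)) = ζ ^ (j m) + ζ ^ (-j m) = 2 (-1) ^ j`. `s1`: with `X = ζ ^ j + ζ ^ (-j)`, `j` odd, `j < m`:
`(ζ ^ j - ζ ^ (-j)) S_n (X) = ζ ^ (j (n+1)) - ζ ^ (-j (n+1))` (`Polynomial.Chebyshev.S`; induction), `ζ ^ j ≠ ζ ^ (-j)`,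
`ζ ^ (j m) = -1`; so `S_(m-1) (X) = 0` and `(ζ ^ j - ζ ^ (-j)) S_(m-2) (X) = ζ ^ (j m - j) - ζ ^ (j - j m) =
-ζ ^ (-j) + ζ ^ j`. `prod`: `S_(m-1) * (X ^ 2 - 4)` is monic of degree `m + 1` (`S_n` is monic of degree `n` for
`n ≥ 0`; `m ≥ 1`) and vanishes at the `m + 1` distinct elements `x 0, .., x m`: for `X = ζ ^ j + ζ ^ (-j)`,
`X ^ 2 - 4 = (ζ ^ j - ζ ^ (-j)) ^ 2` and `(ζ ^ j - ζ ^ (-j)) S_(m-1) (X) = ζ ^ (j m) - ζ ^ (-j m) = 0`. -/
def S_wj : Prop := ∀ (p m : ℕ) [Fact p.Prime], 2 ≤ m → p ≠ 2 → 2 * m ∣ p + 1 →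
    ∀ (k : Type) [Field k] [CharP k p] (ζ : kˣ), orderOf ζ = 2 * m →
    ∃ x : ℕ → ZMod p, WJ p m x ∧
      ∀ j : ℕ, ZMod.castHom (dvd_refl p) k (x j) = (ζ : k) ^ j + ((ζ⁻¹ : kˣ) : k) ^ j

/-! ## Part 3: pseudo-characters and universal rings -/

/-- [CA rec] powers in the argument of a pseudo-character.

Proof. `T (x ^ (j+2) h) = T x T (x ^ (j+1) h) - T (x ^ j h)` (`PC.rel` for the pair `x ^ (j+1) h`, `x` in a suitable
order: `T (x (x ^ (j+1) h)) + T ((x ^ (j+1) h) x⁻¹) = ..` and `T (x ^ (j+1) h x⁻¹) = T (x ^ j h)`, `T` is a class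
function), induction with `Polynomial.Chebyshev.S_add_two`, `C_add_two`; `S (-1) = 0`, `S (-2) = -1`. -/
def S_rec : Prop := ∀ (G R : Type) [Group G] [CommRing R] (T : G → R), PC T → ∀ (x : G) (j : ℕ),
    (∀ h : G, T (x ^ j * h) =
      (Polynomial.Chebyshev.S R ((j : ℤ) - 1)).eval (T x) * T (x * h) -
        (Polynomial.Chebyshev.S R ((j : ℤ) - 2)).eval (T x) * T h) ∧
    T (x ^ j) = (Polynomial.Chebyshev.C R (j : ℤ)).eval (T x)

/-- [CA neg] central elements with `T c = -2`, and scalar pseudo-characters.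

Proof. (1) `T (c g) + T (c g⁻¹) = T c T g = -2 T g` and `T (c g⁻¹) = T ((c g)⁻¹) = T (c g)` (`T (x⁻¹) = T x` for a
pseudo-character: `rel` for the pair `(1, x)`: `T x + T x⁻¹ = 2 T x`; `c` is central, `c = c⁻¹`). So
`2 (T (c g) + T g) = 0`, `2` is invertible. (2) `(-1) ^ (a + b) = (-1) ^ a (-1) ^ b` also for `a, b ∈ ZMod (2 m)` (the
parity of `val` is additive because `2 m` is even), `Polynomial.Chebyshev.C_mul_C`, `C_neg`:
`C_i C_j = C_(i+j) + C_(i-j)`. `m` odd: `ev (cc) = m`, `C_0 = 2`. -/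
def S_neg : Prop :=
  (∀ (G R : Type) [Group G] [CommRing R] (T : G → R) (c : G), IsUnit (2 : R) → PC T →
    (∀ g, c * g = g * c) → c * c = 1 → T c = -2 → ∀ g, T (c * g) = -T g) ∧
  ∀ (p m : ℕ) [Fact p.Prime] [NeZero m] (Λ : Type) [Group Λ]
    (δ : Λ →* Multiplicative (ZMod m)) (n : Λ →* Multiplicative ℤ),
    PC (Tsc p m δ n) ∧ (m % 2 = 1 → Tsc p m δ n (cc m δ) = -2)

/-- [CA cut] the idempotents of the types. (Uses `S_rec`.)

Proof. Let `X = T g`, `s = S_(m-1) (X)`, `s' = S_(m-2) (X)` (`eval (T g)` of the Chebyshev polynomials over `R`;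
they are the images of those over `ZMod p`, `Polynomial.Chebyshev.map_S`). By `S_rec` with `j = m`:
`s T (g h) - s' T h = -T h`. `h = 1`: `s X = 2 (s' - 1)`; `h = g`: `s (X ^ 2 - 2) = (s' - 1) X`
(`T (g g) = X ^ 2 - 2`). So `2 s (X ^ 2 - 2) = s X ^ 2`, `s (X ^ 2 - 4) = 0`, and by `WJ.prod` the product of the
`X - x_j`, `0 ≤ j ≤ m`, is `0` (`x_j` mapped to `R`). Lagrange: `e_i = ∏ j ≠ i, (X - x_j) / (x_i - x_j)` (the
differences are units of `ZMod p` by `WJ.ne`); `e_i (X - x_i) = 0`, so `e_i f(X) = e_i f(x_i)` for all polynomials `f`,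
`e_i e_j = e_i e_j(x_i) = 0` for `i ≠ j`, `e_i e_i = e_i`; `∑ e_i = 1` (`Lagrange.sum_basis` over `ZMod p`, mapped to
`R` by `aeval X`). `i` even: `T (g ^ m) = C_m (X)` and `T (g ^ m) = -T 1 = -2`, so `-2 e_i = e_i C_m (x_i) = 2 e_i`
(`WJ.cm`), `4 e_i = 0`, `e_i = 0` (`p ≠ 2`). Last statement: if `m` is even `e_m = 0`. `m` odd: `x_m = -2`,
`S_(m-1) (-2) = m`, `S_(m-2) (-2) = -(m - 1)` (`Polynomial.Chebyshev.S_eval_neg_two`), so
`e_m (m T (g h) + (m - 1) T h) = -e_m T h`, `m e_m (T (g h) + T h) = 0`, and `m` is invertible in `ZMod p`. -/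
def S_cut : Prop := ∀ (p m : ℕ) [Fact p.Prime] (x : ℕ → ZMod p), p ≠ 2 → 2 ≤ m → ¬ p ∣ m →
    WJ p m x → ∀ (G R : Type) [Group G] [CommRing R] [Algebra (ZMod p) R] (T : G → R) (g : G),
    PC T → (∀ h, T (g ^ m * h) = -T h) → ∃ e : Fin (m + 1) → R, (∀ i, e i * e i = e i) ∧
      (∀ i j, i ≠ j → e i * e j = 0) ∧ ∑ i, e i = 1 ∧
      (∀ i, e i * T g = e i * algebraMap (ZMod p) R (x i)) ∧ (∀ i : Fin (m + 1), (i : ℕ) % 2 = 0 → e i = 0) ∧
      ∀ h, e (Fin.last m) * (T (g * h) + T h) = 0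

/-- [CA agt] the pseudo-character with values in the explicit ring. (Uses `S_gam`, `S_rec`, `S_neg`.)

Proof. For `j ∈ JJ m` let `φ_j : MvPolynomial (Fin 3) (ZMod p) → Pol p 2` be the evaluation at
`![C (x j), X 0, X 1]` and `T_j = φ_j ∘ TA` (`F2.t_tapc`), a pseudo-character of `Fr`. By `S_rec` with `j = m` and
`WJ.s1` (map the polynomials `S` from `ZMod p` to `Pol p 2`): `T_j (gx ^ m h) = 0 * T_j (gx h) - 1 * T_j h = -T_j h`, so
`S_gam` gives a pseudo-character `T_j'` of `Ext m (dG m)` with `T_j' (π w) = T_j w`. Put `T g = (j ↦ T_j' g, s ↦ Tsc g)`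
(`S_neg`; if `m` is even there is no `s`). `T cc`: `cc = π (gx ^ m)`, `T_j (gx ^ m) = -T_j 1 = -2`. The values at
`ug = π gx`, `tg = π gy`, `ug tg = π (gx gy)` from `F2.IsTA`. -/
def S_agt : Prop := ∀ (p m : ℕ) [Fact p.Prime] [NeZero m] (x : ℕ → ZMod p), p ≠ 2 → 2 ≤ m →
    WJ p m x → ∃ T : Ext m (dG m) → AG p m, ValG p m x T

/-- [CA aga] the values generate the explicit ring.

Proof. Let `S` be the subalgebra generated by the values. `ξ = T ug` has the coordinates `C (x j)` (`j` odd,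
`j < m`) and, if `m` is odd, `-1 * C_0 = -2 = x m` (`ev (ug) = 1`, `nG (e1 ug) = 0`); they are distinct constants
(`WJ.ne`), so the idempotents of the coordinates are polynomials in `ξ` (Lagrange), in `S`. The products of
the idempotents with `T tg`, `T (ug tg)` are the `X 0`, `X 1` in the coordinate `j`, resp. `C_1 = X` in the scalar
coordinate (`ev tg = 0`, `nG (e1 tg) = 1`), and `0` elsewhere. These elements generate `AG p m`. -/
def S_aga : Prop := ∀ (p m : ℕ) [Fact p.Prime] [NeZero m] (x : ℕ → ZMod p), p ≠ 2 → 2 ≤ m →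
    WJ p m x → ∀ T : Ext m (dG m) → AG p m, ValG p m x T →
    Algebra.adjoin (ZMod p) (Set.range T) = ⊤

/-- [CA agu] universality. (Uses `S_gam`, `S_cut`, `S_neg`, `S_ex`.)

Proof. Let `T'` be as in `UP.univ`, `X, Y, Z = T' ug, T' tg, T' (ug tg)`. `T' (cc h) = -T' h` (`S_neg`, `2` is a unit in
the `ZMod p`-algebra `R`), `ug ^ m = cc`, so `S_cut` for `g = ug` gives idempotents `e_i`, `0 ≤ i ≤ m`, `e_i = 0` for
even `i`, `∑ e_i = 1`. Define `φ (f, s) = ∑ j ∈ JJ m, e_j * aeval ![Y, Z] (f j) + ∑ t ∈ SS m, e_m * aeval Y (s t)`, an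
algebra homomorphism because the `e_i` (`i` odd, `i ≤ m`) are orthogonal idempotents with sum `1`.
`φ (T (π w)) = T' (π w)` for `w ∈ Fr`: `T' ∘ π` is a pseudo-character of `Fr`, `T' (π w) = ψ (TA w)`,
`ψ : MvPolynomial (Fin 3) (ZMod p) → R` the evaluation at `X, Y, Z` (`F2.t_auniv.1`). For `j ∈ JJ m`:
`e_j * ψ (a) = e_j * aeval ![x_j, Y, Z] a` for all `a` (as `e_j X = e_j x_j`), and `(T (π w)).1 j` is the value of
`TA w` at `![C (x j), X 0, X 1]` (both are pseudo-characters of `Fr` with the same values at `gx, gy, gx gy`: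
`CC.PChar.unique`, see `F2/GB`), so `e_j T' (π w) = e_j * aeval ![Y, Z] ((T (π w)).1 j)`. For `m` odd: in
`R_m = R / (1 - e_m)` both `w ↦ [T' (π w)]` and `w ↦ [aeval Y (Tsc (π w))]` are pseudo-characters of `Fr`, with the
values `-2, Y, -Y` at `gx, gy, gx gy` (`e_m (T' (ug h) + T' h) = 0` from `S_cut` with `h = 1, tg`), so they are
equal: `e_m T' (π w) = e_m aeval Y (..)` (`a ∈ (1 - e_m)` implies `e_m a = 0`). Sum up. -/
def S_agu : Prop := ∀ (p m : ℕ) [Fact p.Prime] [NeZero m] (x : ℕ → ZMod p), p ≠ 2 → 2 ≤ m →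
    ¬ p ∣ m → WJ p m x → ∀ T : Ext m (dG m) → AG p m, ValG p m x T →
    ∀ (R : Type) [CommRing R] [Algebra (ZMod p) R] (T' : Ext m (dG m) → R), PC T' →
      T' (cc m (dG m)) = -2 → ∃ φ : AG p m →ₐ[ZMod p] R, ∀ g, φ (T g) = T' g

/-- [CA um] existence of universal rings.

Proof. `A = MvPolynomial G F ⧸ span (relS F G ∪ {X c + 2})` (`F2.relS`), as in `F2/GB/uni.lean` (`F2.t_uni`); or the
quotient of `F2.Uni F G` by the ideal generated by `tu c + 2`. Finite type: a quotient of `Uni F G`, which is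
of finite type for finitely generated `G` (`F2.t_uni.2`). -/
def S_um : Prop := ∀ (F : Type) [Field F] (G : Type) [Group G] [Group.FG G] (c : G),
    ∃ (A : Type) (_ : CommRing A) (_ : Algebra F A) (T : G → A),
      UP F G c A T ∧ Algebra.FiniteType F A

/-- [CA evg] transfer of the universal ring.

Proof. The same as for `F2.S_ev` (proof in `F2/GB/ev.lean`), with `TA` instead of the trace polynomials of
Fricke. For `J` of finite index put `T_J g = [TA g] ∈ A/J`, a pseudo-character with values in a finite ring;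
let `T_J'` with `Corr Φ T_J T_J'` (`F2.t_corrpc`), `T_J' c' = -2` (if `T_J = τ ∘ π`, `T_J' = τ ∘ Φ π`, then
`T_J' c' = τ (Φ π c') = τ (π c) = T_J c`), and `ev J` the homomorphism with `ev J (TB l) = T_J' l`. `surj`: joint values
(`F2.t_corr`); `compat`: functionality. `E = {a ∈ A | ∃ b, ev J b = [a]_J ∧ ev J' b = [a]_J'}` is a subalgebra
containing the values of `TA`, so it is `A`: this gives `inj`. `fin`: an ideal `I` of finite index of `B`:
`T' l = [TB l] ∈ B/I` corresponds to a pseudo-character `T : G → B/I` with `T c = -2`, `T = φ ∘ TA`, `J = ker φ`, etc.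
`sep`: `F2.t_rf` and `fin`. -/
def S_evg : Prop := ∀ (p : ℕ) [Fact p.Prime] (G H : Type) [Group G] [Group H] [Group.FG G]
    [Group.FG H] (Φ : NatBij G H) (c : G) (c' : H),
    (∀ (Q : Type) [Group Q] [Finite Q] (θ : G →* Q), Φ.toFun Q θ c' = θ c) →
    ∀ (A B : Type) [CommRing A] [CommRing B] [Algebra (ZMod p) A] [Algebra (ZMod p) B]
      (TA : G → A) (TB : H → B), UP (ZMod p) G c A TA → UP (ZMod p) H c' B TB →
      Algebra.FiniteType (ZMod p) B →
      ∃ ev : ∀ J : {J : Ideal A // Finite (A ⧸ J)}, B →ₐ[ZMod p] A ⧸ J.1, IsTR p A B ev ∧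
        ∀ J, Corr Φ (fun g => Ideal.Quotient.mk J.1 (TA g)) (fun h => ev J (TB h))

/-! ## Part 4: generalities on `IsTR` -/

/-- [CA pow] order and products.

Proof. Let `E = {a ∈ A | ∃ b, ev J b = [a]_J ∧ ev J' b = [a]_J'}`. (1) `←`: `compat`. `→`: let `J'' = J ⊓ J'`, of
finite index; `ker (ev J'') = ker (ev J) ⊓ ker (ev J')` (`compat` and injectivity of `A/J'' → A/J × A/J'`)
`= ker (ev J)`, so `J'' = J` (`inj`). (2) `B / ker (ev J) ≃ A / J`. (3) Let `I_i = ker (ev J_i)`, `J = J_1 J_2`.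
`I_1 I_2` has finite index (`B` is Noetherian and `B / I_i` finite), `I_1 I_2 = ker (ev J')` (`fin`).
`J ≤ J'`: for `a_i ∈ J_i` choose `b_i` with `ev J' b_i = [a_i]` (`surj`); `J' ≤ J_i` by (1) (`I_1 I_2 ≤ I_i`), so
`ev J_i b_i = [a_i] = 0`, `b_1 b_2 ∈ I_1 I_2 = ker (ev J')`, so `a_1 a_2 ∈ J'`. `J' ≤ J`: by (1) it is enough
that `I_1 I_2 ≤ ker (ev J)`: for `b_i ∈ I_i` choose `a_i` with `ev J b_i = [a_i]`; `J ≤ J_i` gives `a_i ∈ J_i`, so
`ev J (b_1 b_2) = [a_1 a_2] = 0`. (4) The same proof with `fpow p` (see `F2/TF/P/a2.lean`). (5) `A / J` is a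
field iff `B / ker (ev J)` is. -/
def S_pow : Prop := ∀ (p : ℕ) [Fact p.Prime] (A B : Type) [CommRing A] [CommRing B]
    [Algebra (ZMod p) A] [Algebra (ZMod p) B]
    (ev : ∀ J : {J : Ideal A // Finite (A ⧸ J)}, B →ₐ[ZMod p] A ⧸ J.1), IsTR p A B ev →
    (∀ J J', RingHom.ker (ev J) ≤ RingHom.ker (ev J') ↔ J.1 ≤ J'.1) ∧
    (∀ J, Nat.card (B ⧸ RingHom.ker (ev J)) = Nat.card (A ⧸ J.1)) ∧
    (∀ (J₁ J₂ : {J : Ideal A // Finite (A ⧸ J)}) (h : Finite (A ⧸ J₁.1 * J₂.1)),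
      RingHom.ker (ev ⟨J₁.1 * J₂.1, h⟩) = RingHom.ker (ev J₁) * RingHom.ker (ev J₂)) ∧
    (∀ (J : {J : Ideal A // Finite (A ⧸ J)}) (h : Finite (A ⧸ fpow p J.1)),
      RingHom.ker (ev ⟨fpow p J.1, h⟩) = fpow p (RingHom.ker (ev J))) ∧
    ∀ J : {J : Ideal A // Finite (A ⧸ J)}, J.1.IsMaximal ↔ (RingHom.ker (ev J)).IsMaximal

/-- [CA cntg] the count. (Uses `S_pow`.)

Proof. As in `F2/TF/P/a2.lean` (`F2TF.S_count`): `fpow (p ^ (n+1)) I = fpow p (fpow (p ^ n) I)`, `S_pow`. -/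
def S_cntg : Prop := ∀ (p : ℕ) [Fact p.Prime] (A B : Type) [CommRing A] [CommRing B]
    [Algebra (ZMod p) A] [Algebra (ZMod p) B]
    (ev : ∀ J : {J : Ideal A // Finite (A ⧸ J)}, B →ₐ[ZMod p] A ⧸ J.1), IsTR p A B ev →
    ∀ d : ℕ, (∀ J : Ideal A, Finite (A ⧸ J) → Finite (A ⧸ fpow p J) ∧
      Nat.card (A ⧸ fpow p J) = Nat.card (A ⧸ J) ^ (p ^ d)) →
    ∀ I : Ideal B, Finite (B ⧸ I) → ∀ n : ℕ, Finite (B ⧸ fpow (p ^ n) I) ∧
      Nat.card (B ⧸ fpow (p ^ n) I) = Nat.card (B ⧸ I) ^ (p ^ (d * n))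

/-- [CA ptsg] points correspond.

Proof. As in `F2/TF/P/a3.lean` (`F2TF.S_points`): a homomorphism `x : B → K` with `x b ^ (p ^ n) = x b` has finite
image, `ker x = ker (ev J)` for a unique `J`, `x = x' ∘ ev J`, `χ = x' ∘ mk J`; and conversely. -/
def S_ptsg : Prop := ∀ (p : ℕ) [Fact p.Prime] (A B : Type) [CommRing A] [CommRing B]
    [Algebra (ZMod p) A] [Algebra (ZMod p) B]
    (ev : ∀ J : {J : Ideal A // Finite (A ⧸ J)}, B →ₐ[ZMod p] A ⧸ J.1), IsTR p A B ev →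
    ∀ (K : Type) [Field K] [CharP K p] (n : ℕ), n ≠ 0 →
      Nat.card {x : B →+* K // ∀ b, x b ^ (p ^ n) = x b} =
        Nat.card {x : A →+* K // ∀ b, x b ^ (p ^ n) = x b}

/-- [CA ca] products of polynomial rings.

Proof. Ideals of a finite product of rings are products of ideals (`J = ∏ J_i`, `J_i` the image under the
projection; use the idempotents `Pi.single i 1`), `fpow p (∏ J_i) = ∏ fpow p (J_i)` (in characteristic `p`:
`a ∈ J` has `a ^ p = ∑ (Pi.single i (a i)) ^ p`), `(∏ A_i) / (∏ J_i) = ∏ A_i / J_i`; `F2TF.compcard`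
(`F2/TF/Main.lean`) for every factor. Points: a homomorphism `∏ A_i → K` to a field factors through exactly
one projection; for `Pol p d` there are `(p ^ n) ^ d` (a choice of `d` elements `c` with `c ^ (p ^ n) = c`, of which
there are `p ^ n`: `F2TF.card_fset`; see step (1) of the docstring of `F2TF.S_points`). -/
def S_ca : Prop := ∀ (p d : ℕ) [Fact p.Prime] (ι : Type) [Finite ι],
    (∀ J : Ideal (ι → Pol p d), Finite ((ι → Pol p d) ⧸ J) → Finite ((ι → Pol p d) ⧸ fpow p J) ∧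
      Nat.card ((ι → Pol p d) ⧸ fpow p J) = Nat.card ((ι → Pol p d) ⧸ J) ^ (p ^ d)) ∧
    ∀ (K : Type) [Field K] [IsAlgClosed K] [CharP K p] (n : ℕ), n ≠ 0 →
      Nat.card {x : (ι → Pol p d) →+* K // ∀ b, x b ^ (p ^ n) = x b} = Nat.card ι * p ^ (d * n)

/-- [CA idem] removal of a component of dimension one. (Uses `S_pow`.)

Proof. `I = ker κ`, finitely generated. Suppose that the ideal `Ann(I) + I` is contained in a maximal ideal `M` of
`B`. `B/M` is finite (`F2.t_rf`), `M = ker (ev N)`, `N` maximal (`S_pow`), and `(1, 0) ∈ N` by hypothesis as `I ≤ M`. So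
`N = ⊤ × N_1`, `N_1 ⊂ F_p[X]` maximal, with `q` elements in the residue field; `N ^ j = ⊤ × N_1 ^ j`,
`|A / N ^ j| = |F_p[X] / N_1 ^ j| = q ^ j` (`F_p[X]` is a principal ideal domain). So `|B / M ^ j| = q ^ j` (`S_pow`, by
induction), `|B / M| = q`. `B / (I + M ^ j) = F_p[X] / κ(M) ^ j` (`κ` is onto), `κ(M)` is maximal with residue
field `B / M`, so it also has `q ^ j` elements. Hence `I ≤ M ^ j` for all `j`. By Krull's intersection theorem
(`Ideal.mem_iInf_smul_pow_eq_bot_iff` and finite generation, or localisation at `M`) there is `r ∈ M` with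
`(1 - r) I = 0`: `1 - r ∈ Ann(I) ≤ M`, contradiction. So there is `e ∈ Ann(I)` with `e - 1 ∈ I`. -/
def S_idem : Prop := ∀ (p : ℕ) [Fact p.Prime] (A B : Type) [CommRing A] [CommRing B]
    [Algebra (ZMod p) A] [Algebra (ZMod p) B] [Algebra.FiniteType (ZMod p) A]
    (ev : ∀ J : {J : Ideal (A × Polynomial (ZMod p)) // Finite ((A × Polynomial (ZMod p)) ⧸ J)},
      B →ₐ[ZMod p] (A × Polynomial (ZMod p)) ⧸ J.1), IsTR p (A × Polynomial (ZMod p)) B ev →
    ∀ κ : B →ₐ[ZMod p] Polynomial (ZMod p), Function.Surjective κ →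
    (∀ J, ((1 : A), (0 : Polynomial (ZMod p))) ∈ J.1 ↔ RingHom.ker κ ≤ RingHom.ker (ev J)) →
    ∃ e : B, (∀ i, κ i = 0 → e * i = 0) ∧ κ e = 1

/-- [CA ecnd] the idempotent kills exactly the right ideals. (Uses `S_pow`.)

Proof. `I = ker κ`, `e - 1 ∈ I`, `e I = 0`, so `e e = e`. `←`: let `(0, 1) ∈ J` and suppose `ev J e ≠ 0`. It is a
nonzero idempotent of the finite ring `A/J`, so it is not in some maximal ideal; let `N ⊇ J` be the
corresponding maximal ideal of `A₂ × A₁`: `ev N e ≠ 0` (`compat`), `M = ker (ev N)` is prime, `e ∉ M`, `e I = 0 ≤ M`, so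
`I ≤ M`, so `(1, 0) ∈ N` by hypothesis, and `(0, 1) ∈ J ≤ N`: `1 ∈ N`, contradiction. `→`: let `ev J e = 0` and suppose
`(0, 1) ∉ J`. There is a maximal ideal `N ⊇ J` with `(0, 1) ∉ N` (idempotent of `A/J`), so `(1, 0) ∈ N`
(`(1, 0) (0, 1) = 0`), so `I ≤ M = ker (ev N)`; `e ∈ ker (ev J) ≤ M` and `e - 1 ∈ I ≤ M`: contradiction. -/
def S_ecnd : Prop := ∀ (p : ℕ) [Fact p.Prime] (A A' B : Type) [CommRing A] [CommRing A']
    [CommRing B] [Algebra (ZMod p) A] [Algebra (ZMod p) A'] [Algebra (ZMod p) B]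
    (ev : ∀ J : {J : Ideal (A × A') // Finite ((A × A') ⧸ J)}, B →ₐ[ZMod p] (A × A') ⧸ J.1),
    IsTR p (A × A') B ev → ∀ (I : Ideal B) (e : B), e - 1 ∈ I → (∀ i ∈ I, e * i = 0) →
    (∀ J, ((1 : A), (0 : A')) ∈ J.1 ↔ I ≤ RingHom.ker (ev J)) →
    ∀ J, ev J e = 0 ↔ ((0 : A), (1 : A')) ∈ J.1

/-- [CA tr2] restriction to a component.

Proof. For an ideal `J` of finite index of `A` let `J' = J × ⊤` (the comap under `fst`), `(A × A') / J' = A / J`;
`ev J' e = 0`, so `ev J'` gives `ev2 J : B/(e) → A/J` with `ev2 J [b] = [a.1]` if `ev J' b = [a]`. `surj`, `compat`, `inj` are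
clear (`J ↦ J'` is injective). `fin`: an ideal `I` of finite index of `B/(e)`; its preimage is `ker (ev J'')`,
`ev J'' e = 0`, so `(0, 1) ∈ J''`, so `J'' = J × ⊤` for `J` = the image of `J''` under `fst`. `sep`: `B/(e)` is a finitely
generated algebra, so residually finite (`F2.t_rf`): if `[b] ≠ 0` there is an ideal `I` of finite index not
containing it, `I = ker (ev2 J)`. -/
def S_tr2 : Prop := ∀ (p : ℕ) [Fact p.Prime] (A A' B : Type) [CommRing A] [CommRing A']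
    [CommRing B] [Algebra (ZMod p) A] [Algebra (ZMod p) A'] [Algebra (ZMod p) B]
    (ev : ∀ J : {J : Ideal (A × A') // Finite ((A × A') ⧸ J)}, B →ₐ[ZMod p] (A × A') ⧸ J.1),
    IsTR p (A × A') B ev → ∀ e : B, (∀ J, ev J e = 0 ↔ ((0 : A), (1 : A')) ∈ J.1) →
    ∃ ev2 : ∀ J : {J : Ideal A // Finite (A ⧸ J)}, (B ⧸ Ideal.span {e}) →ₐ[ZMod p] A ⧸ J.1,
      IsTR p A (B ⧸ Ideal.span {e}) ev2 ∧
      ∀ (J : {J : Ideal A // Finite (A ⧸ J)}) (J' : {J : Ideal (A × A') // Finite ((A × A') ⧸ J)}),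
        J'.1 = J.1.comap (RingHom.fst A A') → ∀ (b : B) (a : A × A'),
        ev J' b = Ideal.Quotient.mk J'.1 a →
        ev2 J (Ideal.Quotient.mk (Ideal.span {e}) b) = Ideal.Quotient.mk J.1 a.1

/-! ## Part 5: the scalar component and the point `s = 1` -/

/-- the data for `C_m * Z` and `Λ` -/
structure CorX (p m : ℕ) [Fact p.Prime] [NeZero m] (x : ℕ → ZMod p) (Λ : Type) [Group Λ]
    (δ : Λ →* Multiplicative (ZMod m)) (n : Λ →* Multiplicative ℤ) (B : Type) [CommRing B]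
    [Algebra (ZMod p) B] (TB : Ext m δ → B) (TA : Ext m (dG m) → AG p m)
    (evv : ∀ J : {J : Ideal (AG p m) // Finite (AG p m ⧸ J)}, B →ₐ[ZMod p] AG p m ⧸ J.1)
    (Φ : NatBij (Gam m) Λ) (Ψ : NatBij (Ext m (dG m)) (Ext m δ)) : Prop where
  hp : p ≠ 2
  hm : 2 ≤ m
  hpm : 2 * m ∣ p + 1
  wj : WJ p m x
  cls : ClsZ m Λ δ n
  cyc : Cyc m Φ n
  val : ValG p m x TA
  upA : UP (ZMod p) (Ext m (dG m)) (cc m (dG m)) (AG p m) TA
  upB : UP (ZMod p) (Ext m δ) (cc m δ) B TB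
  tr : IsTR p (AG p m) B evv
  p1 : ∀ (Q : Type) [Group Q] [Finite Q] (θ : Gam m →* Q),
    Ψ.toFun Q (θ.comp (e1 m (dG m))) = (Φ.toFun Q θ).comp (e1 m δ)
  p2 : Ψ.toFun _ (e2 m (dG m)) = e2 m δ
  corr : ∀ J, Corr Ψ (fun g => Ideal.Quotient.mk J.1 (TA g)) (fun h => evv J (TB h))

/-- [CA sc] scalar ideals correspond (`m` odd). (Uses `S_neg`, `S_ex`.)

Proof. `κ : B → F_p[X]` is a homomorphism with `κ (TB g) = Tsc g` (in the statement it is given). Let
`R = A/J` (`A = AG p m`), finite. (a) `(1, 0) ∈ J` iff `[TA g] = (-1) ^ (ev g) C_(n g) (y)` in `R` for all `g` and some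
`y ∈ R` (`C_i (y)` = `Polynomial.aeval y` of `Chebyshev.C (ZMod p) i`): `→`: `A → A/J` factors through the scalar
component, `y` = class of `X`. `←`: let `R → R/..`: the homomorphism `A → R` given by `UP.univ` for the
pseudo-character `g ↦ (-1) ^ (ev g) C_(n g) (y)` is unique (`adj`), so `mk J` = (`A → F_p[X] → R`, `X ↦ y`), which
kills `(1, 0)`. (b) `ker κ ≤ ker (ev J)` iff `ev J (TB g) = (-1) ^ (ev g) C_(n g) (y')` for all `g` and some `y' ∈ R`:
`→`: `κ` is onto, `ev J` factors through `κ`, `y'` = image of `X`. `←`: `ev J` and `aeval y' ∘ κ` agree on the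
generators `TB g`. (c) Equivalence of the two conditions. Let `R' = AdjoinRoot` of `s ^ 2 - y s + 1` over `R` (free of
rank two, finite, `R → R'` injective), `s` a unit (`s (y - s) = 1`), `C_i (y) = s ^ i + s ^ (-i)` in `R'`. Let
`q : Z → R'ˣ`, `q 1 = s`, `ψ = q ∘ nG : Gam m → R'ˣ`. By `cyc` `Φ ψ = q' ∘ n`, `q' 1 = s'`. The function `[TA g]`, mapped to
`R'`, is `F (ψ (e1 g), e2 g)` with `F (u, a) = (-1) ^ (val a) (u + u⁻¹)`; so by `corr`, `p1`, `p2` (`Corr` is functional: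
`F2.t_corr`; the pair `(ψ ∘ e1, e2)` is a homomorphism to a finite group and `Ψ` of it is
`(Φ ψ ∘ e1, e2)` by `nat`) `ev J (TB g)` is `(-1) ^ (ev g) (s' ^ n + s' ^ (-n)) = (-1) ^ (ev g) C_(n g) (s' + 1/s')` in
`R'`, and `y' = s' + 1/s'` is the value at `g` with `ev g = 0`, `n g = 1` (`S_ex`), so it is in `R`. The converse
direction in the same way (`cyc` is an equivalence: `q' ∘ n = Φ ψ` for some `ψ = q ∘ nG`). -/
def S_sc : Prop := ∀ (p m : ℕ) [Fact p.Prime] [NeZero m] (x : ℕ → ZMod p) (Λ : Type) [Group Λ]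
    (δ : Λ →* Multiplicative (ZMod m)) (n : Λ →* Multiplicative ℤ) (B : Type) [CommRing B]
    [Algebra (ZMod p) B] (TB : Ext m δ → B) (TA : Ext m (dG m) → AG p m)
    (evv : ∀ J : {J : Ideal (AG p m) // Finite (AG p m ⧸ J)}, B →ₐ[ZMod p] AG p m ⧸ J.1)
    (Φ : NatBij (Gam m) Λ) (Ψ : NatBij (Ext m (dG m)) (Ext m δ)),
    CorX p m x Λ δ n B TB TA evv Φ Ψ → m % 2 = 1 →
    ∀ κ : B →ₐ[ZMod p] Polynomial (ZMod p), (∀ g, κ (TB g) = Tsc p m δ n g) →
    Function.Surjective κ ∧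
    ∀ J, ((1 : A2 p m), (0 : A1 p m)) ∈ J.1 ↔ RingHom.ker κ ≤ RingHom.ker (evv J)

/-- [CA two] the non-scalar part. (Uses `S_sc`, `S_idem`, `S_ecnd`, `S_tr2`, `S_neg`.)

Proof. `m` even: `A1 p m` is the zero ring, `e = 0`: `ev J 0 = 0` and `(0, 1) = 0 ∈ J` for all `J`. `m` odd:
`A1 p m ≃ F_p[X]` (`SS m` has one element; transport `IsTR` along `A2 × A1 ≃ A2 × F_p[X]`, or apply `S_idem` in this
form), `κ` from `UP.univ` for the pseudo-character `Tsc` (`S_neg`), `S_sc`, `S_idem` and `S_ecnd`. Then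
`S_tr2`. -/
def S_two2 : Prop := ∀ (p m : ℕ) [Fact p.Prime] [NeZero m] (x : ℕ → ZMod p) (Λ : Type) [Group Λ]
    (δ : Λ →* Multiplicative (ZMod m)) (n : Λ →* Multiplicative ℤ) (B : Type) [CommRing B]
    [Algebra (ZMod p) B] (TB : Ext m δ → B) (TA : Ext m (dG m) → AG p m)
    (evv : ∀ J : {J : Ideal (AG p m) // Finite (AG p m ⧸ J)}, B →ₐ[ZMod p] AG p m ⧸ J.1)
    (Φ : NatBij (Gam m) Λ) (Ψ : NatBij (Ext m (dG m)) (Ext m δ)),
    CorX p m x Λ δ n B TB TA evv Φ Ψ → ∃ e : B,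
      (∀ J, evv J e = 0 ↔ ((0 : A2 p m), (1 : A1 p m)) ∈ J.1) ∧
      ∃ ev2 : ∀ J : {J : Ideal (A2 p m) // Finite (A2 p m ⧸ J)},
        (B ⧸ Ideal.span {e}) →ₐ[ZMod p] A2 p m ⧸ J.1,
      IsTR p (A2 p m) (B ⧸ Ideal.span {e}) ev2 ∧
      ∀ (J : {J : Ideal (A2 p m) // Finite (A2 p m ⧸ J)})
        (J' : {J : Ideal (AG p m) // Finite (AG p m ⧸ J)}),
        J'.1 = J.1.comap (RingHom.fst (A2 p m) (A1 p m)) → ∀ (b : B) (a : AG p m),
        evv J' b = Ideal.Quotient.mk J'.1 a →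
        ev2 J (Ideal.Quotient.mk (Ideal.span {e}) b) = Ideal.Quotient.mk J.1 a.1

/-- [CA pt] the point `s = 1` of the reducible locus.

Proof. Let `φ_N : A2 p m → ZMod p` be `f ↦ eval ![2, x 1] (f 1)` (the coordinate `j = 1`; `1 < m`), `N = ker φ_N`, and
`φ_A = φ_N ∘ fst : AG p m → ZMod p`. CLAIM: `φ_A (TA g) = x (ev g)` for all `g`. Both sides are pseudo-characters of
`Ext m (dG m)` (`x (a + b) + x (a - b) = x a x b`, `x` has period `2 m`: `WJ.cheb`, `C_mul_C`, `WJ.per`) and they agree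
at `ug, tg, ug tg` (`x 1, 2, x 1`), which generate: `F2.br`/`CC.PChar.unique` (as a generating pair), or use
`UP.adj`. Let `J' = N.comap fst`. The homomorphism `ρ : AG p m / J' → ZMod p` induced by `φ_A` is injective, and by
`corr` and `p2` `ρ (ev J' (TB l)) = x (ev l)` (`x (ev g)` is a function of `e2 g`; functionality of `Corr`). So
`ev J' (TB l) = [x (ev l)]`; `ev2 N [b] = ` the corresponding class: `ker (ev2 N)` is the kernel of the homomorphism
`φ_M : B/(e) → ZMod p`, `φ_M [b] = ρ (ev J' b)`, and `φ_M [TB l] = x (ev l)`. Cardinality: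
`|A2 / N ^ 2| = p ^ 3`: `N = N_1 × ∏ ⊤`, `N_1 = (X 0 - 2, X 1 - x 1) ⊂ F_p[X 0, X 1]`, `N ^ 2 = N_1 ^ 2 × ∏ ⊤`, and
`F_p[X 0, X 1] / N_1 ^ 2` has the basis `1, X 0 - 2, X 1 - x 1` (Taylor expansion; e.g. the map
`f ↦ (f(P), ∂_0 f(P), ∂_1 f(P))` is onto `F_p ^ 3` with kernel `N_1 ^ 2`). By `S_pow` (hypothesis)
`|B/(e) / M ^ 2| = p ^ 3`, `M = ker φ_M`. (Uses `S_pow`.) -/
def S_pt : Prop := ∀ (p m : ℕ) [Fact p.Prime] [NeZero m] (x : ℕ → ZMod p) (Λ : Type) [Group Λ]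
    (δ : Λ →* Multiplicative (ZMod m)) (n : Λ →* Multiplicative ℤ) (B : Type) [CommRing B]
    [Algebra (ZMod p) B] (TB : Ext m δ → B) (TA : Ext m (dG m) → AG p m)
    (evv : ∀ J : {J : Ideal (AG p m) // Finite (AG p m ⧸ J)}, B →ₐ[ZMod p] AG p m ⧸ J.1)
    (Φ : NatBij (Gam m) Λ) (Ψ : NatBij (Ext m (dG m)) (Ext m δ)),
    CorX p m x Λ δ n B TB TA evv Φ Ψ → ∀ (e : B)
      (ev2 : ∀ J : {J : Ideal (A2 p m) // Finite (A2 p m ⧸ J)},
        (B ⧸ Ideal.span {e}) →ₐ[ZMod p] A2 p m ⧸ J.1),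
      IsTR p (A2 p m) (B ⧸ Ideal.span {e}) ev2 →
      (∀ (J : {J : Ideal (A2 p m) // Finite (A2 p m ⧸ J)})
        (J' : {J : Ideal (AG p m) // Finite (AG p m ⧸ J)}),
        J'.1 = J.1.comap (RingHom.fst (A2 p m) (A1 p m)) → ∀ (b : B) (a : AG p m),
        evv J' b = Ideal.Quotient.mk J'.1 a →
        ev2 J (Ideal.Quotient.mk (Ideal.span {e}) b) = Ideal.Quotient.mk J.1 a.1) →
      ∃ φM : (B ⧸ Ideal.span {e}) →+* ZMod p,
        (∀ g, φM (Ideal.Quotient.mk (Ideal.span {e}) (TB g)) = x (ev m δ g)) ∧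
        Nat.card ((B ⧸ Ideal.span {e}) ⧸ (RingHom.ker φM) ^ 2) = p ^ 3

end Pool.Agent.CZA
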