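import Pool.Agent.Lib.MP_305fdd_al.CZ.A.Stm
import Pool.Agent.Lib.MP_305fdd_al.CZ.A.BDefs

/-!
# MP_305fdd_al (`C_m * Z`), part A: statements and proofs, file L (local computation at one point of
the reducible locus, base change to `k`, the domain `D`)

Every piece may use the statements named in its docstring as hypotheses.
-/

set_option autoImplicit false

namespace Pool.Agent.CZA

open MvPolynomial Pool.Agent.Lib.MP_305fdd_al Pool.Agent.MP_305fdd_al Pool.Agent.CZ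
open Pool.Agent.F2 (PC Corr Fr gx gy rt)
open Pool.Agent.F2TF (Pol fpow)
open Pool.Agent.CC (IsTR)
open scoped TensorProduct

noncomputable section

/-- the value at `s = 1` -/
def aug (k : Type) [Field k] : Ls k →+* k :=
  (AddMonoidAlgebra.lift k k ℤ (1 : Multiplicative ℤ →* k)).toRingHom

/-! ## Part 1: the restriction to the reducible locus over `F_p` -/

/-- [CL rr] the characters of the reducible locus.

Proof. (1) `rr (z z') (n + n') + rr (z / z') (n - n') = rr z n * rr z' n'` (`AddMonoidAlgebra.single_mul_single`), with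
`z = ζ ^ (ev g)`: `ev (g h)` and `ev g + ev h` are congruent modulo `2 m = orderOf ζ`; `g ↦ ζ ^ (ev g)` is a
homomorphism (it factors through `e2`). `cc`: `ζ ^ m = -1`, `rr (-1) 0 = -2`. (2) The homomorphism exists by
`UP.univ`, where `Ls k` is an algebra over `ZMod p` (through `k`). (3) value at `s = 1`:
`aug (rr z n) = z⁻¹ + z`. -/
def S_rr : Prop := ∀ (p m : ℕ) [Fact p.Prime] [NeZero m] (x : ℕ → ZMod p), p ≠ 2 → 2 ≤ m →
    WJ p m x → ∀ (k : Type) [Field k] [CharP k p] (ζ : kˣ), orderOf ζ = 2 * m →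
    (∀ j : ℕ, ZMod.castHom (dvd_refl p) k (x j) = (ζ : k) ^ j + ((ζ⁻¹ : kˣ) : k) ^ j) →
    ∀ (Λ : Type) [Group Λ] (δ : Λ →* Multiplicative (ZMod m)) (n : Λ →* Multiplicative ℤ),
    (∀ g h : Ext m δ, ζ ^ ev m δ (g * h) = ζ ^ ev m δ g * ζ ^ ev m δ h) ∧
    (∀ g : Ext m δ, ζ ^ ev m δ g = 1 ↔ e2 m δ g = 1) ∧
    PC (fun g : Ext m δ => rr (ζ ^ ev m δ g) (Multiplicative.toAdd (n (e1 m δ g)))) ∧
    rr (ζ ^ ev m δ (cc m δ)) (Multiplicative.toAdd (n (e1 m δ (cc m δ)))) = (-2 : Ls k) ∧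
    (∀ (B : Type) [CommRing B] [Algebra (ZMod p) B] (T : Ext m δ → B),
      UP (ZMod p) (Ext m δ) (cc m δ) B T → ∃ r : B →+* Ls k,
        ∀ g, r (T g) = rr (ζ ^ ev m δ g) (Multiplicative.toAdd (n (e1 m δ g)))) ∧
    ∀ g : Ext m δ, aug k (rr (ζ ^ ev m δ g) (Multiplicative.toAdd (n (e1 m δ g)))) =
      ZMod.castHom (dvd_refl p) k (x (ev m δ g))

/-- [CL x1] the two local parameters at the point `s = 1`.

Proof. Write `M = ker φM`, `τ g = T g - x (ev g)` (constants from `ZMod p`), `τ g ∈ M`. As `B` is generated as an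
`F_p`-algebra by the `τ g`, `M = ∑ F_p τ g + M ^ 2` (as additive groups) and `B = F_p + M`. `aug (r b) = φM b` (in `k`) for
all `b` (generators), so `ker r ≤ M`. Let `W = M / (M ^ 2 + ker r)`, an `F_p`-vector space, `D g = [τ g] ∈ W`; `D g`
depends only on `(n, a) = (n (e1 g), e2 g)` because `r (T g)` does. `PC.rel` gives
`D(g h) + D(g h⁻¹) = x(ev h) D(g) + x(ev g) D(h)` (and `x(ev (gh)) + x(ev (gh⁻¹)) = x(ev g) x(ev h)`). By `S_ex` there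
are elements of all classes; write `D(n, a)`. `D(0, a) = 0` (`r (T g) = x a` is constant). Let `α = D(1, 0)`,
`β = D(1, 1)`. `D(2, 0) = 4 α` (`g = h = (1, 0)`, `x 0 = 2`); with `g = (1, 1)`, `h = (1, -1)`:
`D(2, 0) + D(0, 2) = x_1 (D(1, 1) + D(1, -1))`, and `D(1, 1) + D(1, -1) = x_1 D(1, 0)` (`h = (0, 1)`). So
`4 α = x_1 ^ 2 α`, `α = 0` as `x 1 ≠ x 0 = 2`, `x 1 ≠ x m = -2` (`WJ.ne`, `2 ≤ m`). Then `D(1, a + 1) = x_1 D(1, a) -
D(1, a - 1)` and `D(n + 1, a) = 2 D(n, a) - D(n - 1, a)` (`h = (1, 0)`, `α = 0`) show that all `D(n, a) ∈ F_p β`. So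
`|W| ≤ p`. `|B/M| = p` (`φM` is onto `ZMod p`), `|B/M ^ 2| = p ^ 3`, so `|M / M ^ 2| = p ^ 2` and `(M ^ 2 + ker r) / M ^ 2` has at
least `p` elements: there is `x1 ∈ ker r`, `x1 ∉ M ^ 2`. Let `y = τ g` for `g` with `n = 1`, `e2 = 1`:
`r y = ζ⁻¹ s + ζ s⁻¹ - ζ - ζ⁻¹ = (s - 1) v`, `v = ζ⁻¹ - ζ s⁻¹`, `aug v ≠ 0`. Every element of `r (M ^ 2)` is divisible by
`(s - 1) ^ 2` (elements of `r(M)` have `aug = 0`, so are divisible by `s - 1`), so `y ∉ M ^ 2 + ker r`. Hence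
`x1, y` are linearly independent in the two-dimensional space `M / M ^ 2`, a basis. -/
def S_x1 : Prop := ∀ (p m : ℕ) [Fact p.Prime] [NeZero m] (x : ℕ → ZMod p), p ≠ 2 → 2 ≤ m →
    WJ p m x → ∀ (k : Type) [Field k] [CharP k p] (ζ : kˣ), orderOf ζ = 2 * m →
    (∀ j : ℕ, ZMod.castHom (dvd_refl p) k (x j) = (ζ : k) ^ j + ((ζ⁻¹ : kˣ) : k) ^ j) →
    ∀ (Λ : Type) [Group Λ] (δ : Λ →* Multiplicative (ZMod m)) (n : Λ →* Multiplicative ℤ),
    ClsZ m Λ δ n → ∀ (B : Type) [CommRing B] [Algebra (ZMod p) B] (T : Ext m δ → B), PC T →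
    Algebra.adjoin (ZMod p) (Set.range T) = ⊤ → ∀ (r : B →+* Ls k),
    (∀ g, r (T g) = rr (ζ ^ ev m δ g) (Multiplicative.toAdd (n (e1 m δ g)))) →
    ∀ φM : B →+* ZMod p, (∀ g, φM (T g) = x (ev m δ g)) →
    Nat.card (B ⧸ (RingHom.ker φM) ^ 2) = p ^ 3 →
    (∀ b, aug k (r b) = ZMod.castHom (dvd_refl p) k (φM b)) ∧
    ∃ x1 y : B, r x1 = 0 ∧ φM y = 0 ∧
      (∃ v : Ls k, r y = (AddMonoidAlgebra.single 1 1 - 1) * v ∧ aug k v ≠ 0) ∧
      ∀ f, φM f = 0 → f ∈ Ideal.span {x1, y} ⊔ (RingHom.ker φM) ^ 2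

/-- [CL q] the ideal `ker r` is principal near a point with two parameters.

Proof. Nakayama (`Submodule.exists_sub_one_mem_and_smul_eq_zero_of_fg_of_le_smul`): (1) for the module
`M / (x1, y)`: there is `e` with `e - 1 ∈ M`, `e M ≤ (x1, y)`. (2) Let `i ∈ I = ker r` (`≤ M`): `e i = α x1 + β y`,
`0 = r β r y`, so `β ∈ I`. So `i = e i + (1 - e) i ∈ (x1) + M I`, i.e. the finitely generated module `I / (x1)` is `M`
times itself, and there is `q` with `q - 1 ∈ M`, `q I ≤ (x1)`. -/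
def S_q : Prop := ∀ (B S : Type) [CommRing B] [IsNoetherianRing B] [CommRing S] [IsDomain S]
    (r : B →+* S) (M : Ideal B) (x1 y : B), RingHom.ker r ≤ M → r x1 = 0 → y ∈ M → r y ≠ 0 →
    M ≤ Ideal.span {x1, y} ⊔ M ^ 2 →
    (∃ e, e - 1 ∈ M ∧ ∀ f ∈ M, e * f ∈ Ideal.span {x1, y}) ∧
    ∃ q, q - 1 ∈ M ∧ ∀ i, r i = 0 → ∃ c, q * i = x1 * c

/-- [CL cn] counting with nilpotent elements.

Proof. `|B / 𝔞| = ∏ i < n, |(z ^ i) + 𝔞 / (z ^ (i+1)) + 𝔞|`, and every factor is a quotient of `B / ((z) + 𝔞)`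
(multiplication by `z ^ i`). Induction on `n`: `|B / 𝔞| = |B / ((z) + 𝔞)| * |((z) + 𝔞) / 𝔞|` and `b ↦ z b` induces a
surjection `B / (𝔞 : z) → ((z) + 𝔞) / 𝔞`, where `𝔞 : z = {b | z b ∈ 𝔞}` contains `𝔞` and `z ^ (n-1)`; apply the induction
hypothesis to it. Second statement: `|B / 𝔞| = |B / ((b) + 𝔞)| * |((b) + 𝔞) / 𝔞|`, and `((b) + 𝔞) / 𝔞` is the
surjective image of `B / 𝔟` under multiplication by `b` if `b 𝔟 ≤ 𝔞`. -/
def S_cn : Prop := ∀ (B : Type) [CommRing B] (𝔞 : Ideal B), Finite (B ⧸ 𝔞) →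
    (∀ (z : B) (n : ℕ), z ^ n ∈ 𝔞 → Nat.card (B ⧸ 𝔞) ≤ Nat.card (B ⧸ (Ideal.span {z} ⊔ 𝔞)) ^ n) ∧
    ∀ (b : B) (𝔟 : Ideal B), Finite (B ⧸ 𝔟) → (∀ c ∈ 𝔟, b * c ∈ 𝔞) →
      Nat.card (B ⧸ 𝔞) ≤ Nat.card (B ⧸ (Ideal.span {b} ⊔ 𝔞)) * Nat.card (B ⧸ 𝔟)

/-- [CL nn] the parameter `x1` is not nilpotent near the reducible locus. (Uses `S_cn`, `S_q`.)

Proof. Let `M = ker φM`, `e` as in the first part of `S_q` (`M ≤ (x1, y) + M ^ 2` is the last hypothesis;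
`ker r ≤ M` because of `aug (r b) = φM b`; `r y ≠ 0`). (A) For `b` with `r b ≠ 0` there are `t` and `c ∉ M` with
`c y ^ t ∈ (b, x1)`: induction on the order `t` of `r b` at `s = 1` (the largest `t` with `(s-1) ^ t ∣ r b` in the
Noetherian domain `Ls k`; `t = 0` iff `aug (r b) ≠ 0` iff `b ∉ M`). `t = 0`: `c = b`. `t > 0`: `b ∈ M`,
`e b = α x1 + β y`, `r e r b = r β r y`, `r e` has order `0` and `r y` order `1`, so `r β` has order `t - 1`; by induction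
`c y ^ (t-1) ∈ (β, x1)`, so `c y ^ t ∈ (β y, x1) ≤ (b, x1)`. (B) Suppose `b x1 ^ j = 0`, `r b ≠ 0`, with `t`, `c` as in (A). Let
`q = p ^ n`, `𝔣 = fpow q M`, `|B/𝔣| = p ^ (q ^ 2)` (hypothesis: `p ^ (p ^ (2 n))`). Every prime ideal containing `𝔣` contains
`M`, so elements not in `M` are units modulo `𝔣`, and `M ^ l ≤ 𝔣` for some `l` (`M` is finitely generated), so
`M ≤ (x1, y) + 𝔣` (from `M ≤ (x1, y) + M ^ 2` by iteration) and `(x1, y) + 𝔣 = M`, of index `p`. By `S_cn` (first part, as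
`y ^ q, x1 ^ q ∈ 𝔣`): `|B/((x1) + 𝔣)| ≤ p ^ q`; `y ^ t ∈ (b, x1) + 𝔣`, so `|B/((b, x1) + 𝔣)| ≤ p ^ t`, so
`|B/((b) + 𝔣)| ≤ p ^ (t q)`; `|B/((x1 ^ j) + 𝔣)| ≤ |B/((x1) + 𝔣)| ^ j ≤ p ^ (j q)`, and `b` kills `(x1 ^ j) + 𝔣` modulo `𝔣`: second
part: `p ^ (q ^ 2) ≤ p ^ (t q) * p ^ (j q)`, `q ≤ t + j`. Choose `n` with `p ^ n > t + j`. -/
def S_nn : Prop := ∀ (p : ℕ) [Fact p.Prime] (k : Type) [Field k] [CharP k p] (B : Type)
    [CommRing B] [IsNoetherianRing B] [Algebra (ZMod p) B] (r : B →+* Ls k) (φM : B →+* ZMod p)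
    (x1 y : B), (∀ b, aug k (r b) = ZMod.castHom (dvd_refl p) k (φM b)) → r x1 = 0 → φM y = 0 →
    (∃ v : Ls k, r y = (AddMonoidAlgebra.single 1 1 - 1) * v ∧ aug k v ≠ 0) →
    (∀ f, φM f = 0 → f ∈ Ideal.span {x1, y} ⊔ (RingHom.ker φM) ^ 2) →
    (∀ n : ℕ, Finite (B ⧸ fpow (p ^ n) (RingHom.ker φM)) ∧
      Nat.card (B ⧸ fpow (p ^ n) (RingHom.ker φM)) = p ^ (p ^ (2 * n))) →
    ∀ (b : B) (j : ℕ), b * x1 ^ j = 0 → r b = 0

/-! ## Part 2: the result over `F_p` -/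

/-- The data over `F_p`: `B` the (non-scalar part of the) trace ring, `r` the restriction to the
reducible locus, `x1` a uniformiser there, `q` with `q ker r ⊆ x1 B`. -/
structure Dat0 (p m : ℕ) [Fact p.Prime] [NeZero m] (k : Type) [Field k] [CharP k p] (ζ : kˣ)
    (Λ : Type) [Group Λ] (δ : Λ →* Multiplicative (ZMod m)) (n : Λ →* Multiplicative ℤ)
    (B : Type) [CommRing B] [Algebra (ZMod p) B] (T : Ext m δ → B) (r : B →+* Ls k)
    (x1 q : B) : Prop where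
  hp : p ≠ 2
  hm : 2 ≤ m
  hpm : 2 * m ∣ p + 1
  hζ : orderOf ζ = 2 * m
  cls : ClsZ m Λ δ n
  pc : PC T
  tc : T (cc m δ) = -2
  adj : Algebra.adjoin (ZMod p) (Set.range T) = ⊤
  ft : Algebra.FiniteType (ZMod p) B
  r_T : ∀ g, r (T g) = rr (ζ ^ ev m δ g) (Multiplicative.toAdd (n (e1 m δ g)))
  x1_r : r x1 = 0
  q_r : r q ≠ 0
  q_mul : ∀ i, r i = 0 → ∃ c, q * i = x1 * c
  nn : ∀ (b : B) (j : ℕ), b * x1 ^ j = 0 → r b = 0
  np : ∀ x : Fin 2 → B, ∃ g : Fin 2 → B, NP p (ZMod p) B x g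

/-- [CL e0] the idempotent vanishes on the reducible locus. (Uses `S_sc`, `S_ex`, `S_neg`.)

Proof. `m` even: `(0, 1) = 0 ∈ J` for all `J`, so `evv J e = 0` for all `J` and `e = 0` (`IsTR.sep`). `m` odd: let
`κ : B → F_p[X]` be the homomorphism with `κ (TB g) = Tsc g` (`UP.univ`, `S_neg`), `g₀` with `e2 g₀ = ofAdd 1`,
`n (e1 g₀) = 1` (`S_ex`), so `κ (TB g₀ + 2) = (-1) ^ 1 C_0 + 2 = 0`. CLAIM: `e * (TB g₀ + 2) = 0`. By `IsTR.sep` it is enough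
that `evv J` of it is `0` for every `J` of finite index. Let `J_a = J ⊔ (0, 1)`, `J_b = J ⊔ (1, 0)`; `J_a ⊓ J_b = J`
(`(1, 0)` and `(0, 1)` are orthogonal idempotents with sum `1`), so `A/J → A/J_a × A/J_b` is injective (`compat`).
`evv J_a e = 0` by hypothesis, `evv J_b (TB g₀ + 2) = 0` because `ker κ ≤ ker (evv J_b)` (`S_sc`). Now apply `r`:
`r e * (x 1 + 2) = 0` in the domain `Ls k` (`r (TB g₀) = rr ζ 0`, the constant `ζ⁻¹ + ζ = x 1`), and `x 1 ≠ -2 = x m`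
(`WJ.ne`, `2 ≤ m`, and `ZMod p → k` is injective). -/
def S_e0 : Prop := ∀ (p m : ℕ) [Fact p.Prime] [NeZero m] (x : ℕ → ZMod p) (Λ : Type) [Group Λ]
    (δ : Λ →* Multiplicative (ZMod m)) (n : Λ →* Multiplicative ℤ) (B : Type) [CommRing B]
    [Algebra (ZMod p) B] (TB : Ext m δ → B) (TA : Ext m (dG m) → AG p m)
    (evv : ∀ J : {J : Ideal (AG p m) // Finite (AG p m ⧸ J)}, B →ₐ[ZMod p] AG p m ⧸ J.1)
    (Φ : NatBij (Gam m) Λ) (Ψ : NatBij (Ext m (dG m)) (Ext m δ)),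
    CorX p m x Λ δ n B TB TA evv Φ Ψ → ∀ e : B,
    (∀ J, evv J e = 0 ↔ ((0 : A2 p m), (1 : A1 p m)) ∈ J.1) →
    ∀ (k : Type) [Field k] [CharP k p] (ζ : kˣ), orderOf ζ = 2 * m →
    (∀ j : ℕ, ZMod.castHom (dvd_refl p) k (x j) = (ζ : k) ^ j + ((ζ⁻¹ : kˣ) : k) ^ j) →
    ∀ r : B →+* Ls k, (∀ g, r (TB g) = rr (ζ ^ ev m δ g) (Multiplicative.toAdd (n (e1 m δ g)))) →
    r e = 0

/-- [CL cor] existence of the data `CorX`. (Uses `S_cls`, `S_nb`, `S_ex`, `S_wj`, `S_agt`, `S_aga`,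
`S_agu`, `S_um`, `S_evg`, `S_ze`.)

Proof. `Φ : NatBij (Gam m) Λ` (`exists_natBij` and `SameFiniteQuotients.symm`; `Gam m` is finitely generated), `n`
from `S_cls`, `δ = Φ dG`, `Ψ` from `S_nb` (`s = sq m`, onto by `S_ex`), `x` from `S_wj`, `TA` from `S_agt`, `UP` for it from
`ValG`, `S_aga`, `S_agu` (`¬ p ∣ m`: `S_ze`); `B, TB` from `S_um` for `Ext m δ` (finitely generated: `S_ex`); `S_evg` for `Ψ`,
`c = cc m (dG m)`, `c' = cc m δ` (the hypothesis is the last property in `S_nb` for `z = ofAdd m`). -/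
def S_cor : Prop := ∀ (p m : ℕ) [Fact p.Prime] [NeZero m], p ≠ 2 → 2 ≤ m → 2 * m ∣ p + 1 →
    ∀ (k : Type) [Field k] [CharP k p] (ζ : kˣ), orderOf ζ = 2 * m →
    ∀ (Λ : Type) [Group Λ] [Group.FG Λ], SameFiniteQuotients Λ (Gam m) →
    ∃ (x : ℕ → ZMod p) (δ : Λ →* Multiplicative (ZMod m)) (n : Λ →* Multiplicative ℤ) (B : Type)
      (_ : CommRing B) (_ : Algebra (ZMod p) B) (TB : Ext m δ → B) (TA : Ext m (dG m) → AG p m)
      (evv : ∀ J : {J : Ideal (AG p m) // Finite (AG p m ⧸ J)}, B →ₐ[ZMod p] AG p m ⧸ J.1)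
      (Φ : NatBij (Gam m) Λ) (Ψ : NatBij (Ext m (dG m)) (Ext m δ)),
      CorX p m x Λ δ n B TB TA evv Φ Ψ ∧
      ∀ j : ℕ, ZMod.castHom (dvd_refl p) k (x j) = (ζ : k) ^ j + ((ζ⁻¹ : kˣ) : k) ^ j

/-- [CL d0] existence of the data over `F_p`. (Uses `S_cor`, `S_two2`, `S_cntg`, `S_ptsg`, `S_ca`,
`S_pt`, `S_rr`, `S_x1`, `S_q`, `S_nn`, `S_e0`.)

Proof. Take the data of `S_cor` (call the ring `B₀`). `e`, `ev2` from `S_two2`, `B = B₀/(e)`, `T g = [TB g]`. `S_cntg` and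
`S_ptsg` for `ev2` with `S_ca` (`ι = JJ m`, `d = 2`) give `CD p 2 (Nat.card (JJ m)) B`. `φM` and `|B/M ^ 2| = p ^ 3`
(`M = ker φM`) from `S_pt`. `r₀ : B₀ → Ls k` from `S_rr`, `r₀ e = 0` (`S_e0`), so `r₀` induces `r : B → Ls k`. Now `S_x1` for `B`,
then `S_q` (`S = Ls k`; `ker r ≤ M` by `aug (r b) = φM b`; `r y ≠ 0`), which gives `q` with `q - 1 ∈ M`, so `aug (r q) = 1`,
`r q ≠ 0`; `S_nn` (`CD.cnt` for `I = M`, `|B/M| = p`). `B` is Noetherian (finite type). `np`: `cd_thmA` in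
`CZ/A/TF.lean`: over `ZMod p` `rt` is the identity (`ZMod.pow_card`), so `psik = F2TF.psi`, `cartk = F2TF.cart` (see
`F2/GB/npd.lean`); `B` is nontrivial because of `φM`. -/
def S_d0 : Prop := ∀ (p m : ℕ) [Fact p.Prime] [NeZero m], p ≠ 2 → 2 ≤ m → 2 * m ∣ p + 1 →
    ∀ (k : Type) [Field k] [CharP k p] (ζ : kˣ), orderOf ζ = 2 * m →
    ∀ (Λ : Type) [Group Λ] [Group.FG Λ], SameFiniteQuotients Λ (Gam m) →
    ∃ (δ : Λ →* Multiplicative (ZMod m)) (n : Λ →* Multiplicative ℤ) (B : Type) (_ : CommRing B)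
      (_ : Algebra (ZMod p) B) (T : Ext m δ → B) (r : B →+* Ls k) (x1 q : B),
      Dat0 p m k ζ Λ δ n B T r x1 q

/-! ## Part 3: base change -/

/-- [CL fix] vectors fixed by a semilinear map.

Proof. Suppose there is a nontrivial relation over `k`; take one with minimal support, `∑ c_i f_i = 0`, and
normalise one coefficient `c_j = 1`. Apply `σ`: `∑ c_i ^ p f_i = 0`; subtract: a relation with smaller support, so
`c_i ^ p = c_i` for all `i`, so `c_i ∈ ZMod p` (the equation `y ^ p = y` has exactly `p` solutions), contradiction to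
the hypothesis. -/
def S_fix : Prop := ∀ (p : ℕ) [Fact p.Prime] (k : Type) [Field k] [CharP k p] (V : Type)
    [AddCommGroup V] [Module k V] (σ : V →+ V), (∀ (c : k) (v : V), σ (c • v) = c ^ p • σ v) →
    ∀ (ι : Type) (f : ι → V), (∀ i, σ (f i) = f i) →
    (∀ s : ι →₀ ZMod p, (s.sum fun i a => ZMod.castHom (dvd_refl p) k a • f i) = 0 → s = 0) →
    LinearIndependent k f

/-- [CL rk] the restriction map over `k`. (Uses `S_fix`, `S_ex`.)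

Proof. `rk = a ⊗ b ↦ a • r b` (`Algebra.TensorProduct.lift`, `r` is a `ZMod p`-algebra homomorphism). Surjective:
`rk (T g)` for `g` of classes `(1, a)`, `a = 0, 1`: `s + s⁻¹` and `ζ⁻¹ s + ζ s⁻¹`, `ζ ≠ ζ⁻¹` (`2 m ≥ 4`), so `s`, `s⁻¹` are in the
range. `σ : Ls k → Ls k`, `∑ c_n s ^ n ↦ ∑ c_n ^ p s ^ (-n)`, is additive, multiplicative, semilinear, and
`σ (r b) = r b` for all `b` (for `b = T g`: `ζ ^ p = ζ⁻¹`, as `2 m ∣ p + 1`). Kernel: let `b_i` be elements of `B` whose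
classes are a basis of the `F_p`-vector space `B / ker r`; every element of `k ⊗ B` is `∑ c_i ⊗ b_i +` an
element of `k ⊗ ker r`; if `rk` of it is `0` then `∑ c_i r(b_i) = 0`, and the `r(b_i)` are linearly independent over
`k` by `S_fix`, so all `c_i = 0`. Elements killed by `x1 ^ j`: let `c_i` be a basis of `k` over `F_p`,
`f = ∑ c_i ⊗ b_i`, `f * (1 ⊗ x1) ^ j = ∑ c_i ⊗ b_i x1 ^ j`, so `b_i x1 ^ j = 0`, `r b_i = 0` (`Dat0.nn`), `rk f = 0`. -/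
def S_rk : Prop := ∀ (p m : ℕ) [Fact p.Prime] [NeZero m] (k : Type) [Field k] [CharP k p]
    [Algebra (ZMod p) k] (ζ : kˣ) (Λ : Type) [Group Λ] (δ : Λ →* Multiplicative (ZMod m))
    (n : Λ →* Multiplicative ℤ) (B : Type) [CommRing B] [Algebra (ZMod p) B] (T : Ext m δ → B)
    (r : B →+* Ls k) (x1 q : B), Dat0 p m k ζ Λ δ n B T r x1 q →
    ∃ rk : (k ⊗[ZMod p] B) →ₐ[k] Ls k, (∀ (a : k) (b : B), rk (a ⊗ₜ b) = a • r b) ∧
      Function.Surjective rk ∧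
      (∀ f, rk f = 0 → f ∈ Submodule.span k ((fun b : B => (1 : k) ⊗ₜ[ZMod p] b) ''
        {b : B | r b = 0})) ∧
      (∀ (f : k ⊗[ZMod p] B) (j : ℕ), f * ((1 : k) ⊗ₜ[ZMod p] x1) ^ j = 0 → rk f = 0) ∧
      ∀ (b : B) (l : ℤ), (r b).coeff (-l) = ((r b).coeff l) ^ p

/-- [CL dom] the component through the reducible locus is a domain.

Proof. `𝔮 = {f | ∃ c, ρ c ≠ 0 ∧ c * f = 0}` is an ideal as `S` is a domain, `𝔮 ≤ ker ρ` (`ρ c ρ f = 0`). CLAIM: for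
`f ∉ 𝔮` there are `n`, `c`, `f'` with `ρ c ≠ 0`, `ρ f' ≠ 0`, `c f = x1 ^ n f'`. If not then for every `n` there are `c_n`, `f_n` with
`ρ c_n ≠ 0`, `c_n f = x1 ^ n f_n` (`n = 0`: `1`, `f`; step: `ρ f_n = 0`, `q f_n = x1 f_(n+1)`, `c_(n+1) = q c_n`). In the
Noetherian local ring `R_I`, `I = ker ρ`, `f` lies in all powers of the maximal ideal, so `f = 0` there (Krull),
i.e. `f ∈ 𝔮`. (Or the elementary argument with the ascending chain of ideals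
`{x | ∃ l, q ^ l x ∈ (f_n)}` in `F2/FB/or.lean`.) Prime: `1 ∉ 𝔮`; let `f g ∈ 𝔮`, `f, g ∉ 𝔮`: `c f = x1 ^ n f'`, `c' g = x1 ^ n' g'`,
`c'' f g = 0`: `x1 ^ (n + n') (c'' f' g') = 0` (multiply `c'' f g = 0` by `c c'`), so `ρ (c'' f' g') = 0` by the last
hypothesis: contradiction. -/
def S_dom : Prop := ∀ (R S : Type) [CommRing R] [IsNoetherianRing R] [CommRing S] [IsDomain S]
    (ρ : R →+* S) (x1 q : R), ρ x1 = 0 → ρ q ≠ 0 → (∀ i, ρ i = 0 → ∃ c, q * i = x1 * c) →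
    (∀ (f : R) (j : ℕ), f * x1 ^ j = 0 → ρ f = 0) →
    ∃ 𝔮 : Ideal R, 𝔮.IsPrime ∧ ∀ f, f ∈ 𝔮 ↔ ∃ c, ρ c ≠ 0 ∧ c * f = 0

/-- [CL bcn] base change of `NP`.

Proof. As `F2.S_bcn` (`F2/GB/bcn.lean`) with two variables: `g' = ψ ∘ g`; a basis `c_s` of `k` over `F_p`; every
polynomial over `k` is uniquely `∑ c_s a_s` with `a_s` over `F_p`; for `l' : D' → Ak k` write
`l' (ψ d) = ∑ s, c_s (l_s d)`; `cartk^[N] l' (ψ d) = ∑ s, rt^[N] (c_s) (cartk^[N] l_s d)`. -/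
def S_bcn : Prop := ∀ (p : ℕ) [Fact p.Prime] (k : Type) [Field k] [CharP k p] [PerfectRing k p]
    (D : Type) [CommRing D] [Algebra (ZMod p) D] (D' : Type) [CommRing D'] [Algebra k D']
    (ψ : D →+* D'), Submodule.span k (Set.range ψ) = ⊤ → ∀ x g : Fin 2 → D,
    NP p (ZMod p) D x g → NP p k D' (fun i => ψ (x i)) (fun i => ψ (g i))

/-- THE RESULT before section F: the domain `D` over `k`, the restriction map, the symmetry `ι`, the
polynomial coordinates `φ` (`X 0` a uniformiser of the reducible locus). -/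
structure Dat1 (p m : ℕ) [Fact p.Prime] [NeZero m] (k : Type) [Field k] [CharP k p]
    [PerfectRing k p] (ζ : kˣ)
    (Λ : Type) [Group Λ] (δ : Λ →* Multiplicative (ZMod m)) (n : Λ →* Multiplicative ℤ)
    (D : Type) [CommRing D] [Algebra k D] (T : Ext m δ → D) (φ : Ak k →ₐ[k] D)
    (res : D →ₐ[k] Ls k) (g : Fin 2 → D) (j : D ≃+* D) : Prop where
  hm : 2 ≤ m
  hpm : 2 * m ∣ p + 1
  hζ : orderOf ζ = 2 * m
  cls : ClsZ m Λ δ n
  pc : PC T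
  tc : T (cc m δ) = -2
  gen : Algebra.adjoin k (Set.range T) = ⊤
  bd : BD p k D φ res g
  res_T : ∀ l, res (T l) = rr (ζ ^ ev m δ l) (Multiplicative.toAdd (n (e1 m δ l)))
  j_k : ∀ c : k, j (algebraMap k D c) = algebraMap k D (c ^ p)
  j_T : ∀ l, j (T l) = T l
  j_x : ∀ i, j (φ (X i)) = φ (X i)
  j_res : ∀ (d : D) (l : ℤ), (res (j d)).coeff l = ((res d).coeff (-l)) ^ p

/-- [CL d1] existence of the domain. (Uses `S_rk`, `S_dom`, `S_bcn`, `S_ex`.)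

Proof. `R = k ⊗ B` is a finitely generated `k`-algebra, `rk` from `S_rk`. `S_dom` for `ρ = rk`, `1 ⊗ x1`, `1 ⊗ q`:
`rk i = 0` implies `i = ∑ a_l ⊗ b_l`, `r b_l = 0`, `q b_l = x1 c_l`, `(1 ⊗ q) i = (1 ⊗ x1) ∑ a_l ⊗ c_l`. `D = R ⧸ 𝔮`, a domain;
`res` = the map induced by `rk` (`𝔮 ≤ ker rk`), onto. `T l = [1 ⊗ T l]`. `x_2 = T g` for `g` with `e2 g = 1`, `n (e1 g) = 1`
(`S_ex`, `ev g = 0`): `r x_2 = rr 1 1`. `φ = aeval ![[1 ⊗ x1], [1 ⊗ x_2]]`; `res (φ a) = resA a` on generators. `kne`: if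
`[1 ⊗ x1] = 0` then `c (1 ⊗ x1) = 0` with `rk c ≠ 0`, contradiction to the fourth property in `S_rk` (`j = 1`).
`loc`: `[1 ⊗ q]`: let `res b = 0`, `b = [i]`, `rk i = 0`. `np`: `Dat0.np` for `![x1, x_2]` gives `g₀`, and `S_bcn` for
`ψ : B → D`, `b ↦ [1 ⊗ b]`. `j`: `Algebra.TensorProduct.map` of the Frobenius of `k` (a ring automorphism; it is
`ZMod p`-linear) and the identity is a ring automorphism `J` of `R` with `rk (J f) = σ (rk f)`, `σ` as in `S_rk`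
(check on `a ⊗ b`: `rk (J (a ⊗ b)) = a ^ p r b`, coefficient at `l`: `a ^ p (r b)_l = (a (r b)_(-l)) ^ p` by the last
property in `S_rk`, applied to `b` and `-l`), so `J 𝔮 = 𝔮`. `gen`: `B` is generated by the `T g` over `ZMod p`. -/
def S_d1 : Prop := ∀ (p m : ℕ) [Fact p.Prime] [NeZero m] (k : Type) [Field k] [CharP k p]
    [PerfectRing k p] [Algebra (ZMod p) k] (ζ : kˣ) (Λ : Type) [Group Λ]
    (δ : Λ →* Multiplicative (ZMod m))
    (n : Λ →* Multiplicative ℤ) (B : Type) [CommRing B] [Algebra (ZMod p) B] (T : Ext m δ → B)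
    (r : B →+* Ls k) (x1 q : B), Dat0 p m k ζ Λ δ n B T r x1 q →
    ∃ (D : Type) (_ : CommRing D) (_ : Algebra k D) (T' : Ext m δ → D) (φ : Ak k →ₐ[k] D)
      (res : D →ₐ[k] Ls k) (g : Fin 2 → D) (j : D ≃+* D),
      Dat1 p m k ζ Λ δ n D T' φ res g j

end

end Pool.Agent.CZA
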